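import Pool.Agent.Run7.h720.Gauss

/-!
The abc inequality for sparse algebraic integers, with coefficients in an extension.
-/

set_option autoImplicit false
set_option linter.unusedSectionVars false

namespace Pool.Agent.Run7.h720

open NumberField IsDedekindDomain Height
open Pool.Agent.K1H83.VN

variable {K : Type} [Field K] [NumberField K]

/-- a product over the embeddings is a product over the infinite places with multiplicity -/
theorem prod_emb' (f : InfinitePlace K → ℝ) :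
    ∏ φ : K →+* ℂ, f (InfinitePlace.mk φ) = ∏ w : InfinitePlace K, f w ^ w.mult := by
  classical
  rw [← Finset.prod_fiberwise Finset.univ (fun φ : K →+* ℂ => InfinitePlace.mk φ)]
  refine Finset.prod_congr rfl fun w _ => ?_
  rw [← InfinitePlace.card_filter_mk_eq w, ← Finset.prod_const]
  refine Finset.prod_congr rfl fun φ hφ => ?_
  rw [(Finset.mem_filter.mp hφ).2]

/-- the counting function of an integer is the logarithm of the norm -/
theorem cnt_norm (z : K) (hz : z ≠ 0) : cnt ∅ z = Real.log |((Algebra.norm ℚ z : ℚ) : ℝ)| := by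
  have h1 := InfinitePlace.prod_eq_abs_norm z
  rw [cnt_ok z hz]
  push_cast at h1
  rw [← h1, Real.log_prod fun w _ => (pow_pos (w.pos_iff.2 hz) _).ne']
  exact Finset.sum_congr rfl fun w _ => by rw [Real.log_pow]

theorem norm_ext {L : Type} [Field L] [NumberField L] [Algebra K L] (z : K) :
    Algebra.norm ℚ (algebraMap K L z) = Algebra.norm ℚ z ^ Module.finrank K L := by
  have : IsScalarTower ℚ K L := inferInstance
  rw [← Algebra.norm_norm (R := ℚ) (S := K) (A := L), Algebra.norm_algebraMap, map_pow]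

/-- `max (|a|, |b|)` over all embeddings -/
noncomputable def pht (a b : 𝓞 K) : ℝ := ∏ φ : K →+* ℂ, max ‖φ (a : K)‖ ‖φ (b : K)‖

theorem pht_eq (a b : 𝓞 K) :
    pht a b = ∏ w : InfinitePlace K, max (w (a : K)) (w (b : K)) ^ w.mult := by
  rw [← prod_emb']
  rfl

theorem pht_log (a b : 𝓞 K) (h : IsCoprime a b) (hb : b ≠ 0) :
    Real.log (pht a b) = logHeight ![(a : K), (b : K)] := by
  have hb' : (b : K) ≠ 0 := by exact_mod_cast hb
  rw [height_pair_ok a b h hb, pht_eq, Real.log_prod fun w _ =>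
    (pow_pos (lt_max_of_lt_right (w.pos_iff.2 hb')) _).ne']
  exact Finset.sum_congr rfl fun w _ => by rw [Real.log_pow]

theorem pht_pos (a b : 𝓞 K) (hb : b ≠ 0) : 0 < pht a b := by
  have hb' : (b : K) ≠ 0 := by exact_mod_cast hb
  rw [pht_eq]
  exact Finset.prod_pos fun w _ => pow_pos (lt_max_of_lt_right (w.pos_iff.2 hb')) _

/-- **The abc inequality for sparse algebraic integers, coefficients in an extension.** -/
theorem k_abc (K L : Type) [Field K] [NumberField K] [Field L] [NumberField L] [Algebra K L]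
    (Γ : Subgroup Lˣ) (hΓ : Γ.FG) (r m : ℕ) (B ε : ℝ) (hε : 0 < ε) :
    ∃ δ C : ℝ, 0 < δ ∧ 0 < C ∧ ∀ (a b c ρ τ : 𝓞 K) (H : ℝ),
      H = ∏ φ : K →+* ℂ, max ‖φ (a : K)‖ (max ‖φ (b : K)‖ ‖φ (c : K)‖) →
      IsCoprime a b → a + b + c = 0 → a * b * c ≠ 0 → ρ ≠ 0 → τ ≠ 0 →
      a * b * c ∣ ρ ^ m * τ → Short Γ r (B * H ^ δ) (algebraMap K L a) →
      Short Γ r (B * H ^ δ) (algebraMap K L b) → Short Γ r (B * H ^ δ) (algebraMap K L ρ) →
      H ≤ C * (|((Algebra.norm ℚ (ρ : K) : ℚ) : ℝ)| * |((Algebra.norm ℚ (τ : K) : ℚ) : ℝ)|) ^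
        (1 + ε) := by
  classical
  obtain ⟨ε', hε'⟩ : ∃ ε', ε' = ε / (1 + ε) := ⟨_, rfl⟩
  have hε'0 : 0 < ε' := by rw [hε']; positivity
  have hε'1 : (1 - ε') = 1 / (1 + ε) := by
    rw [hε']
    field_simp
    ring
  obtain ⟨D, hD⟩ : ∃ D : ℝ, D = 2 ^ Fintype.card (K →+* ℂ) := ⟨_, rfl⟩
  have hD1 : 1 ≤ D := by
    rw [hD]
    exact one_le_pow₀ (by norm_num)
  obtain ⟨δ', C', hδ', h⟩ := ol_abc L Γ hΓ r m (|B| * D) ε' hε'0
  obtain ⟨d, hd⟩ : ∃ d : ℕ, d = Module.finrank K L := ⟨_, rfl⟩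
  have hd1 : (1 : ℝ) ≤ d := by
    rw [hd]
    exact_mod_cast Nat.one_le_iff_ne_zero.2 (Module.finrank_pos (R := K) (M := L)).ne'
  refine ⟨min (d * δ') 1, D * Real.exp ((1 + ε) * |C'|), by positivity, by positivity, ?_⟩
  intro a b c ρ τ H hH hab habc h0 hρ hτ hdiv hs1 hs2 hs3
  have ha : a ≠ 0 := fun h => h0 (by rw [h, zero_mul, zero_mul])
  have hb : b ≠ 0 := fun h => h0 (by rw [h, mul_zero, zero_mul])
  have hc : c ≠ 0 := fun h => h0 (by rw [h, mul_zero])
  have habc' : a + b = -c := eq_neg_of_add_eq_zero_left habc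
  obtain ⟨ψ, hψ⟩ : ∃ ψ : 𝓞 K →+* 𝓞 L, ψ = RingOfIntegers.mapRingHom (algebraMap K L) :=
    ⟨_, rfl⟩
  have hψc : ∀ z : 𝓞 K, ((ψ z : 𝓞 L) : L) = algebraMap K L (z : K) := fun z => by
    rw [hψ]
    rfl
  have hinj' : Function.Injective ψ := fun x y hxy => by
    have h1 := congrArg (fun z : 𝓞 L => (z : L)) hxy
    simp only [hψc] at h1
    exact RingOfIntegers.ext ((algebraMap K L).injective h1)
  have hne : ∀ z : 𝓞 K, z ≠ 0 → ψ z ≠ 0 := fun z hz h => hz (hinj' (by rw [h, map_zero]))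
  obtain ⟨M, hM⟩ : ∃ M, M = pht a b := ⟨_, rfl⟩
  have hM0 : 0 < M := by
    rw [hM]
    exact pht_pos a b hb
  have hlogK := pht_log a b hab hb
  have hM1 : 1 ≤ M := by
    have h1 := logHeight_nonneg ![(a : K), (b : K)]
    rw [← hlogK, ← hM] at h1
    by_contra hlt
    push Not at hlt
    have := Real.log_neg hM0 hlt
    linarith
  have hMH : M ≤ H := by
    rw [hM, hH]
    refine Finset.prod_le_prod (fun φ _ => le_max_of_le_left (norm_nonneg _)) fun φ _ => ?_
    exact max_le (le_max_left _ _) (le_max_of_le_right (le_max_left _ _))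
  have hH2 : H ≤ D * M := by
    rw [hM, hH, hD, ← Finset.card_univ, ← Finset.prod_const, pht, ← Finset.prod_mul_distrib]
    refine Finset.prod_le_prod (fun φ _ => le_max_of_le_left (norm_nonneg _)) fun φ _ => ?_
    have h1 : ‖φ (c : K)‖ ≤ ‖φ (a : K)‖ + ‖φ (b : K)‖ := by
      have h2 : (c : K) = -((a : K) + (b : K)) := by
        have h3 := congrArg (fun z : 𝓞 K => (z : K)) habc
        simp only [map_add, map_zero] at h3
        linear_combination h3
      rw [h2, map_neg, norm_neg, map_add]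
      exact norm_add_le _ _
    have h2 := le_max_left ‖φ (a : K)‖ ‖φ (b : K)‖
    have h3 := le_max_right ‖φ (a : K)‖ ‖φ (b : K)‖
    have h4 := norm_nonneg (φ (a : K))
    refine max_le (by linarith) (max_le (by linarith) (by linarith))
  have hH1 : 1 ≤ H := hM1.trans hMH
  have hlogh : logHeight ![((ψ a : 𝓞 L) : L), ((ψ b : 𝓞 L) : L)] = d * Real.log M := by
    rw [hM, hlogK, hd, ← Pool.Agent.Helper259.HtExt.logHeight_ext (K := K) (L := L)]
    congr 1
    funext i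
    fin_cases i
    · exact hψc a
    · exact hψc b
  have hmul : mulHeight ![((ψ a : 𝓞 L) : L), ((ψ b : 𝓞 L) : L)] = M ^ (d : ℝ) := by
    have h1 : mulHeight ![((ψ a : 𝓞 L) : L), ((ψ b : 𝓞 L) : L)] =
        Real.exp (d * Real.log M) := by
      rw [← hlogh, logHeight_eq_log_mulHeight, Real.exp_log (mulHeight_pos _)]
    rw [h1, Real.rpow_def_of_pos (by linarith), mul_comm]
  have hnpos : ∀ z : 𝓞 K, z ≠ 0 → 0 < |((Algebra.norm ℚ (z : K) : ℚ) : ℝ)| := by
    intro z hz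
    have h1 : Algebra.norm ℚ (z : K) ≠ 0 := by
      rw [Algebra.norm_ne_zero_iff]
      exact_mod_cast hz
    rw [abs_pos]
    exact_mod_cast h1
  have hcnt : ∀ z : 𝓞 K, z ≠ 0 → cnt ∅ ((ψ z : 𝓞 L) : L) =
      d * Real.log |((Algebra.norm ℚ (z : K) : ℚ) : ℝ)| := by
    intro z hz
    rw [cnt_norm _ (by exact_mod_cast hne z hz), hψc, norm_ext, ← hd]
    push_cast
    rw [abs_pow, Real.log_pow]
  have hR : B * H ^ min (d * δ') 1 ≤ |B| * D *
      mulHeight ![((ψ a : 𝓞 L) : L), ((ψ b : 𝓞 L) : L)] ^ δ' := by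
    rw [hmul, ← Real.rpow_mul (by linarith)]
    have h1 : H ^ min (d * δ') 1 ≤ (D * M) ^ min (d * δ') 1 :=
      Real.rpow_le_rpow (by linarith) hH2 (by positivity)
    have h2 : (D * M) ^ min ((d : ℝ) * δ') 1 ≤ D * M ^ ((d : ℝ) * δ') := by
      rw [Real.mul_rpow (by linarith) (by linarith)]
      refine mul_le_mul ?_ (Real.rpow_le_rpow_of_exponent_le hM1 (min_le_left _ _))
        (by positivity) (by linarith)
      calc D ^ min ((d : ℝ) * δ') 1 ≤ D ^ (1 : ℝ) :=
            Real.rpow_le_rpow_of_exponent_le hD1 (min_le_right _ _)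
        _ = D := Real.rpow_one D
    calc B * H ^ min (d * δ') 1 ≤ |B| * H ^ min (d * δ') 1 :=
          mul_le_mul_of_nonneg_right (le_abs_self B) (by positivity)
      _ ≤ |B| * (D * M ^ ((d : ℝ) * δ')) :=
          mul_le_mul_of_nonneg_left (h1.trans h2) (abs_nonneg _)
      _ = |B| * D * M ^ ((d : ℝ) * δ') := by ring
  rw [← hψc] at hs1 hs2 hs3
  have hmain := h (ψ a) (ψ b) (ψ ρ) (ψ τ) (hab.map ψ) (hne a ha) (hne b hb) (by
      rw [← map_add, habc']
      exact hne _ (neg_ne_zero.2 hc)) (hne ρ hρ) (hne τ hτ) (by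
      rw [← map_add, habc', ← map_mul, ← map_mul, ← map_pow, ← map_mul]
      refine map_dvd _ ?_
      rw [mul_neg, neg_dvd]
      exact hdiv) (hs1.mono hR) (hs2.mono hR) (hs3.mono hR)
  rw [hlogh, hcnt ρ hρ, hcnt τ hτ, hε'1] at hmain
  have hρ1 := hnpos ρ hρ
  have hτ1 := hnpos τ hτ
  obtain ⟨nρ, hnρ⟩ : ∃ nρ, nρ = |((Algebra.norm ℚ (ρ : K) : ℚ) : ℝ)| := ⟨_, rfl⟩
  obtain ⟨nτ, hnτ⟩ : ∃ nτ, nτ = |((Algebra.norm ℚ (τ : K) : ℚ) : ℝ)| := ⟨_, rfl⟩
  rw [← hnρ] at hρ1 hmain ⊢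
  rw [← hnτ] at hτ1 hmain ⊢
  have h5 : Real.log M ≤ (1 + ε) * |C'| + (1 + ε) * (Real.log nρ + Real.log nτ) := by
    have h6 : (d : ℝ) * Real.log M ≤ (1 + ε) * (d * Real.log nρ + d * Real.log nτ + C') := by
      have h7 := mul_le_mul_of_nonneg_left hmain (by positivity : (0 : ℝ) ≤ 1 + ε)
      refine le_trans (le_of_eq ?_) h7
      field_simp
    have h8 : C' ≤ d * |C'| := (le_abs_self C').trans (le_mul_of_one_le_left (abs_nonneg _) hd1)
    have h9 : (d : ℝ) * Real.log M ≤ d * ((1 + ε) * |C'| + (1 + ε) *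
        (Real.log nρ + Real.log nτ)) := by
      refine h6.trans ?_
      have h10 := mul_le_mul_of_nonneg_left h8 (by positivity : (0 : ℝ) ≤ 1 + ε)
      linarith
    exact le_of_mul_le_mul_left h9 (by linarith)
  have h6 : M ≤ Real.exp ((1 + ε) * |C'|) * (nρ * nτ) ^ (1 + ε) := by
    rw [← Real.log_le_log_iff (by linarith) (by positivity), Real.log_mul (Real.exp_pos _).ne'
      (by positivity), Real.log_exp, Real.log_rpow (by positivity),
      Real.log_mul hρ1.ne' hτ1.ne']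
    exact h5
  calc H ≤ D * M := hH2
    _ ≤ D * (Real.exp ((1 + ε) * |C'|) * (nρ * nτ) ^ (1 + ε)) :=
        mul_le_mul_of_nonneg_left h6 (by linarith)
    _ = _ := by ring

end Pool.Agent.Run7.h720
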