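import Pool.Agent.Run7.h720.WMain

/-!
Vojta's inequality for short points of the members of families: the version without a divisor
outside of the finite set of places.
-/

set_option autoImplicit false
set_option linter.unusedSectionVars false

namespace Pool.Agent.Run7.h720

open NumberField IsDedekindDomain Height Filter Topology
open Pool.Agent.W180.OP (Pl av wt fv fv_support_finite wt_nonneg nrm)
open Pool.Agent.K1H83.VN
open MvPolynomial (aeval pderiv monomial)

/-- smoothness of all members at all points over all fields -/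
theorem SmFam_of {K : Type} [Field K] {p m g q w na nb : ℕ} (s : ℕ)
    (Ψ : Fin na → MvPolynomial (Fin p) K) (Υ : Fin nb → MvPolynomial (Fin p) K)
    (Gs : Fin g → MvPolynomial (Fin m) (MvPolynomial (Fin p) K))
    (F : Fin q → Fin w → MvPolynomial (Fin m) (MvPolynomial (Fin p) K))
    (h : ∀ (L : Type) [Field L] [Algebra K L] (c : Fin p → L) (z : Fin m → L),
      (∀ i, aeval c (Ψ i) = 0) → (∀ i, aeval c (Υ i) ≠ 0) → z ≠ 0 →
      (∀ i, aeval z (fib c (Gs i)) = 0) → ∃ (a : Fin s → Fin g) (b : Fin q → Fin w),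
        LinearIndependent L
      (Sum.elim (fun i => fun y => aeval z (pderiv y (fib c (Gs (a i)))))
        (fun i : {i : Fin q // ∀ j, aeval z (fib c (F i j)) = 0} =>
          fun y => aeval z (pderiv y (fib c (F i.1 (b i.1))))))) :
    SmFam s Ψ Υ Gs F := by
  intro L _ _ c hΨ hΥ L' _ _ z hz hG
  letI : Algebra K L' := ((algebraMap L L').comp (algebraMap K L)).toAlgebra
  haveI : IsScalarTower K L L' := IsScalarTower.of_algebraMap_eq fun _ => rfl
  have e1 : ∀ a : MvPolynomial (Fin p) K, aeval (fun j => algebraMap L L' (c j)) a =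
      algebraMap L L' (aeval c a) := fun a =>
    MvPolynomial.aeval_algebraMap_apply (A := L) (B := L') c a
  have e2 : ∀ H : MvPolynomial (Fin m) (MvPolynomial (Fin p) K), aeval z (fib c H) =
      aeval z (fib (fun j => algebraMap L L' (c j)) H) := fun H => aeval_fib c H z
  have e3 : ∀ (H : MvPolynomial (Fin m) (MvPolynomial (Fin p) K)) (y : Fin m),
      aeval z (pderiv y (fib c H)) =
        aeval z (pderiv y (fib (fun j => algebraMap L L' (c j)) H)) := by
    intro H y
    rw [← fib_pderiv, e2, fib_pderiv]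
  obtain ⟨a, b, hab⟩ := h L' (fun j => algebraMap L L' (c j)) z (fun i => by
      rw [e1, hΨ i, map_zero]) (fun i => by
      rw [e1]
      exact (map_ne_zero _).2 (hΥ i)) hz (fun i => by
      rw [← e2]
      exact hG i)
  refine ⟨a, b, ?_⟩
  have h2 : (fun i : Fin q => ∀ j, aeval z (fib c (F i j)) = 0) =
      fun i : Fin q => ∀ j, aeval z (fib (fun j => algebraMap L L' (c j)) (F i j)) = 0 := by
    funext i
    simp only [e2]
  have h3 : Function.Injective (Sum.map (id : Fin s → Fin s)
      (fun i : {i : Fin q // ∀ j, aeval z (fib c (F i j)) = 0} =>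
        (⟨i.1, by
          have h4 := i.2
          simpa only [e2] using h4⟩ :
        {i : Fin q // ∀ j, aeval z (fib (fun j => algebraMap L L' (c j)) (F i j)) = 0}))) := by
    refine Function.Injective.sumMap Function.injective_id ?_
    intro i j hij
    exact Subtype.ext (congrArg (fun i => i.1) hij)
  have h5 := hab.comp _ h3
  convert h5 using 1
  funext i
  rcases i with i | i
  · funext y
    exact e3 _ _
  · funext y
    exact e3 _ _

/-- the empty divisor -/
theorem SmFam_one {K : Type} [Field K] {p m g q w na nb : ℕ} (hw : 0 < w ∨ q = 0) (s : ℕ)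
    (Ψ : Fin na → MvPolynomial (Fin p) K) (Υ : Fin nb → MvPolynomial (Fin p) K)
    (Gs : Fin g → MvPolynomial (Fin m) (MvPolynomial (Fin p) K))
    (F : Fin q → Fin w → MvPolynomial (Fin m) (MvPolynomial (Fin p) K))
    (h : SmFam s Ψ Υ Gs F) : SmFam s Ψ Υ Gs (fun (_ : Fin q) (_ : Fin w) =>
      (1 : MvPolynomial (Fin m) (MvPolynomial (Fin p) K))) := by
  intro L _ _ c hΨ hΥ L' _ _ z hz hG
  obtain ⟨a, b, hab⟩ := h L c hΨ hΥ L' z hz hG
  refine ⟨a, b, ?_⟩
  have h1 : IsEmpty {i : Fin q // ∀ j : Fin w,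
      aeval z (fib c (1 : MvPolynomial (Fin m) (MvPolynomial (Fin p) K))) = 0} := by
    constructor
    rintro ⟨i, hi⟩
    rcases hw with hw | hw
    · have h2 := hi ⟨0, hw⟩
      unfold fib at h2
      rw [map_one, map_one] at h2
      exact one_ne_zero h2
    · subst hw
      exact i.elim0
  have h2 := hab.comp (Sum.inl : Fin s → _) Sum.inl_injective
  have h3 : Function.Injective (fun i : Fin s ⊕ {i : Fin q // ∀ j : Fin w,
      aeval z (fib c (1 : MvPolynomial (Fin m) (MvPolynomial (Fin p) K))) = 0} =>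
        i.elim id (fun i => (h1.false i).elim)) := by
    rintro (i | i) (j | j) hij
    · exact congrArg Sum.inl hij
    · exact (h1.false j).elim
    · exact (h1.false i).elim
    · exact (h1.false i).elim
  have h4 := h2.comp _ h3
  convert h4 using 1
  funext i
  rcases i with i | i
  · rfl
  · exact (h1.false i).elim

variable {k : Type} [Field k] [NumberField k]

theorem nm_one {w : ℕ} (hw : 0 < w) (f : AbsoluteValue k ℝ) :
    nm f (fun _ : Fin w => (1 : k)) = 1 := by
  have : Nonempty (Fin w) := ⟨⟨0, hw⟩⟩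
  obtain ⟨i, hi⟩ := exists_nm (f := f) fun _ : Fin w => (1 : k)
  rw [← hi, map_one]

theorem cnt_one (T : Set (HeightOneSpectrum (𝓞 k))) : cnt T (1 : k) = 0 := by
  unfold cnt
  simp

/-- **Vojta's inequality for short points of the members of a family and divisors at finitely many
places.** -/
theorem var_prox (K : Type) [Field K] [NumberField K] (Γ : Subgroup Kˣ) (hΓ : Γ.FG)
    (T : Finset (Pl K)) (hT : ∀ w : InfinitePlace K, Sum.inl w ∈ T)
    {m g q w s n p na nb : ℕ} (hn : 1 ≤ n)
    (Ψ : Fin na → MvPolynomial (Fin p) K) (Υ : Fin nb → MvPolynomial (Fin p) K)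
    (Gs : Fin g → MvPolynomial (Fin m) (MvPolynomial (Fin p) K))
    (F' : Pl K → Fin q → Fin w → MvPolynomial (Fin m) (MvPolynomial (Fin p) K))
    (hGF' : ∀ v ∈ T, SmFam s Ψ Υ Gs (F' v)) (hm : s + (n + 1) = m)
    (dG : Fin g → ℕ) (hGh : ∀ i, (Gs i).IsHomogeneous (dG i)) (dF' : Pl K → Fin q → ℕ)
    (hFh' : ∀ v ∈ T, ∀ i j, (F' v i j).IsHomogeneous (dF' v i)) (r : ℕ) (B ε : ℝ)
    (hε : 0 < ε) :
    ∃ (N : ℕ) (Pe : Fin N → MvPolynomial (Fin (n + 1)) (MvPolynomial (Fin p) K)) (e : Fin N → ℕ)
      (δ C : ℝ), (∀ i, (Pe i).IsHomogeneous (e i)) ∧ 0 < δ ∧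
      ∀ (c : Fin p → K) (x : Fin m → K) (A : Matrix (Fin m) (Fin (n + 1)) K), x ≠ 0 →
        (∀ i, aeval c (Ψ i) = 0) → (∀ i, aeval c (Υ i) ≠ 0) →
        (∀ j, mulHeight₁ (c j) ≤ B * mulHeight x ^ δ) →
        (∀ i, aeval x (fib c (Gs i)) = 0) →
        (∃ J : Fin (n + 1) → Fin m, ∀ i, fib c (Pe i) ≠ 0 →
          aeval (fun a => x (J a)) (fib c (Pe i)) ≠ 0) →
        (∀ v ∈ T, ∀ i, ∃ j, aeval x (fib c (F' v i j)) ≠ 0) →
        PShort Γ r (B * mulHeight x ^ δ) x →
        LinearIndependent K (fun (c' : Fin (n + 1)) (j : Fin m) => A j c') →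
        (∀ k' c', ∑ j, aeval x (pderiv j (fib c (Gs k'))) * A j c' = 0) →
        logHeight (fun J : Fin (n + 1) → Fin m => (A.submatrix J id).det) -
            (n + 1) * logHeight x +
            ∑ v ∈ T, wt v * lc v x (fun i j => aeval x (fib c (F' v i j))) (dF' v) ≤
          ε * logHeight x + C := by
  classical
  obtain ⟨v0⟩ : Nonempty (InfinitePlace K) := inferInstance
  by_cases hw : 0 < w ∨ q = 0
  · obtain ⟨N, Pe, e, δ, C, hPe, hδ, hmain⟩ := var_mov K Γ hΓ T hT hn Ψ Υ Gs
      (fun (_ : Fin q) (_ : Fin w) => (1 : MvPolynomial (Fin m) (MvPolynomial (Fin p) K))) F'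
      (SmFam_one hw s Ψ Υ Gs (F' (Sum.inl v0)) (hGF' _ (hT v0))) hGF' hm dG hGh (fun _ => 0)
      (fun _ _ => MvPolynomial.isHomogeneous_one _ _) dF' hFh' r 0 B ε hε
    refine ⟨N, Pe, e, δ, C, hPe, hδ, fun c x A hx0 hΨ hΥ hcB hG hJ hF' hsx hA1 hA2 => ?_⟩
    have e1 : ∀ i : Fin q, (fun _ : Fin w => aeval x (fib c
        (1 : MvPolynomial (Fin m) (MvPolynomial (Fin p) K)))) = fun _ => (1 : K) := by
      intro i
      funext j
      unfold fib
      rw [map_one, map_one]
    have hlc : ∀ v, lc v x (fun (_ : Fin q) (_ : Fin w) => aeval x (fib c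
        (1 : MvPolynomial (Fin m) (MvPolynomial (Fin p) K)))) (fun _ => 0) = 0 := by
      intro v
      unfold lc
      refine Finset.sum_eq_zero fun i _ => ?_
      rw [e1 i]
      rcases hw with hw | hw
      · rw [nm_one hw, Nat.cast_zero, zero_mul, Real.log_one, sub_zero]
      · subst hw
        exact i.elim0
    have hout : out T x (fun (_ : Fin q) (_ : Fin w) => aeval x (fib c
        (1 : MvPolynomial (Fin m) (MvPolynomial (Fin p) K)))) (fun _ => 0) = 0 := by
      unfold out
      refine Finset.sum_eq_zero fun i _ => ?_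
      rw [e1 i]
      rcases hw with hw | hw
      · have h1 : ho T (fun _ : Fin w => (1 : K)) = 0 := by
          unfold ho
          have h2 : lo T (fun _ : Fin w => (1 : K)) = fun _ => 0 := by
            funext v
            unfold lo
            rw [nm_one hw, Real.log_one, ite_self]
          rw [h2, finsum_zero]
        rw [h1, Nat.cast_zero, zero_mul, sub_zero]
      · subst hw
        exact i.elim0
    have hs1 : Short Γ r (B * mulHeight x ^ δ) (1 : K) := by
      obtain ⟨cc, γ, h1, h2, h3⟩ := hsx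
      have hr : 0 < r := by
        by_contra h
        have h4 : r = 0 := by omega
        subst h4
        apply hx0
        funext i
        rw [h3 i]
        rfl
      obtain ⟨i0, -⟩ : ∃ i, x i ≠ 0 := Function.ne_iff.1 hx0
      have h5 : (1 : ℝ) ≤ B * mulHeight x ^ δ :=
        (one_le_mulHeight₁ (cc ⟨0, hr⟩ i0)).trans (h2 ⟨0, hr⟩ i0)
      refine ⟨fun j => if j = ⟨0, hr⟩ then 1 else 0, fun _ => 1, fun _ => Γ.one_mem,
        fun j => ?_, ?_⟩
      · show mulHeight₁ (if j = ⟨0, hr⟩ then (1 : K) else 0) ≤ B * mulHeight x ^ δ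
        by_cases hj : j = ⟨0, hr⟩
        · rw [if_pos hj, mulHeight₁_one]
          exact h5
        · rw [if_neg hj, mulHeight₁_zero]
          exact h5
      · simp
    have key := hmain c x 1 1 A hx0 hΨ hΥ hcB hG hJ (fun i => by
        rcases hw with hw | hw
        · refine ⟨⟨0, hw⟩, ?_⟩
          unfold fib
          rw [map_one, map_one]
          exact one_ne_zero
        · subst hw
          exact i.elim0) hF' one_ne_zero one_ne_zero (fun v _ => by rw [map_one])
        (fun v _ => by rw [map_one]) hsx hs1 (fun v _ => by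
          rw [hlc]
          simp) hA1 hA2
    rw [hout, cnt_one] at key
    linarith
  · push Not at hw
    obtain ⟨hw, hq⟩ := hw
    refine ⟨0, fun i => i.elim0, fun _ => 0, 1, 0, fun i => i.elim0, one_pos, ?_⟩
    intro c x A hx0 hΨ hΥ hcB hG hJ hF'
    exfalso
    obtain ⟨j, -⟩ := hF' _ (hT v0) ⟨0, by omega⟩
    have := j.2
    omega

end Pool.Agent.Run7.h720
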