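import Pool.Agent.Run7.h720.P1Main


/-!
The abc inequality for sparse algebraic integers.
-/

set_option autoImplicit false
set_option linter.unusedSectionVars false

namespace Pool.Agent.Run7.h720

open NumberField IsDedekindDomain Height Filter Topology
open Pool.Agent.W180.OP (Pl av wt fv fv_support_finite wt_nonneg nrm)
open Pool.Agent.K1H83.VN

variable {L : Type} [Field L] [NumberField L]

theorem fv_ok (v : HeightOneSpectrum (𝓞 L)) (z : 𝓞 L) : fv v (z : L) ≤ 1 :=
  FinitePlace.norm_le_one L v z

theorem fv_pair (v : HeightOneSpectrum (𝓞 L)) (a b : 𝓞 L) (h : IsCoprime a b) :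
    max (fv v (a : L)) (fv v (b : L)) = 1 := by
  refine le_antisymm (max_le (fv_ok v a) (fv_ok v b)) ?_
  obtain ⟨x, y, hxy⟩ := h
  have k3 : (1 : L) = (x : L) * (a : L) + (y : L) * (b : L) := by
    have := congrArg (fun z : 𝓞 L => (z : L)) hxy
    simp only [map_add, map_mul, map_one] at this
    exact this.symm
  have k4 : fv v (1 : L) ≤ max (fv v ((x : L) * (a : L))) (fv v ((y : L) * (b : L))) := by
    conv_lhs => rw [k3]
    exact fv_na v _ _
  rw [map_one, map_mul, map_mul] at k4
  refine k4.trans (max_le_max ?_ ?_)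
  · exact mul_le_of_le_one_left ((fv v).nonneg _) (fv_ok v x)
  · exact mul_le_of_le_one_left ((fv v).nonneg _) (fv_ok v y)

theorem nm_pair' (f : AbsoluteValue L ℝ) (a b : L) : nm f ![a, b] = max (f a) (f b) := by
  refine le_antisymm (nm_le _ (le_max_of_le_left (f.nonneg _)) fun i => ?_) (max_le ?_ ?_)
  · fin_cases i
    · exact le_max_left _ _
    · exact le_max_right _ _
  · exact le_nm f ![a, b] 0
  · exact le_nm f ![a, b] 1

/-- the height of a pair of coprime integers -/
theorem height_pair_ok (a b : 𝓞 L) (h : IsCoprime a b) (hb : b ≠ 0) :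
    logHeight ![(a : L), (b : L)] =
      ∑ w : InfinitePlace L, (w.mult : ℝ) * Real.log (max (w (a : L)) (w (b : L))) := by
  have hb' : (b : L) ≠ 0 := by exact_mod_cast hb
  rw [logHeight_fin _ (ne_of_coord (i := (1 : Fin 2)) hb')]
  have h1 : ∀ v : HeightOneSpectrum (𝓞 L), Real.log (nm (fv v) ![(a : L), (b : L)]) = 0 := by
    intro v
    rw [nm_pair', fv_pair v a b h, Real.log_one]
  rw [finsum_congr h1, finsum_zero, add_zero]
  refine Finset.sum_congr rfl fun w _ => ?_
  rw [nm_pair']
  rfl

/-- the counting function of an integer -/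
theorem cnt_ok (z : L) (hz : z ≠ 0) :
    cnt ∅ z = ∑ w : InfinitePlace L, (w.mult : ℝ) * Real.log (w z) := by
  classical
  have h1 := logHeight_fin (fun _ : Unit => z) (ne_of_coord (i := ()) hz)
  rw [logHeight_eq_zero_of_subsingleton] at h1
  simp only [nm_unit] at h1
  have h2 : cnt ∅ z = -∑ᶠ v : HeightOneSpectrum (𝓞 L), Real.log (fv v z) := by
    unfold cnt
    rw [← finsum_neg_distrib]
    refine finsum_congr fun v => ?_
    rw [finsum_eq_if, if_pos (Set.notMem_empty v)]
  rw [h2]
  have h3 : ∑ w : InfinitePlace L, (w.mult : ℝ) * Real.log (w z) =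
      ∑ w : InfinitePlace L, (w.mult : ℝ) * Real.log (w.1 z) := rfl
  rw [h3]
  linarith

theorem short_pos {Γ : Subgroup Lˣ} {r : ℕ} {R : ℝ} {z : L} (hz : z ≠ 0) (h : Short Γ r R z) :
    1 ≤ R := by
  obtain ⟨c, γ, -, h2, h3⟩ := h
  rcases Nat.eq_zero_or_pos r with h0 | h0
  · subst h0
    exact absurd (by rw [h3]; exact Finset.sum_empty) hz
  · exact (one_le_mulHeight₁ _).trans (h2 ⟨0, h0⟩)

theorem short_add {Γ : Subgroup Lˣ} {r s : ℕ} {R : ℝ} (hR : 1 ≤ R) {z : L}
    (h : Short Γ r R z) : Short Γ (r + s) R z := by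
  obtain ⟨c, γ, h1, h2, h3⟩ := h
  refine ⟨Fin.addCases c fun _ => 0, Fin.addCases γ fun _ => 1, fun j => ?_, fun j => ?_, ?_⟩
  · refine Fin.addCases (fun i => ?_) (fun i => ?_) j
    · simp only [Fin.addCases_left]
      exact h1 i
    · simp only [Fin.addCases_right]
      exact Γ.one_mem
  · refine Fin.addCases (fun i => ?_) (fun i => ?_) j
    · simp only [Fin.addCases_left]
      exact h2 i
    · simp only [Fin.addCases_right, mulHeight₁_zero]
      exact hR
  · rw [Fin.sum_univ_add]
    simp only [Fin.addCases_left, Fin.addCases_right, zero_mul, Finset.sum_const_zero, add_zero]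
    exact h3

theorem short_pair {Γ : Subgroup Lˣ} {r : ℕ} {R : ℝ} (hR : 1 ≤ R) {a b : L}
    (ha : Short Γ r R a) (hb : Short Γ r R b) : PShort Γ (r + r) R ![a, b] := by
  obtain ⟨c, γ, h1, h2, h3⟩ := ha
  obtain ⟨c', γ', h1', h2', h3'⟩ := hb
  refine ⟨Fin.addCases (fun j => ![c j, 0]) (fun j => ![0, c' j]), Fin.addCases γ γ',
    fun j => ?_, fun j i => ?_, fun i => ?_⟩
  · refine Fin.addCases (fun i => ?_) (fun i => ?_) j
    · simp only [Fin.addCases_left]
      exact h1 i
    · simp only [Fin.addCases_right]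
      exact h1' i
  · refine Fin.addCases (fun j => ?_) (fun j => ?_) j
    · simp only [Fin.addCases_left]
      fin_cases i
      · exact h2 j
      · show mulHeight₁ (0 : L) ≤ R
        rw [mulHeight₁_zero]
        exact hR
    · simp only [Fin.addCases_right]
      fin_cases i
      · show mulHeight₁ (0 : L) ≤ R
        rw [mulHeight₁_zero]
        exact hR
      · exact h2' j
  · rw [Fin.sum_univ_add]
    simp only [Fin.addCases_left, Fin.addCases_right]
    fin_cases i
    · simpa using h3
    · simpa using h3'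

/-- **The abc inequality for sparse algebraic integers.** -/
theorem ol_abc (L : Type) [Field L] [NumberField L] (Γ : Subgroup Lˣ) (hΓ : Γ.FG) (r m : ℕ)
    (B ε : ℝ) (hε : 0 < ε) :
    ∃ δ C : ℝ, 0 < δ ∧ ∀ a b ρ τ : 𝓞 L, IsCoprime a b → a ≠ 0 → b ≠ 0 → a + b ≠ 0 → ρ ≠ 0 →
      τ ≠ 0 → a * b * (a + b) ∣ ρ ^ m * τ →
      Short Γ r (B * mulHeight ![(a : L), (b : L)] ^ δ) (a : L) →
      Short Γ r (B * mulHeight ![(a : L), (b : L)] ^ δ) (b : L) →
      Short Γ r (B * mulHeight ![(a : L), (b : L)] ^ δ) (ρ : L) →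
      (1 - ε) * logHeight ![(a : L), (b : L)] ≤ cnt ∅ (ρ : L) + cnt ∅ (τ : L) + C := by
  classical
  obtain ⟨α, hα⟩ : ∃ α : Fin 3 → L × L, α = ![(0, 1), (1, 0), (1, -1)] := ⟨_, rfl⟩
  obtain ⟨δ, C, hδ, h⟩ := p1_main L Γ hΓ ∅ Set.finite_empty 3 α (by
      intro i
      rw [hα]
      fin_cases i <;> simp) (by
      intro i j hij
      rw [hα]
      fin_cases i <;> fin_cases j <;> simp at hij ⊢) (r + r) m B ε hε
  refine ⟨δ, C, hδ, fun a b ρ τ hab ha hb hc hρ hτ hd hs1 hs2 hs3 => ?_⟩
  have ha' : (a : L) ≠ 0 := by exact_mod_cast ha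
  have hb' : (b : L) ≠ 0 := by exact_mod_cast hb
  have hc' : (a : L) + (b : L) ≠ 0 := by exact_mod_cast hc
  have hρ' : (ρ : L) ≠ 0 := by exact_mod_cast hρ
  have hτ' : (τ : L) ≠ 0 := by exact_mod_cast hτ
  have hR := short_pos ha' hs1
  have h1 := h ![(a : L), (b : L)] (ρ : L) (τ : L) (ne_of_coord (i := (0 : Fin 2)) ha') (by
      intro l
      rw [hα]
      fin_cases l
      · simpa using ha'
      · simpa using hb'
      · simp only [Fin.reduceFinMk, Matrix.cons_val, Matrix.cons_val_zero, Matrix.cons_val_one]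
        intro h0
        apply hc'
        linear_combination -h0) hρ' hτ' (fun v _ => fv_ok v ρ) (fun v _ => fv_ok v τ)
    (short_pair hR hs1 hs2) (short_add hR hs3) (by
      intro v _
      have hm := fv_pair v a b hab
      have e1 : ∀ l, max (fv v (α l).1) (fv v (α l).2) = 1 := by
        intro l
        rw [hα]
        fin_cases l
        · show max (fv v 0) (fv v 1) = 1
          rw [map_zero, map_one]
          exact max_eq_right zero_le_one
        · show max (fv v 1) (fv v 0) = 1
          rw [map_zero, map_one]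
          exact max_eq_left zero_le_one
        · show max (fv v 1) (fv v (-1)) = 1
          rw [AbsoluteValue.map_neg, map_one, max_self]
      have e2 : fv v (![(a : L), (b : L)] 0 * (α 0).2 - ![(a : L), (b : L)] 1 * (α 0).1) =
          fv v (a : L) := by
        rw [hα]
        simp
      have e3 : fv v (![(a : L), (b : L)] 0 * (α 1).2 - ![(a : L), (b : L)] 1 * (α 1).1) =
          fv v (b : L) := by
        rw [hα]
        simp
      have e4 : fv v (![(a : L), (b : L)] 0 * (α 2).2 - ![(a : L), (b : L)] 1 * (α 2).1) =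
          fv v ((a : L) + (b : L)) := by
        rw [hα, ← AbsoluteValue.map_neg]
        congr 1
        simp
        ring
      rw [Fin.sum_univ_three, e1, e1, e1, e2, e3, e4]
      have e5 : max (fv v (![(a : L), (b : L)] 0)) (fv v (![(a : L), (b : L)] 1)) = 1 := hm
      rw [e5, one_mul, one_div, one_div, one_div, Real.log_inv, Real.log_inv, Real.log_inv]
      obtain ⟨w, hw⟩ := hd
      have h5 : (ρ : L) ^ m * (τ : L) = ((a : L) * (b : L) * ((a : L) + (b : L))) * (w : L) := by
        have := congrArg (fun z : 𝓞 L => (z : L)) hw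
        simpa using this
      have h6 : fv v (ρ : L) ^ m * fv v (τ : L) ≤
          fv v (a : L) * fv v (b : L) * fv v ((a : L) + (b : L)) := by
        rw [← map_pow, ← map_mul, h5, map_mul, map_mul, map_mul]
        exact mul_le_of_le_one_right (mul_nonneg (mul_nonneg ((fv v).nonneg _)
          ((fv v).nonneg _)) ((fv v).nonneg _)) (fv_ok v w)
      have p1 := (fv v).pos ha'
      have p2 := (fv v).pos hb'
      have p3 := (fv v).pos hc'
      have p4 := (fv v).pos hρ'
      have p5 := (fv v).pos hτ'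
      have h7 := Real.log_le_log (by positivity) h6
      rw [Real.log_mul (by positivity) (by positivity), Real.log_pow,
        Real.log_mul (by positivity) (by positivity),
        Real.log_mul (by positivity) (by positivity)] at h7
      linarith)
  have h2 : ((3 : ℕ) : ℝ) - 2 - ε = 1 - ε := by
    push_cast
    ring
  rw [h2] at h1
  exact h1

end Pool.Agent.Run7.h720
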