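import Pool.Agent.Run7.h720.VMain
import Pool.Agent.Run7.h720.OkAbc

/-!
Campana points of smooth pairs: from the truncated inequality to the orbifold inequality.
-/

set_option autoImplicit false
set_option linter.unusedSectionVars false

namespace Pool.Agent.Run7.h720

open NumberField IsDedekindDomain Height
open Pool.Agent.W180.OP (Pl av wt fv fv_support_finite wt_nonneg nrm)
open Pool.Agent.K1H83.VN
open MvPolynomial

/-- a lower bound for the local heights -/
theorem camp_low {K : Type} [Field K] {m w : ℕ} (f : AbsoluteValue K ℝ)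
    (F : Fin w → MvPolynomial (Fin m) K) (d : ℕ) (hF : ∀ j, (F j).IsHomogeneous d) :
    ∃ c : ℝ, 0 ≤ c ∧ ∀ x : Fin m → K, x ≠ 0 → (∃ j, aeval x (F j) ≠ 0) →
      -c ≤ Real.log (nm f x ^ d / nm f fun j => aeval x (F j)) := by
  classical
  obtain ⟨S, hS⟩ : ∃ S : ℝ, S = ∑ j, ∑ s ∈ (F j).support, f (coeff s (F j)) + 1 := ⟨_, rfl⟩
  have hS0 : 0 ≤ ∑ j, ∑ s ∈ (F j).support, f (coeff s (F j)) :=
    Finset.sum_nonneg fun j _ => Finset.sum_nonneg fun s _ => f.nonneg _
  have hS1 : 1 ≤ S := by rw [hS]; linarith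
  refine ⟨Real.log S, Real.log_nonneg hS1, fun x hx hFx => ?_⟩
  obtain ⟨j0, hj0⟩ := hFx
  have hx' := nm_pos f hx
  have hF' : 0 < nm f fun j => aeval x (F j) := nm_pos f (ne_of_coord (i := j0) hj0)
  have h1 : (nm f fun j => aeval x (F j)) ≤ S * nm f x ^ d := by
    refine nm_le f (by positivity) fun j => ?_
    have e1 : aeval x (F j) = ∑ s ∈ (F j).support, coeff s (F j) * ∏ i, x i ^ s i := by
      rw [aeval_def, eval₂_eq']
      rfl
    rw [e1]
    refine (f.sum_le _ _).trans ?_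
    have h2 : ∀ s ∈ (F j).support, f (coeff s (F j) * ∏ i, x i ^ s i) ≤
        f (coeff s (F j)) * nm f x ^ d := by
      intro s hs
      have h3 : ∑ i, s i = d := by
        have := hF j (mem_support_iff.1 hs)
        rw [Finsupp.weight_apply, Finsupp.sum_fintype _ _ (fun i => by simp)] at this
        simpa using this
      rw [map_mul, map_prod]
      refine mul_le_mul_of_nonneg_left ?_ (f.nonneg _)
      rw [← h3, ← Finset.prod_pow_eq_pow_sum]
      refine Finset.prod_le_prod (fun i _ => f.nonneg _) fun i _ => ?_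
      rw [map_pow]
      exact pow_le_pow_left₀ (f.nonneg _) (le_nm f x i) _
    refine (Finset.sum_le_sum h2).trans ?_
    rw [← Finset.sum_mul]
    refine mul_le_mul_of_nonneg_right ?_ (by positivity)
    have h4 : ∑ s ∈ (F j).support, f (coeff s (F j)) ≤
        ∑ j, ∑ s ∈ (F j).support, f (coeff s (F j)) :=
      Finset.single_le_sum (f := fun j => ∑ s ∈ (F j).support, f (coeff s (F j)))
        (fun j _ => Finset.sum_nonneg fun s _ => f.nonneg _) (Finset.mem_univ j)
    rw [hS]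
    linarith
  have h3 : S⁻¹ ≤ nm f x ^ d / nm f fun j => aeval x (F j) := by
    rw [le_div_iff₀ hF', inv_mul_le_iff₀ (by linarith)]
    exact h1
  have h4 := Real.log_le_log (by positivity) h3
  rwa [Real.log_inv] at h4

section
variable {K : Type} [Field K] [NumberField K] {m w : ℕ}

/-- the local height -/
noncomputable def lh (F : Fin w → MvPolynomial (Fin m) K) (d : ℕ) (f : AbsoluteValue K ℝ)
    (x : Fin m → K) : ℝ := Real.log (nm f x ^ d / nm f fun j => aeval x (F j))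

/-- the height as a sum over a finite set of primes -/
theorem ht_sum {ι : Type} [Finite ι] (x : ι → K) (hx : x ≠ 0)
    (U : Finset (HeightOneSpectrum (𝓞 K))) (hU : ∀ v, nm (fv v) x ≠ 1 → v ∈ U) :
    logHeight x = ∑ w : InfinitePlace K, (w.mult : ℝ) * Real.log (nm w.1 x) +
      ∑ v ∈ U, Real.log (nm (fv v) x) := by
  rw [logHeight_fin x hx]
  congr 1
  refine finsum_eq_sum_of_support_subset _ fun v hv => ?_
  refine hU v fun h => hv ?_
  show Real.log _ = 0
  rw [h, Real.log_one]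

theorem comp_sum (F : Fin w → MvPolynomial (Fin m) K) (d : ℕ) (x : Fin m → K) (hx : x ≠ 0)
    (hF : ∃ j, aeval x (F j) ≠ 0) (U : Finset (HeightOneSpectrum (𝓞 K)))
    (hU : ∀ v, nm (fv v) x ≠ 1 → v ∈ U)
    (hU' : ∀ v, nm (fv v) (fun j => aeval x (F j)) ≠ 1 → v ∈ U) :
    d * logHeight x - logHeight (fun j => aeval x (F j)) =
      ∑ w : InfinitePlace K, (w.mult : ℝ) * lh F d w.1 x + ∑ v ∈ U, lh F d (fv v) x := by
  obtain ⟨j0, hj0⟩ := hF
  have hF' : (fun j => aeval x (F j)) ≠ 0 := ne_of_coord (i := j0) hj0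
  have hlh : ∀ f : AbsoluteValue K ℝ, lh F d f x =
      d * Real.log (nm f x) - Real.log (nm f fun j => aeval x (F j)) := by
    intro f
    unfold lh
    rw [Real.log_div (pow_pos (nm_pos f hx) _).ne' (nm_pos f hF').ne', Real.log_pow]
  rw [ht_sum x hx U hU, ht_sum _ hF' U hU']
  simp only [hlh, mul_sub, Finset.sum_sub_distrib, mul_add, Finset.mul_sum]
  have e1 : ∀ w : InfinitePlace K, (w.mult : ℝ) * (d * Real.log (nm w.1 x)) =
      d * (w.mult * Real.log (nm w.1 x)) := fun w => by ring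
  simp only [e1]
  ring

/-- **Campana points: the counting function of a number with simple zeros on the boundary.** -/
theorem camp_count {q : ℕ} (T : Set (HeightOneSpectrum (𝓞 K))) (hT : T.Finite)
    (F : Fin q → Fin w → MvPolynomial (Fin m) K) (d : Fin q → ℕ)
    (hF : ∀ i j, (F i j).IsHomogeneous (d i)) (μ : Fin q → ℕ∞) (hμ : ∀ i, 1 ≤ μ i) :
    ∃ C : ℝ, ∀ (x : Fin m → K) (ρ : K), x ≠ 0 → (∀ i, ∃ j, aeval x (F i j) ≠ 0) → ρ ≠ 0 →
      (∀ i, ∀ v ∉ T, lh (F i) (d i) (fv v) x = 0 ∨ (μ i ≠ ⊤ ∧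
        ((μ i).toNat : ℝ) * Real.log (Ideal.absNorm v.asIdeal : ℝ) ≤ lh (F i) (d i) (fv v) x)) →
      (∀ v ∉ T, -Real.log (fv v ρ) ≤ min (Real.log (Ideal.absNorm v.asIdeal : ℝ))
        (∑ i, lh (F i) (d i) (fv v) x)) →
      cnt T ρ ≤ ∑ i, ((μ i).toNat : ℝ)⁻¹ *
        (d i * logHeight x - logHeight (fun j => aeval x (F i j))) + C := by
  classical
  choose c hc0 hc using fun (i : Fin q) (f : AbsoluteValue K ℝ) => camp_low f (F i) (d i) (hF i)
  refine ⟨∑ i, ((μ i).toNat : ℝ)⁻¹ * (∑ w : InfinitePlace K, (w.mult : ℝ) * c i w.1 +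
    ∑ v ∈ hT.toFinset, c i (fv v)), ?_⟩
  intro x ρ hx hFx hρ hcamp hle
  have hFx' : ∀ i, (fun j => aeval x (F i j)) ≠ 0 := fun i => by
    obtain ⟨j, hj⟩ := hFx i
    exact ne_of_coord (i := j) hj
  obtain ⟨U, hU⟩ : ∃ U : Finset (HeightOneSpectrum (𝓞 K)), U = (nm_support x hx).toFinset ∪
      (Finset.univ.biUnion fun i => (nm_support _ (hFx' i)).toFinset) ∪
      (fv_support_finite hρ).toFinset ∪ hT.toFinset := ⟨_, rfl⟩
  have hU1 : ∀ v, nm (fv v) x ≠ 1 → v ∈ U := by
    intro v hv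
    rw [hU, Finset.mem_union, Finset.mem_union, Finset.mem_union]
    exact Or.inl (Or.inl (Or.inl ((Set.Finite.mem_toFinset _).2 hv)))
  have hU2 : ∀ i v, nm (fv v) (fun j => aeval x (F i j)) ≠ 1 → v ∈ U := by
    intro i v hv
    rw [hU, Finset.mem_union, Finset.mem_union, Finset.mem_union, Finset.mem_biUnion]
    exact Or.inl (Or.inl (Or.inr ⟨i, Finset.mem_univ _, (Set.Finite.mem_toFinset _).2 hv⟩))
  have hU3 : ∀ v, fv v ρ ≠ 1 → v ∈ U := by
    intro v hv
    rw [hU, Finset.mem_union, Finset.mem_union]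
    exact Or.inl (Or.inr ((Set.Finite.mem_toFinset _).2 hv))
  have hU4 : hT.toFinset ⊆ U := by
    rw [hU]
    exact Finset.subset_union_right
  have h1 : cnt T ρ = ∑ v ∈ U \ hT.toFinset, -Real.log (fv v ρ) := by
    unfold cnt
    have e1 : (fun v : HeightOneSpectrum (𝓞 K) => ∑ᶠ (_ : v ∉ T), -Real.log (fv v ρ)) =
        fun v => if v ∉ T then -Real.log (fv v ρ) else 0 := funext fun v => finsum_eq_if
    rw [e1, finsum_eq_sum_of_support_subset (s := U \ hT.toFinset)]
    · refine Finset.sum_congr rfl fun v hv => ?_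
      rw [Finset.mem_sdiff, Set.Finite.mem_toFinset] at hv
      rw [if_pos hv.2]
    · intro v hv
      rw [Finset.mem_coe, Finset.mem_sdiff, Set.Finite.mem_toFinset]
      by_cases hvT : v ∈ T
      · exfalso
        apply hv
        show (if v ∉ T then -Real.log (fv v ρ) else 0) = 0
        rw [if_neg (not_not.2 hvT)]
      · refine ⟨hU3 v fun h => hv ?_, hvT⟩
        show (if v ∉ T then -Real.log (fv v ρ) else 0) = 0
        rw [if_pos hvT, h, Real.log_one, neg_zero]
  have hN : ∀ v : HeightOneSpectrum (𝓞 K), 0 ≤ Real.log (Ideal.absNorm v.asIdeal : ℝ) := by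
    intro v
    refine Real.log_nonneg ?_
    have h5 : Ideal.absNorm v.asIdeal ≠ 0 := fun h => v.ne_bot (Ideal.absNorm_eq_zero_iff.1 h)
    exact_mod_cast Nat.one_le_iff_ne_zero.2 h5
  have hpos : ∀ i, ∀ v ∉ T, 0 ≤ lh (F i) (d i) (fv v) x := by
    intro i v hv
    rcases hcamp i v hv with h | h
    · rw [h]
    · exact (mul_nonneg (Nat.cast_nonneg _) (hN v)).trans h.2
  have h2 : ∀ v ∈ U \ hT.toFinset, -Real.log (fv v ρ) ≤
      ∑ i, ((μ i).toNat : ℝ)⁻¹ * lh (F i) (d i) (fv v) x := by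
    intro v hv
    rw [Finset.mem_sdiff, Set.Finite.mem_toFinset] at hv
    refine (hle v hv.2).trans ?_
    by_cases hall : ∀ i, lh (F i) (d i) (fv v) x = 0
    · rw [Finset.sum_eq_zero fun i _ => hall i]
      refine (min_le_right _ _).trans (le_of_eq ?_)
      symm
      exact Finset.sum_eq_zero fun i _ => by rw [hall i, mul_zero]
    · push Not at hall
      obtain ⟨i, hi⟩ := hall
      rcases hcamp i v hv.2 with h | ⟨h, h'⟩
      · exact absurd h hi
      refine (min_le_left _ _).trans ?_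
      have h3 : ((μ i).toNat : ℝ)⁻¹ * lh (F i) (d i) (fv v) x ≤
          ∑ i, ((μ i).toNat : ℝ)⁻¹ * lh (F i) (d i) (fv v) x :=
        Finset.single_le_sum (f := fun i => ((μ i).toNat : ℝ)⁻¹ * lh (F i) (d i) (fv v) x)
          (fun i _ => mul_nonneg (by positivity) (hpos i v hv.2)) (Finset.mem_univ i)
      refine le_trans ?_ h3
      have h4 : 0 < (μ i).toNat := by
        rw [Nat.pos_iff_ne_zero]
        intro h5
        rcases (ENat.toNat_eq_zero).1 h5 with h6 | h6
        · have := hμ i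
          rw [h6] at this
          exact absurd this (by norm_num)
        · exact h h6
      have h5 : (0 : ℝ) < ((μ i).toNat : ℝ) := by exact_mod_cast h4
      rw [inv_mul_eq_div, le_div_iff₀ h5, mul_comm]
      exact h'
  have h3 : ∀ i, ∑ v ∈ U \ hT.toFinset, lh (F i) (d i) (fv v) x ≤
      d i * logHeight x - logHeight (fun j => aeval x (F i j)) +
        (∑ w : InfinitePlace K, (w.mult : ℝ) * c i w.1 + ∑ v ∈ hT.toFinset, c i (fv v)) := by
    intro i
    rw [comp_sum (F i) (d i) x hx (hFx i) U hU1 (hU2 i), ← Finset.sum_sdiff hU4]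
    have h4 : ∑ w : InfinitePlace K, (w.mult : ℝ) * -c i w.1 ≤
        ∑ w : InfinitePlace K, (w.mult : ℝ) * lh (F i) (d i) w.1 x :=
      Finset.sum_le_sum fun w _ => mul_le_mul_of_nonneg_left (hc i w.1 x hx (hFx i))
        (Nat.cast_nonneg _)
    have h5 : ∑ v ∈ hT.toFinset, -c i (fv v) ≤ ∑ v ∈ hT.toFinset, lh (F i) (d i) (fv v) x :=
      Finset.sum_le_sum fun v _ => hc i (fv v) x hx (hFx i)
    simp only [mul_neg, Finset.sum_neg_distrib] at h4 h5
    linarith
  rw [h1, ← Finset.sum_add_distrib]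
  refine (Finset.sum_le_sum h2).trans ?_
  rw [Finset.sum_comm]
  refine Finset.sum_le_sum fun i _ => ?_
  rw [← Finset.mul_sum, ← mul_add]
  exact mul_le_mul_of_nonneg_left (h3 i) (by positivity)

/-- short points and larger exponents -/
theorem pshort_mono {ι : Type} {Γ : Subgroup Kˣ} {r : ℕ} {B H δ δ' : ℝ} {x : ι → K} (hx : x ≠ 0)
    (hH : 1 ≤ H) (hδ : δ ≤ δ') (h : PShort Γ r (B * H ^ δ) x) : PShort Γ r (B * H ^ δ') x := by
  obtain ⟨c, γ, h1, h2, h3⟩ := h
  have hr : r ≠ 0 := by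
    rintro rfl
    obtain ⟨i, hi⟩ := Function.ne_iff.1 hx
    exact hi (by rw [h3 i]; exact Finset.sum_empty)
  obtain ⟨i, hi⟩ := Function.ne_iff.1 hx
  have h4 := (one_le_mulHeight₁ _).trans (h2 ⟨0, Nat.pos_of_ne_zero hr⟩ i)
  have hB : 0 ≤ B := by
    by_contra hneg
    push Not at hneg
    have h5 : 0 < H ^ δ := Real.rpow_pos_of_pos (by linarith) _
    nlinarith
  exact ⟨c, γ, h1, fun j i => (h2 j i).trans
    (mul_le_mul_of_nonneg_left (Real.rpow_le_rpow_of_exponent_le hH hδ) hB), h3⟩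

theorem short_mono' {Γ : Subgroup Kˣ} {r : ℕ} {B H δ δ' : ℝ} {z : K} (hz : z ≠ 0)
    (hH : 1 ≤ H) (hδ : δ ≤ δ') (h : Short Γ r (B * H ^ δ) z) : Short Γ r (B * H ^ δ') z := by
  obtain ⟨c, γ, h1, h2, h3⟩ := h
  have h4 := short_pos hz ⟨c, γ, h1, h2, h3⟩
  have hB : 0 ≤ B := by
    by_contra hneg
    push Not at hneg
    have h5 : 0 < H ^ δ := Real.rpow_pos_of_pos (by linarith) _
    nlinarith
  exact ⟨c, γ, h1, fun j => (h2 j).trans
    (mul_le_mul_of_nonneg_left (Real.rpow_le_rpow_of_exponent_le hH hδ) hB), h3⟩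

end

end Pool.Agent.Run7.h720
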