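import Pool.Agent.Run7.h720.Bin

/-!
Values of polynomials which are powerful up to a factor: a lower bound for the factor.
-/

set_option autoImplicit false
set_option linter.unusedSectionVars false

namespace Pool.Agent.Run7.h720

open NumberField IsDedekindDomain Height Filter Topology
open Pool.Agent.W180.OP (Pl av wt fv fv_support_finite wt_nonneg nrm)
open Pool.Agent.K1H83.VN
open MvPolynomial (monomial)

variable {k : Type} [Field k] [NumberField k] {σ : Sc} {S : Finset (Pl k)} {r : ℕ}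

theorem hs_le_height (hS : ∀ w : InfinitePlace k, Sum.inl w ∈ S) (x : G k σ) (hx : x ≠ 0) :
    ∀ᶠ t in (σ.𝒰 : Filter ℕ), hs S x t ≤ logHeight₁ (rep x t) := by
  filter_upwards [rep_ne x hx] with t ht
  exact (le_abs_self _).trans (abs_prod_formula S hS _ ht)

/-- the forms `Y`, `X - α i * Y` -/
def cx (k : Type) [Field k] (s : ℕ) : Option (Fin s) → k := fun o => o.elim 0 fun _ => 1

def cy {k : Type} [Field k] {s : ℕ} (α : Fin s → k) : Option (Fin s) → k :=
  fun o => o.elim 1 fun i => -α i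

theorem cxy {s : ℕ} (α : Fin s → k) (hα : Function.Injective α) (i j : Option (Fin s))
    (hij : i ≠ j) : cx k s i * cy α j - cx k s j * cy α i ≠ 0 := by
  rcases i with _ | i <;> rcases j with _ | j
  · exact absurd rfl hij
  · show (0 : k) * (-α j) - 1 * 1 ≠ 0
    simp
  · show (1 : k) * 1 - 0 * (-α i) ≠ 0
    simp
  · show (1 : k) * (-α j) - 1 * (-α i) ≠ 0
    intro h
    apply hij
    have : α i = α j := by linear_combination h
    rw [hα this]

section
variable {u : Fin r → G k σ} (hu : Indep S u)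
include hu

theorem alg_lin (α : k) (n : G k σ) (N : MvPolynomial (Fin r) (FF k σ)) (e : Fin r →₀ ℕ)
    (hN : ev u N = n * mon u e) :
    ev u (N - algebraMap k (MvPolynomial (Fin r) (FF k σ)) α * monomial e 1) =
      (n - algebraMap k (G k σ) α) * mon u e := by
  have h0 : ev u (monomial e (1 : FF k σ)) = mon u e := by
    rw [ev_monomial]
    exact one_mul _
  rw [map_sub, ev_alg, hN, h0, sub_mul]

/-- **The excess inequality for germs.** -/
theorem excess_core (hS : ∀ w : InfinitePlace k, Sum.inl w ∈ S) (s : ℕ) (hs1 : 1 ≤ s)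
    (n ρ c : G k σ) (hn : n ∉ FF k σ) (hc0 : c ≠ 0) (hρ0 : ρ ≠ 0) (α : Fin s → k)
    (hα : Function.Injective α) (Q : Polynomial k) (hQ : ∀ i, Q.eval (α i) ≠ 0)
    (hP0 : (∏ i, (n - algebraMap k (G k σ) (α i))) * Polynomial.aeval n Q ≠ 0)
    (m : ℕ) (hm : m ≠ 0)
    (h1 : ∀ᶠ t in (σ.𝒰 : Filter ℕ), ∀ v : HeightOneSpectrum (𝓞 k), Sum.inr v ∉ S →
      (fv v (rep (Polynomial.aeval n Q) t) ≤ 1 ∧ fv v (rep c t) ≤ 1) ∧
      (fv v (rep (∏ i, (n - algebraMap k (G k σ) (α i))) t) ≤ 1 ∧
      fv v (rep c t) * (fv v (rep (∏ i, (n - algebraMap k (G k σ) (α i))) t) *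
        fv v (rep (Polynomial.aeval n Q) t)) ≤ fv v (rep ρ t) ^ 2) ∧
      fv v (rep ρ t) ^ m ≤ fv v (rep (∏ i, (n - algebraMap k (G k σ) (α i))) t) *
        fv v (rep (Polynomial.aeval n Q) t))
    (N R : MvPolynomial (Fin r) (FF k σ)) (e e' : Fin r →₀ ℕ) (hN : ev u N = n * mon u e)
    (hR : ev u R = ρ * mon u e') :
    Sm σ fun t => ((s : ℝ) - 2) * logHeight₁ (rep n t) - hs S c t := by
  classical
  obtain ⟨F1, hF1⟩ : ∃ F1, F1 = ∏ i, (n - algebraMap k (G k σ) (α i)) := ⟨_, rfl⟩
  rw [← hF1] at hP0 h1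
  have hF10 : F1 ≠ 0 := left_ne_zero_of_mul hP0
  have hFQ0 : Polynomial.aeval n Q ≠ 0 := right_ne_zero_of_mul hP0
  have hfac0 : ∀ i, n - algebraMap k (G k σ) (α i) ≠ 0 := by
    rw [hF1, Finset.prod_ne_zero_iff] at hF10
    exact fun i => hF10 i (Finset.mem_univ i)
  obtain ⟨M, hM⟩ : ∃ M, M = monomial e (1 : FF k σ) := ⟨_, rfl⟩
  have hevM : ev u M = mon u e := by
    rw [hM, ev_monomial]
    exact one_mul _
  have hM0 : M ≠ 0 := by
    intro h
    rw [h, map_zero] at hevM
    exact mon_ne hu e hevM.symm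
  obtain ⟨p, hp⟩ : ∃ p : Option (Fin s) → MvPolynomial (Fin r) (FF k σ), p = fun i =>
    algebraMap k _ (cx k s i) * N + algebraMap k _ (cy α i) * M := ⟨_, rfl⟩
  have hpn : p none = M := by
    rw [hp]
    show algebraMap k _ (0 : k) * N + algebraMap k _ (1 : k) * M = M
    rw [map_zero, map_one, zero_mul, one_mul, zero_add]
  have hps : ∀ i, p (some i) = N - algebraMap k _ (α i) * M := by
    intro i
    rw [hp]
    show algebraMap k _ (1 : k) * N + algebraMap k _ (-α i) * M = _
    rw [map_neg, map_one, one_mul]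
    ring
  have hevs : ∀ i, ev u (p (some i)) = (n - algebraMap k (G k σ) (α i)) * mon u e := by
    intro i
    rw [hps, hM]
    exact alg_lin hu (α i) n N e hN
  have hp0 : ∀ i, p i ≠ 0 := by
    rintro (_ | i)
    · rw [hpn]
      exact hM0
    · intro h
      have h2 := hevs i
      rw [h, map_zero] at h2
      exact mul_ne_zero (hfac0 i) (mon_ne hu e) h2.symm
  have hNM : ∀ c, N ≠ MvPolynomial.C c * M := by
    intro c h
    have h2 := congrArg (ev u) h
    rw [hN, map_mul, hevM] at h2
    have h3 := mul_right_cancel₀ (mon_ne hu e) h2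
    apply hn
    rw [h3]
    have h4 : ev u (MvPolynomial.C c) = (c : G k σ) := by
      unfold ev
      rw [MvPolynomial.aeval_C]
      rfl
    rw [h4]
    exact c.2
  have hevP : ev u (∏ i, p i) = F1 * mon u ((s + 1) • e) := by
    rw [map_prod, Fintype.prod_option, hpn, hevM, Finset.prod_congr rfl fun i _ => hevs i,
      Finset.prod_mul_distrib, ← hF1, Finset.prod_const, Finset.card_univ, Fintype.card_fin]
    have h2 : mon u ((s + 1) • e) = mon u e ^ (s + 1) := by
      unfold mon
      rw [← Finset.prod_pow]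
      refine Finset.prod_congr rfl fun i _ => ?_
      rw [← pow_mul, Finsupp.smul_apply, smul_eq_mul, mul_comm]
    rw [h2, pow_succ]
    ring
  have hR0 : R ≠ 0 := by
    rintro rfl
    rw [map_zero] at hR
    exact mul_ne_zero hρ0 (mon_ne hu _) hR.symm
  have hZ : Sm σ fun t => -ho S fun i => rep (ev u (![N, M] i)) t := by
    refine (Sm.const 0).mono ?_
    filter_upwards [mon_SU hu e] with t ht
    have h2 : 0 ≤ ho S fun i => rep (ev u (![N, M] i)) t := by
      refine ho_nonneg S _ fun v hv => ?_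
      have h3 := le_nm (fv v) (fun i => rep (ev u (![N, M] i)) t) 1
      have h4 : fv v (rep (ev u (![N, M] 1)) t) = 1 := by
        show fv v (rep (ev u M) t) = 1
        rw [hevM]
        exact ht.2 v hv
      rwa [h4] at h3
    linarith
  obtain ⟨A, C, hAR, hAP, hAv, hCP, hA0, hC0, hCR, hCs, hmain⟩ := bin_core hu hS
    (cxy α hα) (by rw [Fintype.card_option, Fintype.card_fin]; omega)
    (fun i => by rw [hp]) hp0 hM0 hNM hZ R hR0 1 one_ne_zero m 0 hm (by
      filter_upwards [h1, fv_mon hu _ _ _ hevP, fv_mon hu _ _ _ hR, rep_one (k := k) (σ := σ)]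
        with t t1 t2 t3 t4 v hv
      obtain ⟨⟨t1a, t1b⟩, ⟨t1c, t1d⟩, t1e⟩ := t1 v hv
      rw [t4, map_one, mul_one, pow_zero, mul_one, t2 v hv, t3 v hv]
      refine ⟨le_rfl, t1e.trans ?_⟩
      exact mul_le_of_le_one_right ((fv v).nonneg _) t1a)
  -- the polynomial `Q`
  obtain ⟨q, hq⟩ : ∃ q, q = hom Q N M := ⟨_, rfl⟩
  have hevq : ev u q = Polynomial.aeval n Q * mon u (Q.natDegree • e) := by
    rw [hq, hM, ev_hom hu Q n N e hN]
    congr 1
    unfold mon
    rw [← Finset.prod_pow]
    refine Finset.prod_congr rfl fun i _ => ?_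
    rw [← pow_mul, Finsupp.smul_apply, smul_eq_mul, mul_comm]
  have hq0 : q ≠ 0 := by
    intro h
    rw [h, map_zero] at hevq
    exact mul_ne_zero hFQ0 (mon_ne hu _) hevq.symm
  have hAq : IsRelPrime A q := by
    refine WfDvdMonoid.isRelPrime_of_no_irreducible_factors (fun h => hA0 h.1) ?_
    intro π hπ hπA hπq
    have hv := hAv π hπ hπA
    have hπM : ¬ π ∣ M := by
      intro h
      rw [hM] at h
      exact hv (irr_monomial π hπ e h)
    obtain ⟨o, -, ho⟩ := (hπ.prime.dvd_finsetProd_iff _).1 (hπA.trans hAP)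
    rcases o with _ | i
    · rw [hpn] at ho
      exact hπM ho
    · rw [hps] at ho
      have h2 := hom_dvd Q N M (α i)
      rw [← hq] at h2
      have h3 : π ∣ algebraMap k (MvPolynomial (Fin r) (FF k σ)) (Q.eval (α i)) *
          M ^ Q.natDegree := by
        have h4 := dvd_sub hπq (ho.trans h2)
        rwa [sub_sub_cancel] at h4
      have h4 : IsUnit (algebraMap k (MvPolynomial (Fin r) (FF k σ)) (Q.eval (α i))) :=
        (IsUnit.mk0 _ (hQ i)).map _
      rw [h4.dvd_mul_left] at h3
      exact hπM (hπ.prime.dvd_of_dvd_pow h3)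
  obtain ⟨A', hA'⟩ := hAR
  have hevR : ev u A * ev u A' = ev u R := by rw [hA', map_mul]
  have k1 := gcd_small hu hS A q hA0 hq0 hAq
  have k2 := cf_small (S := S) hS ![q, A', A]
  -- the excess
  have hex : Sm σ fun t => 2 * hs S (ev u A) t - hs S c t - hs S F1 t := by
    refine ((k1.smul (show (0 : ℝ) ≤ 2 by norm_num)).add
      (k2.smul (show (0 : ℝ) ≤ 3 by norm_num))).mono ?_
    filter_upwards [h1, cf_bound hu ![q, A', A], fv_mul hu _ _ _ hevR,
      fv_mon hu _ _ _ hR, fv_mon hu _ _ _ hevq, fv_mul hu _ _ (c * F1) rfl,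
      fv_mul hu _ _ (ev u A * ev u A) rfl, rep_ne _ (ev_ne hu hS A hA0),
      rep_ne _ (mul_ne_zero hc0 hF10),
      rep_ne _ (mul_ne_zero (ev_ne hu hS A hA0) (ev_ne hu hS A hA0)),
      hs_ho hS _ (mul_ne_zero hc0 hF10), hs_mul (S := S) c F1 hc0 hF10,
      hs_ho hS _ (mul_ne_zero (ev_ne hu hS A hA0) (ev_ne hu hS A hA0)),
      hs_mul (S := S) (ev u A) (ev u A) (ev_ne hu hS A hA0) (ev_ne hu hS A hA0)] with
      t t1 t2 t3 t4 t5 t6 t7 t8 t9 t10 t11 t12 t13 t14
    have key := ho_pow3 S 2 0 3 ![rep (ev u A) t, rep (ev u q) t]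
      (ne_of_coord (i := (0 : Fin 2)) t8) (fun _ : Unit => rep (c * F1) t)
      (ne_of_coord (i := ()) t9) (fun _ : Unit => (1 : k)) (ne_of_coord (i := ()) one_ne_zero)
      (fun _ : Unit => rep (ev u A * ev u A) t)
      (ne_of_coord (i := ()) t10) (c1 fun x => rep (cf ![q, A', A] x) t)
      (ne_of_one _ none rfl) (by
        intro v hv
        rw [nm_unit, nm_unit, nm_unit, pow_zero, mul_one, t6 v, t7 v]
        obtain ⟨⟨t1a, t1b⟩, ⟨t1c, t1d⟩, t1e⟩ := t1 v hv
        have t2a : fv v (rep (ev u q) t) ≤ _ := t2 v hv 0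
        have t2b : fv v (rep (ev u A') t) ≤ _ := t2 v hv 1
        have t2c : fv v (rep (ev u A) t) ≤ _ := t2 v hv 2
        have t3 := t3 v
        have t4 := t4 v hv
        have t5 := t5 v hv
        have hB1 : 1 ≤ nm (fv v) (c1 fun x => rep (cf ![q, A', A] x) t) :=
          one_le_nm _ _ none rfl
        set Bv := nm (fv v) (c1 fun x => rep (cf ![q, A', A] x) t) with hBv
        set a := fv v (rep (ev u A) t) with ha
        have ha0 : 0 ≤ a := (fv v).nonneg _
        have hc1 : 0 ≤ fv v (rep c t) := (fv v).nonneg _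
        have hF11 : 0 ≤ fv v (rep F1 t) := (fv v).nonneg _
        have hB0 : 0 ≤ Bv := zero_le_one.trans hB1
        obtain ⟨i, hi⟩ := exists_nm (fv v) ![rep (ev u A) t, rep (ev u q) t]
        rw [← hi]
        have hcase : ∀ y : ℝ, y = a ∨ y = fv v (rep (ev u q) t) →
            y ^ 2 * (fv v (rep c t) * fv v (rep F1 t)) ≤ a * a * Bv ^ 3 := by
          rintro y (rfl | rfl)
          · calc a ^ 2 * (fv v (rep c t) * fv v (rep F1 t)) ≤ a ^ 2 * (1 * 1) := by gcongr
              _ = a * a * 1 := by ring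
              _ ≤ a * a * Bv ^ 3 := by
                gcongr
                exact one_le_pow₀ hB1
          · have t2b0 : 0 ≤ fv v (rep (ev u A') t) := (fv v).nonneg _
            have hq1 : 0 ≤ fv v (rep (ev u q) t) := (fv v).nonneg _
            calc fv v (rep (ev u q) t) ^ 2 * (fv v (rep c t) * fv v (rep F1 t))
                = fv v (rep (ev u q) t) * (fv v (rep c t) * (fv v (rep F1 t) *
                  fv v (rep (Polynomial.aeval n Q) t))) := by rw [← t5]; ring
              _ ≤ fv v (rep (ev u q) t) * fv v (rep ρ t) ^ 2 := by gcongr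
              _ = fv v (rep (ev u q) t) * (a * fv v (rep (ev u A') t)) ^ 2 := by
                rw [← t4, t3]
              _ ≤ Bv * (a * Bv) ^ 2 := by gcongr
              _ = a * a * Bv ^ 3 := by ring
        fin_cases i
        · exact hcase _ (Or.inl rfl)
        · exact hcase _ (Or.inr rfl))
    rw [t12] at t11
    rw [t14] at t13
    push_cast at key
    linarith
  -- the upper bound for the values
  have hF1s : Sm σ fun t => hs S F1 t - s * logHeight₁ (rep n t) := by
    have k3 : Sm σ fun _ => ∑ i : Fin s, ((Height.totalWeight k : ℝ) * Real.log 2 +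
        logHeight₁ (α i)) := Sm.const _
    refine k3.mono ?_
    have k4 : ∀ᶠ t in (σ.𝒰 : Filter ℕ), ∀ i, hs S (n - algebraMap k (G k σ) (α i)) t ≤
        logHeight₁ (rep (n - algebraMap k (G k σ) (α i)) t) ∧
        rep (n - algebraMap k (G k σ) (α i)) t = rep n t - α i := by
      rw [Filter.eventually_all]
      intro i
      have h5 : ∀ᶠ t in (σ.𝒰 : Filter ℕ), rep (n - algebraMap k (G k σ) (α i)) t =
          rep n t - α i := by
        filter_upwards [rep_add n (-algebraMap k (G k σ) (α i)),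
          rep_neg (algebraMap k (G k σ) (α i)), rep_alg (σ := σ) (α i)] with t a1 a2 a3
        rw [sub_eq_add_neg, a1, a2, a3, sub_eq_add_neg]
      filter_upwards [hs_le_height hS _ (hfac0 i), h5] with t a1 a2
      exact ⟨a1, a2⟩
    filter_upwards [hs_prod (S := S) Finset.univ (fun i => n - algebraMap k (G k σ) (α i))
      (fun i _ => hfac0 i), k4] with t a1 a2
    rw [← hF1] at a1
    rw [a1]
    have a3 : ∑ i, hs S (n - algebraMap k (G k σ) (α i)) t ≤
        ∑ i : Fin s, (logHeight₁ (rep n t) + ((Height.totalWeight k : ℝ) * Real.log 2 +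
          logHeight₁ (α i))) := by
      refine Finset.sum_le_sum fun i _ => ?_
      obtain ⟨a4, a5⟩ := a2 i
      rw [a5] at a4
      have a6 := logHeight₁_sub_le (rep n t) (α i)
      linarith
    rw [Finset.sum_add_distrib, Finset.sum_const, Finset.card_univ, Fintype.card_fin,
      nsmul_eq_mul] at a3
    linarith
  -- conclusion
  have hcard : (Fintype.card (Option (Fin s)) : ℝ) - 2 = s - 1 := by
    rw [Fintype.card_option, Fintype.card_fin]
    push_cast
    ring
  have hone : ∀ᶠ t in (σ.𝒰 : Filter ℕ), hs S (1 : G k σ) t = 0 := hs_SU hS 1 SU.one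
  refine ((((hmain.add hCs).smul (show (0 : ℝ) ≤ 2 by norm_num)).add hex).add hF1s).mono ?_
  filter_upwards [hone, rep_div (ev u N) (ev u M)] with t t1 t2
  have hdiv : ev u N / ev u M = n := by
    rw [hN, hevM]
    exact mul_div_cancel_right₀ _ (mon_ne hu e)
  rw [hdiv] at t2
  have t3 : logHeight ![rep (ev u N) t, rep (ev u M) t] = logHeight₁ (rep n t) := by
    rw [t2, logHeight₁_div_eq_logHeight]
  rw [hcard, t3, t1]
  linarith

end

end Pool.Agent.Run7.h720
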