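import Pool.Agent.Run7.h720.Prep2
import Pool.Agent.Run7.h720.Excess

/-!
The abc inequality for sparse integers with a sparse multiple of the radical.
-/

set_option autoImplicit false
set_option linter.unusedSectionVars false

namespace Pool.Agent.Run7.h720

open NumberField IsDedekindDomain Height Filter Topology
open Pool.Agent.W180.OP (Pl av wt fv fv_support_finite wt_nonneg nrm)
open Pool.Agent.K1H83.VN
open MvPolynomial (monomial)

/-- the height of a quotient of coprime integers -/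
theorem height_coprime {L : Type} [Field L] [NumberField L] (a b : ℤ) (hb : b ≠ 0)
    (hab : IsCoprime a b) :
    logHeight₁ ((a : L) / (b : L)) = Module.finrank ℚ L *
      Real.log (max |(a : ℝ)| |(b : ℝ)|) := by
  have key : ∀ a b : ℤ, 0 < b → IsCoprime a b → logHeight₁ ((a : L) / (b : L)) =
      Module.finrank ℚ L * Real.log (max |(a : ℝ)| |(b : ℝ)|) := by
    intro a b hb hab
    have h1 : (a : L) / (b : L) = algebraMap ℚ L ((a : ℚ) / (b : ℚ)) := by simp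
    rw [h1, height_ext]
    congr 1
    rw [Rat.logHeight₁_eq_log_max]
    congr 1
    have hc : Nat.Coprime a.natAbs b.natAbs := Int.isCoprime_iff_gcd_eq_one.1 hab
    have h2 := Rat.num_div_eq_of_coprime hb hc
    have h3 := Rat.den_div_eq_of_coprime hb hc
    have h4 : (((a : ℚ) / (b : ℚ)).den : ℝ) = |(b : ℝ)| := by
      have h5 : (((a : ℚ) / (b : ℚ)).den : ℝ) = (b : ℝ) := by exact_mod_cast h3
      rw [h5, abs_of_pos (by exact_mod_cast hb)]
    rw [h2]
    push_cast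
    rw [h4]
    simp [Nat.cast_natAbs]
  rcases lt_or_gt_of_ne hb with h | h
  · have h1 := key (-a) (-b) (by omega) (hab.neg_left.neg_right)
    push_cast at h1
    rw [neg_div_neg_eq, abs_neg, abs_neg] at h1
    exact h1
  · exact key a b h hab

/-- polynomials for a pair of germs with the same monomial -/
theorem pair_poly {k : Type} [Field k] [NumberField k] {σ : Sc} {r : ℕ} (u : Fin r → G k σ)
    (a b : G k σ) (h1 : ∃ (N : MvPolynomial (Fin r) (FF k σ)) (e : Fin r →₀ ℕ),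
      ev u N = a * mon u e)
    (h2 : ∃ (M : MvPolynomial (Fin r) (FF k σ)) (e : Fin r →₀ ℕ), ev u M = b * mon u e) :
    ∃ (N M : MvPolynomial (Fin r) (FF k σ)) (e : Fin r →₀ ℕ),
      ev u N = a * mon u e ∧ ev u M = b * mon u e := by
  obtain ⟨N, e1, hN⟩ := h1
  obtain ⟨M, e2, hM⟩ := h2
  have hm : mon u (e1 + e2) = mon u e1 * mon u e2 := by
    unfold mon
    rw [← Finset.prod_mul_distrib]
    exact Finset.prod_congr rfl fun i _ => by rw [Finsupp.add_apply, pow_add]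
  have h0 : ∀ e, ev u (monomial e (1 : FF k σ)) = mon u e := by
    intro e
    rw [ev_monomial]
    exact one_mul _
  refine ⟨N * monomial e2 1, M * monomial e1 1, e1 + e2, ?_, ?_⟩
  · rw [map_mul, hN, h0, hm, mul_assoc]
  · rw [map_mul, hM, h0, hm, mul_assoc, mul_comm (mon u e2)]

/-- **The abc inequality for sparse integers.** -/
theorem abc_main (K : Type) [Field K] [NumberField K] (Γ : Subgroup Kˣ) (hΓ : Γ.FG) (r m : ℕ)
    (B ε : ℝ) (hε : 0 < ε) :
    ∃ δ C : ℝ, 0 < δ ∧ ∀ a b ρ τ : ℤ, IsCoprime a b → a ≠ 0 → b ≠ 0 → a + b ≠ 0 → ρ ≠ 0 →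
      τ ≠ 0 → a * b * (a + b) ∣ ρ ^ m * τ →
      Short Γ r (B * max |(a : ℝ)| |(b : ℝ)| ^ δ) (a : K) →
      Short Γ r (B * max |(a : ℝ)| |(b : ℝ)| ^ δ) (b : K) →
      Short Γ r (B * max |(a : ℝ)| |(b : ℝ)| ^ δ) (ρ : K) →
      max |(a : ℝ)| |(b : ℝ)| ≤ C * (|(ρ : ℝ)| * |(τ : ℝ)|) ^ (1 + ε) := by
  classical
  by_contra hcon
  push Not at hcon
  -- the sequence
  have hex := fun t : ℕ => hcon (1 / ((t : ℝ) + 1)) ((t : ℝ) + 3) (by positivity)
  choose a b ρ τ hab ha0 hb0 hc0 hρ0 hτ0 hd hs1 hs2 hs3 hbig using hex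
  obtain ⟨H, hH⟩ : ∃ H : ℕ → ℝ, H = fun t => max |(a t : ℝ)| |(b t : ℝ)| := ⟨_, rfl⟩
  have hHt : ∀ t, max |(a t : ℝ)| |(b t : ℝ)| = H t := fun t => by rw [hH]
  simp only [hHt] at hs1 hs2 hs3 hbig
  have hρ1 : ∀ t, (1 : ℝ) ≤ |(ρ t : ℝ)| := fun t => by exact_mod_cast Int.one_le_abs (hρ0 t)
  have hτ1 : ∀ t, (1 : ℝ) ≤ |(τ t : ℝ)| := fun t => by exact_mod_cast Int.one_le_abs (hτ0 t)
  have hρτ : ∀ t, (1 : ℝ) ≤ |(ρ t : ℝ)| * |(τ t : ℝ)| := fun t => by
    nlinarith [hρ1 t, hτ1 t]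
  have hHbig : ∀ t : ℕ, (t : ℝ) + 3 ≤ H t := by
    intro t
    have h1 := hbig t
    have h2 : (1 : ℝ) ≤ (|(ρ t : ℝ)| * |(τ t : ℝ)|) ^ (1 + ε) :=
      Real.one_le_rpow (hρτ t) (by linarith)
    have h3 : (0 : ℝ) ≤ (t : ℝ) + 3 := by positivity
    nlinarith
  have hH1 : ∀ t, 1 ≤ H t := fun t => by
    have := hHbig t
    have h2 : (0 : ℝ) ≤ t := Nat.cast_nonneg t
    linarith
  have hlim : Tendsto (fun t => Real.log (H t)) atTop atTop := by
    refine Real.tendsto_log_atTop.comp (tendsto_atTop_mono hHbig ?_)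
    exact tendsto_atTop_add_const_right _ _ tendsto_natCast_atTop_atTop
  let σ : Sc := ⟨hyperfilter ℕ, _, hlim.mono_left Nat.hyperfilter_le_atTop⟩
  have hσL : ∀ t, σ.L t = Real.log (H t) := fun t => rfl
  have h𝒰 : (σ.𝒰 : Filter ℕ) ≤ atTop := Nat.hyperfilter_le_atTop
  have hL0 : ∀ t, 0 ≤ σ.L t := fun t => by
    rw [hσL]
    exact Real.log_nonneg (hH1 t)
  have hlog : ∀ t, (1 + ε) * (Real.log |(ρ t : ℝ)| + Real.log |(τ t : ℝ)|) ≤ σ.L t := by
    intro t
    have h1 := hbig t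
    have h2 : (0 : ℝ) < (|(ρ t : ℝ)| * |(τ t : ℝ)|) ^ (1 + ε) := by
      have := hρτ t
      positivity
    have h3 : (|(ρ t : ℝ)| * |(τ t : ℝ)|) ^ (1 + ε) ≤ H t := by
      have h4 : (1 : ℝ) ≤ (t : ℝ) + 3 := by
        have h2 : (0 : ℝ) ≤ t := Nat.cast_nonneg t
        linarith
      nlinarith
    have h4 := Real.log_le_log h2 h3
    rw [Real.log_rpow (by linarith [hρτ t]), Real.log_mul (by linarith [hρ1 t])
      (by linarith [hτ1 t])] at h4
    exact h4
  have hlogρ : ∀ t, 0 ≤ Real.log |(ρ t : ℝ)| := fun t => Real.log_nonneg (hρ1 t)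
  have hlogτ : ∀ t, 0 ≤ Real.log |(τ t : ℝ)| := fun t => Real.log_nonneg (hτ1 t)
  -- the places
  obtain ⟨S, hS, hSΓ, -⟩ := exists_places (RingHom.id K) Γ hΓ ∅
  have hd1 : (1 : ℝ) ≤ Module.finrank ℚ K := by
    exact_mod_cast Nat.one_le_iff_ne_zero.2 (Module.finrank_pos (R := ℚ) (M := K)).ne'
  -- heights
  have hle : ∀ (x : ℕ → ℤ), (∀ t, x t ≠ 0) → (∀ t, |(x t : ℝ)| ≤ H t) →
      ∀ t, logHeight₁ (algebraMap K K ((x t : ℤ) : K)) ≤ Module.finrank ℚ K * σ.L t := by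
    intro x hx0 hx t
    rw [Algebra.algebraMap_self, RingHom.id_apply, height_int _ (hx0 t), hσL]
    refine mul_le_mul_of_nonneg_left (Real.log_le_log ?_ (hx t)) (Nat.cast_nonneg _)
    exact abs_pos.2 (by exact_mod_cast hx0 t)
  have hρH : ∀ t, logHeight₁ (algebraMap K K ((ρ t : ℤ) : K)) ≤
      Module.finrank ℚ K * σ.L t := by
    intro t
    rw [Algebra.algebraMap_self, RingHom.id_apply, height_int _ (hρ0 t)]
    refine mul_le_mul_of_nonneg_left ?_ (Nat.cast_nonneg _)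
    have h1 := hlog t
    have h2 := hlogρ t
    have h3 := hlogτ t
    nlinarith
  obtain ⟨c1', γ1, hx1, hc1, hγ1, hγB1⟩ := short_rep (L := K) h𝒰 hS Γ hSΓ r B
    H hH1 hσL (fun t => ((a t : ℤ) : K)) hs1 ⟨_, Eventually.of_forall
      (hle a ha0 fun t => by rw [← hHt]; exact le_max_left _ _)⟩
  obtain ⟨c2', γ2, hx2, hc2, hγ2, hγB2⟩ := short_rep (L := K) h𝒰 hS Γ hSΓ r B
    H hH1 hσL (fun t => ((b t : ℤ) : K)) hs2 ⟨_, Eventually.of_forall
      (hle b hb0 fun t => by rw [← hHt]; exact le_max_right _ _)⟩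
  obtain ⟨c3', γ3, hx3, hc3, hγ3, hγB3⟩ := short_rep (L := K) h𝒰 hS Γ hSΓ r B
    H hH1 hσL (fun t => ((ρ t : ℤ) : K)) hs3 ⟨_, Eventually.of_forall hρH⟩
  simp only [Algebra.algebraMap_self, RingHom.id_apply] at hx1 hx2 hx3
  obtain ⟨r', u, hu, hrep⟩ := exists_rep (S := S) (Sum.elim γ1 (Sum.elim γ2 γ3))
    (by rintro (j | j | j); exacts [hγ1 j, hγ2 j, hγ3 j])
    (by rintro (j | j | j); exacts [hγB1 j, hγB2 j, hγB3 j])
  obtain ⟨N, M, e, hN, hM⟩ := pair_poly u _ _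
    (exists_poly hu _ c1' γ1 hx1 hc1 fun j => hrep (Sum.inl j))
    (exists_poly hu _ c2' γ2 hx2 hc2 fun j => hrep (Sum.inr (Sum.inl j)))
  obtain ⟨R, e', hR⟩ := exists_poly hu _ c3' γ3 hx3 hc3 fun j => hrep (Sum.inr (Sum.inr j))
  obtain ⟨A, hA⟩ : ∃ A : G K σ, A = gm σ fun t => ((a t : ℤ) : K) := ⟨_, rfl⟩
  obtain ⟨D, hD⟩ : ∃ D : G K σ, D = gm σ fun t => ((b t : ℤ) : K) := ⟨_, rfl⟩
  obtain ⟨P, hP⟩ : ∃ P : G K σ, P = gm σ fun t => ((ρ t : ℤ) : K) := ⟨_, rfl⟩
  obtain ⟨T, hT⟩ : ∃ T : G K σ, T = gm σ fun t => ((τ t : ℤ) : K) := ⟨_, rfl⟩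
  rw [← hA] at hN
  rw [← hD] at hM
  rw [← hP] at hR
  have hgm0 : ∀ x : ℕ → ℤ, (∀ t, x t ≠ 0) → gm σ (fun t => ((x t : ℤ) : K)) ≠ 0 := by
    intro x hx
    rw [gm_ne]
    refine Eventually.of_forall fun t => ?_
    exact_mod_cast hx t
  have hA0 : A ≠ 0 := by rw [hA]; exact hgm0 a ha0
  have hD0 : D ≠ 0 := by rw [hD]; exact hgm0 b hb0
  have hP0 : P ≠ 0 := by rw [hP]; exact hgm0 ρ hρ0
  have hT0 : T ≠ 0 := by rw [hT]; exact hgm0 τ hτ0
  have hAD : A + D = gm σ fun t => ((a t + b t : ℤ) : K) := by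
    rw [hA, hD, ← map_add]
    congr 1
    funext t
    simp
  have hAD0 : A + D ≠ 0 := by rw [hAD]; exact hgm0 (fun t => a t + b t) hc0
  have hrA := rep_eq A _ hA
  have hrD := rep_eq D _ hD
  have hrP := rep_eq P _ hP
  have hrT := rep_eq T _ hT
  have hN0 : N ≠ 0 := by
    rintro rfl
    rw [map_zero] at hN
    exact mul_ne_zero hA0 (mon_ne hu _) hN.symm
  have hM0 : M ≠ 0 := by
    rintro rfl
    rw [map_zero] at hM
    exact mul_ne_zero hD0 (mon_ne hu _) hM.symm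
  have hR0 : R ≠ 0 := by
    rintro rfl
    rw [map_zero] at hR
    exact mul_ne_zero hP0 (mon_ne hu _) hR.symm
  have hNM0 : N + M ≠ 0 := by
    intro h
    have h2 := congrArg (ev u) h
    rw [map_add, hN, hM, ← add_mul, map_zero] at h2
    exact mul_ne_zero hAD0 (mon_ne hu _) h2
  -- the height of the quotient
  have hquot : ev u N / ev u M = A / D := by
    rw [hN, hM]
    exact mul_div_mul_right _ _ (mon_ne hu e)
  have hqh : ∀ᶠ t in (σ.𝒰 : Filter ℕ), logHeight ![rep (ev u N) t, rep (ev u M) t] =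
      Module.finrank ℚ K * σ.L t := by
    filter_upwards [rep_div (ev u N) (ev u M), rep_div A D, hrA, hrD] with t t1 t2 t3 t4
    rw [← logHeight₁_div_eq_logHeight, ← t1, hquot, t2, t3, t4,
      height_coprime (a t) (b t) (hb0 t) (hab t), hHt, hσL]
  have hNM : ∀ c, N ≠ MvPolynomial.C c * M := by
    intro c h
    have h2 := congrArg (ev u) h
    have h4 : ev u (MvPolynomial.C c) = (c : G K σ) := by
      unfold ev
      rw [MvPolynomial.aeval_C]
      rfl
    rw [map_mul, h4] at h2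
    have h5 : ev u N / ev u M ∈ FF K σ := by
      rw [h2, mul_div_cancel_right₀ _ (ev_ne hu hS M hM0)]
      exact c.2
    rw [mem_FF] at h5
    obtain ⟨t, ⟨⟨h6, h7⟩, h8⟩, h9⟩ := ((((h5 (1 / 2) (by norm_num)).and hqh).and
      (L_pos (σ := σ))).and (rep_div (ev u N) (ev u M))).exists
    have h10 : logHeight₁ (rep (ev u N / ev u M) t) ≤ 1 / 2 * σ.L t := h6
    rw [h9, logHeight₁_div_eq_logHeight, h7] at h10
    nlinarith
  have hZ : Sm σ fun t => -ho S fun i => rep (ev u (![N, M] i)) t := by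
    refine (Sm.const 0).mono ?_
    filter_upwards [fv_mon hu _ _ _ hN, fv_mon hu _ _ _ hM, hrA, hrD] with t t1 t2 t3 t4
    have h2 : 0 ≤ ho S fun i => rep (ev u (![N, M] i)) t := by
      refine ho_nonneg S _ fun v hv => ?_
      have k1 := le_nm (fv v) (fun i => rep (ev u (![N, M] i)) t) 0
      have k2 := le_nm (fv v) (fun i => rep (ev u (![N, M] i)) t) 1
      have k1' : fv v (rep (ev u N) t) ≤ nm (fv v) fun i => rep (ev u (![N, M] i)) t := k1
      have k2' : fv v (rep (ev u M) t) ≤ nm (fv v) fun i => rep (ev u (![N, M] i)) t := k2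
      rw [t1 v hv, t3] at k1'
      rw [t2 v hv, t4] at k2'
      obtain ⟨x, y, hxy⟩ := hab t
      have k3 : (1 : K) = (x : K) * ((a t : ℤ) : K) + (y : K) * ((b t : ℤ) : K) := by
        exact_mod_cast hxy.symm
      have k4 : fv v (1 : K) ≤ max (fv v ((x : K) * ((a t : ℤ) : K)))
          (fv v ((y : K) * ((b t : ℤ) : K))) := by
        conv_lhs => rw [k3]
        exact fv_na v _ _
      rw [map_one, map_mul, map_mul] at k4
      refine k4.trans (max_le ?_ ?_)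
      · exact (mul_le_of_le_one_left ((fv v).nonneg _) (fv_int v x)).trans k1'
      · exact (mul_le_of_le_one_left ((fv v).nonneg _) (fv_int v y)).trans k2'
    linarith
  obtain ⟨p, hp⟩ : ∃ p : Fin 3 → MvPolynomial (Fin r') (FF K σ), p = ![N, M, N + M] := ⟨_, rfl⟩
  have hprod : ∏ i, p i = N * M * (N + M) := by
    rw [hp, Fin.prod_univ_three]
    rfl
  have hevP : ev u (∏ i, p i) = (A * D * (A + D)) * mon u (3 • e) := by
    rw [hprod, map_mul, map_mul, map_add, hN, hM]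
    have h2 : mon u (3 • e) = mon u e ^ 3 := by
      unfold mon
      rw [← Finset.prod_pow]
      refine Finset.prod_congr rfl fun i _ => ?_
      rw [← pow_mul, Finsupp.smul_apply, smul_eq_mul, mul_comm]
    rw [h2]
    ring
  have hADD : A * D * (A + D) = gm σ fun t => ((a t * b t * (a t + b t) : ℤ) : K) := by
    rw [hAD, hA, hD, ← map_mul, ← map_mul]
    congr 1
    funext t
    simp
  obtain ⟨A1, C1, hAR, -, -, hCP, hA10, hC10, hCR, hCs, hmain⟩ := bin_core hu hS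
    (x := ![1, 0, 1]) (y := ![0, 1, 1]) (p := p) (N := N) (M := M)
    (by
      intro i j hij
      fin_cases i <;> fin_cases j <;> simp at hij ⊢) (by simp)
    (by
      intro i
      rw [hp]
      fin_cases i <;> simp) (by
      intro i
      rw [hp]
      fin_cases i
      · exact hN0
      · exact hM0
      · exact hNM0) hM0 hNM hZ R hR0 T hT0 (m + 1) 0 (Nat.succ_ne_zero m) (by
      filter_upwards [fv_mon hu _ _ _ hevP, fv_mon hu _ _ _ hR, hrP, hrT,
        rep_eq _ _ hADD] with t t1 t2 t3 t4 t5 v hv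
      rw [pow_zero, mul_one, t1 v hv, t2 v hv, t3, t4, t5]
      refine ⟨fv_int v _, ?_⟩
      obtain ⟨w, hw⟩ := (hd t).trans (mul_dvd_mul_right (pow_dvd_pow (ρ t) (Nat.le_succ m)) _)
      have h3 : ((ρ t : ℤ) : K) ^ (m + 1) * ((τ t : ℤ) : K) =
          ((a t * b t * (a t + b t) : ℤ) : K) * (w : K) := by
        exact_mod_cast hw
      rw [← map_pow, ← map_mul, h3, map_mul]
      exact mul_le_of_le_one_right ((fv v).nonneg _) (fv_int v w))
  have hAs := hs_dvd hu hS A1 R hAR hR0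
  have hall := (hmain.add hCs).add hAs
  obtain ⟨t, ⟨⟨⟨⟨⟨⟨⟨t1, t2⟩, t3⟩, t4⟩, t5⟩, t6⟩, t7⟩, t8⟩, t9⟩ :=
    (((((((((hall (ε / (2 * (1 + ε))) (by positivity)).and
    (L_pos (σ := σ))).and (hs_le_height (S := S) hS P hP0)).and
    (hs_le_height (S := S) hS T hT0)).and hqh).and hrP).and hrT).and
    (hs_mul (S := S) P (mon u e') hP0 (mon_ne hu _))).and (hs_mon hu hS e')).exists
  simp only at t1
  rw [← hR, t9, add_zero] at t8
  rw [t6, height_int _ (hρ0 t)] at t3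
  rw [t7, height_int _ (hτ0 t)] at t4
  have hcard : (Fintype.card (Fin 3) : ℝ) - 2 = 1 := by
    rw [Fintype.card_fin]
    norm_num
  rw [hcard, t5, one_mul, t8] at t1
  have h1 := hlog t
  have h2 : (Module.finrank ℚ K : ℝ) * σ.L t ≤ Module.finrank ℚ K *
      (Real.log |(ρ t : ℝ)| + Real.log |(τ t : ℝ)|) + ε / (2 * (1 + ε)) * σ.L t := by
    rw [mul_add]
    linarith
  have h3 : Real.log |(ρ t : ℝ)| + Real.log |(τ t : ℝ)| ≤ σ.L t / (1 + ε) := by
    rw [le_div_iff₀ (by positivity)]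
    linarith
  have h4 : (Module.finrank ℚ K : ℝ) * (Real.log |(ρ t : ℝ)| + Real.log |(τ t : ℝ)|) ≤
      Module.finrank ℚ K * (σ.L t / (1 + ε)) := mul_le_mul_of_nonneg_left h3 (by positivity)
  have h5 : (Module.finrank ℚ K : ℝ) * σ.L t - Module.finrank ℚ K * (σ.L t / (1 + ε)) =
      Module.finrank ℚ K * (ε / (1 + ε) * σ.L t) := by
    field_simp
    ring
  have h6 : ε / (1 + ε) * σ.L t ≤ Module.finrank ℚ K * (ε / (1 + ε) * σ.L t) :=
    le_mul_of_one_le_left (by positivity) hd1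
  have h7 : ε / (2 * (1 + ε)) * σ.L t = (ε / (1 + ε) * σ.L t) / 2 := by
    field_simp
  have h8 : 0 < ε / (1 + ε) * σ.L t := by positivity
  linarith

end Pool.Agent.Run7.h720
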