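import Pool.Agent.Run7.h720.Proj2
import Pool.Agent.Run7.h720.AbcMain

/-!
The truncated inequality for short points of the projective line over a number field.
-/

set_option autoImplicit false
set_option linter.unusedSectionVars false

namespace Pool.Agent.Run7.h720

open NumberField IsDedekindDomain Height Filter Topology
open Pool.Agent.W180.OP (Pl av wt fv fv_support_finite wt_nonneg nrm)
open Pool.Agent.K1H83.VN
open MvPolynomial (monomial)

/-- the counting function of the zeros outside a set of primes -/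
noncomputable def cnt {K : Type} [Field K] [NumberField K] (T : Set (HeightOneSpectrum (𝓞 K)))
    (x : K) : ℝ := ∑ᶠ (v : HeightOneSpectrum (𝓞 K)) (_ : v ∉ T), -Real.log (fv v x)

theorem log_fv_support {K : Type} [Field K] [NumberField K] (x : K) (hx : x ≠ 0) :
    (Function.support fun v : HeightOneSpectrum (𝓞 K) => Real.log (fv v x)).Finite := by
  refine (fv_support_finite hx).subset fun v hv h => hv ?_
  show Real.log (fv v x) = 0
  rw [h, Real.log_one]

theorem ho_le_cnt {K : Type} [Field K] [NumberField K] (S : Finset (Pl K))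
    (T : Set (HeightOneSpectrum (𝓞 K))) (hTS : ∀ v ∈ T, Sum.inr v ∈ S) (x : K) (hx : x ≠ 0)
    (h : ∀ v ∉ T, fv v x ≤ 1) : -ho S (fun _ : Unit => x) ≤ cnt T x := by
  classical
  unfold ho cnt
  rw [← finsum_neg_distrib]
  have hs1 := lo_support S (fun _ : Unit => x) (ne_of_coord (i := ()) hx)
  refine finsum_le_finsum' ?_ ?_ fun v => ?_
  · refine hs1.subset fun v hv h => hv ?_
    show -lo S (fun _ : Unit => x) v = 0
    rw [h, neg_zero]
  · refine (log_fv_support x hx).subset fun v hv h => hv ?_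
    have h2 : Real.log (fv v x) = 0 := h
    show ∑ᶠ (_ : v ∉ T), -Real.log (fv v x) = 0
    rw [h2, neg_zero]
    exact finsum_zero
  · unfold lo
    rw [finsum_eq_if, nm_unit]
    by_cases hv : v ∈ T
    · rw [if_neg (not_not.2 hv), if_pos (hTS v hv), neg_zero]
    · rw [if_pos hv]
      by_cases hv2 : Sum.inr v ∈ S
      · rw [if_pos hv2, neg_zero]
        have := Real.log_nonpos ((fv v).nonneg x) (h v hv)
        linarith
      · rw [if_neg hv2]

theorem cnt_nonneg {K : Type} [Field K] [NumberField K] (T : Set (HeightOneSpectrum (𝓞 K)))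
    (x : K) (h : ∀ v ∉ T, fv v x ≤ 1) : 0 ≤ cnt T x := by
  classical
  unfold cnt
  refine finsum_nonneg fun v => ?_
  rw [finsum_eq_if]
  by_cases hv : v ∈ T
  · rw [if_neg (not_not.2 hv)]
  · rw [if_pos hv]
    have := Real.log_nonpos ((fv v).nonneg x) (h v hv)
    linarith

/-- **The truncated inequality for short points of the projective line.** -/
theorem p1_main (K : Type) [Field K] [NumberField K] (Γ : Subgroup Kˣ) (hΓ : Γ.FG)
    (T : Set (HeightOneSpectrum (𝓞 K))) (hT : T.Finite) (q : ℕ) (α : Fin q → K × K)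
    (hα0 : ∀ i, α i ≠ 0)
    (hα : ∀ i j, i ≠ j → (α i).1 * (α j).2 - (α i).2 * (α j).1 ≠ 0) (r m : ℕ) (B ε : ℝ)
    (hε : 0 < ε) :
    ∃ δ C : ℝ, 0 < δ ∧ ∀ (x : Fin 2 → K) (ρ τ : K), x ≠ 0 →
      (∀ l, x 0 * (α l).2 - x 1 * (α l).1 ≠ 0) → ρ ≠ 0 → τ ≠ 0 → (∀ v ∉ T, fv v ρ ≤ 1) →
      (∀ v ∉ T, fv v τ ≤ 1) → PShort Γ r (B * mulHeight x ^ δ) x →
      Short Γ r (B * mulHeight x ^ δ) ρ →
      (∀ v ∉ T, ∑ l, Real.log (max (fv v (x 0)) (fv v (x 1)) *
        max (fv v (α l).1) (fv v (α l).2) / fv v (x 0 * (α l).2 - x 1 * (α l).1)) ≤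
        -(m * Real.log (fv v ρ) + Real.log (fv v τ))) →
      ((q : ℝ) - 2 - ε) * logHeight x ≤ cnt T ρ + cnt T τ + C := by
  classical
  by_contra hcon
  push Not at hcon
  -- the sequence
  have hex := fun t : ℕ => hcon (1 / ((t : ℝ) + 1)) t (by positivity)
  choose x ρ τ hx0 hxα hρ0 hτ0 hρT hτT hsx hsρ hd hbig using hex
  have hNρ : ∀ t, 0 ≤ cnt T (ρ t) := fun t => cnt_nonneg T _ (hρT t)
  have hNτ : ∀ t, 0 ≤ cnt T (τ t) := fun t => cnt_nonneg T _ (hτT t)
  have hh0 : ∀ t, 0 ≤ logHeight (x t) := fun t => logHeight_nonneg _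
  have hqp : (0 : ℝ) < (q : ℝ) - 2 - ε := by
    by_contra hneg
    push Not at hneg
    have h1 := hbig 0
    have h2 := mul_nonpos_of_nonpos_of_nonneg hneg (hh0 0)
    have h3 := hNρ 0
    have h4 := hNτ 0
    push_cast at h1
    linarith
  have hq2 : 2 ≤ q := by
    by_contra hlt
    push Not at hlt
    have : (q : ℝ) < 2 := by exact_mod_cast hlt
    linarith
  have hht : ∀ t : ℕ, (t : ℝ) / ((q : ℝ) - 2 - ε) ≤ logHeight (x t) := by
    intro t
    rw [div_le_iff₀ hqp]
    have h1 := hbig t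
    have h3 := hNρ t
    have h4 := hNτ t
    linarith
  have hlim : Tendsto (fun t => logHeight (x t)) atTop atTop :=
    tendsto_atTop_mono hht (tendsto_natCast_atTop_atTop.atTop_div_const hqp)
  let σ : Sc := ⟨hyperfilter ℕ, _, hlim.mono_left Nat.hyperfilter_le_atTop⟩
  have hσL : ∀ t, σ.L t = logHeight (x t) := fun t => rfl
  have h𝒰 : (σ.𝒰 : Filter ℕ) ≤ atTop := Nat.hyperfilter_le_atTop
  -- the places
  obtain ⟨S0, hS0, hSΓ0, hSα0⟩ := exists_places (RingHom.id K) Γ hΓ
    (Finset.univ.image fun l => ((α l).1)⁻¹) 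
  obtain ⟨S1, hS1, -, hSα1⟩ := exists_places (RingHom.id K) Γ hΓ
    (Finset.univ.image fun l => ((α l).2)⁻¹)
  obtain ⟨S, hSdef⟩ : ∃ S : Finset (Pl K), S = S0 ∪ S1 ∪
    hT.toFinset.map ⟨Sum.inr, Sum.inr_injective⟩ := ⟨_, rfl⟩
  have hS00 : S0 ⊆ S := by
    rw [hSdef]
    exact Finset.subset_union_left.trans Finset.subset_union_left
  have hS10 : S1 ⊆ S := by
    rw [hSdef]
    exact Finset.subset_union_right.trans Finset.subset_union_left
  have hTS : ∀ v ∈ T, Sum.inr v ∈ S := by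
    intro v hv
    rw [hSdef]
    refine Finset.mem_union_right _ (Finset.mem_map.2 ⟨v, ?_, rfl⟩)
    rwa [Set.Finite.mem_toFinset]
  have hS : ∀ w : InfinitePlace K, Sum.inl w ∈ S := fun w => hS00 (hS0 w)
  have hSΓ : ∀ γ ∈ Γ, IsSU S (γ : K) := fun γ hγ =>
    ⟨(hSΓ0 γ hγ).1, fun v hv => (hSΓ0 γ hγ).2 v fun h => hv (hS00 h)⟩
  have hα1 : ∀ v : HeightOneSpectrum (𝓞 K), Sum.inr v ∉ S → ∀ l,
      1 ≤ max (fv v (α l).1) (fv v (α l).2) := by
    intro v hv l
    have key : ∀ a : K, a ≠ 0 → fv v a⁻¹ ≤ 1 → 1 ≤ fv v a := by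
      intro a ha h
      rw [map_inv₀] at h
      exact (inv_le_one₀ ((fv v).pos ha)).1 h
    by_cases h1 : (α l).1 = 0
    · have h2 : (α l).2 ≠ 0 := fun h2 => hα0 l (Prod.ext h1 h2)
      refine le_max_of_le_right (key _ h2 ?_)
      exact hSα1 v (fun h => hv (hS10 h)) _ (Finset.mem_image_of_mem _ (Finset.mem_univ l))
    · refine le_max_of_le_left (key _ h1 ?_)
      exact hSα0 v (fun h => hv (hS00 h)) _ (Finset.mem_image_of_mem _ (Finset.mem_univ l))
  -- the representations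
  have hn1 : ∀ t, 1 ≤ mulHeight (x t) := fun t => one_le_mulHeight _
  have hσL' : ∀ t, σ.L t = Real.log (mulHeight (x t)) := fun t => rfl
  obtain ⟨μ, c, γ, hμ, hxc, hcF, hγS, hγB⟩ := proj_rep h𝒰 hS Γ hSΓ r B
    (fun t => mulHeight (x t)) hn1 hσL' x hx0 hsx ⟨1, Eventually.of_forall fun t => by
      rw [one_mul, hσL]⟩
  have hhoρ : ∀ t, ∑ v ∈ S, wt v * Real.log (av v (ρ t)) ≤ cnt T (ρ t) := by
    intro t
    rw [prod_formula S hS _ (hρ0 t)]
    exact ho_le_cnt S T hTS _ (hρ0 t) (hρT t)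
  have hhoτ : ∀ t, ∑ v ∈ S, wt v * Real.log (av v (τ t)) ≤ cnt T (τ t) := by
    intro t
    rw [prod_formula S hS _ (hτ0 t)]
    exact ho_le_cnt S T hTS _ (hτ0 t) (hτT t)
  obtain ⟨μ', c', γ', hμ', hρc, hcF', hγS', hγB'⟩ := unit_rep h𝒰 hS Γ hSΓ r B
    (fun t => mulHeight (x t)) hn1 hσL' ρ hρ0 hsρ ⟨(q : ℝ) - 2 - ε,
      Eventually.of_forall fun t => by
        refine (hhoρ t).trans ?_
        rw [hσL]
        have h1 := hbig t
        have h4 := hNτ t
        have h5 : (0 : ℝ) ≤ t := Nat.cast_nonneg t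
        linarith⟩
  obtain ⟨r', u, hu, hrep⟩ := exists_rep (S := S) (Sum.elim γ γ')
    (by rintro (j | j); exacts [hγS j, hγS' j])
    (by rintro (j | j); exacts [hγB j, hγB' j])
  obtain ⟨N, M, e, hN, hM⟩ := pair_poly u _ _
    (exists_poly hu _ (c 0) γ (hxc 0) (hcF 0) fun j => hrep (Sum.inl j))
    (exists_poly hu _ (c 1) γ (hxc 1) (hcF 1) fun j => hrep (Sum.inl j))
  obtain ⟨R, e', hR⟩ := exists_poly hu _ c' γ' hρc hcF' fun j => hrep (Sum.inr j)
  obtain ⟨X, hX⟩ : ∃ X : Fin 2 → G K σ, X = fun i => gm σ fun t => μ t * x t i := ⟨_, rfl⟩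
  obtain ⟨P, hP⟩ : ∃ P : G K σ, P = gm σ fun t => μ' t * ρ t := ⟨_, rfl⟩
  obtain ⟨Q, hQ⟩ : ∃ Q : G K σ, Q = gm σ fun t => τ t := ⟨_, rfl⟩
  have hX' : ∀ i, gm σ (fun t => μ t * x t i) = X i := fun i => by rw [hX]
  rw [hX'] at hN hM
  rw [← hP] at hR
  -- the coordinates do not vanish
  have hxne : ∀ i, X i ≠ 0 := by
    intro i h
    rw [← hX' i] at h
    have h5 : gm σ (fun t => μ t * x t i) = gm σ (fun _ => (0 : K)) := by
      rw [h]
      exact (map_zero (gm σ)).symm
    rw [gm_eq] at h5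
    obtain ⟨t, t1, t2⟩ := (h5.and (L_pos (σ := σ))).exists
    have h6 : x t i = 0 := (mul_eq_zero.1 t1).resolve_left (hμ t)
    have h7 : logHeight (x t) = 0 := by
      rw [logHeight_eq_logHeight_restrict_support]
      have : Subsingleton (Function.support (x t)) := by
        refine ⟨fun a b => Subtype.ext ?_⟩
        have h8 : ∀ a : Function.support (x t), (a : Fin 2) ≠ i := fun a h9 => by
          have h10 := a.2
          rw [h9] at h10
          exact h10 h6
        have h9 := h8 a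
        have h10 := h8 b
        have h11 : ∀ p s i : Fin 2, p ≠ i → s ≠ i → p = s := by decide
        exact h11 _ _ i h9 h10
      exact logHeight_eq_zero_of_subsingleton _
    rw [hσL, h7] at t2
    exact lt_irrefl _ t2
  have hP0 : P ≠ 0 := by
    rw [hP, gm_ne]
    exact Eventually.of_forall fun t => mul_ne_zero (hμ' t).1 (hρ0 t)
  have hQ0 : Q ≠ 0 := by
    rw [hQ, gm_ne]
    exact Eventually.of_forall fun t => hτ0 t
  have hrX : ∀ i, ∀ᶠ t in (σ.𝒰 : Filter ℕ), rep (X i) t = μ t * x t i := fun i =>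
    rep_eq (X i) _ (hX' i).symm
  have hrP := rep_eq P _ hP
  have hrQ := rep_eq Q _ hQ
  have hN0 : N ≠ 0 := by
    rintro rfl
    rw [map_zero] at hN
    exact mul_ne_zero (hxne 0) (mon_ne hu _) hN.symm
  have hM0 : M ≠ 0 := by
    rintro rfl
    rw [map_zero] at hM
    exact mul_ne_zero (hxne 1) (mon_ne hu _) hM.symm
  have hR0 : R ≠ 0 := by
    rintro rfl
    rw [map_zero] at hR
    exact mul_ne_zero hP0 (mon_ne hu _) hR.symm
  -- division by the greatest common divisor
  obtain ⟨N', M', g, hNM', hNg, hMg⟩ : ∃ N' M' g : MvPolynomial (Fin r') (FF K σ),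
      IsRelPrime N' M' ∧ N = g * N' ∧ M = g * M' := by
    have h1 := UniqueFactorizationMonoid.exists_reduced_factors N hN0 M
    obtain ⟨a', b', c', h2, h3, h4⟩ := h1
    exact ⟨a', b', c', h2, h3.symm, h4.symm⟩
  have hg0 : g ≠ 0 := by
    rintro rfl
    rw [zero_mul] at hNg
    exact hN0 hNg
  have hN'0 : N' ≠ 0 := by
    rintro rfl
    rw [mul_zero] at hNg
    exact hN0 hNg
  have hM'0 : M' ≠ 0 := by
    rintro rfl
    rw [mul_zero] at hMg
    exact hM0 hMg
  have hgev : ev u g ≠ 0 := ev_ne hu hS g hg0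
  obtain ⟨ν, hν⟩ : ∃ ν : G K σ, ν = mon u e / ev u g := ⟨_, rfl⟩
  have hν0 : ν ≠ 0 := by
    rw [hν]
    exact div_ne_zero (mon_ne hu e) hgev
  have hN'X : ev u N' = X 0 * ν := by
    rw [hν, ← mul_div_assoc, eq_div_iff hgev, ← hN, hNg, map_mul, mul_comm]
  have hM'X : ev u M' = X 1 * ν := by
    rw [hν, ← mul_div_assoc, eq_div_iff hgev, ← hM, hMg, map_mul, mul_comm]
  obtain ⟨Λ, hΛ⟩ : ∃ Λ : ℕ → K, Λ = fun t => μ t * rep ν t := ⟨_, rfl⟩
  have hrN' : ∀ᶠ t in (σ.𝒰 : Filter ℕ), rep (ev u N') t = Λ t * x t 0 ∧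
      rep (ev u M') t = Λ t * x t 1 ∧ Λ t ≠ 0 := by
    filter_upwards [rep_mul (X 0) ν, rep_mul (X 1) ν, hrX 0, hrX 1, rep_ne ν hν0]
      with t t1 t2 t3 t4 t5
    rw [hN'X, hM'X, t1, t2, t3, t4, hΛ]
    refine ⟨by ring, by ring, mul_ne_zero (hμ t) t5⟩
  have hqh : ∀ᶠ t in (σ.𝒰 : Filter ℕ), logHeight ![rep (ev u N') t, rep (ev u M') t] =
      σ.L t := by
    filter_upwards [hrN'] with t ⟨t1, t2, t3⟩
    rw [hσL, ← logHeight_smul_eq_logHeight (x t) t3]
    congr 1
    funext i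
    fin_cases i
    · exact t1
    · exact t2
  have hNM : ∀ c, N' ≠ MvPolynomial.C c * M' := by
    intro c h
    have h2 := congrArg (ev u) h
    have h4 : ev u (MvPolynomial.C c) = (c : G K σ) := by
      unfold ev
      rw [MvPolynomial.aeval_C]
      rfl
    rw [map_mul, h4] at h2
    have h5 : ev u N' / ev u M' ∈ FF K σ := by
      rw [h2, mul_div_cancel_right₀ _ (ev_ne hu hS M' hM'0)]
      exact c.2
    rw [mem_FF] at h5
    obtain ⟨t, ⟨⟨h6, h7⟩, h8⟩, h9⟩ := ((((h5 (1 / 2) (by norm_num)).and hqh).and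
      (L_pos (σ := σ))).and (rep_div (ev u N') (ev u M'))).exists
    have h10 : logHeight₁ (rep (ev u N' / ev u M') t) ≤ 1 / 2 * σ.L t := h6
    rw [h9, logHeight₁_div_eq_logHeight, h7] at h10
    linarith
  have hZ : Sm σ fun t => -ho S fun i => rep (ev u (![N', M'] i)) t := by
    refine (gcd_small hu hS N' M' hN'0 hM'0 hNM').mono (Eventually.of_forall fun t => ?_)
    have h1 : (fun i => rep (ev u (![N', M'] i)) t) = ![rep (ev u N') t, rep (ev u M') t] := by
      funext i
      fin_cases i <;> rfl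
    rw [h1]
  -- the forms
  obtain ⟨p, hp⟩ : ∃ p : Fin q → MvPolynomial (Fin r') (FF K σ), p = fun i =>
      algebraMap K _ (α i).2 * N' + algebraMap K _ (-(α i).1) * M' := ⟨_, rfl⟩
  have hpe : ∀ i, ∀ᶠ t in (σ.𝒰 : Filter ℕ), rep (ev u (p i)) t =
      Λ t * (x t 0 * (α i).2 - x t 1 * (α i).1) := by
    intro i
    have h1 : ev u (p i) = algebraMap K (G K σ) (α i).2 * ev u N' +
        algebraMap K (G K σ) (-(α i).1) * ev u M' := by
      rw [hp, map_add, ev_alg, ev_alg]
    have h2 : ev u (p i) = gm σ fun t => (α i).2 * rep (ev u N') t +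
        -(α i).1 * rep (ev u M') t := by
      have e1 : (fun t => (α i).2 * rep (ev u N') t + -(α i).1 * rep (ev u M') t) =
          (fun _ => (α i).2) * rep (ev u N') + (fun _ => -(α i).1) * rep (ev u M') := rfl
      rw [h1, e1, map_add, map_mul, map_mul, gm_rep, gm_rep]
      rfl
    filter_upwards [rep_eq _ _ h2, hrN'] with t t1 t2
    rw [t1, t2.1, t2.2.1]
    ring
  have hp0 : ∀ i, p i ≠ 0 := by
    intro i h
    obtain ⟨t, ⟨t1, ⟨-, -, t2⟩⟩, t3⟩ := (((hpe i).and hrN').and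
      (rep_zero (k := K) (σ := σ))).exists
    rw [h, map_zero, t3] at t1
    exact mul_ne_zero t2 (hxα t i) t1.symm
  have hpp : ∀ᶠ t in (σ.𝒰 : Filter ℕ), rep (ev u (∏ i, p i)) t =
      ∏ i, (Λ t * (x t 0 * (α i).2 - x t 1 * (α i).1)) := by
    have h1 : ev u (∏ i, p i) = gm σ fun t => ∏ i, rep (ev u (p i)) t := by
      have e1 : (fun t => ∏ i, rep (ev u (p i)) t) = ∏ i, rep (ev u (p i)) := by
        funext t
        rw [Finset.prod_apply]
      rw [e1, map_prod, map_prod]
      exact Finset.prod_congr rfl fun i _ => (gm_rep _).symm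
    filter_upwards [rep_eq _ _ h1, Filter.eventually_all.2 hpe] with t t1 t2
    rw [t1]
    exact Finset.prod_congr rfl fun i _ => t2 i
  obtain ⟨A1, C1, hAR, -, -, hCP, hA10, hC10, hCR, hCs, hmain⟩ := bin_core hu hS
    (x := fun i => (α i).2) (y := fun i => -(α i).1) (p := p) (N := N') (M := M')
    (by
      intro i j hij h
      apply hα i j hij
      linear_combination h) (by rw [Fintype.card_fin]; exact hq2)
    (by
      intro i
      rw [hp]) hp0 hM'0 hNM hZ R hR0 Q hQ0 (m + 1) q (Nat.succ_ne_zero m) (by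
      filter_upwards [hpp, fv_mon hu _ _ _ hR, hrP, hrQ, hrN'] with t t1 t2 t3 t4 ⟨t5, t6, t7⟩ v hv
      have hvT : v ∉ T := fun h => hv (hTS v h)
      have hμv : fv v (μ' t) = 1 := (hμ' t).2 v hv
      rw [t2 v hv, t3, t4, t1, map_mul, hμv, one_mul]
      refine ⟨hτT t v hvT, ?_⟩
      have hnm : nm (fv v) (fun i => rep (ev u (![N', M'] i)) t) =
          fv v (Λ t) * max (fv v (x t 0)) (fv v (x t 1)) := by
        apply le_antisymm
        · refine nm_le _ (mul_nonneg ((fv v).nonneg _) (le_max_of_le_left ((fv v).nonneg _)))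
            fun i => ?_
          fin_cases i
          · show fv v (rep (ev u N') t) ≤ _
            rw [t5, map_mul]
            exact mul_le_mul_of_nonneg_left (le_max_left _ _) ((fv v).nonneg _)
          · show fv v (rep (ev u M') t) ≤ _
            rw [t6, map_mul]
            exact mul_le_mul_of_nonneg_left (le_max_right _ _) ((fv v).nonneg _)
        · have k1 : fv v (rep (ev u N') t) ≤ nm (fv v) fun i => rep (ev u (![N', M'] i)) t :=
            le_nm (fv v) (fun i => rep (ev u (![N', M'] i)) t) 0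
          have k2 : fv v (rep (ev u M') t) ≤ nm (fv v) fun i => rep (ev u (![N', M'] i)) t :=
            le_nm (fv v) (fun i => rep (ev u (![N', M'] i)) t) 1
          rw [t5, map_mul] at k1
          rw [t6, map_mul] at k2
          rw [mul_max_of_nonneg _ _ ((fv v).nonneg _)]
          exact max_le k1 k2
      rw [hnm, map_prod]
      obtain ⟨Y, hY⟩ : ∃ Y, Y = max (fv v (x t 0)) (fv v (x t 1)) := ⟨_, rfl⟩
      have hY0 : 0 < Y := by
        rw [hY]
        by_contra hcon
        push Not at hcon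
        apply hx0 t
        funext i
        have k1 := (fv v).nonneg (x t i)
        have k2 : fv v (x t i) ≤ max (fv v (x t 0)) (fv v (x t 1)) := by
          fin_cases i
          · exact le_max_left _ _
          · exact le_max_right _ _
        exact (fv v).eq_zero.1 (le_antisymm (k2.trans hcon) k1)
      have hΛ0 : 0 < fv v (Λ t) := (fv v).pos t7
      have hρv : 0 < fv v (ρ t) := (fv v).pos (hρ0 t)
      have hτv : 0 < fv v (τ t) := (fv v).pos (hτ0 t)
      have hdv : ∀ i, 0 < fv v (x t 0 * (α i).2 - x t 1 * (α i).1) := fun i =>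
        (fv v).pos (hxα t i)
      rw [← hY]
      have h1 := hd t v hvT
      rw [← hY] at h1
      have h2 : ∀ i ∈ Finset.univ, Real.log Y - Real.log (fv v (x t 0 * (α i).2 - x t 1 * (α i).1)) ≤
          Real.log (Y * max (fv v (α i).1) (fv v (α i).2) /
            fv v (x t 0 * (α i).2 - x t 1 * (α i).1)) := by
        intro i _
        rw [← Real.log_div hY0.ne' (hdv i).ne']
        refine Real.log_le_log (div_pos hY0 (hdv i)) ?_
        refine div_le_div_of_nonneg_right ?_ (hdv i).le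
        exact le_mul_of_one_le_right hY0.le (hα1 v hv i)
      have h3 := (Finset.sum_le_sum h2).trans h1
      rw [Finset.sum_sub_distrib, Finset.sum_const, Finset.card_univ, Fintype.card_fin,
        nsmul_eq_mul, ← Real.log_prod (s := Finset.univ) (fun i _ => (hdv i).ne')] at h3
      have h4 : ∏ i, fv v (Λ t * (x t 0 * (α i).2 - x t 1 * (α i).1)) =
          fv v (Λ t) ^ q * ∏ i, fv v (x t 0 * (α i).2 - x t 1 * (α i).1) := by
        rw [Finset.prod_congr rfl fun i _ => map_mul (fv v) _ _, Finset.prod_mul_distrib,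
          Finset.prod_const, Finset.card_univ, Fintype.card_fin]
      rw [h4, mul_pow]
      have h5 : fv v (ρ t) ^ (m + 1) * fv v (τ t) * Y ^ q ≤
          ∏ i, fv v (x t 0 * (α i).2 - x t 1 * (α i).1) := by
        have hpos : 0 < ∏ i, fv v (x t 0 * (α i).2 - x t 1 * (α i).1) :=
          Finset.prod_pos fun i _ => hdv i
        have h6 : fv v (ρ t) ^ (m + 1) * fv v (τ t) * Y ^ q ≤
            fv v (ρ t) ^ m * fv v (τ t) * Y ^ q := by
          rw [pow_succ, mul_right_comm (fv v (ρ t) ^ m)]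
          refine mul_le_mul_of_nonneg_right ?_ (pow_pos hY0 q).le
          exact mul_le_of_le_one_right (by positivity) (hρT t v hvT)
        refine h6.trans ?_
        rw [← Real.log_le_log_iff (by positivity) hpos, Real.log_mul (by positivity)
          (by positivity), Real.log_mul (by positivity) (by positivity), Real.log_pow,
          Real.log_pow]
        linarith
      calc fv v (ρ t) ^ (m + 1) * fv v (τ t) * (fv v (Λ t) ^ q * Y ^ q) =
          fv v (Λ t) ^ q * (fv v (ρ t) ^ (m + 1) * fv v (τ t) * Y ^ q) := by ring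
        _ ≤ _ := mul_le_mul_of_nonneg_left h5 (pow_pos hΛ0 q).le)
  have hAs := hs_dvd hu hS A1 R hAR hR0
  have hall := (hmain.add hCs).add hAs
  obtain ⟨t, ⟨⟨⟨⟨⟨⟨⟨t1, t2⟩, t3⟩, t4⟩, t5⟩, t6⟩, t7⟩, t8⟩, t9⟩ :=
    (((((((((hall (ε / 2) (by positivity)).and
    (L_pos (σ := σ))).and (hs_ho (S := S) hS P hP0)).and
    (hs_ho (S := S) hS Q hQ0)).and hqh).and hrP).and hrQ).and
    (hs_mul (S := S) P (mon u e') hP0 (mon_ne hu _))).and (hs_mon hu hS e')).exists
  simp only at t1
  rw [← hR, t9, add_zero] at t8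
  rw [t6] at t3
  rw [t7] at t4
  have hcard : (Fintype.card (Fin q) : ℝ) = q := by rw [Fintype.card_fin]
  rw [hcard, t5, t8] at t1
  have h1 := hbig t
  rw [← hσL] at h1
  have h2 : hs S P t ≤ cnt T (ρ t) := by
    rw [t3, ← prod_formula S hS _ (mul_ne_zero (hμ' t).1 (hρ0 t))]
    refine le_trans (le_of_eq ?_) (hhoρ t)
    have h3 : ∀ v ∈ S, wt v * Real.log (av v (μ' t * ρ t)) =
        wt v * Real.log (av v (μ' t)) + wt v * Real.log (av v (ρ t)) := by
      intro v _
      rw [map_mul, Real.log_mul ((av v).ne_zero_iff.2 (hμ' t).1)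
        ((av v).ne_zero_iff.2 (hρ0 t)), mul_add]
    rw [Finset.sum_congr rfl h3, Finset.sum_add_distrib, (hμ' t).prod_formula hS, zero_add]
  have h3 : hs S Q t ≤ cnt T (τ t) := by
    rw [t4, ← prod_formula S hS _ (hτ0 t)]
    exact hhoτ t
  have h4 : (0 : ℝ) ≤ t := Nat.cast_nonneg t
  nlinarith

end Pool.Agent.Run7.h720
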