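import Pool.Agent.Run7.h720.Seg

/-!
The truncated inequality for short points of the product of two lines.
-/

set_option autoImplicit false
set_option linter.unusedSectionVars false

namespace Pool.Agent.Run7.h720

open NumberField IsDedekindDomain Height
open Pool.Agent.W180.OP (Pl av wt fv fv_support_finite wt_nonneg nrm)
open Pool.Agent.K1H83.VN
open MvPolynomial

section
variable {K : Type} [Field K] [NumberField K]

theorem nm_prod (f : AbsoluteValue K ℝ) (x y : Fin 2 → K) :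
    nm f (fun j => x (ca j) * y (cb j)) = nm f x * nm f y := by
  refine le_antisymm (nm_le f (mul_nonneg (nm_nonneg f x) (nm_nonneg f y)) fun j => ?_) ?_
  · rw [map_mul]
    exact mul_le_mul (le_nm f x _) (le_nm f y _) (f.nonneg _) (nm_nonneg f x)
  · obtain ⟨i, hi⟩ := exists_nm f x
    obtain ⟨i', hi'⟩ := exists_nm f y
    have h1 := le_nm f (fun j => x (ca j) * y (cb j)) (ce.symm (i, i'))
    have h2 : ce (ce.symm (i, i')) = (i, i') := ce.apply_symm_apply _
    have h3 : ca (ce.symm (i, i')) = i := congrArg Prod.fst h2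
    have h4 : cb (ce.symm (i, i')) = i' := congrArg Prod.snd h2
    rw [h3, h4, map_mul, hi, hi'] at h1
    exact h1

theorem nm_pow' (f : AbsoluteValue K ℝ) (x : Fin 2 → K) (n : ℕ) :
    nm f (x ^ n) = nm f x ^ n := by
  refine le_antisymm (nm_le f (pow_nonneg (nm_nonneg f x) _) fun j => ?_) ?_
  · rw [Pi.pow_apply, map_pow]
    exact pow_le_pow_left₀ (f.nonneg _) (le_nm f x _) _
  · obtain ⟨i, hi⟩ := exists_nm f x
    rw [← hi, ← map_pow]
    exact le_nm f (x ^ n) i

theorem ht_prod {x y : Fin 2 → K} (hx : x ≠ 0) (hy : y ≠ 0) :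
    logHeight (fun j => x (ca j) * y (cb j)) = logHeight x + logHeight y := by
  rw [← logHeight_fun_mul_eq hx hy]
  exact logHeight_comp_equiv ce (fun a : Fin 2 × Fin 2 => x a.1 * y a.2)

theorem mht_prod {x y : Fin 2 → K} (hx : x ≠ 0) (hy : y ≠ 0) :
    mulHeight (sgv x y) = mulHeight x * mulHeight y := by
  rw [← mulHeight_fun_mul_eq hx hy]
  exact mulHeight_comp_equiv ce (fun a : Fin 2 × Fin 2 => x a.1 * y a.2)

theorem ht_mult {x y : Fin 2 → K} (hx : x ≠ 0) (hy : y ≠ 0) {c : K} (hc : c ≠ 0) (n m : ℕ) :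
    logHeight (fun j => c * (x (ca j) ^ n * y (cb j) ^ m)) = n * logHeight x + m * logHeight y := by
  have e1 : (fun j => c * (x (ca j) ^ n * y (cb j) ^ m)) =
      c • (fun j => (x ^ n) (ca j) * (y ^ m) (cb j)) := by
    funext j
    rfl
  rw [e1, logHeight_smul_eq_logHeight _ hc, ht_prod (pow_ne_zero' hx n) (pow_ne_zero' hy m),
    logHeight_pow, logHeight_pow]
where
  pow_ne_zero' {x : Fin 2 → K} (hx : x ≠ 0) (n : ℕ) : x ^ n ≠ 0 := by
    obtain ⟨i, hi⟩ := Function.ne_iff.1 hx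
    exact ne_of_coord (i := i) (pow_ne_zero n hi)

theorem nm_mult (f : AbsoluteValue K ℝ) (x y : Fin 2 → K) (c : K) (n m : ℕ) :
    nm f (fun j => c * (x (ca j) ^ n * y (cb j) ^ m)) = f c * (nm f x ^ n * nm f y ^ m) := by
  rw [nm_smul, ← nm_pow', ← nm_pow', ← nm_prod]
  rfl

/-- products of short vectors -/
theorem pshort_prod {Γ : Subgroup Kˣ} {r : ℕ} {R : ℝ} {x y : Fin 2 → K} (hx : PShort Γ r R x)
    (hy : PShort Γ r R y) : PShort Γ (r * r) (R * R) (sgv x y) := by
  obtain ⟨c, γ, h1, h2, h3⟩ := hx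
  obtain ⟨c', γ', h1', h2', h3'⟩ := hy
  refine ⟨fun j i => c (finProdFinEquiv.symm j).1 (ca i) * c' (finProdFinEquiv.symm j).2 (cb i),
    fun j => γ (finProdFinEquiv.symm j).1 * γ' (finProdFinEquiv.symm j).2,
    fun j => Γ.mul_mem (h1 _) (h1' _), fun j i => ?_, fun i => ?_⟩
  · refine (mulHeight₁_mul_le _ _).trans ?_
    have h4 := h2 (finProdFinEquiv.symm j).1 (ca i)
    exact mul_le_mul h4 (h2' _ _) (zero_le_one.trans (one_le_mulHeight₁ _))
      ((zero_le_one.trans (one_le_mulHeight₁ _)).trans h4)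
  · unfold sgv
    rw [h3, h3', Finset.sum_mul_sum, ← Finset.sum_product']
    refine Fintype.sum_equiv finProdFinEquiv _ _ fun p => ?_
    simp only [Equiv.symm_apply_apply, Units.val_mul]
    ring

theorem short_sq {Γ : Subgroup Kˣ} {r : ℕ} {R : ℝ} {z : K} (hz : z ≠ 0) (h : Short Γ r R z) :
    Short Γ (r * r) (R * R) z := by
  have hR := short_pos hz h
  have h1 := short_add (s := r * r - r) hR h
  have e1 : r + (r * r - r) = r * r := Nat.add_sub_cancel' (Nat.le_mul_self r)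
  rw [e1] at h1
  obtain ⟨c, γ, h2, h3, h4⟩ := h1
  exact ⟨c, γ, h2, fun j => (h3 j).trans (by nlinarith), h4⟩

/-- a basis of the tangent space of the quadric -/
def tq (x y : Fin 2 → K) : Matrix (Fin 4) (Fin 3) K :=
  !![y 0, 0, 0; y 1, 0, x 0; 0, y 0, 0; 0, y 1, x 1]

theorem tq_indep {x y : Fin 2 → K} (hx : x 0 ≠ 0) (hy : y 0 ≠ 0) :
    LinearIndependent K (fun (c : Fin 3) (j : Fin 4) => tq x y j c) := by
  rw [Fintype.linearIndependent_iff]
  intro g hg
  have h0 := congrFun hg 0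
  have h1 := congrFun hg 1
  have h2 := congrFun hg 2
  simp [Fin.sum_univ_three, tq] at h0 h1 h2
  have e0 : g 0 = 0 := h0.resolve_right hy
  have e1 : g 1 = 0 := h2.resolve_right hy
  rw [e0, zero_mul, zero_add] at h1
  have e2 : g 2 = 0 := (mul_eq_zero.1 h1).resolve_right hx
  intro i
  fin_cases i
  · exact e0
  · exact e1
  · exact e2

theorem tq_tangent (x y : Fin 2 → K) (c : Fin 3) :
    ∑ j, aeval (sgv x y) (pderiv j (quad K)) * tq x y j c = 0 := by
  have h1 : ∀ j, aeval (sgv x y) (pderiv j (quad K)) =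
      (![sgv x y 3, -sgv x y 2, -sgv x y 1, sgv x y 0] : Fin 4 → K) j := fun j =>
    congrFun (quad_grad (k := K) (sgv x y)) j
  simp only [h1, Fin.sum_univ_four]
  fin_cases c
  · simp [tq, sgv, ca, cb]
    ring
  · simp [tq, sgv, ca, cb]
    ring
  · simp [tq, sgv, ca, cb]
    ring

theorem tq_height {x y : Fin 2 → K} (hx : x ≠ 0) (hy' : y 0 ≠ 0) :
    logHeight x + logHeight y ≤
      logHeight (fun J : Fin 3 → Fin 4 => ((tq x y).submatrix J id).det) := by
  have hy : y ≠ 0 := ne_of_coord hy'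
  obtain ⟨J, hJ⟩ : ∃ J : Fin 4 → Fin 3 → Fin 4, J = ![![1, 0, 2], ![1, 0, 3], ![0, 2, 3],
    ![1, 2, 3]] := ⟨_, rfl⟩
  refine le_trans (le_of_eq ?_) (logHeight_comp_le J _)
  rw [← ht_prod hx hy, ← logHeight_smul_eq_logHeight _ hy']
  congr 1
  funext i
  rw [Function.comp_apply, Matrix.det_fin_three, hJ]
  fin_cases i <;> simp [tq, ca, cb, Matrix.submatrix] <;> ring

/-- the exceptional set -/
theorem exists_deh (Φ : MvPolynomial (Fin 3) K) (e : ℕ) (hΦ : Φ ≠ 0) (hh : Φ.IsHomogeneous e) :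
    ∃ G : MvPolynomial (Fin 2) K, G ≠ 0 ∧ ∀ x y : Fin 2 → K, x 0 ≠ 0 → y 0 ≠ 0 →
      aeval ![x 1 / x 0, y 1 / y 0] G ≠ 0 → aeval ![x 0 * y 0, x 0 * y 1, x 1 * y 0] Φ ≠ 0 := by
  obtain ⟨G, hG⟩ : ∃ G : MvPolynomial (Fin 2) K, G = aeval ![1, X 1, X 0] Φ := ⟨_, rfl⟩
  have key : ∀ s t : K, aeval ![s, t] G = aeval ![1, t, s] Φ := by
    intro s t
    rw [hG, comp_aeval_apply]
    congr 2
    funext i
    fin_cases i <;> simp
  have key2 : ∀ c s t : K, aeval ![c, c * t, c * s] Φ = c ^ e * aeval ![s, t] G := by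
    intro c s t
    rw [key]
    have h1 := aeval_hom_smul Φ hh (![1, t, s] : Fin 3 → K) c
    rw [← h1]
    congr 2
    funext i
    fin_cases i <;> simp
  refine ⟨G, ?_, ?_⟩
  · rintro rfl
    have h1 : Φ * X 0 = 0 := by
      refine MvPolynomial.funext fun z => ?_
      rw [map_mul, map_zero, eval_X]
      by_cases hz : z 0 = 0
      · rw [hz, mul_zero]
      · have h2 := key2 (z 0) (z 2 / z 0) (z 1 / z 0)
        rw [map_zero, mul_zero] at h2
        have e1 : (![z 0, z 0 * (z 1 / z 0), z 0 * (z 2 / z 0)] : Fin 3 → K) = z := by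
          funext i
          fin_cases i
          · rfl
          · show z 0 * (z 1 / z 0) = z 1
            field_simp
          · show z 0 * (z 2 / z 0) = z 2
            field_simp
        rw [e1] at h2
        have h3 : eval z Φ = 0 := by
          rw [← h2]
          rfl
        rw [h3, zero_mul]
    rcases mul_eq_zero.1 h1 with h2 | h2
    · exact hΦ h2
    · exact X_ne_zero _ h2
  · intro x y hx hy hne
    have h2 := key2 (x 0 * y 0) (x 1 / x 0) (y 1 / y 0)
    have e1 : (![x 0 * y 0, x 0 * y 0 * (y 1 / y 0), x 0 * y 0 * (x 1 / x 0)] : Fin 3 → K) =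
        ![x 0 * y 0, x 0 * y 1, x 1 * y 0] := by
      funext i
      fin_cases i
      · rfl
      · show x 0 * y 0 * (y 1 / y 0) = x 0 * y 1
        field_simp
      · show x 0 * y 0 * (x 1 / x 0) = x 1 * y 0
        field_simp
    rw [e1] at h2
    rw [h2]
    exact mul_ne_zero (pow_ne_zero _ (mul_ne_zero hx hy)) hne

end

/-- **The truncated inequality for short points of the product of two lines.** -/
theorem seg_main (K : Type) [Field K] [NumberField K] (Γ : Subgroup Kˣ) (hΓ : Γ.FG)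
    (T : Set (HeightOneSpectrum (𝓞 K))) (hT : T.Finite) {q : ℕ}
    (F : Fin q → MvPolynomial (Fin 4) K) (a b : Fin q → ℕ) (hF : ∀ i, Bihom (F i) (a i) (b i))
    (hNC : ∀ (L : Type) [Field L] [Algebra K L] (z : Fin 4 → L), (z 0 ≠ 0 ∨ z 1 ≠ 0) →
      (z 2 ≠ 0 ∨ z 3 ≠ 0) → LinearIndependent L (fun i : {i : Fin q // aeval z (F i) = 0} =>
        fun c : Fin 4 => aeval z (pderiv c (F i.1))))
    (r M : ℕ) (B ε : ℝ) (hε : 0 < ε) :
    ∃ (G : MvPolynomial (Fin 2) K) (δ C : ℝ), G ≠ 0 ∧ 0 < δ ∧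
      ∀ (x y : Fin 2 → K) (ρ τ : K), x 0 ≠ 0 → y 0 ≠ 0 →
        aeval ![x 1 / x 0, y 1 / y 0] G ≠ 0 → (∀ i, aeval (pr x y) (F i) ≠ 0) →
        ρ ≠ 0 → τ ≠ 0 → (∀ v ∉ T, fv v ρ ≤ 1) → (∀ v ∉ T, fv v τ ≤ 1) →
        PShort Γ r (B * (mulHeight x * mulHeight y) ^ δ) x →
        PShort Γ r (B * (mulHeight x * mulHeight y) ^ δ) y →
        Short Γ r (B * (mulHeight x * mulHeight y) ^ δ) ρ →
        (∀ v ∉ T, ∑ i, Real.log (nm (fv v) x ^ a i * nm (fv v) y ^ b i /
          fv v (aeval (pr x y) (F i))) ≤ -(M * Real.log (fv v ρ) + Real.log (fv v τ))) →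
        ((∑ i, a i : ℕ) - 2 - ε) * logHeight x + ((∑ i, b i : ℕ) - 2 - ε) * logHeight y ≤
          cnt T ρ + cnt T τ + C := by
  classical
  obtain ⟨Φ, e, δ, C, hΦ0, hΦh, hδ, hmain⟩ := var_main K Γ hΓ T hT (by norm_num : 1 ≤ 2)
    (fun _ : Fin 1 => quad K) (sF F a b) (sm_seg F a b hF hNC) (by norm_num) (fun _ => 2)
    (fun _ => quad_hom) (fun i => max (a i) (b i)) (fun i j => sF_hom hF i j) ![0, 1, 2] (r * r) M
    (B * B) ε hε
  obtain ⟨G, hG0, hG⟩ := exists_deh Φ e hΦ0 hΦh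
  refine ⟨G, δ / 2, C, hG0, by positivity, ?_⟩
  intro x y ρ τ hx0 hy0 hGz hFz hρ0 hτ0 hρT hτT hsx hsy hsρ hdiv
  have hx : x ≠ 0 := ne_of_coord hx0
  have hy : y ≠ 0 := ne_of_coord hy0
  have hHx := mulHeight_pos x
  have hHy := mulHeight_pos y
  have hR : B * (mulHeight x * mulHeight y) ^ (δ / 2) *
      (B * (mulHeight x * mulHeight y) ^ (δ / 2)) = B * B * mulHeight (sgv x y) ^ δ := by
    rw [mht_prod hx hy]
    have h1 : (mulHeight x * mulHeight y) ^ (δ / 2) * (mulHeight x * mulHeight y) ^ (δ / 2) =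
        (mulHeight x * mulHeight y) ^ δ := by
      rw [← Real.rpow_add (by positivity)]
      congr 1
      ring
    rw [← h1]
    ring
  have hs1 := pshort_prod hsx hsy
  have hs2 := short_sq hρ0 hsρ
  rw [hR] at hs1 hs2
  have hz0 : sgv x y ≠ 0 := ne_of_coord (i := 0) (mul_ne_zero hx0 hy0)
  have hzq : aeval (sgv x y) (quad K) = 0 := by
    rw [aeval_sgv, quad_sg, map_zero]
  have hΦz : aeval (fun a => sgv x y ((![0, 1, 2] : Fin 3 → Fin 4) a)) Φ ≠ 0 := by
    have h1 := hG x y hx0 hy0 hGz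
    have e1 : (fun a => sgv x y ((![0, 1, 2] : Fin 3 → Fin 4) a)) =
        ![x 0 * y 0, x 0 * y 1, x 1 * y 0] := by
      funext i
      fin_cases i <;> rfl
    rwa [e1]
  have hFj : ∀ i, ∃ j, aeval (sgv x y) (sF F a b i j) ≠ 0 := by
    intro i
    refine ⟨0, ?_⟩
    rw [sF_eval hF]
    exact mul_ne_zero (hFz i) (mul_ne_zero (pow_ne_zero _ hx0) (pow_ne_zero _ hy0))
  have hnmx : ∀ v : HeightOneSpectrum (𝓞 K), 0 < nm (fv v) x := fun v => nm_pos _ hx
  have hnmy : ∀ v : HeightOneSpectrum (𝓞 K), 0 < nm (fv v) y := fun v => nm_pos _ hy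
  have key := hmain (sgv x y) ρ τ (tq x y) hz0 (fun _ => hzq) hΦz hFj hρ0 hτ0 hρT hτT hs1 hs2 (by
      intro v hv
      refine le_trans (le_of_eq ?_) (hdiv v hv)
      refine Finset.sum_congr rfl fun i _ => ?_
      congr 1
      have e1 : nm (fv v) (sgv x y) = nm (fv v) x * nm (fv v) y := nm_prod _ x y
      have e2 : nm (fv v) (fun j => aeval (sgv x y) (sF F a b i j)) =
          fv v (aeval (pr x y) (F i)) * (nm (fv v) x ^ (max (a i) (b i) - a i) *
            nm (fv v) y ^ (max (a i) (b i) - b i)) := by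
        simp only [sF_eval hF]
        exact nm_mult _ x y _ _ _
      have h1 := (fv v).pos_iff.2 (hFz i)
      have h2 := hnmx v
      have h3 := hnmy v
      rw [e1, e2, div_eq_div_iff (by positivity) (by positivity), mul_pow]
      have e3 : max (a i) (b i) = a i + (max (a i) (b i) - a i) := by omega
      have e4 : max (a i) (b i) = b i + (max (a i) (b i) - b i) := by omega
      have e5 : nm (fv v) x ^ max (a i) (b i) =
          nm (fv v) x ^ a i * nm (fv v) x ^ (max (a i) (b i) - a i) := by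
        rw [← pow_add, ← e3]
      have e6 : nm (fv v) y ^ max (a i) (b i) =
          nm (fv v) y ^ b i * nm (fv v) y ^ (max (a i) (b i) - b i) := by
        rw [← pow_add, ← e4]
      rw [e5, e6]
      ring) (tq_indep hx0 hy0) (fun _ c => tq_tangent x y c)
  have hz : logHeight (sgv x y) = logHeight x + logHeight y := ht_prod hx hy
  have hFh : ∀ i, logHeight (fun j => aeval (sgv x y) (sF F a b i j)) =
      ((max (a i) (b i) - a i : ℕ) : ℝ) * logHeight x +
        ((max (a i) (b i) - b i : ℕ) : ℝ) * logHeight y := by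
    intro i
    simp only [sF_eval hF]
    exact ht_mult hx hy (hFz i) _ _
  have hsum : ∑ i, (((max (a i) (b i) : ℕ) : ℝ) * logHeight (sgv x y) -
      logHeight (fun j => aeval (sgv x y) (sF F a b i j))) =
        ((∑ i, a i : ℕ) : ℝ) * logHeight x + ((∑ i, b i : ℕ) : ℝ) * logHeight y := by
    push_cast
    rw [Finset.sum_mul, Finset.sum_mul, ← Finset.sum_add_distrib]
    refine Finset.sum_congr rfl fun i _ => ?_
    rw [hz, hFh, Nat.cast_sub (le_max_left _ _), Nat.cast_sub (le_max_right _ _)]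
    push_cast
    ring
  have htq := tq_height hx hy0
  rw [hsum, hz] at key
  push_cast at key htq ⊢
  linarith

end Pool.Agent.Run7.h720
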