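import Pool.Agent.Run7.h720.VSeq

/-!
Vojta's inequality with the truncated counting function for short points of smooth projective
varieties over number fields.
-/

set_option autoImplicit false
set_option linter.unusedSectionVars false

namespace Pool.Agent.Run7.h720

open NumberField IsDedekindDomain Height Filter Topology
open Pool.Agent.W180.OP (Pl av wt fv fv_support_finite wt_nonneg nrm)
open Pool.Agent.K1H83.VN
open MvPolynomial (aeval pderiv monomial)

/-- **Vojta's inequality with the truncated counting function for short points.** -/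
theorem var_main (K : Type) [Field K] [NumberField K] (Γ : Subgroup Kˣ) (hΓ : Γ.FG)
    (T : Set (HeightOneSpectrum (𝓞 K))) (hT : T.Finite) {m g q w s n : ℕ} (hn : 1 ≤ n)
    (Gs : Fin g → MvPolynomial (Fin m) K) (F : Fin q → Fin w → MvPolynomial (Fin m) K)
    (hGF : SmPair s Gs F) (hm : s + (n + 1) = m) (dG : Fin g → ℕ)
    (hGh : ∀ i, (Gs i).IsHomogeneous (dG i)) (dF : Fin q → ℕ)
    (hFh : ∀ i j, (F i j).IsHomogeneous (dF i)) (J0 : Fin (n + 1) → Fin m) (r M : ℕ) (B ε : ℝ)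
    (hε : 0 < ε) :
    ∃ (Φ : MvPolynomial (Fin (n + 1)) K) (e : ℕ) (δ C : ℝ), Φ ≠ 0 ∧ Φ.IsHomogeneous e ∧ 0 < δ ∧
      ∀ (x : Fin m → K) (ρ τ : K) (A : Matrix (Fin m) (Fin (n + 1)) K), x ≠ 0 →
        (∀ i, aeval x (Gs i) = 0) → aeval (fun a => x (J0 a)) Φ ≠ 0 →
        (∀ i, ∃ j, aeval x (F i j) ≠ 0) → ρ ≠ 0 → τ ≠ 0 → (∀ v ∉ T, fv v ρ ≤ 1) →
        (∀ v ∉ T, fv v τ ≤ 1) → PShort Γ r (B * mulHeight x ^ δ) x →
        Short Γ r (B * mulHeight x ^ δ) ρ →
        (∀ v ∉ T, ∑ i, Real.log (nm (fv v) x ^ dF i / nm (fv v) fun j => aeval x (F i j)) ≤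
          -(M * Real.log (fv v ρ) + Real.log (fv v τ))) →
        LinearIndependent K (fun (c : Fin (n + 1)) (j : Fin m) => A j c) →
        (∀ k' c, ∑ j, aeval x (pderiv j (Gs k')) * A j c = 0) →
        logHeight (fun J : Fin (n + 1) → Fin m => (A.submatrix J id).det) -
            (n + 1) * logHeight x +
            ∑ i, (dF i * logHeight x - logHeight fun j => aeval x (F i j)) ≤
          cnt T ρ + cnt T τ + ε * logHeight x + C := by
  classical
  obtain ⟨Φ, eΦ, hΦ0, hΦh, hΦd⟩ := exists_forms K (n + 1)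
  by_contra hcon
  push Not at hcon
  -- the sequence
  have hex := fun t : ℕ => hcon (Φ t) (eΦ t) (1 / ((t : ℝ) + 1)) t (hΦ0 t) (hΦh t)
    (by positivity)
  choose x ρ τ A hx0 hxG hxΦ hxF hρ0 hτ0 hρT hτT hsx hsρ hd hA1 hA2 hbig using hex
  -- the points are generic
  have hgen : ∀ P : MvPolynomial (Fin (n + 1)) K, P ≠ 0 → ∃ d, ∀ᶠ t in (atTop : Filter ℕ),
      aeval (fun a => x t (J0 a)) (MvPolynomial.homogeneousComponent d P) ≠ 0 := by
    intro P hP
    obtain ⟨d, hd⟩ := hΦd P hP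
    refine ⟨d, ?_⟩
    filter_upwards [hd] with t ht h0
    obtain ⟨Q, hQ⟩ := ht
    apply hxΦ t
    rw [hQ, map_mul, h0, zero_mul]
  have hgen1 : ∀ (P : MvPolynomial (Fin (n + 1)) K) (d : ℕ), P.IsHomogeneous d → P ≠ 0 →
      ∀ᶠ t in (atTop : Filter ℕ), aeval (fun a => x t (J0 a)) P ≠ 0 := by
    intro P d hPd hP
    obtain ⟨d', hd'⟩ := hgen P hP
    have h1 := MvPolynomial.homogeneousComponent_of_mem (m := d')
      ((MvPolynomial.mem_homogeneousSubmodule d P).2 hPd)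
    filter_upwards [hd'] with t ht h0
    apply ht
    rw [h1]
    split_ifs
    · exact h0
    · exact map_zero _
  -- the heights tend to infinity
  have hlim : Tendsto (fun t => logHeight (x t)) atTop atTop := by
    rw [tendsto_atTop]
    intro C0
    have hfin := NumberField.finite_setOfPred_logHeight₁_le K C0
    have i1 : Fin (n + 1) := ⟨1, by omega⟩
    have h0 := hgen1 (MvPolynomial.X 0) 1 (MvPolynomial.isHomogeneous_X _ _)
      (MvPolynomial.X_ne_zero 0)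
    have h01 : (⟨1, by omega⟩ : Fin (n + 1)) ≠ 0 := by
      intro h
      have := congrArg Fin.val h
      simp at this
    have h1 : ∀ z : K, ∀ᶠ t in (atTop : Filter ℕ), x t (J0 ⟨1, by omega⟩) - z * x t (J0 0) ≠ 0 := by
      intro z
      have h2 := hgen1 (MvPolynomial.X ⟨1, by omega⟩ - MvPolynomial.C z * MvPolynomial.X 0) 1
        ((MvPolynomial.isHomogeneous_X _ _).sub
          ((MvPolynomial.isHomogeneous_C_mul_X z 0))) (by
          intro h
          have h3 := congrArg (MvPolynomial.coeff (Finsupp.single (⟨1, by omega⟩ : Fin (n + 1)) 1)) h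
          rw [MvPolynomial.coeff_sub, MvPolynomial.coeff_C_mul, MvPolynomial.coeff_X,
            MvPolynomial.coeff_X, if_pos rfl, if_neg, mul_zero, sub_zero,
            MvPolynomial.coeff_zero] at h3
          · exact one_ne_zero h3
          · intro h4
            have := Finsupp.single_left_injective one_ne_zero h4
            exact h01 this.symm)
      filter_upwards [h2] with t ht
      rwa [map_sub, map_mul, MvPolynomial.aeval_X, MvPolynomial.aeval_X,
        MvPolynomial.aeval_C] at ht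
    have h2 : ∀ᶠ t in (atTop : Filter ℕ), ∀ z ∈ {z : K | logHeight₁ z ≤ C0},
        x t (J0 ⟨1, by omega⟩) - z * x t (J0 0) ≠ 0 := by
      rw [Filter.eventually_all_finite hfin]
      exact fun z _ => h1 z
    filter_upwards [h0, h2] with t t0 t2
    rw [MvPolynomial.aeval_X] at t0
    by_contra hlt
    push Not at hlt
    have h3 := logHeight₁_div_le (x t) (J0 ⟨1, by omega⟩) (J0 0)
    apply t2 (x t (J0 ⟨1, by omega⟩) / x t (J0 0)) (h3.trans hlt.le)
    rw [div_mul_cancel₀ _ t0, sub_self]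
  let σ : Sc := ⟨hyperfilter ℕ, _, hlim.mono_left Nat.hyperfilter_le_atTop⟩
  have hσL : ∀ t, σ.L t = logHeight (x t) := fun t => rfl
  have h𝒰 : (σ.𝒰 : Filter ℕ) ≤ atTop := Nat.hyperfilter_le_atTop
  -- the places
  obtain ⟨S0, hS0, hSΓ0, -⟩ := exists_places (RingHom.id K) Γ hΓ ∅
  obtain ⟨S, hSdef⟩ : ∃ S : Finset (Pl K), S = S0 ∪
    hT.toFinset.map ⟨Sum.inr, Sum.inr_injective⟩ := ⟨_, rfl⟩
  have hS00 : S0 ⊆ S := by
    rw [hSdef]
    exact Finset.subset_union_left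
  have hTS : ∀ v ∈ T, Sum.inr v ∈ S := by
    intro v hv
    rw [hSdef]
    refine Finset.mem_union_right _ (Finset.mem_map.2 ⟨v, ?_, rfl⟩)
    rwa [Set.Finite.mem_toFinset]
  have hS : ∀ w : InfinitePlace K, Sum.inl w ∈ S := fun w => hS00 (hS0 w)
  have hSΓ : ∀ γ ∈ Γ, IsSU S (γ : K) := fun γ hγ =>
    ⟨(hSΓ0 γ hγ).1, fun v hv => (hSΓ0 γ hγ).2 v fun h => hv (hS00 h)⟩
  have hn1 : ∀ t, 1 ≤ mulHeight (x t) := fun t => one_le_mulHeight _
  have hσL' : ∀ t, σ.L t = Real.log (mulHeight (x t)) := fun t => rfl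
  -- the heights of the tangent spaces
  obtain ⟨μ, c, γ, hμ, hxc, hcF, hγS, hγB⟩ := proj_rep h𝒰 hS Γ hSΓ r B
    (fun t => mulHeight (x t)) hn1 hσL' x hx0 hsx ⟨1, Eventually.of_forall fun t => by
      rw [one_mul, hσL]⟩
  have hbound : ∃ C1 : ℝ, ∀ᶠ t in (σ.𝒰 : Filter ℕ),
      logHeight (fun J : Fin (n + 1) → Fin m => ((A t).submatrix J id).det) ≤ C1 * σ.L t := by
    obtain ⟨r1, u1, hu1, hrep1⟩ := exists_rep (S := S) γ hγS hγB
    obtain ⟨X1, Λ1, -, -, hΛ1⟩ := germ_point hu1 hS μ hμ x hx0 fun i =>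
      exists_poly hu1 _ (c i) γ (hxc i) (hcF i) hrep1
    obtain ⟨D1, -, hdet1⟩ := exists_jac (fun a => X1 (J0 a))
      (gen_of_seq hu1 h𝒰 X1 J0 Λ1 x hΛ1 hgen)
    have hJ1 : ((jm D1 X1).submatrix id J0).det ≠ 0 := by
      intro h
      apply hdet1
      rw [← h]
      congr 1
      ext a j
      refine Fin.cases ?_ (fun a => ?_) a
      · rfl
      · rfl
    have hG1 : ∀ i, aeval X1 (Gs i) = 0 := fun i =>
      zero_of_seq hu1 hS X1 Λ1 x hΛ1 (Gs i) (hGh i) fun t => hxG t i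
    have h1 := minors_height hu1 hS Gs F hGF hm dG hGh X1 Λ1 x hx0 hxG hΛ1 hG1 D1 J0 hJ1 A hA1 hA2
    have h2 : ∀ J : Fin (n + 1) → Fin m, ∃ C : ℝ, ∀ᶠ t in (σ.𝒰 : Filter ℕ),
        logHeight₁ (rep (ev u1 ((jm D1 X1).submatrix id J).det) t) ≤ C * σ.L t := fun J =>
      (mem_BB _).1 (ev_BB hu1 _)
    choose C2 hC2 using h2
    refine ⟨∑ J, C2 J, ?_⟩
    filter_upwards [h1, Filter.eventually_all.2 hC2] with t t1 t2
    rw [← t1, Finset.sum_mul]
    exact (logHeight_le_sum _).trans (Finset.sum_le_sum fun J _ => t2 J)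
  obtain ⟨C1, hC1⟩ := hbound
  have hNτ : ∀ t, 0 ≤ cnt T (τ t) := fun t => cnt_nonneg T _ (hτT t)
  have hcρ : ∀ᶠ t in (σ.𝒰 : Filter ℕ), cnt T (ρ t) ≤ (C1 + ∑ i, (dF i : ℝ)) * σ.L t := by
    filter_upwards [hC1] with t t1
    have h1 := hbig t
    have h2 : ∑ i, (dF i * logHeight (x t) - logHeight fun j => aeval (x t) (F i j)) ≤
        (∑ i, (dF i : ℝ)) * logHeight (x t) := by
      rw [Finset.sum_mul]
      refine Finset.sum_le_sum fun i _ => ?_
      have := logHeight_nonneg (fun j => aeval (x t) (F i j))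
      linarith
    have h3 := logHeight_nonneg (x t)
    have h4 : 0 ≤ ε * logHeight (x t) := mul_nonneg hε.le h3
    have h5 : (0 : ℝ) ≤ (n + 1) * logHeight (x t) := mul_nonneg (by positivity) h3
    have h6 := hNτ t
    have h7 : (0 : ℝ) ≤ t := Nat.cast_nonneg t
    rw [hσL] at t1 ⊢
    rw [add_mul]
    linarith
  have hhoρ : ∀ t, ∑ v ∈ S, wt v * Real.log (av v (ρ t)) ≤ cnt T (ρ t) := by
    intro t
    rw [prod_formula S hS _ (hρ0 t)]
    exact ho_le_cnt S T hTS _ (hρ0 t) (hρT t)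
  have hhoτ : ∀ t, ∑ v ∈ S, wt v * Real.log (av v (τ t)) ≤ cnt T (τ t) := by
    intro t
    rw [prod_formula S hS _ (hτ0 t)]
    exact ho_le_cnt S T hTS _ (hτ0 t) (hτT t)
  -- polynomials
  obtain ⟨μ', c', γ', hμ', hρc, hcF', hγS', hγB'⟩ := unit_rep h𝒰 hS Γ hSΓ r B
    (fun t => mulHeight (x t)) hn1 hσL' ρ hρ0 hsρ ⟨C1 + ∑ i, (dF i : ℝ), by
      filter_upwards [hcρ] with t t1
      exact (hhoρ t).trans t1⟩
  obtain ⟨r', u, hu, hrep⟩ := exists_rep (S := S) (Sum.elim γ γ')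
    (by rintro (j | j); exacts [hγS j, hγS' j])
    (by rintro (j | j); exacts [hγB j, hγB' j])
  obtain ⟨X, Λ, ⟨i1, hi1⟩, hcop, hΛ⟩ := germ_point hu hS μ hμ x hx0 fun i =>
    exists_poly hu _ (c i) γ (hxc i) (hcF i) fun j => hrep (Sum.inl j)
  obtain ⟨R, e', hR⟩ := exists_poly hu _ c' γ' hρc hcF' fun j => hrep (Sum.inr j)
  obtain ⟨P, hP⟩ : ∃ P : G K σ, P = gm σ fun t => μ' t * ρ t := ⟨_, rfl⟩
  obtain ⟨Q, hQ⟩ : ∃ Q : G K σ, Q = gm σ fun t => τ t := ⟨_, rfl⟩
  rw [← hP] at hR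
  have hP0 : P ≠ 0 := by
    rw [hP, gm_ne]
    exact Eventually.of_forall fun t => mul_ne_zero (hμ' t).1 (hρ0 t)
  have hQ0 : Q ≠ 0 := by
    rw [hQ, gm_ne]
    exact Eventually.of_forall fun t => hτ0 t
  have hrP := rep_eq P _ hP
  have hrQ := rep_eq Q _ hQ
  have hR0 : R ≠ 0 := by
    rintro rfl
    rw [map_zero] at hR
    exact mul_ne_zero hP0 (mon_ne hu _) hR.symm
  have hG : ∀ i, aeval X (Gs i) = 0 := fun i =>
    zero_of_seq hu hS X Λ x hΛ (Gs i) (hGh i) fun t => hxG t i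
  have hFne : ∀ i, ∃ j, aeval X (F i j) ≠ 0 := fun i =>
    ne_of_seq hu X Λ x hΛ (F i) (hFh i) fun t => hxF t i
  have hFr : ∀ᶠ t in (σ.𝒰 : Filter ℕ), ∀ i, ∀ j, rep (ev u (aeval X (F i j))) t =
      Λ t ^ dF i * aeval (x t) (F i j) := by
    rw [Filter.eventually_all]
    intro i
    rw [Filter.eventually_all]
    intro j
    exact rep_form u X Λ x hΛ (F i j) (hFh i j)
  obtain ⟨D, A1, C2, hJ0, hAR, hA10, hC20, hCs, hmain⟩ := var_core hu Gs F hGF hm dG hGh dF hFh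
    hS X i1 hi1 hG hcop J0 (gen_of_seq hu h𝒰 X J0 Λ x hΛ hgen) hFne R hR0 Q hQ0 (M + 1)
    (Nat.succ_ne_zero M) (by
      filter_upwards [hFr, fv_mon hu _ _ _ hR, hrP, hrQ, hΛ] with t t1 t2 t3 t4 t5 v hv
      have hvT : v ∉ T := fun h => hv (hTS v h)
      have hμv : fv v (μ' t) = 1 := (hμ' t).2 v hv
      rw [t2 v hv, t3, t4, map_mul, hμv, one_mul]
      refine ⟨hτT t v hvT, ?_⟩
      have e1 : (fun j => rep (ev u (X j)) t) = fun j => Λ t * x t j := funext fun j => t5.2 j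
      have e2 : ∀ i, (fun j => rep (ev u (aeval X (F i j))) t) =
          fun j => Λ t ^ dF i * aeval (x t) (F i j) := fun i => funext fun j => t1 i j
      rw [e1]
      simp only [e2]
      exact local_cond (fv v) (x t) (hx0 t) (ρ t) (τ t) (Λ t) (hρ0 t) (hτ0 t) t5.1
        (hρT t v hvT) (fun i j => aeval (x t) (F i j)) (hxF t) dF M (hd t v hvT))
  have hAs := hs_dvd hu hS A1 R hAR hR0
  have hmin := minors_height hu hS Gs F hGF hm dG hGh X Λ x hx0 hxG hΛ hG D J0 hJ0 A hA1 hA2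
  have hall := (hmain.add hCs).add hAs
  obtain ⟨t, ⟨⟨⟨⟨⟨⟨⟨⟨⟨t1, t2⟩, t3⟩, t4⟩, t5⟩, t6⟩, t7⟩, t8⟩, t9⟩, t10⟩, t11⟩ :=
    (((((((((((hall (ε / 2) (by positivity)).and
    (L_pos (σ := σ))).and (hs_ho (S := S) hS P hP0)).and
    (hs_ho (S := S) hS Q hQ0)).and hmin).and hrP).and hrQ).and
    (hs_mul (S := S) P (mon u e') hP0 (mon_ne hu _))).and (hs_mon hu hS e')).and hFr).and
      hΛ).exists
  simp only at t1
  rw [← hR, t9, add_zero] at t8
  rw [t6] at t3
  rw [t7] at t4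
  have e1 : (fun j => rep (ev u (X j)) t) = fun j => Λ t * x t j := funext fun j => t11.2 j
  have e2 : ∀ i, (fun j => rep (ev u (aeval X (F i j))) t) =
      fun j => Λ t ^ dF i * aeval (x t) (F i j) := fun i => funext fun j => t10 i j
  have e3 : logHeight (fun j => Λ t * x t j) = logHeight (x t) :=
    logHeight_smul_eq_logHeight (x t) t11.1
  have e4 : ∀ i, logHeight (fun j => Λ t ^ dF i * aeval (x t) (F i j)) =
      logHeight fun j => aeval (x t) (F i j) := fun i =>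
    logHeight_smul_eq_logHeight (fun j => aeval (x t) (F i j)) (pow_ne_zero _ t11.1)
  rw [e1, e3, t5, t8] at t1
  simp only [e2, e4] at t1
  have h1 := hbig t
  rw [hσL] at t1 t2
  have h2 : hs S P t ≤ cnt T (ρ t) := by
    rw [t3, ← prod_formula S hS _ (mul_ne_zero (hμ' t).1 (hρ0 t))]
    refine le_trans (le_of_eq ?_) (hhoρ t)
    have h3 : ∀ v ∈ S, wt v * Real.log (av v (μ' t * ρ t)) =
        wt v * Real.log (av v (μ' t)) + wt v * Real.log (av v (ρ t)) := by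
      intro v _
      rw [map_mul, Real.log_mul ((av v).ne_zero_iff.2 (hμ' t).1)
        ((av v).ne_zero_iff.2 (hρ0 t)), mul_add]
    rw [Finset.sum_congr rfl h3, Finset.sum_add_distrib, (hμ' t).prod_formula hS, zero_add]
  have h3 : hs S Q t ≤ cnt T (τ t) := by
    rw [t4, ← prod_formula S hS _ (hτ0 t)]
    exact hhoτ t
  have h4 : (0 : ℝ) ≤ t := Nat.cast_nonneg t
  have h5 : ∑ i, (dF i * logHeight (x t) - logHeight fun j => aeval (x t) (F i j)) =
      (∑ i, dF i : ℕ) * logHeight (x t) - ∑ i, logHeight fun j => aeval (x t) (F i j) := by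
    rw [Finset.sum_sub_distrib, ← Finset.sum_mul]
    push_cast
    rfl
  rw [h5] at h1
  have h6 : 0 < ε * logHeight (x t) := mul_pos hε t2
  linarith

end Pool.Agent.Run7.h720
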