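import Pool.Agent.Run7.h720.NPoint
import Pool.Agent.Run7.h720.VMain

/-!
The n-term abc inequality for short points over number fields, without exceptional set.
-/

set_option autoImplicit false
set_option linter.unusedSectionVars false

namespace Pool.Agent.Run7.h720

open NumberField IsDedekindDomain Height Filter Topology
open Pool.Agent.W180.OP (Pl av wt fv fv_support_finite wt_nonneg nrm)
open Pool.Agent.K1H83.VN
open MvPolynomial (aeval pderiv monomial)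

/-- sums of coordinates of a germ of points -/
theorem rep_sumX {k : Type} [Field k] [NumberField k] {σ : Sc} {r n : ℕ} (u : Fin r → G k σ)
    (X : Fin n → MvPolynomial (Fin r) (FF k σ)) (Λ : ℕ → k) (x : ℕ → Fin n → k)
    (hΛ : ∀ᶠ t in (σ.𝒰 : Filter ℕ), Λ t ≠ 0 ∧ ∀ i, rep (ev u (X i)) t = Λ t * x t i)
    (U : Finset (Fin n)) :
    ∀ᶠ t in (σ.𝒰 : Filter ℕ), rep (ev u (∑ i ∈ U, X i)) t = Λ t * ∑ i ∈ U, x t i := by
  rw [map_sum]
  filter_upwards [rep_sum U fun i => ev u (X i), hΛ] with t t1 t2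
  rw [t1, Finset.mul_sum]
  exact Finset.sum_congr rfl fun i _ => t2.2 i

/-- **The n-term abc inequality for short points over number fields.** -/
theorem nterm_nf (K : Type) [Field K] [NumberField K] (Γ : Subgroup Kˣ) (hΓ : Γ.FG)
    (T : Set (HeightOneSpectrum (𝓞 K))) (hT : T.Finite) (n r M : ℕ) (hn : 3 ≤ n) (B ε : ℝ)
    (hε : 0 < ε) :
    ∃ δ C : ℝ, 0 < δ ∧ ∀ (x : Fin n → K) (ρ τ : K), ∑ i, x i = 0 →
      (∀ U : Finset (Fin n), U.Nonempty → U ≠ Finset.univ → ∑ i ∈ U, x i ≠ 0) →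
      ρ ≠ 0 → τ ≠ 0 → (∀ v ∉ T, fv v ρ ≤ 1) → (∀ v ∉ T, fv v τ ≤ 1) →
      PShort Γ r (B * mulHeight x ^ δ) x → Short Γ r (B * mulHeight x ^ δ) ρ →
      (∀ v ∉ T, ∑ i, Real.log (nm (fv v) x / fv v (x i)) ≤
        -(M * Real.log (fv v ρ) + Real.log (fv v τ))) →
      logHeight x ≤ (((n - 1) * (n - 2) / 2 : ℕ) + ε) * (cnt T ρ + cnt T τ) + C := by
  classical
  obtain ⟨E, hE⟩ : ∃ E, E = (n - 1) * (n - 2) / 2 := ⟨_, rfl⟩
  have hE1 : 1 ≤ E := by
    rw [hE, Nat.one_le_div_iff (by norm_num)]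
    calc 2 = 2 * 1 := rfl
      _ ≤ (n - 1) * (n - 2) := Nat.mul_le_mul (by omega) (by omega)
  rw [← hE]
  have hE1' : (1 : ℝ) ≤ E := by exact_mod_cast hE1
  by_contra hcon
  push Not at hcon
  -- the sequence
  have hex := fun t : ℕ => hcon (1 / ((t : ℝ) + 1)) t (by positivity)
  choose x ρ τ hsum hns hρ0 hτ0 hρT hτT hsx hsρ hd hbig using hex
  have hxi : ∀ t i, x t i ≠ 0 := by
    intro t i
    have h1 := hns t {i} (Finset.singleton_nonempty i) (by
      intro h2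
      have h3 := congrArg Finset.card h2
      rw [Finset.card_singleton, Finset.card_fin] at h3
      omega)
    rwa [Finset.sum_singleton] at h1
  have i0 : Fin n := ⟨0, by omega⟩
  have hx0 : ∀ t, x t ≠ 0 := fun t => ne_of_coord (hxi t i0)
  have hNρ : ∀ t, 0 ≤ cnt T (ρ t) := fun t => cnt_nonneg T _ (hρT t)
  have hNτ : ∀ t, 0 ≤ cnt T (τ t) := fun t => cnt_nonneg T _ (hτT t)
  have hht : ∀ t : ℕ, (t : ℝ) ≤ logHeight (x t) := by
    intro t
    have h1 := hbig t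
    have h2 : 0 ≤ ((E : ℝ) + ε) * (cnt T (ρ t) + cnt T (τ t)) :=
      mul_nonneg (by linarith) (add_nonneg (hNρ t) (hNτ t))
    linarith
  have hlim : Tendsto (fun t => logHeight (x t)) atTop atTop :=
    tendsto_atTop_mono hht tendsto_natCast_atTop_atTop
  let σ : Sc := ⟨hyperfilter ℕ, _, hlim.mono_left Nat.hyperfilter_le_atTop⟩
  have hσL : ∀ t, σ.L t = logHeight (x t) := fun t => rfl
  have h𝒰 : (σ.𝒰 : Filter ℕ) ≤ atTop := Nat.hyperfilter_le_atTop
  -- the places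
  obtain ⟨S0, hS0, hSΓ0, -⟩ := exists_places (RingHom.id K) Γ hΓ ∅
  obtain ⟨S, hSdef⟩ : ∃ S : Finset (Pl K), S = S0 ∪
    hT.toFinset.map ⟨Sum.inr, Sum.inr_injective⟩ := ⟨_, rfl⟩
  have hS00 : S0 ⊆ S := by
    rw [hSdef]
    exact Finset.subset_union_left
  have hTS : ∀ v ∈ T, Sum.inr v ∈ S := by
    intro v hv
    rw [hSdef]
    refine Finset.mem_union_right _ (Finset.mem_map.2 ⟨v, ?_, rfl⟩)
    rwa [Set.Finite.mem_toFinset]
  have hS : ∀ w : InfinitePlace K, Sum.inl w ∈ S := fun w => hS00 (hS0 w)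
  have hSΓ : ∀ γ ∈ Γ, IsSU S (γ : K) := fun γ hγ =>
    ⟨(hSΓ0 γ hγ).1, fun v hv => (hSΓ0 γ hγ).2 v fun h => hv (hS00 h)⟩
  have hn1 : ∀ t, 1 ≤ mulHeight (x t) := fun t => one_le_mulHeight _
  have hσL' : ∀ t, σ.L t = Real.log (mulHeight (x t)) := fun t => rfl
  have hcρ : ∀ t, cnt T (ρ t) ≤ σ.L t := by
    intro t
    have h1 := hbig t
    have h2 := hNρ t
    have h3 := hNτ t
    have h4 : (0 : ℝ) ≤ t := Nat.cast_nonneg t
    rw [hσL]
    nlinarith
  have hhoρ : ∀ t, ∑ v ∈ S, wt v * Real.log (av v (ρ t)) ≤ cnt T (ρ t) := by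
    intro t
    rw [prod_formula S hS _ (hρ0 t)]
    exact ho_le_cnt S T hTS _ (hρ0 t) (hρT t)
  have hhoτ : ∀ t, ∑ v ∈ S, wt v * Real.log (av v (τ t)) ≤ cnt T (τ t) := by
    intro t
    rw [prod_formula S hS _ (hτ0 t)]
    exact ho_le_cnt S T hTS _ (hτ0 t) (hτT t)
  -- polynomials
  obtain ⟨μ, c, γ, hμ, hxc, hcF, hγS, hγB⟩ := proj_rep h𝒰 hS Γ hSΓ r B
    (fun t => mulHeight (x t)) hn1 hσL' x hx0 hsx ⟨1, Eventually.of_forall fun t => by
      rw [one_mul, hσL]⟩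
  obtain ⟨μ', c', γ', hμ', hρc, hcF', hγS', hγB'⟩ := unit_rep h𝒰 hS Γ hSΓ r B
    (fun t => mulHeight (x t)) hn1 hσL' ρ hρ0 hsρ ⟨1, Eventually.of_forall fun t => by
      rw [one_mul]
      exact (hhoρ t).trans (hcρ t)⟩
  obtain ⟨r', u, hu, hrep⟩ := exists_rep (S := S) (Sum.elim γ γ')
    (by rintro (j | j); exacts [hγS j, hγS' j])
    (by rintro (j | j); exacts [hγB j, hγB' j])
  obtain ⟨X, Λ, ⟨i1, hi1⟩, hcop, hΛ⟩ := germ_point hu hS μ hμ x hx0 fun i =>
    exists_poly hu _ (c i) γ (hxc i) (hcF i) fun j => hrep (Sum.inl j)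
  obtain ⟨R, e', hR⟩ := exists_poly hu _ c' γ' hρc hcF' fun j => hrep (Sum.inr j)
  obtain ⟨P, hP⟩ : ∃ P : G K σ, P = gm σ fun t => μ' t * ρ t := ⟨_, rfl⟩
  obtain ⟨Q, hQ⟩ : ∃ Q : G K σ, Q = gm σ fun t => τ t := ⟨_, rfl⟩
  rw [← hP] at hR
  have hP0 : P ≠ 0 := by
    rw [hP, gm_ne]
    exact Eventually.of_forall fun t => mul_ne_zero (hμ' t).1 (hρ0 t)
  have hQ0 : Q ≠ 0 := by
    rw [hQ, gm_ne]
    exact Eventually.of_forall fun t => hτ0 t
  have hrP := rep_eq P _ hP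
  have hrQ := rep_eq Q _ hQ
  have hR0 : R ≠ 0 := by
    rintro rfl
    rw [map_zero] at hR
    exact mul_ne_zero hP0 (mon_ne hu _) hR.symm
  have hUne : ∀ U : Finset (Fin n), (∀ t, ∑ i ∈ U, x t i ≠ 0) → ∑ i ∈ U, X i ≠ 0 := by
    intro U hU h
    obtain ⟨t, ⟨t1, t2⟩, t3⟩ := (((rep_sumX u X Λ x hΛ U).and hΛ).and
      (rep_zero (k := K) (σ := σ))).exists
    rw [h, map_zero, t3] at t1
    exact mul_ne_zero t2.1 (hU t) t1.symm
  have hX0 : ∀ i, X i ≠ 0 := by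
    intro i
    have h1 := hUne {i} (fun t => by
      rw [Finset.sum_singleton]
      exact hxi t i)
    rwa [Finset.sum_singleton] at h1
  have hXs : ∑ i, X i = 0 := by
    by_contra h
    obtain ⟨t, t1, t2⟩ := ((rep_sumX u X Λ x hΛ Finset.univ).and
      (rep_ne _ (ev_ne hu hS _ h))).exists
    rw [t1, hsum t, mul_zero] at t2
    exact t2 rfl
  have hmain := chain_stepZ hu hS (by omega) X hX0 hXs (fun U hU hUn =>
      hUne U fun t => hns t U hU hUn) R hR0 Q hQ0 X i1 hi1 (tuple_small hu hS X i1 hi1 hcop)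
    (fun i : Empty => (i.elim : MvPolynomial (Fin r') (FF K σ))) (M + 1) n 0
    (Nat.succ_ne_zero M) (by
      filter_upwards [fv_mon hu _ _ _ hR, hrP, hrQ, hΛ] with t t2 t3 t4 t5 v hv
      have hvT : v ∉ T := fun h => hv (hTS v h)
      have hμv : fv v (μ' t) = 1 := (hμ' t).2 v hv
      rw [t2 v hv, t3, t4, map_mul, hμv, one_mul, pow_zero, mul_one]
      refine ⟨hτT t v hvT, ?_⟩
      have h1 := local_cond (fv v) (x t) (hx0 t) (ρ t) (τ t) (Λ t) (hρ0 t) (hτ0 t) t5.1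
        (hρT t v hvT) (fun i (_ : Fin 1) => x t i) (fun i => ⟨0, hxi t i⟩) (fun _ => 1) M (by
          refine le_trans (le_of_eq ?_) (hd t v hvT)
          refine Finset.sum_congr rfl fun i _ => ?_
          rw [pow_one]
          congr 2
          exact le_antisymm (nm_le _ ((fv v).nonneg _) fun _ => le_rfl)
            (le_nm (fv v) (fun _ : Fin 1 => x t i) 0))
      rw [Finset.sum_const, Finset.card_fin, smul_eq_mul, mul_one] at h1
      have e1 : (fun j => rep (ev u (X j)) t) = fun j => Λ t * x t j := funext fun j => t5.2 j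
      rw [e1]
      refine h1.trans (le_of_eq ?_)
      refine Finset.prod_congr rfl fun i _ => ?_
      rw [t5.2 i, pow_one]
      exact le_antisymm (nm_le _ ((fv v).nonneg _) fun _ => le_rfl)
        (le_nm (fv v) (fun _ : Fin 1 => Λ t * x t i) 0))
  rw [← hE] at hmain
  have hEε : (0 : ℝ) < E + ε := by linarith
  obtain ⟨t, ⟨⟨⟨⟨⟨⟨⟨t1, t2⟩, t3⟩, t4⟩, t6⟩, t7⟩, t8⟩, t9⟩, t11⟩ :=
    (((((((((hmain (ε / (2 * (E + ε))) (by positivity)).and
    (L_pos (σ := σ))).and (hs_ho (S := S) hS P hP0)).and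
    (hs_ho (S := S) hS Q hQ0)).and hrP).and hrQ).and
    (hs_mul (S := S) P (mon u e') hP0 (mon_ne hu _))).and (hs_mon hu hS e')).and
      hΛ).exists
  simp only at t1
  rw [← hR, t9, add_zero] at t8
  rw [t6] at t3
  rw [t7] at t4
  have e1 : (fun j => rep (ev u (X j)) t) = fun j => Λ t * x t j := funext fun j => t11.2 j
  have e3 : logHeight (fun j => Λ t * x t j) = logHeight (x t) :=
    logHeight_smul_eq_logHeight (x t) t11.1
  rw [e1, e3, t8] at t1
  have h1 := hbig t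
  rw [hσL] at t1 t2
  have h2 : hs S P t ≤ cnt T (ρ t) := by
    rw [t3, ← prod_formula S hS _ (mul_ne_zero (hμ' t).1 (hρ0 t))]
    refine le_trans (le_of_eq ?_) (hhoρ t)
    have h3 : ∀ v ∈ S, wt v * Real.log (av v (μ' t * ρ t)) =
        wt v * Real.log (av v (μ' t)) + wt v * Real.log (av v (ρ t)) := by
      intro v _
      rw [map_mul, Real.log_mul ((av v).ne_zero_iff.2 (hμ' t).1)
        ((av v).ne_zero_iff.2 (hρ0 t)), mul_add]
    rw [Finset.sum_congr rfl h3, Finset.sum_add_distrib, (hμ' t).prod_formula hS, zero_add]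
  have h3 : hs S Q t ≤ cnt T (τ t) := by
    rw [t4, ← prod_formula S hS _ (hτ0 t)]
    exact hhoτ t
  have h4 : (0 : ℝ) ≤ t := Nat.cast_nonneg t
  obtain ⟨N, hN⟩ : ∃ N, N = cnt T (ρ t) + cnt T (τ t) := ⟨_, rfl⟩
  rw [← hN] at h1
  have h5 : (E : ℝ) * (hs S P t + hs S Q t) ≤ E * N := by
    rw [hN]
    exact mul_le_mul_of_nonneg_left (add_le_add h2 h3) (by linarith)
  have h6 : N ≤ logHeight (x t) / (E + ε) := by
    rw [le_div_iff₀ hEε]
    linarith
  have h7 : (E : ℝ) * N ≤ E * (logHeight (x t) / (E + ε)) :=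
    mul_le_mul_of_nonneg_left h6 (by linarith)
  have h8 : logHeight (x t) - (E : ℝ) * (logHeight (x t) / (E + ε)) =
      ε / (E + ε) * logHeight (x t) := by
    field_simp
    ring
  have h9 : ε / (2 * (E + ε)) * logHeight (x t) = (ε / (E + ε) * logHeight (x t)) / 2 := by
    field_simp
  have h10 : 0 < ε / (E + ε) * logHeight (x t) := by positivity
  linarith

end Pool.Agent.Run7.h720
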