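import Pool.Agent.Run7.h720.NCore
import Pool.Agent.Run7.h720.WRes

/-!
The n-term abc inequality for sparse integers.
-/

set_option autoImplicit false
set_option linter.unusedSectionVars false

namespace Pool.Agent.Run7.h720

open NumberField IsDedekindDomain Height Filter Topology
open Pool.Agent.W180.OP (Pl av wt fv fv_support_finite wt_nonneg nrm)
open Pool.Agent.K1H83.VN
open MvPolynomial (monomial)

section heights
variable {K : Type} [Field K] [NumberField K]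

/-- comparison of heights -/
theorem height_le_of_nm {ι κ : Type} [Finite ι] [Finite κ] (a : ι → K) (ha : a ≠ 0) (b : κ → K)
    (hb : b ≠ 0) (h1 : ∀ w : InfinitePlace K, nm w.1 a ≤ nm w.1 b)
    (h2 : ∀ v : HeightOneSpectrum (𝓞 K), nm (fv v) a ≤ nm (fv v) b) :
    logHeight a ≤ logHeight b := by
  obtain ⟨S, hS, -, -⟩ := exists_places (RingHom.id K) (⊥ : Subgroup Kˣ) (by
    exact ⟨∅, by simp⟩) ∅
  rw [logHeight_split S hS a ha, logHeight_split S hS b hb]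
  refine add_le_add (Finset.sum_le_sum fun v _ => ?_) ?_
  · refine mul_le_mul_of_nonneg_left (Real.log_le_log (nm_pos _ ha) ?_) (wt_nonneg v)
    rcases v with w | v
    · exact h1 w
    · exact h2 v
  · exact ho_le S a ha b hb fun v _ => h2 v

theorem inf_int (w : InfinitePlace K) (a : ℤ) : w.1 (a : K) = |(a : ℝ)| := by
  have h1 : w.1 (a : K) = ‖w.embedding (a : K)‖ := (w.norm_embedding_eq (a : K)).symm
  rw [h1, map_intCast, Complex.norm_intCast]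

/-- tuples of integers without common factor -/
theorem nm_gcd {ι : Type} [Fintype ι] (x : ι → ℤ) (h : ∃ a : ι → ℤ, ∑ i, a i * x i = 1)
    (v : HeightOneSpectrum (𝓞 K)) : 1 ≤ nm (fv v) fun i => (x i : K) := by
  obtain ⟨a, ha⟩ := h
  have h1 : (1 : K) = ∑ i, (a i : K) * (x i : K) := by
    have : ((∑ i, a i * x i : ℤ) : K) = 1 := by rw [ha]; simp
    rw [← this]
    push_cast
    rfl
  have h2 : fv v (1 : K) ≤ nm (fv v) fun i => (x i : K) := by
    conv_lhs => rw [h1]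
    refine na_sum (fv v) (fv_na v) _ _ _ (nm_nonneg _ _) fun i _ => ?_
    rw [map_mul]
    exact (mul_le_of_le_one_left ((fv v).nonneg _) (fv_int v _)).trans
      (le_nm (fv v) (fun i => (x i : K)) i)
  rwa [map_one] at h2

/-- the height of a tuple of integers without common factor -/
theorem height_tuple {ι : Type} [Fintype ι] (x : ι → ℤ) (h : ∃ a : ι → ℤ, ∑ i, a i * x i = 1)
    (j : ι) (hj : x j ≠ 0) :
    Module.finrank ℚ K * Real.log |(x j : ℝ)| ≤ logHeight fun i => (x i : K) := by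
  have hj' : (x j : K) ≠ 0 := by exact_mod_cast hj
  rw [← height_int (L := K) (x j) hj, ← div_one (x j : K), logHeight₁_div_eq_logHeight]
  refine height_le_of_nm _ (ne_of_coord (i := (0 : Fin 2)) hj') _ (ne_of_coord (i := j) hj')
    (fun w => ?_) fun v => ?_
  · have h1 : (1 : ℝ) ≤ w.1 (x j : K) := by
      rw [inf_int]
      exact_mod_cast Int.one_le_abs hj
    have h2 := le_nm w.1 (fun i => (x i : K)) j
    refine nm_le _ (nm_nonneg _ _) fun i => ?_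
    fin_cases i
    · exact h2
    · show w.1 1 ≤ _
      rw [map_one]
      exact h1.trans h2
  · have h1 := nm_gcd (K := K) x h v
    refine nm_le _ (nm_nonneg _ _) fun i => ?_
    fin_cases i
    · exact (fv_int v (x j)).trans h1
    · show fv v 1 ≤ _
      rw [map_one]
      exact h1

theorem gcd_bezout {ι : Type} [Fintype ι] (x : ι → ℤ) (h : Finset.univ.gcd x = 1) :
    ∃ a : ι → ℤ, ∑ i, a i * x i = 1 := by
  classical
  obtain ⟨g, hg⟩ := (IsPrincipalIdealRing.principal (Ideal.span (Set.range x)) :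
    (Ideal.span (Set.range x)).IsPrincipal)
  have h1 : ∀ i, g ∣ x i := by
    intro i
    have h2 : x i ∈ Ideal.span (Set.range x) := Ideal.subset_span ⟨i, rfl⟩
    rw [hg] at h2
    exact Ideal.mem_span_singleton.1 h2
  have h2 : g ∣ 1 := by
    rw [← h]
    exact Finset.dvd_gcd fun i _ => h1 i
  have h3 : (1 : ℤ) ∈ Ideal.span (Set.range x) := by
    rw [hg]
    exact Ideal.mem_span_singleton.2 h2
  obtain ⟨a, ha⟩ := (Submodule.mem_span_range_iff_exists_fun ℤ).1 h3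
  exact ⟨a, by simpa [smul_eq_mul] using ha⟩

end heights

/-- the polynomials which represent sparse integers -/
theorem int_rep {K : Type} [Field K] [NumberField K] (Γ : Subgroup Kˣ) (hΓ : Γ.FG) (r n : ℕ)
    (B : ℝ) {σ : Sc} (h𝒰 : (σ.𝒰 : Filter ℕ) ≤ atTop) (H : ℕ → ℝ) (hH1 : ∀ t, 1 ≤ H t)
    (hσL : ∀ t, σ.L t = Real.log (H t)) (x : ℕ → Fin n → ℤ) (hx0 : ∀ t i, x t i ≠ 0)
    (hxH : ∀ t i, |(x t i : ℝ)| ≤ H t)
    (hsx : ∀ t i, Short Γ r (B * H t ^ (1 / ((t : ℝ) + 1))) ((x t i : ℤ) : K))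
    (ρ : ℕ → ℤ) (hρ0 : ∀ t, ρ t ≠ 0) (hρH : ∀ t, Real.log |(ρ t : ℝ)| ≤ σ.L t)
    (hsρ : ∀ t, Short Γ r (B * H t ^ (1 / ((t : ℝ) + 1))) ((ρ t : ℤ) : K)) :
    ∃ (S : Finset (Pl K)) (r' : ℕ) (u : Fin r' → G K σ)
      (X : Fin n → MvPolynomial (Fin r') (FF K σ)) (R : MvPolynomial (Fin r') (FF K σ))
      (e e' : Fin r' →₀ ℕ), (∀ w : InfinitePlace K, Sum.inl w ∈ S) ∧ Indep S u ∧
      (∀ i, ev u (X i) = gm σ (fun t => ((x t i : ℤ) : K)) * mon u e) ∧
      ev u R = gm σ (fun t => ((ρ t : ℤ) : K)) * mon u e' := by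
  classical
  obtain ⟨S, hS, hSΓ, -⟩ := exists_places (RingHom.id K) Γ hΓ ∅
  have hle : ∀ (z : ℕ → ℤ), (∀ t, z t ≠ 0) → (∀ t, Real.log |(z t : ℝ)| ≤ σ.L t) →
      ∀ t, logHeight₁ (algebraMap K K ((z t : ℤ) : K)) ≤ Module.finrank ℚ K * σ.L t := by
    intro z hz0 hz t
    rw [Algebra.algebraMap_self, RingHom.id_apply, height_int _ (hz0 t)]
    exact mul_le_mul_of_nonneg_left (hz t) (Nat.cast_nonneg _)
  have hrepx : ∀ i, ∃ c γ : Fin r → G K σ,
      gm σ (fun t => algebraMap K K ((x t i : ℤ) : K)) = ∑ j, c j * γ j ∧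
      (∀ j, c j ∈ FF K σ) ∧ (∀ j, SU S (γ j)) ∧ ∀ j, γ j ∈ BB K σ := by
    intro i
    refine short_rep (L := K) h𝒰 hS Γ hSΓ r B H hH1 hσL (fun t => ((x t i : ℤ) : K))
      (fun t => hsx t i) ⟨_, Eventually.of_forall (hle (fun t => x t i) (fun t => hx0 t i)
        fun t => ?_)⟩
    rw [hσL]
    exact Real.log_le_log (abs_pos.2 (by exact_mod_cast hx0 t i)) (hxH t i)
  choose c γ hx1 hc1 hγ1 hγB1 using hrepx
  obtain ⟨c', γ', hρ1, hc', hγ', hγB'⟩ := short_rep (L := K) h𝒰 hS Γ hSΓ r B H hH1 hσL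
    (fun t => ((ρ t : ℤ) : K)) hsρ ⟨_, Eventually.of_forall (hle ρ hρ0 hρH)⟩
  simp only [Algebra.algebraMap_self, RingHom.id_apply] at hx1 hρ1
  obtain ⟨r', u, hu, hrep⟩ := exists_rep (S := S)
    (Sum.elim (fun a : Fin n × Fin r => γ a.1 a.2) γ')
    (by rintro (j | j); exacts [hγ1 _ _, hγ' j])
    (by rintro (j | j); exacts [hγB1 _ _, hγB' j])
  obtain ⟨X, e, hX⟩ := tuple_poly u (fun i => gm σ fun t => ((x t i : ℤ) : K)) fun i =>
    exists_poly hu _ (c i) (γ i) (hx1 i) (hc1 i) fun j => hrep (Sum.inl (i, j))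
  obtain ⟨R, e', hR⟩ := exists_poly hu _ c' γ' hρ1 hc' fun j => hrep (Sum.inr j)
  exact ⟨S, r', u, X, R, e, e', hS, hu, hX, hR⟩

/-- the hypothesis on the radical, for germs -/
theorem int_div {K : Type} [Field K] [NumberField K] {σ : Sc} {S : Finset (Pl K)} {n r' : ℕ}
    {u : Fin r' → G K σ} (hu : Indep S u) (x : ℕ → Fin n → ℤ) (ρ τ : ℕ → ℤ) (m : ℕ)
    (hd : ∀ t, ∏ i, x t i ∣ ρ t ^ m * τ t)
    (X : Fin n → MvPolynomial (Fin r') (FF K σ)) (R : MvPolynomial (Fin r') (FF K σ))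
    (e e' : Fin r' →₀ ℕ) (hX : ∀ i, ev u (X i) = gm σ (fun t => ((x t i : ℤ) : K)) * mon u e)
    (hR : ev u R = gm σ (fun t => ((ρ t : ℤ) : K)) * mon u e') :
    ∀ᶠ t in (σ.𝒰 : Filter ℕ), ∀ v : HeightOneSpectrum (𝓞 K), Sum.inr v ∉ S →
      fv v (rep (gm σ fun t => ((τ t : ℤ) : K)) t) ≤ 1 ∧
      fv v (rep (ev u R) t) ^ (m + 1) * fv v (rep (gm σ fun t => ((τ t : ℤ) : K)) t) ≤
        (∏ i, fv v (rep (ev u (X i)) t)) *
          nm (fv v) (c1 fun i : Empty => rep (ev u (i.elim : MvPolynomial (Fin r') (FF K σ))) t)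
            ^ 0 := by
  have hXt : ∀ᶠ t in (σ.𝒰 : Filter ℕ), ∀ i, ∀ v : HeightOneSpectrum (𝓞 K), Sum.inr v ∉ S →
      fv v (rep (ev u (X i)) t) = fv v ((x t i : ℤ) : K) := by
    rw [Filter.eventually_all]
    intro i
    filter_upwards [fv_mon hu _ _ _ (hX i), rep_gm (σ := σ) fun t => ((x t i : ℤ) : K)] with
      t t1 t2 v hv
    rw [t1 v hv, t2]
  filter_upwards [hXt, fv_mon hu _ _ _ hR, rep_gm (σ := σ) fun t => ((ρ t : ℤ) : K),
    rep_gm (σ := σ) fun t => ((τ t : ℤ) : K)] with t t1 t2 t3 t4 v hv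
  rw [t4, t2 v hv, t3, pow_zero, mul_one]
  refine ⟨fv_int v _, ?_⟩
  rw [Finset.prod_congr rfl fun i _ => t1 i v hv]
  obtain ⟨w, hw⟩ := (hd t).trans (mul_dvd_mul_right (pow_dvd_pow (ρ t) (Nat.le_succ m)) _)
  have h3 : ((ρ t : ℤ) : K) ^ (m + 1) * ((τ t : ℤ) : K) =
      (∏ i, ((x t i : ℤ) : K)) * (w : K) := by
    exact_mod_cast hw
  rw [← map_pow, ← map_mul, h3, map_mul, map_prod]
  exact mul_le_of_le_one_right (Finset.prod_nonneg fun i _ => (fv v).nonneg _) (fv_int v w)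

/-- from germs to integers: the final estimate -/
theorem final_int {K : Type} [Field K] [NumberField K] {σ : Sc} {S : Finset (Pl K)}
    (hS : ∀ w : InfinitePlace K, Sum.inl w ∈ S) {r' : ℕ} {u : Fin r' → G K σ} (hu : Indep S u)
    (H : ℕ → ℝ) (hσL : ∀ t, σ.L t = Real.log (H t)) (ρ τ : ℕ → ℤ) (hρ0 : ∀ t, ρ t ≠ 0)
    (hτ0 : ∀ t, τ t ≠ 0) (R : MvPolynomial (Fin r') (FF K σ)) (e' : Fin r' →₀ ℕ)
    (hR : ev u R = gm σ (fun t => ((ρ t : ℤ) : K)) * mon u e') (M : ℕ) (ε : ℝ) (hε : 0 < ε)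
    (hlog : ∀ t, (M + ε) * (Real.log |(ρ t : ℝ)| + Real.log |(τ t : ℝ)|) ≤ σ.L t)
    (h : ℕ → ℝ) (hh : ∀ᶠ t in (σ.𝒰 : Filter ℕ), Module.finrank ℚ K * σ.L t ≤ h t)
    (hmain : Sm σ fun t => h t - M * (hs S (ev u R) t +
      hs S (gm σ fun t => ((τ t : ℤ) : K)) t)) : False := by
  obtain ⟨P, hP⟩ : ∃ P : G K σ, P = gm σ fun t => ((ρ t : ℤ) : K) := ⟨_, rfl⟩
  obtain ⟨Q, hQ⟩ : ∃ Q : G K σ, Q = gm σ fun t => ((τ t : ℤ) : K) := ⟨_, rfl⟩
  rw [← hP] at hR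
  rw [← hQ] at hmain
  have hP0 : P ≠ 0 := by
    rw [hP, gm_ne]
    exact Eventually.of_forall fun t => by exact_mod_cast hρ0 t
  have hQ0 : Q ≠ 0 := by
    rw [hQ, gm_ne]
    exact Eventually.of_forall fun t => by exact_mod_cast hτ0 t
  have hrP := rep_eq P _ hP
  have hrQ := rep_eq Q _ hQ
  have hMε : (0 : ℝ) < M + ε := by positivity
  have hd1 : (1 : ℝ) ≤ Module.finrank ℚ K := by
    exact_mod_cast Nat.one_le_iff_ne_zero.2 (Module.finrank_pos (R := ℚ) (M := K)).ne'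
  obtain ⟨t, ⟨⟨⟨⟨⟨⟨⟨t1, t2⟩, t3⟩, t4⟩, t5⟩, t6⟩, t7⟩, t8⟩, t9⟩ :=
    (((((((((hmain (ε / (2 * (M + ε))) (by positivity)).and
    (L_pos (σ := σ))).and (hs_le_height (S := S) hS P hP0)).and
    (hs_le_height (S := S) hS Q hQ0)).and hh).and hrP).and hrQ).and
    (hs_mul (S := S) P (mon u e') hP0 (mon_ne hu _))).and (hs_mon hu hS e')).exists
  simp only at t1
  rw [← hR, t9, add_zero] at t8
  rw [t6, height_int _ (hρ0 t)] at t3
  rw [t7, height_int _ (hτ0 t)] at t4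
  rw [t8] at t1
  have h1 := hlog t
  have h2 : (Module.finrank ℚ K : ℝ) * σ.L t ≤ Module.finrank ℚ K *
      (M * (Real.log |(ρ t : ℝ)| + Real.log |(τ t : ℝ)|)) +
        ε / (2 * (M + ε)) * σ.L t := by
    have h3 : (M : ℝ) * (hs S P t + hs S Q t) ≤ M * (Module.finrank ℚ K *
        Real.log |(ρ t : ℝ)| + Module.finrank ℚ K * Real.log |(τ t : ℝ)|) :=
      mul_le_mul_of_nonneg_left (add_le_add t3 t4) (Nat.cast_nonneg M)
    linarith
  have h3 : Real.log |(ρ t : ℝ)| + Real.log |(τ t : ℝ)| ≤ σ.L t / (M + ε) := by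
    rw [le_div_iff₀ hMε]
    linarith
  have h4 : (Module.finrank ℚ K : ℝ) * (M * (Real.log |(ρ t : ℝ)| + Real.log |(τ t : ℝ)|)) ≤
      Module.finrank ℚ K * (M * (σ.L t / (M + ε))) := by gcongr
  have h5 : (Module.finrank ℚ K : ℝ) * σ.L t - Module.finrank ℚ K * (M * (σ.L t / (M + ε))) =
      Module.finrank ℚ K * (ε / (M + ε) * σ.L t) := by
    field_simp
    ring
  have h6 : ε / (M + ε) * σ.L t ≤ Module.finrank ℚ K * (ε / (M + ε) * σ.L t) :=
    le_mul_of_one_le_left (by positivity) hd1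
  have h7 : ε / (2 * (M + ε)) * σ.L t = (ε / (M + ε) * σ.L t) / 2 := by
    field_simp
  have h8 : 0 < ε / (M + ε) * σ.L t := by positivity
  linarith

end Pool.Agent.Run7.h720
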