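import Pool.Agent.Run7.h720.NChain
import Pool.Agent.Run7.h720.NInt

/-!
The n-term abc inequality for sparse integers.
-/

set_option autoImplicit false
set_option linter.unusedSectionVars false

namespace Pool.Agent.Run7.h720

open NumberField IsDedekindDomain Height Filter Topology
open Pool.Agent.W180.OP (Pl av wt fv fv_support_finite wt_nonneg nrm)
open Pool.Agent.K1H83.VN
open MvPolynomial (monomial)

/-- from germs to integers -/
theorem int_main (K : Type) [Field K] [NumberField K] (Γ : Subgroup Kˣ) (hΓ : Γ.FG)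
    (n r m M : ℕ) (hM : 1 ≤ M) (B ε : ℝ) (hε : 0 < ε) (Adm : (Fin n → ℤ) → Prop)
    (hadm : ∀ x, Adm x → ∀ i, x i ≠ 0)
    (hgerm : ∀ (σ : Sc) (S : Finset (Pl K)) (_ : ∀ w : InfinitePlace K, Sum.inl w ∈ S) (r' : ℕ)
      (u : Fin r' → G K σ) (_ : Indep S u) (x : ℕ → Fin n → ℤ) (H : ℕ → ℝ)
      (_ : ∀ t, σ.L t = Real.log (H t)) (_ : ∀ t, ∃ j, |(x t j : ℝ)| = H t)
      (_ : ∀ t, Adm (x t)) (ρ τ : ℕ → ℤ) (_ : ∀ t, ρ t ≠ 0) (_ : ∀ t, τ t ≠ 0)
      (_ : ∀ t, ∏ i, x t i ∣ ρ t ^ m * τ t)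
      (X : Fin n → MvPolynomial (Fin r') (FF K σ)) (R : MvPolynomial (Fin r') (FF K σ))
      (e e' : Fin r' →₀ ℕ)
      (_ : ∀ i, ev u (X i) = gm σ (fun t => ((x t i : ℤ) : K)) * mon u e)
      (_ : ev u R = gm σ (fun t => ((ρ t : ℤ) : K)) * mon u e'),
      ∃ h : ℕ → ℝ, (∀ᶠ t in (σ.𝒰 : Filter ℕ), Module.finrank ℚ K * σ.L t ≤ h t) ∧
        Sm σ fun t => h t - M * (hs S (ev u R) t + hs S (gm σ fun t => ((τ t : ℤ) : K)) t)) :
    ∃ δ C : ℝ, 0 < δ ∧ ∀ (x : Fin n → ℤ) (ρ τ : ℤ) (H : ℝ), (∀ i, |(x i : ℝ)| ≤ H) →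
      (∃ i, |(x i : ℝ)| = H) → Adm x → ρ ≠ 0 → τ ≠ 0 → ∏ i, x i ∣ ρ ^ m * τ →
      (∀ i, Short Γ r (B * H ^ δ) (x i : K)) → Short Γ r (B * H ^ δ) (ρ : K) →
      H ≤ C * (|(ρ : ℝ)| * |(τ : ℝ)|) ^ (M + ε) := by
  classical
  by_contra hcon
  push Not at hcon
  have hex := fun t : ℕ => hcon (1 / ((t : ℝ) + 1)) ((t : ℝ) + 3) (by positivity)
  choose x ρ τ H hxH hmax hx hρ0 hτ0 hd hsx hsρ hbig using hex
  have hρ1 : ∀ t, (1 : ℝ) ≤ |(ρ t : ℝ)| := fun t => by exact_mod_cast Int.one_le_abs (hρ0 t)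
  have hτ1 : ∀ t, (1 : ℝ) ≤ |(τ t : ℝ)| := fun t => by exact_mod_cast Int.one_le_abs (hτ0 t)
  have hρτ : ∀ t, (1 : ℝ) ≤ |(ρ t : ℝ)| * |(τ t : ℝ)| := fun t => by
    nlinarith [hρ1 t, hτ1 t]
  have hM1 : (1 : ℝ) ≤ M := by exact_mod_cast hM
  have hHbig : ∀ t : ℕ, (t : ℝ) + 3 ≤ H t := by
    intro t
    have h1 := hbig t
    have h2 : (1 : ℝ) ≤ (|(ρ t : ℝ)| * |(τ t : ℝ)|) ^ (M + ε) :=
      Real.one_le_rpow (hρτ t) (by linarith)
    have h3 : (0 : ℝ) ≤ (t : ℝ) + 3 := by positivity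
    nlinarith
  have hH1 : ∀ t, 1 ≤ H t := fun t => by
    have := hHbig t
    have h2 : (0 : ℝ) ≤ t := Nat.cast_nonneg t
    linarith
  have hlim : Tendsto (fun t => Real.log (H t)) atTop atTop := by
    refine Real.tendsto_log_atTop.comp (tendsto_atTop_mono hHbig ?_)
    exact tendsto_atTop_add_const_right _ _ tendsto_natCast_atTop_atTop
  let σ : Sc := ⟨hyperfilter ℕ, _, hlim.mono_left Nat.hyperfilter_le_atTop⟩
  have hσL : ∀ t, σ.L t = Real.log (H t) := fun t => rfl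
  have h𝒰 : (σ.𝒰 : Filter ℕ) ≤ atTop := Nat.hyperfilter_le_atTop
  have hlog : ∀ t, (M + ε) * (Real.log |(ρ t : ℝ)| + Real.log |(τ t : ℝ)|) ≤ σ.L t := by
    intro t
    have h1 := hbig t
    have h2 : (0 : ℝ) < (|(ρ t : ℝ)| * |(τ t : ℝ)|) ^ (M + ε) := by
      have := hρτ t
      positivity
    have h3 : (|(ρ t : ℝ)| * |(τ t : ℝ)|) ^ (M + ε) ≤ H t := by
      have h4 : (1 : ℝ) ≤ (t : ℝ) + 3 := by
        have h2 : (0 : ℝ) ≤ t := Nat.cast_nonneg t
        linarith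
      nlinarith
    have h4 := Real.log_le_log h2 h3
    rw [Real.log_rpow (by linarith [hρτ t]), Real.log_mul (by linarith [hρ1 t])
      (by linarith [hτ1 t])] at h4
    exact h4
  have hlogρ : ∀ t, 0 ≤ Real.log |(ρ t : ℝ)| := fun t => Real.log_nonneg (hρ1 t)
  have hlogτ : ∀ t, 0 ≤ Real.log |(τ t : ℝ)| := fun t => Real.log_nonneg (hτ1 t)
  have hρH : ∀ t, Real.log |(ρ t : ℝ)| ≤ σ.L t := by
    intro t
    have h1 := hlog t
    have h2 := hlogρ t
    have h3 := hlogτ t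
    nlinarith
  obtain ⟨S, r', u, X, R, e, e', hS, hu, hX, hR⟩ := int_rep Γ hΓ r n B h𝒰 H hH1 hσL x
    (fun t => hadm _ (hx t)) hxH hsx ρ hρ0 hρH hsρ
  obtain ⟨h, hh, hm⟩ := hgerm σ S hS r' u hu x H hσL hmax hx ρ τ hρ0 hτ0 hd X R e e' hX hR
  exact final_int hS hu H hσL ρ τ hρ0 hτ0 R e' hR M ε hε hlog h hh hm

section
variable {K : Type} [Field K] [NumberField K]

theorem gm_int_ne {σ : Sc} (z : ℕ → ℤ) (hz : ∀ t, z t ≠ 0) :
    gm σ (fun t => ((z t : ℤ) : K)) ≠ 0 := by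
  rw [gm_ne]
  refine Eventually.of_forall fun t => ?_
  exact_mod_cast hz t

/-- nonvanishing of the polynomials -/
theorem poly_ne {σ : Sc} {S : Finset (Pl K)} {r' : ℕ} {u : Fin r' → G K σ} (hu : Indep S u)
    (R : MvPolynomial (Fin r') (FF K σ)) (e' : Fin r' →₀ ℕ) (ρ : ℕ → ℤ) (hρ0 : ∀ t, ρ t ≠ 0)
    (hR : ev u R = gm σ (fun t => ((ρ t : ℤ) : K)) * mon u e') : R ≠ 0 := by
  rintro rfl
  rw [map_zero] at hR
  exact mul_ne_zero (gm_int_ne ρ hρ0) (mon_ne hu _) hR.symm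

/-- sums of the polynomials -/
theorem poly_sum {σ : Sc} {r' n : ℕ} {u : Fin r' → G K σ}
    (x : ℕ → Fin n → ℤ) (X : Fin n → MvPolynomial (Fin r') (FF K σ)) (e : Fin r' →₀ ℕ)
    (hX : ∀ i, ev u (X i) = gm σ (fun t => ((x t i : ℤ) : K)) * mon u e) (U : Finset (Fin n)) :
    ev u (∑ i ∈ U, X i) = gm σ (fun t => ((∑ i ∈ U, x t i : ℤ) : K)) * mon u e := by
  rw [map_sum, Finset.sum_congr rfl fun i _ => hX i, ← Finset.sum_mul, ← map_sum]
  congr 2
  funext t
  rw [Finset.sum_apply]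
  push_cast
  rfl

/-- the values of the polynomials up to a common factor -/
theorem rep_tuple {σ : Sc} {S : Finset (Pl K)} {r' n : ℕ} {u : Fin r' → G K σ} (hu : Indep S u)
    (x : ℕ → Fin n → ℤ) (X : Fin n → MvPolynomial (Fin r') (FF K σ)) (e : Fin r' →₀ ℕ)
    (hX : ∀ i, ev u (X i) = gm σ (fun t => ((x t i : ℤ) : K)) * mon u e) (V : Finset (Fin n)) :
    ∀ᶠ t in (σ.𝒰 : Filter ℕ),
      logHeight (fun i => if i ∈ V then rep (ev u (X i)) t else 0) =
        logHeight (fun i => (((if i ∈ V then x t i else 0 : ℤ)) : K)) := by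
  have h1 : ∀ᶠ t in (σ.𝒰 : Filter ℕ), ∀ i, rep (ev u (X i)) t =
      ((x t i : ℤ) : K) * rep (mon u e) t := by
    rw [Filter.eventually_all]
    intro i
    rw [hX i]
    filter_upwards [rep_mul (gm σ (fun t => ((x t i : ℤ) : K))) (mon u e),
      rep_gm (σ := σ) fun t => ((x t i : ℤ) : K)] with t t1 t2
    rw [t1, t2]
  filter_upwards [h1, rep_ne _ (mon_ne hu e)] with t t1 t2
  rw [← logHeight_smul_eq_logHeight (fun i => (((if i ∈ V then x t i else 0 : ℤ)) : K)) t2]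
  congr 1
  funext i
  rw [Pi.smul_apply, smul_eq_mul, t1 i]
  by_cases hi : i ∈ V
  · rw [if_pos hi, if_pos hi, mul_comm]
  · rw [if_neg hi, if_neg hi, Int.cast_zero, mul_zero]

theorem bezout_two {ι : Type} [Fintype ι] [DecidableEq ι] (x : ι → ℤ) (i j : ι)
    (h : IsCoprime (x i) (x j)) : ∃ a : ι → ℤ, ∑ l, a l * x l = 1 := by
  obtain ⟨α, β, hab⟩ := h
  refine ⟨fun l => (if l = i then α else 0) + (if l = j then β else 0), ?_⟩
  rw [← hab]
  simp only [add_mul, ite_mul, zero_mul, Finset.sum_add_distrib, Finset.sum_ite_eq',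
    Finset.mem_univ, if_true]

end

/-- **The n-term abc inequality for sparse integers.** -/
theorem nterm_int (K : Type) [Field K] [NumberField K] (Γ : Subgroup Kˣ) (hΓ : Γ.FG)
    (n r m : ℕ) (hn : 3 ≤ n) (B ε : ℝ) (hε : 0 < ε) :
    ∃ δ C : ℝ, 0 < δ ∧ ∀ (x : Fin n → ℤ) (ρ τ : ℤ) (H : ℝ), (∀ i, |(x i : ℝ)| ≤ H) →
      (∃ i, |(x i : ℝ)| = H) → (Finset.univ.gcd x = 1 ∧ ∑ i, x i = 0 ∧
        ∀ U : Finset (Fin n), U.Nonempty → U ≠ Finset.univ → ∑ i ∈ U, x i ≠ 0) →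
      ρ ≠ 0 → τ ≠ 0 → ∏ i, x i ∣ ρ ^ m * τ →
      (∀ i, Short Γ r (B * H ^ δ) (x i : K)) → Short Γ r (B * H ^ δ) (ρ : K) →
      H ≤ C * (|(ρ : ℝ)| * |(τ : ℝ)|) ^ (((n - 1) * (n - 2) / 2 : ℕ) + ε) := by
  classical
  have hne : ∀ x : Fin n → ℤ, (Finset.univ.gcd x = 1 ∧ ∑ i, x i = 0 ∧
      ∀ U : Finset (Fin n), U.Nonempty → U ≠ Finset.univ → ∑ i ∈ U, x i ≠ 0) →
      ∀ i, x i ≠ 0 := by
    rintro x ⟨-, -, h⟩ i
    have h1 := h {i} (Finset.singleton_nonempty i) (by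
      intro h2
      have h3 := congrArg Finset.card h2
      rw [Finset.card_singleton, Finset.card_fin] at h3
      omega)
    rwa [Finset.sum_singleton] at h1
  refine int_main K Γ hΓ n r m ((n - 1) * (n - 2) / 2) ?_ B ε hε _ hne ?_
  · rw [Nat.one_le_div_iff (by norm_num)]
    calc 2 = 2 * 1 := rfl
      _ ≤ (n - 1) * (n - 2) := Nat.mul_le_mul (by omega) (by omega)
  intro σ S hS r' u hu x H hσL hmax hx ρ τ hρ0 hτ0 hd X R e e' hX hR
  have hx0 := fun t => hne _ (hx t)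
  have hX0 : ∀ i, X i ≠ 0 := fun i => poly_ne hu (X i) e (fun t => x t i) (fun t => hx0 t i) (hX i)
  have hR0 : R ≠ 0 := poly_ne hu R e' ρ hρ0 hR
  have hmain := chain_step hu hS (by omega) X hX0 (by
      by_contra h
      apply ev_ne hu hS _ h
      have h1 := poly_sum x X e hX Finset.univ
      rw [h1]
      simp only [fun t => (hx t).2.1, Int.cast_zero]
      have h2 : (fun _ : ℕ => (0 : K)) = 0 := rfl
      rw [h2, map_zero, zero_mul]) (by
      intro U hU hUn h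
      have h1 := poly_sum x X e hX U
      rw [h, map_zero] at h1
      exact mul_ne_zero (gm_int_ne _ fun t => (hx t).2.2 U hU hUn) (mon_ne hu e) h1.symm)
    R hR0 _ (gm_int_ne τ hτ0)
    (fun i : Empty => (i.elim : MvPolynomial (Fin r') (FF K σ))) (m + 1) 0 (Nat.succ_ne_zero m)
    (int_div hu x ρ τ m hd X R e e' hX hR)
  refine ⟨_, ?_, hmain⟩
  filter_upwards [rep_tuple hu x X e hX Finset.univ] with t t1
  simp only [Finset.mem_univ, if_true] at t1
  rw [t1]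
  obtain ⟨j, hj⟩ := hmax t
  rw [hσL, ← hj]
  exact height_tuple (x t) (gcd_bezout _ (hx t).1) j (hx0 t j)

/-- **The strong n-term inequality for sparse integers.** -/
theorem strong_int (K : Type) [Field K] [NumberField K] (Γ : Subgroup Kˣ) (hΓ : Γ.FG)
    (n r m : ℕ) (hn : 3 ≤ n) (B ε : ℝ) (hε : 0 < ε) :
    ∃ δ C : ℝ, 0 < δ ∧ ∀ (x : Fin n → ℤ) (ρ τ : ℤ) (H : ℝ), (∀ i, |(x i : ℝ)| ≤ H) →
      (∃ i, |(x i : ℝ)| = H) → ((∀ i, x i ≠ 0) ∧ (∀ i j, i ≠ j → IsCoprime (x i) (x j)) ∧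
        ∑ i, x i = 0) →
      ρ ≠ 0 → τ ≠ 0 → ∏ i, x i ∣ ρ ^ m * τ →
      (∀ i, Short Γ r (B * H ^ δ) (x i : K)) → Short Γ r (B * H ^ δ) (ρ : K) →
      H ≤ C * (|(ρ : ℝ)| * |(τ : ℝ)|) ^ ((n - 2 : ℕ) + ε) := by
  classical
  refine int_main K Γ hΓ n r m (n - 2) (by omega) B ε hε _ (fun x hx => hx.1) ?_
  intro σ S hS r' u hu x H hσL hmax hx ρ τ hρ0 hτ0 hd X R e e' hX hR
  have hx0 := fun t => (hx t).1
  have hX0 : ∀ i, X i ≠ 0 := fun i => poly_ne hu (X i) e (fun t => x t i) (fun t => hx0 t i) (hX i)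
  have hR0 : R ≠ 0 := poly_ne hu R e' ρ hρ0 hR
  have hXs : ∑ i, X i = 0 := by
    by_contra h
    apply ev_ne hu hS _ h
    have h1 := poly_sum x X e hX Finset.univ
    rw [h1]
    simp only [fun t => (hx t).2.2, Int.cast_zero]
    have h2 : (fun _ : ℕ => (0 : K)) = 0 := rfl
    rw [h2, map_zero, zero_mul]
  -- the largest entry
  obtain ⟨j, hj⟩ : ∃ j : Fin n, ∀ᶠ t in (σ.𝒰 : Filter ℕ), |(x t j : ℝ)| = H t := by
    have h1 : (⋃ j ∈ (Set.univ : Set (Fin n)), {t | |(x t j : ℝ)| = H t}) ∈ σ.𝒰 := by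
      refine Filter.mem_of_superset Filter.univ_mem fun t _ => ?_
      obtain ⟨j, hj⟩ := hmax t
      simp only [Set.mem_univ, Set.iUnion_true, Set.mem_iUnion, Set.mem_ofPred_eq]
      exact ⟨j, hj⟩
    rw [Ultrafilter.finite_biUnion_mem_iff Set.finite_univ] at h1
    obtain ⟨j, -, hj⟩ := h1
    exact ⟨j, hj⟩
  -- no common factors
  have hnc : ∀ π, Irreducible π → ¬ π ∣ vars' (FF K σ) r' → ∀ i i', i ≠ i' →
      π ∣ X i → ¬ π ∣ X i' := by
    intro π hπ hπv i i' hii h1 h2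
    refine no_common hu hS ![X i, X i'] 0 (hX0 i) ?_ π hπ hπv fun b => ?_
    · refine (Sm.const 0).mono ?_
      filter_upwards [fv_mon hu _ _ _ (hX i), fv_mon hu _ _ _ (hX i'),
        rep_gm (σ := σ) fun t => ((x t i : ℤ) : K),
        rep_gm (σ := σ) fun t => ((x t i' : ℤ) : K)] with t t1 t2 t3 t4
      have h2 : 0 ≤ ho S fun b => rep (ev u (![X i, X i'] b)) t := by
        refine ho_nonneg S _ fun v hv => ?_
        have k1 := le_nm (fv v) (fun b => rep (ev u (![X i, X i'] b)) t) 0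
        have k2 := le_nm (fv v) (fun b => rep (ev u (![X i, X i'] b)) t) 1
        have k1' : fv v (rep (ev u (X i)) t) ≤
            nm (fv v) fun b => rep (ev u (![X i, X i'] b)) t := k1
        have k2' : fv v (rep (ev u (X i')) t) ≤
            nm (fv v) fun b => rep (ev u (![X i, X i'] b)) t := k2
        rw [t1 v hv, t3] at k1'
        rw [t2 v hv, t4] at k2'
        obtain ⟨a, b, hab⟩ := (hx t).2.1 i i' hii
        have k3 : (1 : K) = (a : K) * ((x t i : ℤ) : K) + (b : K) * ((x t i' : ℤ) : K) := by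
          exact_mod_cast hab.symm
        have k4 : fv v (1 : K) ≤ max (fv v ((a : K) * ((x t i : ℤ) : K)))
            (fv v ((b : K) * ((x t i' : ℤ) : K))) := by
          conv_lhs => rw [k3]
          exact fv_na v _ _
        rw [map_one, map_mul, map_mul] at k4
        refine k4.trans (max_le ?_ ?_)
        · exact (mul_le_of_le_one_left ((fv v).nonneg _) (fv_int v a)).trans k1'
        · exact (mul_le_of_le_one_left ((fv v).nonneg _) (fv_int v b)).trans k2'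
      linarith
    · fin_cases b
      · exact h1
      · exact h2
  -- the minimal relation
  obtain ⟨κ, hκ1, hκ2, hκ3⟩ := exists_circuit (F := FF K σ) X {j}
    ⟨fun _ => 1, by simpa using hXs, by simpa using hX0 j⟩
  obtain ⟨a, g, hg, hgU, hκg, ha, hrel, hind⟩ := circuit_part X {j} κ hκ1 hκ2 hκ3
  have hgj : ∀ b, g b ≠ j := fun b h => hgU b (Finset.mem_singleton.2 h)
  have han : a + 1 ≤ n := by
    have h1 : Function.Injective (Fin.cons j g : Fin (a + 1) → Fin n) :=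
      Fin.cons_injective_iff.2 ⟨fun ⟨b, hb⟩ => hgj b hb, hg⟩
    simpa using Fintype.card_le_of_injective _ h1
  have hdv : ∀ᶠ t in (σ.𝒰 : Filter ℕ), ∀ v : HeightOneSpectrum (𝓞 K), Sum.inr v ∉ S →
      fv v (rep (gm σ fun t => ((τ t : ℤ) : K)) t) ≤ 1 ∧
      fv v (rep (ev u R) t) ^ (m + 1) * fv v (rep (gm σ fun t => ((τ t : ℤ) : K)) t) ≤
        (∏ i, fv v (rep (ev u (X i)) t)) *
          nm (fv v) (c1 fun i : Empty => rep (ev u (i.elim : MvPolynomial (Fin r') (FF K σ))) t)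
            ^ 0 := int_div hu x ρ τ m hd X R e e' hX hR
  have hst := step_main hu hS X hX0 R hR0 _ (gm_int_ne τ hτ0)
    (fun i : Empty => (i.elim : MvPolynomial (Fin r') (FF K σ))) (m + 1) 0 (Nat.succ_ne_zero m)
    hdv {j} j (Finset.mem_singleton_self j) g hg hgU κ hκg hrel hind (a - 1) (by
      intro π hπ hπv e he τ
      refine loss_one e ?_ τ
      have hpow : ∀ (c : ℕ) (z : MvPolynomial (Fin r') (FF K σ)), c ≠ 0 → π ^ c ∣ z → π ∣ z :=
        fun c z hc hz => (dvd_pow_self π hc).trans hz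
      intro b b' hb hb'
      by_contra hbb
      rcases he with he | ⟨b0, he, he'⟩
      · exact hnc π hπ hπv (g b) (g b') (fun h => hbb (hg h)) (hpow _ _ hb (he b))
          (hpow _ _ hb' (he b'))
      · by_cases h0 : b = b0
        · subst h0
          exact hnc π hπ hπv j (g b') (fun h => hgj b' h.symm)
            (hpow _ _ hb (he' j (Finset.mem_singleton_self j)))
            (hpow _ _ hb' (he b' fun h => hbb h.symm))
        · by_cases h0' : b' = b0
          · subst h0'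
            exact hnc π hπ hπv j (g b) (fun h => hgj b h.symm)
              (hpow _ _ hb' (he' j (Finset.mem_singleton_self j)))
              (hpow _ _ hb (he b hbb))
          · exact hnc π hπ hπv (g b) (g b') (fun h => hbb (hg h)) (hpow _ _ hb (he b h0))
              (hpow _ _ hb' (he b' h0')))
  have hB : Sm σ fun t => -(hs S (ev u R) t + hs S (gm σ fun t => ((τ t : ℤ) : K)) t) := by
    refine (hs_ev hu hS R hR0).mono ?_
    filter_upwards [hs_nonneg hS _ (gm_int_ne τ hτ0) (hdv.mono fun t ht v hv => (ht v hv).1)]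
      with t t1
    linarith
  have hsub : (0 : ℝ) ≤ ((n - 2 : ℕ) : ℝ) - ((a - 1 : ℕ) : ℝ) := by
    rw [sub_nonneg]
    exact_mod_cast (by omega : a - 1 ≤ n - 2)
  refine ⟨fun t => logHeight (fun i => if i ∈ {j} ∪ Finset.univ.image g then
    rep (ev u (X i)) t else 0), ?_, (hst.add (hB.smul hsub)).mono ?_⟩
  · filter_upwards [rep_tuple hu x X e hX ({j} ∪ Finset.univ.image g), hj] with t t1 t2
    rw [t1, hσL, ← t2]
    have b0 : Fin a := ⟨0, Nat.pos_of_ne_zero ha⟩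
    have h3 := height_tuple (K := K)
      (fun i => (if i ∈ {j} ∪ Finset.univ.image g then x t i else 0 : ℤ))
      (bezout_two _ j (g b0) (by
        rw [if_pos (Finset.mem_union_left _ (Finset.mem_singleton_self j)),
          if_pos (Finset.mem_union_right _ (Finset.mem_image.2 ⟨b0, Finset.mem_univ _, rfl⟩))]
        exact (hx t).2.1 j (g b0) fun h => hgj b0 h.symm)) j (by
        rw [if_pos (Finset.mem_union_left _ (Finset.mem_singleton_self j))]
        exact hx0 t j)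
    rw [if_pos (Finset.mem_union_left _ (Finset.mem_singleton_self j))] at h3
    exact h3
  · filter_upwards [rep_ne _ (ev_ne hu hS _ (hX0 j))] with t t1
    have h3 : logHeight (fun i => if i ∈ ({j} : Finset (Fin n)) then
        rep (ev u (X i)) t else 0) ≤ logHeight (fun _ : Unit => rep (ev u (X j)) t) := by
      refine height_mono S hS _ (ne_of_coord (i := j) (by
        rw [if_pos (Finset.mem_singleton_self _)]
        exact t1)) _ (ne_of_coord (i := ()) t1) fun i => ?_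
      by_cases hi : i = j
      · refine Or.inr ⟨(), ?_⟩
        rw [if_pos (Finset.mem_singleton.2 hi), hi]
      · left
        rw [if_neg (fun h => hi (Finset.mem_singleton.1 h))]
    have h4 : logHeight (fun _ : Unit => rep (ev u (X j)) t) = 0 := by
      rw [logHeight_eq_log_mulHeight, mulHeight_eq_one_of_subsingleton, Real.log_one]
    rw [h4] at h3
    have h5 : (((n - 2 : ℕ) : ℝ) - ((a - 1 : ℕ) : ℝ)) *
        -(hs S (ev u R) t + hs S (gm σ fun t => ((τ t : ℤ) : K)) t) =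
        ((a - 1 : ℕ) : ℝ) * (hs S (ev u R) t + hs S (gm σ fun t => ((τ t : ℤ) : K)) t) -
        ((n - 2 : ℕ) : ℝ) * (hs S (ev u R) t + hs S (gm σ fun t => ((τ t : ℤ) : K)) t) := by
      ring
    rw [h5]
    linarith

end Pool.Agent.Run7.h720
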