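import Pool.Agent.Run7.h720.Hyp

/-!
Short points and the zeros of a moving polynomial: the version with the zeros of the value.
-/

set_option autoImplicit false
set_option linter.unusedSectionVars false

namespace Pool.Agent.Run7.h720

open NumberField IsDedekindDomain Height
open Pool.Agent.W180.OP (Pl av wt fv fv_support_finite wt_nonneg nrm)
open Pool.Agent.K1H83.VN

section
variable {K : Type} [Field K] [NumberField K]

/-- the counting function of the poles outside a set of primes -/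
noncomputable def npole (T : Set (HeightOneSpectrum (𝓞 K))) (x : K) : ℝ :=
  ∑ᶠ (v : HeightOneSpectrum (𝓞 K)) (_ : v ∉ T), Real.log (max (fv v x) 1)

theorem cnt_ho (T' : Finset (Pl K)) (T : Set (HeightOneSpectrum (𝓞 K)))
    (hT : ∀ v, Sum.inr v ∈ T' ↔ v ∈ T) (x : K) : cnt T x = -ho T' (fun _ : Unit => x) := by
  classical
  unfold ho cnt
  rw [← finsum_neg_distrib]
  refine finsum_congr fun v => ?_
  rw [finsum_eq_if]
  unfold lo
  rw [nm_unit]
  by_cases hv : v ∈ T
  · rw [if_neg (not_not.2 hv), if_pos ((hT v).2 hv), neg_zero]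
  · rw [if_pos hv, if_neg fun h => hv ((hT v).1 h)]

theorem npole_ho (T' : Finset (Pl K)) (T : Set (HeightOneSpectrum (𝓞 K)))
    (hT : ∀ v, Sum.inr v ∈ T' ↔ v ∈ T) (x : K) : npole T x = ho T' ![x, 1] := by
  classical
  unfold ho npole
  refine finsum_congr fun v => ?_
  rw [finsum_eq_if]
  unfold lo
  rw [nm_pair', map_one]
  by_cases hv : v ∈ T
  · rw [if_neg (not_not.2 hv), if_pos ((hT v).2 hv)]
  · rw [if_pos hv, if_neg fun h => hv ((hT v).1 h)]

/-- the value of a polynomial, at one place -/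
theorem val_le (φ : AbsoluteValue K ℝ) {d : ℕ} (c : Fin (d + 1) → K) (x : K) :
    φ (∑ j, c j * x ^ (j : ℕ)) ≤ ((d : ℝ) + 1) * (∏ j, max (φ (c j)) 1) * max (φ x) 1 ^ d := by
  have h1 : φ (∑ j, c j * x ^ (j : ℕ)) ≤ ∑ j, φ (c j * x ^ (j : ℕ)) := by
    have := φ.sum_le Finset.univ fun j => c j * x ^ (j : ℕ)
    exact this
  refine h1.trans ?_
  have h2 : ∀ j : Fin (d + 1), φ (c j * x ^ (j : ℕ)) ≤
      (∏ j, max (φ (c j)) 1) * max (φ x) 1 ^ d := by
    intro j
    rw [map_mul, map_pow]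
    have h3 : φ (c j) ≤ ∏ j, max (φ (c j)) 1 := by
      refine (le_max_left _ 1).trans ?_
      rw [← Finset.mul_prod_erase Finset.univ (fun j => max (φ (c j)) 1) (Finset.mem_univ j)]
      refine le_mul_of_one_le_right (le_trans zero_le_one (le_max_right _ _)) ?_
      exact Finset.prod_induction _ (fun t : ℝ => 1 ≤ t)
        (fun a b ha hb => one_le_mul_of_one_le_of_one_le ha hb) le_rfl
        (fun i _ => le_max_right _ _)
    have h4 : φ x ^ (j : ℕ) ≤ max (φ x) 1 ^ d := by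
      refine (pow_le_pow_left₀ (φ.nonneg x) (le_max_left _ 1) _).trans ?_
      exact pow_le_pow_right₀ (le_max_right _ _) (by have := j.2; omega)
    exact mul_le_mul h3 h4 (pow_nonneg (φ.nonneg x) _)
      (Finset.prod_nonneg fun j _ => le_trans zero_le_one (le_max_right _ _))
  refine (Finset.sum_le_sum fun j _ => h2 j).trans (le_of_eq ?_)
  rw [Finset.sum_const, Finset.card_univ, Fintype.card_fin, nsmul_eq_mul]
  push_cast
  ring

end

/-- **Short points and the zeros of a moving polynomial**, with the zeros of the value. -/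
theorem hyp_two (K : Type) [Field K] [NumberField K] (Γ : Subgroup Kˣ) (hΓ : Γ.FG)
    (T : Set (HeightOneSpectrum (𝓞 K))) (hT : T.Finite) (d r M : ℕ) (B ε : ℝ) (hε : 0 < ε) :
    ∃ δ C : ℝ, 0 < δ ∧ 0 ≤ C ∧ ∀ (f : Polynomial K) (p q ρ τ : K), f.natDegree = d → f ≠ 0 →
      IsCoprime f (Polynomial.derivative f) → q ≠ 0 → f.eval (p / q) ≠ 0 → ρ ≠ 0 → τ ≠ 0 →
      (∀ v ∉ T, fv v ρ ≤ 1) → (∀ v ∉ T, fv v τ ≤ 1) →
      Short Γ r (B * mulHeight₁ (p / q) ^ δ) p → Short Γ r (B * mulHeight₁ (p / q) ^ δ) q →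
      Short Γ r (B * mulHeight₁ (p / q) ^ δ) ρ →
      (∀ v ∉ T, ((d : ℝ) + 1) * Real.log (max (fv v (p / q)) 1) -
        Real.log (fv v (f.eval (p / q))) ≤ -(M * Real.log (fv v ρ) + Real.log (fv v τ))) →
      ((d : ℝ) - 1 - ε) * logHeight₁ (p / q) ≤ cnt T ρ + cnt T τ +
        C * (1 + ∑ j : Fin (d + 1), logHeight₁ (f.coeff j)) ∧
      ((∀ v ∉ T, -(2 * Real.log (fv v ρ) + Real.log (fv v τ)) ≤
        ((d : ℝ) + 1) * Real.log (max (fv v (p / q)) 1) - Real.log (fv v (f.eval (p / q)))) →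
        ((d : ℝ) - 2 - ε) * logHeight₁ (p / q) ≤ npole T (p / q) + cnt T τ +
          C * (1 + ∑ j : Fin (d + 1), logHeight₁ (f.coeff j))) := by
  classical
  obtain ⟨δ, C, hδ, hmain⟩ := hyp_low K Γ hΓ T hT d r M B (ε / 2) (by positivity)
  obtain ⟨T', hT'⟩ : ∃ T' : Finset (Pl K), T' = Finset.univ.disjSum hT.toFinset := ⟨_, rfl⟩
  have hT1 : ∀ w : InfinitePlace K, Sum.inl w ∈ T' := by
    intro w
    rw [hT', Finset.inl_mem_disjSum]
    exact Finset.mem_univ w
  have hT2 : ∀ v : HeightOneSpectrum (𝓞 K), Sum.inr v ∈ T' ↔ v ∈ T := by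
    intro v
    rw [hT', Finset.inr_mem_disjSum, Set.Finite.mem_toFinset]
  obtain ⟨W, hW⟩ : ∃ W : ℝ, W = ∑ v ∈ T', wt v * Real.log ((d : ℝ) + 1) := ⟨_, rfl⟩
  have hW0 : 0 ≤ W := by
    rw [hW]
    refine Finset.sum_nonneg fun v _ => mul_nonneg (wt_nonneg v) (Real.log_nonneg ?_)
    have : (0 : ℝ) ≤ d := Nat.cast_nonneg d
    linarith
  refine ⟨δ, 2 * |C| + W + 1, hδ, by positivity, ?_⟩
  intro f p q ρ τ hfd hf0 hcop hq hfx hρ0 hτ0 hρT hτT hsp hsq hsρ hdiv
  have hfirst := hmain f p q ρ τ hfd hf0 hcop hq hfx hρ0 hτ0 hρT hτT hsp hsq hsρ hdiv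
  obtain ⟨y, hy⟩ : ∃ y : K, y = p / q := ⟨_, rfl⟩
  rw [← hy] at hfirst hfx ⊢
  obtain ⟨S, hS⟩ : ∃ S : ℝ, S = ∑ j : Fin (d + 1), logHeight₁ (f.coeff j) := ⟨_, rfl⟩
  have hS0 : 0 ≤ S := by
    rw [hS]
    exact Finset.sum_nonneg fun j _ => zero_le_logHeight₁ _
  rw [← hS] at hfirst ⊢
  have hh0 : 0 ≤ logHeight₁ y := zero_le_logHeight₁ y
  have hCS : C * (1 + S) ≤ |C| * (1 + S) :=
    mul_le_mul_of_nonneg_right (le_abs_self C) (by positivity)
  have hWS : 0 ≤ (|C| + W + 1) * (1 + S) := by positivity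
  have hεh : 0 ≤ ε / 2 * logHeight₁ y := by positivity
  refine ⟨by linarith, fun hup => ?_⟩
  -- the sum over the primes outside `T`
  have hfu : (fun _ : Unit => f.eval y) ≠ 0 := ne_of_coord (i := ()) hfx
  have hρu : (fun _ : Unit => ρ) ≠ 0 := ne_of_coord (i := ()) hρ0
  have hτu : (fun _ : Unit => τ) ≠ 0 := ne_of_coord (i := ()) hτ0
  have hyu : (![y, 1] : Fin 2 → K) ≠ 0 := ne_of_one _ 1 rfl
  have s1 := lo_support T' (fun _ : Unit => f.eval y) hfu
  have s2 := lo_support T' (fun _ : Unit => ρ) hρu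
  have s3 := lo_support T' (fun _ : Unit => τ) hτu
  have s4 := lo_support T' (![y, 1] : Fin 2 → K) hyu
  have hsum : 2 * cnt T ρ + cnt T τ ≤ ((d : ℝ) + 1) * ho T' ![y, 1] -
      ho T' (fun _ : Unit => f.eval y) := by
    rw [cnt_ho T' T hT2, cnt_ho T' T hT2]
    have e1 : 2 * -ho T' (fun _ : Unit => ρ) + -ho T' (fun _ : Unit => τ) =
        ∑ᶠ v, (-(2 * lo T' (fun _ : Unit => ρ) v) - lo T' (fun _ : Unit => τ) v) := by
      have e0 : ∑ᶠ v, 2 * lo T' (fun _ : Unit => ρ) v = 2 * ∑ᶠ v, lo T' (fun _ : Unit => ρ) v :=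
        (mul_finsum' _ _ s2).symm
      unfold ho
      rw [finsum_sub_distrib, finsum_neg_distrib, e0]
      · ring
      · refine s2.subset fun v hv h => hv ?_
        show -(2 * lo T' (fun _ : Unit => ρ) v) = 0
        rw [h, mul_zero, neg_zero]
      · exact s3
    have e2 : ((d : ℝ) + 1) * ho T' ![y, 1] - ho T' (fun _ : Unit => f.eval y) =
        ∑ᶠ v, (((d : ℝ) + 1) * lo T' ![y, 1] v - lo T' (fun _ : Unit => f.eval y) v) := by
      unfold ho
      rw [finsum_sub_distrib, mul_finsum' _ _ s4]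
      · refine s4.subset fun v hv h => hv ?_
        show ((d : ℝ) + 1) * lo T' ![y, 1] v = 0
        rw [h, mul_zero]
      · exact s1
    rw [e1, e2]
    refine finsum_le_finsum' ?_ ?_ fun v => ?_
    · refine (s2.union s3).subset fun v hv => ?_
      by_contra hc
      rw [Set.mem_union, not_or] at hc
      apply hv
      have h1 : lo T' (fun _ : Unit => ρ) v = 0 := not_not.1 hc.1
      have h2 : lo T' (fun _ : Unit => τ) v = 0 := not_not.1 hc.2
      show -(2 * lo T' (fun _ : Unit => ρ) v) - lo T' (fun _ : Unit => τ) v = 0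
      rw [h1, h2, mul_zero, neg_zero, sub_zero]
    · refine (s4.union s1).subset fun v hv => ?_
      by_contra hc
      rw [Set.mem_union, not_or] at hc
      apply hv
      have h1 : lo T' ![y, 1] v = 0 := not_not.1 hc.1
      have h2 : lo T' (fun _ : Unit => f.eval y) v = 0 := not_not.1 hc.2
      show ((d : ℝ) + 1) * lo T' ![y, 1] v - lo T' (fun _ : Unit => f.eval y) v = 0
      rw [h1, h2, mul_zero, sub_zero]
    · unfold lo
      by_cases hv : v ∈ T
      · rw [if_pos ((hT2 v).2 hv), if_pos ((hT2 v).2 hv), if_pos ((hT2 v).2 hv),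
          if_pos ((hT2 v).2 hv), mul_zero, mul_zero, neg_zero]
      · have hv' : Sum.inr v ∉ T' := fun h => hv ((hT2 v).1 h)
        rw [if_neg hv', if_neg hv', if_neg hv', if_neg hv', nm_unit, nm_unit, nm_unit, nm_pair',
          map_one]
        have h1 := hup v hv
        linarith
  -- the places in `T`
  have hloc : ∑ v ∈ T', wt v * Real.log (av v (f.eval y)) ≤
      W + S + d * ∑ v ∈ T', wt v * Real.log (nm (av v) (![y, 1] : Fin 2 → K)) := by
    have h1 : ∀ v : Pl K, wt v * Real.log (av v (f.eval y)) ≤ wt v * Real.log ((d : ℝ) + 1) +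
        ∑ j : Fin (d + 1), wt v * Real.log (nm (av v) (![f.coeff j, 1] : Fin 2 → K)) +
        d * (wt v * Real.log (nm (av v) (![y, 1] : Fin 2 → K))) := by
      intro v
      have h2 : f.eval y = ∑ j : Fin (d + 1), f.coeff j * y ^ (j : ℕ) := by
        rw [Polynomial.eval_eq_sum_range, hfd, Finset.sum_range]
      have h3 := val_le (av v) (fun j : Fin (d + 1) => f.coeff j) y
      rw [← h2] at h3
      have h4 : 0 < av v (f.eval y) := (av v).pos_iff.2 hfx
      have hp1 : ∀ z : K, 0 < max (av v z) 1 := fun z => lt_of_lt_of_le one_pos (le_max_right _ _)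
      have hp2 : 0 < ∏ j : Fin (d + 1), max (av v (f.coeff j)) 1 :=
        Finset.prod_pos fun j _ => hp1 _
      have hd1 : (0 : ℝ) < (d : ℝ) + 1 := by positivity
      have h5 := Real.log_le_log h4 h3
      rw [Real.log_mul (by positivity) (pow_pos (hp1 y) d).ne', Real.log_mul hd1.ne' hp2.ne',
        Real.log_pow, Real.log_prod (fun j _ => (hp1 _).ne')] at h5
      have h6 := mul_le_mul_of_nonneg_left h5 (wt_nonneg v)
      have h7 : ∀ z : K, nm (av v) (![z, 1] : Fin 2 → K) = max (av v z) 1 := fun z => by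
        rw [nm_pair', map_one]
      simp only [h7]
      refine h6.trans (le_of_eq ?_)
      rw [mul_add, mul_add, Finset.mul_sum]
      ring
    refine (Finset.sum_le_sum fun v _ => h1 v).trans ?_
    rw [Finset.sum_add_distrib, Finset.sum_add_distrib, ← Finset.mul_sum, ← hW, Finset.sum_comm]
    have h8 : ∑ j : Fin (d + 1), ∑ v ∈ T', wt v * Real.log (nm (av v)
        (![f.coeff j, 1] : Fin 2 → K)) ≤ S := by
      rw [hS]
      refine Finset.sum_le_sum fun j _ => ?_
      rw [logHeight₁_eq_logHeight, logHeight_split T' hT1 _ (ne_of_one _ 1 rfl)]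
      have h9 : 0 ≤ ho T' (![f.coeff j, 1] : Fin 2 → K) :=
        ho_nonneg T' _ fun v _ => one_le_nm _ _ 1 rfl
      linarith
    linarith
  have h1 := logHeight_split T' hT1 (![y, 1] : Fin 2 → K) hyu
  rw [← logHeight₁_eq_logHeight] at h1
  have h2 := logHeight_split T' hT1 (fun _ : Unit => f.eval y) hfu
  rw [logHeight_eq_zero_of_subsingleton] at h2
  simp only [nm_unit] at h2
  rw [npole_ho T' T hT2]
  obtain ⟨X, hX⟩ : ∃ X : ℝ, X = ∑ v ∈ T', wt v * Real.log (nm (av v) (![y, 1] : Fin 2 → K)) :=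
    ⟨_, rfl⟩
  obtain ⟨Y, hY⟩ : ∃ Y : ℝ, Y = ∑ v ∈ T', wt v * Real.log (av v (f.eval y)) := ⟨_, rfl⟩
  rw [← hX] at h1 hloc
  rw [← hY] at h2 hloc
  have h3 : ((d : ℝ) + 1) * ho T' (![y, 1] : Fin 2 → K) - ho T' (fun _ : Unit => f.eval y) ≤
      d * logHeight₁ y + W + S + ho T' (![y, 1] : Fin 2 → K) := by
    rw [h1]
    linarith
  have h4 : 0 ≤ W * S := by positivity
  linarith

end Pool.Agent.Run7.h720
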