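import Pool.Agent.Run7.h720.OkAbc

/-!
Products of short numbers.
-/

set_option autoImplicit false
set_option linter.unusedSectionVars false

namespace Pool.Agent.Run7.h720

open NumberField IsDedekindDomain Height
open Pool.Agent.W180.OP (Pl av wt fv fv_support_finite wt_nonneg nrm)
open Pool.Agent.K1H83.VN

section
variable {L : Type} [Field L] [NumberField L]

/-- the product of two short numbers -/
theorem short_mul {Γ : Subgroup Lˣ} {r s : ℕ} {R R' : ℝ} {a b : L} (ha : Short Γ r R a)
    (hb : Short Γ s R' b) : Short Γ (r * s) (R * R') (a * b) := by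
  obtain ⟨c, γ, h1, h2, h3⟩ := ha
  obtain ⟨c', γ', h1', h2', h3'⟩ := hb
  refine ⟨fun j => c (finProdFinEquiv.symm j).1 * c' (finProdFinEquiv.symm j).2,
    fun j => γ (finProdFinEquiv.symm j).1 * γ' (finProdFinEquiv.symm j).2,
    fun j => Γ.mul_mem (h1 _) (h1' _), fun j => ?_, ?_⟩
  · refine (mulHeight₁_mul_le _ _).trans ?_
    have h4 := h2 (finProdFinEquiv.symm j).1
    have h5 := h2' (finProdFinEquiv.symm j).2
    have h6 := one_le_mulHeight₁ (c (finProdFinEquiv.symm j).1)
    have h7 := one_le_mulHeight₁ (c' (finProdFinEquiv.symm j).2)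
    exact mul_le_mul h4 h5 (by linarith) (by linarith)
  · rw [h3, h3', Finset.sum_mul_sum, ← Finset.sum_product', Finset.univ_product_univ]
    refine Fintype.sum_equiv finProdFinEquiv _ _ fun x => ?_
    simp only [Equiv.symm_apply_apply, Units.val_mul]
    ring

theorem short_weak {Γ : Subgroup Lˣ} {r : ℕ} {R R' : ℝ} {z : L} (hR : R ≤ R')
    (h : Short Γ r R z) : Short Γ r R' z := by
  obtain ⟨c, γ, h1, h2, h3⟩ := h
  exact ⟨c, γ, h1, fun j => (h2 j).trans hR, h3⟩

end

end Pool.Agent.Run7.h720
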