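import Pool.Agent.Run7.h720.Camp

/-!
Integral points of root stacks: from the truncated inequality to the inequality of stacks.
-/

set_option autoImplicit false
set_option linter.unusedSectionVars false

namespace Pool.Agent.Run7.h720

open NumberField IsDedekindDomain Height
open Pool.Agent.W180.OP (Pl av wt fv fv_support_finite wt_nonneg nrm)
open Pool.Agent.K1H83.VN
open MvPolynomial

section
variable {K : Type} [Field K] [NumberField K] {m w : ℕ}

open Classical in
/-- **Integral points of root stacks: the counting function of a number with simple zeros on the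
boundary.** -/
theorem root_count {q : ℕ} (T : Set (HeightOneSpectrum (𝓞 K))) (hT : T.Finite)
    (F : Fin q → Fin w → MvPolynomial (Fin m) K) (d : Fin q → ℕ)
    (hF : ∀ i j, (F i j).IsHomogeneous (d i)) (I : Finset (Fin q)) (μ : Fin q → ℕ)
    (hμ : ∀ i ∈ I, 1 ≤ μ i) :
    ∃ C : ℝ, ∀ (x : Fin m → K) (ρ : K), x ≠ 0 → (∀ i, ∃ j, aeval x (F i j) ≠ 0) → ρ ≠ 0 →
      (∀ i ∈ I, ∀ v ∉ T, ∃ k : ℕ, lh (F i) (d i) (fv v) x =
        μ i * k * Real.log (Ideal.absNorm v.asIdeal : ℝ)) →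
      (∀ v ∉ T, -Real.log (fv v ρ) ≤ min (Real.log (Ideal.absNorm v.asIdeal : ℝ))
        (∑ i, lh (F i) (d i) (fv v) x)) →
      cnt T ρ ≤ (∑ᶠ v : HeightOneSpectrum (𝓞 K),
          if v ∉ T ∧ ∃ i ∉ I, 0 < lh (F i) (d i) (fv v) x then
            Real.log (Ideal.absNorm v.asIdeal : ℝ) else 0) + ∑ i ∈ I, (μ i : ℝ)⁻¹ *
        (d i * logHeight x - logHeight (fun j => aeval x (F i j))) + C := by
  classical
  choose c hc0 hc using fun (i : Fin q) (f : AbsoluteValue K ℝ) => camp_low f (F i) (d i) (hF i)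
  refine ⟨∑ i ∈ I, (μ i : ℝ)⁻¹ * (∑ w : InfinitePlace K, (w.mult : ℝ) * c i w.1 +
    ∑ v ∈ hT.toFinset, c i (fv v)), ?_⟩
  intro x ρ hx hFx hρ hcamp hle
  have hFx' : ∀ i, (fun j => aeval x (F i j)) ≠ 0 := fun i => by
    obtain ⟨j, hj⟩ := hFx i
    exact ne_of_coord (i := j) hj
  obtain ⟨U, hU⟩ : ∃ U : Finset (HeightOneSpectrum (𝓞 K)), U = (nm_support x hx).toFinset ∪
      (Finset.univ.biUnion fun i => (nm_support _ (hFx' i)).toFinset) ∪
      (fv_support_finite hρ).toFinset ∪ hT.toFinset := ⟨_, rfl⟩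
  have hU1 : ∀ v, nm (fv v) x ≠ 1 → v ∈ U := by
    intro v hv
    rw [hU, Finset.mem_union, Finset.mem_union, Finset.mem_union]
    exact Or.inl (Or.inl (Or.inl ((Set.Finite.mem_toFinset _).2 hv)))
  have hU2 : ∀ i v, nm (fv v) (fun j => aeval x (F i j)) ≠ 1 → v ∈ U := by
    intro i v hv
    rw [hU, Finset.mem_union, Finset.mem_union, Finset.mem_union, Finset.mem_biUnion]
    exact Or.inl (Or.inl (Or.inr ⟨i, Finset.mem_univ _, (Set.Finite.mem_toFinset _).2 hv⟩))
  have hU3 : ∀ v, fv v ρ ≠ 1 → v ∈ U := by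
    intro v hv
    rw [hU, Finset.mem_union, Finset.mem_union]
    exact Or.inl (Or.inr ((Set.Finite.mem_toFinset _).2 hv))
  have hU4 : hT.toFinset ⊆ U := by
    rw [hU]
    exact Finset.subset_union_right
  have h1 : cnt T ρ = ∑ v ∈ U \ hT.toFinset, -Real.log (fv v ρ) := by
    unfold cnt
    have e1 : (fun v : HeightOneSpectrum (𝓞 K) => ∑ᶠ (_ : v ∉ T), -Real.log (fv v ρ)) =
        fun v => if v ∉ T then -Real.log (fv v ρ) else 0 := funext fun v => finsum_eq_if
    rw [e1, finsum_eq_sum_of_support_subset (s := U \ hT.toFinset)]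
    · refine Finset.sum_congr rfl fun v hv => ?_
      rw [Finset.mem_sdiff, Set.Finite.mem_toFinset] at hv
      rw [if_pos hv.2]
    · intro v hv
      rw [Finset.mem_coe, Finset.mem_sdiff, Set.Finite.mem_toFinset]
      by_cases hvT : v ∈ T
      · exfalso
        apply hv
        show (if v ∉ T then -Real.log (fv v ρ) else 0) = 0
        rw [if_neg (not_not.2 hvT)]
      · refine ⟨hU3 v fun h => hv ?_, hvT⟩
        show (if v ∉ T then -Real.log (fv v ρ) else 0) = 0
        rw [if_pos hvT, h, Real.log_one, neg_zero]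
  have hN : ∀ v : HeightOneSpectrum (𝓞 K), 0 ≤ Real.log (Ideal.absNorm v.asIdeal : ℝ) := by
    intro v
    refine Real.log_nonneg ?_
    have h5 : Ideal.absNorm v.asIdeal ≠ 0 := fun h => v.ne_bot (Ideal.absNorm_eq_zero_iff.1 h)
    exact_mod_cast Nat.one_le_iff_ne_zero.2 h5
  have hpos : ∀ i ∈ I, ∀ v ∉ T, 0 ≤ lh (F i) (d i) (fv v) x := by
    intro i hi v hv
    obtain ⟨k, hk⟩ := hcamp i hi v hv
    rw [hk]
    exact mul_nonneg (by positivity) (hN v)
  obtain ⟨g, hg⟩ : ∃ g : HeightOneSpectrum (𝓞 K) → ℝ, g = fun v =>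
      if v ∉ T ∧ ∃ i ∉ I, 0 < lh (F i) (d i) (fv v) x then
        Real.log (Ideal.absNorm v.asIdeal : ℝ) else 0 := ⟨_, rfl⟩
  have hg0 : ∀ v, 0 ≤ g v := by
    intro v
    rw [hg]
    show 0 ≤ if v ∉ T ∧ ∃ i ∉ I, 0 < lh (F i) (d i) (fv v) x then
        Real.log (Ideal.absNorm v.asIdeal : ℝ) else 0
    split_ifs
    · exact hN v
    · exact le_rfl
  have hgU : ∀ v, g v ≠ 0 → v ∈ U := by
    intro v hv
    by_contra hvU
    apply hv
    rw [hg]
    show (if v ∉ T ∧ ∃ i ∉ I, 0 < lh (F i) (d i) (fv v) x then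
        Real.log (Ideal.absNorm v.asIdeal : ℝ) else 0) = 0
    refine if_neg ?_
    rintro ⟨-, i, -, hi⟩
    have k1 : nm (fv v) x = 1 := by
      by_contra h
      exact hvU (hU1 v h)
    have k2 : nm (fv v) (fun j => aeval x (F i j)) = 1 := by
      by_contra h
      exact hvU (hU2 i v h)
    unfold lh at hi
    rw [k1, k2, one_pow, div_one, Real.log_one] at hi
    exact lt_irrefl _ hi
  have hgs : ∑ᶠ v : HeightOneSpectrum (𝓞 K), g v = ∑ v ∈ U, g v :=
    finsum_eq_sum_of_support_subset _ fun v hv => hgU v hv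
  have h2 : ∀ v ∈ U \ hT.toFinset, -Real.log (fv v ρ) ≤
      g v + ∑ i ∈ I, (μ i : ℝ)⁻¹ * lh (F i) (d i) (fv v) x := by
    intro v hv
    rw [Finset.mem_sdiff, Set.Finite.mem_toFinset] at hv
    refine (hle v hv.2).trans ?_
    have hnn : 0 ≤ ∑ i ∈ I, (μ i : ℝ)⁻¹ * lh (F i) (d i) (fv v) x :=
      Finset.sum_nonneg fun i hi => mul_nonneg (by positivity) (hpos i hi v hv.2)
    by_cases hex : ∃ i ∉ I, 0 < lh (F i) (d i) (fv v) x
    · have e1 : g v = Real.log (Ideal.absNorm v.asIdeal : ℝ) := by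
        rw [hg]
        exact if_pos ⟨hv.2, hex⟩
      rw [e1]
      exact (min_le_left _ _).trans (by linarith)
    · push Not at hex
      have hgv := hg0 v
      by_cases hall : ∀ i ∈ I, lh (F i) (d i) (fv v) x = 0
      · have h4 : ∑ i, lh (F i) (d i) (fv v) x ≤ 0 := by
          refine Finset.sum_nonpos fun i _ => ?_
          by_cases hi : i ∈ I
          · exact (hall i hi).le
          · exact hex i hi
        exact ((min_le_right _ _).trans h4).trans (by linarith)
      · push Not at hall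
        obtain ⟨i, hiI, hi⟩ := hall
        obtain ⟨k, hk⟩ := hcamp i hiI v hv.2
        have h3 : (μ i : ℝ)⁻¹ * lh (F i) (d i) (fv v) x ≤
            ∑ i ∈ I, (μ i : ℝ)⁻¹ * lh (F i) (d i) (fv v) x :=
          Finset.single_le_sum (f := fun i => (μ i : ℝ)⁻¹ * lh (F i) (d i) (fv v) x)
            (fun i hi => mul_nonneg (by positivity) (hpos i hi v hv.2)) hiI
        have h5 : (0 : ℝ) < (μ i : ℝ) := by exact_mod_cast hμ i hiI
        have h6 : (1 : ℝ) ≤ k := by
          have : k ≠ 0 := by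
            rintro rfl
            apply hi
            rw [hk]
            simp
          exact_mod_cast Nat.one_le_iff_ne_zero.2 this
        have h7 : (μ i : ℝ)⁻¹ * lh (F i) (d i) (fv v) x =
            k * Real.log (Ideal.absNorm v.asIdeal : ℝ) := by
          rw [hk]
          field_simp
        have h8 := mul_le_mul_of_nonneg_right h6 (hN v)
        refine (min_le_left _ _).trans ?_
        linarith
  have h3 : ∀ i, ∑ v ∈ U \ hT.toFinset, lh (F i) (d i) (fv v) x ≤
      d i * logHeight x - logHeight (fun j => aeval x (F i j)) +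
        (∑ w : InfinitePlace K, (w.mult : ℝ) * c i w.1 + ∑ v ∈ hT.toFinset, c i (fv v)) := by
    intro i
    rw [comp_sum (F i) (d i) x hx (hFx i) U hU1 (hU2 i), ← Finset.sum_sdiff hU4]
    have h4 : ∑ w : InfinitePlace K, (w.mult : ℝ) * -c i w.1 ≤
        ∑ w : InfinitePlace K, (w.mult : ℝ) * lh (F i) (d i) w.1 x :=
      Finset.sum_le_sum fun w _ => mul_le_mul_of_nonneg_left (hc i w.1 x hx (hFx i))
        (Nat.cast_nonneg _)
    have h5 : ∑ v ∈ hT.toFinset, -c i (fv v) ≤ ∑ v ∈ hT.toFinset, lh (F i) (d i) (fv v) x :=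
      Finset.sum_le_sum fun v _ => hc i (fv v) x hx (hFx i)
    simp only [mul_neg, Finset.sum_neg_distrib] at h4 h5
    linarith
  have h4 : ∑ v ∈ U \ hT.toFinset, g v ≤ ∑ᶠ v : HeightOneSpectrum (𝓞 K), g v := by
    rw [hgs]
    exact Finset.sum_le_sum_of_subset_of_nonneg Finset.sdiff_subset fun v _ _ => hg0 v
  have h5 : ∑ v ∈ U \ hT.toFinset, ∑ i ∈ I, (μ i : ℝ)⁻¹ * lh (F i) (d i) (fv v) x ≤
      ∑ i ∈ I, (μ i : ℝ)⁻¹ * (d i * logHeight x - logHeight (fun j => aeval x (F i j))) +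
        ∑ i ∈ I, (μ i : ℝ)⁻¹ * (∑ w : InfinitePlace K, (w.mult : ℝ) * c i w.1 +
          ∑ v ∈ hT.toFinset, c i (fv v)) := by
    rw [← Finset.sum_add_distrib, Finset.sum_comm]
    refine Finset.sum_le_sum fun i _ => ?_
    rw [← Finset.mul_sum, ← mul_add]
    exact mul_le_mul_of_nonneg_left (h3 i) (by positivity)
  have h6 := Finset.sum_le_sum h2
  rw [Finset.sum_add_distrib] at h6
  rw [h1]
  have e2 : (∑ᶠ v : HeightOneSpectrum (𝓞 K),
      if v ∉ T ∧ ∃ i ∉ I, 0 < lh (F i) (d i) (fv v) x then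
        Real.log (Ideal.absNorm v.asIdeal : ℝ) else 0) = ∑ᶠ v : HeightOneSpectrum (𝓞 K), g v := by
    rw [hg]
  rw [e2]
  linarith

end

end Pool.Agent.Run7.h720
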