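import Pool.Agent.Run7.h720.Prep2
import Pool.Agent.Run7.h720.Excess

/-!
Sparse integers at which the value of a polynomial is nearly powerful.
-/

set_option autoImplicit false
set_option linter.unusedSectionVars false

namespace Pool.Agent.Run7.h720

open NumberField IsDedekindDomain Height Filter Topology
open Pool.Agent.W180.OP (Pl av wt fv fv_support_finite wt_nonneg nrm)
open Pool.Agent.K1H83.VN

/-- splitting off simple roots -/
theorem split_roots {L : Type} [Field L] (P : Polynomial L) {s : ℕ} (α : Fin s → L)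
    (hα : Function.Injective α) (h0 : ∀ i, P.eval (α i) = 0)
    (h1 : ∀ i, (Polynomial.derivative P).eval (α i) ≠ 0) :
    ∃ Q : Polynomial L, P = (∏ i, (Polynomial.X - Polynomial.C (α i))) * Q ∧
      ∀ i, Q.eval (α i) ≠ 0 := by
  classical
  have hcop : Pairwise (Function.onFun IsCoprime fun i => Polynomial.X - Polynomial.C (α i)) :=
    Polynomial.pairwise_coprime_X_sub_C hα
  obtain ⟨Q, hQ⟩ : (∏ i, (Polynomial.X - Polynomial.C (α i))) ∣ P := by
    refine Finset.prod_dvd_of_coprime (fun i _ j _ hij => hcop hij) fun i _ => ?_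
    exact Polynomial.dvd_iff_isRoot.2 (h0 i)
  refine ⟨Q, hQ, fun i h => h1 i ?_⟩
  have h2 : P = (Polynomial.X - Polynomial.C (α i)) *
      ((∏ j ∈ Finset.univ.erase i, (Polynomial.X - Polynomial.C (α j))) * Q) := by
    rw [← mul_assoc, Finset.mul_prod_erase Finset.univ
      (fun j => Polynomial.X - Polynomial.C (α j)) (Finset.mem_univ i)]
    exact hQ
  rw [h2, Polynomial.derivative_mul]
  simp [h]

/-- **The theorem on nearly powerful values.** -/
theorem excess_main (P : Polynomial ℤ) (s : ℕ) (hs : 1 ≤ s) (a : Fin s → ℂ)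
    (ha : Function.Injective a) (h0 : ∀ i, Polynomial.aeval (a i) P = 0)
    (h1 : ∀ i, Polynomial.aeval (a i) (Polynomial.derivative P) ≠ 0)
    (K : Type) [Field K] [NumberField K] (Γ : Subgroup Kˣ) (hΓ : Γ.FG) (r m : ℕ) (B ε : ℝ)
    (hε : 0 < ε) :
    ∃ δ : ℝ, 0 < δ ∧ {n : ℤ | ∃ ρ c : ℤ, c ≠ 0 ∧ |(c : ℝ)| ≤ |(n : ℝ)| ^ ((s : ℝ) - 2 - ε) ∧
      ρ ^ 2 ∣ c * P.eval n ∧ P.eval n ∣ ρ ^ m ∧
      Short Γ r (B * |(n : ℝ)| ^ δ) (n : K) ∧ Short Γ r (B * |(n : ℝ)| ^ δ) (ρ : K)}.Finite := by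
  classical
  by_contra hcon
  push Not at hcon
  have hP : P ≠ 0 := by
    rintro rfl
    exact h1 ⟨0, hs⟩ (by simp)
  -- the sequence
  have hex : ∀ t : ℕ, ∃ n ρ c : ℤ, (t : ℝ) + 3 ≤ |(n : ℝ)| ∧ P.eval n ≠ 0 ∧ c ≠ 0 ∧
      |(c : ℝ)| ≤ |(n : ℝ)| ^ ((s : ℝ) - 2 - ε) ∧ ρ ^ 2 ∣ c * P.eval n ∧
      P.eval n ∣ ρ ^ m ∧ Short Γ r (B * |(n : ℝ)| ^ (1 / ((t : ℝ) + 1))) (n : K) ∧
      Short Γ r (B * |(n : ℝ)| ^ (1 / ((t : ℝ) + 1))) (ρ : K) := by
    intro t
    have hinf : {n : ℤ | ∃ ρ c : ℤ, c ≠ 0 ∧ |(c : ℝ)| ≤ |(n : ℝ)| ^ ((s : ℝ) - 2 - ε) ∧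
      ρ ^ 2 ∣ c * P.eval n ∧ P.eval n ∣ ρ ^ m ∧
      Short Γ r (B * |(n : ℝ)| ^ (1 / ((t : ℝ) + 1))) (n : K) ∧
      Short Γ r (B * |(n : ℝ)| ^ (1 / ((t : ℝ) + 1))) (ρ : K)}.Infinite :=
      hcon (1 / ((t : ℝ) + 1)) (by positivity)
    have hfin : ({n : ℤ | |(n : ℝ)| < (t : ℝ) + 3} ∪ {n : ℤ | P.eval n = 0}).Finite := by
      refine Set.Finite.union ?_ ?_
      · refine (Set.finite_Icc (-((t : ℤ) + 3)) ((t : ℤ) + 3)).subset fun n hn => ?_
        have h2 : |(n : ℝ)| < (t : ℝ) + 3 := hn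
        rw [abs_lt] at h2
        constructor
        · have h3 : -((t : ℝ) + 3) ≤ n := h2.1.le
          exact_mod_cast h3
        · have h3 : (n : ℝ) ≤ (t : ℝ) + 3 := h2.2.le
          exact_mod_cast h3
      · refine (P.roots.toFinset.finite_toSet).subset fun n hn => ?_
        rw [Finset.mem_coe, Multiset.mem_toFinset, Polynomial.mem_roots hP]
        exact hn
    obtain ⟨n, ⟨ρ, c, hn⟩, hn2⟩ := (hinf.sdiff hfin).nonempty
    rw [Set.mem_union, not_or] at hn2
    exact ⟨n, ρ, c, not_lt.1 hn2.1, hn2.2, hn⟩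
  choose n ρ c hbig hPn hc0 hcle hd1 hd2 hs1 hs2 using hex
  have hn3 : ∀ t, 3 ≤ |(n t : ℝ)| := fun t => by
    have := hbig t
    have h2 : (0 : ℝ) ≤ t := Nat.cast_nonneg t
    linarith
  have hn1 : ∀ t, 1 ≤ |(n t : ℝ)| := fun t => by
    have := hn3 t
    linarith
  have hlim : Tendsto (fun t => Real.log |(n t : ℝ)|) atTop atTop := by
    refine Real.tendsto_log_atTop.comp (tendsto_atTop_mono hbig ?_)
    exact tendsto_atTop_add_const_right _ _ tendsto_natCast_atTop_atTop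
  let σ : Sc := ⟨hyperfilter ℕ, _, hlim.mono_left Nat.hyperfilter_le_atTop⟩
  have hσL : ∀ t, σ.L t = Real.log |(n t : ℝ)| := fun t => rfl
  have h𝒰 : (σ.𝒰 : Filter ℕ) ≤ atTop := Nat.hyperfilter_le_atTop
  have hL0 : ∀ t, 0 ≤ σ.L t := fun t => by
    rw [hσL]
    exact Real.log_nonneg (hn1 t)
  -- the field
  obtain ⟨L, iF, iN, iA, α, hα, hroot⟩ := exists_field' P hP a ha h0 K
  obtain ⟨Q, hQ, hQα⟩ := split_roots (P.map (Int.castRingHom L)) α hα
    (fun i => by
      rw [Polynomial.eval_map]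
      exact (hroot P i).2 (h0 i))
    (fun i h => by
      rw [Polynomial.derivative_map, Polynomial.eval_map] at h
      exact h1 i ((hroot _ i).1 h))
  let T : Finset L := Q.support.image Q.coeff ∪ Finset.univ.image α
  have hT : ∀ j, Q.coeff j = 0 ∨ Q.coeff j ∈ T := by
    intro j
    by_cases hj : Q.coeff j = 0
    · exact Or.inl hj
    · right
      exact Finset.mem_union_left _ (Finset.mem_image.2
        ⟨j, Polynomial.mem_support_iff.2 hj, rfl⟩)
  obtain ⟨S, hS, hSΓ, hST⟩ := exists_places (algebraMap K L) Γ hΓ T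
  -- heights
  have hn0 : ∀ t, n t ≠ 0 := by
    intro t h
    have := hn1 t
    rw [h] at this
    norm_num at this
  have hhn : ∀ t, logHeight₁ ((n t : ℤ) : L) = Module.finrank ℚ L * σ.L t := fun t => by
    rw [height_int _ (hn0 t), hσL]
  have hρ0 : ∀ t, ρ t ≠ 0 := by
    intro t h
    have h2 := hd1 t
    rw [h, zero_pow two_ne_zero, zero_dvd_iff] at h2
    exact mul_ne_zero (hc0 t) (hPn t) h2
  have hlogc : ∀ t, Real.log |(c t : ℝ)| ≤ ((s : ℝ) - 2 - ε) * σ.L t := by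
    intro t
    have h2 : (1 : ℝ) ≤ |(c t : ℝ)| := by exact_mod_cast Int.one_le_abs (hc0 t)
    have h3 := Real.log_le_log (by linarith) (hcle t)
    rw [Real.log_rpow (by linarith [hn1 t])] at h3
    exact h3
  obtain ⟨C, hC0, hC⟩ := poly_growth P
  have hhρ : ∀ t, logHeight₁ ((ρ t : ℤ) : L) ≤ Module.finrank ℚ L * (s + C) * σ.L t := by
    intro t
    rw [height_int _ (hρ0 t), mul_assoc]
    refine mul_le_mul_of_nonneg_left ?_ (Nat.cast_nonneg _)
    have h2 := hC (n t) (hn3 t) (hPn t)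
    obtain ⟨w, hw⟩ := hd1 t
    have hw0 : w ≠ 0 := by
      rintro rfl
      rw [mul_zero] at hw
      exact mul_ne_zero (hc0 t) (hPn t) hw
    have hρ1 : (1 : ℝ) ≤ |(ρ t : ℝ)| := by exact_mod_cast Int.one_le_abs (hρ0 t)
    have hw1 : (1 : ℝ) ≤ |(w : ℝ)| := by exact_mod_cast Int.one_le_abs hw0
    have hc1 : (1 : ℝ) ≤ |(c t : ℝ)| := by exact_mod_cast Int.one_le_abs (hc0 t)
    have hP1 : (1 : ℝ) ≤ |((P.eval (n t) : ℤ) : ℝ)| := by
      exact_mod_cast Int.one_le_abs (hPn t)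
    have h3 : |(ρ t : ℝ)| ≤ |(c t : ℝ)| * |((P.eval (n t) : ℤ) : ℝ)| := by
      have h4 : (c t : ℝ) * ((P.eval (n t) : ℤ) : ℝ) = (ρ t : ℝ) ^ 2 * (w : ℝ) := by
        exact_mod_cast hw
      rw [← abs_mul, h4, abs_mul, abs_pow]
      nlinarith
    have h4 := Real.log_le_log (by linarith) h3
    rw [Real.log_mul (by linarith) (by linarith)] at h4
    have h5 := hlogc t
    have h6 := hL0 t
    have h7 : ((s : ℝ) - 2 - ε) * σ.L t ≤ s * σ.L t :=
      mul_le_mul_of_nonneg_right (by linarith) h6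
    rw [hσL] at h5 h7 ⊢
    linarith
  obtain ⟨c1', γ1, hx1, hc1, hγ1, hγB1⟩ := short_rep (L := L) h𝒰 hS Γ hSΓ r B
    (fun t => |(n t : ℝ)|) hn1 hσL (fun t => ((n t : ℤ) : K)) hs1
    ⟨Module.finrank ℚ L, Eventually.of_forall fun t => by
      rw [map_intCast]
      exact (hhn t).le⟩
  obtain ⟨c2', γ2, hx2, hc2, hγ2, hγB2⟩ := short_rep (L := L) h𝒰 hS Γ hSΓ r B
    (fun t => |(n t : ℝ)|) hn1 hσL (fun t => ((ρ t : ℤ) : K)) hs2
    ⟨_, Eventually.of_forall fun t => by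
      rw [map_intCast]
      exact hhρ t⟩
  simp only [map_intCast] at hx1 hx2
  obtain ⟨r', u, hu, hrep⟩ := exists_rep (S := S) (Sum.elim γ1 γ2)
    (by rintro (j | j); exacts [hγ1 j, hγ2 j]) (by rintro (j | j); exacts [hγB1 j, hγB2 j])
  obtain ⟨N, e, hN⟩ := exists_poly hu _ c1' γ1 hx1 hc1 fun j => hrep (Sum.inl j)
  obtain ⟨R, e', hR⟩ := exists_poly hu _ c2' γ2 hx2 hc2 fun j => hrep (Sum.inr j)
  -- the values
  have hval : ∀ t, (∏ i, ((n t : L) - α i)) * Q.eval (n t : L) =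
      ((P.eval (n t) : ℤ) : L) := by
    intro t
    have h2 := congrArg (Polynomial.eval (n t : L)) hQ
    rw [Polynomial.eval_mul, Polynomial.eval_prod] at h2
    simp only [Polynomial.eval_sub, Polynomial.eval_X, Polynomial.eval_C] at h2
    rw [← h2, Polynomial.eval_map]
    exact Polynomial.eval₂_at_intCast _ _
  have hF1 : ∏ i, (gm σ (fun t => ((n t : ℤ) : L)) - algebraMap L (G L σ) (α i)) =
      gm σ fun t => ∏ i, ((n t : L) - α i) := by
    have h2 : (fun t => ∏ i, ((n t : L) - α i)) = ∏ i, ((fun t => ((n t : ℤ) : L)) -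
        fun _ => α i) := by
      funext t
      rw [Finset.prod_apply]
      rfl
    rw [h2, map_prod]
    refine Finset.prod_congr rfl fun i _ => ?_
    rw [map_sub, alg_eq]
  have hnF : gm σ (fun t => ((n t : ℤ) : L)) ∉ FF L σ := by
    intro h
    rw [gm_mem_FF] at h
    obtain ⟨t, h2, h3⟩ := ((h (1 / 2) (by norm_num)).and (L_pos (σ := σ))).exists
    have h4 : logHeight₁ ((n t : ℤ) : L) ≤ 1 / 2 * σ.L t := h2
    rw [hhn t] at h4
    have h5 : (1 : ℝ) ≤ Module.finrank ℚ L := by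
      exact_mod_cast Nat.one_le_iff_ne_zero.2 (Module.finrank_pos (R := ℚ) (M := L)).ne'
    nlinarith
  have hcore := excess_core hu hS s hs (gm σ fun t => ((n t : ℤ) : L))
    (gm σ fun t => ((ρ t : ℤ) : L)) (gm σ fun t => ((c t : ℤ) : L)) hnF
    (by
      rw [gm_ne]
      refine Eventually.of_forall fun t => ?_
      exact_mod_cast hc0 t)
    (by
      rw [gm_ne]
      refine Eventually.of_forall fun t => ?_
      exact_mod_cast hρ0 t) α hα Q hQα
    (by
      rw [hF1, aeval_gm, ← map_mul, gm_ne]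
      refine Eventually.of_forall fun t => ?_
      show (∏ i, ((n t : L) - α i)) * Q.eval (n t : L) ≠ 0
      rw [hval]
      exact_mod_cast hPn t) (m + 1) (Nat.succ_ne_zero m)
    (by
      rw [hF1, aeval_gm]
      filter_upwards [rep_gm (σ := σ) (fun t => Q.eval ((n t : ℤ) : L)),
        rep_gm (σ := σ) (fun t => ∏ i, ((n t : L) - α i)),
        rep_gm (σ := σ) (fun t => ((ρ t : ℤ) : L)), rep_gm (σ := σ) (fun t => ((c t : ℤ) : L))]
        with t e1 e2 e3 e4 v hv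
      rw [e1, e2, e3, e4]
      have h2 := congrArg (fv v) (hval t)
      rw [map_mul] at h2
      refine ⟨⟨?_, fv_int v _⟩, ⟨?_, ?_⟩, ?_⟩
      · refine fv_eval v Q (fun j => ?_) _ (fv_int v _)
        rcases hT j with h2 | h2
        · rw [h2, map_zero]
          exact zero_le_one
        · exact hST v hv _ h2
      · rw [map_prod]
        refine Finset.prod_le_one (fun i _ => (fv v).nonneg _) fun i _ => ?_
        rw [sub_eq_add_neg]
        refine (fv_na v _ _).trans (max_le (fv_int v _) ?_)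
        rw [AbsoluteValue.map_neg]
        exact hST v hv _ (Finset.mem_union_right _ (Finset.mem_image_of_mem _
          (Finset.mem_univ i)))
      · rw [h2]
        obtain ⟨w, hw⟩ := hd1 t
        have h3 : ((c t : ℤ) : L) * ((P.eval (n t) : ℤ) : L) = ((ρ t : ℤ) : L) ^ 2 * (w : L) := by
          exact_mod_cast hw
        rw [← map_mul, h3, map_mul, map_pow]
        exact mul_le_of_le_one_right (pow_nonneg ((fv v).nonneg _) _) (fv_int v w)
      · rw [h2]
        obtain ⟨w, hw⟩ := (hd2 t).trans (pow_dvd_pow (ρ t) (Nat.le_succ m))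
        have h3 : ((ρ t : ℤ) : L) ^ (m + 1) = ((P.eval (n t) : ℤ) : L) * (w : L) := by
          exact_mod_cast hw
        rw [← map_pow, h3, map_mul]
        exact mul_le_of_le_one_right ((fv v).nonneg _) (fv_int v w)) N R e e' hN hR
  have hd : (1 : ℝ) ≤ Module.finrank ℚ L := by
    exact_mod_cast Nat.one_le_iff_ne_zero.2 (Module.finrank_pos (R := ℚ) (M := L)).ne'
  have hcs := hs_le_height (S := S) hS (gm σ fun t => ((c t : ℤ) : L)) (by
    rw [gm_ne]
    refine Eventually.of_forall fun t => ?_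
    exact_mod_cast hc0 t)
  obtain ⟨t, ⟨⟨⟨h2, h3⟩, h4⟩, h5⟩, h6⟩ := (((((hcore (ε / 2) (by positivity)).and
    (L_pos (σ := σ))).and hcs).and (rep_gm (σ := σ) (fun t => ((n t : ℤ) : L)))).and
    (rep_gm (σ := σ) (fun t => ((c t : ℤ) : L)))).exists
  have h2' : ((s : ℝ) - 2) * logHeight₁ (rep (gm σ fun t => ((n t : ℤ) : L)) t) -
    Pool.Agent.Run7.h720.hs S (gm σ fun t => ((c t : ℤ) : L)) t ≤ ε / 2 * σ.L t := h2
  rw [h6, height_int _ (hc0 t)] at h4
  rw [h5, hhn] at h2'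
  have h7 := mul_le_mul_of_nonneg_left (hlogc t) (show (0 : ℝ) ≤ Module.finrank ℚ L by positivity)
  have h8 : ε * σ.L t ≤ (Module.finrank ℚ L : ℝ) * (ε * σ.L t) :=
    le_mul_of_one_le_left (by positivity) hd
  have h9 : ((s : ℝ) - 2) * (Module.finrank ℚ L * σ.L t) -
    Module.finrank ℚ L * (((s : ℝ) - 2 - ε) * σ.L t) ≤ ε / 2 * σ.L t := by linarith
  have h10 : ((s : ℝ) - 2) * (Module.finrank ℚ L * σ.L t) -
    Module.finrank ℚ L * (((s : ℝ) - 2 - ε) * σ.L t) = Module.finrank ℚ L * (ε * σ.L t) := by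
    ring
  have h11 : 0 < ε * σ.L t := by positivity
  linarith

end Pool.Agent.Run7.h720
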