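import Pool.Agent.Run7.h720.P1Main
import Pool.Agent.Run7.h720.OkAbc

/-!
The abc inequality for quotients of short numbers.
-/

set_option autoImplicit false
set_option linter.unusedSectionVars false

namespace Pool.Agent.Run7.h720

open NumberField IsDedekindDomain Height
open Pool.Agent.W180.OP (Pl av wt fv fv_support_finite wt_nonneg nrm)
open Pool.Agent.K1H83.VN

section
variable {K : Type} [Field K] [NumberField K]

/-- the order of contact of `x` with `0`, `1` and `∞`, times `log N(v)` -/
noncomputable def bo (f : AbsoluteValue K ℝ) (x : K) : ℝ :=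
  |Real.log (f x)| + max 0 (-Real.log (f (1 - x)))

theorem bo_eq (f : AbsoluteValue K ℝ) (hf : IsNonarchimedean f) {p q : K} (hp : p ≠ 0)
    (hq : q ≠ 0) (hpq : p ≠ q) :
    3 * Real.log (max (f p) (f q)) - Real.log (f p) - Real.log (f (p - q)) - Real.log (f q) =
      bo f (p / q) := by
  have hfp := f.pos_iff.2 hp
  have hfq := f.pos_iff.2 hq
  have hfpq := f.pos_iff.2 (sub_ne_zero.2 hpq)
  have e1 : f (p / q) = f p / f q := map_div₀ f p q
  have e2 : f (1 - p / q) = f (p - q) / f q := by
    have : 1 - p / q = -(p - q) / q := by field_simp; ring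
    rw [this, map_div₀, map_neg_eq_map]
  unfold bo
  rw [e1, e2, Real.log_div hfp.ne' hfq.ne', Real.log_div hfpq.ne' hfq.ne']
  rcases lt_trichotomy (f p) (f q) with h | h | h
  · have h1 : f (p - q) = f q := by
      rw [sub_eq_add_neg, IsNonarchimedean.add_eq_max_of_ne hf (by rw [map_neg_eq_map]; exact h.ne),
        map_neg_eq_map, max_eq_right h.le]
    have h2 := Real.log_lt_log hfp h
    rw [max_eq_right h.le, h1, abs_of_neg (by linarith)]
    simp
    ring
  · have h1 : f (p - q) ≤ f q := by
      rw [sub_eq_add_neg]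
      refine (hf p (-q)).trans ?_
      rw [map_neg_eq_map, h, max_self]
    have h2 := Real.log_le_log hfpq h1
    rw [h, max_self, sub_self, abs_zero, max_eq_right (by linarith)]
    ring
  · have h1 : f (p - q) = f p := by
      rw [sub_eq_add_neg, IsNonarchimedean.add_eq_max_of_ne hf (by rw [map_neg_eq_map]; exact h.ne'),
        map_neg_eq_map, max_eq_left h.le]
    have h2 := Real.log_lt_log hfq h
    rw [max_eq_left h.le, h1, abs_of_pos (by linarith), max_eq_left (by linarith)]
    ring

end

/-- **The abc inequality for quotients of short numbers.** -/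
theorem ratio_abc (K : Type) [Field K] [NumberField K] (Γ : Subgroup Kˣ) (hΓ : Γ.FG)
    (T : Set (HeightOneSpectrum (𝓞 K))) (hT : T.Finite) (r M : ℕ) (B ε : ℝ) (hε : 0 < ε) :
    ∃ δ C : ℝ, 0 < δ ∧ ∀ p q ρ τ : K, p ≠ 0 → q ≠ 0 → p ≠ q → ρ ≠ 0 → τ ≠ 0 →
      (∀ v ∉ T, fv v ρ ≤ 1) → (∀ v ∉ T, fv v τ ≤ 1) →
      Short Γ r (B * mulHeight₁ (p / q) ^ δ) p → Short Γ r (B * mulHeight₁ (p / q) ^ δ) q →
      Short Γ r (B * mulHeight₁ (p / q) ^ δ) ρ →
      (∀ v ∉ T, bo (fv v) (p / q) ≤ -(M * Real.log (fv v ρ) + Real.log (fv v τ))) →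
      (1 - ε) * logHeight₁ (p / q) ≤ cnt T ρ + cnt T τ + C := by
  obtain ⟨δ, C, hδ, h⟩ := p1_main K Γ hΓ T hT 3 ![((0 : K), (1 : K)), (1, 1), (1, 0)]
    (by
      intro i
      fin_cases i
      · intro h
        exact one_ne_zero (congrArg Prod.snd h)
      · intro h
        exact one_ne_zero (congrArg Prod.snd h)
      · intro h
        exact one_ne_zero (congrArg Prod.fst h))
    (by
      intro i j hij
      fin_cases i <;> fin_cases j <;> simp at hij ⊢) (r + r) M B ε hε
  refine ⟨δ, C, hδ, fun p q ρ τ hp hq hpq hρ hτ hρT hτT hsp hsq hsρ hd => ?_⟩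
  have hR := short_pos hp hsp
  have hmh : mulHeight ![p, q] = mulHeight₁ (p / q) := (mulHeight₁_div_eq_mulHeight p q).symm
  have hlh : logHeight ![p, q] = logHeight₁ (p / q) := (logHeight₁_div_eq_logHeight p q).symm
  have key := h ![p, q] ρ τ (ne_of_coord (i := 0) hp) (by
      intro l
      fin_cases l
      · simpa using hp
      · simpa [sub_eq_zero] using hpq
      · simpa using hq) hρ hτ hρT hτT (by
      rw [hmh]
      exact short_pair hR hsp hsq) (by
      rw [hmh]
      exact short_add hR hsρ) (by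
      intro v hv
      refine le_trans (le_of_eq ?_) (hd v hv)
      rw [← bo_eq (fv v) (fv_na v) hp hq hpq, Fin.sum_univ_three]
      have hfp := (fv v).pos_iff.2 hp
      have hfq := (fv v).pos_iff.2 hq
      have hfpq := (fv v).pos_iff.2 (sub_ne_zero.2 hpq)
      have hm : 0 < max (fv v p) (fv v q) := lt_max_of_lt_left hfp
      have e1 : Real.log (max (fv v (![p, q] 0)) (fv v (![p, q] 1)) *
          max (fv v (![((0 : K), (1 : K)), (1, 1), (1, 0)] 0).1)
            (fv v (![((0 : K), (1 : K)), (1, 1), (1, 0)] 0).2) /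
          fv v (![p, q] 0 * (![((0 : K), (1 : K)), (1, 1), (1, 0)] 0).2 -
            ![p, q] 1 * (![((0 : K), (1 : K)), (1, 1), (1, 0)] 0).1)) =
          Real.log (max (fv v p) (fv v q)) - Real.log (fv v p) := by
        simp
        rw [Real.log_div hm.ne' hfp.ne']
      have e2 : Real.log (max (fv v (![p, q] 0)) (fv v (![p, q] 1)) *
          max (fv v (![((0 : K), (1 : K)), (1, 1), (1, 0)] 1).1)
            (fv v (![((0 : K), (1 : K)), (1, 1), (1, 0)] 1).2) /
          fv v (![p, q] 0 * (![((0 : K), (1 : K)), (1, 1), (1, 0)] 1).2 -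
            ![p, q] 1 * (![((0 : K), (1 : K)), (1, 1), (1, 0)] 1).1)) =
          Real.log (max (fv v p) (fv v q)) - Real.log (fv v (p - q)) := by
        simp
        rw [Real.log_div hm.ne' hfpq.ne']
      have e3 : Real.log (max (fv v (![p, q] 0)) (fv v (![p, q] 1)) *
          max (fv v (![((0 : K), (1 : K)), (1, 1), (1, 0)] 2).1)
            (fv v (![((0 : K), (1 : K)), (1, 1), (1, 0)] 2).2) /
          fv v (![p, q] 0 * (![((0 : K), (1 : K)), (1, 1), (1, 0)] 2).2 -
            ![p, q] 1 * (![((0 : K), (1 : K)), (1, 1), (1, 0)] 2).1)) =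
          Real.log (max (fv v p) (fv v q)) - Real.log (fv v q) := by
        simp
        rw [Real.log_div hm.ne' hfq.ne']
      rw [e1, e2, e3]
      ring)
  rw [hlh] at key
  push_cast at key
  linarith

end Pool.Agent.Run7.h720
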