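import Pool.Agent.Run7.h720.OkAbc

/-!
The abc inequality for sparse Gaussian integers.
-/

set_option autoImplicit false
set_option linter.unusedSectionVars false

namespace Pool.Agent.Run7.h720

open NumberField IsDedekindDomain Height

section
variable {L : Type} [Field L]

theorem gauss_decomp (z : GaussianInt) :
    z = (z.re : GaussianInt) + Zsqrtd.sqrtd * (z.im : GaussianInt) := by
  obtain ⟨x, y⟩ := z
  exact Zsqrtd.decompose

theorem gauss_sq (φ : GaussianInt →+* L) : φ Zsqrtd.sqrtd ^ 2 = -1 := by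
  rw [← map_pow, sq, Zsqrtd.dmuld]
  simp

theorem gauss_map (φ : GaussianInt →+* L) (z : GaussianInt) :
    φ z = (z.re : L) + φ Zsqrtd.sqrtd * (z.im : L) := by
  conv_lhs => rw [gauss_decomp z]
  rw [map_add, map_mul, map_intCast, map_intCast]

theorem gauss_int (φ : GaussianInt →+* L) (z : GaussianInt) : IsIntegral ℤ (φ z) := by
  rw [gauss_map]
  have h1 : IsIntegral ℤ (φ Zsqrtd.sqrtd) := by
    refine IsIntegral.of_pow (n := 2) (by norm_num) ?_
    rw [gauss_sq]
    exact isIntegral_one.neg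
  exact (isIntegral_algebraMap (R := ℤ) (A := L) (x := z.re)).add
    (h1.mul (isIntegral_algebraMap (R := ℤ) (A := L) (x := z.im)))

/-- the embedding into the ring of integers -/
noncomputable def gaussOk (φ : GaussianInt →+* L) : GaussianInt →+* 𝓞 L where
  toFun z := ⟨φ z, gauss_int φ z⟩
  map_one' := RingOfIntegers.ext (map_one φ)
  map_zero' := RingOfIntegers.ext (map_zero φ)
  map_add' x y := RingOfIntegers.ext (map_add φ x y)
  map_mul' x y := RingOfIntegers.ext (map_mul φ x y)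

theorem gaussOk_coe (φ : GaussianInt →+* L) (z : GaussianInt) :
    ((gaussOk φ z : 𝓞 L) : L) = φ z := rfl

theorem gauss_norm (f : GaussianInt →+* ℂ) (z : GaussianInt) :
    ‖f z‖ = ‖GaussianInt.toComplex z‖ := by
  have h1 := gauss_sq f
  have h2 : f Zsqrtd.sqrtd = Complex.I ∨ f Zsqrtd.sqrtd = -Complex.I := by
    refine sq_eq_sq_iff_eq_or_eq_neg.1 ?_
    rw [h1, Complex.I_sq]
  rw [gauss_map f z, GaussianInt.toComplex_def]
  rcases h2 with h | h
  · rw [h, mul_comm]
  · rw [h, ← Complex.norm_conj]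
    congr 1
    simp
    ring

end

theorem gauss_place {L : Type} [Field L] [NumberField L] (φ : GaussianInt →+* L)
    (w : InfinitePlace L) (z : GaussianInt) : w (φ z) = ‖GaussianInt.toComplex z‖ := by
  rw [← w.norm_embedding_eq, ← gauss_norm (w.embedding.comp φ) z]
  rfl

theorem Short.mono {L : Type} [Field L] [NumberField L] {Γ : Subgroup Lˣ} {r : ℕ} {R R' : ℝ}
    {z : L} (hR : R ≤ R') (h : Short Γ r R z) : Short Γ r R' z := by
  obtain ⟨c, γ, h1, h2, h3⟩ := h
  exact ⟨c, γ, h1, fun j => (h2 j).trans hR, h3⟩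

theorem one_le_toComplex (z : GaussianInt) (hz : z ≠ 0) : 1 ≤ ‖GaussianInt.toComplex z‖ := by
  have h1 : (1 : ℤ) ≤ z.norm := by
    have := GaussianInt.norm_pos.2 hz
    omega
  have h2 : ((z.norm : ℤ) : ℝ) = ‖GaussianInt.toComplex z‖ ^ 2 := by
    rw [GaussianInt.intCast_real_norm, Complex.normSq_eq_norm_sq]
  have h3 : (1 : ℝ) ≤ ‖GaussianInt.toComplex z‖ ^ 2 := by
    rw [← h2]
    exact_mod_cast h1
  nlinarith [norm_nonneg (GaussianInt.toComplex z)]

/-- **The abc inequality for sparse Gaussian integers.** -/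
theorem gauss_abc (L : Type) [Field L] [NumberField L] (φ : GaussianInt →+* L)
    (Γ : Subgroup Lˣ) (hΓ : Γ.FG) (r m : ℕ) (B ε : ℝ) (hε : 0 < ε) :
    ∃ δ C : ℝ, 0 < δ ∧ 0 < C ∧ ∀ (a b c ρ τ : GaussianInt) (H : ℝ),
      H = max ‖GaussianInt.toComplex a‖
        (max ‖GaussianInt.toComplex b‖ ‖GaussianInt.toComplex c‖) →
      IsCoprime a b → a + b = c → a * b * c ≠ 0 → ρ ≠ 0 → τ ≠ 0 →
      a * b * c ∣ ρ ^ m * τ → Short Γ r (B * H ^ δ) (φ a) → Short Γ r (B * H ^ δ) (φ b) →
      Short Γ r (B * H ^ δ) (φ ρ) →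
      H ≤ C * (‖GaussianInt.toComplex ρ‖ * ‖GaussianInt.toComplex τ‖) ^ (1 + ε) := by
  obtain ⟨ε', hε'⟩ : ∃ ε', ε' = ε / (1 + ε) := ⟨_, rfl⟩
  have hε'0 : 0 < ε' := by rw [hε']; positivity
  have hε'1 : (1 - ε') = 1 / (1 + ε) := by
    rw [hε']
    field_simp
    ring
  obtain ⟨δ', C', hδ', h⟩ := ol_abc L Γ hΓ r m (|B| * 2) ε' hε'0
  obtain ⟨d, hd⟩ : ∃ d : ℕ, d = Module.finrank ℚ L := ⟨_, rfl⟩
  have hd1 : (1 : ℝ) ≤ d := by
    rw [hd]
    exact_mod_cast Nat.one_le_iff_ne_zero.2 (Module.finrank_pos (R := ℚ) (M := L)).ne'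
  refine ⟨min (d * δ') 1, 2 * Real.exp ((1 + ε) * |C'|), by positivity, by positivity, ?_⟩
  intro a b c ρ τ H hH hab habc h0 hρ hτ hdiv hs1 hs2 hs3
  have ha : a ≠ 0 := fun h => h0 (by rw [h, zero_mul, zero_mul])
  have hb : b ≠ 0 := fun h => h0 (by rw [h, mul_zero, zero_mul])
  have hc : c ≠ 0 := fun h => h0 (by rw [h, mul_zero])
  have hinj : Function.Injective φ := by
    refine (injective_iff_map_eq_zero φ).2 fun z hz => ?_
    have w : InfinitePlace L := Classical.arbitrary _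
    have h1 := gauss_place φ w z
    rw [hz, map_zero] at h1
    exact GaussianInt.toComplex_eq_zero.1 (norm_eq_zero.1 h1.symm)
  have hinj' : Function.Injective (gaussOk φ) := fun x y hxy => hinj (by
    have := congrArg (fun z : 𝓞 L => (z : L)) hxy
    exact this)
  have hne : ∀ z : GaussianInt, z ≠ 0 → gaussOk φ z ≠ 0 := fun z hz h =>
    hz (hinj' (by rw [h, map_zero]))
  obtain ⟨M, hM⟩ : ∃ M, M = max ‖GaussianInt.toComplex a‖ ‖GaussianInt.toComplex b‖ := ⟨_, rfl⟩
  have hM1 : 1 ≤ M := by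
    rw [hM]
    exact le_max_of_le_left (one_le_toComplex a ha)
  have hMH : M ≤ H := by
    rw [hM, hH]
    exact max_le (le_max_left _ _) (le_max_of_le_right (le_max_left _ _))
  have hH2 : H ≤ 2 * M := by
    have h1 : ‖GaussianInt.toComplex c‖ ≤ ‖GaussianInt.toComplex a‖ +
        ‖GaussianInt.toComplex b‖ := by
      rw [← habc, map_add]
      exact norm_add_le _ _
    have h2 : ‖GaussianInt.toComplex a‖ ≤ M := by
      rw [hM]
      exact le_max_left _ _
    have h3 : ‖GaussianInt.toComplex b‖ ≤ M := by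
      rw [hM]
      exact le_max_right _ _
    rw [hH]
    refine max_le (by linarith) (max_le (by linarith) (by linarith))
  have hH1 : 1 ≤ H := hM1.trans hMH
  have hlogh : logHeight ![((gaussOk φ a : 𝓞 L) : L), ((gaussOk φ b : 𝓞 L) : L)] =
      d * Real.log M := by
    rw [height_pair_ok _ _ (hab.map (gaussOk φ)) (hne b hb)]
    simp only [gaussOk_coe, gauss_place]
    rw [← Finset.sum_mul, hd, ← InfinitePlace.sum_mult_eq (K := L), hM]
    push_cast
    rfl
  have hmul : mulHeight ![((gaussOk φ a : 𝓞 L) : L), ((gaussOk φ b : 𝓞 L) : L)] =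
      M ^ (d : ℝ) := by
    have h1 : mulHeight ![((gaussOk φ a : 𝓞 L) : L), ((gaussOk φ b : 𝓞 L) : L)] =
        Real.exp (d * Real.log M) := by
      rw [← hlogh, logHeight_eq_log_mulHeight, Real.exp_log (mulHeight_pos _)]
    rw [h1, Real.rpow_def_of_pos (by linarith), mul_comm]
  have hcnt : ∀ z : GaussianInt, z ≠ 0 → cnt ∅ ((gaussOk φ z : 𝓞 L) : L) =
      d * Real.log ‖GaussianInt.toComplex z‖ := by
    intro z hz
    rw [cnt_ok _ (by exact_mod_cast hne z hz)]
    simp only [gaussOk_coe, gauss_place]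
    rw [← Finset.sum_mul, hd, ← InfinitePlace.sum_mult_eq (K := L)]
    push_cast
    rfl
  have hR : B * H ^ min (d * δ') 1 ≤ |B| * 2 *
      mulHeight ![((gaussOk φ a : 𝓞 L) : L), ((gaussOk φ b : 𝓞 L) : L)] ^ δ' := by
    rw [hmul, ← Real.rpow_mul (by linarith)]
    have h1 : H ^ min (d * δ') 1 ≤ (2 * M) ^ min (d * δ') 1 :=
      Real.rpow_le_rpow (by linarith) hH2 (by positivity)
    have h2 : (2 * M) ^ min ((d : ℝ) * δ') 1 ≤ 2 * M ^ ((d : ℝ) * δ') := by
      rw [Real.mul_rpow (by norm_num) (by linarith)]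
      refine mul_le_mul ?_ (Real.rpow_le_rpow_of_exponent_le hM1 (min_le_left _ _))
        (by positivity) (by norm_num)
      calc (2 : ℝ) ^ min ((d : ℝ) * δ') 1 ≤ 2 ^ (1 : ℝ) :=
            Real.rpow_le_rpow_of_exponent_le (by norm_num) (min_le_right _ _)
        _ = 2 := Real.rpow_one 2
    calc B * H ^ min (d * δ') 1 ≤ |B| * H ^ min (d * δ') 1 :=
          mul_le_mul_of_nonneg_right (le_abs_self B) (by positivity)
      _ ≤ |B| * (2 * M ^ ((d : ℝ) * δ')) :=
          mul_le_mul_of_nonneg_left (h1.trans h2) (abs_nonneg _)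
      _ = |B| * 2 * M ^ ((d : ℝ) * δ') := by ring
  have hmain := h (gaussOk φ a) (gaussOk φ b) (gaussOk φ ρ) (gaussOk φ τ)
    (hab.map (gaussOk φ)) (hne a ha) (hne b hb) (by
      rw [← map_add, habc]
      exact hne c hc) (hne ρ hρ) (hne τ hτ) (by
      rw [← map_add, habc, ← map_mul, ← map_mul, ← map_pow, ← map_mul]
      exact map_dvd _ hdiv) (hs1.mono hR) (hs2.mono hR) (hs3.mono hR)
  rw [hlogh, hcnt ρ hρ, hcnt τ hτ, hε'1] at hmain
  have hρ1 := one_le_toComplex ρ hρ
  have hτ1 := one_le_toComplex τ hτ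
  have h5 : Real.log M ≤ (1 + ε) * |C'| + (1 + ε) *
      (Real.log ‖GaussianInt.toComplex ρ‖ + Real.log ‖GaussianInt.toComplex τ‖) := by
    have h6 : (d : ℝ) * Real.log M ≤ (1 + ε) * (d * Real.log ‖GaussianInt.toComplex ρ‖ +
        d * Real.log ‖GaussianInt.toComplex τ‖ + C') := by
      have h7 := mul_le_mul_of_nonneg_left hmain (by positivity : (0 : ℝ) ≤ 1 + ε)
      refine le_trans (le_of_eq ?_) h7
      field_simp
    have h8 : C' ≤ d * |C'| := (le_abs_self C').trans (le_mul_of_one_le_left (abs_nonneg _) hd1)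
    have h9 : (d : ℝ) * Real.log M ≤ d * ((1 + ε) * |C'| + (1 + ε) *
        (Real.log ‖GaussianInt.toComplex ρ‖ + Real.log ‖GaussianInt.toComplex τ‖)) := by
      refine h6.trans ?_
      have h10 := mul_le_mul_of_nonneg_left h8 (by positivity : (0 : ℝ) ≤ 1 + ε)
      linarith
    exact le_of_mul_le_mul_left h9 (by linarith)
  have h6 : M ≤ Real.exp ((1 + ε) * |C'|) *
      (‖GaussianInt.toComplex ρ‖ * ‖GaussianInt.toComplex τ‖) ^ (1 + ε) := by
    rw [← Real.log_le_log_iff (by linarith) (by positivity), Real.log_mul (Real.exp_pos _).ne'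
      (by positivity), Real.log_exp, Real.log_rpow (by positivity),
      Real.log_mul (by linarith) (by linarith)]
    exact h5
  calc H ≤ 2 * M := hH2
    _ ≤ 2 * (Real.exp ((1 + ε) * |C'|) *
      (‖GaussianInt.toComplex ρ‖ * ‖GaussianInt.toComplex τ‖) ^ (1 + ε)) :=
        mul_le_mul_of_nonneg_left h6 (by norm_num)
    _ = _ := by ring

end Pool.Agent.Run7.h720
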