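import Mathlib

/-!
Linear algebra for the subspace theorem with moving forms: spaces of monomials of slow growth, and
the exchange of vectors.
-/

set_option autoImplicit false

namespace Pool.Agent.Run7.h720

open Filter Topology

/-! ## a growth argument -/

theorem growth (f : ℕ → ℕ) (N : ℕ) (h0 : ∀ r, 0 < f r) (hN : ∀ r, f r ≤ (r + 1) ^ N)
    (η : ℝ) (hη : 0 < η) : ∃ r, (f (r + 1) : ℝ) ≤ (1 + η) * f r := by
  by_contra h
  push Not at h
  have h1 : ∀ r, (1 + η) ^ r ≤ (f r : ℝ) := by
    intro r
    induction r with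
    | zero =>
      have h00 := h0 0
      rw [pow_zero]
      exact_mod_cast h00
    | succ r ih =>
      calc (1 + η) ^ (r + 1) = (1 + η) * (1 + η) ^ r := by ring
        _ ≤ (1 + η) * f r := by gcongr
        _ ≤ f (r + 1) := (h r).le
  have h2 := tendsto_pow_const_div_const_pow_of_one_lt N (show (1 : ℝ) < 1 + η by linarith)
  have h3 := (tendsto_order.1 h2).2 (1 / (1 + η)) (by positivity)
  obtain ⟨n0, hn0⟩ := eventually_atTop.1 h3
  have h4 := hn0 (n0 + 1) (by omega)
  have h5 : (0 : ℝ) < (1 + η) ^ (n0 + 1) := by positivity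
  rw [div_lt_div_iff₀ h5 (by positivity)] at h4
  have h6 := h1 n0
  have h7 : (f n0 : ℝ) ≤ ((n0 : ℝ) + 1) ^ N := by exact_mod_cast hN n0
  have h8 : (1 + η) ^ (n0 + 1) ≤ ((n0 : ℝ) + 1) ^ N * (1 + η) := by
    rw [pow_succ]
    gcongr
    linarith
  push_cast at h4
  linarith

/-! ## the spaces of Steinmetz -/

section W
variable {k K : Type} [Field k] [Field K] [Algebra k K] {T : Type} [Fintype T] (a : T → K)

/-- the monomials -/
def smon (r : ℕ) (n : T → Fin (r + 1)) : K := ∏ t, a t ^ (n t : ℕ)

variable (k) in
/-- their span -/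
noncomputable def sW (r : ℕ) : Submodule k K := Submodule.span k (Set.range (smon a r))

theorem sW_fin (r : ℕ) : FiniteDimensional k (sW k a r) :=
  FiniteDimensional.span_of_finite k (Set.finite_range _)

theorem one_mem_sW (r : ℕ) : (1 : K) ∈ sW k a r := by
  apply Submodule.subset_span
  exact ⟨fun _ => 0, by simp [smon]⟩

theorem sW_le (r : ℕ) : sW k a r ≤ sW k a (r + 1) := by
  unfold sW
  rw [Submodule.span_le]
  rintro _ ⟨n, rfl⟩
  apply Submodule.subset_span
  exact ⟨fun t => (n t).castSucc, by simp [smon]⟩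

theorem mul_mem_sW [DecidableEq T] (r : ℕ) (t : T) (x : K) (hx : x ∈ sW k a r) :
    a t * x ∈ sW k a (r + 1) := by
  unfold sW at hx
  induction hx using Submodule.span_induction with
  | mem x hx =>
    obtain ⟨n, rfl⟩ := hx
    apply Submodule.subset_span
    refine ⟨fun s => if s = t then (n s).succ else (n s).castSucc, ?_⟩
    unfold smon
    rw [← Finset.mul_prod_erase _ _ (Finset.mem_univ t),
      ← Finset.mul_prod_erase _ (fun s => a s ^ (n s : ℕ)) (Finset.mem_univ t), ← mul_assoc]
    congr 1
    · simp [pow_succ, mul_comm]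
    · apply Finset.prod_congr rfl
      intro s hs
      simp [Finset.ne_of_mem_erase hs]
  | zero => simp
  | add x y _ _ hx hy => rw [mul_add]; exact Submodule.add_mem _ hx hy
  | smul c x _ hx => rw [mul_smul_comm]; exact Submodule.smul_mem _ _ hx

theorem finrank_sW (r : ℕ) : Module.finrank k (sW k a r) ≤ (r + 1) ^ Fintype.card T := by
  classical
  have h := finrank_range_le_card (R := k) (smon a r)
  rw [Fintype.card_fun, Fintype.card_fin] at h
  exact h

variable (k) in
theorem exists_sW (η : ℝ) (hη : 0 < η) : ∃ W W' : Submodule k K, FiniteDimensional k W ∧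
    FiniteDimensional k W' ∧ W ≤ W' ∧ (1 : K) ∈ W ∧ (∀ t, ∀ x ∈ W, a t * x ∈ W') ∧
    0 < Module.finrank k W ∧ (Module.finrank k W' : ℝ) ≤ (1 + η) * Module.finrank k W := by
  classical
  have hpos : ∀ r, 0 < Module.finrank k (sW k a r) := by
    intro r
    have := sW_fin (k := k) a r
    rw [Module.finrank_pos_iff_exists_ne_zero]
    refine ⟨⟨1, one_mem_sW a r⟩, fun h => ?_⟩
    exact one_ne_zero (congrArg Subtype.val h)
  obtain ⟨r, hr⟩ := growth (fun r => Module.finrank k (sW k a r)) (Fintype.card T) hpos
    (finrank_sW a) η hη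
  exact ⟨sW k a r, sW k a (r + 1), sW_fin a r, sW_fin a (r + 1), sW_le a r, one_mem_sW a r,
    fun t x hx => mul_mem_sW a r t x hx, hpos r, hr⟩

end W

/-! ## the exchange -/

theorem extend {k G : Type} [Field k] [AddCommGroup G] [Module k G] {α β : Type} [Fintype α]
    [Fintype β] (u : α → G) (y : β → G) (hu : LinearIndependent k u)
    (hy : LinearIndependent k y)
    (hm : ∀ i, u i ∈ Submodule.span k (Set.range y)) (e : ℕ)
    (he : e = Fintype.card β - Fintype.card α) :
    ∃ g : Fin e → G, (∀ k, g k ∈ Set.range y) ∧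
      LinearIndependent k (Sum.elim u g) ∧ Fintype.card α ≤ Fintype.card β := by
  classical
  have hus : LinearIndepOn k id (Set.range u) := hu.linearIndepOn_id
  obtain ⟨B, hBt, hsB, htB, hB⟩ := exists_linearIndepOn_id_extension hus
    (Set.subset_union_left : Set.range u ⊆ Set.range u ∪ Set.range y)
  have hfin : B.Finite := ((Set.finite_range u).union (Set.finite_range y)).subset hBt
  have : Fintype B := hfin.fintype
  have hspan : Submodule.span k B = Submodule.span k (Set.range y) := by
    apply le_antisymm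
    · rw [Submodule.span_le]
      intro x hx
      rcases hBt hx with h | h
      · obtain ⟨i, rfl⟩ := h
        exact hm i
      · exact Submodule.subset_span h
    · rw [Submodule.span_le]
      exact Set.subset_union_right.trans htB
  have hcard : B.toFinset.card = Fintype.card β := by
    rw [← finrank_span_set_eq_card hB, hspan, finrank_span_eq_card hy]
  have hsub : Finset.univ.image u ⊆ B.toFinset := by
    intro x hx
    obtain ⟨i, -, rfl⟩ := Finset.mem_image.1 hx
    rw [Set.mem_toFinset]
    exact hsB ⟨i, rfl⟩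
  have hcu : (Finset.univ.image u).card = Fintype.card α := by
    rw [Finset.card_image_of_injective _ hu.injective, Finset.card_univ]
  have hle : Fintype.card α ≤ Fintype.card β := by
    rw [← hcard, ← hcu]; exact Finset.card_le_card hsub
  set R := B.toFinset \ Finset.univ.image u with hR
  have hRc : R.card = e := by
    rw [hR, Finset.card_sdiff_of_subset hsub, hcard, hcu, he]
  let en := R.equivFinOfCardEq hRc
  have hmemR : ∀ k, (en.symm k : G) ∈ B ∧ (en.symm k : G) ∉ Set.range u := by
    intro k
    have this := Finset.mem_sdiff.1 (show ((en.symm k : R) : G) ∈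
      B.toFinset \ Finset.univ.image u from (en.symm k).2)
    rw [Set.mem_toFinset] at this
    refine ⟨this.1, fun h => this.2 ?_⟩
    obtain ⟨i, hi⟩ := h
    exact Finset.mem_image.2 ⟨i, Finset.mem_univ _, hi⟩
  refine ⟨fun k => (en.symm k : G), ?_, ?_, hle⟩
  · intro k
    rcases hBt (hmemR k).1 with h | h
    · exact absurd h (hmemR k).2
    · exact h
  · let F : α ⊕ Fin e → B :=
      Sum.elim (fun i => ⟨u i, hsB ⟨i, rfl⟩⟩) (fun k => ⟨(en.symm k : G), (hmemR k).1⟩)
    have hF : Function.Injective F := by
      rintro (i | k) (j | l) h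
      · have := congrArg Subtype.val h
        exact congrArg Sum.inl (hu.injective this)
      · have := congrArg Subtype.val h
        exact absurd ⟨i, this⟩ (hmemR l).2
      · have := congrArg Subtype.val h
        exact absurd ⟨j, this.symm⟩ (hmemR k).2
      · have := congrArg Subtype.val h
        exact congrArg Sum.inr (en.symm.injective (Subtype.ext this))
    have h2 : LinearIndependent k (fun x : B => (x : G)) := hB
    have h3 := h2.comp F hF
    convert h3 using 1
    funext x
    rcases x with i | k <;> rfl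

/-- a basis of a subspace as a family of vectors -/
theorem exists_fam {k V : Type} [Field k] [AddCommGroup V] [Module k V] (W : Submodule k V)
    [FiniteDimensional k W] : ∃ b : Fin (Module.finrank k W) → V, LinearIndependent k b ∧
      (∀ i, b i ∈ W) ∧ ∀ x ∈ W, x ∈ Submodule.span k (Set.range b) := by
  refine ⟨fun s => (Module.finBasis k W s : V), ?_, fun i => (Module.finBasis k W i).2, ?_⟩
  · exact (Module.finBasis k W).linearIndependent.map' W.subtype (Submodule.ker_subtype _)
  · intro x hx
    have e1 := (Module.finBasis k W).span_eq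
    have e2 : (⟨x, hx⟩ : W) ∈ Submodule.span k (Set.range (Module.finBasis k W)) := by
      rw [e1]; trivial
    have e3 := Submodule.mem_map_of_mem (f := W.subtype) e2
    rw [Submodule.map_span, ← Set.range_comp] at e3
    exact e3

/-- the spaces of Steinmetz, in terms of families -/
theorem exists_sfam {k K : Type} [Field k] [Field K] [Algebra k K] {T : Type} [Fintype T]
    (a : T → K) (η : ℝ) (hη : 0 < η) :
    ∃ (d d' : ℕ) (b : Fin d → K) (b' : Fin d' → K) (W' : Submodule k K), d ≤ d' ∧ 0 < d ∧
      (d' : ℝ) ≤ (1 + η) * d ∧ LinearIndependent k b ∧ LinearIndependent k b' ∧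
      (∀ x ∈ W', x ∈ Submodule.span k (Set.range b')) ∧ ∀ t s, a t * b s ∈ W' := by
  obtain ⟨W, W', hWf, hWf', hWW, -, hmulW, hd0, hdd⟩ := exists_sW k a η hη
  obtain ⟨b, hb, hbW, -⟩ := exists_fam W
  obtain ⟨b', hb', -, hspan'⟩ := exists_fam W'
  exact ⟨_, _, b, b', W', Submodule.finrank_mono hWW, hd0, hdd, hb, hb', hspan',
    fun t s => hmulW t _ (hbW s)⟩

/-- the products of bases -/
theorem smul_fam {k K V : Type} [Field k] [Field K] [Algebra k K] [AddCommGroup V] [Module K V]
    [Module k V] [IsScalarTower k K V] {ι : Type} {d' : ℕ} {b' : Fin d' → K} {z : ι → V}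
    {W' : Submodule k K} (hspan : ∀ x ∈ W', x ∈ Submodule.span k (Set.range b')) :
    ∀ c ∈ W', ∀ j, c • z j ∈
      Submodule.span k (Set.range fun p : Fin d' × ι => b' p.1 • z p.2) := by
  intro c hc0 j
  have hc1 := hspan c hc0
  clear hc0
  induction hc1 using Submodule.span_induction with
  | mem x hx =>
    obtain ⟨s, rfl⟩ := hx
    exact Submodule.subset_span ⟨(s, j), rfl⟩
  | zero => rw [zero_smul]; exact Submodule.zero_mem _
  | add x y _ _ hx hy => rw [add_smul]; exact Submodule.add_mem _ hx hy
  | smul c x _ hx => rw [smul_assoc]; exact Submodule.smul_mem _ _ hx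

/-- the families in the theorem with moving forms -/
theorem big_fam {k K V : Type} [Field k] [Field K] [Algebra k K] [AddCommGroup V] [Module K V]
    [Module k V] [IsScalarTower k K V] {ι κ : Type} [Fintype ι] [Fintype κ]
    (hc : Fintype.card κ = Fintype.card ι) {d d' : ℕ} {b : Fin d → K}
    {b' : Fin d' → K} (hb : LinearIndependent k b) (hb' : LinearIndependent k b')
    {W' : Submodule k K} (hspan : ∀ x ∈ W', x ∈ Submodule.span k (Set.range b'))
    {z : ι → V} (hz : LinearIndependent K z) {y : κ → V} (hy : LinearIndependent K y)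
    (m : κ → ι → K) (hm : ∀ i, ∑ j, m i j • z j = y i) (hmb : ∀ s i j, m i j * b s ∈ W') :
    LinearIndependent k (fun p : Fin d' × ι => b' p.1 • z p.2) ∧
      ∃ g : Fin ((d' - d) * Fintype.card ι) → V,
        (∀ l, ∃ s j, g l = b' s • z j) ∧
        LinearIndependent k (Sum.elim (fun p : Fin d × κ => b p.1 • y p.2) g) ∧
        ∀ i, Sum.elim (fun p : Fin d × κ => b p.1 • y p.2) g i ∈
          Submodule.span k (Set.range fun p : Fin d' × ι => b' p.1 • z p.2) := by
  have hX : LinearIndependent k (fun p : Fin d' × ι => b' p.1 • z p.2) :=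
    linearIndependent_smul hb' hz
  have hu : LinearIndependent k (fun p : Fin d × κ => b p.1 • y p.2) :=
    linearIndependent_smul hb hy
  have hmem := smul_fam (V := V) (z := z) hspan
  have hum : ∀ i : Fin d × κ, b i.1 • y i.2 ∈
      Submodule.span k (Set.range fun p : Fin d' × ι => b' p.1 • z p.2) := by
    rintro ⟨s, i⟩
    show b s • y i ∈ _
    rw [← hm i, Finset.smul_sum]
    apply Submodule.sum_mem
    intro j _
    rw [smul_smul]
    apply hmem
    rw [mul_comm]
    exact hmb s i j
  obtain ⟨g, hg1, hg2, -⟩ := extend (fun p : Fin d × κ => b p.1 • y p.2)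
    (fun p : Fin d' × ι => b' p.1 • z p.2) hu hX hum ((d' - d) * Fintype.card ι) (by
      rw [Fintype.card_prod, Fintype.card_prod, Fintype.card_fin, Fintype.card_fin, hc,
        Nat.sub_mul])
  refine ⟨hX, g, fun l => ?_, hg2, ?_⟩
  · obtain ⟨⟨s, j⟩, h⟩ := hg1 l
    exact ⟨s, j, h.symm⟩
  · rintro (i | i)
    · exact hum i
    · obtain ⟨p, hp⟩ := hg1 i
      exact Submodule.subset_span ⟨p, hp⟩

end Pool.Agent.Run7.h720
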