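import Pool.Agent.Run7.h720.Ufd

/-!
Substitution of powers of one variable in a polynomial in several variables, homogenisation.
-/

set_option autoImplicit false

namespace Pool.Agent.Run7.h720

open MvPolynomial

/-- a linear functional which separates the elements of a finite set of exponents -/
theorem exists_weight {r : ℕ} (E : Finset (Fin r →₀ ℕ)) :
    ∃ l : Fin r → ℕ, ∀ e ∈ E, ∀ e' ∈ E, ∑ j, e j * l j = ∑ j, e' j * l j → e = e' := by
  classical
  let q : (Fin r →₀ ℕ) × (Fin r →₀ ℕ) → Polynomial ℤ := fun p =>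
    ∑ j : Fin r, Polynomial.C ((p.1 j : ℤ) - p.2 j) * Polynomial.X ^ (j : ℕ)
  have hq : ∀ p : (Fin r →₀ ℕ) × (Fin r →₀ ℕ), p.1 ≠ p.2 → q p ≠ 0 := by
    intro p hp h0
    apply hp
    ext i
    have h1 : (q p).coeff (i : ℕ) = (p.1 i : ℤ) - p.2 i := by
      simp only [q]
      rw [Polynomial.finsetSum_coeff, Finset.sum_eq_single i]
      · rw [Polynomial.coeff_C_mul, Polynomial.coeff_X_pow, if_pos rfl, mul_one]
      · intro j _ hj
        rw [Polynomial.coeff_C_mul, Polynomial.coeff_X_pow, if_neg, mul_zero]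
        intro h
        exact hj (Fin.ext h.symm)
      · intro h
        exact absurd (Finset.mem_univ i) h
    rw [h0, Polynomial.coeff_zero] at h1
    omega
  let Z : Polynomial ℤ := ∏ p ∈ (E ×ˢ E).filter (fun p => p.1 ≠ p.2), q p
  have hZ : Z ≠ 0 := Finset.prod_ne_zero_iff.2 fun p hp => hq p (Finset.mem_filter.1 hp).2
  obtain ⟨B, hB⟩ : ∃ B : ℕ, Z.eval (B : ℤ) ≠ 0 := by
    by_contra hcon
    push Not at hcon
    apply hZ
    refine Polynomial.eq_zero_of_infinite_isRoot Z ?_
    refine (Set.infinite_range_of_injective (f := fun n : ℕ => (n : ℤ)) Nat.cast_injective).mono ?_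
    rintro _ ⟨n, rfl⟩
    exact hcon n
  refine ⟨fun j => B ^ (j : ℕ), fun e he e' he' h => ?_⟩
  by_contra hne
  apply hB
  have h1 : (e, e') ∈ (E ×ˢ E).filter (fun p => p.1 ≠ p.2) :=
    Finset.mem_filter.2 ⟨Finset.mem_product.2 ⟨he, he'⟩, hne⟩
  have h2 : (q (e, e')).eval (B : ℤ) = 0 := by
    simp only [q]
    rw [Polynomial.eval_finsetSum]
    simp only [Polynomial.eval_mul, Polynomial.eval_C, Polynomial.eval_pow, Polynomial.eval_X,
      sub_mul, Finset.sum_sub_distrib]
    rw [sub_eq_zero]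
    exact_mod_cast h
  show Z.eval (B : ℤ) = 0
  rw [Polynomial.eval_prod]
  exact Finset.prod_eq_zero h1 h2

variable {F : Type} [Field F] {r : ℕ}

/-- substitution of powers of one variable -/
noncomputable def spec (l : Fin r → ℕ) : MvPolynomial (Fin r) F →ₐ[F] Polynomial F :=
  MvPolynomial.aeval fun j => (Polynomial.X : Polynomial F) ^ (l j)

theorem spec_monomial (l : Fin r → ℕ) (e : Fin r →₀ ℕ) (c : F) :
    spec l (monomial e c) = Polynomial.C c * Polynomial.X ^ (∑ j, e j * l j) := by
  unfold spec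
  rw [MvPolynomial.aeval_monomial, Finsupp.prod_fintype _ _ (fun i => pow_zero _)]
  have h1 : ∏ i, ((Polynomial.X : Polynomial F) ^ l i) ^ (e i) =
      Polynomial.X ^ (∑ j, e j * l j) := by
    rw [← Finset.prod_pow_eq_pow_sum]
    exact Finset.prod_congr rfl fun i _ => by rw [← pow_mul, mul_comm]
  rw [h1]
  rfl

theorem spec_coeff (l : Fin r → ℕ) (N : MvPolynomial (Fin r) F)
    (hl : ∀ e ∈ N.support, ∀ e' ∈ N.support, ∑ j, e j * l j = ∑ j, e' j * l j → e = e')
    (e : Fin r →₀ ℕ) (he : e ∈ N.support) :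
    (spec l N).coeff (∑ j, e j * l j) = coeff e N := by
  classical
  have h1 : spec l N = ∑ e ∈ N.support,
      Polynomial.C (coeff e N) * Polynomial.X ^ (∑ j, e j * l j) := by
    conv_lhs => rw [← MvPolynomial.support_sum_monomial_coeff N]
    rw [map_sum]
    exact Finset.sum_congr rfl fun e _ => spec_monomial l e _
  rw [h1, Polynomial.finsetSum_coeff, Finset.sum_eq_single e]
  · rw [Polynomial.coeff_C_mul, Polynomial.coeff_X_pow, if_pos rfl, mul_one]
  · intro e' he' hne
    rw [Polynomial.coeff_C_mul, Polynomial.coeff_X_pow, if_neg, mul_zero]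
    intro h
    exact hne (hl e' he' e he h.symm)
  · intro h
    exact absurd he h

/-- the product of the variables -/
noncomputable def vars' (F : Type) [Field F] (r : ℕ) : MvPolynomial (Fin r) F := ∏ j, X j

theorem spec_vars (l : Fin r → ℕ) : spec l (vars' F r) = Polynomial.X ^ (∑ j, l j) := by
  unfold vars' spec
  rw [map_prod, ← Finset.prod_pow_eq_pow_sum]
  exact Finset.prod_congr rfl fun i _ => MvPolynomial.aeval_X _ _

/-- a monomial divides a power of the product of the variables -/
theorem irr_monomial (π : MvPolynomial (Fin r) F) (hπ : Irreducible π) (e : Fin r →₀ ℕ)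
    (h : π ∣ monomial e (1 : F)) : π ∣ vars' F r := by
  classical
  rw [MvPolynomial.monomial_eq, Finsupp.prod_fintype _ _ (fun i => pow_zero _), map_one,
    one_mul] at h
  obtain ⟨i, -, hi⟩ := hπ.prime.exists_mem_finset_dvd h
  have h1 : π ∣ X i := hπ.prime.dvd_of_dvd_pow hi
  exact h1.trans (Finset.dvd_prod_of_mem _ (Finset.mem_univ i))

/-- an irreducible polynomial which is not a variable has at least two terms -/
theorem irr_two (π : MvPolynomial (Fin r) F) (hπ : Irreducible π) (h : ¬ π ∣ vars' F r) :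
    ∃ e1 ∈ π.support, ∃ e2 ∈ π.support, e1 ≠ e2 := by
  classical
  obtain ⟨e1, he1⟩ := support_nonempty.2 hπ.ne_zero
  refine ⟨e1, he1, ?_⟩
  by_contra hcon
  push Not at hcon
  apply h
  refine irr_monomial π hπ e1 ?_
  have h1 : π = monomial e1 (coeff e1 π) := by
    ext e
    rw [coeff_monomial]
    by_cases he : e1 = e
    · rw [if_pos he, he]
    · rw [if_neg he]
      by_contra h2
      exact he (hcon e (mem_support_iff.2 h2))
  obtain ⟨c, hc⟩ : ∃ c, c = coeff e1 π := ⟨_, rfl⟩
  have h2 : c ≠ 0 := by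
    rw [hc]
    exact mem_support_iff.1 he1
  rw [← hc] at h1
  refine ⟨C c⁻¹, ?_⟩
  rw [h1, mul_comm, C_mul_monomial, inv_mul_cancel₀ h2]

/-- homogenisation of a polynomial in one variable -/
noncomputable def hom {k R : Type} [Field k] [CommRing R] [Algebra k R] (Q : Polynomial k)
    (N Y : R) : R :=
  ∑ j ∈ Finset.range (Q.natDegree + 1), algebraMap k R (Q.coeff j) * N ^ j *
    Y ^ (Q.natDegree - j)

theorem hom_dvd {k R : Type} [Field k] [CommRing R] [Algebra k R] (Q : Polynomial k)
    (N Y : R) (α : k) : N - algebraMap k R α * Y ∣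
      hom Q N Y - algebraMap k R (Q.eval α) * Y ^ Q.natDegree := by
  have h1 : algebraMap k R (Q.eval α) * Y ^ Q.natDegree =
      ∑ j ∈ Finset.range (Q.natDegree + 1), algebraMap k R (Q.coeff j) *
        (algebraMap k R α * Y) ^ j * Y ^ (Q.natDegree - j) := by
    rw [Polynomial.eval_eq_sum_range, map_sum, Finset.sum_mul]
    refine Finset.sum_congr rfl fun j hj => ?_
    have hj' : j ≤ Q.natDegree := Nat.lt_succ_iff.1 (Finset.mem_range.1 hj)
    rw [map_mul, map_pow, mul_pow, ← pow_mul_pow_sub Y hj']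
    ring
  rw [h1]
  unfold hom
  rw [← Finset.sum_sub_distrib]
  refine Finset.dvd_sum fun j _ => ?_
  rw [← sub_mul, ← mul_sub]
  exact ((sub_dvd_pow_sub_pow N (algebraMap k R α * Y) j).mul_left _).mul_right _

end Pool.Agent.Run7.h720
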