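import Pool.Agent.Run7.h720.Near
import Pool.Agent.Run7.h720.Spec

/-!
The main argument: a germ `n` such that the values of a polynomial with three simple roots at `n`
are powerful and `n` and a radical are short sums of units has small height.
-/

set_option autoImplicit false
set_option linter.unusedSectionVars false

namespace Pool.Agent.Run7.h720

open NumberField IsDedekindDomain Height Filter Topology
open Pool.Agent.W180.OP (Pl av wt fv fv_support_finite wt_nonneg nrm)
open Pool.Agent.K1H83.VN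
open MvPolynomial (monomial)

variable {k : Type} [Field k] [NumberField k] {σ : Sc} {S : Finset (Pl k)} {r : ℕ}

/-- comparison of the parts outside of `S`, with powers -/
theorem ho_pow_le (S : Finset (Pl k)) {ι κ μ : Type} [Finite ι] [Finite κ] [Finite μ]
    (m l : ℕ) (z : ι → k) (hz : z ≠ 0) (x : κ → k) (hx : x ≠ 0) (y : μ → k) (hy : y ≠ 0)
    (h : ∀ v : HeightOneSpectrum (𝓞 k), Sum.inr v ∉ S →
      nm (fv v) z ^ m ≤ nm (fv v) x * nm (fv v) y ^ l) :
    m * ho S z ≤ ho S x + l * ho S y := by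
  unfold ho
  have hs : ∀ (a : ℝ) (f : HeightOneSpectrum (𝓞 k) → ℝ), (Function.support f).Finite →
      (Function.support fun v => a * f v).Finite := by
    intro a f hf
    refine hf.subset fun v hv h0 => hv ?_
    show a * f v = 0
    rw [h0, mul_zero]
  rw [mul_finsum, mul_finsum, ← finsum_add_distrib (lo_support S x hx) (hs _ _ (lo_support S y hy))]
  refine finsum_le_finsum' (hs _ _ (lo_support S z hz)) ?_ fun v => ?_
  · refine ((lo_support S x hx).union (lo_support S y hy)).subset fun v hv => ?_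
    by_contra hc
    rw [Set.mem_union, not_or] at hc
    apply hv
    have h1 : lo S x v = 0 := by simpa using hc.1
    have h2 : lo S y v = 0 := by simpa using hc.2
    show lo S x v + l * lo S y v = 0
    rw [h1, h2, mul_zero, add_zero]
  · unfold lo
    by_cases hv : Sum.inr v ∈ S
    · rw [if_pos hv, if_pos hv, if_pos hv, mul_zero, mul_zero, add_zero]
    · rw [if_neg hv, if_neg hv, if_neg hv, ← Real.log_pow, ← Real.log_pow,
        ← Real.log_mul (nm_pos _ hx).ne' (pow_ne_zero _ (nm_pos _ hy).ne')]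
      exact Real.log_le_log (pow_pos (nm_pos _ hz) _) (h v hv)

section
variable {u : Fin r → G k σ} (hu : Indep S u)
include hu

/-- the part prime to `S` of the value of an irreducible polynomial which is not a variable -/
theorem irr_large (hS : ∀ w : InfinitePlace k, Sum.inl w ∈ S)
    (π : MvPolynomial (Fin r) (FF k σ)) (hπ : Irreducible π)
    (h : ¬ π ∣ vars' (FF k σ) r) :
    ¬ Sm σ fun t => -ho S (fun _ : Unit => rep (ev u π) t) := by
  obtain ⟨e1, h1, e2, h2, h12⟩ := irr_two π hπ h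
  intro hs
  apply two_terms hu hS π e1 e2 h1 h2 h12
  refine hs.mono ?_
  filter_upwards [rep_ne _ (ev_ne hu hS π hπ.ne_zero)] with t ht
  rw [← prod_formula S hS _ ht]
  exact le_rfl

/-- an irreducible polynomial and a polynomial which it does not divide -/
theorem dvd_contra (hS : ∀ w : InfinitePlace k, Sum.inl w ∈ S)
    (π g : MvPolynomial (Fin r) (FF k σ)) (hπ : Irreducible π)
    (h : ¬ π ∣ vars' (FF k σ) r) (hg : g ≠ 0) (hπg : ¬ π ∣ g) {μ : Type} [Fintype μ]
    (c : μ → G k σ) (hc : ∀ i, c i ∈ FF k σ) (m l : ℕ)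
    (hle : ∀ᶠ t in (σ.𝒰 : Filter ℕ), ∀ v : HeightOneSpectrum (𝓞 k), Sum.inr v ∉ S →
      nm (fv v) ![rep (ev u π) t, rep (ev u g) t] ^ m ≤
        fv v (rep (ev u π) t) * nm (fv v) (c1 fun i => rep (c i) t) ^ l) : False := by
  apply irr_large hu hS π hπ h
  have h1 := gcd_small hu hS π g hπ.ne_zero hg (hπ.isRelPrime_iff_not_dvd.2 hπg)
  have h2 := ho_c1_small hS c hc
  refine ((h1.smul (Nat.cast_nonneg m)).add (h2.smul (Nat.cast_nonneg l))).mono ?_
  filter_upwards [hle, rep_ne _ (ev_ne hu hS π hπ.ne_zero)] with t t1 t2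
  have h3 := ho_pow_le S m l ![rep (ev u π) t, rep (ev u g) t]
    (ne_of_coord (i := (0 : Fin 2)) t2) (fun _ : Unit => rep (ev u π) t)
    (ne_of_coord (i := ()) t2) (c1 fun i => rep (c i) t) (ne_of_one _ none rfl) (by
      intro v hv
      rw [nm_unit]
      exact t1 v hv)
  linarith

/-- the absolute values outside of `S` of a multiple of a monomial -/
theorem fv_mon (x y : G k σ) (e : Fin r →₀ ℕ) (h : y = x * mon u e) :
    ∀ᶠ t in (σ.𝒰 : Filter ℕ), ∀ v : HeightOneSpectrum (𝓞 k), Sum.inr v ∉ S →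
      fv v (rep y t) = fv v (rep x t) := by
  rw [h]
  filter_upwards [rep_mul x (mon u e), mon_SU hu e] with t t1 t2 v hv
  rw [t1, map_mul, t2.2 v hv, mul_one]

theorem fv_mul (x y z : G k σ) (h : x * y = z) :
    ∀ᶠ t in (σ.𝒰 : Filter ℕ), ∀ v : HeightOneSpectrum (𝓞 k),
      fv v (rep z t) = fv v (rep x t) * fv v (rep y t) := by
  rw [← h]
  filter_upwards [rep_mul x y] with t t1 v
  rw [t1, map_mul]

/-- the value of the homogenised polynomial -/
theorem ev_hom (Q : Polynomial k) (n : G k σ) (N : MvPolynomial (Fin r) (FF k σ))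
    (e : Fin r →₀ ℕ) (hN : ev u N = n * mon u e) :
    ev u (hom Q N (monomial e 1)) = Polynomial.aeval n Q * mon u e ^ Q.natDegree := by
  have h0 : ev u (monomial e (1 : FF k σ)) = mon u e := by
    rw [ev_monomial]
    exact one_mul _
  unfold hom
  rw [map_sum, Polynomial.aeval_eq_sum_range, Finset.sum_mul]
  refine Finset.sum_congr rfl fun j hj => ?_
  have hj' : j ≤ Q.natDegree := Nat.lt_succ_iff.1 (Finset.mem_range.1 hj)
  rw [map_mul, map_mul, map_pow, map_pow, hN, h0, Algebra.smul_def, mul_pow,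
    ← pow_mul_pow_sub (mon u e) hj']
  have h1 : ev u (algebraMap k (MvPolynomial (Fin r) (FF k σ)) (Q.coeff j)) =
      algebraMap k (G k σ) (Q.coeff j) := by
    rw [IsScalarTower.algebraMap_apply k (FF k σ) (MvPolynomial (Fin r) (FF k σ)),
      AlgHom.commutes]
    rfl
  rw [h1]
  ring

/-- **Prime factors are multiple.** -/
theorem factor_sq (hS : ∀ w : InfinitePlace k, Sum.inl w ∈ S) (n ρ Pn : G k σ) (α : k)
    (Q : Polynomial k) (hQ : Q.eval α ≠ 0)
    (hP : (n - algebraMap k (G k σ) α) * Polynomial.aeval n Q = Pn) (hP0 : Pn ≠ 0)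
    (m : ℕ) (hm : m ≠ 0)
    (h1 : ∀ᶠ t in (σ.𝒰 : Filter ℕ), ∀ v : HeightOneSpectrum (𝓞 k), Sum.inr v ∉ S →
      fv v (rep (Polynomial.aeval n Q) t) ≤ 1 ∧ fv v (rep Pn t) ≤ fv v (rep ρ t) ^ 2 ∧
      fv v (rep ρ t) ^ m ≤ fv v (rep Pn t))
    (N R : MvPolynomial (Fin r) (FF k σ)) (e e' : Fin r →₀ ℕ) (hN : ev u N = n * mon u e)
    (hR : ev u R = ρ * mon u e')
    (π : MvPolynomial (Fin r) (FF k σ)) (hπ : Irreducible π)
    (hπp : π ∣ N - algebraMap k _ α * monomial e 1) :
    π ∣ vars' (FF k σ) r ∨ π ^ 2 ∣ N - algebraMap k _ α * monomial e 1 := by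
  classical
  by_contra hcon
  rw [not_or] at hcon
  obtain ⟨hv, hsq⟩ := hcon
  obtain ⟨p, hp⟩ : ∃ p, p = N - algebraMap k (MvPolynomial (Fin r) (FF k σ)) α * monomial e 1 :=
    ⟨_, rfl⟩
  obtain ⟨q, hq⟩ : ∃ q, q = hom Q N (monomial e (1 : FF k σ)) := ⟨_, rfl⟩
  rw [← hp] at hπp hsq
  have h0 : ev u (monomial e (1 : FF k σ)) = mon u e := by
    rw [ev_monomial]
    exact one_mul _
  have hevp : ev u p = (n - algebraMap k (G k σ) α) * mon u e := by
    rw [hp, map_sub, hN, map_mul, h0, sub_mul]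
    congr 2
    rw [IsScalarTower.algebraMap_apply k (FF k σ) (MvPolynomial (Fin r) (FF k σ)),
      AlgHom.commutes]
    rfl
  have hevq : ev u q = Polynomial.aeval n Q * mon u e ^ Q.natDegree := by
    rw [hq]
    exact ev_hom hu Q n N e hN
  have hevq' : ev u q = Polynomial.aeval n Q * mon u (Q.natDegree • e) := by
    rw [hevq]
    congr 1
    unfold mon
    rw [← Finset.prod_pow]
    refine Finset.prod_congr rfl fun i _ => ?_
    rw [← pow_mul, Finsupp.smul_apply, smul_eq_mul, mul_comm]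
  have ha0 : n - algebraMap k (G k σ) α ≠ 0 := by
    intro h
    rw [h, zero_mul] at hP
    exact hP0 hP.symm
  have hb0 : Polynomial.aeval n Q ≠ 0 := by
    intro h
    rw [h, mul_zero] at hP
    exact hP0 hP.symm
  have hq0 : q ≠ 0 := by
    intro h
    rw [h, map_zero] at hevq'
    exact mul_ne_zero hb0 (mon_ne hu _) hevq'.symm
  -- `π` does not divide `q`
  have hπq : ¬ π ∣ q := by
    intro h
    apply hv
    have h2 := hom_dvd Q N (monomial e (1 : FF k σ)) α
    rw [← hp, ← hq] at h2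
    have h3 : π ∣ algebraMap k (MvPolynomial (Fin r) (FF k σ)) (Q.eval α) *
        monomial e (1 : FF k σ) ^ Q.natDegree := by
      have h4 := dvd_sub h (hπp.trans h2)
      rwa [sub_sub_cancel] at h4
    have h4 : IsUnit (algebraMap k (MvPolynomial (Fin r) (FF k σ)) (Q.eval α)) :=
      (IsUnit.mk0 _ hQ).map _
    rw [h4.dvd_mul_left] at h3
    exact irr_monomial π hπ e (hπ.prime.dvd_of_dvd_pow h3)
  obtain ⟨s, hs⟩ := hπp
  have hevs : ev u π * ev u s = ev u p := by rw [hs, map_mul]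
  -- `π` divides `R`
  have hπR : π ∣ R := by
    by_contra hnR
    have hR0 : R ≠ 0 := by
      rintro rfl
      exact hnR (dvd_zero _)
    refine dvd_contra hu hS π R hπ hv hR0 hnR (cf ![π, s])
      (fun x => (MvPolynomial.coeff x.2.1 ((![π, s] : Fin 2 → _) x.1) : FF k σ).2) m m ?_
    filter_upwards [h1, cf_bound hu ![π, s], fv_mon hu _ _ e hevp, fv_mon hu _ _ e' hR,
      fv_mul hu _ _ _ hP, fv_mul hu _ _ _ hevs] with t t1 t2 t3 t4 t5 t6 v hvS
    obtain ⟨t1a, t1b, t1c⟩ := t1 v hvS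
    have t2a : fv v (rep (ev u π) t) ≤ _ := t2 v hvS 0
    have t2b : fv v (rep (ev u s) t) ≤ _ := t2 v hvS 1
    have t3 := t3 v hvS
    have t4 := t4 v hvS
    have t5 := t5 v
    have t6 := t6 v
    have hB1 : 1 ≤ nm (fv v) (c1 fun x => rep (cf ![π, s] x) t) := one_le_nm _ _ none rfl
    set Bv := nm (fv v) (c1 fun x => rep (cf ![π, s] x) t) with hBv
    set x := fv v (rep (ev u π) t) with hx
    have hx0 : 0 ≤ x := (fv v).nonneg _
    have hy0 : 0 ≤ fv v (rep (ev u R) t) := (fv v).nonneg _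
    obtain ⟨i, hi⟩ := exists_nm (fv v) ![rep (ev u π) t, rep (ev u R) t]
    rw [← hi]
    have hcase : ∀ y : ℝ, y = x ∨ y = fv v (rep (ev u R) t) → y ^ m ≤ x * Bv ^ m := by
      rintro y (rfl | rfl)
      · obtain ⟨l, rfl⟩ := Nat.exists_eq_succ_of_ne_zero hm
        rw [Nat.succ_eq_add_one, pow_succ, mul_comm]
        refine mul_le_mul_of_nonneg_left ?_ hx0
        refine (pow_le_pow_left₀ hx0 t2a l).trans ?_
        exact pow_le_pow_right₀ hB1 (Nat.le_succ l)
      · rw [t4]
        refine t1c.trans ?_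
        rw [t5]
        calc fv v (rep (n - algebraMap k (G k σ) α) t) * fv v (rep (Polynomial.aeval n Q) t)
            ≤ fv v (rep (n - algebraMap k (G k σ) α) t) * 1 :=
              mul_le_mul_of_nonneg_left t1a ((fv v).nonneg _)
          _ = x * fv v (rep (ev u s) t) := by rw [mul_one, ← t3, t6]
          _ ≤ x * Bv := mul_le_mul_of_nonneg_left t2b hx0
          _ ≤ x * Bv ^ m := by
              refine mul_le_mul_of_nonneg_left ?_ hx0
              exact le_self_pow₀ hB1 hm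
    fin_cases i
    · exact hcase _ (Or.inl rfl)
    · exact hcase _ (Or.inr rfl)
  obtain ⟨τ, hτ⟩ := hπR
  have hevτ : ev u π * ev u τ = ev u R := by rw [hτ, map_mul]
  have hπs : ¬ π ∣ s := by
    rintro ⟨s', hs'⟩
    apply hsq
    exact ⟨s', by rw [hs, hs']; ring⟩
  have hπsq : ¬ π ∣ s * q := fun h => (hπ.prime.dvd_or_dvd h).elim hπs hπq
  have hs0 : s ≠ 0 := by
    rintro rfl
    exact hπs (dvd_zero _)
  have hevsq : ev u s * ev u q = ev u (s * q) := by rw [map_mul]
  refine dvd_contra hu hS π (s * q) hπ hv (mul_ne_zero hs0 hq0) hπsq (cf ![π, τ])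
      (fun x => (MvPolynomial.coeff x.2.1 ((![π, τ] : Fin 2 → _) x.1) : FF k σ).2) 1 2 ?_
  filter_upwards [h1, cf_bound hu ![π, τ], fv_mon hu _ _ e hevp, fv_mon hu _ _ e' hR,
      fv_mul hu _ _ _ hP, fv_mul hu _ _ _ hevs, fv_mul hu _ _ _ hevτ,
      fv_mul hu _ _ _ hevsq, fv_mon hu _ _ _ hevq', rep_ne _ (ev_ne hu hS π hπ.ne_zero)]
      with t t1 t2 t3 t4 t5 t6 t7 t8 t9 t10 v hvS
  obtain ⟨t1a, t1b, t1c⟩ := t1 v hvS
  have t2b : fv v (rep (ev u τ) t) ≤ _ := t2 v hvS 1
  have t3 := t3 v hvS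
  have t4 := t4 v hvS
  have t5 := t5 v
  have t6 := t6 v
  have t7 := t7 v
  have t8 := t8 v
  have t9 := t9 v hvS
  have hB1 : 1 ≤ nm (fv v) (c1 fun x => rep (cf ![π, τ] x) t) := one_le_nm _ _ none rfl
  set Bv := nm (fv v) (c1 fun x => rep (cf ![π, τ] x) t) with hBv
  set x := fv v (rep (ev u π) t) with hx
  have hx0 : 0 < x := (fv v).pos t10
  rw [pow_one]
  obtain ⟨i, hi⟩ := exists_nm (fv v) ![rep (ev u π) t, rep (ev u (s * q)) t]
  rw [← hi]
  have hcase : ∀ y : ℝ, y = x ∨ y = fv v (rep (ev u (s * q)) t) → y ≤ x * Bv ^ 2 := by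
    rintro y (rfl | rfl)
    · exact le_mul_of_one_le_right hx0.le (one_le_pow₀ hB1)
    · rw [t8, t9]
      have k1 : x * (fv v (rep (ev u s) t) * fv v (rep (Polynomial.aeval n Q) t)) ≤
          x * (x * Bv ^ 2) := by
        calc x * (fv v (rep (ev u s) t) * fv v (rep (Polynomial.aeval n Q) t))
            = fv v (rep Pn t) := by rw [t5, ← t3, t6]; ring
          _ ≤ fv v (rep ρ t) ^ 2 := t1b
          _ = x * (x * fv v (rep (ev u τ) t) ^ 2) := by rw [← t4, t7]; ring
          _ ≤ x * (x * Bv ^ 2) := by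
              refine mul_le_mul_of_nonneg_left (mul_le_mul_of_nonneg_left ?_ hx0.le) hx0.le
              exact pow_le_pow_left₀ ((fv v).nonneg _) t2b 2
      exact le_of_mul_le_mul_left k1 hx0
  fin_cases i
  · exact hcase _ (Or.inl rfl)
  · exact hcase _ (Or.inr rfl)

/-- **The main argument.** -/
theorem core (hS : ∀ w : InfinitePlace k, Sum.inl w ∈ S) (n ρ Pn : G k σ) (α : Fin 3 → k)
    (hα : Function.Injective α) (Q : Fin 3 → Polynomial k) (hQ : ∀ i, (Q i).eval (α i) ≠ 0)
    (hP : ∀ i, (n - algebraMap k (G k σ) (α i)) * Polynomial.aeval n (Q i) = Pn) (hP0 : Pn ≠ 0)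
    (m : ℕ) (hm : m ≠ 0)
    (h1 : ∀ i, ∀ᶠ t in (σ.𝒰 : Filter ℕ), ∀ v : HeightOneSpectrum (𝓞 k), Sum.inr v ∉ S →
      fv v (rep (Polynomial.aeval n (Q i)) t) ≤ 1 ∧ fv v (rep Pn t) ≤ fv v (rep ρ t) ^ 2 ∧
      fv v (rep ρ t) ^ m ≤ fv v (rep Pn t))
    (N R : MvPolynomial (Fin r) (FF k σ)) (e e' : Fin r →₀ ℕ) (hN : ev u N = n * mon u e)
    (hR : ev u R = ρ * mon u e') : n ∈ FF k σ := by
  classical
  have hch : CharZero (FF k σ) := charZero_of_injective_algebraMap
    (algebraMap k (FF k σ)).injective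
  obtain ⟨l, hl⟩ := exists_weight (insert e N.support)
  obtain ⟨w, hw⟩ : ∃ w, w = ∑ j, e j * l j := ⟨_, rfl⟩
  have hp : ∀ i, spec l (N - algebraMap k (MvPolynomial (Fin r) (FF k σ)) (α i) *
      monomial e 1) = spec l N - Polynomial.C (algebraMap k (FF k σ) (α i)) *
        Polynomial.X ^ w := by
    intro i
    rw [map_sub, map_mul, spec_monomial, ← hw, Polynomial.C_1, one_mul]
    congr 2
    rw [IsScalarTower.algebraMap_apply k (FF k σ) (MvPolynomial (Fin r) (FF k σ)),
      AlgHom.commutes]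
    rfl
  obtain ⟨c, hc⟩ := mason (spec l N) w (fun i => algebraMap k (FF k σ) (α i))
    ((algebraMap k (FF k σ)).injective.comp hα) (by
      intro i hi
      rw [← hp i] at hi ⊢
      have hi0 : N - algebraMap k (MvPolynomial (Fin r) (FF k σ)) (α i) * monomial e 1 ≠ 0 := by
        intro h
        rw [h, map_zero] at hi
        exact hi rfl
      obtain ⟨g, A, B, M, h2, h3⟩ := pow_decomp (vars' (FF k σ) r) _ hi0
        fun π hπ hπp => factor_sq hu hS n ρ Pn (α i) (Q i) (hQ i) (hP i) hP0 m hm (h1 i) N R e e'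
          hN hR π hπ hπp
      refine pow_split _ (spec l g) (spec l A) (spec l B) hi ?_ ((∑ j, l j) * M) ?_
      · rw [h2, map_mul, map_mul, map_pow, map_pow]
      · have h4 := map_dvd (spec l) h3
        rw [map_pow, spec_vars, ← pow_mul] at h4
        exact h4)
  have hNe : ∀ e1 ∈ N.support, e1 = e := by
    intro e1 he1
    have h2 := spec_coeff l N (fun a ha b hb => hl a (Finset.mem_insert_of_mem ha) b
      (Finset.mem_insert_of_mem hb)) e1 he1
    rw [hc, Polynomial.coeff_C_mul, Polynomial.coeff_X_pow] at h2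
    by_cases h3 : ∑ j, e1 j * l j = w
    · exact hl _ (Finset.mem_insert_of_mem he1) _ (Finset.mem_insert_self _ _) (h3.trans hw)
    · rw [if_neg h3, mul_zero] at h2
      exact absurd h2.symm (MvPolynomial.mem_support_iff.1 he1)
  have hN2 : N = monomial e (MvPolynomial.coeff e N) := by
    ext e1
    rw [MvPolynomial.coeff_monomial]
    by_cases h2 : e = e1
    · rw [if_pos h2, h2]
    · rw [if_neg h2]
      by_contra h3
      exact h2 (hNe e1 (MvPolynomial.mem_support_iff.2 fun h4 => h3 (by rw [h4]))).symm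
  rw [hN2, ev_monomial] at hN
  have h2 := mul_right_cancel₀ (mon_ne hu e) hN
  rw [← h2]
  exact (MvPolynomial.coeff e N).2

end

end Pool.Agent.Run7.h720
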