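import Pool.Agent.Run7.h720.Rep
import Pool.Agent.Run7.h720.Core

/-!
The heights of the units in a sum without vanishing subsums, and the polynomial which represents
a short sum of units.
-/

set_option autoImplicit false
set_option linter.unusedSectionVars false

namespace Pool.Agent.Run7.h720

open NumberField IsDedekindDomain Height Filter Topology
open Pool.Agent.W180.OP (Pl av wt fv fv_support_finite wt_nonneg nrm)
open Pool.Agent.K1H83.VN
open MvPolynomial (monomial)

variable {k : Type} [Field k] [NumberField k] {σ : Sc} {S : Finset (Pl k)}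

/-- a representation without vanishing subsums -/
theorem reduced_rep {K J : Type} [Field K] [Fintype J] (x : K) (Rc Rg : K → Prop)
    (hR0 : Rc 0) (hR1 : Rg 1)
    (h : ∃ c γ : J → K, (∀ j, Rc (c j)) ∧ (∀ j, Rg (γ j)) ∧ x = ∑ j, c j * γ j) :
    ∃ c γ : J → K, (∀ j, Rc (c j)) ∧ (∀ j, Rg (γ j)) ∧ x = ∑ j, c j * γ j ∧
      (∀ j, c j = 0 → γ j = 1) ∧
      ∀ A : Finset J, (∃ j ∈ A, c j ≠ 0) → ∑ j ∈ A, c j * γ j ≠ 0 := by
  classical
  let P : ℕ → Prop := fun n => ∃ c γ : J → K, (∀ j, Rc (c j)) ∧ (∀ j, Rg (γ j)) ∧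
    x = ∑ j, c j * γ j ∧ (Finset.univ.filter fun j => c j ≠ 0).card = n
  have hP : ∃ n, P n := by
    obtain ⟨c, γ, h1, h2, h3⟩ := h
    exact ⟨_, c, γ, h1, h2, h3, rfl⟩
  obtain ⟨c, γ, h1, h2, h3, h4⟩ := Nat.find_spec hP
  refine ⟨c, fun j => if c j = 0 then 1 else γ j, h1, fun j => ?_, ?_, fun j hj => ?_, ?_⟩
  · dsimp only
    split_ifs
    · exact hR1
    · exact h2 j
  · rw [h3]
    refine Finset.sum_congr rfl fun j _ => ?_
    by_cases hj : c j = 0
    · rw [hj, zero_mul, zero_mul]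
    · dsimp only
      rw [if_neg hj]
  · dsimp only
    rw [if_pos hj]
  · rintro A ⟨j0, hj0, hc0⟩ hsum
    have h5 : ∑ j ∈ A, c j * γ j = 0 := by
      rw [← hsum]
      refine Finset.sum_congr rfl fun j _ => ?_
      by_cases hj : c j = 0
      · rw [hj, zero_mul, zero_mul]
      · dsimp only
        rw [if_neg hj]
    have h6 := Nat.find_min' hP (m := (Finset.univ.filter fun j =>
      (if j ∈ A then (0 : K) else c j) ≠ 0).card)
      ⟨fun j => if j ∈ A then 0 else c j, γ, fun j => by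
        dsimp only
        split_ifs
        · exact hR0
        · exact h1 j, h2, by
        rw [h3, ← Finset.sum_add_sum_compl A, h5, zero_add]
        rw [← Finset.sum_add_sum_compl A (fun j => (if j ∈ A then 0 else c j) * γ j)]
        have e1 : ∑ j ∈ A, (if j ∈ A then 0 else c j) * γ j = 0 :=
          Finset.sum_eq_zero fun j hj => by rw [if_pos hj, zero_mul]
        rw [e1, zero_add]
        refine Finset.sum_congr rfl fun j hj => ?_
        rw [if_neg (Finset.mem_compl.1 hj)], rfl⟩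
    have h7 : (Finset.univ.filter fun j => (if j ∈ A then (0 : K) else c j) ≠ 0) ⊆
        (Finset.univ.filter fun j => c j ≠ 0).erase j0 := by
      intro j hj
      rw [Finset.mem_filter] at hj
      by_cases hjA : j ∈ A
      · rw [if_pos hjA] at hj
        exact absurd rfl hj.2
      · rw [if_neg hjA] at hj
        rw [Finset.mem_erase, Finset.mem_filter]
        exact ⟨fun h => hjA (h ▸ hj0), Finset.mem_univ _, hj.2⟩
    have h8 := Finset.card_le_card h7
    have h9 := Finset.card_erase_lt_of_mem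
      (Finset.mem_filter.2 ⟨Finset.mem_univ j0, hc0⟩ : j0 ∈ Finset.univ.filter fun j => c j ≠ 0)
    omega

/-- **The heights of the units are bounded.** -/
theorem bounded_units (hS : ∀ w : InfinitePlace k, Sum.inl w ∈ S) {J : Type} [Fintype J]
    (x : ℕ → k) (c γ : J → ℕ → k) (hx : ∀ t, x t = ∑ j, c j t * γ j t)
    (hγ : ∀ j t, IsSU S (γ j t)) (hc : ∀ j, gm σ (c j) ∈ FF k σ)
    (hxB : ∃ C : ℝ, ∀ᶠ t in (σ.𝒰 : Filter ℕ), logHeight₁ (x t) ≤ C * σ.L t)
    (h1 : ∀ j t, c j t = 0 → γ j t = 1)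
    (hnv : ∀ t, ∀ A : Finset J, (∃ j ∈ A, c j t ≠ 0) → ∑ j ∈ A, c j t * γ j t ≠ 0) :
    ∀ j, gm σ (γ j) ∈ BB k σ := by
  classical
  by_contra hcon
  push Not at hcon
  obtain ⟨j0, hj0⟩ := hcon
  have hh : ∀ j t, 0 ≤ logHeight₁ (γ j t) := fun j t => zero_le_logHeight₁ _
  let L' : ℕ → ℝ := fun t => σ.L t + ∑ j, logHeight₁ (γ j t)
  have hLL : ∀ t, σ.L t ≤ L' t := fun t =>
    le_add_of_nonneg_right (Finset.sum_nonneg fun j _ => hh j t)
  let σ' : Sc := ⟨σ.𝒰, L', tendsto_atTop_mono hLL σ.lim⟩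
  have hγL : ∀ j, ∀ᶠ t in (σ.𝒰 : Filter ℕ), logHeight₁ (γ j t) ≤ L' t := by
    intro j
    filter_upwards [L_pos (σ := σ)] with t ht
    have h2 : logHeight₁ (γ j t) ≤ ∑ j, logHeight₁ (γ j t) :=
      Finset.single_le_sum (f := fun j => logHeight₁ (γ j t)) (fun j _ => hh j t)
        (Finset.mem_univ j)
    show _ ≤ σ.L t + _
    linarith
  have hsmall : ∀ ε : ℝ, 0 < ε → ∀ᶠ t in (σ.𝒰 : Filter ℕ), σ.L t ≤ ε * L' t := by
    intro ε hε
    have h2 : ¬ ∀ᶠ t in (σ.𝒰 : Filter ℕ), logHeight₁ (rep (gm σ (γ j0)) t) ≤ 1 / ε * σ.L t :=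
      fun h => hj0 ⟨_, h⟩
    rw [← Ultrafilter.eventually_not] at h2
    filter_upwards [h2, rep_gm (σ := σ) (γ j0), hγL j0] with t h3 h4 h5
    rw [not_le, h4] at h3
    have h6 : 1 / ε * σ.L t < L' t := h3.trans_le h5
    rw [one_div, inv_mul_lt_iff₀ hε] at h6
    exact h6.le
  have hpos' : ∀ᶠ t in (σ.𝒰 : Filter ℕ), 0 < L' t := by
    filter_upwards [L_pos (σ := σ)] with t ht
    exact ht.trans_le (hLL t)
  have hSm : ∀ f : ℕ → ℝ, Sm σ f → Sm σ' f := by
    intro f hf ε hε
    have h2 : ∀ᶠ t in (σ.𝒰 : Filter ℕ), f t ≤ ε * L' t := by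
      filter_upwards [hf ε hε] with t ht
      exact ht.trans (mul_le_mul_of_nonneg_left (hLL t) hε.le)
    exact h2
  have hcF : ∀ j, gm σ' (c j) ∈ FF k σ' := by
    intro j
    rw [gm_mem_FF]
    exact hSm _ ((gm_mem_FF _).1 (hc j))
  have hxF : gm σ' x ∈ FF k σ' := by
    rw [gm_mem_FF]
    obtain ⟨C, hC⟩ := hxB
    intro ε hε
    have h2 : ∀ᶠ t in (σ.𝒰 : Filter ℕ), logHeight₁ (x t) ≤ ε * L' t := by
      filter_upwards [hC, hsmall (ε / (|C| + 1)) (by positivity), L_pos (σ := σ)] with t h3 h4 h5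
      have h6 : C * σ.L t ≤ (|C| + 1) * σ.L t := by
        refine mul_le_mul_of_nonneg_right ?_ h5.le
        have := le_abs_self C
        linarith
      have h7 : (|C| + 1) * σ.L t ≤ (|C| + 1) * (ε / (|C| + 1) * L' t) :=
        mul_le_mul_of_nonneg_left h4 (by positivity)
      have h8 : (|C| + 1) * (ε / (|C| + 1) * L' t) = ε * L' t := by
        field_simp
      linarith
    exact h2
  have hγS : ∀ j, SU S (gm σ' (γ j)) := by
    intro j
    filter_upwards [rep_gm (σ := σ') (γ j)] with t ht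
    rw [ht]
    exact hγ j t
  have hγB : ∀ j, gm σ' (γ j) ∈ BB k σ' := by
    intro j
    rw [mem_BB]
    refine ⟨1, ?_⟩
    have h2 : ∀ᶠ t in (σ'.𝒰 : Filter ℕ), logHeight₁ (γ j t) ≤ L' t := hγL j
    filter_upwards [rep_gm (σ := σ') (γ j), h2] with t h3 h4
    rw [h3, one_mul]
    exact h4
  let U : Option J → G k σ' := fun o => o.elim 1 fun j => gm σ' (γ j)
  let d : Option J → G k σ' := fun o => o.elim (-gm σ' x) fun j => gm σ' (c j)
  have hUS : ∀ o, SU S (U o) := by
    rintro (_ | j)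
    · exact SU.one
    · exact hγS j
  have hUB : ∀ o, U o ∈ BB k σ' := by
    rintro (_ | j)
    · exact (BB k σ').one_mem
    · exact hγB j
  have hdF : ∀ o, d o ∈ FF k σ' := by
    rintro (_ | j)
    · exact (FF k σ').neg_mem hxF
    · exact hcF j
  have hgs : ∀ A : Finset J, ∑ j ∈ A, gm σ' (c j) * gm σ' (γ j) =
      gm σ' fun t => ∑ j ∈ A, c j t * γ j t := by
    intro A
    have h2 : (fun t => ∑ j ∈ A, c j t * γ j t) = ∑ j ∈ A, c j * γ j := by
      funext t
      rw [Finset.sum_apply]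
      rfl
    rw [h2, map_sum]
    exact Finset.sum_congr rfl fun j _ => (map_mul _ _ _).symm
  have hsum : ∑ o, d o * U o = 0 := by
    rw [Fintype.sum_option]
    show -gm σ' x * 1 + ∑ j, gm σ' (c j) * gm σ' (γ j) = 0
    rw [hgs, mul_one]
    have h2 : x = fun t => ∑ j, c j t * γ j t := funext hx
    rw [← h2]
    exact neg_add_cancel _
  have hall : ∀ j, gm σ' (γ j) ∈ FF k σ' := by
    intro j1
    by_contra hj1
    let A : Finset (Option J) := Finset.univ.filter fun o => U o / U (some j1) ∈ FF k σ'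
    have h2 := class_sum hS U hUS hUB d hdF hsum (some j1) A (by
      intro o
      rw [Finset.mem_filter]
      simp)
    let A' : Finset J := Finset.univ.filter fun j => (some j) ∈ A
    have h3 : A = A'.map ⟨some, Option.some_injective J⟩ := by
      ext o
      rcases o with _ | j
      · simp only [Finset.mem_map, Function.Embedding.coeFn_mk, reduceCtorEq, and_false,
          exists_false, iff_false]
        intro h
        rw [Finset.mem_filter] at h
        have h4 : (1 : G k σ') / gm σ' (γ j1) ∈ FF k σ' := h.2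
        rw [one_div] at h4
        have h5 := (FF k σ').inv_mem h4
        rw [inv_inv] at h5
        exact hj1 h5
      · simp [A']
    rw [h3, Finset.sum_map] at h2
    have h4 : ∑ j ∈ A', gm σ' (c j) * gm σ' (γ j) = 0 := h2
    rw [hgs] at h4
    have h5 : gm σ' (fun t => ∑ j ∈ A', c j t * γ j t) = gm σ' (fun _ => (0 : k)) := by
      rw [h4]
      exact (map_zero (gm σ')).symm
    rw [gm_eq] at h5
    apply hj1
    have h6 : gm σ' (γ j1) = gm σ' (fun _ => (1 : k)) := by
      rw [gm_eq]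
      filter_upwards [h5] with t ht
      apply h1 j1 t
      by_contra h7
      refine hnv t A' ⟨j1, ?_, h7⟩ ht
      simp only [A', A, Finset.mem_filter, Finset.mem_univ, true_and]
      rw [div_self (hUS (some j1)).ne_zero]
      exact (FF k σ').one_mem
    rw [h6]
    have h7 : gm σ' (fun _ => (1 : k)) = 1 := map_one (gm σ')
    rw [h7]
    exact (FF k σ').one_mem
  -- contradiction
  have hn : (0 : ℝ) < 2 * ((Fintype.card J : ℝ) + 1) := by positivity
  have k1 : ∀ᶠ t in (σ.𝒰 : Filter ℕ), ∀ j, logHeight₁ (γ j t) ≤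
      1 / (2 * ((Fintype.card J : ℝ) + 1)) * L' t := by
    rw [Filter.eventually_all]
    intro j
    exact (gm_mem_FF _).1 (hall j) _ (by positivity)
  obtain ⟨t, k2, k3, k4⟩ := (k1.and ((hsmall (1 / (2 * ((Fintype.card J : ℝ) + 1)))
    (by positivity)).and hpos')).exists
  have k5 : ∑ j, logHeight₁ (γ j t) ≤
      Fintype.card J * (1 / (2 * ((Fintype.card J : ℝ) + 1)) * L' t) := by
    have := Finset.sum_le_sum fun j (_ : j ∈ (Finset.univ : Finset J)) => k2 j
    rwa [Finset.sum_const, Finset.card_univ, nsmul_eq_mul] at this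
  have k6 : L' t = σ.L t + ∑ j, logHeight₁ (γ j t) := rfl
  have k7 : (1 / (2 * ((Fintype.card J : ℝ) + 1)) * L' t) * ((Fintype.card J : ℝ) + 1) =
      L' t / 2 := by
    field_simp
  nlinarith

/-- the polynomial which represents a short sum of units -/
theorem exists_poly {r : ℕ} {u : Fin r → G k σ} (hu : Indep S u) {J : Type} [Fintype J]
    (x : G k σ) (c γ : J → G k σ) (hx : x = ∑ j, c j * γ j) (hc : ∀ j, c j ∈ FF k σ)
    (h : ∀ j, ∃ (κ : G k σ) (e : Fin r → ℤ), κ ∈ FF k σ ∧ κ ≠ 0 ∧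
      γ j = κ * ∏ i, u i ^ (e i)) :
    ∃ (N : MvPolynomial (Fin r) (FF k σ)) (e : Fin r →₀ ℕ), ev u N = x * mon u e := by
  classical
  choose κ e hκ _ hγ using h
  let e0 : Fin r →₀ ℕ := Finsupp.equivFunOnFinite.symm fun i => ∑ j, (e j i).natAbs
  have he0 : ∀ j i, 0 ≤ e j i + (e0 i : ℤ) := by
    intro j i
    have h1 : (e j i).natAbs ≤ e0 i :=
      Finset.single_le_sum (f := fun j => (e j i).natAbs) (fun _ _ => Nat.zero_le _)
        (Finset.mem_univ j)
    omega
  let e1 : J → (Fin r →₀ ℕ) := fun j => Finsupp.equivFunOnFinite.symm fun i =>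
    (e j i + (e0 i : ℤ)).toNat
  refine ⟨∑ j, monomial (e1 j) (⟨c j, hc j⟩ * ⟨κ j, hκ j⟩), e0, ?_⟩
  rw [map_sum, hx, Finset.sum_mul]
  refine Finset.sum_congr rfl fun j _ => ?_
  rw [ev_monomial, hγ j]
  have h1 : mon u (e1 j) = (∏ i, u i ^ (e j i)) * mon u e0 := by
    unfold mon
    rw [← Finset.prod_mul_distrib]
    refine Finset.prod_congr rfl fun i _ => ?_
    rw [← zpow_natCast (u i) (e1 j i), ← zpow_natCast (u i) (e0 i),
      ← zpow_add₀ (hu.su i).ne_zero]
    congr 1
    exact Int.toNat_of_nonneg (he0 j i)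
  rw [h1]
  show c j * κ j * _ = _
  ring

end Pool.Agent.Run7.h720
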