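import Pool.Agent.Run7.h720.Der

/-!
The truncated inequality for linear forms in two germs which are values of polynomials at
independent germs of units.
-/

set_option autoImplicit false
set_option linter.unusedSectionVars false

namespace Pool.Agent.Run7.h720

open NumberField IsDedekindDomain Height Filter Topology
open Pool.Agent.W180.OP (Pl av wt fv fv_support_finite wt_nonneg nrm)
open Pool.Agent.K1H83.VN
open MvPolynomial (monomial)

variable {k : Type} [Field k] [NumberField k] {σ : Sc} {S : Finset (Pl k)} {r : ℕ}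

theorem hs_prod {ι : Type} (s : Finset ι) (x : ι → G k σ) (hx : ∀ i ∈ s, x i ≠ 0) :
    ∀ᶠ t in (σ.𝒰 : Filter ℕ), hs S (∏ i ∈ s, x i) t = ∑ i ∈ s, hs S (x i) t := by
  classical
  induction s using Finset.induction_on with
  | empty =>
    filter_upwards [rep_one (k := k) (σ := σ)] with t ht
    rw [Finset.prod_empty, Finset.sum_empty]
    unfold hs lv
    rw [ht]
    simp
  | insert a s ha ih =>
    have h1 := ih fun i hi => hx i (Finset.mem_insert_of_mem hi)
    have h2 := hs_mul (S := S) (x a) (∏ i ∈ s, x i) (hx a (Finset.mem_insert_self _ _))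
      (Finset.prod_ne_zero_iff.2 fun i hi => hx i (Finset.mem_insert_of_mem hi))
    filter_upwards [h1, h2] with t t1 t2
    rw [Finset.prod_insert ha, Finset.sum_insert ha, t2, t1]

theorem nm_pair_le (f : AbsoluteValue k ℝ) (a b : k) :
    Real.log (nm f ![a, b]) ≤ max (Real.log (f a)) (Real.log (f b)) := by
  obtain ⟨i, hi⟩ := exists_nm f ![a, b]
  rw [← hi]
  fin_cases i
  · exact le_max_left _ _
  · exact le_max_right _ _

theorem ev_alg (u : Fin r → G k σ) (c : k) (p : MvPolynomial (Fin r) (FF k σ)) :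
    ev u (algebraMap k (MvPolynomial (Fin r) (FF k σ)) c * p) =
      algebraMap k (G k σ) c * ev u p := by
  rw [map_mul]
  congr 1
  rw [IsScalarTower.algebraMap_apply k (FF k σ) (MvPolynomial (Fin r) (FF k σ)),
    AlgHom.commutes]
  rfl

theorem val_alg (v : Pl k) (c : k) (x : G k σ) :
    (OO σ (av v)).valuation (algebraMap k (G k σ) c * x) ≤ (OO σ (av v)).valuation x := by
  rw [map_mul]
  exact mul_le_of_le_one_left' (val_FF_le v (alg_mem c))

theorem val_alg_eq (v : Pl k) (c : k) (hc : c ≠ 0) (x : G k σ) :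
    (OO σ (av v)).valuation (algebraMap k (G k σ) c * x) = (OO σ (av v)).valuation x := by
  rw [map_mul, val_FF v (alg_mem c) (by simpa using hc), one_mul]

/-- the relation between two linear forms and the coordinates -/
theorem pair_rel {R : Type} [CommRing R] (a b c d N M : R) :
    (a * d - c * b) * N = d * (a * N + b * M) - b * (c * N + d * M) ∧
    (a * d - c * b) * M = a * (c * N + d * M) - c * (a * N + b * M) := by
  constructor <;> ring

section
variable {u : Fin r → G k σ} (hu : Indep S u)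
include hu

variable {ι : Type} [Fintype ι] [DecidableEq ι] {x y : ι → k}
  {N M : MvPolynomial (Fin r) (FF k σ)} {p : ι → MvPolynomial (Fin r) (FF k σ)}

/-- the estimate at a place in `S` -/
theorem bin_local (hS : ∀ w : InfinitePlace k, Sum.inl w ∈ S) (v : Pl k) (hv : v ∈ S)
    (hxy : ∀ i j, i ≠ j → x i * y j - x j * y i ≠ 0) (hcard : 2 ≤ Fintype.card ι)
    (hp : ∀ i, p i = algebraMap k _ (x i) * N + algebraMap k _ (y i) * M)
    (hp0 : ∀ i, p i ≠ 0)
    (D : Derivation k (MvPolynomial (Fin r) (FF k σ)) (MvPolynomial (Fin r) (FF k σ)))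
    (hD : ∀ q, (D q).support ⊆ q.support) (hW : N * D M - M * D N ≠ 0) :
    Sm σ fun t => lv v (ev u (N * D M - M * D N)) t +
      ((Fintype.card ι : ℝ) - 2) * Real.log (nm (av v) ![rep (ev u N) t, rep (ev u M) t]) -
      ∑ i, lv v (ev u (p i)) t := by
  have hN0 : N ≠ 0 := by
    rintro rfl
    exact hW (by simp)
  have hM0 : M ≠ 0 := by
    rintro rfl
    exact hW (by simp)
  have hne : Nonempty ι := Fintype.card_pos_iff.1 (by omega)
  obtain ⟨i0, hi0⟩ := Finite.exists_min fun i => (OO σ (av v)).valuation (ev u (p i))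
  have hnt : Nontrivial ι := Fintype.one_lt_card_iff_nontrivial.1 (by omega)
  obtain ⟨i1, hi1⟩ := exists_ne i0
  -- the coordinates are bounded by all forms but one
  have hco : ∀ i, i ≠ i0 → (OO σ (av v)).valuation (ev u N) ≤
      (OO σ (av v)).valuation (ev u (p i)) ∧ (OO σ (av v)).valuation (ev u M) ≤
      (OO σ (av v)).valuation (ev u (p i)) := by
    intro i hi
    have h1 := hxy i i0 hi
    obtain ⟨r1, r2⟩ := pair_rel (algebraMap k (MvPolynomial (Fin r) (FF k σ)) (x i))
      (algebraMap k _ (y i)) (algebraMap k _ (x i0)) (algebraMap k _ (y i0)) N M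
    rw [← hp i, ← hp i0, ← map_mul, ← map_mul, ← map_sub] at r1 r2
    have r1 := congrArg (fun q => (OO σ (av v)).valuation (ev u q)) r1
    have r2 := congrArg (fun q => (OO σ (av v)).valuation (ev u q)) r2
    rw [ev_alg, val_alg_eq v _ h1, map_sub (ev u), ev_alg, ev_alg] at r1 r2
    constructor
    · rw [r1]
      refine (Valuation.map_sub _ _ _).trans (max_le (val_alg v _ _) ?_)
      exact (val_alg v _ _).trans (hi0 i)
    · rw [r2]
      refine (Valuation.map_sub _ _ _).trans (max_le ?_ (val_alg v _ _))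
      exact (val_alg v _ _).trans (hi0 i)
  -- the Wronskian
  have hw : (OO σ (av v)).valuation (ev u (N * D M - M * D N)) ≤
      (OO σ (av v)).valuation (ev u (p i0) * ev u (p i1)) := by
    have h1 := hxy i0 i1 hi1.symm
    have h2 : algebraMap k _ (x i0 * y i1 - x i1 * y i0) * (N * D M - M * D N) =
        p i0 * D (p i1) - p i1 * D (p i0) := by
      rw [hp i0, hp i1, map_add, map_add, D.leibniz, D.leibniz, D.leibniz, D.leibniz,
        D.map_algebraMap, D.map_algebraMap, D.map_algebraMap, D.map_algebraMap]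
      simp only [smul_eq_mul, mul_zero, add_zero, map_sub, map_mul]
      ring
    have h3 := congrArg (fun q => (OO σ (av v)).valuation (ev u q)) h2
    have h4 : ev u (p i0 * D (p i1) - p i1 * D (p i0)) =
        ev u (p i0) * ev u (D (p i1)) - ev u (p i1) * ev u (D (p i0)) := by
      rw [map_sub, map_mul, map_mul]
    rw [ev_alg, val_alg_eq v _ h1, h4] at h3
    rw [h3]
    have k0 := val_der_le hu hS v hv (p i0) _ (hD (p i0))
    have k1 := val_der_le hu hS v hv (p i1) _ (hD (p i1))
    refine (Valuation.map_sub _ _ _).trans (max_le ?_ ?_)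
    · rw [map_mul, map_mul]
      exact mul_le_mul_right k1 _
    · rw [map_mul, map_mul, mul_comm]
      exact mul_le_mul_left k0 _
  have hsW : Sm σ fun t => lv v (ev u (N * D M - M * D N)) t - lv v (ev u (p i0)) t -
      lv v (ev u (p i1)) t := by
    rw [val_le_iff v (ev_ne hu hS _ hW) (mul_ne_zero (ev_ne hu hS _ (hp0 i0))
      (ev_ne hu hS _ (hp0 i1)))] at hw
    refine hw.mono ?_
    filter_upwards [lv_mul v _ _ (ev_ne hu hS _ (hp0 i0)) (ev_ne hu hS _ (hp0 i1))] with t ht
    rw [ht]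
    linarith
  have hsc : ∀ i, i ≠ i0 → Sm σ fun t =>
      Real.log (nm (av v) ![rep (ev u N) t, rep (ev u M) t]) - lv v (ev u (p i)) t := by
    intro i hi
    obtain ⟨h1, h2⟩ := hco i hi
    rw [val_le_iff v (ev_ne hu hS _ hN0) (ev_ne hu hS _ (hp0 i))] at h1
    rw [val_le_iff v (ev_ne hu hS _ hM0) (ev_ne hu hS _ (hp0 i))] at h2
    refine (Sm.max' h1 h2).mono ?_
    filter_upwards [rep_ne _ (ev_ne hu hS _ hN0), rep_ne _ (ev_ne hu hS _ hM0)] with t t1 t2
    have h3 := nm_pair_le (av v) (rep (ev u N) t) (rep (ev u M) t)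
    rw [max_sub_sub_right]
    exact sub_le_sub_right h3 _
  have hsum : Sm σ fun t => ∑ i ∈ (Finset.univ.erase i0).erase i1,
      (Real.log (nm (av v) ![rep (ev u N) t, rep (ev u M) t]) - lv v (ev u (p i)) t) :=
    Sm.sum _ fun i hi => hsc i (Finset.ne_of_mem_erase (Finset.mem_of_mem_erase hi))
  refine (hsW.add hsum).mono (Eventually.of_forall fun t => ?_)
  have hmem1 : i1 ∈ Finset.univ.erase i0 := Finset.mem_erase.2 ⟨hi1, Finset.mem_univ _⟩
  rw [Finset.sum_sub_distrib, Finset.sum_const, nsmul_eq_mul, Finset.card_erase_of_mem hmem1,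
    Finset.card_erase_of_mem (Finset.mem_univ _), Finset.card_univ,
    ← Finset.add_sum_erase _ (fun i => lv v (ev u (p i)) t) (Finset.mem_univ i0),
    ← Finset.add_sum_erase _ (fun i => lv v (ev u (p i)) t) hmem1]
  have hc : ((Fintype.card ι - 1 - 1 : ℕ) : ℝ) = (Fintype.card ι : ℝ) - 2 := by
    rw [Nat.sub_sub, Nat.cast_sub hcard]
    norm_num
  rw [hc]
  linarith

/-- a prime factor of two forms divides the coordinates -/
theorem no_common (hS : ∀ w : InfinitePlace k, Sum.inl w ∈ S) {μ : Type} [Fintype μ]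
    (Z : μ → MvPolynomial (Fin r) (FF k σ)) (i0 : μ) (hZ0 : Z i0 ≠ 0)
    (hZ : Sm σ fun t => -ho S fun i => rep (ev u (Z i)) t)
    (π : MvPolynomial (Fin r) (FF k σ)) (hπ : Irreducible π)
    (h : ¬ π ∣ vars' (FF k σ) r) : ¬ ∀ i, π ∣ Z i := by
  intro hd
  choose q hq using hd
  apply irr_large hu hS π hπ h
  have h1 := cf_small (S := S) hS q
  refine (hZ.add h1).mono ?_
  have h2 : ∀ᶠ t in (σ.𝒰 : Filter ℕ), ∀ i, ∀ v : HeightOneSpectrum (𝓞 k),
      fv v (rep (ev u (Z i)) t) = fv v (rep (ev u π) t) * fv v (rep (ev u (q i)) t) := by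
    rw [Filter.eventually_all]
    intro i
    exact fv_mul hu (ev u π) (ev u (q i)) (ev u (Z i)) (by rw [hq i, map_mul])
  filter_upwards [h2, cf_bound hu q, rep_ne _ (ev_ne hu hS π hπ.ne_zero),
    rep_ne _ (ev_ne hu hS _ hZ0)] with t t1 t2 t3 t4
  have h3 := ho_mul_le S (fun i => rep (ev u (Z i)) t) (ne_of_coord (i := i0) t4)
    (fun _ : Unit => rep (ev u π) t) (ne_of_coord (i := ()) t3) (c1 fun x => rep (cf q x) t)
    (ne_of_one _ none rfl) fun v hv => by
      rw [nm_unit]
      refine nm_le _ (mul_nonneg ((fv v).nonneg _) (nm_nonneg _ _)) fun i => ?_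
      rw [t1 i v]
      exact mul_le_mul_of_nonneg_left (t2 v hv i) ((fv v).nonneg _)
  linarith

/-- **The truncated inequality for linear forms in two variables.** -/
theorem bin_core (hS : ∀ w : InfinitePlace k, Sum.inl w ∈ S)
    (hxy : ∀ i j, i ≠ j → x i * y j - x j * y i ≠ 0) (hcard : 2 ≤ Fintype.card ι)
    (hp : ∀ i, p i = algebraMap k _ (x i) * N + algebraMap k _ (y i) * M)
    (hp0 : ∀ i, p i ≠ 0) (hM : M ≠ 0) (hNM : ∀ c, N ≠ MvPolynomial.C c * M)
    (hZ : Sm σ fun t => -ho S fun i => rep (ev u (![N, M] i)) t)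
    (R : MvPolynomial (Fin r) (FF k σ)) (hR : R ≠ 0) (τ : G k σ) (hτ : τ ≠ 0) (m s : ℕ)
    (hm : m ≠ 0)
    (h1 : ∀ᶠ t in (σ.𝒰 : Filter ℕ), ∀ v : HeightOneSpectrum (𝓞 k), Sum.inr v ∉ S →
      fv v (rep τ t) ≤ 1 ∧ fv v (rep (ev u R) t) ^ m * fv v (rep τ t) *
        nm (fv v) (fun i => rep (ev u (![N, M] i)) t) ^ s ≤ fv v (rep (ev u (∏ i, p i)) t)) :
    ∃ A C : MvPolynomial (Fin r) (FF k σ), A ∣ R ∧ A ∣ ∏ i, p i ∧
      (∀ π, Irreducible π → π ∣ A → ¬ π ∣ vars' (FF k σ) r) ∧ C ∣ ∏ i, p i ∧ A ≠ 0 ∧ C ≠ 0 ∧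
      IsRelPrime C R ∧ (Sm σ fun t => hs S (ev u C) t - hs S τ t) ∧
      Sm σ fun t => ((Fintype.card ι : ℝ) - 2) *
        logHeight ![rep (ev u N) t, rep (ev u M) t] - hs S (ev u A) t - hs S (ev u C) t := by
  have hch : CharZero (FF k σ) := charZero_of_injective_algebraMap
    (algebraMap k (FF k σ)).injective
  obtain ⟨l, hl⟩ := exists_wder N M hM hNM
  obtain ⟨D, hD⟩ : ∃ D : Derivation k (MvPolynomial (Fin r) (FF k σ))
      (MvPolynomial (Fin r) (FF k σ)), D = (wder (FF k σ) l).restrictScalars k := ⟨_, rfl⟩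
  have hDw : ∀ q, D q = wder (FF k σ) l q := fun q => by
    rw [hD]
    rfl
  have hDs : ∀ q, (D q).support ⊆ q.support := fun q => by
    rw [hDw]
    exact wder_support l q
  have hW : N * D M - M * D N ≠ 0 := by
    rw [hDw, hDw]
    exact hl
  have hN0 : N ≠ 0 := by
    rintro rfl
    exact hNM 0 (by simp)
  have hP0 : ∏ i, p i ≠ 0 := Finset.prod_ne_zero_iff.2 fun i _ => hp0 i
  obtain ⟨A, C, hAR, hAP, hAv, hCP, hA0, hC0, hCR, -, hs1, hs2⟩ := star hu hS (∏ i, p i)
    (N * D M - M * D N) R hP0 hW hR (by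
      intro π hπ hπv n hn
      rcases Nat.eq_zero_or_pos n with rfl | hn0
      · rw [pow_zero]
        exact one_dvd _
      have hπp : π ∣ ∏ i, p i := (dvd_pow_self π (Nat.succ_ne_zero n)).trans hn
      obtain ⟨i, -, hi⟩ := (hπ.prime.dvd_finsetProd_iff _).1 hπp
      have hj : ∀ j, j ≠ i → ¬ π ∣ p j := by
        intro j hj hπj
        apply no_common hu hS ![N, M] 0 hN0 hZ π hπ hπv
        obtain ⟨r1, r2⟩ := pair_rel (algebraMap k (MvPolynomial (Fin r) (FF k σ)) (x i))
          (algebraMap k _ (y i)) (algebraMap k _ (x j)) (algebraMap k _ (y j)) N M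
        rw [← hp i, ← hp j, ← map_mul, ← map_mul, ← map_sub] at r1 r2
        have hun : IsUnit (algebraMap k (MvPolynomial (Fin r) (FF k σ))
            (x i * y j - x j * y i)) := (IsUnit.mk0 _ (hxy i j hj.symm)).map _
        intro a
        fin_cases a
        · show π ∣ N
          rw [← hun.dvd_mul_left, r1]
          exact dvd_sub (dvd_mul_of_dvd_right hi _) (dvd_mul_of_dvd_right hπj _)
        · show π ∣ M
          rw [← hun.dvd_mul_left, r2]
          exact dvd_sub (dvd_mul_of_dvd_right hπj _) (dvd_mul_of_dvd_right hi _)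
      have hni : π ^ (n + 1) ∣ p i := by
        rw [← Finset.mul_prod_erase _ _ (Finset.mem_univ i)] at hn
        refine hπ.prime.pow_dvd_of_dvd_mul_right _ ?_ hn
        intro h
        obtain ⟨j, hj1, hj2⟩ := (hπ.prime.dvd_finsetProd_iff _).1 h
        exact hj j (Finset.ne_of_mem_erase hj1) hj2
      have hnt : Nontrivial ι := Fintype.one_lt_card_iff_nontrivial.1 (by omega)
      obtain ⟨j, hji⟩ := exists_ne i
      have h2 : algebraMap k _ (x i * y j - x j * y i) * (N * D M - M * D N) =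
          p i * D (p j) - p j * D (p i) := by
        rw [hp i, hp j, map_add, map_add, D.leibniz, D.leibniz, D.leibniz, D.leibniz,
          D.map_algebraMap, D.map_algebraMap, D.map_algebraMap, D.map_algebraMap]
        simp only [smul_eq_mul, mul_zero, add_zero, map_sub, map_mul]
        ring
      have hun : IsUnit (algebraMap k (MvPolynomial (Fin r) (FF k σ))
          (x i * y j - x j * y i)) := (IsUnit.mk0 _ (hxy i j hji.symm)).map _
      rw [← hun.dvd_mul_left, h2]
      refine dvd_sub (dvd_mul_of_dvd_left ?_ _) (dvd_mul_of_dvd_right ?_ _)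
      · exact (pow_dvd_pow π (Nat.le_succ n)).trans hni
      · exact dvd_der D π (p i) n hni) τ hτ ![N, M] 0 hN0 hZ m s hm h1
  refine ⟨A, C, hAR, hAP, hAv, hCP, hA0, hC0, hCR, hs2, ?_⟩
  have hloc : Sm σ fun t => ∑ v ∈ S, wt v * (lv v (ev u (N * D M - M * D N)) t +
      ((Fintype.card ι : ℝ) - 2) * Real.log (nm (av v) ![rep (ev u N) t, rep (ev u M) t]) -
      ∑ i, lv v (ev u (p i)) t) :=
    Sm.sum _ fun v hv => (bin_local hu hS v hv hxy hcard hp hp0 D hDs hW).smul (wt_nonneg v)
  have hcf := cf_small (S := S) hS ![N, M]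
  have hc2 : (0 : ℝ) ≤ (Fintype.card ι : ℝ) - 2 := by
    have : (2 : ℝ) ≤ Fintype.card ι := by exact_mod_cast hcard
    linarith
  refine ((hloc.add hs1).add (hcf.smul hc2)).mono ?_
  filter_upwards [hs_prod (S := S) Finset.univ (fun i => ev u (p i))
    (fun i _ => ev_ne hu hS _ (hp0 i)), cf_bound hu ![N, M], rep_ne _ (ev_ne hu hS N hN0)]
    with t t1 t2 t3
  rw [← map_prod] at t1
  have hsplit := logHeight_split S hS ![rep (ev u N) t, rep (ev u M) t]
    (ne_of_coord (i := (0 : Fin 2)) t3)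
  have hho : ho S ![rep (ev u N) t, rep (ev u M) t] ≤
      ho S (c1 fun x => rep (cf ![N, M] x) t) := by
    refine ho_le S _ (ne_of_coord (i := (0 : Fin 2)) t3) _ (ne_of_one _ none rfl) fun v hv => ?_
    refine nm_le _ (nm_nonneg _ _) fun i => ?_
    have := t2 v hv i
    fin_cases i <;> exact this
  have e1 : ∑ v ∈ S, wt v * (lv v (ev u (N * D M - M * D N)) t +
      ((Fintype.card ι : ℝ) - 2) * Real.log (nm (av v) ![rep (ev u N) t, rep (ev u M) t]) -
      ∑ i, lv v (ev u (p i)) t) = hs S (ev u (N * D M - M * D N)) t +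
      ((Fintype.card ι : ℝ) - 2) *
        ∑ v ∈ S, wt v * Real.log (nm (av v) ![rep (ev u N) t, rep (ev u M) t]) -
      ∑ i, hs S (ev u (p i)) t := by
    unfold hs
    rw [Finset.mul_sum, Finset.sum_comm (s := Finset.univ), ← Finset.sum_add_distrib,
      ← Finset.sum_sub_distrib]
    refine Finset.sum_congr rfl fun v _ => ?_
    rw [← Finset.mul_sum]
    ring
  rw [e1, t1, hsplit]
  nlinarith [mul_le_mul_of_nonneg_left hho hc2]

end

end Pool.Agent.Run7.h720
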