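import Mathlib

/-!
Boxes of monomials: the dimension of the space of the combinations of two coprime polynomials.
-/

set_option autoImplicit false

namespace Pool.Agent.Run7.h720

open MvPolynomial

/-- the exponents in a box -/
def Ebox {r : ℕ} (D : Fin r → ℕ) : Set (Fin r →₀ ℕ) := {e | ∀ i, e i < D i}

/-- the exponents in a box as vectors of elements of `Fin` -/
noncomputable def expo {r : ℕ} (D : Fin r → ℕ) : ((i : Fin r) → Fin (D i)) ≃ Ebox D where
  toFun a := ⟨Finsupp.equivFunOnFinite.symm fun i => (a i : ℕ), fun i => (a i).2⟩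
  invFun e i := ⟨e.1 i, e.2 i⟩
  left_inv a := by
    funext i
    rfl
  right_inv e := by
    apply Subtype.ext
    ext i
    rfl

variable {F : Type} [Field F] {r : ℕ}

theorem finrank_box (D : Fin r → ℕ) :
    Module.finrank F (restrictSupport F (Ebox D)) = ∏ i, D i := by
  classical
  have b := (basisRestrictSupport F (Ebox D)).reindex (expo D).symm
  rw [Module.finrank_eq_card_basis b, Fintype.card_pi]
  exact Finset.prod_congr rfl fun i _ => Fintype.card_fin _

instance finite_box (D : Fin r → ℕ) : FiniteDimensional F (restrictSupport F (Ebox D)) :=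
  Module.Finite.of_basis ((basisRestrictSupport F (Ebox D)).reindex (expo D).symm)

theorem mem_box (D : Fin r → ℕ) (p : MvPolynomial (Fin r) F) (hp : p ≠ 0) :
    p ∈ restrictSupport F (Ebox D) ↔ ∀ i, degreeOf i p < D i := by
  rw [mem_restrictSupport_iff]
  constructor
  · intro h i
    have h1 : 0 < D i := by
      obtain ⟨e, he⟩ := support_nonempty.2 hp
      exact (Nat.zero_le _).trans_lt (h he i)
    rw [degreeOf_lt_iff h1]
    intro e he
    exact h he i
  · intro h e he i
    exact (degreeOf_lt_iff ((Nat.zero_le _).trans_lt (h i))).1 (h i) e he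

theorem mul_mem_box (D D' : Fin r → ℕ) (a f : MvPolynomial (Fin r) F)
    (ha : a ∈ restrictSupport F (Ebox D)) (h : ∀ i, degreeOf i f + D i ≤ D' i) :
    a * f ∈ restrictSupport F (Ebox D') := by
  by_cases h0 : a * f = 0
  · rw [h0]
    exact Submodule.zero_mem _
  have ha0 : a ≠ 0 := left_ne_zero_of_mul h0
  rw [mem_box _ _ h0]
  rw [mem_box _ _ ha0] at ha
  intro i
  have h1 := degreeOf_mul_le i a f
  have h2 := ha i
  have h3 := h i
  omega

/-- the combinations of two polynomials with coefficients in a box -/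
noncomputable def comb (f g : MvPolynomial (Fin r) F) (D : Fin r → ℕ) :
    (restrictSupport F (Ebox D) × restrictSupport F (Ebox D)) →ₗ[F] MvPolynomial (Fin r) F :=
  (LinearMap.coprod (LinearMap.mulRight F f) (LinearMap.mulRight F g)).comp
    (LinearMap.prodMap (restrictSupport F (Ebox D)).subtype (restrictSupport F (Ebox D)).subtype)

theorem comb_apply (f g : MvPolynomial (Fin r) F) (D : Fin r → ℕ)
    (x : restrictSupport F (Ebox D) × restrictSupport F (Ebox D)) :
    comb f g D x = (x.1 : MvPolynomial (Fin r) F) * f + (x.2 : MvPolynomial (Fin r) F) * g := by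
  unfold comb
  rw [LinearMap.comp_apply, LinearMap.coprod_apply]
  rfl

/-- the space of the combinations with coefficients in a box -/
noncomputable def Wbox (f g : MvPolynomial (Fin r) F) (D : Fin r → ℕ) :
    Submodule F (MvPolynomial (Fin r) F) := LinearMap.range (comb f g D)

theorem Wbox_le (f g : MvPolynomial (Fin r) F) (D D' : Fin r → ℕ)
    (h : ∀ i, max (degreeOf i f) (degreeOf i g) + D i ≤ D' i) :
    Wbox f g D ≤ restrictSupport F (Ebox D') := by
  intro y hy
  unfold Wbox at hy
  rw [LinearMap.mem_range] at hy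
  obtain ⟨x, hx⟩ := hy
  rw [← hx, comb_apply]
  refine Submodule.add_mem _ (mul_mem_box D D' _ f x.1.2 fun i => ?_)
    (mul_mem_box D D' _ g x.2.2 fun i => ?_)
  · have := h i
    have := le_max_left (degreeOf i f) (degreeOf i g)
    omega
  · have := h i
    have := le_max_right (degreeOf i f) (degreeOf i g)
    omega

/-- multiplication as a map between boxes -/
noncomputable def mulBox (f : MvPolynomial (Fin r) F) (D D' : Fin r → ℕ)
    (h : ∀ i, degreeOf i f + D i ≤ D' i) :
    restrictSupport F (Ebox D) →ₗ[F] restrictSupport F (Ebox D') :=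
  LinearMap.codRestrict _ ((LinearMap.mulRight F f).comp (restrictSupport F (Ebox D)).subtype)
    fun c => by
      rw [LinearMap.comp_apply, LinearMap.mulRight_apply, Submodule.subtype_apply]
      exact mul_mem_box D D' _ f c.2 h

theorem mulBox_apply (f : MvPolynomial (Fin r) F) (D D' : Fin r → ℕ)
    (h : ∀ i, degreeOf i f + D i ≤ D' i) (c : restrictSupport F (Ebox D)) :
    ((mulBox f D D' h c : restrictSupport F (Ebox D')) : MvPolynomial (Fin r) F) =
      (c : MvPolynomial (Fin r) F) * f := by
  unfold mulBox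
  rw [LinearMap.codRestrict_apply, LinearMap.comp_apply, LinearMap.mulRight_apply,
    Submodule.subtype_apply]

/-- the kernel -/
theorem ker_comb (f g : MvPolynomial (Fin r) F) (hf : f ≠ 0) (hg : g ≠ 0)
    (hfg : IsRelPrime f g) (D D' : Fin r → ℕ)
    (h : ∀ i, max (degreeOf i f) (degreeOf i g) + D' i = D i)
    (h1 : ∀ i, degreeOf i g + D' i ≤ D i) (h2 : ∀ i, degreeOf i f + D' i ≤ D i) :
    LinearMap.ker (comb f g D) ≤
      LinearMap.range ((mulBox g D' D h1).prod (-(mulBox f D' D h2))) := by
  intro x hab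
  rw [LinearMap.mem_ker, comb_apply] at hab
  have ha := x.1.2
  have hb' := x.2.2
  obtain ⟨a, hax⟩ : ∃ a : MvPolynomial (Fin r) F, a = (x.1 : MvPolynomial (Fin r) F) := ⟨_, rfl⟩
  obtain ⟨b, hbx⟩ : ∃ b : MvPolynomial (Fin r) F, b = (x.2 : MvPolynomial (Fin r) F) := ⟨_, rfl⟩
  rw [← hax, ← hbx] at hab
  rw [← hax] at ha
  rw [← hbx] at hb'
  have hga : g ∣ a * f := by
    rw [eq_neg_of_add_eq_zero_left hab]
    exact (dvd_mul_left g _).neg_right
  obtain ⟨c, hc⟩ := hfg.symm.dvd_of_dvd_mul_right hga
  have hb : b = -(c * f) := by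
    have h3 : b * g = -(c * f) * g := by
      rw [hc] at hab
      linear_combination hab
    exact mul_right_cancel₀ hg h3
  have hcm : c ∈ restrictSupport F (Ebox D') := by
    by_cases hc0 : c = 0
    · rw [hc0]
      exact Submodule.zero_mem _
    rw [mem_box _ _ hc0]
    intro i
    have ha0 : a ≠ 0 := by
      rw [hc]
      exact mul_ne_zero hg hc0
    have hb0 : b ≠ 0 := by
      rw [hb]
      exact neg_ne_zero.2 (mul_ne_zero hc0 hf)
    have e1 := (mem_box D _ ha0).1 ha i
    have e2 := (mem_box D _ hb0).1 hb' i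
    rw [hc, degreeOf_mul_eq hg hc0] at e1
    rw [hb, degreeOf_neg, degreeOf_mul_eq hc0 hf] at e2
    have e3 := h i
    rcases max_choice (degreeOf i f) (degreeOf i g) with e4 | e4 <;> rw [e4] at e3 <;> omega
  rw [LinearMap.mem_range]
  refine ⟨⟨c, hcm⟩, ?_⟩
  rw [LinearMap.prod_apply]
  apply Prod.ext
  · apply Subtype.ext
    rw [← hax]
    refine Eq.trans (mulBox_apply g D' D h1 _) ?_
    rw [hc, mul_comm]
  · apply Subtype.ext
    rw [← hbx, hb]
    exact congrArg Neg.neg (mulBox_apply f D' D h2 _)

/-- the dimension of the space of combinations of coprime polynomials -/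
theorem finrank_Wbox (f g : MvPolynomial (Fin r) F) (hf : f ≠ 0) (hg : g ≠ 0)
    (hfg : IsRelPrime f g) (D D' : Fin r → ℕ)
    (h : ∀ i, max (degreeOf i f) (degreeOf i g) + D' i = D i) :
    2 * ∏ i, D i ≤ Module.finrank F (Wbox f g D) + ∏ i, D' i := by
  have h1 := LinearMap.finrank_range_add_finrank_ker (comb f g D)
  rw [Module.finrank_prod, finrank_box] at h1
  have e1 : ∀ i, degreeOf i g + D' i ≤ D i := fun i => by
    have := h i
    have := le_max_right (degreeOf i f) (degreeOf i g)
    omega
  have e2 : ∀ i, degreeOf i f + D' i ≤ D i := fun i => by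
    have := h i
    have := le_max_left (degreeOf i f) (degreeOf i g)
    omega
  have h2 := ker_comb f g hf hg hfg D D' h e1 e2
  have h3 := Submodule.finrank_mono h2
  have h4 := LinearMap.finrank_range_le ((mulBox g D' D e1).prod (-(mulBox f D' D e2)))
  rw [finrank_box] at h4
  have h5 : Module.finrank F (Wbox f g D) = Module.finrank F (LinearMap.range (comb f g D)) := rfl
  omega

end Pool.Agent.Run7.h720
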