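import Pool.Agent.Run7.h720.Star

/-!
Derivations of polynomial rings which do not enlarge supports; their values at independent germs of
units; divisibility.
-/

set_option autoImplicit false
set_option linter.unusedSectionVars false

namespace Pool.Agent.Run7.h720

open NumberField IsDedekindDomain Height Filter Topology
open Pool.Agent.W180.OP (Pl av wt fv fv_support_finite wt_nonneg nrm)
open Pool.Agent.K1H83.VN
open MvPolynomial (monomial)

section alg
variable {F : Type} [Field F] {r : ℕ}

/-- the derivation which multiplies a monomial by its weight -/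
noncomputable def wder (F : Type) [Field F] {r : ℕ} (l : Fin r → ℕ) :
    Derivation F (MvPolynomial (Fin r) F) (MvPolynomial (Fin r) F) :=
  MvPolynomial.mkDerivation F fun j => monomial (Finsupp.single j 1) (l j : F)

theorem wder_monomial (l : Fin r → ℕ) (e : Fin r →₀ ℕ) (c : F) :
    wder F l (monomial e c) = monomial e (c * ((∑ j, e j * l j : ℕ) : F)) := by
  classical
  unfold wder
  rw [MvPolynomial.mkDerivation_monomial, Finsupp.sum_fintype _ _ (fun i => by simp)]
  have h1 : ∀ j, monomial (e - Finsupp.single j 1) ((e j : ℕ) : F) •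
      (monomial (Finsupp.single j 1) (l j : F) : MvPolynomial (Fin r) F) =
        monomial e (((e j * l j : ℕ)) : F) := by
    intro j
    rw [smul_eq_mul, MvPolynomial.monomial_mul]
    rcases Nat.eq_zero_or_pos (e j) with h | h
    · rw [h]
      simp
    · rw [tsub_add_cancel_of_le]
      · push_cast
        rfl
      · rw [Finsupp.single_le_iff]
        exact h
  rw [Finset.sum_congr rfl fun j _ => h1 j, ← map_sum, MvPolynomial.smul_monomial]
  congr 1
  rw [smul_eq_mul]
  push_cast
  rfl

theorem wder_coeff (l : Fin r → ℕ) (p : MvPolynomial (Fin r) F) (e : Fin r →₀ ℕ) :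
    MvPolynomial.coeff e (wder F l p) =
      MvPolynomial.coeff e p * ((∑ j, e j * l j : ℕ) : F) := by
  classical
  induction p using MvPolynomial.induction_on' with
  | monomial e' c =>
    rw [wder_monomial, MvPolynomial.coeff_monomial, MvPolynomial.coeff_monomial]
    split_ifs with h
    · rw [h]
    · rw [zero_mul]
  | add p q hp hq =>
    rw [map_add, MvPolynomial.coeff_add, MvPolynomial.coeff_add, hp, hq, add_mul]

theorem wder_support (l : Fin r → ℕ) (p : MvPolynomial (Fin r) F) :
    (wder F l p).support ⊆ p.support := by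
  intro e he
  rw [MvPolynomial.mem_support_iff] at he ⊢
  intro h
  apply he
  rw [wder_coeff, h, zero_mul]

theorem spec_wder (l : Fin r → ℕ) (p : MvPolynomial (Fin r) F) :
    spec l (wder F l p) = Polynomial.X * Polynomial.derivative (spec l p) := by
  induction p using MvPolynomial.induction_on' with
  | monomial e' c =>
    rw [wder_monomial, spec_monomial, spec_monomial, Polynomial.derivative_C_mul_X_pow]
    rcases Nat.eq_zero_or_pos (∑ j, e' j * l j) with h | h
    · rw [h]
      simp
    · obtain ⟨n, hn⟩ := Nat.exists_eq_succ_of_ne_zero h.ne'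
      rw [hn, Nat.succ_eq_add_one, Nat.add_sub_cancel, pow_succ]
      ring
  | add p q hp hq =>
    rw [map_add, map_add, map_add, hp, hq, map_add, mul_add]

/-- proportional polynomials in one variable -/
theorem prop_of_wronskian [CharZero F] (n m : Polynomial F) (hm : m ≠ 0)
    (h : n * Polynomial.derivative m = m * Polynomial.derivative n) :
    ∃ c : F, n = Polynomial.C c * m := by
  classical
  -- divide by the greatest common divisor
  by_cases hn : n = 0
  · exact ⟨0, by rw [hn]; simp⟩
  obtain ⟨g, hg⟩ : ∃ g, g = gcd n m := ⟨_, rfl⟩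
  have hg0 : g ≠ 0 := by
    rw [hg]
    exact gcd_ne_zero_of_right hm
  obtain ⟨n', hn'⟩ := gcd_dvd_left n m
  obtain ⟨m', hm'⟩ := gcd_dvd_right n m
  rw [← hg] at hn' hm'
  have hcop : IsCoprime n' m' := by
    have h1 := isCoprime_div_gcd_div_gcd (p := n) (q := m) hm
    rw [← hg] at h1
    have e1 : n / g = n' := by
      conv_lhs => rw [hn']
      exact mul_div_cancel_left₀ _ hg0
    have e2 : m / g = m' := by
      conv_lhs => rw [hm']
      exact mul_div_cancel_left₀ _ hg0
    rwa [e1, e2] at h1
  have hm0' : m' ≠ 0 := by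
    rintro rfl
    exact hm (by rw [hm', mul_zero])
  have h2 : n' * Polynomial.derivative m' = m' * Polynomial.derivative n' := by
    rw [hn', hm', Polynomial.derivative_mul, Polynomial.derivative_mul] at h
    have h3 : g ^ 2 * (n' * Polynomial.derivative m') =
        g ^ 2 * (m' * Polynomial.derivative n') := by linear_combination h
    exact mul_left_cancel₀ (pow_ne_zero 2 hg0) h3
  have h3 : m' ∣ Polynomial.derivative m' := by
    apply hcop.symm.dvd_of_dvd_mul_left
    rw [h2]
    exact dvd_mul_right _ _
  have h4 : n' ∣ Polynomial.derivative n' := by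
    apply hcop.dvd_of_dvd_mul_left
    rw [← h2]
    exact dvd_mul_right _ _
  have h5 : ∀ p : Polynomial F, p ∣ Polynomial.derivative p → ∃ c, p = Polynomial.C c := by
    intro p hp
    have h6 : Polynomial.derivative p = 0 := by
      by_contra h7
      have h8 := Polynomial.degree_le_of_dvd hp h7
      exact absurd (Polynomial.degree_derivative_lt (by
        rintro rfl
        exact h7 (by simp))) (not_lt.2 h8)
    exact ⟨p.coeff 0, Polynomial.eq_C_of_natDegree_eq_zero
      (Polynomial.derivative_eq_zero.1 h6)⟩
  obtain ⟨c, hc⟩ := h5 n' h4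
  obtain ⟨d, hd⟩ := h5 m' h3
  have hd0 : d ≠ 0 := by
    rintro rfl
    exact hm0' (by rw [hd]; simp)
  refine ⟨c / d, ?_⟩
  rw [hn', hm', hc, hd]
  have h9 : Polynomial.C c = Polynomial.C (c / d) * Polynomial.C d := by
    rw [← Polynomial.C_mul, div_mul_cancel₀ _ hd0]
  rw [h9]
  ring

/-- polynomials which are not proportional have a nonzero Wronskian for some weight -/
theorem exists_wder [CharZero F] (N M : MvPolynomial (Fin r) F) (hM : M ≠ 0)
    (h : ∀ c : F, N ≠ MvPolynomial.C c * M) :
    ∃ l : Fin r → ℕ, N * wder F l M - M * wder F l N ≠ 0 := by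
  classical
  obtain ⟨l, hl⟩ := exists_weight (N.support ∪ M.support)
  refine ⟨l, fun h0 => ?_⟩
  have hNl : ∀ e ∈ N.support, ∀ e' ∈ N.support,
      ∑ j, e j * l j = ∑ j, e' j * l j → e = e' := fun e he e' he' =>
    hl e (Finset.mem_union_left _ he) e' (Finset.mem_union_left _ he')
  have hMl : ∀ e ∈ M.support, ∀ e' ∈ M.support,
      ∑ j, e j * l j = ∑ j, e' j * l j → e = e' := fun e he e' he' =>
    hl e (Finset.mem_union_right _ he) e' (Finset.mem_union_right _ he')
  have hm0 : spec l M ≠ 0 := by
    intro h1
    obtain ⟨e, he⟩ := MvPolynomial.support_nonempty.2 hM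
    have h2 := spec_coeff l M hMl e he
    rw [h1, Polynomial.coeff_zero] at h2
    exact MvPolynomial.mem_support_iff.1 he h2.symm
  have h1 := congrArg (spec l) h0
  rw [map_sub, map_mul, map_mul, map_zero, spec_wder, spec_wder, sub_eq_zero] at h1
  have h2 : spec l N * Polynomial.derivative (spec l M) =
      spec l M * Polynomial.derivative (spec l N) := by
    have h3 : Polynomial.X * (spec l N * Polynomial.derivative (spec l M)) =
        Polynomial.X * (spec l M * Polynomial.derivative (spec l N)) := by
      linear_combination h1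
    exact mul_left_cancel₀ Polynomial.X_ne_zero h3
  obtain ⟨c, hc⟩ := prop_of_wronskian _ _ hm0 h2
  apply h c
  have hsp : spec l (N - MvPolynomial.C c * M) = 0 := by
    rw [map_sub, map_mul, hc]
    have : spec l (MvPolynomial.C c) = Polynomial.C c := by
      unfold spec
      rw [MvPolynomial.aeval_C]
      rfl
    rw [this, sub_self]
  by_contra hne
  have hne' : N - MvPolynomial.C c * M ≠ 0 := sub_ne_zero.2 hne
  have hsub : (N - MvPolynomial.C c * M).support ⊆ N.support ∪ M.support := by
    intro e he
    rw [MvPolynomial.mem_support_iff, MvPolynomial.coeff_sub, MvPolynomial.coeff_C_mul] at he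
    rw [Finset.mem_union, MvPolynomial.mem_support_iff, MvPolynomial.mem_support_iff]
    by_contra hcon
    push Not at hcon
    apply he
    rw [hcon.1, hcon.2, mul_zero, sub_zero]
  obtain ⟨e, he⟩ := MvPolynomial.support_nonempty.2 hne'
  have h3 := spec_coeff l (N - MvPolynomial.C c * M) (fun a ha b hb => hl a (hsub ha) b (hsub hb))
    e he
  rw [hsp, Polynomial.coeff_zero] at h3
  exact MvPolynomial.mem_support_iff.1 he h3.symm

/-- divisibility of derivatives -/
theorem dvd_der {k : Type} [Field k] {R : Type} [CommRing R] [Algebra k R]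
    (D : Derivation k R R) (π p : R) (n : ℕ) (h : π ^ (n + 1) ∣ p) : π ^ n ∣ D p := by
  obtain ⟨q, rfl⟩ := h
  rw [D.leibniz, D.leibniz_pow]
  refine dvd_add ?_ ?_
  · rw [smul_eq_mul, pow_succ, mul_assoc]
    exact dvd_mul_right _ _
  · rw [smul_eq_mul, smul_eq_mul, Nat.add_sub_cancel]
    refine dvd_mul_of_dvd_right ?_ _
    rw [nsmul_eq_mul]
    refine dvd_mul_of_dvd_right ?_ _
    exact dvd_mul_right _ _

end alg

variable {k : Type} [Field k] [NumberField k] {σ : Sc} {S : Finset (Pl k)} {r : ℕ}

section
variable {u : Fin r → G k σ} (hu : Indep S u)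
include hu

/-- no cancellation: the monomials of a polynomial are bounded by its value -/
theorem val_mon_le (hS : ∀ w : InfinitePlace k, Sum.inl w ∈ S) (v : Pl k) (hv : v ∈ S)
    (p : MvPolynomial (Fin r) (FF k σ)) (e : Fin r →₀ ℕ) (he : e ∈ p.support) :
    (OO σ (av v)).valuation (mon u e) ≤ (OO σ (av v)).valuation (ev u p) := by
  have h3 := lb hS (fun e : p.support => mon u e.1) (fun e => mon_SU hu _)
    (fun e => mon_BB hu _) (fun i j hij => mon_ratio hu _ _ fun h => hij (Subtype.ext h))
    (fun e => ((MvPolynomial.coeff e.1 p : FF k σ) : G k σ))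
    (fun e => (MvPolynomial.coeff e.1 p : FF k σ).2)
    (fun e h => (MvPolynomial.mem_support_iff.1 e.2) (Subtype.ext h)) v hv ⟨e, he⟩
  rw [ev_eq, ← Finset.sum_coe_sort]
  exact h3

/-- a derivation which does not enlarge supports does not enlarge values -/
theorem val_der_le (hS : ∀ w : InfinitePlace k, Sum.inl w ∈ S) (v : Pl k) (hv : v ∈ S)
    (p q : MvPolynomial (Fin r) (FF k σ)) (h : q.support ⊆ p.support) :
    (OO σ (av v)).valuation (ev u q) ≤ (OO σ (av v)).valuation (ev u p) := by
  rw [ev_eq u q]
  refine Valuation.map_sum_le _ fun e he => ?_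
  rw [map_mul]
  calc (OO σ (av v)).valuation ((MvPolynomial.coeff e q : FF k σ) : G k σ) *
        (OO σ (av v)).valuation (mon u e) ≤ 1 * (OO σ (av v)).valuation (mon u e) := by
        gcongr
        exact val_FF_le v (MvPolynomial.coeff e q : FF k σ).2
    _ = (OO σ (av v)).valuation (mon u e) := one_mul _
    _ ≤ _ := val_mon_le hu hS v hv p e (h he)

end

end Pool.Agent.Run7.h720
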