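import Mathlib

/-!
A triangular basis of a subspace with respect to an ordered basis of the space, and the number of
monomials in a box modulo the multiples of two coprime polynomials.
-/

set_option autoImplicit false

namespace Pool.Agent.Run7.h720

/-- triangular systems are independent -/
theorem tri_indep {F V : Type} [Field F] [AddCommGroup V] [Module F V] {N : ℕ} (x : Fin N → V)
    (hx : LinearIndependent F x) (T : Finset (Fin N)) (w : Fin N → V)
    (hw : ∀ i ∈ T, w i - x i ∈ Submodule.span F (x '' {j | j < i})) :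
    LinearIndependent F (fun i : T => w i) := by
  classical
  rw [Fintype.linearIndependent_iff]
  by_contra hcon
  push Not at hcon
  obtain ⟨c, hc, i0, hi0⟩ := hcon
  let A : Finset T := Finset.univ.filter fun i => c i ≠ 0
  have hA : A.Nonempty := ⟨i0, Finset.mem_filter.2 ⟨Finset.mem_univ _, hi0⟩⟩
  obtain ⟨m, hm, hmax⟩ := A.exists_max_image (fun i => (i : Fin N)) hA
  have hcm : c m ≠ 0 := (Finset.mem_filter.1 hm).2
  have h1 : ∀ i : T, i ≠ m → c i • w i ∈ Submodule.span F (x '' {j | j < (m : Fin N)}) := by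
    intro i hi
    by_cases h0 : c i = 0
    · rw [h0, zero_smul]
      exact Submodule.zero_mem _
    have h2 : (i : Fin N) ≤ m := hmax i (Finset.mem_filter.2 ⟨Finset.mem_univ _, h0⟩)
    have h3 : (i : Fin N) < m := lt_of_le_of_ne h2 fun h => hi (Subtype.ext h)
    apply Submodule.smul_mem
    have h4 : w i = (w i - x i) + x i := by abel
    rw [h4]
    refine Submodule.add_mem _ ?_ (Submodule.subset_span ⟨i, h3, rfl⟩)
    exact Submodule.span_mono (Set.image_mono fun j (hj : j < (i : Fin N)) => hj.trans h3)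
      (hw i i.2)
  have h2 : c m • w m ∈ Submodule.span F (x '' {j | j < (m : Fin N)}) := by
    rw [← Finset.add_sum_erase _ _ (Finset.mem_univ m)] at hc
    have h3 : c m • w m = -∑ i ∈ Finset.univ.erase m, c i • w i := eq_neg_of_add_eq_zero_left hc
    rw [h3]
    exact Submodule.neg_mem _ (Submodule.sum_mem _ fun i hi => h1 i (Finset.ne_of_mem_erase hi))
  have h3 : x m ∈ Submodule.span F (x '' {j | j < (m : Fin N)}) := by
    have h4 : w m ∈ Submodule.span F (x '' {j | j < (m : Fin N)}) := by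
      have h5 := Submodule.smul_mem _ (c m)⁻¹ h2
      rwa [smul_smul, inv_mul_cancel₀ hcm, one_smul] at h5
    have h5 : x m = w m - (w m - x m) := by abel
    rw [h5]
    exact Submodule.sub_mem _ h4 (hw m m.2)
  exact (hx.notMem_span_image (fun h : (m : Fin N) < m => lt_irrefl _ h)) h3

/-- a subspace has a triangular basis with respect to any ordered basis of the space -/
theorem greedy {F V : Type} [Field F] [AddCommGroup V] [Module F V] {N : ℕ} (x : Fin N → V)
    (hx : LinearIndependent F x) (W : Submodule F V)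
    (hW : W ≤ Submodule.span F (Set.range x)) :
    ∃ (T : Finset (Fin N)) (w : Fin N → V), T.card = Module.finrank F W ∧
      (∀ i ∈ T, w i ∈ W) ∧ (∀ i ∈ T, w i - x i ∈ Submodule.span F (x '' {j | j < i})) := by
  classical
  have hfd : FiniteDimensional F (Submodule.span F (Set.range x)) :=
    FiniteDimensional.span_of_finite F (Set.finite_range _)
  have hfW : FiniteDimensional F W := Submodule.finiteDimensional_of_le hW
  let T : Finset (Fin N) := Finset.univ.filter fun i => ∃ w ∈ W,
    w - x i ∈ Submodule.span F (x '' {j | j < i})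
  have hT : ∀ i, i ∈ T ↔ ∃ w ∈ W, w - x i ∈ Submodule.span F (x '' {j | j < i}) := by
    intro i
    simp [T]
  have hex : ∀ i, ∃ w, i ∈ T → w ∈ W ∧ w - x i ∈ Submodule.span F (x '' {j | j < i}) := by
    intro i
    by_cases hi : i ∈ T
    · obtain ⟨w, h1, h2⟩ := (hT i).1 hi
      exact ⟨w, fun _ => ⟨h1, h2⟩⟩
    · exact ⟨0, fun h => absurd h hi⟩
  choose w hw using hex
  refine ⟨T, w, ?_, fun i hi => (hw i hi).1, fun i hi => (hw i hi).2⟩
  apply le_antisymm
  · have h1 := tri_indep x hx T w fun i hi => (hw i hi).2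
    have h2 : LinearIndependent F (fun i : T => (⟨w i, (hw i i.2).1⟩ : W)) := by
      refine LinearIndependent.of_comp W.subtype ?_
      exact h1
    have h3 := h2.fintype_card_le_finrank
    rwa [Fintype.card_coe] at h3
  · -- the complement is independent modulo `W`
    have h1 : LinearIndependent F (fun i : {i // i ∉ T} => W.mkQ (x i)) := by
      rw [Fintype.linearIndependent_iff]
      by_contra hcon
      push Not at hcon
      obtain ⟨c, hc, i0, hi0⟩ := hcon
      let A : Finset {i // i ∉ T} := Finset.univ.filter fun i => c i ≠ 0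
      have hA : A.Nonempty := ⟨i0, Finset.mem_filter.2 ⟨Finset.mem_univ _, hi0⟩⟩
      obtain ⟨m, hm, hmax⟩ := A.exists_max_image (fun i => (i : Fin N)) hA
      have hcm : c m ≠ 0 := (Finset.mem_filter.1 hm).2
      apply m.2
      rw [hT]
      refine ⟨(c m)⁻¹ • ∑ i, c i • x i, ?_, ?_⟩
      · apply Submodule.smul_mem
        rw [← Submodule.Quotient.mk_eq_zero, ← Submodule.mkQ_apply, map_sum, ← hc]
        exact Finset.sum_congr rfl fun i _ => by rw [map_smul]
      · rw [← Finset.add_sum_erase _ _ (Finset.mem_univ m), smul_add, smul_smul,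
          inv_mul_cancel₀ hcm, one_smul, add_sub_cancel_left]
        refine Submodule.smul_mem _ _ (Submodule.sum_mem _ fun i hi => ?_)
        by_cases h0 : c i = 0
        · rw [h0, zero_smul]
          exact Submodule.zero_mem _
        have h2 : (i : Fin N) ≤ m := hmax i (Finset.mem_filter.2 ⟨Finset.mem_univ _, h0⟩)
        have h3 : (i : Fin N) < m :=
          lt_of_le_of_ne h2 fun h => (Finset.ne_of_mem_erase hi) (Subtype.ext h)
        exact Submodule.smul_mem _ _ (Submodule.subset_span ⟨i, h3, rfl⟩)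
    -- dimensions
    let U : Submodule F V := Submodule.span F (Set.range x)
    let W' : Submodule F U := W.comap U.subtype
    have h2 : Module.finrank F W' = Module.finrank F W :=
      (Submodule.comapSubtypeEquivOfLe hW).finrank_eq
    have h3 : Module.finrank F (U ⧸ W') + Module.finrank F W' = Module.finrank F U :=
      Submodule.finrank_quotient_add_finrank W'
    have h4 : Module.finrank F U = N := by
      rw [finrank_span_eq_card hx, Fintype.card_fin]
    have h5 : LinearIndependent F (fun i : {i // i ∉ T} =>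
        W'.mkQ ⟨x i, Submodule.subset_span ⟨i, rfl⟩⟩) := by
      let f : (U ⧸ W') →ₗ[F] (V ⧸ W) := Submodule.mapQ W' W U.subtype le_rfl
      refine LinearIndependent.of_comp f ?_
      have h6 : f ∘ (fun i : {i // i ∉ T} => W'.mkQ ⟨x i, Submodule.subset_span ⟨i, rfl⟩⟩) =
          fun i : {i // i ∉ T} => W.mkQ (x i) := by
        funext i
        rfl
      rw [h6]
      exact h1
    have h6 := h5.fintype_card_le_finrank
    have h7 : Fintype.card {i // i ∉ T} = N - T.card := by
      rw [Fintype.card_subtype_compl, Fintype.card_fin, Fintype.card_coe]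
    rw [h7] at h6
    have h8 : T.card ≤ N := by
      have := T.card_le_univ
      rwa [Fintype.card_fin] at this
    omega

/-- the number of monomials in boxes -/
theorem box_aux {ι : Type} [DecidableEq ι] (d : ι → ℝ) (hd : ∀ i, 0 ≤ d i) (m : ℝ)
    (hm : ∀ i, 2 * d i ≤ m) (hm0 : 0 ≤ m) (s : Finset ι) :
    0 ≤ ∏ i ∈ s, (m - 2 * d i) ∧ ∏ i ∈ s, (m - 2 * d i) ≤ ∏ i ∈ s, (m - d i) ∧
      ∏ i ∈ s, (m - d i) ≤ m ^ s.card ∧
      (∏ i ∈ s, (m - d i) - ∏ i ∈ s, (m - 2 * d i)) * m ≤ (∑ i ∈ s, d i) * m ^ s.card ∧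
      (m ^ s.card - 2 * ∏ i ∈ s, (m - d i) + ∏ i ∈ s, (m - 2 * d i)) * m ^ 2 ≤
        2 * (∑ i ∈ s, d i) ^ 2 * m ^ s.card := by
  induction s using Finset.induction_on with
  | empty =>
    refine ⟨by simp, by simp, by simp, by simp, ?_⟩
    norm_num
  | insert i s hi ih =>
    rw [Finset.prod_insert hi, Finset.prod_insert hi, Finset.sum_insert hi,
      Finset.card_insert_of_notMem hi, pow_succ]
    set a := m ^ s.card
    set b := ∏ i ∈ s, (m - d i)
    set c := ∏ i ∈ s, (m - 2 * d i)
    set D := ∑ i ∈ s, d i with hD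
    have hD0 : 0 ≤ D := Finset.sum_nonneg fun i _ => hd i
    obtain ⟨h1, h2, h3, h4, h5⟩ := ih
    have e1 := hd i
    have e2 := hm i
    have ha : 0 ≤ a := h1.trans (h2.trans h3)
    have hb : 0 ≤ b := h1.trans h2
    refine ⟨mul_nonneg (by linarith) h1, mul_le_mul (by linarith) h2 h1 (by linarith), ?_, ?_, ?_⟩
    · rw [mul_comm a m]
      exact mul_le_mul (by linarith) h3 hb hm0
    · have e3 : ((m - d i) * b - (m - 2 * d i) * c) * m =
          m * ((b - c) * m) + d i * m * (2 * c - b) := by ring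
      rw [e3]
      have e4 : m * ((b - c) * m) ≤ m * (D * a) := mul_le_mul_of_nonneg_left h4 hm0
      have e5 : d i * m * (2 * c - b) ≤ d i * m * a :=
        mul_le_mul_of_nonneg_left (by linarith) (by positivity)
      nlinarith
    · have e3 : (a * m - 2 * ((m - d i) * b) + (m - 2 * d i) * c) * m ^ 2 =
          m * ((a - 2 * b + c) * m ^ 2) + 2 * d i * m * ((b - c) * m) := by ring
      rw [e3]
      have e4 : m * ((a - 2 * b + c) * m ^ 2) ≤ m * (2 * D ^ 2 * a) :=
        mul_le_mul_of_nonneg_left h5 hm0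
      have e5 : 2 * d i * m * ((b - c) * m) ≤ 2 * d i * m * (D * a) :=
        mul_le_mul_of_nonneg_left h4 (by positivity)
      have e6 : 0 ≤ d i * D * a * m := by positivity
      have e7 : 0 ≤ d i ^ 2 * a * m := by positivity
      nlinarith

/-- the quotient by two coprime polynomials is small -/
theorem box_count (r : ℕ) (d : Fin r → ℕ) (η : ℝ) (hη : 0 < η) :
    ∃ m : ℕ, 0 < m ∧ (∀ i, 2 * d i ≤ m) ∧
      (0 : ℝ) < 2 * ∏ i, ((m : ℝ) - d i) - ∏ i, ((m : ℝ) - 2 * d i) ∧
      ((m : ℝ) ^ r - (2 * ∏ i, ((m : ℝ) - d i) - ∏ i, ((m : ℝ) - 2 * d i))) * m ≤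
        η * (2 * ∏ i, ((m : ℝ) - d i) - ∏ i, ((m : ℝ) - 2 * d i)) := by
  classical
  set D : ℝ := ∑ i, (d i : ℝ) with hD
  have hD0 : 0 ≤ D := Finset.sum_nonneg fun i _ => Nat.cast_nonneg _
  obtain ⟨m, hm⟩ := exists_nat_gt (2 * D + 4 * D ^ 2 / η + 4 * D ^ 2 + 1)
  have hmD : 2 * D + 1 < m := by
    have : 0 ≤ 4 * D ^ 2 / η := by positivity
    nlinarith [sq_nonneg D]
  have hm0 : (0 : ℝ) < m := by linarith
  have hdi : ∀ i, 2 * d i ≤ m := by
    intro i
    have h1 : (d i : ℝ) ≤ D :=
      Finset.single_le_sum (f := fun i => (d i : ℝ)) (fun i _ => Nat.cast_nonneg _)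
        (Finset.mem_univ i)
    have h2 : (2 * d i : ℝ) ≤ m := by linarith
    exact_mod_cast h2
  obtain ⟨h1, h2, h3, h4, h5⟩ := box_aux (fun i => (d i : ℝ)) (fun i => Nat.cast_nonneg _) (m : ℝ)
    (fun i => by exact_mod_cast hdi i) hm0.le Finset.univ
  rw [Finset.card_univ, Fintype.card_fin] at h3 h4 h5
  set a := (m : ℝ) ^ r with ha
  set b := ∏ i, ((m : ℝ) - d i) with hb
  set c := ∏ i, ((m : ℝ) - 2 * d i) with hc
  have ha0 : 0 < a := by positivity
  rw [← hD] at h5
  have k0 : 0 ≤ 4 * D ^ 2 / η := by positivity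
  have k1 : 4 * D ^ 2 ≤ m := by linarith
  have k2 : 4 * D ^ 2 / η ≤ m := by nlinarith [sq_nonneg D]
  rw [div_le_iff₀ hη] at k2
  have k3 : (a - 2 * b + c) * m * m ≤ (2 * D ^ 2) * a := by nlinarith
  have hm1 : (1 : ℝ) ≤ m := by linarith
  -- `a - 2 b + c ≤ a / 2`
  have k4 : a - 2 * b + c ≤ a / 2 := by
    by_contra hcon
    push Not at hcon
    have e1 : a / 2 * m * m < (a - 2 * b + c) * m * m := by
      have := mul_lt_mul_of_pos_right (mul_lt_mul_of_pos_right hcon hm0) hm0
      exact this
    have e2 : a / 2 * m * m ≥ a / 2 * (4 * D ^ 2) * 1 := by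
      have : a / 2 * m * m ≥ a / 2 * (4 * D ^ 2) * m := by gcongr
      have h7 : a / 2 * (4 * D ^ 2) * m ≥ a / 2 * (4 * D ^ 2) * 1 := by gcongr
      linarith
    nlinarith
  refine ⟨m, by exact_mod_cast hm0, hdi, by linarith, ?_⟩
  have k5 : (a - (2 * b - c)) * m * m ≤ η * (2 * b - c) * m := by
    have e1 : (2 * D ^ 2) * a ≤ η * m / 2 * a := by
      apply mul_le_mul_of_nonneg_right _ ha0.le
      linarith
    have e2 : η * m / 2 * a ≤ η * m * (2 * b - c) := by
      have e3 : a / 2 ≤ 2 * b - c := by linarith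
      have e4 : 0 ≤ η * m := by positivity
      nlinarith
    nlinarith
  exact le_of_mul_le_mul_right k5 hm0

end Pool.Agent.Run7.h720
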