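import Pool.Agent.Run7.h720.Mov
import Pool.Agent.Run7.h720.Greedy
import Pool.Agent.Run7.h720.Box

/-!
The values of coprime polynomials at independent germs of units have no large common divisor.
-/

set_option autoImplicit false
set_option linter.unusedSectionVars false

namespace Pool.Agent.Run7.h720

open NumberField IsDedekindDomain Height Filter Topology
open Pool.Agent.W180.OP (Pl av wt fv fv_support_finite wt_nonneg nrm)
open Pool.Agent.K1H83.VN
open MvPolynomial (restrictSupport monomial degreeOf)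

variable {k : Type} [Field k] [NumberField k] {σ : Sc} {S : Finset (Pl k)} {r : ℕ}

/-- a monomial in germs -/
noncomputable def mon (u : Fin r → G k σ) (e : Fin r →₀ ℕ) : G k σ := ∏ i, u i ^ (e i)

/-- evaluation at germs of polynomials with small coefficients -/
noncomputable def ev (u : Fin r → G k σ) : MvPolynomial (Fin r) (FF k σ) →ₐ[FF k σ] G k σ :=
  MvPolynomial.aeval u

theorem ev_eq (u : Fin r → G k σ) (p : MvPolynomial (Fin r) (FF k σ)) :
    ev u p = ∑ e ∈ p.support, ((MvPolynomial.coeff e p : FF k σ) : G k σ) * mon u e := by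
  unfold ev mon
  rw [MvPolynomial.aeval_def, MvPolynomial.eval₂_eq']
  rfl

theorem ev_monomial (u : Fin r → G k σ) (e : Fin r →₀ ℕ) (c : FF k σ) :
    ev u (monomial e c) = (c : G k σ) * mon u e := by
  unfold ev mon
  rw [MvPolynomial.aeval_monomial, Finsupp.prod_fintype _ _ (fun i => pow_zero _)]
  rfl

/-- germs of units which are independent modulo the germs of small height -/
structure Indep (S : Finset (Pl k)) (u : Fin r → G k σ) : Prop where
  su : ∀ i, SU S (u i)
  bb : ∀ i, u i ∈ BB k σ
  ind : ∀ e : Fin r → ℤ, ∏ i, u i ^ (e i) ∈ FF k σ → e = 0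

section
variable {u : Fin r → G k σ} (hu : Indep S u)
include hu

theorem mon_SU (e : Fin r →₀ ℕ) : SU S (mon u e) := SU.prod _ _ fun i _ => (hu.su i).pow _

theorem mon_BB (e : Fin r →₀ ℕ) : mon u e ∈ BB k σ := (BB k σ).prod_mem fun i _ =>
  (BB k σ).pow_mem (hu.bb i) _

theorem mon_ne (e : Fin r →₀ ℕ) : mon u e ≠ 0 := (mon_SU hu e).ne_zero

theorem mon_ratio (e e' : Fin r →₀ ℕ) (h : e ≠ e') : mon u e / mon u e' ∉ FF k σ := by
  intro hm
  apply h
  have h1 : mon u e / mon u e' = ∏ i, u i ^ ((e i : ℤ) - (e' i : ℤ)) := by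
    unfold mon
    rw [← Finset.prod_div_distrib]
    refine Finset.prod_congr rfl fun i _ => ?_
    rw [zpow_sub₀ (hu.su i).ne_zero, zpow_natCast, zpow_natCast]
  rw [h1] at hm
  have h2 := hu.ind _ hm
  ext i
  have h3 := congrFun h2 i
  simp only [Pi.zero_apply] at h3
  omega

theorem mon_indep (hS : ∀ w : InfinitePlace k, Sum.inl w ∈ S) {ι : Type} [Fintype ι]
    (e : ι → Fin r →₀ ℕ) (he : Function.Injective e) :
    LinearIndependent (FF k σ) fun i => mon u (e i) := by
  rw [Fintype.linearIndependent_iff]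
  intro c hc i
  have h1 := sui hS (fun i => mon u (e i)) (fun i => mon_SU hu _) (fun i => mon_BB hu _)
    (fun i j hij => mon_ratio hu _ _ fun h => hij (he h)) (fun i => (c i : G k σ))
    (fun i => (c i).2) hc i
  exact Subtype.ext h1

theorem ev_ne (hS : ∀ w : InfinitePlace k, Sum.inl w ∈ S) (p : MvPolynomial (Fin r) (FF k σ))
    (hp : p ≠ 0) : ev u p ≠ 0 := by
  intro h
  obtain ⟨e0, he0⟩ := MvPolynomial.support_nonempty.2 hp
  have h1 := mon_indep hu hS (fun e : p.support => (e : Fin r →₀ ℕ)) Subtype.val_injective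
  rw [Fintype.linearIndependent_iff] at h1
  have h2 := h1 (fun e => MvPolynomial.coeff e.1 p) (by
    rw [ev_eq, ← Finset.sum_coe_sort] at h
    exact h) ⟨e0, he0⟩
  exact (MvPolynomial.mem_support_iff.1 he0) h2

theorem ev_inj (hS : ∀ w : InfinitePlace k, Sum.inl w ∈ S) : Function.Injective (ev u) := by
  rw [injective_iff_map_eq_zero]
  intro p hp
  by_contra h
  exact ev_ne hu hS p h hp

theorem ev_BB (p : MvPolynomial (Fin r) (FF k σ)) : ev u p ∈ BB k σ := by
  rw [ev_eq]
  exact (BB k σ).sum_mem fun e _ => (BB k σ).mul_mem (FF_le (MvPolynomial.coeff e p).2)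
    (mon_BB hu e)

omit hu in
theorem na_sum {K : Type} [Field K] (f : AbsoluteValue K ℝ) (hf : IsNonarchimedean f) {ι : Type}
    (s : Finset ι) (x : ι → K) (B : ℝ) (hB : 0 ≤ B) (h : ∀ i ∈ s, f (x i) ≤ B) :
    f (∑ i ∈ s, x i) ≤ B := by
  classical
  induction s using Finset.induction_on with
  | empty => simpa using hB
  | insert i s hi ih =>
    rw [Finset.sum_insert hi]
    refine (hf _ _).trans (max_le (h i (Finset.mem_insert_self i s)) ?_)
    exact ih fun j hj => h j (Finset.mem_insert_of_mem hj)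

/-- the coefficients as a vector of germs -/
theorem ev_bound (p : MvPolynomial (Fin r) (FF k σ)) :
    ∀ᶠ t in (σ.𝒰 : Filter ℕ), ∀ v : HeightOneSpectrum (𝓞 k), Sum.inr v ∉ S →
      fv v (rep (ev u p) t) ≤
        nm (fv v) (c1 fun e : p.support => rep ((MvPolynomial.coeff e.1 p : FF k σ) : G k σ) t) := by
  have h1 := rep_sum (σ := σ) p.support fun e =>
    ((MvPolynomial.coeff e p : FF k σ) : G k σ) * mon u e
  have h2 : ∀ᶠ t in (σ.𝒰 : Filter ℕ), ∀ e ∈ p.support,
      rep (((MvPolynomial.coeff e p : FF k σ) : G k σ) * mon u e) t =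
        rep ((MvPolynomial.coeff e p : FF k σ) : G k σ) t * rep (mon u e) t ∧
      IsSU S (rep (mon u e) t) := by
    rw [Filter.eventually_all_finset]
    intro e _
    filter_upwards [rep_mul ((MvPolynomial.coeff e p : FF k σ) : G k σ) (mon u e),
      mon_SU hu e] with t h3 h4
    exact ⟨h3, h4⟩
  rw [← ev_eq] at h1
  filter_upwards [h1, h2] with t h3 h4 v hv
  rw [h3]
  refine na_sum (fv v) (fv_na v) _ _ _ (nm_nonneg _ _) fun e he => ?_
  rw [(h4 e he).1, map_mul, (h4 e he).2.2 v hv, mul_one]
  exact le_nm (fv v) (c1 fun e : p.support =>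
    rep ((MvPolynomial.coeff e.1 p : FF k σ) : G k σ) t) (some ⟨e, he⟩)

/-- an ordering of the monomials in a box by their absolute values -/
theorem exists_order (w : AbsoluteValue k ℝ) (m : ℕ) :
    ∃ x : Fin (m ^ r) → (Fin r →₀ ℕ), Function.Injective x ∧
      Set.range x = Ebox (fun _ => m) ∧
      ∀ i j, i ≤ j → (OO σ w).valuation (mon u (x i)) ≤ (OO σ w).valuation (mon u (x j)) := by
  classical
  let e1 : Fin (m ^ r) ≃ (Fin r → Fin m) := (Fintype.equivFinOfCardEq (by simp)).symm
  let e2 : Fin (m ^ r) ≃ Ebox (fun _ : Fin r => m) := e1.trans (expo (fun _ => m))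
  let f : Fin (m ^ r) → (OO σ w).ValueGroup := fun i => (OO σ w).valuation (mon u (e2 i).1)
  refine ⟨fun i => (e2 (Tuple.sort f i)).1, ?_, ?_, ?_⟩
  · intro i j hij
    exact (Tuple.sort f).injective (e2.injective (Subtype.ext hij))
  · ext e
    constructor
    · rintro ⟨i, rfl⟩
      exact (e2 (Tuple.sort f i)).2
    · intro he
      refine ⟨(Tuple.sort f).symm (e2.symm ⟨e, he⟩), ?_⟩
      simp
  · intro i j hij
    exact Tuple.monotone_sort f hij

/-- the triangular family at one place -/
theorem place_fam (v : Pl k) (m : ℕ)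
    (W : Submodule (FF k σ) (MvPolynomial (Fin r) (FF k σ)))
    (hW : W ≤ restrictSupport (FF k σ) (Ebox (fun _ => m))) :
    ∃ (y : Fin (Module.finrank (FF k σ) W) → MvPolynomial (Fin r) (FF k σ))
      (s : Fin (Module.finrank (FF k σ) W) → (Fin r →₀ ℕ)),
      LinearIndependent (FF k σ) y ∧ (∀ a, y a ∈ W) ∧ Function.Injective s ∧
      (∀ a, s a ∈ Ebox (fun _ : Fin r => m)) ∧
      ∀ a, (OO σ (av v)).valuation (ev u (y a)) ≤ (OO σ (av v)).valuation (mon u (s a)) := by
  classical
  obtain ⟨x, hx1, hx2, hx3⟩ := exists_order hu (av v) m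
  have hli : LinearIndependent (FF k σ) fun i => (monomial (x i) (1 : FF k σ)) := by
    have h1 := (MvPolynomial.basisMonomials (Fin r) (FF k σ)).linearIndependent.comp x hx1
    exact h1
  have hsp : restrictSupport (FF k σ) (Ebox (fun _ : Fin r => m)) =
      Submodule.span (FF k σ) (Set.range fun i => (monomial (x i) (1 : FF k σ))) := by
    rw [MvPolynomial.restrictSupport_eq_span, ← hx2, ← Set.range_comp]
    rfl
  rw [hsp] at hW
  obtain ⟨T, w, hT, hw1, hw2⟩ := greedy _ hli W hW
  let τ : Fin (Module.finrank (FF k σ) W) ≃ T := (Fintype.equivFinOfCardEq (by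
    rw [Fintype.card_coe, hT])).symm
  refine ⟨fun a => w (τ a), fun a => x (τ a), ?_, fun a => hw1 _ (τ a).2, ?_, ?_, ?_⟩
  · exact (tri_indep _ hli T w hw2).comp τ τ.injective
  · intro a b hab
    exact τ.injective (Subtype.ext (hx1 hab))
  · intro a
    have : x (τ a) ∈ Set.range x := ⟨_, rfl⟩
    rwa [hx2] at this
  · intro a
    have h1 : ∀ p ∈ Submodule.span (FF k σ)
        ((fun i => (monomial (x i) (1 : FF k σ))) '' {j | j < ((τ a : T) : Fin (m ^ r))}),
        (OO σ (av v)).valuation (ev u p) ≤ (OO σ (av v)).valuation (mon u (x (τ a))) := by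
      intro p hp
      induction hp using Submodule.span_induction with
      | mem p hp =>
        obtain ⟨j, hj, rfl⟩ := hp
        have e1 : ev u (monomial (x j) (1 : FF k σ)) = mon u (x j) := by
          rw [ev_monomial]
          exact one_mul _
        show (OO σ (av v)).valuation (ev u (monomial (x j) (1 : FF k σ))) ≤ _
        rw [e1]
        exact hx3 _ _ (le_of_lt hj)
      | zero =>
        rw [map_zero, map_zero]
        exact zero_le
      | add p q _ _ hp hq =>
        rw [map_add]
        exact ((OO σ (av v)).valuation.map_add _ _).trans (max_le hp hq)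
      | smul c p _ hp =>
        rw [map_smul]
        have e1 : c • ev u p = (c : G k σ) * ev u p := rfl
        rw [e1, map_mul]
        calc (OO σ (av v)).valuation (c : G k σ) * (OO σ (av v)).valuation (ev u p)
            ≤ 1 * (OO σ (av v)).valuation (mon u (x (τ a))) :=
              mul_le_mul' (val_FF_le v c.2) hp
          _ = _ := one_mul _
    have h2 : ev u (w (τ a)) = ev u (w (τ a) - monomial (x (τ a)) (1 : FF k σ)) +
        mon u (x (τ a)) := by
      have e1 : ev u (monomial (x (τ a)) (1 : FF k σ)) = mon u (x (τ a)) := by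
        rw [ev_monomial]
        exact one_mul _
      rw [map_sub, e1, sub_add_cancel]
    rw [h2]
    exact ((OO σ (av v)).valuation.map_add _ _).trans (max_le (h1 _ (hw2 _ (τ a).2)) le_rfl)

end

end Pool.Agent.Run7.h720
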