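import Pool.Agent.Run7.h720.Gcd

/-!
The values of coprime polynomials at independent germs of units have no large common divisor: the
main argument.
-/

set_option autoImplicit false
set_option linter.unusedSectionVars false

namespace Pool.Agent.Run7.h720

open NumberField IsDedekindDomain Height Filter Topology
open Pool.Agent.W180.OP (Pl av wt fv fv_support_finite wt_nonneg nrm)
open Pool.Agent.K1H83.VN
open MvPolynomial (restrictSupport monomial degreeOf)

variable {k : Type} [Field k] [NumberField k] {σ : Sc} {S : Finset (Pl k)} {r : ℕ}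

section
variable {u : Fin r → G k σ} (hu : Indep S u)
include hu

/-- the absolute values of the monomials in a box -/
theorem mon_bound (v : Pl k) (C : ℝ) (hC : 0 ≤ C)
    (hC1 : ∀ i, ∀ᶠ t in (σ.𝒰 : Filter ℕ), |lv v (u i) t| ≤ C * σ.L t) (m : ℕ)
    (e : Fin r →₀ ℕ) (he : e ∈ Ebox (fun _ : Fin r => m)) :
    ∀ᶠ t in (σ.𝒰 : Filter ℕ), -(m * r * C * σ.L t) ≤ lv v (mon u e) t := by
  have h1 : ∀ᶠ t in (σ.𝒰 : Filter ℕ), ∀ i, |lv v (u i) t| ≤ C * σ.L t ∧ rep (u i) t ≠ 0 ∧
      rep (u i ^ e i) t = rep (u i) t ^ e i := by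
    rw [Filter.eventually_all]
    intro i
    filter_upwards [hC1 i, rep_ne _ (hu.su i).ne_zero, rep_pow (u i) (e i)] with t h1 h2 h3
      using ⟨h1, h2, h3⟩
  filter_upwards [h1, rep_prod Finset.univ fun i => u i ^ e i, L_pos (σ := σ)] with t h2 h3 h4
  have h5 : lv v (mon u e) t = ∑ i, (e i : ℝ) * lv v (u i) t := by
    unfold lv mon
    rw [h3, map_prod, Real.log_prod]
    · refine Finset.sum_congr rfl fun i _ => ?_
      rw [(h2 i).2.2, map_pow, Real.log_pow]
    · intro i _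
      rw [(h2 i).2.2, map_pow]
      exact pow_ne_zero _ ((av v).ne_zero (h2 i).2.1)
  have h6 : ∀ i ∈ (Finset.univ : Finset (Fin r)), -(m * (C * σ.L t)) ≤ (e i : ℝ) * lv v (u i) t := by
    intro i _
    have h7 := (abs_le.1 (h2 i).1).1
    have h8 : (e i : ℝ) ≤ m := by exact_mod_cast (he i).le
    have h9 : (0 : ℝ) ≤ e i := Nat.cast_nonneg _
    have h10 : 0 ≤ C * σ.L t := by positivity
    calc -(m * (C * σ.L t)) ≤ -((e i : ℝ) * (C * σ.L t)) := by
          have := mul_le_mul_of_nonneg_right h8 h10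
          linarith
      _ = (e i : ℝ) * -(C * σ.L t) := by ring
      _ ≤ _ := mul_le_mul_of_nonneg_left h7 h9
  rw [h5]
  have h7 := Finset.sum_le_sum h6
  rw [Finset.sum_const, Finset.card_univ, Fintype.card_fin, nsmul_eq_mul] at h7
  refine le_trans (le_of_eq ?_) h7
  ring

/-- the product formula for the monomials -/
theorem mon_prod (hS : ∀ w : InfinitePlace k, Sum.inl w ∈ S) (e : Fin r →₀ ℕ) :
    ∀ᶠ t in (σ.𝒰 : Filter ℕ), ∑ v ∈ S, wt v * lv v (mon u e) t = 0 := by
  filter_upwards [mon_SU hu e] with t h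
  exact h.prod_formula hS

/-- the sum of the absolute values of the leading monomials -/
theorem lead_sum (v : Pl k) (C : ℝ) (hC : 0 ≤ C)
    (hC1 : ∀ i, ∀ᶠ t in (σ.𝒰 : Filter ℕ), |lv v (u i) t| ≤ C * σ.L t) (m M : ℕ)
    (s : Fin M → (Fin r →₀ ℕ)) (hs : Function.Injective s)
    (hsm : ∀ a, s a ∈ Ebox (fun _ : Fin r => m)) :
    ∀ᶠ t in (σ.𝒰 : Filter ℕ), ∑ a, lv v (mon u (s a)) t ≤
      ∑ e : (Fin r → Fin m), lv v (mon u (expo (fun _ => m) e).1) t +
        ((m : ℝ) ^ r - M) * (m * r * C * σ.L t) := by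
  classical
  let q : Fin M → (Fin r → Fin m) := fun a => (expo (fun _ => m)).symm ⟨s a, hsm a⟩
  have hq : Function.Injective q := by
    intro a b hab
    have h1 := (expo (fun _ : Fin r => m)).symm.injective hab
    exact hs (congrArg Subtype.val h1)
  have hqs : ∀ a, (expo (fun _ => m) (q a)).1 = s a := by
    intro a
    simp [q]
  have h1 : ∀ᶠ t in (σ.𝒰 : Filter ℕ), ∀ e : (Fin r → Fin m),
      -(m * r * C * σ.L t) ≤ lv v (mon u (expo (fun _ => m) e).1) t := by
    rw [Filter.eventually_all]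
    exact fun e => mon_bound hu v C hC hC1 m _ (expo (fun _ => m) e).2
  filter_upwards [h1] with t ht
  let I : Finset (Fin r → Fin m) := Finset.univ.map ⟨q, hq⟩
  have h2 : ∑ a, lv v (mon u (s a)) t =
      ∑ e ∈ I, lv v (mon u (expo (fun _ => m) e).1) t := by
    rw [Finset.sum_map]
    refine Finset.sum_congr rfl fun a _ => ?_
    show _ = lv v (mon u (expo (fun _ => m) (q a)).1) t
    rw [hqs]
  have h3 : ∑ e : (Fin r → Fin m), lv v (mon u (expo (fun _ => m) e).1) t =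
      ∑ e ∈ I, lv v (mon u (expo (fun _ => m) e).1) t +
      ∑ e ∈ Iᶜ, lv v (mon u (expo (fun _ => m) e).1) t := (Finset.sum_add_sum_compl I _).symm
  have h4 : -((Iᶜ.card : ℝ) * (m * r * C * σ.L t)) ≤
      ∑ e ∈ Iᶜ, lv v (mon u (expo (fun _ => m) e).1) t := by
    have h5 := Finset.sum_le_sum fun e (_ : e ∈ Iᶜ) => ht e
    rw [Finset.sum_const, nsmul_eq_mul] at h5
    linarith
  have h5 : (Iᶜ.card : ℝ) = (m : ℝ) ^ r - M := by
    rw [Finset.card_compl, Finset.card_map, Finset.card_univ, Fintype.card_fin,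
      Fintype.card_fun, Fintype.card_fin, Fintype.card_fin, Nat.cast_sub]
    · push_cast
      rfl
    · have h6 := Fintype.card_le_of_injective q hq
      rwa [Fintype.card_fin, Fintype.card_fun, Fintype.card_fin, Fintype.card_fin] at h6
  rw [h5] at h4
  linarith

/-- the coefficients of two polynomials -/
noncomputable def cf {ι : Type} (A : ι → MvPolynomial (Fin r) (FF k σ)) :
    (Σ a : ι, (A a).support) → G k σ :=
  fun x => ((MvPolynomial.coeff x.2.1 (A x.1) : FF k σ) : G k σ)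

omit hu in
theorem nm_cf {ι : Type} [Fintype ι] (A : ι → MvPolynomial (Fin r) (FF k σ)) (f : AbsoluteValue k ℝ)
    (a : ι) (t : ℕ) :
    nm f (c1 fun e : (A a).support => rep ((MvPolynomial.coeff e.1 (A a) : FF k σ) : G k σ) t) ≤
      nm f (c1 fun x => rep (cf A x) t) := by
  refine nm_le f (nm_nonneg _ _) fun o => ?_
  rcases o with _ | e
  · exact le_nm f (c1 fun x => rep (cf A x) t) none
  · exact le_nm f (c1 fun x => rep (cf A x) t) (some ⟨a, e⟩)

omit hu in
theorem cf_small {ι : Type} [Fintype ι] (hS : ∀ w : InfinitePlace k, Sum.inl w ∈ S)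
    (A : ι → MvPolynomial (Fin r) (FF k σ)) :
    Sm σ fun t => ho S (c1 fun x => rep (cf A x) t) :=
  ho_c1_small hS _ fun x => (MvPolynomial.coeff x.2.1 (A x.1) : FF k σ).2

/-- the values of a family of polynomials -/
theorem cf_bound {ι : Type} [Fintype ι] (A : ι → MvPolynomial (Fin r) (FF k σ)) :
    ∀ᶠ t in (σ.𝒰 : Filter ℕ), ∀ v : HeightOneSpectrum (𝓞 k), Sum.inr v ∉ S → ∀ a,
      fv v (rep (ev u (A a)) t) ≤ nm (fv v) (c1 fun x => rep (cf A x) t) := by
  have h1 : ∀ᶠ t in (σ.𝒰 : Filter ℕ), ∀ a, ∀ v : HeightOneSpectrum (𝓞 k), Sum.inr v ∉ S →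
      fv v (rep (ev u (A a)) t) ≤
        nm (fv v) (c1 fun e : (A a).support =>
          rep ((MvPolynomial.coeff e.1 (A a) : FF k σ) : G k σ) t) := by
    rw [Filter.eventually_all]
    exact fun a => ev_bound hu (A a)
  filter_upwards [h1] with t ht v hv a
  exact (ht a v hv).trans (nm_cf A _ a t)

/-- **The theorem on common divisors.** -/
theorem gcd_small (hS : ∀ w : InfinitePlace k, Sum.inl w ∈ S)
    (f g : MvPolynomial (Fin r) (FF k σ)) (hf : f ≠ 0) (hg : g ≠ 0) (hfg : IsRelPrime f g) :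
    Sm σ fun t => -ho S ![rep (ev u f) t, rep (ev u g) t] := by
  classical
  -- bounds for the units
  have hC0 : ∀ (v : Pl k) (i : Fin r), ∃ C : ℝ, 0 ≤ C ∧ ∀ᶠ t in (σ.𝒰 : Filter ℕ),
      |lv v (u i) t| ≤ C * σ.L t := fun v i => lv_bound v (u i) (hu.su i).ne_zero (hu.bb i)
  choose C0 hC0 hC1 using hC0
  obtain ⟨C, hCd⟩ : ∃ C : ℝ, C = ∑ v ∈ S, ∑ i, C0 v i := ⟨_, rfl⟩
  have hCn : 0 ≤ C := by
    rw [hCd]
    exact Finset.sum_nonneg fun v _ => Finset.sum_nonneg fun j _ => hC0 v j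
  have hCb : ∀ v ∈ S, ∀ i, ∀ᶠ t in (σ.𝒰 : Filter ℕ), |lv v (u i) t| ≤ C * σ.L t := by
    intro v hv j
    filter_upwards [hC1 v j, L_pos (σ := σ)] with t ht hL
    refine ht.trans (mul_le_mul_of_nonneg_right ?_ hL.le)
    have e1 : C0 v j ≤ ∑ j, C0 v j :=
      Finset.single_le_sum (f := fun j => C0 v j) (fun j _ => hC0 v j) (Finset.mem_univ j)
    have e2 : ∑ j, C0 v j ≤ C := by
      rw [hCd]
      exact Finset.single_le_sum (f := fun v => ∑ j, C0 v j)
        (fun v _ => Finset.sum_nonneg fun j _ => hC0 v j) hv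
    linarith
  obtain ⟨w, hw⟩ : ∃ w : ℝ, w = ∑ v ∈ S, wt v := ⟨_, rfl⟩
  have hw0 : 0 ≤ w := by
    rw [hw]
    exact Finset.sum_nonneg fun v _ => wt_nonneg v
  refine Sm.of_forall fun ε hε => ?_
  obtain ⟨m, hm0, hmd, hQ, hcount⟩ := box_count r (fun i => max (degreeOf i f) (degreeOf i g))
    (ε / (w * r * C + 1)) (by positivity)
  obtain ⟨W, hWd⟩ : ∃ W, W = Wbox f g (fun i => m - max (degreeOf i f) (degreeOf i g)) :=
    ⟨_, rfl⟩
  have hWle : W ≤ restrictSupport (FF k σ) (Ebox (fun _ : Fin r => m)) := by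
    rw [hWd]
    refine Wbox_le f g _ _ fun i => ?_
    have := hmd i
    omega
  have hWfin : FiniteDimensional (FF k σ) W := Submodule.finiteDimensional_of_le hWle
  have hdim : 2 * ∏ i, (m - max (degreeOf i f) (degreeOf i g)) ≤
      Module.finrank (FF k σ) W + ∏ i, (m - 2 * max (degreeOf i f) (degreeOf i g)) := by
    rw [hWd]
    refine finrank_Wbox f g hf hg hfg _ _ fun i => ?_
    have := hmd i
    omega
  obtain ⟨M, hM, b, hb, hbW, hbs⟩ : ∃ M, M = Module.finrank (FF k σ) W ∧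
      ∃ b : Fin M → MvPolynomial (Fin r) (FF k σ), LinearIndependent (FF k σ) b ∧
      (∀ i, b i ∈ W) ∧ ∀ x ∈ W, x ∈ Submodule.span (FF k σ) (Set.range b) :=
    ⟨_, rfl, exists_fam W⟩
  have hdimR : 2 * ∏ i, ((m : ℝ) - ((max (degreeOf i f) (degreeOf i g) : ℕ) : ℝ)) -
      ∏ i, ((m : ℝ) - 2 * ((max (degreeOf i f) (degreeOf i g) : ℕ) : ℝ)) ≤ M := by
    rw [← hM] at hdim
    have h1 : ((2 * ∏ i, (m - max (degreeOf i f) (degreeOf i g)) : ℕ) : ℝ) ≤
        ((M + ∏ i, (m - 2 * max (degreeOf i f) (degreeOf i g)) : ℕ) : ℝ) := by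
      exact_mod_cast hdim
    have h2 : ∀ i, ((m - max (degreeOf i f) (degreeOf i g) : ℕ) : ℝ) =
        (m : ℝ) - ((max (degreeOf i f) (degreeOf i g) : ℕ) : ℝ) := by
      intro i
      have := hmd i
      rw [Nat.cast_sub (by omega)]
    have h3 : ∀ i, ((m - 2 * max (degreeOf i f) (degreeOf i g) : ℕ) : ℝ) =
        (m : ℝ) - 2 * ((max (degreeOf i f) (degreeOf i g) : ℕ) : ℝ) := by
      intro i
      have := hmd i
      rw [Nat.cast_sub (by omega), Nat.cast_mul]
      norm_num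
    rw [Nat.cast_mul, Nat.cast_add, Nat.cast_prod, Nat.cast_prod,
      Finset.prod_congr rfl fun i _ => h2 i, Finset.prod_congr rfl fun i _ => h3 i] at h1
    push_cast at h1 ⊢
    linarith
  have hMpos : (0 : ℝ) < M := hQ.trans_le hdimR
  have hM0 : 0 < M := by exact_mod_cast hMpos
  -- the families
  have hpl := fun v : Pl k => place_fam hu v m W hWle
  rw [← hM] at hpl
  choose y s hy1 hy2 hs1 hs2 hys using hpl
  have hne : Nonempty (Fin M) := ⟨⟨0, hM0⟩⟩
  have hlin : ∀ b : Fin M → MvPolynomial (Fin r) (FF k σ), LinearIndependent (FF k σ) b →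
      LinearIndependent (FF k σ) fun a => ev u (b a) := by
    intro b hb
    exact hb.map' (ev u).toLinearMap (LinearMap.ker_eq_bot.2 (ev_inj hu hS))
  have hspan : ∀ x ∈ W, ev u x ∈ Submodule.span (FF k σ) (Set.range fun a => ev u (b a)) := by
    intro x hx
    have h1 := Submodule.mem_map_of_mem (f := (ev u).toLinearMap) (hbs x hx)
    rw [Submodule.map_span, ← Set.range_comp] at h1
    exact h1
  have key := mov_fam (S := S) hS (ι := Fin M) (κ := Fin M) rfl (fun a => ev u (b a))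
    (hlin b hb) (fun a => ev_BB hu _) (fun v a => ev u (y v a)) (fun v _ => hlin _ (hy1 v))
    (fun v _ a => hspan _ (hy2 v a))
  -- the values are bounded by the leading monomials
  have k1 : Sm σ fun t => ∑ v ∈ S, wt v * ∑ a, (lv v (ev u (y v a)) t - lv v (mon u (s v a)) t) :=
    Sm.sum _ fun v _ => (Sm.sum _ fun a _ => (val_le_iff v
      ((hlin _ (hy1 v)).ne_zero a) (mon_ne hu _)).1 (hys v a)).smul (wt_nonneg v)
  -- the coefficients
  have hWc : ∀ a, ∃ A B : MvPolynomial (Fin r) (FF k σ), b a = A * f + B * g := by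
    intro a
    have h1 := hbW a
    rw [hWd] at h1
    unfold Wbox at h1
    rw [LinearMap.mem_range] at h1
    obtain ⟨x, hx⟩ := h1
    rw [comb_apply] at hx
    exact ⟨_, _, hx.symm⟩
  choose A B hAB using hWc
  obtain ⟨R, hR⟩ : ∃ R : Fin M ⊕ Fin M → MvPolynomial (Fin r) (FF k σ), R = Sum.elim A B :=
    ⟨_, rfl⟩
  have k2 : Sm σ fun t => ho S (c1 fun x => rep (cf R x) t) := cf_small hS R
  have hfu := ev_ne hu hS f hf
  have hgu := ev_ne hu hS g hg
  have hbu := (hlin b hb).ne_zero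
  have k3 : ∀ᶠ t in (σ.𝒰 : Filter ℕ), ho S (fun a => rep (ev u (b a)) t) ≤
      ho S (c1 fun x => rep (cf R x) t) + ho S ![rep (ev u f) t, rep (ev u g) t] := by
    have h1 : ∀ᶠ t in (σ.𝒰 : Filter ℕ), ∀ a, rep (ev u (b a)) t =
        rep (ev u (A a)) t * rep (ev u f) t + rep (ev u (B a)) t * rep (ev u g) t := by
      rw [Filter.eventually_all]
      intro a
      have h2 : ev u (b a) = ev u (A a) * ev u f + ev u (B a) * ev u g := by
        rw [hAB, map_add, map_mul, map_mul]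
      rw [h2]
      filter_upwards [rep_add (ev u (A a) * ev u f) (ev u (B a) * ev u g),
        rep_mul (ev u (A a)) (ev u f), rep_mul (ev u (B a)) (ev u g)] with t e1 e2 e3
      rw [e1, e2, e3]
    filter_upwards [h1, cf_bound hu R, rep_ne _ hfu, rep_ne _ (hbu (Classical.arbitrary (Fin M)))]
      with t e1 e2 e3 e4
    refine ho_mul_le S (fun a => rep (ev u (b a)) t)
      (ne_of_coord (i := Classical.arbitrary (Fin M)) e4)
      (c1 fun x => rep (cf R x) t) (ne_of_one _ none rfl) ![rep (ev u f) t, rep (ev u g) t]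
      (ne_of_coord (i := 0) e3) fun v hv => ?_
    have e5 : 0 ≤ nm (fv v) ![rep (ev u f) t, rep (ev u g) t] := nm_nonneg _ _
    have e6 : 0 ≤ nm (fv v) (c1 fun x => rep (cf R x) t) := nm_nonneg _ _
    refine nm_le _ (mul_nonneg e6 e5) fun a => ?_
    rw [e1 a]
    refine (fv_na v _ _).trans (max_le ?_ ?_)
    · rw [map_mul]
      refine mul_le_mul ?_ (le_nm (fv v) ![rep (ev u f) t, rep (ev u g) t] 0) ((fv v).nonneg _) e6
      have := e2 v hv (Sum.inl a)
      rw [hR] at this ⊢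
      exact this
    · rw [map_mul]
      refine mul_le_mul ?_ (le_nm (fv v) ![rep (ev u f) t, rep (ev u g) t] 1) ((fv v).nonneg _) e6
      have := e2 v hv (Sum.inr a)
      rw [hR] at this ⊢
      exact this
  have k4 : ∀ᶠ t in (σ.𝒰 : Filter ℕ), ∀ v ∈ S, ∑ a, lv v (mon u (s v a)) t ≤
      ∑ e : (Fin r → Fin m), lv v (mon u (expo (fun _ => m) e).1) t +
        ((m : ℝ) ^ r - M) * (m * r * C * σ.L t) := by
    rw [Filter.eventually_all_finset]
    intro v hv
    exact lead_sum hu v C hCn (hCb v hv) m M (s v) (hs1 v) (hs2 v)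
  have k5 : ∀ᶠ t in (σ.𝒰 : Filter ℕ), ∀ e : (Fin r → Fin m),
      ∑ v ∈ S, wt v * lv v (mon u (expo (fun _ => m) e).1) t = 0 := by
    rw [Filter.eventually_all]
    exact fun e => mon_prod hu hS _
  refine ⟨fun t => (1 / M) * ((-(∑ v ∈ S, wt v * ∑ a, lv v (ev u (y v a)) t) -
      Fintype.card (Fin M) * ho S (fun j => rep (ev u (b j)) t)) +
      ((∑ v ∈ S, wt v * ∑ a, (lv v (ev u (y v a)) t - lv v (mon u (s v a)) t)) +
      (M : ℝ) * ho S (c1 fun x => rep (cf R x) t))),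
    (key.add (k1.add (k2.smul hMpos.le))).smul (by positivity), ?_⟩
  filter_upwards [k3, k4, k5, L_pos (σ := σ)] with t t3 t4 t5 t6
  rw [one_div, ← div_eq_inv_mul, ← sub_le_iff_le_add, le_div_iff₀ hMpos, Fintype.card_fin]
  have g1 : ∑ v ∈ S, wt v * ∑ a, (lv v (ev u (y v a)) t - lv v (mon u (s v a)) t) =
      ∑ v ∈ S, wt v * ∑ a, lv v (ev u (y v a)) t - ∑ v ∈ S, wt v * ∑ a, lv v (mon u (s v a)) t := by
    rw [← Finset.sum_sub_distrib]
    refine Finset.sum_congr rfl fun v _ => ?_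
    rw [Finset.sum_sub_distrib, mul_sub]
  have g2 : ∑ v ∈ S, wt v * ∑ a, lv v (mon u (s v a)) t ≤
      w * (((m : ℝ) ^ r - M) * (m * r * C * σ.L t)) := by
    have e1 : ∑ v ∈ S, wt v * ∑ a, lv v (mon u (s v a)) t ≤ ∑ v ∈ S, wt v *
        (∑ e : (Fin r → Fin m), lv v (mon u (expo (fun _ => m) e).1) t +
        ((m : ℝ) ^ r - M) * (m * r * C * σ.L t)) :=
      Finset.sum_le_sum fun v hv => mul_le_mul_of_nonneg_left (t4 v hv) (wt_nonneg v)
    have e2 : ∑ v ∈ S, wt v *
        (∑ e : (Fin r → Fin m), lv v (mon u (expo (fun _ => m) e).1) t +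
        ((m : ℝ) ^ r - M) * (m * r * C * σ.L t)) =
        ∑ e : (Fin r → Fin m), ∑ v ∈ S, wt v * lv v (mon u (expo (fun _ => m) e).1) t +
        w * (((m : ℝ) ^ r - M) * (m * r * C * σ.L t)) := by
      rw [hw, Finset.sum_mul, Finset.sum_comm, ← Finset.sum_add_distrib]
      refine Finset.sum_congr rfl fun v _ => ?_
      rw [mul_add, Finset.mul_sum]
    rw [e2, Finset.sum_congr rfl fun e _ => t5 e, Finset.sum_const_zero, zero_add] at e1
    exact e1
  have g3 : ((m : ℝ) ^ r - M) * m ≤ (ε / (w * r * C + 1)) * M := by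
    have e1 : ((m : ℝ) ^ r - M) * m ≤ ((m : ℝ) ^ r -
        (2 * ∏ i, ((m : ℝ) - ((max (degreeOf i f) (degreeOf i g) : ℕ) : ℝ)) -
        ∏ i, ((m : ℝ) - 2 * ((max (degreeOf i f) (degreeOf i g) : ℕ) : ℝ)))) * m := by
      apply mul_le_mul_of_nonneg_right _ (Nat.cast_nonneg m)
      linarith
    have e2 : (ε / (w * r * C + 1)) *
        (2 * ∏ i, ((m : ℝ) - ((max (degreeOf i f) (degreeOf i g) : ℕ) : ℝ)) -
        ∏ i, ((m : ℝ) - 2 * ((max (degreeOf i f) (degreeOf i g) : ℕ) : ℝ))) ≤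
        (ε / (w * r * C + 1)) * M := mul_le_mul_of_nonneg_left hdimR (by positivity)
    exact e1.trans (hcount.trans e2)
  have g4 : w * (((m : ℝ) ^ r - M) * (m * r * C * σ.L t)) ≤ ε * σ.L t * M := by
    have e1 : w * (((m : ℝ) ^ r - M) * (m * r * C * σ.L t)) =
        (((m : ℝ) ^ r - M) * m) * (w * r * C * σ.L t) := by ring
    have e2 : (((m : ℝ) ^ r - M) * m) * (w * r * C * σ.L t) ≤
        ((ε / (w * r * C + 1)) * M) * (w * r * C * σ.L t) :=
      mul_le_mul_of_nonneg_right g3 (by positivity)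
    have e3 : ((ε / (w * r * C + 1)) * M) * (w * r * C * σ.L t) =
        ((w * r * C) / (w * r * C + 1)) * (ε * σ.L t * M) := by
      field_simp
    have e4 : (w * r * C) / (w * r * C + 1) ≤ 1 := by
      have e5 : 0 ≤ w * r * C := by positivity
      rw [div_le_one (by positivity)]
      linarith
    have e5 : ((w * r * C) / (w * r * C + 1)) * (ε * σ.L t * M) ≤ 1 * (ε * σ.L t * M) :=
      mul_le_mul_of_nonneg_right e4 (by positivity)
    rw [e1]
    linarith
  have g5 : (M : ℝ) * ho S (fun a => rep (ev u (b a)) t) ≤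
      M * (ho S (c1 fun x => rep (cf R x) t) + ho S ![rep (ev u f) t, rep (ev u g) t]) :=
    mul_le_mul_of_nonneg_left t3 hMpos.le
  rw [g1]
  nlinarith [g2, g4, g5]

end

end Pool.Agent.Run7.h720
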