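import Pool.Agent.Run7.h720.Rt
import Pool.Agent.Run7.h720.Camp

/-!
Short points on the projective line and the zeros of a moving polynomial.
-/

set_option autoImplicit false
set_option linter.unusedSectionVars false

namespace Pool.Agent.Run7.h720

open NumberField IsDedekindDomain Height
open Pool.Agent.W180.OP (Pl av wt fv fv_support_finite wt_nonneg nrm)
open Pool.Agent.K1H83.VN
open MvPolynomial (aeval pderiv monomial)

section gen
variable {L : Type} [Field L] {d : ℕ}

/-- the polynomial with given coefficients -/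
noncomputable def cpol {R : Type} [CommRing R] {d : ℕ} (c : Fin (d + 1) → R) : Polynomial R :=
  ∑ i : Fin (d + 1), Polynomial.C (c i) * Polynomial.X ^ (i : ℕ)

theorem cpol_coeff {R : Type} [CommRing R] (c : Fin (d + 1) → R) (j : ℕ) :
    (cpol c).coeff j = if h : j < d + 1 then c ⟨j, h⟩ else 0 := by
  unfold cpol
  rw [Polynomial.finsetSum_coeff]
  simp only [Polynomial.coeff_C_mul, Polynomial.coeff_X_pow, mul_ite, mul_one, mul_zero]
  split_ifs with h
  · rw [Finset.sum_eq_single ⟨j, h⟩]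
    · simp
    · intro b _ hb
      rw [if_neg]
      intro h'
      apply hb
      ext
      exact h'.symm
    · intro h'
      exact absurd (Finset.mem_univ _) h'
  · refine Finset.sum_eq_zero fun i _ => ?_
    rw [if_neg]
    intro h'
    have := i.2
    omega

theorem cpol_deg (c : Fin (d + 1) → L) (hc : c (Fin.last d) ≠ 0) : (cpol c).natDegree = d := by
  refine le_antisymm ?_ ?_
  · rw [Polynomial.natDegree_le_iff_coeff_eq_zero]
    intro j hj
    rw [cpol_coeff, dif_neg (by omega)]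
  · refine Polynomial.le_natDegree_of_ne_zero ?_
    rw [cpol_coeff, dif_pos (Nat.lt_succ_self d)]
    exact hc

theorem deriv_deg [CharZero L] (f : Polynomial L) (hf : f.natDegree = d) :
    (Polynomial.derivative f).natDegree = d - 1 := by
  rcases Nat.eq_zero_or_pos d with h | h
  · subst h
    rw [Polynomial.natDegree_eq_zero] at hf
    obtain ⟨a, rfl⟩ := hf
    simp
  · refine le_antisymm ?_ ?_
    · have := Polynomial.natDegree_derivative_le f
      omega
    · refine Polynomial.le_natDegree_of_ne_zero ?_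
      rw [Polynomial.coeff_derivative]
      have e : d - 1 + 1 = d := by omega
      rw [e]
      refine mul_ne_zero ?_ ?_
      · rw [← hf, Polynomial.coeff_natDegree]
        intro h0
        rw [Polynomial.leadingCoeff_eq_zero] at h0
        rw [h0] at hf
        simp at hf
        omega
      · have : ((d - 1 : ℕ) : L) + 1 = ((d - 1 + 1 : ℕ) : L) := by push_cast; ring
        rw [this, e]
        exact_mod_cast h.ne'

theorem cpol_eval {R : Type} [CommRing R] (c : Fin (d + 1) → R) (t : R) :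
    (cpol c).eval t = ∑ i, c i * t ^ (i : ℕ) := by
  unfold cpol
  rw [Polynomial.eval_finsetSum]
  exact Finset.sum_congr rfl fun i _ => by simp

theorem cpol_deriv {R : Type} [CommRing R] (c : Fin (d + 1) → R) (t : R) :
    (Polynomial.derivative (cpol c)).eval t = ∑ i, c i * ((i : ℕ) * t ^ ((i : ℕ) - 1)) := by
  unfold cpol
  rw [Polynomial.derivative_sum, Polynomial.eval_finsetSum]
  refine Finset.sum_congr rfl fun i _ => ?_
  rw [Polynomial.derivative_C_mul_X_pow]
  simp
  ring

variable (K : Type) [Field K] (d : ℕ)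

/-- the general form -/
noncomputable def gform : MvPolynomial (Fin 2) (MvPolynomial (Fin (d + 1)) K) :=
  ∑ i : Fin (d + 1), MvPolynomial.C (MvPolynomial.X i) *
    (MvPolynomial.X 0 ^ (i : ℕ) * MvPolynomial.X 1 ^ (d - i))

/-- the conditions for the coefficients -/
noncomputable def gcond : Fin 2 → MvPolynomial (Fin (d + 1)) K :=
  ![MvPolynomial.X (Fin.last d), Polynomial.resultant
    (cpol fun i : Fin (d + 1) => (MvPolynomial.X i : MvPolynomial (Fin (d + 1)) K))
    (Polynomial.derivative (cpol fun i : Fin (d + 1) =>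
      (MvPolynomial.X i : MvPolynomial (Fin (d + 1)) K))) d (d - 1)]

/-- the divisor -/
noncomputable def gdiv : Fin 2 → Fin 1 → MvPolynomial (Fin 2) (MvPolynomial (Fin (d + 1)) K) :=
  ![fun _ => gform K d, fun _ => MvPolynomial.X 1]

variable {K} {d}

theorem gform_hom : (gform K d).IsHomogeneous d := by
  unfold gform
  refine MvPolynomial.IsHomogeneous.sum _ _ _ fun i _ => ?_
  have h1 : (MvPolynomial.X 0 ^ (i : ℕ) * MvPolynomial.X 1 ^ (d - i) :
      MvPolynomial (Fin 2) (MvPolynomial (Fin (d + 1)) K)).IsHomogeneous ((i : ℕ) + (d - i)) := by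
    refine MvPolynomial.IsHomogeneous.mul ?_ ?_
    · have := (MvPolynomial.isHomogeneous_X (MvPolynomial (Fin (d + 1)) K) (0 : Fin 2)).pow (i : ℕ)
      rwa [one_mul] at this
    · have := (MvPolynomial.isHomogeneous_X (MvPolynomial (Fin (d + 1)) K) (1 : Fin 2)).pow (d - i)
      rwa [one_mul] at this
  have h2 := (MvPolynomial.isHomogeneous_C (Fin 2)
    (MvPolynomial.X i : MvPolynomial (Fin (d + 1)) K)).mul h1
  have e : 0 + ((i : ℕ) + (d - i)) = d := by
    have := i.2
    omega
  rwa [e] at h2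

variable [Algebra K L]

theorem fib_gform (c : Fin (d + 1) → L) : fib c (gform K d) =
    ∑ i : Fin (d + 1), MvPolynomial.C (c i) *
      (MvPolynomial.X 0 ^ (i : ℕ) * MvPolynomial.X 1 ^ (d - i)) := by
  unfold fib gform
  rw [map_sum]
  refine Finset.sum_congr rfl fun i _ => ?_
  rw [map_mul, map_mul, map_pow, map_pow, MvPolynomial.map_X, MvPolynomial.map_X,
    MvPolynomial.map_C]
  congr 2
  show aeval c (MvPolynomial.X i) = c i
  rw [MvPolynomial.aeval_X]

theorem gform_eval (c : Fin (d + 1) → L) (z : Fin 2 → L) :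
    aeval z (fib c (gform K d)) = ∑ i : Fin (d + 1), c i * (z 0 ^ (i : ℕ) * z 1 ^ (d - i)) := by
  rw [fib_gform, map_sum]
  refine Finset.sum_congr rfl fun i _ => ?_
  simp

theorem gform_pd (c : Fin (d + 1) → L) (z : Fin 2 → L) :
    aeval z (pderiv 0 (fib c (gform K d))) =
      ∑ i : Fin (d + 1), c i * (((i : ℕ) * z 0 ^ ((i : ℕ) - 1)) * z 1 ^ (d - i)) := by
  rw [fib_gform, map_sum, map_sum]
  refine Finset.sum_congr rfl fun i _ => ?_
  rw [MvPolynomial.pderiv_C_mul, Derivation.leibniz, Derivation.leibniz_pow, Derivation.leibniz_pow,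
    MvPolynomial.pderiv_X_self, MvPolynomial.pderiv_X_of_ne (by decide : (1 : Fin 2) ≠ 0)]
  simp [-mul_eq_mul_left_iff]
  ring

theorem gform_quot (c : Fin (d + 1) → L) (z : Fin 2 → L) (t : L) (hz : z 0 = t * z 1) :
    aeval z (fib c (gform K d)) = z 1 ^ d * (cpol c).eval t := by
  rw [gform_eval, cpol_eval, Finset.mul_sum]
  refine Finset.sum_congr rfl fun i _ => ?_
  have h3 : z 1 ^ d = z 1 ^ (i : ℕ) * z 1 ^ (d - i) := by
    rw [← pow_add]
    congr 1
    have := i.2
    omega
  rw [hz, mul_pow, h3]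
  ring

theorem gform_pd_quot (c : Fin (d + 1) → L) (z : Fin 2 → L) (t : L) (hz : z 0 = t * z 1) :
    aeval z (pderiv 0 (fib c (gform K d))) =
      z 1 ^ (d - 1) * (Polynomial.derivative (cpol c)).eval t := by
  rw [gform_pd, cpol_deriv, Finset.mul_sum]
  refine Finset.sum_congr rfl fun i _ => ?_
  rcases Nat.eq_zero_or_pos (i : ℕ) with h | h
  · rw [h]
    simp
  · have h3 : z 1 ^ (d - 1) = z 1 ^ ((i : ℕ) - 1) * z 1 ^ (d - i) := by
      rw [← pow_add]
      congr 1
      have := i.2
      omega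
    rw [hz, mul_pow, h3]
    ring

theorem gcond_one (c : Fin (d + 1) → L) : aeval c (gcond K d 1) =
    Polynomial.resultant (cpol c) (Polynomial.derivative (cpol c)) d (d - 1) := by
  have h1 : (cpol fun i : Fin (d + 1) => (MvPolynomial.X i : MvPolynomial (Fin (d + 1)) K)).map
      (aeval c : MvPolynomial (Fin (d + 1)) K →ₐ[K] L).toRingHom = cpol c := by
    unfold cpol
    rw [Polynomial.map_sum]
    refine Finset.sum_congr rfl fun i _ => ?_
    rw [Polynomial.map_mul, Polynomial.map_pow, Polynomial.map_X, Polynomial.map_C]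
    congr 2
    show aeval c (MvPolynomial.X i) = c i
    rw [MvPolynomial.aeval_X]
  have h2 := Polynomial.resultant_map_map
    (cpol fun i : Fin (d + 1) => (MvPolynomial.X i : MvPolynomial (Fin (d + 1)) K))
    (Polynomial.derivative (cpol fun i : Fin (d + 1) =>
      (MvPolynomial.X i : MvPolynomial (Fin (d + 1)) K))) d (d - 1)
    (aeval c : MvPolynomial (Fin (d + 1)) K →ₐ[K] L).toRingHom
  rw [← Polynomial.derivative_map, h1] at h2
  exact h2.symm

theorem gcond_iff [CharZero L] (c : Fin (d + 1) → L) :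
    (∀ i, aeval c (gcond K d i) ≠ 0) ↔
      c (Fin.last d) ≠ 0 ∧ IsCoprime (cpol c) (Polynomial.derivative (cpol c)) := by
  have h0 : aeval c (gcond K d 0) = c (Fin.last d) := by
    show aeval c (MvPolynomial.X (Fin.last d)) = _
    rw [MvPolynomial.aeval_X]
  rw [Fin.forall_fin_two, h0, gcond_one]
  constructor
  · rintro ⟨h1, h2⟩
    refine ⟨h1, ?_⟩
    by_contra hcon
    apply h2
    have h3 := cpol_deg c h1
    have h4 := deriv_deg (cpol c) h3
    have h5 := (Polynomial.resultant_eq_zero_iff (f := cpol c)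
      (g := Polynomial.derivative (cpol c))).2 ⟨Or.inl (fun h => h1 (by
        have := cpol_coeff c d
        rw [h, Polynomial.coeff_zero, dif_pos (Nat.lt_succ_self d)] at this
        exact this.symm)), hcon⟩
    rwa [h3, h4] at h5
  · rintro ⟨h1, h2⟩
    refine ⟨h1, fun h => ?_⟩
    have h3 := cpol_deg c h1
    have h4 := deriv_deg (cpol c) h3
    have h5 := (Polynomial.resultant_eq_zero_iff (f := cpol c)
      (g := Polynomial.derivative (cpol c))).1 (by rw [h3, h4]; exact h)
    exact h5.2 h2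

end gen

/-- the divisor is reduced -/
theorem sm_gen {K : Type} [Field K] [CharZero K] {d : ℕ} :
    SmFam 0 (fun i : Fin 0 => i.elim0) (gcond K d) (fun i : Fin 0 => i.elim0) (gdiv K d) := by
  refine SmFam_of 0 _ _ _ _ fun L _ _ c z _ hc hz _ => ?_
  have : CharZero L := charZero_of_injective_algebraMap (algebraMap K L).injective
  rw [gcond_iff] at hc
  obtain ⟨hc1, u, w, huw⟩ := hc
  have hX : aeval z (fib c (MvPolynomial.X 1 :
      MvPolynomial (Fin 2) (MvPolynomial (Fin (d + 1)) K))) = z 1 := by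
    unfold fib
    rw [MvPolynomial.map_X, MvPolynomial.aeval_X]
  -- the points on the first component
  have hfirst : aeval z (fib c (gform K d)) = 0 → z 1 ≠ 0 := by
    intro h h1
    rw [gform_eval, Finset.sum_eq_single (Fin.last d)] at h
    · have h2 : c (Fin.last d) * z 0 ^ d = 0 := by simpa using h
      rcases mul_eq_zero.1 h2 with h3 | h3
      · exact hc1 h3
      · apply hz
        funext i
        fin_cases i
        · by_contra h5
          exact pow_ne_zero d h5 h3
        · exact h1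
    · intro i _ hi
      have h4 : d - (i : ℕ) ≠ 0 := by
        intro h5
        apply hi
        ext
        have := i.2
        show (i : ℕ) = d
        omega
      rw [h1, zero_pow h4, mul_zero, mul_zero]
    · intro h'
      exact absurd (Finset.mem_univ _) h'
  have hsub : ∀ i j : {i : Fin 2 // ∀ j, aeval z (fib c (gdiv K d i j)) = 0}, i = j := by
    have key : ¬ ((∀ j, aeval z (fib c (gdiv K d 0 j)) = 0) ∧
        ∀ j, aeval z (fib c (gdiv K d 1 j)) = 0) := by
      rintro ⟨h1, h2⟩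
      have h3 : aeval z (fib c (gform K d)) = 0 := h1 0
      have h4 : aeval z (fib c (MvPolynomial.X 1 :
        MvPolynomial (Fin 2) (MvPolynomial (Fin (d + 1)) K))) = 0 := h2 0
      rw [hX] at h4
      exact hfirst h3 h4
    rintro ⟨i, hi⟩ ⟨j, hj⟩
    apply Subtype.ext
    fin_cases i <;> fin_cases j
    · rfl
    · exact (key ⟨hi, hj⟩).elim
    · exact (key ⟨hj, hi⟩).elim
    · rfl
  refine ⟨fun i => i.elim0, fun _ => 0, ?_⟩
  have : Subsingleton (Fin 0 ⊕ {i : Fin 2 // ∀ j, aeval z (fib c (gdiv K d i j)) = 0}) := by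
    constructor
    rintro (i | i) (j | j)
    · exact i.elim0
    · exact i.elim0
    · exact j.elim0
    · rw [hsub i j]
  rw [linearIndependent_subsingleton_index_iff]
  rintro (i | ⟨i, hi⟩)
  · exact i.elim0
  · show (fun y => aeval z (pderiv y (fib c (gdiv K d i 0)))) ≠ 0
    intro h
    fin_cases i
    · have h3 : aeval z (fib c (gform K d)) = 0 := hi 0
      have h1 := hfirst h3
      have h4 : aeval z (pderiv 0 (fib c (gform K d))) = 0 := congrFun h 0
      obtain ⟨t, ht⟩ : ∃ t : L, t = z 0 / z 1 := ⟨_, rfl⟩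
      have hz0 : z 0 = t * z 1 := by
        rw [ht]
        field_simp
      rw [gform_quot c z t hz0] at h3
      rw [gform_pd_quot c z t hz0] at h4
      have h5 : (cpol c).eval t = 0 := (mul_eq_zero.1 h3).resolve_left (pow_ne_zero _ h1)
      have h6 : (Polynomial.derivative (cpol c)).eval t = 0 :=
        (mul_eq_zero.1 h4).resolve_left (pow_ne_zero _ h1)
      have h7 := congrArg (Polynomial.eval t) huw
      rw [Polynomial.eval_add, Polynomial.eval_mul, Polynomial.eval_mul, h5, h6, mul_zero,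
        mul_zero, add_zero, Polynomial.eval_one] at h7
      exact zero_ne_one h7
    · have h4 : aeval z (pderiv 1 (fib c (MvPolynomial.X 1 :
        MvPolynomial (Fin 2) (MvPolynomial (Fin (d + 1)) K)))) = 0 := congrFun h 1
      unfold fib at h4
      rw [MvPolynomial.map_X, MvPolynomial.pderiv_X_self, map_one] at h4
      exact one_ne_zero h4

/-- **Short points and the zeros of a moving polynomial.** -/
theorem hyp_low (K : Type) [Field K] [NumberField K] (Γ : Subgroup Kˣ) (hΓ : Γ.FG)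
    (T : Set (HeightOneSpectrum (𝓞 K))) (hT : T.Finite) (d r M : ℕ) (B ε : ℝ) (hε : 0 < ε) :
    ∃ δ C : ℝ, 0 < δ ∧ ∀ (f : Polynomial K) (p q ρ τ : K), f.natDegree = d → f ≠ 0 →
      IsCoprime f (Polynomial.derivative f) → q ≠ 0 → f.eval (p / q) ≠ 0 → ρ ≠ 0 → τ ≠ 0 →
      (∀ v ∉ T, fv v ρ ≤ 1) → (∀ v ∉ T, fv v τ ≤ 1) →
      Short Γ r (B * mulHeight₁ (p / q) ^ δ) p → Short Γ r (B * mulHeight₁ (p / q) ^ δ) q →
      Short Γ r (B * mulHeight₁ (p / q) ^ δ) ρ →
      (∀ v ∉ T, ((d : ℝ) + 1) * Real.log (max (fv v (p / q)) 1) -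
        Real.log (fv v (f.eval (p / q))) ≤ -(M * Real.log (fv v ρ) + Real.log (fv v τ))) →
      ((d : ℝ) - 1 - ε) * logHeight₁ (p / q) ≤ cnt T ρ + cnt T τ +
        C * (1 + ∑ j : Fin (d + 1), logHeight₁ (f.coeff j)) := by
  classical
  obtain ⟨T', hT'⟩ : ∃ T' : Finset (Pl K), T' = Finset.univ.disjSum hT.toFinset := ⟨_, rfl⟩
  have hT1 : ∀ w : InfinitePlace K, Sum.inl w ∈ T' := by
    intro w
    rw [hT', Finset.inl_mem_disjSum]
    exact Finset.mem_univ w
  have hT2 : ∀ v : HeightOneSpectrum (𝓞 K), Sum.inr v ∈ T' ↔ v ∈ T := by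
    intro v
    rw [hT', Finset.inr_mem_disjSum, Set.Finite.mem_toFinset]
  have hT3 : {v : HeightOneSpectrum (𝓞 K) | Sum.inr v ∈ T'} = T := by
    ext v
    exact hT2 v
  obtain ⟨B1, hB1⟩ : ∃ B1 : ℝ, B1 = max B 1 := ⟨_, rfl⟩
  have hB11 : 1 ≤ B1 := by
    rw [hB1]
    exact le_max_right _ _
  have hBB1 : B ≤ B1 := by
    rw [hB1]
    exact le_max_left _ _
  have hdh : ∀ i j, (gdiv K d i j).IsHomogeneous ((![d, 1] : Fin 2 → ℕ) i) := by
    intro i j
    fin_cases i
    · exact gform_hom
    · exact MvPolynomial.isHomogeneous_X _ _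
  obtain ⟨N, Pe, e, δ, C, hPe, hδ, hmain⟩ := var_mov K Γ hΓ T' hT1 (m := 2) (s := 0) (n := 1)
    le_rfl (fun i : Fin 0 => i.elim0) (gcond K d) (fun i : Fin 0 => i.elim0) (gdiv K d)
    (fun _ => gdiv K d) sm_gen (fun _ _ => sm_gen) rfl (fun i : Fin 0 => i.elim0)
    (fun i => i.elim0) ![d, 1] hdh (fun _ => ![d, 1]) (fun _ _ => hdh) (r + r) M B1 ε hε
  choose C₁ hC₁ hexc using fun i => exc_bound (Pe i) (e i) (hPe i)
  obtain ⟨C₂, hC₂⟩ : ∃ C₂ : ℝ, C₂ = ∑ i, C₁ i := ⟨_, rfl⟩
  have hC₂0 : 0 ≤ C₂ := by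
    rw [hC₂]
    exact Finset.sum_nonneg fun i _ => hC₁ i
  refine ⟨δ, |C| + (d + 1) * (C₂ + 1 / δ), hδ, ?_⟩
  intro f p q ρ τ hfd hf0 hcop hq hfx hρ0 hτ0 hρT hτT hsp hsq hsρ hdiv
  obtain ⟨c, hc⟩ : ∃ c : Fin (d + 1) → K, c = fun j : Fin (d + 1) => f.coeff j := ⟨_, rfl⟩
  have hcf : cpol c = f := by
    ext j
    rw [cpol_coeff]
    split_ifs with h
    · rw [hc]
    · rw [Polynomial.coeff_eq_zero_of_natDegree_lt (by omega)]
  obtain ⟨S, hS⟩ : ∃ S : ℝ, S = ∑ j : Fin (d + 1), logHeight₁ (f.coeff j) := ⟨_, rfl⟩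
  have hS0 : 0 ≤ S := by
    rw [hS]
    exact Finset.sum_nonneg fun j _ => zero_le_logHeight₁ _
  have hSc : ∑ j, logHeight₁ (c j) = S := by
    rw [hS, hc]
  obtain ⟨y, hy⟩ : ∃ y : K, y = p / q := ⟨_, rfl⟩
  rw [← hy] at hfx hsp hsq hsρ hdiv ⊢
  rw [← hS]
  have hNρ := cnt_nonneg T ρ hρT
  have hNτ := cnt_nonneg T τ hτT
  have hh0 : 0 ≤ logHeight₁ y := zero_le_logHeight₁ y
  have hH1 : 1 ≤ mulHeight₁ y := one_le_mulHeight₁ y
  have htriv : logHeight₁ y ≤ (C₂ + 1 / δ) * (1 + S) → ((d : ℝ) - 1 - ε) * logHeight₁ y ≤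
      cnt T ρ + cnt T τ + (|C| + (d + 1) * (C₂ + 1 / δ)) * (1 + S) := by
    intro h
    have h1 : ((d : ℝ) + 1) * logHeight₁ y ≤ (d + 1) * ((C₂ + 1 / δ) * (1 + S)) :=
      mul_le_mul_of_nonneg_left h (by positivity)
    have h2 : 0 ≤ |C| * (1 + S) := by positivity
    have h3 : 0 ≤ (2 + ε) * logHeight₁ y := by positivity
    linarith
  -- large coefficients
  by_cases hcoef : ∀ j, mulHeight₁ (c j) ≤ B1 * mulHeight₁ y ^ δ
  swap
  · apply htriv
    push Not at hcoef
    obtain ⟨j, hj⟩ := hcoef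
    have h1 : mulHeight₁ y ^ δ ≤ mulHeight₁ (c j) := by
      refine le_trans ?_ hj.le
      have h2 : 0 ≤ mulHeight₁ y ^ δ := by positivity
      nlinarith
    have h2 := Real.log_le_log (by positivity) h1
    rw [Real.log_rpow (by positivity), ← logHeight₁_eq_log_mulHeight₁,
      ← logHeight₁_eq_log_mulHeight₁] at h2
    have h3 : logHeight₁ (c j) ≤ S := by
      rw [← hSc]
      exact Finset.single_le_sum (f := fun j => logHeight₁ (c j))
        (fun j _ => zero_le_logHeight₁ _) (Finset.mem_univ j)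
    have h4 : logHeight₁ y ≤ 1 / δ * S := by
      rw [one_div, ← div_eq_inv_mul, le_div_iff₀ hδ]
      linarith
    have h5 : 0 ≤ 1 / δ := by positivity
    have h6 : 0 ≤ C₂ * (1 + S) := by positivity
    linarith
  -- exceptional points
  obtain ⟨x, hx⟩ : ∃ x : Fin 2 → K, x = ![p, q] := ⟨_, rfl⟩
  have hx1 : x 1 = q := by rw [hx]; rfl
  have hx0 : x 0 = p := by rw [hx]; rfl
  have hxy : x 0 / x 1 = y := by rw [hx0, hx1, hy]
  have hxne : x ≠ 0 := fun h => hq (by rw [← hx1, h]; rfl)
  by_cases hex : ∃ i, fib c (Pe i) ≠ 0 ∧ aeval x (fib c (Pe i)) = 0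
  · apply htriv
    obtain ⟨i, h1, h2⟩ := hex
    have h3 := hexc i c x (by rw [hx1]; exact hq) h1 h2
    rw [hxy, hSc] at h3
    have h4 : C₁ i ≤ C₂ := by
      rw [hC₂]
      exact Finset.single_le_sum (fun i _ => hC₁ i) (Finset.mem_univ i)
    have h5 : C₁ i * (1 + S) ≤ C₂ * (1 + S) := mul_le_mul_of_nonneg_right h4 (by positivity)
    have h6 : 0 ≤ 1 / δ * (1 + S) := by positivity
    linarith
  push Not at hex
  have hHx : mulHeight x = mulHeight₁ y := by
    rw [hx, hy, mulHeight₁_div_eq_mulHeight]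
  have hLx : logHeight x = logHeight₁ y := by
    rw [hx, hy, logHeight₁_div_eq_logHeight]
  have hform : aeval x (fib c (gform K d)) = q ^ d * f.eval y := by
    rw [gform_quot c x y (by rw [hx0, hx1, hy]; field_simp), hcf, hx1]
  have hX : aeval x (fib c (MvPolynomial.X 1 :
      MvPolynomial (Fin 2) (MvPolynomial (Fin (d + 1)) K))) = q := by
    unfold fib
    rw [MvPolynomial.map_X, MvPolynomial.aeval_X, hx1]
  have hform0 : aeval x (fib c (gform K d)) ≠ 0 := by
    rw [hform]
    exact mul_ne_zero (pow_ne_zero _ hq) hfx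
  have hF0 : ∀ i, aeval x (fib c (gdiv K d i 0)) ≠ 0 := by
    intro i
    fin_cases i
    · exact hform0
    · show aeval x (fib c (MvPolynomial.X 1 :
        MvPolynomial (Fin 2) (MvPolynomial (Fin (d + 1)) K))) ≠ 0
      rw [hX]
      exact hq
  have hR : B * mulHeight₁ y ^ δ ≤ B1 * mulHeight₁ y ^ δ :=
    mul_le_mul_of_nonneg_right hBB1 (by positivity)
  have hmono : ∀ z, Short Γ r (B * mulHeight₁ y ^ δ) z → Short Γ r (B1 * mulHeight₁ y ^ δ) z := by
    rintro z ⟨cc, γ, h1, h2, h3⟩
    exact ⟨cc, γ, h1, fun j => (h2 j).trans hR, h3⟩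
  have hR1 : 1 ≤ B1 * mulHeight₁ y ^ δ := by
    have := Real.one_le_rpow hH1 hδ.le
    nlinarith
  have hpair := short_pair hR1 (hmono p hsp) (hmono q hsq)
  have hsρ' : Short Γ (r + r) (B1 * mulHeight₁ y ^ δ) ρ := short_add hR1 (hmono ρ hsρ)
  have hcond : ∀ i, aeval c (gcond K d i) ≠ 0 := by
    rw [gcond_iff, hcf]
    refine ⟨?_, hcop⟩
    rw [hc]
    show f.coeff d ≠ 0
    rw [← hfd, Polynomial.coeff_natDegree, Ne, Polynomial.leadingCoeff_eq_zero]
    exact hf0
  have hlc : ∀ v : Pl K, lc v x (fun i j => aeval x (fib c (gdiv K d i j))) ![d, 1] =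
      ((d : ℝ) + 1) * Real.log (nm (av v) x) - Real.log (av v (q ^ d * f.eval y)) -
        Real.log (av v q) := by
    intro v
    unfold lc
    rw [Fin.sum_univ_two]
    have e1 : nm (av v) (fun j : Fin 1 => aeval x (fib c (gdiv K d 0 j))) =
        av v (q ^ d * f.eval y) := by
      have e3 : (fun j : Fin 1 => aeval x (fib c (gdiv K d 0 j))) =
          fun _ => q ^ d * f.eval y := by
        funext j
        exact hform
      rw [e3]
      unfold nm
      exact ciSup_const
    have e2 : nm (av v) (fun j : Fin 1 => aeval x (fib c (gdiv K d 1 j))) = av v q := by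
      have e3 : (fun j : Fin 1 => aeval x (fib c (gdiv K d 1 j))) = fun _ => q := by
        funext j
        exact hX
      rw [e3]
      unfold nm
      exact ciSup_const
    rw [e1, e2]
    show (d : ℝ) * _ - _ + (((1 : ℕ) : ℝ) * _ - _) = _
    push_cast
    ring
  have key := hmain c x ρ τ 1 hxne (fun i => i.elim0) hcond (by rw [hHx]; exact hcoef)
    (fun i => i.elim0) ⟨id, fun i hi => hex i hi⟩ (fun i => ⟨0, hF0 i⟩)
    (fun _ _ i => ⟨0, hF0 i⟩) hρ0 hτ0 (fun v hv => hρT v fun h => hv ((hT2 v).2 h))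
    (fun v hv => hτT v fun h => hv ((hT2 v).2 h)) (by rw [hHx, hx]; exact hpair)
    (by rw [hHx]; exact hsρ') (by
      intro v hv
      have hv' : v ∉ T := fun h => hv ((hT2 v).2 h)
      refine le_trans (le_of_eq ?_) (hdiv v hv')
      rw [hlc]
      show ((d : ℝ) + 1) * Real.log (nm (fv v) x) - Real.log (fv v (q ^ d * f.eval y)) -
        Real.log (fv v q) = _
      have hqv : 0 < fv v q := (fv v).pos_iff.2 hq
      have hfv : 0 < fv v (f.eval y) := (fv v).pos_iff.2 hfx
      have e3 : nm (fv v) x = fv v q * max (fv v y) 1 := by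
        rw [hx, nm_pair', hy, mul_max_of_nonneg _ _ hqv.le, mul_one, ← map_mul,
          mul_div_cancel₀ _ hq]
      rw [e3, map_mul, map_pow, Real.log_mul hqv.ne' (by positivity),
        Real.log_mul (by positivity) hfv.ne', Real.log_pow]
      ring) (by
      have h1 : (fun (c' : Fin (1 + 1)) (j : Fin 2) =>
          (1 : Matrix (Fin 2) (Fin (1 + 1)) K) j c') = fun c' => Pi.single c' 1 := by
        funext c' j
        rw [Matrix.one_apply, Pi.single_apply]
      rw [h1]
      exact Pi.linearIndependent_single_one (Fin 2) K) (fun k' => k'.elim0)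
  -- the heights
  have hsplit : ∑ v ∈ T', wt v * lc v x (fun i j => aeval x (fib c (gdiv K d i j))) ![d, 1] +
      out T' x (fun i j => aeval x (fib c (gdiv K d i j))) ![d, 1] = (d + 1) * logHeight₁ y := by
    have h1 : ∀ i, logHeight (fun j : Fin 1 => aeval x (fib c (gdiv K d i j))) = 0 := fun i =>
      logHeight_eq_zero_of_subsingleton _
    have h2 : ∀ i, ∑ v ∈ T', wt v * Real.log (nm (av v)
        (fun j : Fin 1 => aeval x (fib c (gdiv K d i j)))) +
        ho T' (fun j : Fin 1 => aeval x (fib c (gdiv K d i j))) = 0 := by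
      intro i
      rw [← logHeight_split T' hT1 _ (ne_of_coord (i := 0) (hF0 i)), h1]
    have h3 := logHeight_split T' hT1 x hxne
    unfold lc out
    simp only [Fin.sum_univ_two, mul_add, mul_sub, Finset.sum_add_distrib,
      Finset.sum_sub_distrib]
    have e1 : ∀ k : ℕ, ∑ v ∈ T', wt v * ((k : ℝ) * Real.log (nm (av v) x)) =
        k * ∑ v ∈ T', wt v * Real.log (nm (av v) x) := by
      intro k
      rw [Finset.mul_sum]
      refine Finset.sum_congr rfl fun v _ => ?_
      ring
    rw [e1, e1]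
    have h20 := h2 0
    have h21 := h2 1
    rw [← hLx, h3]
    show (d : ℝ) * _ + ((1 : ℕ) : ℝ) * _ - (_ + _) +
      ((d : ℝ) * _ + ((1 : ℕ) : ℝ) * _ - (_ + _)) = _
    push_cast
    linear_combination -h20 - h21
  rw [hsplit, hLx, hT3] at key
  have hn0 : 0 ≤ logHeight (fun J : Fin (1 + 1) → Fin 2 =>
      ((1 : Matrix (Fin 2) (Fin (1 + 1)) K).submatrix J id).det) := logHeight_nonneg _
  have h1 : ((d : ℝ) - 1 - ε) * logHeight₁ y ≤ cnt T ρ + cnt T τ + C := by
    push_cast at key
    linarith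
  have h2 : C ≤ |C| * (1 + S) := by
    have h3 := le_abs_self C
    have h4 : 0 ≤ |C| * S := by positivity
    linarith
  have h3 : 0 ≤ ((d : ℝ) + 1) * (C₂ + 1 / δ) * (1 + S) := by positivity
  linarith

end Pool.Agent.Run7.h720
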