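import Pool.Agent.Run7.h720.Prep

/-!
Powerful values of polynomials with three simple roots at sparse integers.
-/

set_option autoImplicit false
set_option linter.unusedSectionVars false

namespace Pool.Agent.Run7.h720

open NumberField IsDedekindDomain Height Filter Topology
open Pool.Agent.W180.OP (Pl av wt fv fv_support_finite wt_nonneg nrm)
open Pool.Agent.K1H83.VN

/-- `z` is a sum of `r` terms `c * γ` with `γ` in `Γ` and `c` of height at most `R` -/
def Short {K : Type} [Field K] [NumberField K] (Γ : Subgroup Kˣ) (r : ℕ) (R : ℝ) (z : K) : Prop :=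
  ∃ (c : Fin r → K) (γ : Fin r → Kˣ), (∀ j, γ j ∈ Γ) ∧ (∀ j, mulHeight₁ (c j) ≤ R) ∧
    z = ∑ j, c j * (γ j : K)

theorem aeval_gm {k : Type} [Field k] {σ : Sc} (f : ℕ → k) (Q : Polynomial k) :
    Polynomial.aeval (gm σ f) Q = gm σ fun t => Q.eval (f t) := by
  have h1 : (fun t => Q.eval (f t)) = ∑ j ∈ Finset.range (Q.natDegree + 1),
      (fun _ => Q.coeff j) * f ^ j := by
    funext t
    rw [Finset.sum_apply, Polynomial.eval_eq_sum_range]
    rfl
  rw [h1, map_sum, Polynomial.aeval_eq_sum_range]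
  refine Finset.sum_congr rfl fun j _ => ?_
  rw [map_mul, map_pow, Algebra.smul_def, alg_eq]

/-- the coefficients are germs of small height -/
theorem coef_small {K L : Type} [Field K] [NumberField K] [Field L] [NumberField L]
    [Algebra K L] {σ : Sc} (h𝒰 : (σ.𝒰 : Filter ℕ) ≤ atTop) (B : ℝ) (n : ℕ → ℝ)
    (hn : ∀ t, 1 ≤ n t) (hL : ∀ t, σ.L t = Real.log (n t)) (c : ℕ → K)
    (hc : ∀ t, c t = 0 ∨ mulHeight₁ (c t) ≤ B * n t ^ (1 / ((t : ℝ) + 1))) :
    gm σ (fun t => algebraMap K L (c t)) ∈ FF L σ := by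
  rw [gm_mem_FF]
  have hL0 : ∀ t, 0 ≤ σ.L t := fun t => by
    rw [hL]
    exact Real.log_nonneg (hn t)
  have h1 : ∀ t, logHeight₁ (algebraMap K L (c t)) ≤
      Module.finrank K L * (|Real.log B| + 1 / ((t : ℝ) + 1) * σ.L t) := by
    intro t
    rw [height_ext]
    refine mul_le_mul_of_nonneg_left ?_ (Nat.cast_nonneg _)
    rcases hc t with h2 | h2
    · rw [h2, logHeight₁_zero]
      have := hL0 t
      positivity
    · have h3 : (0 : ℝ) < mulHeight₁ (c t) := mulHeight₁_pos _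
      have h4 : 0 < n t ^ (1 / ((t : ℝ) + 1)) := by
        have := hn t
        positivity
      have h5 : 0 < B := by
        by_contra hB
        have : B * n t ^ (1 / ((t : ℝ) + 1)) ≤ 0 :=
          mul_nonpos_of_nonpos_of_nonneg (not_lt.1 hB) h4.le
        linarith
      rw [logHeight₁_eq_log_mulHeight₁]
      have h6 := Real.log_le_log h3 h2
      rw [Real.log_mul h5.ne' h4.ne', Real.log_rpow (by linarith [hn t]), ← hL] at h6
      exact h6.trans (add_le_add (le_abs_self _) le_rfl)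
  intro ε hε
  have h2 := Sm.const (σ := σ) ((Module.finrank K L : ℝ) * |Real.log B|) (ε / 2) (by positivity)
  have h3 : ∀ᶠ t : ℕ in (σ.𝒰 : Filter ℕ), (Module.finrank K L : ℝ) / ((t : ℝ) + 1) ≤ ε / 2 := by
    refine h𝒰 ?_
    have h4 : Tendsto (fun t : ℕ => (Module.finrank K L : ℝ) / ((t : ℝ) + 1)) atTop (𝓝 0) :=
      tendsto_const_nhds.div_atTop (tendsto_atTop_add_const_right _ _
        tendsto_natCast_atTop_atTop)
    exact (h4.eventually_lt_const (by positivity)).mono fun t ht => ht.le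
  filter_upwards [h2, h3] with t h4 h5
  refine (h1 t).trans ?_
  have h6 : (Module.finrank K L : ℝ) / ((t : ℝ) + 1) * σ.L t ≤ ε / 2 * σ.L t :=
    mul_le_mul_of_nonneg_right h5 (hL0 t)
  have h7 : (Module.finrank K L : ℝ) * (|Real.log B| + 1 / ((t : ℝ) + 1) * σ.L t) =
      Module.finrank K L * |Real.log B| + Module.finrank K L / ((t : ℝ) + 1) * σ.L t := by ring
  rw [h7]
  linarith

/-- **The theorem on sparse integers.** -/
theorem sparse_main (P : Polynomial ℤ) (a : Fin 3 → ℂ) (ha : Function.Injective a)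
    (h0 : ∀ i, Polynomial.aeval (a i) P = 0)
    (h1 : ∀ i, Polynomial.aeval (a i) (Polynomial.derivative P) ≠ 0)
    (K : Type) [Field K] [NumberField K] (Γ : Subgroup Kˣ) (hΓ : Γ.FG) (r m : ℕ) (B : ℝ) :
    ∃ δ : ℝ, 0 < δ ∧ {n : ℤ | ∃ ρ : ℤ, ρ ^ 2 ∣ P.eval n ∧ P.eval n ∣ ρ ^ m ∧
      Short Γ r (B * |(n : ℝ)| ^ δ) (n : K) ∧ Short Γ r (B * |(n : ℝ)| ^ δ) (ρ : K)}.Finite := by
  classical
  by_contra hcon
  push Not at hcon
  have hP : P ≠ 0 := by
    rintro rfl
    exact h1 0 (by simp)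
  -- the sequence
  have hex : ∀ t : ℕ, ∃ n ρ : ℤ, (t : ℝ) + 3 ≤ |(n : ℝ)| ∧ P.eval n ≠ 0 ∧ ρ ^ 2 ∣ P.eval n ∧
      P.eval n ∣ ρ ^ m ∧ Short Γ r (B * |(n : ℝ)| ^ (1 / ((t : ℝ) + 1))) (n : K) ∧
      Short Γ r (B * |(n : ℝ)| ^ (1 / ((t : ℝ) + 1))) (ρ : K) := by
    intro t
    have hinf : {n : ℤ | ∃ ρ : ℤ, ρ ^ 2 ∣ P.eval n ∧ P.eval n ∣ ρ ^ m ∧
      Short Γ r (B * |(n : ℝ)| ^ (1 / ((t : ℝ) + 1))) (n : K) ∧
      Short Γ r (B * |(n : ℝ)| ^ (1 / ((t : ℝ) + 1))) (ρ : K)}.Infinite :=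
      hcon (1 / ((t : ℝ) + 1)) (by positivity)
    have hfin : ({n : ℤ | |(n : ℝ)| < (t : ℝ) + 3} ∪ {n : ℤ | P.eval n = 0}).Finite := by
      refine Set.Finite.union ?_ ?_
      · refine (Set.finite_Icc (-((t : ℤ) + 3)) ((t : ℤ) + 3)).subset fun n hn => ?_
        have h2 : |(n : ℝ)| < (t : ℝ) + 3 := hn
        rw [abs_lt] at h2
        constructor
        · have h3 : -((t : ℝ) + 3) ≤ n := h2.1.le
          exact_mod_cast h3
        · have h3 : (n : ℝ) ≤ (t : ℝ) + 3 := h2.2.le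
          exact_mod_cast h3
      · refine (P.roots.toFinset.finite_toSet).subset fun n hn => ?_
        rw [Finset.mem_coe, Multiset.mem_toFinset, Polynomial.mem_roots hP]
        exact hn
    obtain ⟨n, ⟨ρ, hn⟩, hn2⟩ := (hinf.sdiff hfin).nonempty
    rw [Set.mem_union, not_or] at hn2
    exact ⟨n, ρ, not_lt.1 hn2.1, hn2.2, hn⟩
  choose n ρ hbig hPn hd1 hd2 hs1 hs2 using hex
  have hn3 : ∀ t, 3 ≤ |(n t : ℝ)| := fun t => by
    have := hbig t
    have h2 : (0 : ℝ) ≤ t := Nat.cast_nonneg t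
    linarith
  have hn1 : ∀ t, 1 ≤ |(n t : ℝ)| := fun t => by
    have := hn3 t
    linarith
  have hlim : Tendsto (fun t => Real.log |(n t : ℝ)|) atTop atTop := by
    refine Real.tendsto_log_atTop.comp (tendsto_atTop_mono hbig ?_)
    exact tendsto_atTop_add_const_right _ _ tendsto_natCast_atTop_atTop
  let σ : Sc := ⟨hyperfilter ℕ, _, hlim.mono_left Nat.hyperfilter_le_atTop⟩
  have hσL : ∀ t, σ.L t = Real.log |(n t : ℝ)| := fun t => rfl
  have h𝒰 : (σ.𝒰 : Filter ℕ) ≤ atTop := Nat.hyperfilter_le_atTop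
  -- the field
  obtain ⟨L, iF, iN, iA, α, hα, hroot⟩ := exists_field P a ha h0 h1 K
  have hfac : ∀ i, ∃ Q : Polynomial L, P.map (Int.castRingHom L) =
      (Polynomial.X - Polynomial.C (α i)) * Q := by
    intro i
    refine (Polynomial.dvd_iff_isRoot.2 ?_)
    rw [Polynomial.IsRoot, Polynomial.eval_map]
    exact (hroot i).1
  choose Q hQ using hfac
  have hQα : ∀ i, (Q i).eval (α i) ≠ 0 := by
    intro i h
    apply (hroot i).2
    have h2 : (Polynomial.derivative (P.map (Int.castRingHom L))).eval (α i) = 0 := by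
      rw [hQ i, Polynomial.derivative_mul]
      simp [h]
    rw [Polynomial.derivative_map, Polynomial.eval_map] at h2
    exact h2
  let T : Finset L := Finset.univ.biUnion fun i => (Q i).support.image (Q i).coeff
  have hT : ∀ i j, (Q i).coeff j = 0 ∨ (Q i).coeff j ∈ T := by
    intro i j
    by_cases hj : (Q i).coeff j = 0
    · exact Or.inl hj
    · right
      exact Finset.mem_biUnion.2 ⟨i, Finset.mem_univ _, Finset.mem_image.2
        ⟨j, Polynomial.mem_support_iff.2 hj, rfl⟩⟩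
  obtain ⟨S, hS, hSΓ, hST⟩ := exists_places (algebraMap K L) Γ hΓ T
  -- the representations
  have hred : ∀ (x : ℕ → ℤ), (∀ t, Short Γ r (B * |(n t : ℝ)| ^ (1 / ((t : ℝ) + 1)))
      ((x t : ℤ) : K)) → (∃ C : ℝ, ∀ᶠ t in (σ.𝒰 : Filter ℕ),
        logHeight₁ ((x t : ℤ) : L) ≤ C * σ.L t) →
      ∃ c γ : Fin r → G L σ, gm σ (fun t => ((x t : ℤ) : L)) = ∑ j, c j * γ j ∧
        (∀ j, c j ∈ FF L σ) ∧ (∀ j, SU S (γ j)) ∧ ∀ j, γ j ∈ BB L σ := by
    intro x hx hxB
    have h2 := fun t => reduced_rep ((x t : ℤ) : K)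
      (fun c => c = 0 ∨ mulHeight₁ c ≤ B * |(n t : ℝ)| ^ (1 / ((t : ℝ) + 1)))
      (fun g => ∃ γ ∈ Γ, g = (γ : K)) (Or.inl rfl) ⟨1, Γ.one_mem, by simp⟩ (by
        obtain ⟨c, γ, e1, e2, e3⟩ := hx t
        exact ⟨c, fun j => (γ j : K), fun j => Or.inr (e2 j), fun j => ⟨γ j, e1 j, rfl⟩, e3⟩)
    choose c γ e1 e2 e3 e4 e5 using h2
    have hcF : ∀ j, gm σ (fun t => algebraMap K L (c t j)) ∈ FF L σ := fun j =>
      coef_small h𝒰 B (fun t => |(n t : ℝ)|) hn1 hσL (fun t => c t j) fun t => e1 t j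
    have hγS : ∀ j t, IsSU S (algebraMap K L (γ t j)) := by
      intro j t
      obtain ⟨g, hg, hg2⟩ := e2 t j
      rw [hg2]
      exact hSΓ g hg
    have hsum : ∀ t, ((x t : ℤ) : L) = ∑ j, algebraMap K L (c t j) * algebraMap K L (γ t j) := by
      intro t
      have h3 := congrArg (algebraMap K L) (e3 t)
      rw [map_intCast, map_sum] at h3
      rw [h3]
      exact Finset.sum_congr rfl fun j _ => map_mul _ _ _
    have hbd := bounded_units (σ := σ) hS (fun t => ((x t : ℤ) : L))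
      (fun j t => algebraMap K L (c t j)) (fun j t => algebraMap K L (γ t j)) hsum hγS hcF hxB
      (by
        intro j t h
        have h3 : c t j = 0 := (map_eq_zero _).1 h
        show algebraMap K L (γ t j) = 1
        rw [e4 t j h3, map_one]) (by
        rintro t A ⟨j, hj, hcj⟩ h
        have h3 : algebraMap K L (∑ j ∈ A, c t j * γ t j) = 0 := by
          rw [← h, map_sum]
          exact Finset.sum_congr rfl fun j _ => map_mul _ _ _
        exact e5 t A ⟨j, hj, fun h4 => hcj (by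
          show algebraMap K L (c t j) = 0
          rw [h4, map_zero])⟩ ((map_eq_zero _).1 h3))
    refine ⟨fun j => gm σ (fun t => algebraMap K L (c t j)),
      fun j => gm σ (fun t => algebraMap K L (γ t j)), ?_, hcF, ?_, hbd⟩
    · have h3 : (fun t => ((x t : ℤ) : L)) = ∑ j, (fun t => algebraMap K L (c t j)) *
          (fun t => algebraMap K L (γ t j)) := by
        funext t
        rw [Finset.sum_apply]
        exact hsum t
      rw [h3, map_sum]
      exact Finset.sum_congr rfl fun j _ => map_mul _ _ _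
    · intro j
      filter_upwards [rep_gm (σ := σ) (fun t => algebraMap K L (γ t j))] with t ht
      rw [ht]
      exact hγS j t
  -- heights
  have hn0 : ∀ t, n t ≠ 0 := by
    intro t h
    have := hn1 t
    rw [h] at this
    norm_num at this
  have hhn : ∀ t, logHeight₁ ((n t : ℤ) : L) = Module.finrank ℚ L * σ.L t := fun t => by
    rw [height_int _ (hn0 t), hσL]
  have hρ0 : ∀ t, ρ t ≠ 0 := by
    intro t h
    have h2 := hd1 t
    rw [h, zero_pow two_ne_zero, zero_dvd_iff] at h2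
    exact hPn t h2
  obtain ⟨C, hC0, hC⟩ := poly_growth P
  have hhρ : ∀ t, logHeight₁ ((ρ t : ℤ) : L) ≤ Module.finrank ℚ L * C * σ.L t := by
    intro t
    rw [height_int _ (hρ0 t), mul_assoc]
    refine mul_le_mul_of_nonneg_left ?_ (Nat.cast_nonneg _)
    have h2 := hC (n t) (hn3 t) (hPn t)
    obtain ⟨w, hw⟩ := hd1 t
    have hw0 : w ≠ 0 := by
      rintro rfl
      rw [mul_zero] at hw
      exact hPn t hw
    have hρ1 : (1 : ℝ) ≤ |(ρ t : ℝ)| := by exact_mod_cast Int.one_le_abs (hρ0 t)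
    have hw1 : (1 : ℝ) ≤ |(w : ℝ)| := by exact_mod_cast Int.one_le_abs hw0
    have h3 : |(ρ t : ℝ)| ≤ |((P.eval (n t) : ℤ) : ℝ)| := by
      rw [hw]
      push_cast
      rw [abs_mul, abs_pow]
      nlinarith
    have h4 := Real.log_le_log (by linarith) h3
    rw [hσL]
    exact h4.trans h2
  obtain ⟨c1', γ1, hx1, hc1, hγ1, hγB1⟩ := hred n hs1
    ⟨_, Eventually.of_forall fun t => (hhn t).le⟩
  obtain ⟨c2', γ2, hx2, hc2, hγ2, hγB2⟩ := hred ρ hs2 ⟨_, Eventually.of_forall hhρ⟩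
  obtain ⟨r', u, hu, hrep⟩ := exists_rep (S := S) (Sum.elim γ1 γ2)
    (by rintro (j | j); exacts [hγ1 j, hγ2 j]) (by rintro (j | j); exacts [hγB1 j, hγB2 j])
  obtain ⟨N, e, hN⟩ := exists_poly hu _ c1' γ1 hx1 hc1 fun j => hrep (Sum.inl j)
  obtain ⟨R, e', hR⟩ := exists_poly hu _ c2' γ2 hx2 hc2 fun j => hrep (Sum.inr j)
  -- the germ of the values
  have hval : ∀ i t, ((n t : L) - α i) * (Q i).eval (n t : L) = ((P.eval (n t) : ℤ) : L) := by
    intro i t
    have h2 := congrArg (Polynomial.eval (n t : L)) (hQ i)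
    rw [Polynomial.eval_mul, Polynomial.eval_sub, Polynomial.eval_X, Polynomial.eval_C] at h2
    rw [← h2, Polynomial.eval_map]
    exact Polynomial.eval₂_at_intCast _ _
  have hcore := core hu hS (gm σ fun t => ((n t : ℤ) : L)) (gm σ fun t => ((ρ t : ℤ) : L))
    (gm σ fun t => ((P.eval (n t) : ℤ) : L)) α hα Q hQα ?_ ?_ (m + 1) (Nat.succ_ne_zero m) ?_
    N R e e' hN hR
  · rw [gm_mem_FF] at hcore
    obtain ⟨t, h2, h3⟩ := ((hcore (1 / 2) (by norm_num)).and (L_pos (σ := σ))).exists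
    have h4 : logHeight₁ ((n t : ℤ) : L) ≤ 1 / 2 * σ.L t := h2
    rw [hhn t] at h4
    have h5 : (1 : ℝ) ≤ Module.finrank ℚ L := by
      exact_mod_cast Nat.one_le_iff_ne_zero.2 (Module.finrank_pos (R := ℚ) (M := L)).ne'
    nlinarith
  · intro i
    rw [aeval_gm, alg_eq, ← map_sub, ← map_mul]
    congr 1
    funext t
    exact hval i t
  · rw [gm_ne]
    refine Eventually.of_forall fun t => ?_
    exact_mod_cast hPn t
  · intro i
    rw [aeval_gm]
    filter_upwards [rep_gm (σ := σ) (fun t => (Q i).eval ((n t : ℤ) : L)),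
      rep_gm (σ := σ) (fun t => ((P.eval (n t) : ℤ) : L)),
      rep_gm (σ := σ) (fun t => ((ρ t : ℤ) : L))] with t e1 e2 e3 v hv
    rw [e1, e2, e3]
    refine ⟨?_, ?_, ?_⟩
    · refine fv_eval v (Q i) (fun j => ?_) _ (fv_int v _)
      rcases hT i j with h2 | h2
      · rw [h2, map_zero]
        exact zero_le_one
      · exact hST v hv _ h2
    · obtain ⟨w, hw⟩ := hd1 t
      rw [hw]
      push_cast
      rw [map_mul, map_pow]
      exact mul_le_of_le_one_right (pow_nonneg ((fv v).nonneg _) _) (fv_int v w)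
    · obtain ⟨w, hw⟩ := (hd2 t).trans (pow_dvd_pow (ρ t) (Nat.le_succ m))
      have h2 : ((ρ t : ℤ) : L) ^ (m + 1) = ((P.eval (n t) : ℤ) : L) * (w : L) := by
        exact_mod_cast hw
      rw [← map_pow, h2, map_mul]
      exact mul_le_of_le_one_right ((fv v).nonneg _) (fv_int v w)

end Pool.Agent.Run7.h720
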