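import Pool.Agent.K1H83.VN.Unit
import Pool.Agent.Run7.h720.Alg

/-!
The subspace theorem for germs with moving forms: the coefficients of the forms are germs of small
height.
-/

set_option autoImplicit false
set_option linter.unusedSectionVars false

namespace Pool.Agent.Run7.h720

open NumberField IsDedekindDomain Height Filter Topology
open Pool.Agent.W180.OP (Pl av wt fv fv_support_finite wt_nonneg nrm)
open Pool.Agent.K1H83.VN

variable {k : Type} [Field k] [NumberField k] {σ : Sc} {S : Finset (Pl k)}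

/-- the subspace theorem for germs, in terms of families of germs -/
theorem sub_fam (hS : ∀ w : InfinitePlace k, Sum.inl w ∈ S) {ι κ : Type} [Fintype ι]
    [Fintype κ] [Nonempty ι] (hc : Fintype.card κ = Fintype.card ι) (z : ι → G k σ)
    (hz : LinearIndependent k z) (hB : ∀ i, z i ∈ BB k σ) (y : Pl k → κ → G k σ)
    (hy : ∀ v ∈ S, LinearIndependent k (y v))
    (hm : ∀ v ∈ S, ∀ i, y v i ∈ Submodule.span k (Set.range z)) :
    Sm σ fun t => -(∑ v ∈ S, wt v * ∑ i, lv v (y v i) t) -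
      Fintype.card ι * ho S (fun j => rep (z j) t) := by
  classical
  let e : κ ≃ ι := Fintype.equivOfCardEq hc
  have h1 : ∀ v : Pl k, ∃ B : ι → ι → k, v ∈ S →
      ∀ a, y v (e.symm a) = ∑ j, B a j • z j := by
    intro v
    by_cases hv : v ∈ S
    · have h2 : ∀ a, ∃ c : ι → k, ∑ j, c j • z j = y v (e.symm a) := fun a =>
        (Submodule.mem_span_range_iff_exists_fun k).1 (hm v hv (e.symm a))
      choose c hc using h2
      exact ⟨c, fun _ a => (hc a).symm⟩
    · exact ⟨fun _ _ => 0, fun h => absurd h hv⟩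
  choose B hBy using h1
  have hdet : ∀ v ∈ S, (Matrix.of (B v)).det ≠ 0 := by
    intro v hv h
    obtain ⟨x, hx, h2⟩ := Matrix.exists_vecMul_eq_zero_iff.2 h
    apply hx
    have h3 := (linearIndependent_equiv e.symm).2 (hy v hv)
    rw [Fintype.linearIndependent_iff] at h3
    funext i
    refine h3 x ?_ i
    simp only [Function.comp_apply]
    have h4 : ∀ a, x a • y v (e.symm a) = ∑ j, (x a * B v a j) • z j := by
      intro a
      rw [hBy v hv a, Finset.smul_sum]
      exact Finset.sum_congr rfl fun j _ => by rw [smul_smul]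
    rw [Finset.sum_congr rfl fun a _ => h4 a, Finset.sum_comm]
    refine Finset.sum_eq_zero fun j _ => ?_
    rw [← Finset.sum_smul]
    have h5 : ∑ a, x a * B v a j = 0 := by
      have := congrFun h2 j
      rw [Matrix.vecMul, dotProduct] at this
      simpa using this
    rw [h5, zero_smul]
  have h2 := germ_sub' S hS z hz (BB_height z hB) B hdet
  refine h2.mono ?_
  have h3 : ∀ v ∈ S, ∀ a, ∀ᶠ t in (σ.𝒰 : Filter ℕ),
      Real.log (av v (∑ j, B v a j * rep (z j) t)) = lv v (y v (e.symm a)) t := by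
    intro v hv a
    have h4 := rep_sum (σ := σ) Finset.univ fun j => B v a j • z j
    have h5 : ∀ᶠ t in (σ.𝒰 : Filter ℕ), ∀ j, rep (B v a j • z j) t = B v a j * rep (z j) t := by
      rw [Filter.eventually_all]
      exact fun j => rep_smul _ _
    filter_upwards [h4, h5] with t h6 h7
    unfold lv
    rw [hBy v hv a, h6]
    congr 2
    exact Finset.sum_congr rfl fun j _ => (h7 j).symm
  have h4 : ∀ᶠ t in (σ.𝒰 : Filter ℕ), ∀ v ∈ S, ∀ a,
      Real.log (av v (∑ j, B v a j * rep (z j) t)) = lv v (y v (e.symm a)) t := by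
    rw [Filter.eventually_all_finset]
    intro v hv
    rw [Filter.eventually_all]
    exact h3 v hv
  filter_upwards [h4] with t h5
  have h6 : ∑ v ∈ S, wt v * ∑ i, lv v (y v i) t =
      ∑ v ∈ S, wt v * ∑ a, Real.log (av v (∑ j, B v a j * rep (z j) t)) := by
    refine Finset.sum_congr rfl fun v hv => ?_
    congr 1
    rw [← e.symm.sum_comp]
    exact Finset.sum_congr rfl fun a _ => (h5 v hv a).symm
  rw [h6]

/-- nonnegative multiples of the scale which are arbitrarily small -/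
theorem Sm.of_forall {f : ℕ → ℝ}
    (h : ∀ ε : ℝ, 0 < ε → ∃ g : ℕ → ℝ, Sm σ g ∧ ∀ᶠ t in (σ.𝒰 : Filter ℕ),
      f t ≤ g t + ε * σ.L t) : Sm σ f := by
  intro ε hε
  obtain ⟨g, hg, hfg⟩ := h (ε / 2) (by positivity)
  filter_upwards [hg (ε / 2) (by positivity), hfg] with t h1 h2
  linarith

theorem ho_BB {ι : Type} [Fintype ι] (hS : ∀ w : InfinitePlace k, Sum.inl w ∈ S)
    (z : ι → G k σ) (i0 : ι) (hz0 : z i0 ≠ 0) (hB : ∀ i, z i ∈ BB k σ) :
    ∃ C : ℝ, ∀ᶠ t in (σ.𝒰 : Filter ℕ), ho S (fun j => rep (z j) t) ≤ C * σ.L t := by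
  choose C hC using hB
  refine ⟨∑ i, C i, ?_⟩
  have h1 : ∀ᶠ t in (σ.𝒰 : Filter ℕ), ∀ i, logHeight₁ (rep (z i) t) ≤ C i * σ.L t := by
    rw [Filter.eventually_all]
    exact hC
  filter_upwards [h1, rep_ne _ hz0] with t ht h0
  have h2 : ho S (fun j => rep (z j) t) ≤ ho S (c1 fun j => rep (z j) t) := by
    refine ho_le S _ (ne_of_coord (i := i0) h0) _ (ne_of_one _ none rfl) fun v _ => ?_
    refine nm_le _ (nm_nonneg _ _) fun i => ?_
    exact le_nm (fv v) (c1 fun j => rep (z j) t) (some i)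
  refine h2.trans ((ho_le_height S hS _ none rfl).trans ((logHeight_c1 _).trans ?_))
  rw [Finset.sum_mul]
  exact Finset.sum_le_sum fun i _ => ht i

theorem ho_c1_small {ι : Type} [Fintype ι] (hS : ∀ w : InfinitePlace k, Sum.inl w ∈ S)
    (c : ι → G k σ) (hc : ∀ i, c i ∈ FF k σ) :
    Sm σ fun t => ho S (c1 fun j => rep (c j) t) := by
  have h1 : Sm σ fun t => ∑ i, logHeight₁ (rep (c i) t) := Sm.sum _ fun i _ => hc i
  refine h1.mono (Eventually.of_forall fun t => ?_)
  exact (ho_le_height S hS _ none rfl).trans (logHeight_c1 _)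

/-- the subspace theorem for germs with moving forms -/
theorem mov_fam (hS : ∀ w : InfinitePlace k, Sum.inl w ∈ S) {ι κ : Type} [Fintype ι]
    [Fintype κ] [Nonempty ι] (hc : Fintype.card κ = Fintype.card ι) (z : ι → G k σ)
    (hz : LinearIndependent (FF k σ) z) (hB : ∀ i, z i ∈ BB k σ) (y : Pl k → κ → G k σ)
    (hy : ∀ v ∈ S, LinearIndependent (FF k σ) (y v))
    (hm : ∀ v ∈ S, ∀ i, y v i ∈ Submodule.span (FF k σ) (Set.range z)) :
    Sm σ fun t => -(∑ v ∈ S, wt v * ∑ i, lv v (y v i) t) -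
      Fintype.card ι * ho S (fun j => rep (z j) t) := by
  classical
  have hz0 : ∀ i, z i ≠ 0 := fun i => hz.ne_zero i
  -- the coefficients of the forms
  have h1 : ∀ v : Pl k, ∀ i, ∃ c : ι → FF k σ, v ∈ S → ∑ j, c j • z j = y v i := by
    intro v i
    by_cases hv : v ∈ S
    · obtain ⟨c, hc⟩ := (Submodule.mem_span_range_iff_exists_fun (FF k σ)).1 (hm v hv i)
      exact ⟨c, fun _ => hc⟩
    · exact ⟨fun _ => 0, fun h => absurd h hv⟩
  choose m hmm using h1
  -- bounds for the germs `z`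
  have h2 : ∀ (v : Pl k) (j : ι), ∃ C : ℝ, 0 ≤ C ∧ ∀ᶠ t in (σ.𝒰 : Filter ℕ),
      |lv v (z j) t| ≤ C * σ.L t := fun v j => lv_bound v (z j) (hz0 j) (hB j)
  choose C0 hC0 hC1 using h2
  set C : ℝ := ∑ v ∈ S, ∑ j, C0 v j with hC
  have hCn : 0 ≤ C := Finset.sum_nonneg fun v _ => Finset.sum_nonneg fun j _ => hC0 v j
  have hCb : ∀ v ∈ S, ∀ j, ∀ᶠ t in (σ.𝒰 : Filter ℕ), lv v (z j) t ≤ C * σ.L t := by
    intro v hv j
    filter_upwards [hC1 v j, L_pos (σ := σ)] with t ht hL
    refine (le_abs_self _).trans (ht.trans (mul_le_mul_of_nonneg_right ?_ hL.le))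
    have e1 : C0 v j ≤ ∑ j, C0 v j :=
      Finset.single_le_sum (f := fun j => C0 v j) (fun j _ => hC0 v j) (Finset.mem_univ j)
    have e2 : ∑ j, C0 v j ≤ C :=
      Finset.single_le_sum (f := fun v => ∑ j, C0 v j)
        (fun v _ => Finset.sum_nonneg fun j _ => hC0 v j) hv
    linarith
  obtain ⟨C2', hC2'⟩ := ho_BB hS z (Classical.arbitrary ι) (hz0 _) hB
  obtain ⟨C2, hC2n, hC2⟩ : ∃ C2 : ℝ, 0 ≤ C2 ∧ ∀ᶠ t in (σ.𝒰 : Filter ℕ),
      ho S (fun j => rep (z j) t) ≤ C2 * σ.L t := by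
    refine ⟨|C2'|, abs_nonneg _, ?_⟩
    filter_upwards [hC2', L_pos (σ := σ)] with t h3 h4
    exact h3.trans (mul_le_mul_of_nonneg_right (le_abs_self _) h4.le)
  set w : ℝ := ∑ v ∈ S, wt v with hw
  have hw0 : 0 ≤ w := Finset.sum_nonneg fun v _ => wt_nonneg v
  set n : ℕ := Fintype.card ι with hn
  refine Sm.of_forall fun ε hε => ?_
  set M : ℝ := n * (C2 + w * C) with hM
  have hM0 : 0 ≤ M := by positivity
  obtain ⟨d, d', b, b', W', hdd', hd0, hdd, hb, hb', hspan', hmulW⟩ :=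
    exists_sfam (k := k) (fun t : ↥S × κ × ι => m t.1.1 t.2.1 t.2.2) (ε / (M + 1))
      (by positivity)
  -- the big family
  have hbig : ∀ v : Pl k, ∃ g : Fin ((d' - d) * Fintype.card ι) → G k σ, v ∈ S →
      (∀ l, ∃ s j, g l = b' s • z j) ∧
      LinearIndependent k (Sum.elim (fun p : Fin d × κ => b p.1 • y v p.2) g) ∧
      ∀ i, Sum.elim (fun p : Fin d × κ => b p.1 • y v p.2) g i ∈
        Submodule.span k (Set.range fun p : Fin d' × ι => b' p.1 • z p.2) := by
    intro v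
    by_cases hv : v ∈ S
    · obtain ⟨-, g, hg⟩ := big_fam hc hb hb' hspan' hz (hy v hv) (fun i j => m v i j)
        (fun i => hmm v i hv) (fun s i j => hmulW (⟨v, hv⟩, i, j) s)
      exact ⟨g, fun _ => hg⟩
    · exact ⟨fun _ => 0, fun h => absurd h hv⟩
  choose g hg using hbig
  obtain ⟨X, hXd⟩ : ∃ X : Fin d' × ι → G k σ, X = fun p => b' p.1 • z p.2 := ⟨_, rfl⟩
  obtain ⟨u, hud⟩ : ∃ u : Pl k → Fin d × κ → G k σ, u = fun v p => b p.1 • y v p.2 := ⟨_, rfl⟩
  have hg1 : ∀ v ∈ S, ∀ l, ∃ s j, g v l = b' s • z j := fun v hv => (hg v hv).1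
  have hg2 : ∀ v ∈ S, LinearIndependent k (Sum.elim (u v) (g v)) := by
    intro v hv
    rw [hud]
    exact (hg v hv).2.1
  have hg3 : ∀ v ∈ S, ∀ i, Sum.elim (u v) (g v) i ∈ Submodule.span k (Set.range X) := by
    intro v hv i
    rw [hud, hXd]
    exact (hg v hv).2.2 i
  have hX : LinearIndependent k X := by
    rw [hXd]
    exact linearIndependent_smul hb' hz
  have hXp : ∀ p, X p = ((b' p.1 : FF k σ) : G k σ) * z p.2 := by
    intro p
    rw [hXd]
    rfl
  have hup : ∀ v p, u v p = ((b p.1 : FF k σ) : G k σ) * y v p.2 := by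
    intro v p
    rw [hud]
    rfl
  clear hg hXd hud
  have hne : Nonempty (Fin d' × ι) := ⟨(⟨0, by omega⟩, Classical.arbitrary ι)⟩
  have hcle : d * Fintype.card ι ≤ d' * Fintype.card ι := Nat.mul_le_mul_right _ hdd'
  have key := sub_fam (S := S) hS (ι := Fin d' × ι)
    (κ := (Fin d × κ) ⊕ Fin ((d' - d) * Fintype.card ι))
    (by
      rw [Fintype.card_sum, Fintype.card_fin, Fintype.card_prod, Fintype.card_prod,
        Fintype.card_fin, Fintype.card_fin, hc, Nat.sub_mul]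
      exact Nat.add_sub_cancel' hcle) X hX
    (fun p => by
      rw [hXp]
      exact (BB k σ).mul_mem (FF_le (b' p.1 : FF k σ).2) (hB p.2))
    (fun v => Sum.elim (u v) (g v)) hg2 hg3
  -- the small terms
  have hbne : ∀ s, ((b s : FF k σ) : G k σ) ≠ 0 := fun s h => hb.ne_zero s (Subtype.ext h)
  have hbne' : ∀ s, ((b' s : FF k σ) : G k σ) ≠ 0 := fun s h => hb'.ne_zero s (Subtype.ext h)
  have s1 : Sm σ fun t => ∑ v ∈ S, wt v * ∑ s, |lv v ((b s : FF k σ) : G k σ) t| :=
    Sm.sum _ fun v _ => (Sm.sum _ fun s _ =>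
      lv_small v _ (hbne s) (b s : FF k σ).2).smul (wt_nonneg v)
  have s2 : Sm σ fun t => ∑ v ∈ S, wt v * ∑ s, |lv v ((b' s : FF k σ) : G k σ) t| :=
    Sm.sum _ fun v _ => (Sm.sum _ fun s _ =>
      lv_small v _ (hbne' s) (b' s : FF k σ).2).smul (wt_nonneg v)
  have s3 : Sm σ fun t => ho S (c1 fun s => rep ((b' s : FF k σ) : G k σ) t) :=
    ho_c1_small hS _ fun s => (b' s : FF k σ).2
  obtain ⟨e, he⟩ : ∃ e, e = (d' - d) * Fintype.card ι := ⟨_, rfl⟩
  have hdpos : (0 : ℝ) < d := by exact_mod_cast hd0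
  refine ⟨fun t => (1 / d) * ((-(∑ v ∈ S, wt v * ∑ i, lv v (Sum.elim (u v) (g v) i) t) -
      Fintype.card (Fin d' × ι) * ho S (fun j => rep (X j) t)) +
      (n * (∑ v ∈ S, wt v * ∑ s, |lv v ((b s : FF k σ) : G k σ) t|) +
      (e * (∑ v ∈ S, wt v * ∑ s, |lv v ((b' s : FF k σ) : G k σ) t|) +
      (Fintype.card (Fin d' × ι) : ℝ) *
        ho S (c1 fun s => rep ((b' s : FF k σ) : G k σ) t)))),
    ((key.add ((s1.smul (by positivity)).add ((s2.smul (by positivity)).add
      (s3.smul (by positivity))))).smul (by positivity)), ?_⟩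
  have f1 : ∀ᶠ t in (σ.𝒰 : Filter ℕ), ∀ v ∈ S, ∀ p : Fin d × κ,
      lv v (u v p) t = lv v ((b p.1 : FF k σ) : G k σ) t + lv v (y v p.2) t := by
    rw [Filter.eventually_all_finset]
    intro v hv
    rw [Filter.eventually_all]
    intro p
    rw [hup]
    exact lv_mul v _ _ (hbne p.1) ((hy v hv).ne_zero p.2)
  have f2 : ∀ᶠ t in (σ.𝒰 : Filter ℕ), ∀ v ∈ S, ∀ i,
      lv v (g v i) t ≤ (∑ s, |lv v ((b' s : FF k σ) : G k σ) t|) + C * σ.L t := by
    rw [Filter.eventually_all_finset]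
    intro v hv
    rw [Filter.eventually_all]
    intro i
    obtain ⟨s, j, hp⟩ := hg1 v hv i
    rw [hp]
    filter_upwards [lv_mul v _ _ (hbne' s) (hz0 j), hCb v hv j] with t e1 e2
    have e3 : lv v (b' s • z j) t = lv v ((b' s : FF k σ) : G k σ) t + lv v (z j) t := e1
    rw [e3]
    have e4 : |lv v ((b' s : FF k σ) : G k σ) t| ≤
        ∑ s, |lv v ((b' s : FF k σ) : G k σ) t| :=
      Finset.single_le_sum (f := fun s => |lv v ((b' s : FF k σ) : G k σ) t|)
        (fun s _ => abs_nonneg _) (Finset.mem_univ s)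
    have e5 := le_abs_self (lv v ((b' s : FF k σ) : G k σ) t)
    linarith
  have f3 : ∀ᶠ t in (σ.𝒰 : Filter ℕ), ∀ p : Fin d' × ι,
      rep (X p) t = rep ((b' p.1 : FF k σ) : G k σ) t * rep (z p.2) t := by
    rw [Filter.eventually_all]
    intro p
    rw [hXp]
    exact rep_mul _ _
  have f4 : ∀ᶠ t in (σ.𝒰 : Filter ℕ), ∀ p : Fin d' × ι, rep (X p) t ≠ 0 := by
    rw [Filter.eventually_all]
    exact fun p => rep_ne _ (hX.ne_zero p)
  have f5 : ∀ᶠ t in (σ.𝒰 : Filter ℕ), ∀ j, rep (z j) t ≠ 0 := by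
    rw [Filter.eventually_all]
    exact fun p => rep_ne _ (hz0 p)
  filter_upwards [f1, f2, f3, f4, f5, hC2, L_pos (σ := σ)] with t t1 t2 t3 t4 t5 t6 t7
  have g1 : ho S (fun j => rep (X j) t) ≤
      ho S (c1 fun s => rep ((b' s : FF k σ) : G k σ) t) + ho S (fun j => rep (z j) t) := by
    refine ho_mul_le S (fun j => rep (X j) t)
      (ne_of_coord (i := Classical.arbitrary (Fin d' × ι)) (t4 _))
      (c1 fun s => rep ((b' s : FF k σ) : G k σ) t) (ne_of_one _ none rfl)
      (fun j => rep (z j) t)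
      (ne_of_coord (i := Classical.arbitrary ι) (t5 _)) fun v _ => ?_
    refine nm_le _ (mul_nonneg (nm_nonneg _ _) (nm_nonneg _ _)) fun p => ?_
    rw [t3 p, map_mul]
    exact mul_le_mul (le_nm (fv v) (c1 fun s => rep ((b' s : FF k σ) : G k σ) t) (some p.1))
      (le_nm (fv v) (fun j => rep (z j) t) p.2) ((fv v).nonneg _) (nm_nonneg _ _)
  have g2 : ∑ v ∈ S, wt v * ∑ i, lv v (Sum.elim (u v) (g v) i) t ≤
      d * (∑ v ∈ S, wt v * ∑ i, lv v (y v i) t) +
      n * (∑ v ∈ S, wt v * ∑ s, |lv v ((b s : FF k σ) : G k σ) t|) +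
      e * (∑ v ∈ S, wt v * ∑ s, |lv v ((b' s : FF k σ) : G k σ) t|) +
      e * (w * (C * σ.L t)) := by
    rw [hw, Finset.sum_mul, Finset.mul_sum, Finset.mul_sum, Finset.mul_sum, Finset.mul_sum,
      ← Finset.sum_add_distrib, ← Finset.sum_add_distrib, ← Finset.sum_add_distrib]
    refine Finset.sum_le_sum fun v hv => ?_
    have r1 : ∑ i, lv v (Sum.elim (u v) (g v) i) t ≤ d * ∑ i, lv v (y v i) t +
        n * ∑ s, |lv v ((b s : FF k σ) : G k σ) t| +
        e * ((∑ s, |lv v ((b' s : FF k σ) : G k σ) t|) + C * σ.L t) := by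
      rw [Fintype.sum_sum_type]
      simp only [Sum.elim_inl, Sum.elim_inr]
      have r2 : ∑ p : Fin d × κ, lv v (u v p) t = n * ∑ s, lv v ((b s : FF k σ) : G k σ) t +
          d * ∑ i, lv v (y v i) t := by
        rw [Finset.sum_congr rfl fun p _ => t1 v hv p, Finset.sum_add_distrib,
          Fintype.sum_prod_type, Fintype.sum_prod_type]
        simp only [Finset.sum_const, Finset.card_univ, Fintype.card_fin, nsmul_eq_mul, hc, hn,
          Finset.mul_sum]
      have r3 : ∑ s, lv v ((b s : FF k σ) : G k σ) t ≤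
          ∑ s, |lv v ((b s : FF k σ) : G k σ) t| :=
        Finset.sum_le_sum fun s _ => le_abs_self _
      have r4 : ∑ i, lv v (g v i) t ≤
          e * ((∑ s, |lv v ((b' s : FF k σ) : G k σ) t|) + C * σ.L t) := by
        refine (Finset.sum_le_sum fun i _ => t2 v hv i).trans (le_of_eq ?_)
        rw [Finset.sum_const, Finset.card_univ, Fintype.card_fin, nsmul_eq_mul, he]
      have r5 : (n : ℝ) * ∑ s, lv v ((b s : FF k σ) : G k σ) t ≤
          n * ∑ s, |lv v ((b s : FF k σ) : G k σ) t| :=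
        mul_le_mul_of_nonneg_left r3 (by positivity)
      linarith
    have r6 := mul_le_mul_of_nonneg_left r1 (wt_nonneg v)
    refine r6.trans (le_of_eq ?_)
    ring
  have g3 : (Fintype.card (Fin d' × ι) : ℝ) = d' * n := by
    rw [Fintype.card_prod, Fintype.card_fin]
    push_cast
    rfl
  have g4 : (e : ℝ) = (d' - d) * n := by
    rw [he, Nat.cast_mul, Nat.cast_sub hdd']
  have g5 : (0 : ℝ) ≤ (d' - d) * n := by
    have : (d : ℝ) ≤ d' := by exact_mod_cast hdd'
    have h9 : (0 : ℝ) ≤ (d' : ℝ) - d := by linarith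
    positivity
  rw [one_div, ← div_eq_inv_mul, ← sub_le_iff_le_add, le_div_iff₀ hdpos]
  rw [g3]
  have g6 : (d' : ℝ) * n * ho S (fun j => rep (X j) t) ≤
      d' * n * (ho S (c1 fun s => rep ((b' s : FF k σ) : G k σ) t) +
        ho S (fun j => rep (z j) t)) := mul_le_mul_of_nonneg_left g1 (by positivity)
  have g7 : ((d' : ℝ) - d) * n * ho S (fun j => rep (z j) t) ≤
      (d' - d) * n * (C2 * σ.L t) := mul_le_mul_of_nonneg_left t6 g5
  have g8 : ((d' : ℝ) - d) * n * (C2 * σ.L t) + e * (w * (C * σ.L t)) =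
      (d' - d) * (M * σ.L t) := by
    rw [g4, hM]
    ring
  have g9 : ((d' : ℝ) - d) * (M * σ.L t) ≤ d * (ε * σ.L t) := by
    have e1 : (d' : ℝ) - d ≤ ε / (M + 1) * d := by linarith
    have e2 : ((d' : ℝ) - d) * (M * σ.L t) ≤ ε / (M + 1) * d * (M * σ.L t) :=
      mul_le_mul_of_nonneg_right e1 (by positivity)
    have e3 : ε / (M + 1) * d * (M * σ.L t) = (M / (M + 1)) * (d * (ε * σ.L t)) := by
      field_simp
    have e4 : M / (M + 1) ≤ 1 := by
      rw [div_le_one (by positivity)]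
      linarith
    have e5 : (M / (M + 1)) * (d * (ε * σ.L t)) ≤ 1 * (d * (ε * σ.L t)) :=
      mul_le_mul_of_nonneg_right e4 (by positivity)
    linarith
  nlinarith [g2, g6, g7, g8, g9]

end Pool.Agent.Run7.h720
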