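import Pool.Agent.Run7.h720.NStep

/-!
The n-term abc inequality for germs, with the exponent of the function field case.
-/

set_option autoImplicit false
set_option linter.unusedSectionVars false

namespace Pool.Agent.Run7.h720

open NumberField IsDedekindDomain Height Filter Topology
open Pool.Agent.W180.OP (Pl av wt fv fv_support_finite wt_nonneg nrm)
open Pool.Agent.K1H83.VN
open MvPolynomial (monomial)

section lin
variable {F V : Type} [Field F] [AddCommGroup V] [Module F V] {n : ℕ}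

/-- enumeration of the part outside `U` of a minimal relation -/
theorem circuit_part (x : Fin n → V) (U : Finset (Fin n)) (κ : Fin n → F)
    (hrel : ∑ i, κ i • x i = 0) (hU : ∑ i ∈ U, κ i • x i ≠ 0)
    (hmin : ∀ μ : Fin n → F, ∑ i, μ i • x i = 0 → (∀ i, κ i = 0 → μ i = 0) →
        (∃ i, κ i ≠ 0 ∧ μ i = 0) → μ = 0) :
    ∃ (m : ℕ) (g : Fin m → Fin n), Function.Injective g ∧ (∀ b, g b ∉ U) ∧
      (∀ b, κ (g b) ≠ 0) ∧ m ≠ 0 ∧ ∑ b, κ (g b) • x (g b) + ∑ i ∈ U, κ i • x i = 0 ∧
      LinearIndependent F fun b : Fin m => x (g b) := by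
  classical
  obtain ⟨I, hI⟩ : ∃ I : Finset (Fin n), I = Finset.univ.filter fun i => κ i ≠ 0 ∧ i ∉ U :=
    ⟨_, rfl⟩
  have hmem : ∀ i, i ∈ I ↔ κ i ≠ 0 ∧ i ∉ U := fun i => by rw [hI]; simp
  obtain ⟨g, hg⟩ : ∃ g : Fin I.card ↪o Fin n, g = I.orderEmbOfFin rfl := ⟨_, rfl⟩
  have hran : ∀ i, i ∈ I ↔ ∃ b, g b = i := by
    intro i
    rw [hg, ← Set.mem_range, Finset.range_orderEmbOfFin]
    rfl
  have hinj : Function.Injective g := g.injective
  have hgI : ∀ b, κ (g b) ≠ 0 ∧ g b ∉ U := fun b => (hmem _).1 ((hran _).2 ⟨b, rfl⟩)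
  obtain ⟨i1, hi1U, hi1⟩ : ∃ i ∈ U, κ i ≠ 0 := by
    by_contra hcon
    push Not at hcon
    exact hU (Finset.sum_eq_zero fun i hi => by rw [hcon i hi, zero_smul])
  have hsum : ∑ b, κ (g b) • x (g b) + ∑ i ∈ U, κ i • x i = 0 := by
    rw [← hrel, ← Finset.sum_sdiff (Finset.subset_univ U)]
    congr 1
    rw [← Finset.sum_image (f := fun i => κ i • x i) (g := g) fun a _ b _ h => hinj h]
    refine Finset.sum_subset ?_ ?_
    · intro i hi
      obtain ⟨b, -, rfl⟩ := Finset.mem_image.1 hi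
      exact Finset.mem_sdiff.2 ⟨Finset.mem_univ _, (hgI b).2⟩
    · intro i hi hni
      have h2 : κ i = 0 := by
        by_contra h
        obtain ⟨b, hb⟩ := (hran i).1 ((hmem i).2 ⟨h, (Finset.mem_sdiff.1 hi).2⟩)
        exact hni (Finset.mem_image.2 ⟨b, Finset.mem_univ _, hb⟩)
      rw [h2, zero_smul]
  refine ⟨I.card, g, hinj, fun b => (hgI b).2, fun b => (hgI b).1, ?_, hsum, ?_⟩
  · intro h0
    apply hU
    rw [← hsum]
    have : IsEmpty (Fin I.card) := by
      rw [h0]
      infer_instance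
    rw [Finset.univ_eq_empty, Finset.sum_empty, zero_add]
  · rw [Fintype.linearIndependent_iff]
    intro c hcs
    obtain ⟨μ, hμ⟩ : ∃ μ : Fin n → F, μ = fun i => ∑ b, if g b = i then c b else 0 :=
      ⟨_, rfl⟩
    have hμb : ∀ b, μ (g b) = c b := by
      intro b
      rw [hμ]
      show ∑ b', (if g b' = g b then c b' else 0) = c b
      rw [Finset.sum_eq_single b, if_pos rfl]
      · intro b' _ hb'
        rw [if_neg]
        intro h
        exact hb' (hinj h)
      · intro h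
        exact absurd (Finset.mem_univ _) h
    have h1 : ∑ i, μ i • x i = 0 := by
      rw [← hcs, hμ]
      simp only [Finset.sum_smul]
      rw [Finset.sum_comm]
      refine Finset.sum_congr rfl fun b _ => ?_
      rw [Finset.sum_eq_single (g b)]
      · rw [if_pos rfl]
      · intro i _ hi
        rw [if_neg fun h => hi h.symm, zero_smul]
      · intro h
        exact absurd (Finset.mem_univ _) h
    have h0 := hmin μ h1 (by
      intro i hi
      rw [hμ]
      refine Finset.sum_eq_zero fun b _ => ?_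
      rw [if_neg]
      intro h
      rw [← h] at hi
      exact (hgI b).1 hi) ⟨i1, hi1, by
        rw [hμ]
        refine Finset.sum_eq_zero fun b _ => ?_
        rw [if_neg]
        intro h
        exact (hgI b).2 (by rw [h]; exact hi1U)⟩
    intro b
    rw [← hμb b, h0]
    rfl

theorem tri_add (s m : ℕ) : s * (s - 1) / 2 + m * (m - 1) / 2 ≤ (s + m) * (s + m - 1) / 2 := by
  induction m with
  | zero => simp
  | succ m ih =>
    have h1 := Nat.triangle_succ m
    have h2 := Nat.triangle_succ (s + m)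
    rw [← add_assoc s m 1, h1, h2]
    omega

theorem real_aux (a q p z s B : ℝ) (ha : 0 ≤ a) (hq : 0 ≤ q) (hp : 0 ≤ p) (hz : 0 ≤ z)
    (hs : 0 ≤ s) (hpB : p ≤ B) (hzB : z ≤ B) (n : ℕ) (hsB : s ≤ B ^ n) :
    a * (q * (p * z) * s) ≤ (q * a) * B ^ (2 + n) := by
  have hB : 0 ≤ B := hp.trans hpB
  calc a * (q * (p * z) * s) ≤ a * (q * (B * B) * B ^ n) := by gcongr
    _ = (q * a) * B ^ (2 + n) := by
      rw [pow_add]
      ring

end lin

variable {k : Type} [Field k] [NumberField k] {σ : Sc} {S : Finset (Pl k)} {r : ℕ}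

section
variable {u : Fin r → G k σ} (hu : Indep S u)
include hu

/-- the growth of the height of a tuple when entries are added by means of a relation -/
theorem step_main (hS : ∀ w : InfinitePlace k, Sum.inl w ∈ S) {n m : ℕ}
    (x : Fin n → MvPolynomial (Fin r) (FF k σ)) (hx0 : ∀ i, x i ≠ 0)
    (R : MvPolynomial (Fin r) (FF k σ)) (hR : R ≠ 0) (τ : G k σ) (hτ : τ ≠ 0)
    {ν : Type} [Fintype ν] (Y : ν → MvPolynomial (Fin r) (FF k σ)) (M q : ℕ) (hM : M ≠ 0)
    (h1 : ∀ᶠ t in (σ.𝒰 : Filter ℕ), ∀ v : HeightOneSpectrum (𝓞 k), Sum.inr v ∉ S →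
      fv v (rep τ t) ≤ 1 ∧ fv v (rep (ev u R) t) ^ M * fv v (rep τ t) ≤
        (∏ i, fv v (rep (ev u (x i)) t)) * nm (fv v) (c1 fun i => rep (ev u (Y i)) t) ^ q)
    (U : Finset (Fin n)) (i1 : Fin n) (hi1 : i1 ∈ U)
    (g : Fin m → Fin n) (hg : Function.Injective g) (hgU : ∀ b, g b ∉ U)
    (κ : Fin n → FF k σ) (hκ : ∀ b, κ (g b) ≠ 0)
    (hsum : ∑ b, κ (g b) • x (g b) + ∑ i ∈ U, κ i • x i = 0)
    (hind : LinearIndependent (FF k σ) fun b : Fin m => x (g b)) (L : ℕ)
    (hL : ∀ π, Irreducible π → ¬ π ∣ vars' (FF k σ) r → ∀ e : Fin m → ℕ,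
      ((∀ b, π ^ e b ∣ x (g b)) ∨
        ∃ b0, (∀ b, b ≠ b0 → π ^ e b ∣ x (g b)) ∧ ∀ i ∈ U, π ^ e b0 ∣ x i) →
        ∀ τ : Equiv.Perm (Fin m), ∑ b, e b ≤ ∑ a, (e (τ a) - (a : ℕ)) + L) :
    Sm σ fun t =>
      logHeight (fun i => if i ∈ U ∪ Finset.univ.image g then rep (ev u (x i)) t else 0) -
      logHeight (fun i => if i ∈ U then rep (ev u (x i)) t else 0) -
      L * (hs S (ev u R) t + hs S τ t) := by
  classical
  obtain ⟨z, hz⟩ : ∃ z : U → MvPolynomial (Fin r) (FF k σ), z = fun i : U => x (i : Fin n) :=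
    ⟨_, rfl⟩
  obtain ⟨y, hy⟩ : ∃ y : Fin m → MvPolynomial (Fin r) (FF k σ), y = fun b => x (g b) := ⟨_, rfl⟩
  have hzi : ∀ i : U, z i = x i := fun i => by rw [hz]
  have hyb : ∀ b, y b = x (g b) := fun b => by rw [hy]
  have hy0 : ∀ b, y b ≠ 0 := fun b => by rw [hyb]; exact hx0 _
  have hz0 : ∀ i, z i ≠ 0 := fun b => by rw [hzi]; exact hx0 _
  obtain ⟨d, z', hd0, hdz, hdmax, hcz⟩ := tuple_gcd z ⟨⟨i1, hi1⟩, hz0 _⟩
  obtain ⟨p, x', hp0, hpx, -, hcx⟩ := tuple_gcd (Sum.elim z y) ⟨Sum.inl ⟨i1, hi1⟩, hz0 _⟩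
  obtain ⟨Q, hQ⟩ := hdmax p fun i => ⟨_, hpx (Sum.inl i)⟩
  have hQ0 : Q ≠ 0 := by
    rintro rfl
    exact hd0 (by rw [hQ, mul_zero])
  rw [hQ] at hdz
  have hcop : ∀ π, Irreducible π → π ∣ Q → ∃ b, ¬ π ∣ x' (Sum.inr b) := by
    intro π hπ hπQ
    by_contra hcon
    push Not at hcon
    refine hcx π hπ ?_
    rintro (i | b)
    · have h2 : p * x' (Sum.inl i) = p * (Q * z' i) := by
        rw [← hpx (Sum.inl i), ← mul_assoc, ← hdz i]
        rfl
      rw [mul_left_cancel₀ hp0 h2]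
      exact dvd_mul_of_dvd_left hπQ _
    · exact hcon b
  obtain ⟨W, hW0, hWd, hWv⟩ := step_wr hu hS z y (fun b => κ (g b)) hκ (fun i => -κ i) (by
      rw [Finset.sum_congr rfl fun b _ => by rw [hyb b], eq_neg_of_add_eq_zero_left hsum,
        ← Finset.sum_neg_distrib, ← Finset.sum_coe_sort U]
      refine Finset.sum_congr rfl fun i _ => ?_
      rw [hzi, neg_smul]) (by rw [hy]; exact hind) hy0 p Q (fun b => x' (Sum.inr b)) hp0 hQ0
    (fun i => ⟨_, hdz i⟩) (fun b => hpx (Sum.inr b)) hcop L (by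
      intro π hπ hπv e he
      refine hL π hπ hπv e ?_
      rcases he with he | ⟨b0, he, he'⟩
      · refine Or.inl fun b => ?_
        rw [← hyb]
        exact he b
      · refine Or.inr ⟨b0, fun b hb => ?_, fun i hi => ?_⟩
        · rw [← hyb]
          exact he b hb
        · rw [← hzi ⟨i, hi⟩]
          exact he' ⟨i, hi⟩)
  have hP0 : Q * ∏ b, y b ≠ 0 :=
    mul_ne_zero hQ0 (Finset.prod_ne_zero_iff.2 fun b _ => hy0 b)
  have hh := step_height hu hS z y ⟨i1, hi1⟩ (hz0 _) hy0 p Q hp0 hQ0 z' hdz hcz x' hpx W hW0 hWv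
  have hc := circ_count hu hS (Q * ∏ b, y b) W R hP0 hW0 hR L hWd τ hτ
    (Sum.elim (Sum.elim (fun _ : Unit => p) (Sum.elim (fun _ : Unit => z' ⟨i1, hi1⟩) x)) Y)
    M (2 + n + q) hM (by
      have e1 : ∀ᶠ t in (σ.𝒰 : Filter ℕ), rep (ev u (x i1)) t =
          rep (ev u Q) t * (rep (ev u p) t * rep (ev u (z' ⟨i1, hi1⟩)) t) := by
        have h2 : x i1 = Q * (p * z' ⟨i1, hi1⟩) := by
          rw [← hzi ⟨i1, hi1⟩, hdz]
          ring
        filter_upwards [rep_mul (ev u Q) (ev u (p * z' ⟨i1, hi1⟩)),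
          rep_mul (ev u p) (ev u (z' ⟨i1, hi1⟩))] with t t1 t2
        rw [h2, map_mul, t1, map_mul, t2]
      have e2 : ∀ᶠ t in (σ.𝒰 : Filter ℕ), rep (ev u (Q * ∏ b, y b)) t =
          rep (ev u Q) t * ∏ b, rep (ev u (x (g b))) t := by
        filter_upwards [rep_mul (ev u Q) (ev u (∏ b, y b)),
          rep_prod Finset.univ fun b => ev u (y b)] with t t1 t2
        rw [map_mul, t1, map_prod (ev u), t2]
        congr 1
        exact Finset.prod_congr rfl fun b _ => by rw [hyb]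
      filter_upwards [h1, e1, e2] with t t1 t2 t3 v hv
      obtain ⟨t1a, t1b⟩ := t1 v hv
      refine ⟨t1a, t1b.trans ?_⟩
      rw [t3, map_mul, map_prod]
      obtain ⟨f, hf⟩ : ∃ f, f = fun i => rep (ev u (Sum.elim (Sum.elim (fun _ : Unit => p)
          (Sum.elim (fun _ : Unit => z' ⟨i1, hi1⟩) x)) Y i)) t := ⟨_, rfl⟩
      rw [← hf]
      obtain ⟨Bv, hBv⟩ : ∃ Bv, Bv = nm (fv v) (c1 f) := ⟨_, rfl⟩
      rw [← hBv]
      have hB1 : 1 ≤ Bv := by
        rw [hBv]
        exact one_le_nm _ _ none rfl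
      have hB0 : 0 ≤ Bv := zero_le_one.trans hB1
      have hBf : ∀ i, fv v (f i) ≤ Bv := by
        intro i
        rw [hBv]
        exact le_nm (fv v) (c1 f) (some i)
      have hp : fv v (rep (ev u p) t) ≤ Bv := by
        have h2 := hBf (Sum.inl (Sum.inl ()))
        rw [hf] at h2
        exact h2
      have hz1 : fv v (rep (ev u (z' ⟨i1, hi1⟩)) t) ≤ Bv := by
        have h2 := hBf (Sum.inl (Sum.inr (Sum.inl ())))
        rw [hf] at h2
        exact h2
      have hx : ∀ i, fv v (rep (ev u (x i)) t) ≤ Bv := by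
        intro i
        have h2 := hBf (Sum.inl (Sum.inr (Sum.inr i)))
        rw [hf] at h2
        exact h2
      have hY : nm (fv v) (c1 fun i => rep (ev u (Y i)) t) ≤ Bv := by
        refine nm_le _ hB0 fun o => ?_
        rcases o with _ | i
        · show fv v 1 ≤ _
          rw [map_one]
          exact hB1
        · have h2 := hBf (Sum.inr i)
          rw [hf] at h2
          exact h2
      have hi1g : i1 ∈ (Finset.univ.image g)ᶜ := by
        rw [Finset.mem_compl, Finset.mem_image]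
        rintro ⟨b, -, hb⟩
        exact hgU b (by rw [hb]; exact hi1)
      have hprod : ∏ i, fv v (rep (ev u (x i)) t) ≤
          (fv v (rep (ev u Q) t) * ∏ b, fv v (rep (ev u (x (g b))) t)) * Bv ^ (2 + n) := by
        rw [← Finset.prod_mul_prod_compl (Finset.univ.image g),
          Finset.prod_image fun a _ b _ h => hg h, ← Finset.mul_prod_erase _ _ hi1g, t2,
          map_mul, map_mul]
        have h3 : ∏ i ∈ ((Finset.univ.image g)ᶜ).erase i1, fv v (rep (ev u (x i)) t) ≤
            Bv ^ n := by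
          refine (Finset.prod_le_prod (fun i _ => (fv v).nonneg _) fun i _ => hx i).trans ?_
          rw [Finset.prod_const]
          refine pow_le_pow_right₀ hB1 ?_
          exact (Finset.card_le_univ _).trans (le_of_eq (Fintype.card_fin n))
        exact real_aux _ _ _ _ _ Bv (Finset.prod_nonneg fun b _ => (fv v).nonneg _)
          ((fv v).nonneg _) ((fv v).nonneg _) ((fv v).nonneg _)
          (Finset.prod_nonneg fun b _ => (fv v).nonneg _) hp hz1 n h3
      rw [pow_add, ← mul_assoc]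
      exact mul_le_mul hprod (pow_le_pow_left₀ (nm_nonneg _ _) hY q)
        (pow_nonneg (nm_nonneg _ _) _) (mul_nonneg (mul_nonneg ((fv v).nonneg _)
          (Finset.prod_nonneg fun b _ => (fv v).nonneg _)) (pow_nonneg hB0 _)))
  refine (hh.add hc).mono ?_
  filter_upwards [rep_ne _ (ev_ne hu hS _ (hx0 i1))] with t t1
  have h2 : logHeight (fun i => if i ∈ U ∪ Finset.univ.image g then rep (ev u (x i)) t else 0) ≤
      logHeight (fun i => rep (ev u (Sum.elim z y i)) t) := by
    refine height_mono S hS _ (ne_of_coord (i := i1) (by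
      rw [if_pos (Finset.mem_union_left _ hi1)]
      exact t1)) _ (ne_of_coord (i := Sum.inl ⟨i1, hi1⟩) (by
      rw [Sum.elim_inl, hzi]
      exact t1)) fun i => ?_
    by_cases hi : i ∈ U
    · refine Or.inr ⟨Sum.inl ⟨i, hi⟩, ?_⟩
      rw [if_pos (Finset.mem_union_left _ hi), Sum.elim_inl, hzi]
    · by_cases hi' : i ∈ Finset.univ.image g
      · obtain ⟨b, -, hb⟩ := Finset.mem_image.1 hi'
        refine Or.inr ⟨Sum.inr b, ?_⟩
        rw [if_pos (Finset.mem_union_right _ hi'), Sum.elim_inr, hyb, hb]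
      · left
        rw [if_neg]
        rw [Finset.mem_union]
        tauto
  have h3 : logHeight (fun i => rep (ev u (z i)) t) ≤
      logHeight (fun i => if i ∈ U then rep (ev u (x i)) t else 0) := by
    refine height_mono S hS _ (ne_of_coord (i := ⟨i1, hi1⟩) (by
      rw [hzi]
      exact t1)) _ (ne_of_coord (i := i1) (by
      rw [if_pos hi1]
      exact t1)) fun i => Or.inr ⟨i, ?_⟩
    rw [if_pos i.2, hzi]
  linarith

/-- the height of a vanishing sum without vanishing subsums -/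
theorem chain_step (hS : ∀ w : InfinitePlace k, Sum.inl w ∈ S) {n : ℕ} (hn : 0 < n)
    (x : Fin n → MvPolynomial (Fin r) (FF k σ)) (hx0 : ∀ i, x i ≠ 0) (hsum : ∑ i, x i = 0)
    (hns : ∀ U : Finset (Fin n), U.Nonempty → U ≠ Finset.univ → ∑ i ∈ U, x i ≠ 0)
    (R : MvPolynomial (Fin r) (FF k σ)) (hR : R ≠ 0) (τ : G k σ) (hτ : τ ≠ 0)
    {ν : Type} [Fintype ν] (Y : ν → MvPolynomial (Fin r) (FF k σ)) (M q : ℕ) (hM : M ≠ 0)
    (h1 : ∀ᶠ t in (σ.𝒰 : Filter ℕ), ∀ v : HeightOneSpectrum (𝓞 k), Sum.inr v ∉ S →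
      fv v (rep τ t) ≤ 1 ∧ fv v (rep (ev u R) t) ^ M * fv v (rep τ t) ≤
        (∏ i, fv v (rep (ev u (x i)) t)) * nm (fv v) (c1 fun i => rep (ev u (Y i)) t) ^ q) :
    Sm σ fun t => logHeight (fun i => rep (ev u (x i)) t) -
      ((n - 1) * (n - 2) / 2 : ℕ) * (hs S (ev u R) t + hs S τ t) := by
  classical
  have hB : Sm σ fun t => -(hs S (ev u R) t + hs S τ t) := by
    refine (hs_ev hu hS R hR).mono ?_
    filter_upwards [hs_nonneg hS τ hτ (h1.mono fun t ht v hv => (ht v hv).1)] with t t1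
    linarith
  have key : ∀ j : ℕ, j + 1 ≤ n → ∃ U : Finset (Fin n), j + 1 ≤ U.card ∧ U.Nonempty ∧
      Sm σ fun t => logHeight (fun i => if i ∈ U then rep (ev u (x i)) t else 0) -
        ((U.card - 1) * (U.card - 1 - 1) / 2 : ℕ) * (hs S (ev u R) t + hs S τ t) := by
    intro j
    induction j with
    | zero =>
      intro _
      refine ⟨{⟨0, hn⟩}, by rw [Finset.card_singleton], Finset.singleton_nonempty _, ?_⟩
      refine (Sm.const 0).mono ?_
      filter_upwards [rep_ne _ (ev_ne hu hS _ (hx0 ⟨0, hn⟩))] with t t1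
      have h3 : logHeight (fun i => if i ∈ ({⟨0, hn⟩} : Finset (Fin n)) then
          rep (ev u (x i)) t else 0) ≤ logHeight (fun _ : Unit => rep (ev u (x ⟨0, hn⟩)) t) := by
        refine height_mono S hS _ (ne_of_coord (i := ⟨0, hn⟩) (by
          rw [if_pos (Finset.mem_singleton_self _)]
          exact t1)) _ (ne_of_coord (i := ()) t1) fun i => ?_
        by_cases hi : i = ⟨0, hn⟩
        · refine Or.inr ⟨(), ?_⟩
          rw [if_pos (Finset.mem_singleton.2 hi), hi]
        · left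
          rw [if_neg (fun h => hi (Finset.mem_singleton.1 h))]
      have h4 : logHeight (fun _ : Unit => rep (ev u (x ⟨0, hn⟩)) t) = 0 := by
        rw [logHeight_eq_log_mulHeight, mulHeight_eq_one_of_subsingleton, Real.log_one]
      rw [h4] at h3
      rw [Finset.card_singleton]
      simp only [Nat.sub_self, Nat.zero_mul, Nat.zero_div, Nat.cast_zero, zero_mul, sub_zero]
      exact h3
    | succ j ih =>
      intro hj
      obtain ⟨U, hUc, hUn, hU⟩ := ih (by omega)
      by_cases hcard : j + 1 + 1 ≤ U.card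
      · exact ⟨U, hcard, hUn, hU⟩
      have hUuniv : U ≠ Finset.univ := by
        rintro rfl
        rw [Finset.card_fin] at hcard
        exact hcard hj
      obtain ⟨κ, hκ1, hκ2, hκ3⟩ := exists_circuit (F := FF k σ) x U
        ⟨fun _ => 1, by simpa using hsum, by simpa using hns U hUn hUuniv⟩
      obtain ⟨m, g, hg, hgU, hκg, hm, hrel, hind⟩ := circuit_part x U κ hκ1 hκ2 hκ3
      obtain ⟨i1, hi1⟩ := hUn
      have hst := step_main hu hS x hx0 R hR τ hτ Y M q hM h1 U i1 hi1 g hg hgU κ hκg hrel hind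
        (m * (m - 1) / 2) fun π _ _ e _ τ => loss_gen e τ
      have hcU : (U ∪ Finset.univ.image g).card = U.card + m := by
        rw [Finset.card_union_of_disjoint, Finset.card_image_of_injective _ hg, Finset.card_fin]
        rw [Finset.disjoint_right]
        intro i hi
        obtain ⟨b, -, rfl⟩ := Finset.mem_image.1 hi
        exact hgU b
      refine ⟨U ∪ Finset.univ.image g, by omega, ⟨i1, Finset.mem_union_left _ hi1⟩, ?_⟩
      have h2 := tri_add (U.card - 1) m
      have h3 : U.card - 1 + m = (U ∪ Finset.univ.image g).card - 1 := by omega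
      rw [h3] at h2
      obtain ⟨A, hA⟩ : ∃ A, A = (U.card - 1) * (U.card - 1 - 1) / 2 := ⟨_, rfl⟩
      obtain ⟨A', hA'⟩ : ∃ A', A' = m * (m - 1) / 2 := ⟨_, rfl⟩
      obtain ⟨C, hC⟩ : ∃ C, C = ((U ∪ Finset.univ.image g).card - 1) *
        ((U ∪ Finset.univ.image g).card - 1 - 1) / 2 := ⟨_, rfl⟩
      rw [← hA, ← hA', ← hC] at h2
      rw [← hA] at hU
      rw [← hA'] at hst
      rw [← hC]
      have h4 : (0 : ℝ) ≤ (C : ℝ) - (A + A') := by
        rw [sub_nonneg]
        exact_mod_cast h2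
      refine ((hU.add hst).add (hB.smul h4)).mono (Eventually.of_forall fun t => ?_)
      apply le_of_eq
      ring
  obtain ⟨U, hUc, -, hU⟩ := key (n - 1) (by omega)
  have hUuniv : U = Finset.univ := by
    apply Finset.eq_univ_of_card
    rw [Fintype.card_fin]
    have h1 := Finset.card_le_univ U
    rw [Fintype.card_fin] at h1
    omega
  subst hUuniv
  refine hU.mono (Eventually.of_forall fun t => ?_)
  simp only [Finset.mem_univ, if_true, Finset.card_fin, Nat.sub_sub]
  exact le_rfl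

end

end Pool.Agent.Run7.h720
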