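import Pool.Agent.Run7.h720.NWr

/-!
The height of minimal linear relations between values of polynomials at independent germs of units.
-/

set_option autoImplicit false
set_option linter.unusedSectionVars false

namespace Pool.Agent.Run7.h720

open NumberField IsDedekindDomain Height Filter Topology
open Pool.Agent.W180.OP (Pl av wt fv fv_support_finite wt_nonneg nrm)
open Pool.Agent.K1H83.VN
open MvPolynomial (monomial)

section alg

/-- divisibility by a product of a power of `v`, of `W` and of a power of `Q` -/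
theorem dvd_of_primes {R : Type} [CommRing R] [IsDomain R] [UniqueFactorizationMonoid R]
    (P W Q v : R) (hP : P ≠ 0) (L : ℕ) (hQ : ∀ π, Irreducible π → π ∣ P → π ∣ Q)
    (hdiv : ∀ π, Irreducible π → ¬ π ∣ v → ∀ n : ℕ, π ^ (n + L) ∣ P → π ^ n ∣ W) :
    ∃ M : ℕ, P ∣ v ^ M * (W * Q ^ L) := by
  classical
  let _ : StrongNormalizationMonoid R := UniqueFactorizationMonoid.strongNormalizationMonoid
  let _ : NormalizationMonoid R := inferInstance
  refine ⟨Multiset.card (UniqueFactorizationMonoid.normalizedFactors P), ?_⟩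
  rw [UniqueFactorizationMonoid.dvd_iff_emultiplicity_le hP]
  intro p hp
  have hfin : FiniteMultiplicity p P := FiniteMultiplicity.of_not_isUnit hp.not_isUnit hP
  rw [hfin.emultiplicity_eq_multiplicity]
  refine le_emultiplicity_of_pow_dvd ?_
  obtain ⟨e, he⟩ : ∃ e, e = multiplicity p P := ⟨_, rfl⟩
  rw [← he]
  have hpe : p ^ e ∣ P := by
    rw [he]
    exact pow_multiplicity_dvd p P
  by_cases hpv : p ∣ v
  · refine dvd_mul_of_dvd_left ?_ _
    have h1 : e ≤ Multiset.card (UniqueFactorizationMonoid.normalizedFactors P) := by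
      have h2 := Multiset.card_le_card
        ((UniqueFactorizationMonoid.dvd_iff_normalizedFactors_le_normalizedFactors
          (pow_ne_zero e hp.ne_zero) hP).1 hpe)
      rwa [UniqueFactorizationMonoid.normalizedFactors_pow,
        UniqueFactorizationMonoid.normalizedFactors_irreducible hp.irreducible,
        Multiset.card_nsmul, Multiset.card_singleton, mul_one] at h2
    exact (pow_dvd_pow p h1).trans (pow_dvd_pow_of_dvd hpv _)
  · refine dvd_mul_of_dvd_right ?_ _
    rcases Nat.eq_zero_or_pos e with h0 | h0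
    · rw [h0, pow_zero]
      exact one_dvd _
    have hpQ : p ∣ Q := hQ p hp.irreducible ((dvd_pow_self p h0.ne').trans hpe)
    by_cases hL : e ≤ L
    · exact dvd_mul_of_dvd_right ((pow_dvd_pow p hL).trans (pow_dvd_pow_of_dvd hpQ L)) _
    · push Not at hL
      obtain ⟨c, rfl⟩ := Nat.exists_eq_add_of_le hL.le
      rw [add_comm, pow_add]
      refine mul_dvd_mul (hdiv p hp.irreducible hpv c ?_) (pow_dvd_pow_of_dvd hpQ L)
      rwa [add_comm]

end alg

variable {k : Type} [Field k] [NumberField k] {σ : Sc} {S : Finset (Pl k)} {r : ℕ}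

section
variable {u : Fin r → G k σ} (hu : Indep S u)
include hu

/-- the Wronskian of a minimal relation -/
theorem circ_wr (hS : ∀ w : InfinitePlace k, Sum.inl w ∈ S) {m : ℕ}
    (y : Fin (m + 1) → MvPolynomial (Fin r) (FF k σ)) (κ : Fin (m + 1) → FF k σ)
    (hκ : ∀ i, κ i ≠ 0) (hsum : ∑ i, κ i • y i = 0)
    (hind : LinearIndependent (FF k σ) fun b : Fin m => y b.succ) (hy0 : ∀ i, y i ≠ 0)
    (hcop : ∀ π, Irreducible π → ¬ ∀ i, π ∣ y i) (L : ℕ)
    (hL : ∀ π, Irreducible π → ¬ π ∣ vars' (FF k σ) r → ∀ (i0 : Fin (m + 1)) (e : Fin m → ℕ),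
      (∀ b, π ^ e b ∣ y (i0.succAbove b)) →
        ∀ τ : Equiv.Perm (Fin m), ∑ b, e b ≤ ∑ a, (e (τ a) - (a : ℕ)) + L) :
    ∃ W, W ≠ 0 ∧
      (∀ π, Irreducible π → ¬ π ∣ vars' (FF k σ) r → ∀ n : ℕ, π ^ (n + L) ∣ ∏ i, y i → π ^ n ∣ W) ∧
      ∀ v ∈ S, ∀ i0 : Fin (m + 1), (OO σ (av v)).valuation (ev u W) ≤
        ∏ b, (OO σ (av v)).valuation (ev u (y (i0.succAbove b))) := by
  classical
  obtain ⟨l, hl⟩ := wr_ne (fun b : Fin m => y b.succ) hind
  obtain ⟨D, hD⟩ : ∃ D, D = wder (FF k σ) l := ⟨_, rfl⟩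
  rw [← hD] at hl
  obtain ⟨N, hN⟩ : ∃ N : Matrix (Fin m) (Fin (m + 1)) (MvPolynomial (Fin r) (FF k σ)),
      N = Matrix.of fun (a : Fin m) (b : Fin (m + 1)) => D^[(a : ℕ)] (y b) := ⟨_, rfl⟩
  have hW : ∀ i : Fin (m + 1), (N.submatrix id i.succAbove).det =
      (Matrix.of fun b a : Fin m => D^[(a : ℕ)] (y (i.succAbove b))).det := by
    intro i
    rw [← Matrix.det_transpose, hN]
    rfl
  have hW0 : (N.submatrix id (0 : Fin (m + 1)).succAbove).det ≠ 0 := by
    rw [hW]
    simpa only [Fin.succAbove_zero] using hl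
  have hiter : ∀ a : ℕ, ∑ b, κ b • D^[a] (y b) = 0 := by
    intro a
    induction a with
    | zero => exact hsum
    | succ a ih =>
      have h1 := congrArg D ih
      rw [map_sum, map_zero] at h1
      rw [← h1]
      refine Finset.sum_congr rfl fun b _ => ?_
      rw [Function.iterate_succ_apply', D.map_smul]
  have hker : N.mulVec (fun i => MvPolynomial.C (κ i)) = 0 := by
    funext a
    rw [Pi.zero_apply, ← hiter a, hN]
    show ∑ b, D^[(a : ℕ)] (y b) * MvPolynomial.C (κ b) = _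
    refine Finset.sum_congr rfl fun b _ => ?_
    rw [mul_comm, MvPolynomial.smul_eq_C_mul]
  have hCκ : (fun i => (MvPolynomial.C (κ i) : MvPolynomial (Fin r) (FF k σ))) ≠ 0 := by
    intro h
    have h1 := congrFun h 0
    exact hκ 0 (MvPolynomial.C_eq_zero.1 h1)
  have hrel : ∀ i : Fin (m + 1), ∃ c : FF k σ, (N.submatrix id (0 : Fin (m + 1)).succAbove).det =
      MvPolynomial.C c * (N.submatrix id i.succAbove).det := by
    intro i
    by_cases hi : i = 0
    · exact ⟨1, by rw [hi, map_one, one_mul]⟩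
    · have h1 := minor_rel N _ hCκ hker i 0 hi
      refine ⟨(-1) ^ (i : ℕ) * κ 0 * (κ i)⁻¹, ?_⟩
      have h2 : (MvPolynomial.C (κ i)⁻¹ : MvPolynomial (Fin r) (FF k σ)) *
          MvPolynomial.C (κ i) = 1 := by
        rw [← MvPolynomial.C_mul, inv_mul_cancel₀ (hκ i), MvPolynomial.C_1]
      rw [MvPolynomial.C_mul, MvPolynomial.C_mul, MvPolynomial.C_pow, MvPolynomial.C_neg,
        MvPolynomial.C_1]
      have h3 : ((0 : Fin (m + 1)) : ℕ) = 0 := rfl
      rw [h3, pow_zero, one_mul] at h1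
      linear_combination (-(MvPolynomial.C (κ i)⁻¹)) * h1 -
        (N.submatrix id (0 : Fin (m + 1)).succAbove).det * h2
  refine ⟨_, hW0, ?_, ?_⟩
  · intro π hπ hπv n hn
    have h1 := hcop π hπ
    push Not at h1
    obtain ⟨i0, hi0⟩ := h1
    rw [Fin.prod_univ_succAbove _ i0] at hn
    have h2 := hπ.prime.pow_dvd_of_dvd_mul_left _ hi0 hn
    have hfm : ∀ b, FiniteMultiplicity π (y (i0.succAbove b)) := fun b =>
      FiniteMultiplicity.of_not_isUnit hπ.not_isUnit (hy0 _)
    choose p' hp' hpp' using fun b => (hfm b).exists_eq_pow_mul_and_not_dvd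
    have h3 : ∏ b, y (i0.succAbove b) =
        π ^ (∑ b, multiplicity π (y (i0.succAbove b))) * ∏ b, p' b := by
      rw [← Finset.prod_pow_eq_pow_sum, ← Finset.prod_mul_distrib]
      exact Finset.prod_congr rfl fun b _ => hp' b
    have h4 : ¬ π ∣ ∏ b, p' b := by
      intro h
      obtain ⟨b, -, hb⟩ := (hπ.prime.dvd_finsetProd_iff _).1 h
      exact hpp' b hb
    have h5 : n + L ≤ ∑ b, multiplicity π (y (i0.succAbove b)) := by
      by_contra hlt
      push Not at hlt
      apply h4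
      have h6 : π ^ (∑ b, multiplicity π (y (i0.succAbove b)) + 1) ∣
          π ^ (∑ b, multiplicity π (y (i0.succAbove b))) * ∏ b, p' b := by
        rw [← h3]
        exact (pow_dvd_pow π hlt).trans h2
      rw [pow_succ] at h6
      exact (mul_dvd_mul_iff_left (pow_ne_zero _ hπ.ne_zero)).1 h6
    have h6 := wr_dvd D π (fun b => y (i0.succAbove b))
      (fun b => multiplicity π (y (i0.succAbove b))) (fun b => pow_multiplicity_dvd π _) L n
      (hL π hπ hπv i0 _ fun b => pow_multiplicity_dvd π _) h5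
    obtain ⟨c, hc⟩ := hrel i0
    rw [hc, hW i0]
    exact dvd_mul_of_dvd_right h6 _
  · intro v hv i0
    obtain ⟨c, hc⟩ := hrel i0
    have h1 : (OO σ (av v)).valuation (ev u (MvPolynomial.C c)) ≤ 1 := by
      have h2 : ev u (MvPolynomial.C c) = (c : G k σ) := by
        unfold ev
        rw [MvPolynomial.aeval_C]
        rfl
      rw [h2]
      exact val_FF_le v c.2
    rw [hc, map_mul, map_mul]
    refine (mul_le_of_le_one_left' h1).trans ?_
    rw [hW i0, Matrix.det_apply, map_sum]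
    refine Valuation.map_sum_le _ fun τ _ => ?_
    have h3 : (OO σ (av v)).valuation (ev u (Equiv.Perm.sign τ • ∏ i,
        (Matrix.of fun b a : Fin m => D^[(a : ℕ)] (y (i0.succAbove b))) (τ i) i)) =
        (OO σ (av v)).valuation (ev u (∏ i,
        (Matrix.of fun b a : Fin m => D^[(a : ℕ)] (y (i0.succAbove b))) (τ i) i)) := by
      rcases Int.units_eq_one_or (Equiv.Perm.sign τ) with h | h
      · rw [h, one_smul]
      · rw [h, Units.neg_smul, one_smul, map_neg, Valuation.map_neg]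
    have h4 : ∏ b, (OO σ (av v)).valuation (ev u (y (i0.succAbove b))) =
        ∏ a, (OO σ (av v)).valuation (ev u (y (i0.succAbove (τ a)))) :=
      (Equiv.prod_comp τ fun b => (OO σ (av v)).valuation (ev u (y (i0.succAbove b)))).symm
    rw [h3, map_prod, map_prod, h4]
    refine Finset.prod_le_prod' fun a _ => ?_
    refine val_der_le hu hS v hv (y (i0.succAbove (τ a))) _ ?_
    rw [hD]
    exact iter_support l (y (i0.succAbove (τ a))) (a : ℕ)

/-- the height of a tuple and the Wronskian -/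
theorem circ_height (hS : ∀ w : InfinitePlace k, Sum.inl w ∈ S) {m : ℕ}
    (y : Fin (m + 1) → MvPolynomial (Fin r) (FF k σ)) (hy0 : ∀ i, y i ≠ 0)
    (W : MvPolynomial (Fin r) (FF k σ)) (hW : W ≠ 0)
    (hval : ∀ v ∈ S, ∀ i0 : Fin (m + 1), (OO σ (av v)).valuation (ev u W) ≤
        ∏ b, (OO σ (av v)).valuation (ev u (y (i0.succAbove b)))) :
    Sm σ fun t => logHeight (fun i => rep (ev u (y i)) t) - hs S (ev u (∏ i, y i)) t +
      hs S (ev u W) t := by
  classical
  have hne : ∀ i, ev u (y i) ≠ 0 := fun i => ev_ne hu hS _ (hy0 i)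
  have hloc : ∀ v ∈ S, Sm σ fun t => Real.log (nm (av v) fun i => rep (ev u (y i)) t) +
      lv v (ev u W) t - ∑ i, lv v (ev u (y i)) t := by
    intro v hv
    obtain ⟨i0, hi0⟩ := Finite.exists_max fun i : Fin (m + 1) =>
      (OO σ (av v)).valuation (ev u (y i))
    have h1 := Sm_nm v (fun i => ev u (y i)) i0 (hne i0) (lv v (ev u (y i0)))
      fun i hi => (val_le_iff v hi (hne i0)).1 (hi0 i)
    have hprod : ∏ b, ev u (y (i0.succAbove b)) ≠ 0 := Finset.prod_ne_zero_iff.2 fun b _ => hne _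
    have h2 : (OO σ (av v)).valuation (ev u W) ≤
        (OO σ (av v)).valuation (∏ b, ev u (y (i0.succAbove b))) := by
      rw [map_prod]
      exact hval v hv i0
    rw [val_le_iff v (ev_ne hu hS _ hW) hprod] at h2
    refine (h1.add h2).mono ?_
    filter_upwards [lv_prod v Finset.univ (fun b => ev u (y (i0.succAbove b)))
      fun b _ => hne _] with t t1
    rw [t1, Fin.sum_univ_succAbove _ i0]
    linarith
  have hsum := Sm.sum S fun v hv => (hloc v hv).smul (wt_nonneg v)
  refine (hsum.add (tuple_int hu hS y 0 (hy0 0))).mono ?_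
  filter_upwards [rep_ne _ (hne 0),
    hs_prod (S := S) Finset.univ (fun i => ev u (y i)) (fun i _ => hne i)] with t t1 t2
  rw [← map_prod (ev u)] at t2
  have h3 := logHeight_split S hS (fun i => rep (ev u (y i)) t) (ne_of_coord (i := 0) t1)
  have h4 : ∑ v ∈ S, wt v * (Real.log (nm (av v) fun i => rep (ev u (y i)) t) +
      lv v (ev u W) t - ∑ i, lv v (ev u (y i)) t) =
      ∑ v ∈ S, wt v * Real.log (nm (av v) fun i => rep (ev u (y i)) t) + hs S (ev u W) t -
        ∑ i, hs S (ev u (y i)) t := by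
    unfold hs
    rw [Finset.sum_comm, ← Finset.sum_add_distrib, ← Finset.sum_sub_distrib]
    refine Finset.sum_congr rfl fun v _ => ?_
    rw [← Finset.mul_sum]
    ring
  rw [h4, t2, h3]
  linarith

/-- the part of a value which is not in the Wronskian -/
theorem circ_count (hS : ∀ w : InfinitePlace k, Sum.inl w ∈ S)
    (P W R : MvPolynomial (Fin r) (FF k σ)) (hP : P ≠ 0) (hW : W ≠ 0) (hR : R ≠ 0) (L : ℕ)
    (hdiv : ∀ π, Irreducible π → ¬ π ∣ vars' (FF k σ) r → ∀ n : ℕ, π ^ (n + L) ∣ P → π ^ n ∣ W)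
    (τ : G k σ) (hτ : τ ≠ 0) {ν : Type} [Fintype ν] (Y : ν → MvPolynomial (Fin r) (FF k σ))
    (m q : ℕ) (hm : m ≠ 0)
    (h1 : ∀ᶠ t in (σ.𝒰 : Filter ℕ), ∀ v : HeightOneSpectrum (𝓞 k), Sum.inr v ∉ S →
      fv v (rep τ t) ≤ 1 ∧ fv v (rep (ev u R) t) ^ m * fv v (rep τ t) ≤
        fv v (rep (ev u P) t) * nm (fv v) (c1 fun i => rep (ev u (Y i)) t) ^ q) :
    Sm σ fun t => hs S (ev u P) t - hs S (ev u W) t -
      L * (hs S (ev u R) t + hs S τ t) := by
  classical
  let _ : StrongNormalizationMonoid (MvPolynomial (Fin r) (FF k σ)) :=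
    UniqueFactorizationMonoid.strongNormalizationMonoid
  obtain ⟨Q, hQ⟩ : ∃ Q, Q = UniqueFactorizationMonoid.radical P := ⟨_, rfl⟩
  have hQ0 : Q ≠ 0 := by
    rw [hQ]
    exact UniqueFactorizationMonoid.radical_ne_zero
  have hQP : Q ∣ P := by
    rw [hQ]
    exact UniqueFactorizationMonoid.radical_dvd_self
  have hQπ : ∀ π, Irreducible π → π ∣ P → π ∣ Q := by
    intro π hπ h
    rw [hQ]
    exact (UniqueFactorizationMonoid.dvd_radical_iff_of_irreducible hπ hP).2 h
  have hQsq : Squarefree Q := by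
    rw [hQ]
    exact UniqueFactorizationMonoid.squarefree_radical
  obtain ⟨Q', hQ'⟩ := hQP
  have hQ'0 : Q' ≠ 0 := by
    rintro rfl
    exact hP (by rw [hQ', mul_zero])
  obtain ⟨A, C, hAR, hCQ, hA0, hC0, hs1, hs2⟩ := star2 hu hS Q 1 R hQ0 one_ne_zero hR
    (by
      intro π hπ _ n hn
      rcases Nat.eq_zero_or_pos n with h0 | h0
      · rw [h0, pow_zero]
      · exfalso
        have h2 : π * π ∣ Q := by
          rw [← sq]
          exact (pow_dvd_pow π (by omega)).trans hn
        exact hπ.not_isUnit (hQsq π h2)) τ hτ (fun _ : Unit => (1 : MvPolynomial (Fin r) (FF k σ)))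
    () one_ne_zero (tuple_small hu hS (fun _ : Unit => (1 : MvPolynomial (Fin r) (FF k σ))) ()
      one_ne_zero fun π hπ h => hπ.not_isUnit (isUnit_of_dvd_one (h ())))
    (Sum.elim (fun _ : Unit => Q') Y) m 0 (q + 1) hm (by
      have e1 : ∀ᶠ t in (σ.𝒰 : Filter ℕ), rep (ev u P) t = rep (ev u Q) t * rep (ev u Q') t := by
        rw [hQ', map_mul]
        exact rep_mul _ _
      filter_upwards [h1, e1] with t t1 t2 v hv
      obtain ⟨t1a, t1b⟩ := t1 v hv
      refine ⟨t1a, ?_⟩
      rw [pow_zero, mul_one]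
      refine t1b.trans ?_
      rw [t2, map_mul, mul_assoc, pow_succ']
      refine mul_le_mul_of_nonneg_left ?_ ((fv v).nonneg _)
      have h3 : fv v (rep (ev u Q') t) ≤ nm (fv v)
          (c1 fun i => rep (ev u (Sum.elim (fun _ : Unit => Q') Y i)) t) :=
        le_nm (fv v) (c1 fun i => rep (ev u (Sum.elim (fun _ : Unit => Q') Y i)) t)
          (some (Sum.inl ()))
      have h4 : nm (fv v) (c1 fun i => rep (ev u (Y i)) t) ≤ nm (fv v)
          (c1 fun i => rep (ev u (Sum.elim (fun _ : Unit => Q') Y i)) t) := by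
        refine nm_le _ (nm_nonneg _ _) fun o => ?_
        rcases o with _ | i
        · exact le_nm (fv v) (c1 fun i => rep (ev u (Sum.elim (fun _ : Unit => Q') Y i)) t) none
        · exact le_nm (fv v) (c1 fun i => rep (ev u (Sum.elim (fun _ : Unit => Q') Y i)) t)
            (some (Sum.inr i))
      exact mul_le_mul h3 (pow_le_pow_left₀ (nm_nonneg _ _) h4 q)
        (pow_nonneg (nm_nonneg _ _) _) (nm_nonneg _ _))
  obtain ⟨M, hM⟩ := dvd_of_primes P W Q (vars' (FF k σ) r) hP L hQπ hdiv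
  have hv0 : vars' (FF k σ) r ^ M ≠ 0 := by
    refine pow_ne_zero _ ?_
    unfold vars'
    rw [Finset.prod_ne_zero_iff]
    exact fun i _ => MvPolynomial.X_ne_zero i
  have h2 := hs_dvd hu hS _ _ hM (mul_ne_zero hv0 (mul_ne_zero hW (pow_ne_zero L hQ0)))
  have h3 := hs_dvd hu hS A R hAR hR
  refine (h2.add (((hs1.add hs2).add h3).smul (Nat.cast_nonneg L))).mono ?_
  filter_upwards [hs_mul (S := S) (ev u (vars' (FF k σ) r ^ M)) (ev u (W * Q ^ L))
      (ev_ne hu hS _ hv0) (ev_ne hu hS _ (mul_ne_zero hW (pow_ne_zero L hQ0))),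
    hs_mul (S := S) (ev u W) (ev u (Q ^ L)) (ev_ne hu hS _ hW)
      (ev_ne hu hS _ (pow_ne_zero L hQ0)),
    hs_pow (S := S) (ev u Q) (ev_ne hu hS _ hQ0) L,
    hs_SU hS (ev u (vars' (FF k σ) r) ^ M) ((ev_vars hu).pow M),
    rep_one (k := k) (σ := σ)] with t t1 t2 t3 t4 t5
  have t6 : hs S (ev u 1) t = 0 := by
    unfold hs lv
    rw [map_one, t5]
    simp
  rw [← map_mul, map_pow, t4, zero_add] at t1
  rw [← map_mul, map_pow, t3] at t2
  rw [t1, t2, t6]
  apply le_of_eq
  ring

end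

end Pool.Agent.Run7.h720
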