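import Mathlib

/-!
Minimal linear relations.
-/

set_option autoImplicit false

namespace Pool.Agent.Run7.h720

section
variable {F V : Type} [Field F] [AddCommGroup V] [Module F V] {n : ℕ}

/-- a relation with a nonvanishing part over `U` and minimal support -/
theorem exists_circuit (x : Fin n → V) (U : Finset (Fin n))
    (hne : ∃ κ : Fin n → F, ∑ i, κ i • x i = 0 ∧ ∑ i ∈ U, κ i • x i ≠ 0) :
    ∃ κ : Fin n → F, ∑ i, κ i • x i = 0 ∧ ∑ i ∈ U, κ i • x i ≠ 0 ∧
      ∀ μ : Fin n → F, ∑ i, μ i • x i = 0 → (∀ i, κ i = 0 → μ i = 0) →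
        (∃ i, κ i ≠ 0 ∧ μ i = 0) → μ = 0 := by
  classical
  have hex : ∃ N : ℕ, ∃ κ : Fin n → F, ∑ i, κ i • x i = 0 ∧ ∑ i ∈ U, κ i • x i ≠ 0 ∧
      (Finset.univ.filter fun i => κ i ≠ 0).card = N := by
    obtain ⟨κ, h1, h2⟩ := hne
    exact ⟨_, κ, h1, h2, rfl⟩
  obtain ⟨κ, h1, h2, h3⟩ := Nat.find_spec hex
  have hlt : ∀ μ : Fin n → F, ∑ i, μ i • x i = 0 → (∀ i, κ i = 0 → μ i = 0) →
      (∃ i, κ i ≠ 0 ∧ μ i = 0) → ∑ i ∈ U, μ i • x i = 0 := by
    intro μ hμ hsub ⟨i1, hi1, hμ1⟩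
    by_contra hcon
    have h4 : (Finset.univ.filter fun i => μ i ≠ 0).card < Nat.find hex := by
      rw [← h3]
      refine Finset.card_lt_card ⟨fun i hi => ?_, fun h => ?_⟩
      · rw [Finset.mem_filter] at hi ⊢
        exact ⟨hi.1, fun h0 => hi.2 (hsub i h0)⟩
      · have h5 := h (Finset.mem_filter.2 ⟨Finset.mem_univ i1, hi1⟩)
        exact (Finset.mem_filter.1 h5).2 hμ1
    exact Nat.find_min hex h4 ⟨μ, hμ, hcon, rfl⟩
  refine ⟨κ, h1, h2, ?_⟩
  intro μ hμ hsub hex1
  by_contra hμ0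
  have h5 := hlt μ hμ hsub hex1
  obtain ⟨i1, hi1⟩ := Function.ne_iff.1 hμ0
  rw [Pi.zero_apply] at hi1
  have hκ1 : κ i1 ≠ 0 := fun h => hi1 (hsub i1 h)
  obtain ⟨κ', hκ'⟩ : ∃ κ' : Fin n → F, κ' = fun i => κ i - κ i1 / μ i1 * μ i := ⟨_, rfl⟩
  have hsplit : ∀ T : Finset (Fin n), ∑ i ∈ T, κ' i • x i =
      ∑ i ∈ T, κ i • x i - (κ i1 / μ i1) • ∑ i ∈ T, μ i • x i := by
    intro T
    rw [Finset.smul_sum, ← Finset.sum_sub_distrib]
    refine Finset.sum_congr rfl fun i _ => ?_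
    rw [hκ', sub_smul, mul_smul]
  have h6 := hlt κ' (by rw [hsplit, h1, hμ, smul_zero, sub_zero]) (by
    intro i hi
    rw [hκ']
    show κ i - κ i1 / μ i1 * μ i = 0
    rw [hi, hsub i hi, mul_zero, sub_zero]) ⟨i1, hκ1, by
      rw [hκ']
      show κ i1 - κ i1 / μ i1 * μ i1 = 0
      rw [div_mul_cancel₀ _ hi1, sub_self]⟩
  rw [hsplit, h5, smul_zero, sub_zero] at h6
  exact h2 h6

/-- enumeration of a minimal relation -/
theorem circuit_enum (x : Fin n → V) (κ : Fin n → F) (hrel : ∑ i, κ i • x i = 0)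
    (hne : ∃ i, κ i ≠ 0)
    (hmin : ∀ μ : Fin n → F, ∑ i, μ i • x i = 0 → (∀ i, κ i = 0 → μ i = 0) →
        (∃ i, κ i ≠ 0 ∧ μ i = 0) → μ = 0) :
    ∃ (m : ℕ) (g : Fin (m + 1) → Fin n), Function.Injective g ∧
      (∀ i, κ i ≠ 0 ↔ ∃ b, g b = i) ∧ ∑ b, κ (g b) • x (g b) = 0 ∧
      LinearIndependent F fun b : Fin m => x (g b.succ) := by
  classical
  obtain ⟨I, hI⟩ : ∃ I : Finset (Fin n), I = Finset.univ.filter fun i => κ i ≠ 0 := ⟨_, rfl⟩
  have hmem : ∀ i, i ∈ I ↔ κ i ≠ 0 := fun i => by rw [hI]; simp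
  obtain ⟨i0, hi0⟩ := hne
  have hc : I.card ≠ 0 := by
    rw [Finset.card_ne_zero]
    exact ⟨i0, (hmem i0).2 hi0⟩
  obtain ⟨m, hm⟩ := Nat.exists_eq_succ_of_ne_zero hc
  obtain ⟨g, hg⟩ : ∃ g : Fin (m + 1) ↪o Fin n, g = I.orderEmbOfFin hm := ⟨_, rfl⟩
  have hran : ∀ i, κ i ≠ 0 ↔ ∃ b, g b = i := by
    intro i
    rw [← hmem, hg, ← Set.mem_range, Finset.range_orderEmbOfFin]
    rfl
  have hinj : Function.Injective g := g.injective
  refine ⟨m, g, hinj, hran, ?_, ?_⟩
  · rw [← hrel]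
    have h1 : ∑ i, κ i • x i = ∑ i ∈ Finset.univ.image g, κ i • x i := by
      symm
      refine Finset.sum_subset (Finset.subset_univ _) fun i _ hi => ?_
      have h2 : κ i = 0 := by
        by_contra h
        obtain ⟨b, hb⟩ := (hran i).1 h
        exact hi (Finset.mem_image.2 ⟨b, Finset.mem_univ _, hb⟩)
      rw [h2, zero_smul]
    rw [h1, Finset.sum_image fun a _ b _ h => hinj h]
  · rw [Fintype.linearIndependent_iff]
    intro c hcs
    obtain ⟨μ, hμ⟩ : ∃ μ : Fin n → F, μ = fun i => ∑ b : Fin m, if g b.succ = i then c b else 0 :=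
      ⟨_, rfl⟩
    have hμb : ∀ b : Fin m, μ (g b.succ) = c b := by
      intro b
      rw [hμ]
      show ∑ b' : Fin m, (if g b'.succ = g b.succ then c b' else 0) = c b
      rw [Finset.sum_eq_single b, if_pos rfl]
      · intro b' _ hb'
        rw [if_neg]
        intro h
        exact hb' (Fin.succ_injective _ (hinj h))
      · intro h
        exact absurd (Finset.mem_univ _) h
    have h1 : ∑ i, μ i • x i = 0 := by
      rw [← hcs, hμ]
      simp only [Finset.sum_smul]
      rw [Finset.sum_comm]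
      refine Finset.sum_congr rfl fun b _ => ?_
      rw [Finset.sum_eq_single (g b.succ)]
      · rw [if_pos rfl]
      · intro i _ hi
        rw [if_neg fun h => hi h.symm, zero_smul]
      · intro h
        exact absurd (Finset.mem_univ _) h
    have h0 := hmin μ h1 (by
      intro i hi
      rw [hμ]
      refine Finset.sum_eq_zero fun b _ => ?_
      rw [if_neg]
      intro h
      exact (hran i).2 ⟨b.succ, h⟩ hi) ⟨g 0, (hran _).2 ⟨0, rfl⟩, by
        rw [hμ]
        refine Finset.sum_eq_zero fun b _ => ?_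
        rw [if_neg]
        intro h
        exact Fin.succ_ne_zero b (hinj h)⟩
    intro b
    rw [← hμb b, h0]
    rfl

/-- the rank of some of the vectors -/
noncomputable def rk (F : Type) {V : Type} [Field F] [AddCommGroup V] [Module F V] {n : ℕ}
    (x : Fin n → V) (U : Finset (Fin n)) : ℕ :=
  Module.finrank F (Submodule.span F (x '' (U : Set (Fin n))))

theorem rk_fd (x : Fin n → V) (U : Finset (Fin n)) :
    FiniteDimensional F (Submodule.span F (x '' (U : Set (Fin n)))) :=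
  FiniteDimensional.span_of_finite F (U.finite_toSet.image x)

theorem rk_le_card (x : Fin n → V) (U : Finset (Fin n)) : rk F x U ≤ U.card := by
  classical
  unfold rk
  have h1 := finrank_span_finset_le_card (R := F) (U.image x)
  rw [Set.finrank, Finset.coe_image] at h1
  exact h1.trans Finset.card_image_le

theorem rk_mono (x : Fin n → V) (U U' : Finset (Fin n)) (h : U ⊆ U') :
    rk F x U ≤ rk F x U' := by
  have := rk_fd (F := F) x U'
  exact Submodule.finrank_mono (Submodule.span_mono (Set.image_mono (by exact_mod_cast h)))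

theorem rk_union (x : Fin n → V) (U U' : Finset (Fin n)) :
    rk F x (U ∪ U') ≤ rk F x U + rk F x U' := by
  classical
  have := rk_fd (F := F) x U
  have := rk_fd (F := F) x U'
  unfold rk
  rw [Finset.coe_union, Set.image_union, Submodule.span_union]
  exact Submodule.finrank_add_le_finrank_add_finrank _ _

theorem rk_circuit (x : Fin n → V) (κ : Fin n → F) (hrel : ∑ i, κ i • x i = 0)
    (I U : Finset (Fin n)) (hI : ∀ i, κ i ≠ 0 ↔ i ∈ I) (i0 : Fin n) (hi0 : i0 ∈ I) (hU : i0 ∉ U) :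
    rk F x (U ∪ I) + 1 ≤ rk F x U + (I \ U).card := by
  classical
  obtain ⟨T, hT⟩ : ∃ T : Finset (Fin n), T = (I \ U).erase i0 := ⟨_, rfl⟩
  have hmem : i0 ∈ I \ U := Finset.mem_sdiff.2 ⟨hi0, hU⟩
  have hsub : ∀ i ∈ (U ∪ I).erase i0, i ∈ U ∪ T := by
    intro i hi
    rw [Finset.mem_erase, Finset.mem_union] at hi
    rw [Finset.mem_union, hT, Finset.mem_erase, Finset.mem_sdiff]
    tauto
  have hx0 : x i0 ∈ Submodule.span F (x '' ((U ∪ T : Finset (Fin n)) : Set (Fin n))) := by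
    have h1 : κ i0 • x i0 = -∑ i ∈ Finset.univ.erase i0, κ i • x i := by
      rw [← Finset.add_sum_erase _ _ (Finset.mem_univ i0)] at hrel
      exact eq_neg_of_add_eq_zero_left hrel
    have h2 : κ i0 • x i0 ∈ Submodule.span F (x '' ((U ∪ T : Finset (Fin n)) : Set (Fin n))) := by
      rw [h1]
      refine Submodule.neg_mem _ (Submodule.sum_mem _ fun i hi => ?_)
      by_cases hκ : κ i = 0
      · rw [hκ, zero_smul]
        exact Submodule.zero_mem _
      · refine Submodule.smul_mem _ _ (Submodule.subset_span ⟨i, ?_, rfl⟩)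
        exact_mod_cast hsub i (Finset.mem_erase.2 ⟨(Finset.mem_erase.1 hi).1,
          Finset.mem_union_right _ ((hI i).1 hκ)⟩)
    exact (Submodule.smul_mem_iff _ ((hI i0).2 hi0)).1 h2
  have h1 : rk F x (U ∪ I) ≤ rk F x (U ∪ T) := by
    have := rk_fd (F := F) x (U ∪ T)
    refine Submodule.finrank_mono ?_
    rw [Submodule.span_le]
    rintro _ ⟨i, hi, rfl⟩
    by_cases h : i = i0
    · rw [h]
      exact hx0
    · exact Submodule.subset_span ⟨i, by
        exact_mod_cast hsub i (Finset.mem_erase.2 ⟨h, by exact_mod_cast hi⟩), rfl⟩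
  have h2 := rk_union (F := F) x U T
  have h3 := rk_le_card (F := F) x T
  have h4 : T.card + 1 = (I \ U).card := by
    rw [hT]
    exact Finset.card_erase_add_one hmem
  omega

theorem rk_indep (x : Fin n → V) {m : ℕ} (g : Fin m → Fin n)
    (h : LinearIndependent F fun b => x (g b)) : m ≤ rk F x Finset.univ := by
  classical
  have := rk_fd (F := F) x Finset.univ
  have h1 := finrank_span_eq_card h
  rw [Fintype.card_fin] at h1
  rw [← h1]
  refine Submodule.finrank_mono (Submodule.span_mono ?_)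
  rintro _ ⟨b, rfl⟩
  exact ⟨g b, by simp, rfl⟩

end

end Pool.Agent.Run7.h720
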