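import Pool.Agent.Run7.h720.NCirc
import Pool.Agent.Run7.h720.NLin

/-!
The n-term abc inequality for germs.
-/

set_option autoImplicit false
set_option linter.unusedSectionVars false

namespace Pool.Agent.Run7.h720

open NumberField IsDedekindDomain Height Filter Topology
open Pool.Agent.W180.OP (Pl av wt fv fv_support_finite wt_nonneg nrm)
open Pool.Agent.K1H83.VN
open MvPolynomial (monomial)

section heights
variable {k : Type} [Field k] [NumberField k]

/-- heights of tuples with some of the coordinates -/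
theorem height_mono (S : Finset (Pl k)) (hS : ∀ w : InfinitePlace k, Sum.inl w ∈ S)
    {ι κ : Type} [Finite ι] [Finite κ] (a : ι → k) (ha : a ≠ 0) (b : κ → k) (hb : b ≠ 0)
    (h : ∀ i, a i = 0 ∨ ∃ j, a i = b j) : logHeight a ≤ logHeight b := by
  have hnm : ∀ f : AbsoluteValue k ℝ, nm f a ≤ nm f b := by
    intro f
    refine nm_le _ (nm_nonneg _ _) fun i => ?_
    rcases h i with h0 | ⟨j, hj⟩
    · rw [h0, map_zero]
      exact nm_nonneg _ _
    · rw [hj]
      exact le_nm f b j
  rw [logHeight_split S hS a ha, logHeight_split S hS b hb]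
  refine add_le_add (Finset.sum_le_sum fun v _ => ?_) ?_
  · exact mul_le_mul_of_nonneg_left (Real.log_le_log (nm_pos _ ha) (hnm _)) (wt_nonneg v)
  · exact ho_le S a ha b hb fun v _ => hnm _

/-- heights of two tuples with a common coordinate -/
theorem height_union (S : Finset (Pl k)) (hS : ∀ w : InfinitePlace k, Sum.inl w ∈ S)
    {ι : Type} [Finite ι] [DecidableEq ι] (x : ι → k) (U I : Finset ι) (i1 : ι) (h1 : i1 ∈ U)
    (h2 : i1 ∈ I) (hx : x i1 ≠ 0) :
    logHeight (fun i => if i ∈ U ∪ I then x i else 0) ≤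
      logHeight (fun i => if i ∈ U then x i else 0) +
        logHeight (fun i => if i ∈ I then x i else 0) := by
  have e1 : (fun i => if i ∈ U then x i else 0) ≠ 0 :=
    ne_of_coord (i := i1) (by rw [if_pos h1]; exact hx)
  have e2 : (fun i => if i ∈ I then x i else 0) ≠ 0 :=
    ne_of_coord (i := i1) (by rw [if_pos h2]; exact hx)
  have e3 : (fun i => if i ∈ U ∪ I then x i else 0) ≠ 0 :=
    ne_of_coord (i := i1) (by rw [if_pos (Finset.mem_union_left _ h1)]; exact hx)
  rw [← logHeight_fun_mul_eq e1 e2, ← logHeight_smul_eq_logHeight _ hx]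
  refine height_mono S hS _ ?_ _ ?_ fun i => ?_
  · intro h
    have h3 := congrFun h i1
    simp only [Pi.smul_apply, if_pos (Finset.mem_union_left _ h1), smul_eq_mul,
      Pi.zero_apply] at h3
    exact mul_ne_zero hx hx h3
  · intro h
    have h3 := congrFun h (i1, i1)
    simp only [if_pos h1, if_pos h2, Pi.zero_apply] at h3
    exact mul_ne_zero hx hx h3
  · by_cases hU : i ∈ U
    · refine Or.inr ⟨(i, i1), ?_⟩
      simp only [Pi.smul_apply, if_pos (Finset.mem_union_left I hU), if_pos hU, if_pos h2,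
        smul_eq_mul]
      exact mul_comm _ _
    · by_cases hI : i ∈ I
      · refine Or.inr ⟨(i1, i), ?_⟩
        simp only [Pi.smul_apply, if_pos (Finset.mem_union_right U hI), if_pos hI, if_pos h1,
          smul_eq_mul]
      · left
        have : i ∉ U ∪ I := by
          rw [Finset.mem_union]
          tauto
        simp only [Pi.smul_apply, if_neg this, smul_zero]

end heights

variable {k : Type} [Field k] [NumberField k] {σ : Sc} {S : Finset (Pl k)} {r : ℕ}

section
variable {u : Fin r → G k σ} (hu : Indep S u)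
include hu

/-- the height of a minimal relation between some of the entries of a tuple -/
theorem circ_main (hS : ∀ w : InfinitePlace k, Sum.inl w ∈ S) {n m : ℕ}
    (x : Fin n → MvPolynomial (Fin r) (FF k σ)) (hx0 : ∀ i, x i ≠ 0)
    (R : MvPolynomial (Fin r) (FF k σ)) (hR : R ≠ 0) (τ : G k σ) (hτ : τ ≠ 0)
    {ν : Type} [Fintype ν] (Y : ν → MvPolynomial (Fin r) (FF k σ)) (M q : ℕ) (hM : M ≠ 0)
    (h1 : ∀ᶠ t in (σ.𝒰 : Filter ℕ), ∀ v : HeightOneSpectrum (𝓞 k), Sum.inr v ∉ S →
      fv v (rep τ t) ≤ 1 ∧ fv v (rep (ev u R) t) ^ M * fv v (rep τ t) ≤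
        (∏ i, fv v (rep (ev u (x i)) t)) * nm (fv v) (c1 fun i => rep (ev u (Y i)) t) ^ q)
    (g : Fin (m + 1) → Fin n) (hg : Function.Injective g) (κ : Fin (m + 1) → FF k σ)
    (hκ : ∀ b, κ b ≠ 0) (hsum : ∑ b, κ b • x (g b) = 0)
    (hind : LinearIndependent (FF k σ) fun b : Fin m => x (g b.succ)) (L : ℕ)
    (hL : ∀ (p : MvPolynomial (Fin r) (FF k σ)) (y : Fin (m + 1) → MvPolynomial (Fin r) (FF k σ)),
      (∀ b, x (g b) = p * y b) → ∀ π, Irreducible π → ¬ π ∣ vars' (FF k σ) r →
      ∀ (i0 : Fin (m + 1)) (e : Fin m → ℕ), (∀ b, π ^ e b ∣ y (i0.succAbove b)) →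
        ∀ τ : Equiv.Perm (Fin m), ∑ b, e b ≤ ∑ a, (e (τ a) - (a : ℕ)) + L) :
    Sm σ fun t => logHeight (fun b => rep (ev u (x (g b))) t) -
      L * (hs S (ev u R) t + hs S τ t) := by
  classical
  obtain ⟨p, y, hp0, hpy, -, hcop⟩ := tuple_gcd (fun b => x (g b)) ⟨0, hx0 _⟩
  have hy0 : ∀ b, y b ≠ 0 := by
    intro b h
    apply hx0 (g b)
    rw [hpy b, h, mul_zero]
  have hsy : ∑ b, κ b • y b = 0 := by
    apply mul_left_cancel₀ hp0
    rw [mul_zero, ← hsum, Finset.mul_sum]
    refine Finset.sum_congr rfl fun b _ => ?_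
    rw [hpy b, mul_smul_comm]
  have hindy : LinearIndependent (FF k σ) fun b : Fin m => y b.succ := by
    rw [Fintype.linearIndependent_iff] at hind ⊢
    intro c hc
    apply hind
    have h2 : ∑ b, c b • x (g b.succ) = p * ∑ b, c b • y b.succ := by
      rw [Finset.mul_sum]
      refine Finset.sum_congr rfl fun b _ => ?_
      rw [hpy b.succ, mul_smul_comm]
    rw [h2, hc, mul_zero]
  obtain ⟨W, hW0, hWd, hWv⟩ := circ_wr hu hS y κ hκ hsy hindy hy0 hcop L (hL p y hpy)
  have hP0 : ∏ b, y b ≠ 0 := Finset.prod_ne_zero_iff.2 fun b _ => hy0 b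
  have hh := circ_height hu hS y hy0 W hW0 hWv
  have hc := circ_count hu hS (∏ b, y b) W R hP0 hW0 hR L hWd τ hτ
    (Sum.elim (Sum.elim (fun _ : Unit => p) x) Y) M (m + 1 + n + q) hM (by
      have e1 : ∀ᶠ t in (σ.𝒰 : Filter ℕ), ∀ b, rep (ev u (x (g b))) t =
          rep (ev u p) t * rep (ev u (y b)) t := by
        rw [Filter.eventually_all]
        intro b
        rw [hpy b, map_mul]
        exact rep_mul _ _
      filter_upwards [h1, e1, rep_prod Finset.univ fun b => ev u (y b)] with t t1 t2 t3 v hv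
      obtain ⟨t1a, t1b⟩ := t1 v hv
      refine ⟨t1a, t1b.trans ?_⟩
      rw [map_prod (ev u), t3, map_prod]
      obtain ⟨Bv, hBv⟩ : ∃ Bv, Bv = nm (fv v) (c1 fun i =>
          rep (ev u (Sum.elim (Sum.elim (fun _ : Unit => p) x) Y i)) t) := ⟨_, rfl⟩
      rw [← hBv]
      have hB1 : 1 ≤ Bv := by
        rw [hBv]
        exact one_le_nm _ _ none rfl
      have hB0 : 0 ≤ Bv := zero_le_one.trans hB1
      have hp : fv v (rep (ev u p) t) ≤ Bv := by
        rw [hBv]
        exact le_nm (fv v) (c1 fun i =>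
          rep (ev u (Sum.elim (Sum.elim (fun _ : Unit => p) x) Y i)) t)
          (some (Sum.inl (Sum.inl ())))
      have hx : ∀ i, fv v (rep (ev u (x i)) t) ≤ Bv := by
        intro i
        rw [hBv]
        exact le_nm (fv v) (c1 fun i =>
          rep (ev u (Sum.elim (Sum.elim (fun _ : Unit => p) x) Y i)) t)
          (some (Sum.inl (Sum.inr i)))
      have hY : nm (fv v) (c1 fun i => rep (ev u (Y i)) t) ≤ Bv := by
        refine nm_le _ hB0 fun o => ?_
        rcases o with _ | i
        · show fv v 1 ≤ _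
          rw [map_one]
          exact hB1
        · rw [hBv]
          exact le_nm (fv v) (c1 fun i =>
            rep (ev u (Sum.elim (Sum.elim (fun _ : Unit => p) x) Y i)) t) (some (Sum.inr i))
      have hprod : ∏ i, fv v (rep (ev u (x i)) t) ≤
          (∏ b, fv v (rep (ev u (y b)) t)) * Bv ^ (m + 1 + n) := by
        rw [← Finset.prod_mul_prod_compl (Finset.univ.image g),
          Finset.prod_image fun a _ b _ h => hg h]
        have h2 : ∏ b, fv v (rep (ev u (x (g b))) t) =
            fv v (rep (ev u p) t) ^ (m + 1) * ∏ b, fv v (rep (ev u (y b)) t) := by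
          rw [Finset.prod_congr rfl fun b _ => by rw [t2 b, map_mul], Finset.prod_mul_distrib,
            Finset.prod_const, Finset.card_univ, Fintype.card_fin]
        have h3 : ∏ i ∈ (Finset.univ.image g)ᶜ, fv v (rep (ev u (x i)) t) ≤ Bv ^ n := by
          refine (Finset.prod_le_prod (fun i _ => (fv v).nonneg _) fun i _ => hx i).trans ?_
          rw [Finset.prod_const]
          refine pow_le_pow_right₀ hB1 ?_
          exact (Finset.card_le_univ _).trans (le_of_eq (Fintype.card_fin n))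
        have h4 : fv v (rep (ev u p) t) ^ (m + 1) ≤ Bv ^ (m + 1) :=
          pow_le_pow_left₀ ((fv v).nonneg _) hp _
        have h5 : 0 ≤ ∏ b, fv v (rep (ev u (y b)) t) :=
          Finset.prod_nonneg fun b _ => (fv v).nonneg _
        have h6 : 0 ≤ ∏ i ∈ (Finset.univ.image g)ᶜ, fv v (rep (ev u (x i)) t) :=
          Finset.prod_nonneg fun b _ => (fv v).nonneg _
        rw [h2]
        calc fv v (rep (ev u p) t) ^ (m + 1) * (∏ b, fv v (rep (ev u (y b)) t)) *
              ∏ i ∈ (Finset.univ.image g)ᶜ, fv v (rep (ev u (x i)) t) ≤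
            Bv ^ (m + 1) * (∏ b, fv v (rep (ev u (y b)) t)) * Bv ^ n := by
              gcongr
          _ = (∏ b, fv v (rep (ev u (y b)) t)) * Bv ^ (m + 1 + n) := by
              rw [pow_add]
              ring
      rw [pow_add, ← mul_assoc]
      exact mul_le_mul hprod (pow_le_pow_left₀ (nm_nonneg _ _) hY q)
        (pow_nonneg (nm_nonneg _ _) _) (mul_nonneg (Finset.prod_nonneg fun b _ =>
          (fv v).nonneg _) (pow_nonneg hB0 _)))
  refine (hh.add hc).mono ?_
  have e1 : ∀ᶠ t in (σ.𝒰 : Filter ℕ), ∀ b, rep (ev u (x (g b))) t =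
      rep (ev u p) t * rep (ev u (y b)) t := by
    rw [Filter.eventually_all]
    intro b
    rw [hpy b, map_mul]
    exact rep_mul _ _
  filter_upwards [e1, rep_ne _ (ev_ne hu hS _ hp0)] with t t1 t2
  have e2 : (fun b => rep (ev u (x (g b))) t) = rep (ev u p) t • fun b => rep (ev u (y b)) t :=
    funext fun b => t1 b
  rw [e2, logHeight_smul_eq_logHeight _ t2]
  linarith

/-- the sum of the contributions of a chain of minimal relations -/
theorem chain_main (hS : ∀ w : InfinitePlace k, Sum.inl w ∈ S) {n : ℕ} (hn : 0 < n)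
    (x : Fin n → MvPolynomial (Fin r) (FF k σ)) (hx0 : ∀ i, x i ≠ 0) (hsum : ∑ i, x i = 0)
    (hns : ∀ U : Finset (Fin n), U.Nonempty → U ≠ Finset.univ → ∑ i ∈ U, x i ≠ 0)
    (B : ℕ → ℝ) (hB : Sm σ fun t => -B t)
    (hcirc : ∀ (m : ℕ) (g : Fin (m + 1) → Fin n), Function.Injective g →
      ∀ κ : Fin (m + 1) → FF k σ, (∀ b, κ b ≠ 0) → ∑ b, κ b • x (g b) = 0 →
      LinearIndependent (FF k σ) (fun b : Fin m => x (g b.succ)) →
      Sm σ fun t => logHeight (fun b => rep (ev u (x (g b))) t) -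
        (m * (m - 1) / 2 : ℕ) * B t)
    (M : ℕ) (hM : ∀ d ≤ n, (n - d) * (d * (d - 1)) ≤ 2 * M) :
    Sm σ fun t => logHeight (fun i => rep (ev u (x i)) t) - M * B t := by
  classical
  obtain ⟨d, hd⟩ : ∃ d, d = rk (FF k σ) x Finset.univ := ⟨_, rfl⟩
  obtain ⟨c, hc⟩ : ∃ c, c = d * (d - 1) / 2 := ⟨_, rfl⟩
  have hdn : d ≤ n := by
    rw [hd]
    exact (rk_le_card x _).trans (le_of_eq (Finset.card_fin n))
  have key : ∀ j : ℕ, j + 1 ≤ n → ∃ U : Finset (Fin n), j + 1 ≤ U.card ∧ U.Nonempty ∧
      Sm σ fun t => logHeight (fun i => if i ∈ U then rep (ev u (x i)) t else 0) -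
        ((U.card : ℝ) - rk (FF k σ) x U) * (c * B t) := by
    intro j
    induction j with
    | zero =>
      intro _
      refine ⟨{⟨0, hn⟩}, by rw [Finset.card_singleton], Finset.singleton_nonempty _, ?_⟩
      have h1 := rk_le_card (F := FF k σ) x {⟨0, hn⟩}
      have h2 : (0 : ℝ) ≤ (({⟨0, hn⟩} : Finset (Fin n)).card : ℝ) -
          rk (FF k σ) x {⟨0, hn⟩} := by
        rw [sub_nonneg]
        exact_mod_cast h1
      refine (hB.smul (mul_nonneg h2 (Nat.cast_nonneg c))).mono ?_
      filter_upwards [rep_ne _ (ev_ne hu hS _ (hx0 ⟨0, hn⟩))] with t t1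
      have h3 : logHeight (fun i => if i ∈ ({⟨0, hn⟩} : Finset (Fin n)) then
          rep (ev u (x i)) t else 0) ≤ logHeight (fun _ : Unit => rep (ev u (x ⟨0, hn⟩)) t) := by
        refine height_mono S hS _ (ne_of_coord (i := ⟨0, hn⟩) (by
          rw [if_pos (Finset.mem_singleton_self _)]
          exact t1)) _ (ne_of_coord (i := ()) t1) fun i => ?_
        by_cases hi : i = ⟨0, hn⟩
        · refine Or.inr ⟨(), ?_⟩
          rw [if_pos (Finset.mem_singleton.2 hi), hi]
        · left
          rw [if_neg (fun h => hi (Finset.mem_singleton.1 h))]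
      have h4 : logHeight (fun _ : Unit => rep (ev u (x ⟨0, hn⟩)) t) = 0 := by
        rw [logHeight_eq_log_mulHeight, mulHeight_eq_one_of_subsingleton, Real.log_one]
      rw [h4] at h3
      have h5 : (((({⟨0, hn⟩} : Finset (Fin n)).card : ℝ) - rk (FF k σ) x {⟨0, hn⟩}) * c) *
          -B t = -(((({⟨0, hn⟩} : Finset (Fin n)).card : ℝ) -
            rk (FF k σ) x {⟨0, hn⟩}) * (c * B t)) := by ring
      rw [h5]
      linarith
    | succ j ih =>
      intro hj
      obtain ⟨U, hUc, hUn, hU⟩ := ih (by omega)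
      by_cases hcard : j + 1 + 1 ≤ U.card
      · exact ⟨U, hcard, hUn, hU⟩
      have hUuniv : U ≠ Finset.univ := by
        rintro rfl
        rw [Finset.card_fin] at hcard
        exact hcard hj
      obtain ⟨κ, hκ1, hκ2, hκ3⟩ := exists_circuit (F := FF k σ) x U
        ⟨fun _ => 1, by simpa using hsum, by simpa using hns U hUn hUuniv⟩
      obtain ⟨i1, hi1U, hi1⟩ : ∃ i ∈ U, κ i ≠ 0 := by
        by_contra hcon
        push Not at hcon
        exact hκ2 (Finset.sum_eq_zero fun i hi => by rw [hcon i hi, zero_smul])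
      obtain ⟨i0, hi0U, hi0⟩ : ∃ i, i ∉ U ∧ κ i ≠ 0 := by
        by_contra hcon
        push Not at hcon
        apply hκ2
        rw [← hκ1]
        refine Finset.sum_subset (Finset.subset_univ _) fun i _ hi => ?_
        rw [hcon i hi, zero_smul]
      obtain ⟨m, g, hg, hran, hsg, hind⟩ := circuit_enum x κ hκ1 ⟨i1, hi1⟩ hκ3
      obtain ⟨I, hI⟩ : ∃ I : Finset (Fin n), I = Finset.univ.filter fun i => κ i ≠ 0 := ⟨_, rfl⟩
      have hmem : ∀ i, κ i ≠ 0 ↔ i ∈ I := fun i => by rw [hI]; simp
      have hrank := rk_circuit x κ hκ1 I U hmem i0 ((hmem i0).1 hi0) hi0U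
      have hsm := hcirc m g hg (fun b => κ (g b)) (fun b => (hran _).2 ⟨b, rfl⟩) hsg hind
      have hmd : m ≤ d := by
        rw [hd]
        exact rk_indep x (fun b : Fin m => g b.succ) hind
      have hLc : m * (m - 1) / 2 ≤ c := by
        rw [hc]
        exact Nat.div_le_div_right (Nat.mul_le_mul hmd (by omega))
      have hcU : (U ∪ I).card = U.card + (I \ U).card := by
        rw [← Finset.union_sdiff_self_eq_union, Finset.card_union_of_disjoint
          Finset.disjoint_sdiff]
      have hIU : 1 ≤ (I \ U).card := by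
        rw [Nat.one_le_iff_ne_zero, Finset.card_ne_zero]
        exact ⟨i0, Finset.mem_sdiff.2 ⟨(hmem i0).1 hi0, hi0U⟩⟩
      refine ⟨U ∪ I, by omega, hUn.mono Finset.subset_union_left, ?_⟩
      have hc1 : (0 : ℝ) ≤ (c : ℝ) - (m * (m - 1) / 2 : ℕ) := by
        rw [sub_nonneg]
        exact_mod_cast hLc
      have hc2 : (0 : ℝ) ≤ (((U ∪ I).card : ℝ) - rk (FF k σ) x (U ∪ I)) -
          ((U.card : ℝ) - rk (FF k σ) x U) - 1 := by
        have h2 : ((rk (FF k σ) x (U ∪ I) : ℕ) : ℝ) + 1 ≤
            (rk (FF k σ) x U : ℕ) + ((I \ U).card : ℕ) := by exact_mod_cast hrank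
        rw [hcU]
        push_cast
        linarith
      refine (((hU.add hsm).add (hB.smul hc1)).add
        (hB.smul (mul_nonneg hc2 (Nat.cast_nonneg c)))).mono ?_
      filter_upwards [rep_ne _ (ev_ne hu hS _ (hx0 i1))] with t t1
      have h2 := height_union S hS (fun i => rep (ev u (x i)) t) U I i1 hi1U ((hmem i1).1 hi1) t1
      have h3 : logHeight (fun i => if i ∈ I then rep (ev u (x i)) t else 0) ≤
          logHeight (fun b => rep (ev u (x (g b))) t) := by
        obtain ⟨b1, hb1⟩ := (hran i1).1 hi1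
        refine height_mono S hS _ (ne_of_coord (i := i1) (by
          rw [if_pos ((hmem i1).1 hi1)]
          exact t1)) _ (ne_of_coord (i := b1) (by rw [hb1]; exact t1)) fun i => ?_
        by_cases hi : i ∈ I
        · obtain ⟨b, hb⟩ := (hran i).1 ((hmem i).2 hi)
          refine Or.inr ⟨b, ?_⟩
          rw [if_pos hi, hb]
        · left
          rw [if_neg hi]
      have h4 : ((((U ∪ I).card : ℝ) - rk (FF k σ) x (U ∪ I)) -
          ((U.card : ℝ) - rk (FF k σ) x U) - 1) * c * -B t =
          -((((U ∪ I).card : ℝ) - rk (FF k σ) x (U ∪ I)) * (c * B t)) +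
          ((U.card : ℝ) - rk (FF k σ) x U) * (c * B t) + c * B t := by ring
      have h5 : ((c : ℝ) - (m * (m - 1) / 2 : ℕ)) * -B t =
          -(c * B t) + (m * (m - 1) / 2 : ℕ) * B t := by ring
      rw [h4, h5]
      linarith
  obtain ⟨U, hUc, -, hU⟩ := key (n - 1) (by omega)
  have hUuniv : U = Finset.univ := by
    apply Finset.eq_univ_of_card
    rw [Fintype.card_fin]
    have h1 := Finset.card_le_univ U
    rw [Fintype.card_fin] at h1
    omega
  subst hUuniv
  have hfin : (0 : ℝ) ≤ (M : ℝ) - ((n : ℝ) - d) * c := by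
    have h1 := hM d hdn
    have h2 : (n - d) * c ≤ M := by
      have h3 : 2 * c ≤ d * (d - 1) := by
        rw [hc]
        exact Nat.mul_div_le _ _
      have h4 : 2 * ((n - d) * c) ≤ 2 * M := by
        calc 2 * ((n - d) * c) = (n - d) * (2 * c) := by ring
          _ ≤ (n - d) * (d * (d - 1)) := Nat.mul_le_mul_left _ h3
          _ ≤ 2 * M := h1
      omega
    have h3 : (((n - d : ℕ) : ℝ)) * c ≤ M := by exact_mod_cast h2
    rw [Nat.cast_sub hdn] at h3
    linarith
  refine (hU.add (hB.smul hfin)).mono (Eventually.of_forall fun t => ?_)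
  simp only [Finset.mem_univ, if_true, Finset.card_fin]
  rw [← hd]
  have h6 : ((M : ℝ) - ((n : ℝ) - d) * c) * -B t = ((n : ℝ) - d) * (c * B t) - M * B t := by
    ring
  rw [h6]
  linarith

end

end Pool.Agent.Run7.h720
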