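import Pool.Agent.Run7.h720.WSeq

/-!
Local heights: invariance under scaling, change of the set of places, bounds.
-/

set_option autoImplicit false
set_option linter.unusedSectionVars false

namespace Pool.Agent.Run7.h720

open NumberField IsDedekindDomain Height Filter Topology
open Pool.Agent.W180.OP (Pl av wt fv fv_support_finite wt_nonneg nrm)
open Pool.Agent.K1H83.VN
open MvPolynomial (aeval pderiv monomial)

variable {k : Type} [Field k] [NumberField k]

/-- the local height of the point `x` at `v`, `y i` the values of the equations of the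
`i`-th component -/
noncomputable def lc {ι : Type} {q w : ℕ} (v : Pl k) (x : ι → k) (y : Fin q → Fin w → k)
    (d : Fin q → ℕ) : ℝ :=
  ∑ i, (d i * Real.log (nm (av v) x) - Real.log (nm (av v) (y i)))

/-- the contribution of the places outside `T` -/
noncomputable def out {ι : Type} {q w : ℕ} (T : Finset (Pl k)) (x : ι → k)
    (y : Fin q → Fin w → k) (d : Fin q → ℕ) : ℝ :=
  ∑ i, (d i * ho T x - ho T (y i))

theorem lc_smul {ι : Type} [Finite ι] {q w : ℕ} (v : Pl k) (x : ι → k) (hx : x ≠ 0)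
    (y : Fin q → Fin w → k) (hy : ∀ i, ∃ j, y i j ≠ 0) (d : Fin q → ℕ) (l : k) (hl : l ≠ 0) :
    lc v (fun j => l * x j) (fun i j => l ^ d i * y i j) d = lc v x y d := by
  unfold lc
  refine Finset.sum_congr rfl fun i _ => ?_
  obtain ⟨j, hj⟩ := hy i
  have h1 : 0 < av v l := (av v).pos hl
  have h2 := nm_pos (av v) hx
  have h3 := nm_pos (av v) (ne_of_coord (i := j) hj)
  rw [nm_smul, nm_smul, map_pow, Real.log_mul h1.ne' h2.ne',
    Real.log_mul (pow_pos h1 _).ne' h3.ne', Real.log_pow]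
  ring

theorem ho_smul' (S : Finset (Pl k)) (hS : ∀ w : InfinitePlace k, Sum.inl w ∈ S) {ι : Type}
    [Finite ι] (x : ι → k) (hx : x ≠ 0) (l : k) (hl : l ≠ 0) :
    ho S (fun j => l * x j) = ho S x - ∑ v ∈ S, wt v * Real.log (av v l) := by
  have h1 := logHeight_split S hS x hx
  have hlx : (fun j => l * x j) ≠ 0 := by
    intro h
    apply hx
    funext j
    exact (mul_eq_zero.1 (congrFun h j)).resolve_left hl
  have h2 := logHeight_split S hS (fun j => l * x j) hlx
  have h3 : logHeight (fun j => l * x j) = logHeight x := logHeight_smul_eq_logHeight x hl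
  have h4 : ∀ v ∈ S, wt v * Real.log (nm (av v) fun j => l * x j) =
      wt v * Real.log (av v l) + wt v * Real.log (nm (av v) x) := by
    intro v _
    rw [nm_smul, Real.log_mul ((av v).pos hl).ne' (nm_pos (av v) hx).ne', mul_add]
  rw [Finset.sum_congr rfl h4, Finset.sum_add_distrib] at h2
  linarith

theorem out_smul (S : Finset (Pl k)) (hS : ∀ w : InfinitePlace k, Sum.inl w ∈ S) {ι : Type}
    [Finite ι] {q w : ℕ} (x : ι → k) (hx : x ≠ 0)
    (y : Fin q → Fin w → k) (hy : ∀ i, ∃ j, y i j ≠ 0) (d : Fin q → ℕ) (l : k) (hl : l ≠ 0) :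
    out S (fun j => l * x j) (fun i j => l ^ d i * y i j) d = out S x y d := by
  unfold out
  refine Finset.sum_congr rfl fun i _ => ?_
  obtain ⟨j, hj⟩ := hy i
  rw [ho_smul' S hS x hx l hl, ho_smul' S hS (y i) (ne_of_coord (i := j) hj) _ (pow_ne_zero _ hl)]
  have h1 : ∀ v ∈ S, wt v * Real.log (av v (l ^ d i)) = d i * (wt v * Real.log (av v l)) := by
    intro v _
    rw [map_pow, Real.log_pow]
    ring
  rw [Finset.sum_congr rfl h1, ← Finset.mul_sum]
  ring

open Classical in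
theorem ho_change (T S : Finset (Pl k)) (hTS : T ⊆ S)
    (hT : ∀ w : InfinitePlace k, Sum.inl w ∈ T) {ι : Type} [Finite ι] (x : ι → k) (hx : x ≠ 0) :
    ho T x = ho S x + ∑ v ∈ S \ T, wt v * Real.log (nm (av v) x) := by
  have h1 := logHeight_split T hT x hx
  have h2 := logHeight_split S (fun w => hTS (hT w)) x hx
  have h3 := Finset.sum_sdiff (f := fun v => wt v * Real.log (nm (av v) x)) hTS
  linarith

open Classical in
/-- the places between `T` and `S` -/
theorem lc_change (T S : Finset (Pl k)) (hTS : T ⊆ S)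
    (hT : ∀ w : InfinitePlace k, Sum.inl w ∈ T) {ι : Type} [Finite ι] {q w : ℕ} (x : ι → k)
    (hx : x ≠ 0) (y : Fin q → Fin w → k) (hy : ∀ i, ∃ j, y i j ≠ 0)
    (y' : Pl k → Fin q → Fin w → k) (d : Fin q → ℕ) (d' : Pl k → Fin q → ℕ) :
    ∑ v ∈ S, wt v * lc v x (if v ∈ T then y' v else y) (if v ∈ T then d' v else d) +
      out S x y d = ∑ v ∈ T, wt v * lc v x (y' v) (d' v) + out T x y d := by
  have h1 := Finset.sum_sdiff (f := fun v =>
    wt v * lc v x (if v ∈ T then y' v else y) (if v ∈ T then d' v else d)) hTS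
  have h2 : ∑ v ∈ T, wt v * lc v x (if v ∈ T then y' v else y) (if v ∈ T then d' v else d) =
      ∑ v ∈ T, wt v * lc v x (y' v) (d' v) :=
    Finset.sum_congr rfl fun v hv => by rw [if_pos hv, if_pos hv]
  have h3 : ∑ v ∈ S \ T, wt v * lc v x (if v ∈ T then y' v else y) (if v ∈ T then d' v else d) =
      ∑ v ∈ S \ T, wt v * lc v x y d :=
    Finset.sum_congr rfl fun v hv => by
      rw [if_neg (Finset.mem_sdiff.1 hv).2, if_neg (Finset.mem_sdiff.1 hv).2]
  have h4 : out T x y d = out S x y d + ∑ v ∈ S \ T, wt v * lc v x y d := by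
    unfold out lc
    have e1 : ∀ v ∈ S \ T, wt v * ∑ i, ((d i : ℝ) * Real.log (nm (av v) x) -
        Real.log (nm (av v) (y i))) = ∑ i, ((d i : ℝ) * (wt v * Real.log (nm (av v) x)) -
          wt v * Real.log (nm (av v) (y i))) := by
      intro v _
      rw [Finset.mul_sum]
      exact Finset.sum_congr rfl fun i _ => by ring
    rw [Finset.sum_congr rfl e1, Finset.sum_comm, ← Finset.sum_add_distrib]
    refine Finset.sum_congr rfl fun i _ => ?_
    obtain ⟨j, hj⟩ := hy i
    rw [ho_change T S hTS hT x hx, ho_change T S hTS hT (y i) (ne_of_coord (i := j) hj),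
      Finset.sum_sub_distrib, ← Finset.mul_sum]
    ring
  linarith

variable {σ : Sc}

/-- all local heights together are bounded by a multiple of the height -/
theorem total_bd (T : Finset (Pl k)) (hT : ∀ w : InfinitePlace k, Sum.inl w ∈ T) {m q w : ℕ}
    (X : Fin m → G k σ) (hX : ∃ i, X i ≠ 0) (hXB : ∀ i, X i ∈ BB k σ)
    (hXL : ∀ᶠ t in (σ.𝒰 : Filter ℕ), logHeight (fun j => rep (X j) t) ≤ σ.L t)
    (Y : Fin q → Fin w → G k σ) (hY : ∀ i, ∃ j, Y i j ≠ 0) (hYB : ∀ i j, Y i j ∈ BB k σ)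
    (d : Fin q → ℕ) (Y' : Pl k → Fin q → Fin w → G k σ)
    (hY' : ∀ v ∈ T, ∀ i, ∃ j, Y' v i j ≠ 0) (hYB' : ∀ v ∈ T, ∀ i j, Y' v i j ∈ BB k σ)
    (d' : Pl k → Fin q → ℕ) :
    ∃ C : ℝ, ∀ᶠ t in (σ.𝒰 : Filter ℕ),
      ∑ v ∈ T, wt v * lc v (fun j => rep (X j) t) (fun i j => rep (Y' v i j) t) (d' v) +
        out T (fun j => rep (X j) t) (fun i j => rep (Y i j) t) d ≤ C * σ.L t := by
  classical
  have h1 := fun v => loc_bd X hX hXB v
  choose CX hCX using h1
  have h2 : ∀ v i, ∃ C : ℝ, v ∈ T → ∀ᶠ t in (σ.𝒰 : Filter ℕ),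
      |wt v * Real.log (nm (av v) fun j => rep (Y' v i j) t)| ≤ C * σ.L t := by
    intro v i
    by_cases hv : v ∈ T
    · obtain ⟨C, hC⟩ := loc_bd (Y' v i) (hY' v hv i) (hYB' v hv i) v
      exact ⟨C, fun _ => hC⟩
    · exact ⟨0, fun h => absurd h hv⟩
  choose CY' hCY' using h2
  have h3 := fun (v : Pl k) i => loc_bd (Y i) (hY i) (hYB i) v
  choose CY hCY using h3
  have e1 : ∀ᶠ t in (σ.𝒰 : Filter ℕ), ∀ v ∈ T,
      |wt v * Real.log (nm (av v) fun j => rep (X j) t)| ≤ CX v * σ.L t :=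
    (Filter.eventually_all_finset T).2 fun v _ => hCX v
  have e2 : ∀ᶠ t in (σ.𝒰 : Filter ℕ), ∀ v ∈ T, ∀ i,
      |wt v * Real.log (nm (av v) fun j => rep (Y' v i j) t)| ≤ CY' v i * σ.L t :=
    (Filter.eventually_all_finset T).2 fun v hv => Filter.eventually_all.2 fun i => hCY' v i hv
  have e3 : ∀ᶠ t in (σ.𝒰 : Filter ℕ), ∀ v ∈ T, ∀ i,
      |wt v * Real.log (nm (av v) fun j => rep (Y i j) t)| ≤ CY v i * σ.L t :=
    (Filter.eventually_all_finset T).2 fun v _ => Filter.eventually_all.2 fun i => hCY v i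
  have e4 : ∀ᶠ t in (σ.𝒰 : Filter ℕ), ∀ i, (fun j => rep (Y i j) t) ≠ 0 := by
    rw [Filter.eventually_all]
    intro i
    obtain ⟨j, hj⟩ := hY i
    filter_upwards [rep_ne _ hj] with t ht
    exact ne_of_coord (i := j) ht
  obtain ⟨i1, hi1⟩ := hX
  refine ⟨∑ v ∈ T, ∑ i, (d' v i * CX v + CY' v i) +
    ∑ i, (d i * (1 + ∑ v ∈ T, CX v) + ∑ v ∈ T, CY v i), ?_⟩
  filter_upwards [e1, e2, e3, e4, rep_ne _ hi1, hXL] with t t1 t2 t3 t4 t5 t6
  have hx0 : (fun j => rep (X j) t) ≠ 0 := ne_of_coord (i := i1) t5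
  rw [add_mul]
  refine add_le_add ?_ ?_
  · rw [Finset.sum_mul]
    refine Finset.sum_le_sum fun v hv => ?_
    unfold lc
    rw [Finset.mul_sum, Finset.sum_mul]
    refine Finset.sum_le_sum fun i _ => ?_
    have a1 := (abs_le.1 (t1 v hv)).2
    have a2 := (abs_le.1 (t2 v hv i)).1
    have a3 : (d' v i : ℝ) * (wt v * Real.log (nm (av v) fun j => rep (X j) t)) ≤
        d' v i * (CX v * σ.L t) := mul_le_mul_of_nonneg_left a1 (Nat.cast_nonneg _)
    calc wt v * ((d' v i : ℝ) * Real.log (nm (av v) fun j => rep (X j) t) -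
          Real.log (nm (av v) fun j => rep (Y' v i j) t)) =
        (d' v i : ℝ) * (wt v * Real.log (nm (av v) fun j => rep (X j) t)) -
          wt v * Real.log (nm (av v) fun j => rep (Y' v i j) t) := by ring
      _ ≤ (d' v i * CX v + CY' v i) * σ.L t := by linarith
  · rw [Finset.sum_mul]
    unfold out
    refine Finset.sum_le_sum fun i _ => ?_
    have a1 := logHeight_split T hT _ hx0
    have a2 := logHeight_split T hT _ (t4 i)
    have a3 := logHeight_nonneg (fun j => rep (Y i j) t)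
    have a4 : -∑ v ∈ T, wt v * Real.log (nm (av v) fun j => rep (X j) t) ≤
        (∑ v ∈ T, CX v) * σ.L t := by
      rw [← Finset.sum_neg_distrib, Finset.sum_mul]
      refine Finset.sum_le_sum fun v hv => ?_
      have := (abs_le.1 (t1 v hv)).1
      linarith
    have a5 : ∑ v ∈ T, wt v * Real.log (nm (av v) fun j => rep (Y i j) t) ≤
        (∑ v ∈ T, CY v i) * σ.L t := by
      rw [Finset.sum_mul]
      refine Finset.sum_le_sum fun v hv => ?_
      exact (abs_le.1 (t3 v hv i)).2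
    have a6 : (d i : ℝ) * ho T (fun j => rep (X j) t) ≤
        d i * ((1 + ∑ v ∈ T, CX v) * σ.L t) := by
      refine mul_le_mul_of_nonneg_left ?_ (Nat.cast_nonneg _)
      rw [add_mul, one_mul]
      linarith
    calc (d i : ℝ) * ho T (fun j => rep (X j) t) - ho T (fun j => rep (Y i j) t) ≤
        d i * ((1 + ∑ v ∈ T, CX v) * σ.L t) + (∑ v ∈ T, CY v i) * σ.L t := by linarith
      _ = (d i * (1 + ∑ v ∈ T, CX v) + ∑ v ∈ T, CY v i) * σ.L t := by ring

end Pool.Agent.Run7.h720
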