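import Pool.Agent.Run7.h720.NCore
import Pool.Agent.Run7.h720.WLoc

/-!
Adding entries to a tuple by means of a linear relation.
-/

set_option autoImplicit false
set_option linter.unusedSectionVars false

namespace Pool.Agent.Run7.h720

open NumberField IsDedekindDomain Height Filter Topology
open Pool.Agent.W180.OP (Pl av wt fv fv_support_finite wt_nonneg nrm)
open Pool.Agent.K1H83.VN
open MvPolynomial (monomial)

variable {k : Type} [Field k] [NumberField k] {σ : Sc} {S : Finset (Pl k)} {r : ℕ}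

section
variable {u : Fin r → G k σ} (hu : Indep S u)
include hu

/-- values of Wronskians -/
theorem wr_val (hS : ∀ w : InfinitePlace k, Sum.inl w ∈ S) {m : ℕ}
    (l : Fin r → ℕ) (y : Fin m → MvPolynomial (Fin r) (FF k σ)) (v : Pl k) (hv : v ∈ S) :
    (OO σ (av v)).valuation (ev u
      (Matrix.of fun b a : Fin m => (wder (FF k σ) l)^[(a : ℕ)] (y b)).det) ≤
      ∏ b, (OO σ (av v)).valuation (ev u (y b)) := by
  classical
  rw [Matrix.det_apply, map_sum]
  refine Valuation.map_sum_le _ fun τ _ => ?_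
  have h3 : (OO σ (av v)).valuation (ev u (Equiv.Perm.sign τ • ∏ i,
      (Matrix.of fun b a : Fin m => (wder (FF k σ) l)^[(a : ℕ)] (y b)) (τ i) i)) =
      (OO σ (av v)).valuation (ev u (∏ i,
      (Matrix.of fun b a : Fin m => (wder (FF k σ) l)^[(a : ℕ)] (y b)) (τ i) i)) := by
    rcases Int.units_eq_one_or (Equiv.Perm.sign τ) with h | h
    · rw [h, one_smul]
    · rw [h, Units.neg_smul, one_smul, map_neg, Valuation.map_neg]
  have h4 : ∏ b, (OO σ (av v)).valuation (ev u (y b)) =
      ∏ a, (OO σ (av v)).valuation (ev u (y (τ a))) :=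
    (Equiv.prod_comp τ fun b => (OO σ (av v)).valuation (ev u (y b))).symm
  rw [h3, map_prod, map_prod, h4]
  refine Finset.prod_le_prod' fun a _ => ?_
  exact val_der_le hu hS v hv (y (τ a)) _ (iter_support l (y (τ a)) (a : ℕ))

omit hu in
/-- replacing an entry by a linear combination -/
theorem wr_update {m : ℕ} (l : Fin r → ℕ) (y : Fin m → MvPolynomial (Fin r) (FF k σ))
    (κ : Fin m → FF k σ) (b0 : Fin m) :
    (Matrix.of fun b a : Fin m => (wder (FF k σ) l)^[(a : ℕ)]
      (Function.update y b0 (∑ b, κ b • y b) b)).det =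
      MvPolynomial.C (κ b0) *
        (Matrix.of fun b a : Fin m => (wder (FF k σ) l)^[(a : ℕ)] (y b)).det := by
  classical
  have hiter : ∀ a : ℕ, (wder (FF k σ) l)^[a] (∑ b, κ b • y b) =
      ∑ b, κ b • (wder (FF k σ) l)^[a] (y b) := by
    intro a
    induction a with
    | zero => rfl
    | succ a ih =>
      rw [Function.iterate_succ_apply', ih, map_sum]
      refine Finset.sum_congr rfl fun b _ => ?_
      rw [Function.iterate_succ_apply', Derivation.map_smul]
  rw [← smul_eq_mul (MvPolynomial.C (κ b0)), ← Matrix.det_updateRow_sum _ b0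
    fun b => MvPolynomial.C (κ b)]
  congr 1
  ext b a
  by_cases hb : b = b0
  · subst hb
    rw [Matrix.updateRow_self, Matrix.of_apply, Function.update_self, hiter]
    simp only [Finset.sum_apply, Pi.smul_apply, Matrix.of_apply, smul_eq_mul]
    simp only [MvPolynomial.smul_eq_C_mul]
  · rw [Matrix.updateRow_ne hb, Matrix.of_apply, Function.update_of_ne hb, Matrix.of_apply]

/-- the Wronskian of new entries -/
theorem step_wr (hS : ∀ w : InfinitePlace k, Sum.inl w ∈ S) {m : ℕ} {ι : Type} [Fintype ι]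
    (z : ι → MvPolynomial (Fin r) (FF k σ)) (y : Fin m → MvPolynomial (Fin r) (FF k σ))
    (κ : Fin m → FF k σ) (hκ : ∀ b, κ b ≠ 0) (l : ι → FF k σ)
    (hsum : ∑ b, κ b • y b = ∑ i, l i • z i)
    (hind : LinearIndependent (FF k σ) y) (hy0 : ∀ b, y b ≠ 0)
    (p Q : MvPolynomial (Fin r) (FF k σ)) (y' : Fin m → MvPolynomial (Fin r) (FF k σ))
    (hp : p ≠ 0) (hQ : Q ≠ 0) (hpz : ∀ i, p * Q ∣ z i) (hpy : ∀ b, y b = p * y' b)
    (hcop : ∀ π, Irreducible π → π ∣ Q → ∃ b, ¬ π ∣ y' b) (L : ℕ)
    (hL : ∀ π, Irreducible π → ¬ π ∣ vars' (FF k σ) r → ∀ e : Fin m → ℕ,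
      ((∀ b, π ^ e b ∣ y b) ∨
        ∃ b0, (∀ b, b ≠ b0 → π ^ e b ∣ y b) ∧ ∀ i, π ^ e b0 ∣ z i) →
        ∀ τ : Equiv.Perm (Fin m), ∑ b, e b ≤ ∑ a, (e (τ a) - (a : ℕ)) + L) :
    ∃ W, W ≠ 0 ∧
      (∀ π, Irreducible π → ¬ π ∣ vars' (FF k σ) r → ∀ n : ℕ,
        π ^ (n + L) ∣ Q * ∏ b, y b → π ^ n ∣ W) ∧
      ∀ v ∈ S, (OO σ (av v)).valuation (ev u W) ≤ ∏ b, (OO σ (av v)).valuation (ev u (y b)) ∧
        ∀ i0 : ι, (∀ i, (OO σ (av v)).valuation (ev u (z i)) ≤
          (OO σ (av v)).valuation (ev u (z i0))) → ∀ b0 : Fin m,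
          (OO σ (av v)).valuation (ev u W) ≤ (OO σ (av v)).valuation (ev u (z i0)) *
            ∏ b ∈ Finset.univ.erase b0, (OO σ (av v)).valuation (ev u (y b)) := by
  classical
  obtain ⟨lw, hl⟩ := wr_ne y hind
  obtain ⟨w, hw⟩ : ∃ w, w = ∑ b, κ b • y b := ⟨_, rfl⟩
  have hupd := fun b0 => wr_update (σ := σ) lw y κ b0
  rw [← hw] at hupd hsum
  obtain ⟨W, hW⟩ : ∃ W, W =
    (Matrix.of fun b a : Fin m => (wder (FF k σ) lw)^[(a : ℕ)] (y b)).det := ⟨_, rfl⟩
  rw [← hW] at hl
  simp only [← hW] at hupd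
  have hWu : ∀ b0, W = MvPolynomial.C (κ b0)⁻¹ *
      (Matrix.of fun b a : Fin m => (wder (FF k σ) lw)^[(a : ℕ)]
        (Function.update y b0 w b)).det := by
    intro b0
    rw [hupd, ← mul_assoc, ← MvPolynomial.C_mul, inv_mul_cancel₀ (hκ b0), MvPolynomial.C_1,
      one_mul]
  have hwz : ∀ q, (∀ i, q ∣ z i) → q ∣ w := by
    intro q hq
    rw [hsum]
    refine Finset.dvd_sum fun i _ => ?_
    rw [MvPolynomial.smul_eq_C_mul]
    exact dvd_mul_of_dvd_right (hq i) _
  refine ⟨W, hl, ?_, ?_⟩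
  · intro π hπ hπv n hn
    have hfm : ∀ b, FiniteMultiplicity π (y b) := fun b =>
      FiniteMultiplicity.of_not_isUnit hπ.not_isUnit (hy0 _)
    choose p' hp' hpp' using fun b => (hfm b).exists_eq_pow_mul_and_not_dvd
    have h3 : ∏ b, y b = π ^ (∑ b, multiplicity π (y b)) * ∏ b, p' b := by
      rw [← Finset.prod_pow_eq_pow_sum, ← Finset.prod_mul_distrib]
      exact Finset.prod_congr rfl fun b _ => hp' b
    have h4 : ¬ π ∣ ∏ b, p' b := by
      intro h
      obtain ⟨b, -, hb⟩ := (hπ.prime.dvd_finsetProd_iff _).1 h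
      exact hpp' b hb
    obtain ⟨Q1, hQ1, hQ2⟩ := (FiniteMultiplicity.of_not_isUnit hπ.not_isUnit
      hQ).exists_eq_pow_mul_and_not_dvd
    have h5 : n + L ≤ multiplicity π Q + ∑ b, multiplicity π (y b) := by
      by_contra hlt
      push Not at hlt
      have h6 : π ^ (multiplicity π Q + ∑ b, multiplicity π (y b) + 1) ∣
          π ^ (multiplicity π Q + ∑ b, multiplicity π (y b)) * (Q1 * ∏ b, p' b) := by
        have h7 : π ^ (multiplicity π Q + ∑ b, multiplicity π (y b)) * (Q1 * ∏ b, p' b) =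
            Q * ∏ b, y b := by
          rw [h3, pow_add]
          conv_rhs => rw [hQ1]
          ring
        rw [h7]
        exact (pow_dvd_pow π hlt).trans hn
      rw [pow_succ] at h6
      rcases hπ.prime.dvd_or_dvd ((mul_dvd_mul_iff_left (pow_ne_zero _ hπ.ne_zero)).1 h6) with
        h | h
      · exact hQ2 h
      · exact h4 h
    by_cases hπQ : π ∣ Q
    · obtain ⟨b0, hb0⟩ := hcop π hπ hπQ
      have hfp : FiniteMultiplicity π p := FiniteMultiplicity.of_not_isUnit hπ.not_isUnit hp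
      have hm0 : multiplicity π (y b0) = multiplicity π p := by
        rw [hpy b0, multiplicity_mul hπ.prime (by rw [← hpy b0]; exact hfm b0),
          multiplicity_eq_zero.2 hb0, add_zero]
      obtain ⟨e, he⟩ : ∃ e : Fin m → ℕ, e = Function.update
        (fun b => multiplicity π (y b)) b0 (multiplicity π p + multiplicity π Q) := ⟨_, rfl⟩
      have he0 : e b0 = multiplicity π p + multiplicity π Q := by rw [he, Function.update_self]
      have he1 : ∀ b, b ≠ b0 → e b = multiplicity π (y b) := fun b hb => by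
        rw [he, Function.update_of_ne hb]
      have hez : π ^ e b0 ∣ p * Q := by
        rw [he0, pow_add]
        exact mul_dvd_mul (pow_multiplicity_dvd π p) (pow_multiplicity_dvd π Q)
      have hesum : ∑ b, e b = multiplicity π Q + ∑ b, multiplicity π (y b) := by
        rw [← Finset.add_sum_erase _ _ (Finset.mem_univ b0), he0,
          ← Finset.add_sum_erase _ (fun b => multiplicity π (y b)) (Finset.mem_univ b0), hm0,
          Finset.sum_congr rfl fun b hb => he1 b (Finset.ne_of_mem_erase hb)]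
        ring
      have h6 := wr_dvd (wder (FF k σ) lw) π (Function.update y b0 w) e (by
          intro b
          by_cases hb : b = b0
          · subst hb
            rw [Function.update_self]
            exact hwz _ fun i => hez.trans (hpz i)
          · rw [Function.update_of_ne hb, he1 b hb]
            exact pow_multiplicity_dvd π _) L n
        (hL π hπ hπv e (Or.inr ⟨b0, fun b hb => by
          rw [he1 b hb]
          exact pow_multiplicity_dvd π _, fun i => hez.trans (hpz i)⟩)) (by rw [hesum]; exact h5)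
      rw [hWu b0]
      exact dvd_mul_of_dvd_right h6 _
    · have hQ0 : multiplicity π Q = 0 := multiplicity_eq_zero.2 hπQ
      have h6 := wr_dvd (wder (FF k σ) lw) π y (fun b => multiplicity π (y b))
        (fun b => pow_multiplicity_dvd π _) L n
        (hL π hπ hπv _ (Or.inl fun b => pow_multiplicity_dvd π _)) (by
          rw [hQ0, zero_add] at h5
          exact h5)
      rw [hW]
      exact h6
  · intro v hv
    have h1 := wr_val hu hS lw y v hv
    rw [← hW] at h1
    refine ⟨h1, ?_⟩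
    intro i0 hi0 b0
    have h2 := wr_val hu hS lw (Function.update y b0 w) v hv
    have hC : ∀ c : FF k σ, (OO σ (av v)).valuation (ev u (MvPolynomial.C c)) ≤ 1 := by
      intro c
      have h2 : ev u (MvPolynomial.C c) = (c : G k σ) := by
        unfold ev
        rw [MvPolynomial.aeval_C]
        rfl
      rw [h2]
      exact val_FF_le v c.2
    have h3 : (OO σ (av v)).valuation (ev u w) ≤ (OO σ (av v)).valuation (ev u (z i0)) := by
      rw [hsum, map_sum]
      refine Valuation.map_sum_le _ fun i _ => ?_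
      rw [MvPolynomial.smul_eq_C_mul, map_mul, map_mul]
      exact (mul_le_of_le_one_left' (hC _)).trans (hi0 i)
    rw [hWu b0, map_mul, map_mul]
    refine (mul_le_of_le_one_left' (hC _)).trans (h2.trans ?_)
    rw [← Finset.mul_prod_erase _ _ (Finset.mem_univ b0), Function.update_self]
    refine mul_le_mul' h3 (le_of_eq (Finset.prod_congr rfl fun b hb => ?_))
    rw [Function.update_of_ne (Finset.ne_of_mem_erase hb)]

/-- the growth of the height -/
theorem step_height (hS : ∀ w : InfinitePlace k, Sum.inl w ∈ S) {m : ℕ} {ι : Type} [Fintype ι]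
    (z : ι → MvPolynomial (Fin r) (FF k σ)) (y : Fin m → MvPolynomial (Fin r) (FF k σ))
    (j0 : ι) (hz0 : z j0 ≠ 0) (hy0 : ∀ b, y b ≠ 0)
    (p Q : MvPolynomial (Fin r) (FF k σ)) (hp : p ≠ 0) (hQ : Q ≠ 0)
    (z' : ι → MvPolynomial (Fin r) (FF k σ)) (hz' : ∀ i, z i = (p * Q) * z' i)
    (hcz : ∀ π, Irreducible π → ¬ ∀ i, π ∣ z' i)
    (x' : ι ⊕ Fin m → MvPolynomial (Fin r) (FF k σ)) (hx' : ∀ i, Sum.elim z y i = p * x' i)
    (W : MvPolynomial (Fin r) (FF k σ)) (hW : W ≠ 0)
    (hval : ∀ v ∈ S, (OO σ (av v)).valuation (ev u W) ≤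
        ∏ b, (OO σ (av v)).valuation (ev u (y b)) ∧
        ∀ i0 : ι, (∀ i, (OO σ (av v)).valuation (ev u (z i)) ≤
          (OO σ (av v)).valuation (ev u (z i0))) → ∀ b0 : Fin m,
          (OO σ (av v)).valuation (ev u W) ≤ (OO σ (av v)).valuation (ev u (z i0)) *
            ∏ b ∈ Finset.univ.erase b0, (OO σ (av v)).valuation (ev u (y b))) :
    Sm σ fun t => logHeight (fun i => rep (ev u (Sum.elim z y i)) t) -
      logHeight (fun i => rep (ev u (z i)) t) - hs S (ev u (Q * ∏ b, y b)) t +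
      hs S (ev u W) t := by
  classical
  have hne : ∀ b, ev u (y b) ≠ 0 := fun b => ev_ne hu hS _ (hy0 b)
  have hnz : ev u (z j0) ≠ 0 := ev_ne hu hS _ hz0
  have hloc : ∀ v ∈ S, Sm σ fun t =>
      Real.log (nm (av v) fun i => rep (ev u (Sum.elim z y i)) t) -
      Real.log (nm (av v) fun i => rep (ev u (z i)) t) +
      lv v (ev u W) t - ∑ b, lv v (ev u (y b)) t := by
    intro v hv
    have _ : Nonempty ι := ⟨j0⟩
    obtain ⟨i0, hi0⟩ := Finite.exists_max fun i : ι => (OO σ (av v)).valuation (ev u (z i))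
    have hi0ne : ev u (z i0) ≠ 0 := by
      intro h
      have h1 := hi0 j0
      rw [h, map_zero] at h1
      exact hnz ((Valuation.zero_iff _).1 (le_antisymm h1 zero_le))
    have hlow : ∀ᶠ t in (σ.𝒰 : Filter ℕ),
        lv v (ev u (z i0)) t ≤ Real.log (nm (av v) fun i => rep (ev u (z i)) t) := by
      filter_upwards [rep_ne _ hi0ne] with t t1
      refine Real.log_le_log ((av v).pos t1) ?_
      exact le_nm (av v) (fun i => rep (ev u (z i)) t) i0
    by_cases hcase : ∀ b, (OO σ (av v)).valuation (ev u (y b)) ≤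
        (OO σ (av v)).valuation (ev u (z i0))
    · have h1 := Sm_nm v (fun i => ev u (Sum.elim z y i)) (Sum.inl i0) hi0ne
        (lv v (ev u (z i0))) (by
          rintro (i | b) hi
          · exact (val_le_iff v hi hi0ne).1 (hi0 i)
          · exact (val_le_iff v hi hi0ne).1 (hcase b))
      have hprod : ∏ b, ev u (y b) ≠ 0 := Finset.prod_ne_zero_iff.2 fun b _ => hne _
      have h2 : (OO σ (av v)).valuation (ev u W) ≤
          (OO σ (av v)).valuation (∏ b, ev u (y b)) := by
        rw [map_prod]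
        exact (hval v hv).1
      rw [val_le_iff v (ev_ne hu hS _ hW) hprod] at h2
      refine (h1.add h2).mono ?_
      filter_upwards [lv_prod v Finset.univ (fun b => ev u (y b)) fun b _ => hne _, hlow] with
        t t1 t2
      rw [t1]
      linarith
    · push Not at hcase
      obtain ⟨b1, hb1⟩ := hcase
      have _ : Nonempty (Fin m) := ⟨b1⟩
      obtain ⟨b0, hb0⟩ := Finite.exists_max fun b : Fin m => (OO σ (av v)).valuation (ev u (y b))
      have hb0z : (OO σ (av v)).valuation (ev u (z i0)) ≤ (OO σ (av v)).valuation (ev u (y b0)) :=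
        hb1.le.trans (hb0 b1)
      have h1 := Sm_nm v (fun i => ev u (Sum.elim z y i)) (Sum.inr b0) (hne b0)
        (lv v (ev u (y b0))) (by
          rintro (i | b) hi
          · exact (val_le_iff v hi (hne b0)).1 ((hi0 i).trans hb0z)
          · exact (val_le_iff v hi (hne b0)).1 (hb0 b))
      have hprod : ev u (z i0) * ∏ b ∈ Finset.univ.erase b0, ev u (y b) ≠ 0 :=
        mul_ne_zero hi0ne (Finset.prod_ne_zero_iff.2 fun b _ => hne _)
      have h2 : (OO σ (av v)).valuation (ev u W) ≤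
          (OO σ (av v)).valuation (ev u (z i0) * ∏ b ∈ Finset.univ.erase b0, ev u (y b)) := by
        rw [map_mul, map_prod]
        exact (hval v hv).2 i0 hi0 b0
      rw [val_le_iff v (ev_ne hu hS _ hW) hprod] at h2
      refine (h1.add h2).mono ?_
      filter_upwards [lv_prod v (Finset.univ.erase b0) (fun b => ev u (y b)) fun b _ => hne _,
        lv_mul v (ev u (z i0)) (∏ b ∈ Finset.univ.erase b0, ev u (y b)) hi0ne
          (Finset.prod_ne_zero_iff.2 fun b _ => hne _), hlow] with t t1 t2 t3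
      rw [t2, t1]
      have h5 := Finset.add_sum_erase Finset.univ (fun b => lv v (ev u (y b)) t)
        (Finset.mem_univ b0)
      linarith
  have hsum := Sm.sum S fun v hv => (hloc v hv).smul (wt_nonneg v)
  have hx0 : x' (Sum.inl j0) ≠ 0 := by
    intro h
    apply hz0
    have h1 := hx' (Sum.inl j0)
    rw [h, mul_zero] at h1
    exact h1
  have hz'0 : z' j0 ≠ 0 := by
    intro h
    apply hz0
    rw [hz', h, mul_zero]
  have hpe := ev_ne hu hS _ hp
  have hQe := ev_ne hu hS _ hQ
  have hyp : ∏ b, y b ≠ 0 := Finset.prod_ne_zero_iff.2 fun b _ => hy0 b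
  have e1 : ∀ᶠ t in (σ.𝒰 : Filter ℕ), ∀ i, rep (ev u (Sum.elim z y i)) t =
      rep (ev u p) t * rep (ev u (x' i)) t := by
    rw [Filter.eventually_all]
    intro i
    rw [hx' i, map_mul]
    exact rep_mul _ _
  have e2 : ∀ᶠ t in (σ.𝒰 : Filter ℕ), ∀ i, rep (ev u (z i)) t =
      rep (ev u (p * Q)) t * rep (ev u (z' i)) t := by
    rw [Filter.eventually_all]
    intro i
    rw [hz' i, map_mul _ (p * Q)]
    exact rep_mul _ _
  refine ((hsum.add (tuple_int hu hS x' (Sum.inl j0) hx0)).add
    (tuple_small hu hS z' j0 hz'0 hcz)).mono ?_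
  filter_upwards [rep_ne _ hnz, hs_prod (S := S) Finset.univ (fun b => ev u (y b))
      (fun b _ => hne b), e1, e2, rep_ne _ hpe,
    rep_ne _ (ev_ne hu hS _ (mul_ne_zero hp hQ)), hs_mul (S := S) (ev u p) (ev u Q) hpe hQe,
    hs_mul (S := S) (ev u Q) (ev u (∏ b, y b)) hQe (ev_ne hu hS _ hyp),
    rep_ne _ (ev_ne hu hS _ hx0), rep_ne _ (ev_ne hu hS _ hz'0)] with
    t t1 t2 t3 t4 t5 t6 t7 t8 t9 t10
  rw [← map_prod (ev u)] at t2
  rw [← map_mul] at t7 t8
  have k1 := logHeight_split S hS (fun i => rep (ev u (Sum.elim z y i)) t)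
    (ne_of_coord (i := Sum.inl j0) t1)
  have k2 := logHeight_split S hS (fun i => rep (ev u (z i)) t) (ne_of_coord (i := j0) t1)
  have k3 := ho_smul' S hS (fun i => rep (ev u (x' i)) t) (ne_of_coord (i := Sum.inl j0) t9)
    (rep (ev u p) t) t5
  have k4 := ho_smul' S hS (fun i => rep (ev u (z' i)) t) (ne_of_coord (i := j0) t10)
    (rep (ev u (p * Q)) t) t6
  rw [← (funext t3 : (fun i => rep (ev u (Sum.elim z y i)) t) = _)] at k3
  rw [← (funext t4 : (fun i => rep (ev u (z i)) t) = _)] at k4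
  have k5 : ∑ v ∈ S, wt v * Real.log (av v (rep (ev u p) t)) = hs S (ev u p) t := rfl
  have k6 : ∑ v ∈ S, wt v * Real.log (av v (rep (ev u (p * Q)) t)) = hs S (ev u (p * Q)) t := rfl
  rw [k5] at k3
  rw [k6, t7] at k4
  have h4 : ∑ v ∈ S, wt v * (Real.log (nm (av v) fun i => rep (ev u (Sum.elim z y i)) t) -
      Real.log (nm (av v) fun i => rep (ev u (z i)) t) +
      lv v (ev u W) t - ∑ i, lv v (ev u (y i)) t) =
      ∑ v ∈ S, wt v * Real.log (nm (av v) fun i => rep (ev u (Sum.elim z y i)) t) -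
      ∑ v ∈ S, wt v * Real.log (nm (av v) fun i => rep (ev u (z i)) t) + hs S (ev u W) t -
        ∑ i, hs S (ev u (y i)) t := by
    unfold hs
    rw [Finset.sum_comm, ← Finset.sum_sub_distrib, ← Finset.sum_add_distrib,
      ← Finset.sum_sub_distrib]
    refine Finset.sum_congr rfl fun v _ => ?_
    rw [← Finset.mul_sum]
    ring
  rw [h4, k1, k2, k3, k4, t8, t2]
  linarith

end

end Pool.Agent.Run7.h720
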