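import Pool.Agent.Run7.h720.VCore

/-!
Wronskians of polynomials with respect to weighted Euler derivations: nonvanishing, divisibility and
values.
-/

set_option autoImplicit false
set_option linter.unusedSectionVars false

namespace Pool.Agent.Run7.h720

open NumberField IsDedekindDomain Height Filter Topology
open Pool.Agent.W180.OP (Pl av wt fv fv_support_finite wt_nonneg nrm)
open Pool.Agent.K1H83.VN
open MvPolynomial (monomial)

section alg

/-- a vanishing Wronskian gives a linear relation over the constants (the argument is that of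
`Pool.Agent.TH551.HA.wronskian_dep`) -/
theorem wr_dep' {R A F : Type} [CommRing R] [CommRing A] [IsDomain A] [Algebra R A]
    [Field F] (δ : Derivation R A A) (φ : F →+* A)
    (hprop : ∀ b : A, b ≠ 0 → ∀ a : A, a * δ b = b * δ a → ∃ x : F, a = φ x * b) :
    ∀ (r : ℕ) (f : Fin r → A),
      (Matrix.of fun b l : Fin r => (δ^[(l : ℕ)]) (f b)).det = 0 →
      ∃ c : Fin r → F, c ≠ 0 ∧ ∑ b, φ (c b) * f b = 0 := by
  intro r
  induction r with
  | zero => intro f h; simp at h
  | succ r ih =>
    intro f h
    by_cases hW : (Matrix.of fun b l : Fin r => (δ^[(l : ℕ)]) (f b.succ)).det = 0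
    · obtain ⟨c, hc, hs⟩ := ih (fun b => f b.succ) hW
      refine ⟨Fin.cons 0 c, ?_, ?_⟩
      · intro h0
        apply hc
        funext b
        have := congrFun h0 b.succ
        simpa using this
      · rw [Fin.sum_univ_succ]
        simp [hs]
    · obtain ⟨a, ha, hM⟩ := Matrix.exists_vecMul_eq_zero_iff.2 h
      have hrel : ∀ l : ℕ, l < r + 1 → ∑ b, a b * (δ^[l]) (f b) = 0 := by
        intro l hl
        have := congrFun hM ⟨l, hl⟩
        simpa [Matrix.vecMul, dotProduct] using this
      have hker : ∀ u : Fin r → A, (∀ l : ℕ, l < r → ∑ b, u b * (δ^[l]) (f b.succ) = 0) →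
          u = 0 := by
        intro u hu
        by_contra hne
        apply hW
        refine Matrix.exists_vecMul_eq_zero_iff.1 ⟨u, hne, ?_⟩
        funext l
        simpa [Matrix.vecMul, dotProduct] using hu l l.2
      have ha0 : a 0 ≠ 0 := by
        intro h0
        have h1 : (fun b : Fin r => a b.succ) = 0 := by
          apply hker
          intro l hl
          have := hrel l (by omega)
          rw [Fin.sum_univ_succ, h0] at this
          simpa using this
        apply ha
        funext b
        refine Fin.cases h0 (fun b => ?_) b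
        exact congrFun h1 b
      have hrel' : ∀ l : ℕ, l < r → ∑ b, δ (a b) * (δ^[l]) (f b) = 0 := by
        intro l hl
        have h1 := hrel l (by omega)
        have h2 := hrel (l + 1) (by omega)
        have h3 := congrArg δ h1
        rw [map_sum, map_zero] at h3
        simp only [Derivation.leibniz, smul_eq_mul] at h3
        rw [Finset.sum_add_distrib] at h3
        simp only [Function.iterate_succ_apply'] at h2
        rw [h2, zero_add] at h3
        rw [← h3]
        exact Finset.sum_congr rfl fun b _ => mul_comm _ _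
      have hu : (fun b : Fin r => a 0 * δ (a b.succ) - a b.succ * δ (a 0)) = 0 := by
        apply hker
        intro l hl
        have h1 := hrel l (by omega)
        have h2 := hrel' l hl
        rw [Fin.sum_univ_succ] at h1 h2
        have e : ∑ b : Fin r, (a 0 * δ (a b.succ) - a b.succ * δ (a 0)) * (δ^[l]) (f b.succ)
            = a 0 * ∑ b : Fin r, δ (a b.succ) * (δ^[l]) (f b.succ)
              - δ (a 0) * ∑ b : Fin r, a b.succ * (δ^[l]) (f b.succ) := by
          rw [Finset.mul_sum, Finset.mul_sum, ← Finset.sum_sub_distrib]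
          exact Finset.sum_congr rfl fun b _ => by ring
        rw [e]
        have e1 : ∑ b : Fin r, δ (a b.succ) * (δ^[l]) (f b.succ) =
            - (δ (a 0) * (δ^[l]) (f 0)) := by
          linear_combination h2
        have e2 : ∑ b : Fin r, a b.succ * (δ^[l]) (f b.succ) = - (a 0 * (δ^[l]) (f 0)) := by
          linear_combination h1
        rw [e1, e2]
        ring
      have hx' : ∀ b : Fin r, ∃ x : F, a b.succ = φ x * a 0 := by
        intro b
        apply hprop (a 0) ha0
        have := congrFun hu b
        simp only [Pi.zero_apply] at this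
        linear_combination -this
      choose x hx' using hx'
      refine ⟨Fin.cons 1 x, ?_, ?_⟩
      · intro h0
        have := congrFun h0 0
        simp at this
      · apply mul_left_cancel₀ ha0
        rw [mul_zero, Fin.sum_univ_succ]
        simp only [Fin.cons_zero, Fin.cons_succ, map_one, one_mul]
        have h1 := hrel 0 (by omega)
        simp only [Function.iterate_zero, id_eq] at h1
        rw [Fin.sum_univ_succ] at h1
        have e : a 0 * ∑ b : Fin r, φ (x b) * f b.succ = ∑ b : Fin r, a b.succ * f b.succ := by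
          rw [Finset.mul_sum]
          refine Finset.sum_congr rfl fun b _ => ?_
          have := hx' b
          linear_combination (-f b.succ) * this
        rw [mul_add, e]
        linear_combination h1

variable {F : Type} [Field F] {r : ℕ}

theorem iter_support (l : Fin r → ℕ) (p : MvPolynomial (Fin r) F) (a : ℕ) :
    ((wder F l)^[a] p).support ⊆ p.support := by
  induction a with
  | zero => exact subset_rfl
  | succ a ih =>
    rw [Function.iterate_succ_apply']
    exact (wder_support l _).trans ih

/-- linearly independent polynomials have a nonzero Wronskian for some weight -/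
theorem wr_ne [CharZero F] {m : ℕ} (y : Fin m → MvPolynomial (Fin r) F)
    (hy : LinearIndependent F y) :
    ∃ l : Fin r → ℕ, (Matrix.of fun b a : Fin m => (wder F l)^[(a : ℕ)] (y b)).det ≠ 0 := by
  classical
  obtain ⟨l, hl⟩ := exists_weight (Finset.univ.biUnion fun b => (y b).support)
  refine ⟨l, fun h0 => ?_⟩
  obtain ⟨θ, hθ⟩ : ∃ θ : Derivation F (Polynomial F) (Polynomial F),
      ∀ p, θ p = Polynomial.X * Polynomial.derivative p :=
    ⟨(Polynomial.X : Polynomial F) • Polynomial.derivative', fun p => by simp⟩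
  have hit : ∀ (a : ℕ) (p : MvPolynomial (Fin r) F),
      spec l ((wder F l)^[a] p) = θ^[a] (spec l p) := by
    intro a p
    induction a with
    | zero => rfl
    | succ a ih =>
      rw [Function.iterate_succ_apply', Function.iterate_succ_apply', ← ih, hθ, spec_wder]
  have h1 : (Matrix.of fun b a : Fin m => θ^[(a : ℕ)] (spec l (y b))).det = 0 := by
    have h2 := congrArg (spec l) h0
    rw [map_zero, AlgHom.map_det] at h2
    rw [← h2]
    congr 1
    ext b a
    simp [hit]
  obtain ⟨c, hc, hs⟩ := wr_dep' θ (Polynomial.C : F →+* Polynomial F) (by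
    intro b hb a hab
    refine prop_of_wronskian a b hb ?_
    rw [hθ, hθ] at hab
    have h3 : Polynomial.X * (a * Polynomial.derivative b) =
        Polynomial.X * (b * Polynomial.derivative a) := by linear_combination hab
    exact mul_left_cancel₀ Polynomial.X_ne_zero h3) m (fun b => spec l (y b)) h1
  have h4 : spec l (∑ b, c b • y b) = 0 := by
    rw [map_sum, ← hs]
    refine Finset.sum_congr rfl fun b _ => ?_
    rw [map_smul, Polynomial.smul_eq_C_mul]
  have h5 : ∑ b, c b • y b = 0 := by
    by_contra hne
    have hsub : (∑ b, c b • y b).support ⊆ Finset.univ.biUnion fun b => (y b).support := by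
      intro e he
      rw [MvPolynomial.mem_support_iff, MvPolynomial.coeff_sum] at he
      obtain ⟨b, -, hb⟩ := Finset.exists_ne_zero_of_sum_ne_zero he
      refine Finset.mem_biUnion.2 ⟨b, Finset.mem_univ _, ?_⟩
      rw [MvPolynomial.mem_support_iff]
      intro h
      apply hb
      rw [MvPolynomial.coeff_smul, h, smul_zero]
    obtain ⟨e, he⟩ := MvPolynomial.support_nonempty.2 hne
    have h3 := spec_coeff l _ (fun a ha b hb => hl a (hsub ha) b (hsub hb)) e he
    rw [h4, Polynomial.coeff_zero] at h3
    exact MvPolynomial.mem_support_iff.1 he h3.symm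
  exact hc (funext fun b => Fintype.linearIndependent_iff.1 hy c h5 b)

/-- the maximal minors of a matrix with a kernel vector -/
theorem minor_rel {R : Type} [CommRing R] [IsDomain R] {m : ℕ} (N : Matrix (Fin m) (Fin (m + 1)) R)
    (κ : Fin (m + 1) → R) (hκ : κ ≠ 0) (hN : N.mulVec κ = 0) (i j : Fin (m + 1)) (hij : i ≠ j) :
    (-1) ^ (i : ℕ) * κ j * (N.submatrix id i.succAbove).det =
      (-1) ^ (j : ℕ) * κ i * (N.submatrix id j.succAbove).det := by
  classical
  obtain ⟨ρ, hρ⟩ : ∃ ρ : Fin (m + 1) → R, ρ = fun b =>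
      if b = i then κ j else if b = j then -κ i else 0 := ⟨_, rfl⟩
  obtain ⟨M, hM⟩ : ∃ M : Matrix (Fin (m + 1)) (Fin (m + 1)) R, M = Fin.cons ρ fun a => N a :=
    ⟨_, rfl⟩
  have hsumρ : ∀ f : Fin (m + 1) → R, ∑ b, f b * ρ b = f i * κ j - f j * κ i := by
    intro f
    rw [Finset.sum_eq_add i j hij]
    · rw [hρ]
      simp [hij.symm]
      ring
    · intro b _ hb
      rw [hρ]
      simp [hb.1, hb.2]
    · intro h
      exact absurd (Finset.mem_univ _) h
    · intro h
      exact absurd (Finset.mem_univ _) h
  have hMκ : M.mulVec κ = 0 := by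
    funext a
    refine Fin.cases ?_ (fun a => ?_) a
    · have h1 := hsumρ κ
      have h2 : M.mulVec κ 0 = ∑ b, ρ b * κ b := by
        rw [hM]
        rfl
      rw [h2, Pi.zero_apply]
      have h3 : ∑ b, ρ b * κ b = ∑ b, κ b * ρ b :=
        Finset.sum_congr rfl fun b _ => mul_comm _ _
      rw [h3, h1]
      ring
    · have h2 : M.mulVec κ a.succ = N.mulVec κ a := by
        rw [hM]
        rfl
      rw [h2, hN]
      rfl
  have hdet : M.det = 0 := Matrix.exists_mulVec_eq_zero_iff.1 ⟨κ, hκ, hMκ⟩
  rw [Matrix.det_succ_row_zero] at hdet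
  have h1 : ∀ b : Fin (m + 1), (-1) ^ (b : ℕ) * M 0 b * (M.submatrix Fin.succ b.succAbove).det =
      ((-1) ^ (b : ℕ) * (N.submatrix id b.succAbove).det) * ρ b := by
    intro b
    have e1 : M 0 b = ρ b := by rw [hM]; rfl
    have e2 : M.submatrix Fin.succ b.succAbove = N.submatrix id b.succAbove := by
      rw [hM]
      rfl
    rw [e1, e2]
    ring
  rw [Finset.sum_congr rfl fun b _ => h1 b, hsumρ] at hdet
  linear_combination hdet

/-- divisibility of iterated derivatives -/
theorem iter_dvd {k R : Type} [Field k] [CommRing R] [Algebra k R] (D : Derivation k R R)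
    (π p : R) (n a : ℕ) (h : π ^ n ∣ p) : π ^ (n - a) ∣ D^[a] p := by
  induction a with
  | zero => exact h
  | succ a ih =>
    rw [Function.iterate_succ_apply']
    rcases Nat.eq_zero_or_pos (n - a) with h0 | h0
    · have : n - (a + 1) = 0 := by omega
      rw [this, pow_zero]
      exact one_dvd _
    · obtain ⟨c, hc⟩ := Nat.exists_eq_succ_of_ne_zero h0.ne'
      have h1 : n - (a + 1) = c := by omega
      rw [h1]
      rw [hc] at ih
      exact dvd_der D π _ c ih

/-- divisibility of Wronskians -/
theorem wr_dvd {k R : Type} [Field k] [CommRing R] [Algebra k R] (D : Derivation k R R)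
    {m : ℕ} (π : R) (y : Fin m → R) (e : Fin m → ℕ) (he : ∀ b, π ^ e b ∣ y b) (L n : ℕ)
    (hL : ∀ τ : Equiv.Perm (Fin m), ∑ b, e b ≤ ∑ a, (e (τ a) - a) + L) (hn : n + L ≤ ∑ b, e b) :
    π ^ n ∣ (Matrix.of fun b a : Fin m => D^[(a : ℕ)] (y b)).det := by
  classical
  rw [Matrix.det_apply]
  refine Finset.dvd_sum fun τ _ => ?_
  rw [Units.smul_def, zsmul_eq_mul]
  refine dvd_mul_of_dvd_right ?_ _
  have h1 : π ^ (∑ a, (e (τ a) - (a : ℕ))) ∣
      ∏ i, (Matrix.of fun b a : Fin m => D^[(a : ℕ)] (y b)) (τ i) i := by
    rw [← Finset.prod_pow_eq_pow_sum]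
    exact Finset.prod_dvd_prod_of_dvd _ _ fun a _ => iter_dvd D π _ _ _ (he (τ a))
  refine (pow_dvd_pow π ?_).trans h1
  have := hL τ
  omega

/-- the loss for a general tuple -/
theorem loss_gen {m : ℕ} (e : Fin m → ℕ) (τ : Equiv.Perm (Fin m)) :
    ∑ b, e b ≤ ∑ a, (e (τ a) - (a : ℕ)) + m * (m - 1) / 2 := by
  have h1 : ∑ a : Fin m, (a : ℕ) = m * (m - 1) / 2 := by
    rw [Fin.sum_univ_eq_sum_range (fun i => i) m, Finset.sum_range_id]
  rw [← Equiv.sum_comp τ, ← h1, ← Finset.sum_add_distrib]
  exact Finset.sum_le_sum fun a _ => by omega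

/-- the loss for a tuple with at most one entry which is not prime to `π` -/
theorem loss_one {m : ℕ} (e : Fin m → ℕ) (he : ∀ b b', e b ≠ 0 → e b' ≠ 0 → b = b')
    (τ : Equiv.Perm (Fin m)) : ∑ b, e b ≤ ∑ a, (e (τ a) - (a : ℕ)) + (m - 1) := by
  classical
  by_cases h : ∃ b, e b ≠ 0
  · obtain ⟨b, hb⟩ := h
    have h1 : ∑ b', e b' = e b := by
      refine Finset.sum_eq_single b (fun b' _ hb' => ?_) (fun h => absurd (Finset.mem_univ _) h)
      by_contra h2
      exact hb' (he b' b h2 hb)
    have h2 : e (τ (τ.symm b)) - ((τ.symm b : Fin m) : ℕ) ≤ ∑ a, (e (τ a) - (a : ℕ)) :=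
      Finset.single_le_sum (f := fun a : Fin m => e (τ a) - (a : ℕ)) (fun _ _ => Nat.zero_le _)
        (Finset.mem_univ _)
    rw [Equiv.apply_symm_apply] at h2
    have h3 : ((τ.symm b : Fin m) : ℕ) < m := (τ.symm b).2
    omega
  · push Not at h
    rw [Finset.sum_eq_zero fun b _ => h b]
    exact Nat.zero_le _

end alg

end Pool.Agent.Run7.h720
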