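import Pool.Agent.Run7.h720.Gcd2

/-!
The part prime to `S` of the value of a polynomial with at least two terms is large; classes of
terms in vanishing sums.
-/

set_option autoImplicit false
set_option linter.unusedSectionVars false

namespace Pool.Agent.Run7.h720

open NumberField IsDedekindDomain Height Filter Topology
open Pool.Agent.W180.OP (Pl av wt fv fv_support_finite wt_nonneg nrm)
open Pool.Agent.K1H83.VN

variable {k : Type} [Field k] [NumberField k] {σ : Sc} {S : Finset (Pl k)} {r : ℕ}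

theorem Sm.max' {f g : ℕ → ℝ} (hf : Sm σ f) (hg : Sm σ g) : Sm σ fun t => max (f t) (g t) := by
  intro ε hε
  filter_upwards [hf ε hε, hg ε hε] with t h1 h2
  exact max_le h1 h2

/-- the height of a quotient of units -/
theorem height_units (hS : ∀ w : InfinitePlace k, Sum.inl w ∈ S) (x y : k) (hx : IsSU S x)
    (hy : IsSU S y) : logHeight₁ (x / y) ≤
      ∑ v ∈ S, wt v * max (Real.log (av v x)) (Real.log (av v y)) := by
  rw [logHeight₁_div_eq_logHeight, logHeight_split S hS _ (ne_of_coord (i := (0 : Fin 2)) hx.1)]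
  have h1 : ho S ![x, y] ≤ 0 := by
    refine ho_nonpos S _ (ne_of_coord (i := (0 : Fin 2)) hx.1) fun v hv => ?_
    refine nm_le _ zero_le_one fun i => ?_
    fin_cases i
    · exact (hx.2 v hv).le
    · exact (hy.2 v hv).le
  have h2 : ∀ v ∈ S, wt v * Real.log (nm (av v) ![x, y]) ≤
      wt v * max (Real.log (av v x)) (Real.log (av v y)) := by
    intro v _
    refine mul_le_mul_of_nonneg_left ?_ (wt_nonneg v)
    obtain ⟨i, hi⟩ := exists_nm (av v) ![x, y]
    rw [← hi]
    fin_cases i
    · exact le_max_left _ _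
    · exact le_max_right _ _
  have h3 := Finset.sum_le_sum h2
  linarith

/-- the `S`-part of a sum of at least two independent terms -/
theorem two_terms {u : Fin r → G k σ} (hu : Indep S u)
    (hS : ∀ w : InfinitePlace k, Sum.inl w ∈ S) (p : MvPolynomial (Fin r) (FF k σ))
    (e1 e2 : Fin r →₀ ℕ) (h1 : e1 ∈ p.support) (h2 : e2 ∈ p.support) (h12 : e1 ≠ e2) :
    ¬ Sm σ fun t => ∑ v ∈ S, wt v * lv v (ev u p) t := by
  intro hs
  have hne : ev u p ≠ 0 := ev_ne hu hS p fun h => by
    rw [h] at h1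
    simp at h1
  have hval : ∀ v ∈ S, ∀ e ∈ p.support, Sm σ fun t => lv v (mon u e) t - lv v (ev u p) t := by
    intro v hv e he
    rw [← val_le_iff v (mon_ne hu e) hne]
    have h3 := lb hS (fun e : p.support => mon u e.1) (fun e => mon_SU hu _)
      (fun e => mon_BB hu _) (fun i j hij => mon_ratio hu _ _ fun h => hij (Subtype.ext h))
      (fun e => ((MvPolynomial.coeff e.1 p : FF k σ) : G k σ))
      (fun e => (MvPolynomial.coeff e.1 p : FF k σ).2)
      (fun e h => (MvPolynomial.mem_support_iff.1 e.2) (Subtype.ext h)) v hv ⟨e, he⟩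
    rw [ev_eq, ← Finset.sum_coe_sort]
    exact h3
  apply mon_ratio hu e1 e2 h12
  rw [mem_FF]
  have h3 : Sm σ fun t => ∑ v ∈ S, wt v * max (lv v (mon u e1) t - lv v (ev u p) t)
      (lv v (mon u e2) t - lv v (ev u p) t) :=
    Sm.sum _ fun v hv => (Sm.max' (hval v hv e1 h1) (hval v hv e2 h2)).smul (wt_nonneg v)
  refine (h3.add hs).mono ?_
  filter_upwards [mon_SU hu e1, mon_SU hu e2, rep_div (mon u e1) (mon u e2)] with t t1 t2 t3
  rw [t3]
  refine (height_units hS _ _ t1 t2).trans (le_of_eq ?_)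
  rw [← Finset.sum_add_distrib]
  refine Finset.sum_congr rfl fun v _ => ?_
  rw [← mul_add, max_sub_sub_right, sub_add_cancel]
  rfl

/-- in a vanishing sum of unit germs with small coefficients, the terms in one class modulo the
germs of small height have sum zero -/
theorem class_sum (hS : ∀ w : InfinitePlace k, Sum.inl w ∈ S) {ι : Type} [Fintype ι]
    (U : ι → G k σ) (hU : ∀ i, SU S (U i)) (hB : ∀ i, U i ∈ BB k σ) (c : ι → G k σ)
    (hc : ∀ i, c i ∈ FF k σ) (hsum : ∑ i, c i * U i = 0) (i0 : ι) (A : Finset ι)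
    (hA : ∀ i, i ∈ A ↔ U i / U i0 ∈ FF k σ) : ∑ i ∈ A, c i * U i = 0 := by
  classical
  have hg : ∀ i, U i ≠ 0 := fun i => (hU i).ne_zero
  let s : Setoid ι := ⟨fun i j => U i / U j ∈ FF k σ,
    ⟨fun i => by rw [div_self (hg i)]; exact (FF k σ).one_mem,
     fun {i j} h => by rw [← inv_div]; exact (FF k σ).inv_mem h,
     fun {i j l} h1 h2 => by
      rw [← div_mul_div_cancel₀ (hg j)]; exact (FF k σ).mul_mem h1 h2⟩⟩
  have hs : ∀ i j : ι, (Quotient.mk s i = Quotient.mk s j) ↔ U i / U j ∈ FF k σ :=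
    fun i j => Quotient.eq
  have hft : Fintype (Quotient s) := Fintype.ofFinite _
  have hrp : ∀ i : ι, U i / U (Quotient.mk s i).out ∈ FF k σ := by
    intro i
    rw [← hs, Quotient.out_eq]
  obtain ⟨d, hd⟩ : ∃ d : Quotient s → G k σ, d = fun q =>
      ∑ i with Quotient.mk s i = q, c i * (U i / U (Quotient.mk s i).out) := ⟨_, rfl⟩
  have hdF : ∀ q, d q ∈ FF k σ := by
    intro q
    rw [hd]
    exact (FF k σ).sum_mem fun i _ => (FF k σ).mul_mem (hc i) (hrp i)
  have hdq : ∀ q : Quotient s, d q * U q.out = ∑ i with Quotient.mk s i = q, c i * U i := by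
    intro q
    rw [hd]
    simp only
    rw [Finset.sum_mul]
    refine Finset.sum_congr rfl fun i hi => ?_
    rw [Finset.mem_filter] at hi
    obtain ⟨-, rfl⟩ := hi
    rw [mul_assoc]
    congr 1
    exact div_mul_cancel₀ _ (hg _)
  have h0 := sui hS (fun q : Quotient s => U q.out) (fun q => hU _) (fun q => hB _)
    (fun q q' hqq h => by
      apply hqq
      rw [← hs, Quotient.out_eq, Quotient.out_eq] at h
      exact h) d hdF (by
      rw [Finset.sum_congr rfl fun q _ => hdq q, Finset.sum_fiberwise]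
      exact hsum) (Quotient.mk s i0)
  have h1 : A = Finset.univ.filter fun i => Quotient.mk s i = Quotient.mk s i0 := by
    ext i
    rw [hA, Finset.mem_filter, hs]
    simp
  rw [h1, ← hdq, h0, zero_mul]

end Pool.Agent.Run7.h720
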