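import Pool.Agent.Run7.h720.Bd
import Pool.Agent.Helper259.HtExt

/-!
Preparations for the theorem on sparse integers: the field of the roots, the finite set of places,
heights of integers.
-/

set_option autoImplicit false
set_option linter.unusedSectionVars false

namespace Pool.Agent.Run7.h720

open NumberField IsDedekindDomain Height Filter Topology
open Pool.Agent.W180.OP (Pl av wt fv fv_support_finite wt_nonneg nrm)
open Pool.Agent.K1H83.VN

theorem aeval_hom {R S : Type} [CommRing R] [CommRing S] (f : R →+* S) (p : Polynomial ℤ)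
    (x : R) : Polynomial.aeval (f x) p = f (Polynomial.aeval x p) := by
  rw [Polynomial.aeval_def, Polynomial.aeval_def, Polynomial.hom_eval₂]
  congr 1
  exact Subsingleton.elim _ _

/-- a number field which contains three simple roots -/
theorem exists_field (P : Polynomial ℤ) (a : Fin 3 → ℂ) (ha : Function.Injective a)
    (h0 : ∀ i, Polynomial.aeval (a i) P = 0)
    (h1 : ∀ i, Polynomial.aeval (a i) (Polynomial.derivative P) ≠ 0)
    (K : Type) [Field K] [NumberField K] :
    ∃ (L : Type) (_ : Field L) (_ : NumberField L) (_ : Algebra K L) (α : Fin 3 → L),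
      Function.Injective α ∧ ∀ i, Polynomial.aeval (α i) P = 0 ∧
        Polynomial.aeval (α i) (Polynomial.derivative P) ≠ 0 := by
  classical
  have hP : P ≠ 0 := by
    rintro rfl
    exact h1 0 (by simp)
  have halg : ∀ i, IsAlgebraic ℚ (a i) := by
    intro i
    refine ⟨P.map (Int.castRingHom ℚ), ?_, ?_⟩
    · rw [Ne, Polynomial.map_eq_zero_iff (RingHom.injective_int (Int.castRingHom ℚ))]
      exact hP
    · have h2 := h0 i
      rw [Polynomial.aeval_def] at h2 ⊢
      rw [Polynomial.eval₂_map]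
      rw [← h2]
      congr 1
  let E : IntermediateField ℚ ℂ := IntermediateField.adjoin ℚ (Set.range a)
  have hE : Algebra.IsAlgebraic ℚ E := IntermediateField.isAlgebraic_adjoin fun x hx => by
    obtain ⟨i, rfl⟩ := hx
    exact (halg i).isIntegral
  let _ : Algebra ℚ (AlgebraicClosure K) := DivisionRing.toRatAlgebra
  let f : E →ₐ[ℚ] AlgebraicClosure K := IsAlgClosed.lift
  let b : Fin 3 → E := fun i => ⟨a i, IntermediateField.subset_adjoin ℚ _ ⟨i, rfl⟩⟩
  have hb : ∀ i, E.val.toRingHom (b i) = a i := fun i => rfl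
  obtain ⟨L, iF, iN, iA, -, φ, -, hφ⟩ := Pool.Agent.R847.SN.exists_gal K
    (Set.range fun i => f (b i)) (Set.finite_range _)
  have hφ' : ∀ i, ∃ y, φ y = f (b i) := fun i => hφ _ ⟨i, rfl⟩
  choose α hα using hφ'
  have hval : ∀ (Q : Polynomial ℤ) i, Polynomial.aeval (α i) Q = 0 ↔
      Polynomial.aeval (a i) Q = 0 := by
    intro Q i
    have e1 := aeval_hom φ.toRingHom Q (α i)
    have e2 := aeval_hom f.toRingHom Q (b i)
    have e3 := aeval_hom E.val.toRingHom Q (b i)
    have e4 : φ.toRingHom (α i) = f.toRingHom (b i) := hα i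
    rw [e4, e2] at e1
    rw [hb] at e3
    rw [e3]
    constructor
    · intro h
      rw [h, map_zero] at e1
      have e5 : Polynomial.aeval (b i) Q = 0 := f.toRingHom.injective (e1.trans (map_zero _).symm)
      rw [e5, map_zero]
    · intro h
      have e5 : Polynomial.aeval (b i) Q = 0 :=
        E.val.toRingHom.injective (h.trans (map_zero _).symm)
      rw [e5, map_zero] at e1
      exact φ.toRingHom.injective (e1.symm.trans (map_zero _).symm)
  refine ⟨L, iF, iN, iA, α, ?_, fun i => ⟨(hval P i).2 (h0 i), fun h => h1 i ((hval _ i).1 h)⟩⟩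
  intro i j hij
  apply ha
  have e1 : f (b i) = f (b j) := by rw [← hα i, ← hα j, hij]
  have e2 : b i = b j := f.toRingHom.injective e1
  exact congrArg Subtype.val e2

/-- integers are integral at the finite places -/
theorem fv_int {k : Type} [Field k] [NumberField k] (v : HeightOneSpectrum (𝓞 k)) (n : ℤ) :
    fv v (n : k) ≤ 1 := by
  have h1 : ∀ m : ℕ, fv v (m : k) ≤ 1 := by
    intro m
    induction m with
    | zero => simp
    | succ m ih =>
      rw [Nat.cast_succ]
      refine (fv_na v _ _).trans (max_le ih ?_)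
      rw [map_one]
  obtain ⟨m, rfl | rfl⟩ := Int.eq_nat_or_neg n
  · rw [Int.cast_natCast]
    exact h1 m
  · rw [Int.cast_neg, Int.cast_natCast, AbsoluteValue.map_neg]
    exact h1 m

/-- polynomials with integral coefficients at integral points -/
theorem fv_eval {k : Type} [Field k] [NumberField k] (v : HeightOneSpectrum (𝓞 k))
    (Q : Polynomial k) (hQ : ∀ j, fv v (Q.coeff j) ≤ 1) (n : k) (hn : fv v n ≤ 1) :
    fv v (Q.eval n) ≤ 1 := by
  rw [Polynomial.eval_eq_sum_range]
  refine na_sum (fv v) (fv_na v) _ _ _ zero_le_one fun j _ => ?_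
  rw [map_mul, map_pow]
  exact mul_le_one₀ (hQ j) (pow_nonneg ((fv v).nonneg _) _)
    (pow_le_one₀ ((fv v).nonneg _) hn)

/-- a finite set of places for finitely many elements and a finitely generated group -/
theorem exists_places {K L : Type} [Field K] [Field L] [NumberField L] (f : K →+* L)
    (Γ : Subgroup Kˣ) (hΓ : Γ.FG) (T : Finset L) :
    ∃ S : Finset (Pl L), (∀ w : InfinitePlace L, Sum.inl w ∈ S) ∧
      (∀ γ ∈ Γ, IsSU S (f (γ : K))) ∧
      ∀ v : HeightOneSpectrum (𝓞 L), Sum.inr v ∉ S → ∀ x ∈ T, fv v x ≤ 1 := by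
  classical
  obtain ⟨T0, hT0⟩ := hΓ
  have hfin : (⋃ x : {x : L // x ≠ 0 ∧ (x ∈ T ∨ ∃ γ ∈ T0, f (γ : K) = x)},
      {v : HeightOneSpectrum (𝓞 L) | fv v x.1 ≠ 1}).Finite := by
    have : Finite {x : L // x ≠ 0 ∧ (x ∈ T ∨ ∃ γ ∈ T0, f (γ : K) = x)} := by
      refine Set.Finite.to_subtype (s := {x : L | x ≠ 0 ∧ (x ∈ T ∨ ∃ γ ∈ T0, f (γ : K) = x)}) ?_
      refine (T.finite_toSet.union (T0.finite_toSet.image fun γ : Kˣ => f (γ : K))).subset ?_
      rintro x ⟨-, h | ⟨γ, h1, h2⟩⟩
      · exact Or.inl h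
      · exact Or.inr ⟨γ, h1, h2⟩
    exact Set.finite_iUnion fun x => fv_support_finite x.2.1
  let S : Finset (Pl L) := (Finset.univ.map ⟨Sum.inl, Sum.inl_injective⟩) ∪
    (hfin.toFinset.map ⟨Sum.inr, Sum.inr_injective⟩)
  have hS : ∀ v : HeightOneSpectrum (𝓞 L), Sum.inr v ∉ S → ∀ x : L, x ≠ 0 →
      (x ∈ T ∨ ∃ γ ∈ T0, f (γ : K) = x) → fv v x = 1 := by
    intro v hv x hx0 hx
    by_contra hne
    apply hv
    refine Finset.mem_union_right _ (Finset.mem_map.2 ⟨v, ?_, rfl⟩)
    rw [Set.Finite.mem_toFinset]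
    exact Set.mem_iUnion.2 ⟨⟨x, hx0, hx⟩, hne⟩
  refine ⟨S, fun w => Finset.mem_union_left _ (Finset.mem_map_of_mem _ (Finset.mem_univ w)),
    ?_, ?_⟩
  · intro γ hγ
    rw [← hT0] at hγ
    induction hγ using Subgroup.closure_induction with
    | mem γ hγ =>
      have h0 : f (γ : K) ≠ 0 := (map_ne_zero f).2 γ.ne_zero
      exact ⟨h0, fun v hv => hS v hv _ h0 (Or.inr ⟨γ, hγ, rfl⟩)⟩
    | one =>
      rw [Units.val_one, map_one]
      exact IsSU.one S
    | mul x y _ _ hx hy =>
      rw [Units.val_mul, map_mul]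
      exact hx.mul hy
    | inv x _ hx =>
      rw [Units.val_inv_eq_inv_val, map_inv₀]
      exact hx.inv
  · intro v hv x hx
    by_cases h0 : x = 0
    · rw [h0, map_zero]
      exact zero_le_one
    · exact (hS v hv x h0 (Or.inl hx)).le

theorem height_ext {K L : Type} [Field K] [NumberField K] [Field L] [NumberField L]
    [Algebra K L] (a : K) :
    logHeight₁ (algebraMap K L a) = Module.finrank K L * logHeight₁ a := by
  rw [logHeight₁_eq_logHeight, logHeight₁_eq_logHeight,
    ← Pool.Agent.Helper259.HtExt.logHeight_ext (K := K) (L := L)]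
  congr 1
  funext i
  fin_cases i
  · rfl
  · simp

/-- the height of an integer -/
theorem height_int {L : Type} [Field L] [NumberField L] (n : ℤ) (hn : n ≠ 0) :
    logHeight₁ (n : L) = Module.finrank ℚ L * Real.log |(n : ℝ)| := by
  have h1 : (n : L) = algebraMap ℚ L (n : ℚ) := by simp
  rw [h1, height_ext]
  congr 1
  rw [Rat.logHeight₁_eq_log_max]
  congr 1
  have h2 : 1 ≤ n.natAbs := Nat.one_le_iff_ne_zero.2 (Int.natAbs_ne_zero.2 hn)
  rw [Rat.num_intCast, Rat.den_intCast, max_eq_left h2, Nat.cast_natAbs, Int.cast_abs]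

/-- the size of the values of a polynomial -/
theorem poly_growth (P : Polynomial ℤ) : ∃ C : ℝ, 0 ≤ C ∧ ∀ n : ℤ, 3 ≤ |(n : ℝ)| →
    P.eval n ≠ 0 → Real.log |((P.eval n : ℤ) : ℝ)| ≤ C * Real.log |(n : ℝ)| := by
  obtain ⟨A, hA⟩ : ∃ A : ℝ, A = ∑ j ∈ Finset.range (P.natDegree + 1), |((P.coeff j : ℤ) : ℝ)| :=
    ⟨_, rfl⟩
  have hA0 : 0 ≤ A := by
    rw [hA]
    exact Finset.sum_nonneg fun j _ => abs_nonneg _
  refine ⟨A + P.natDegree, by positivity, fun n hn hP => ?_⟩
  have hn1 : (1 : ℝ) ≤ |(n : ℝ)| := by linarith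
  have h1 : |((P.eval n : ℤ) : ℝ)| ≤ A * |(n : ℝ)| ^ P.natDegree := by
    rw [Polynomial.eval_eq_sum_range]
    push_cast
    refine (Finset.abs_sum_le_sum_abs _ _).trans ?_
    rw [hA, Finset.sum_mul]
    refine Finset.sum_le_sum fun j hj => ?_
    rw [abs_mul, abs_pow]
    refine mul_le_mul_of_nonneg_left ?_ (abs_nonneg _)
    exact pow_le_pow_right₀ hn1 (Nat.lt_succ_iff.1 (Finset.mem_range.1 hj))
  have h2 : (0 : ℝ) < |((P.eval n : ℤ) : ℝ)| := abs_pos.2 (by exact_mod_cast hP)
  have h3 : 0 < A := by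
    by_contra h
    have h4 : A = 0 := le_antisymm (not_lt.1 h) hA0
    rw [h4, zero_mul] at h1
    linarith
  have h4 : Real.log |((P.eval n : ℤ) : ℝ)| ≤ Real.log A + P.natDegree * Real.log |(n : ℝ)| := by
    rw [← Real.log_pow, ← Real.log_mul h3.ne' (by positivity)]
    exact Real.log_le_log h2 h1
  have h5 : Real.log A ≤ A := (Real.log_le_sub_one_of_pos h3).trans (by linarith)
  have h6 : 1 ≤ Real.log |(n : ℝ)| := by
    have h7 : Real.exp 1 ≤ |(n : ℝ)| := Real.exp_one_lt_d9.le.trans (by linarith)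
    rw [← Real.log_exp 1]
    exact Real.log_le_log (Real.exp_pos 1) h7
  nlinarith

end Pool.Agent.Run7.h720
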