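import Pool.Agent.Run7.h720.Main

/-!
Preparations for the theorems on sparse numbers, general form.
-/

set_option autoImplicit false
set_option linter.unusedSectionVars false

namespace Pool.Agent.Run7.h720

open NumberField IsDedekindDomain Height Filter Topology
open Pool.Agent.W180.OP (Pl av wt fv fv_support_finite wt_nonneg nrm)
open Pool.Agent.K1H83.VN

/-- a number field over `K` which contains given algebraic numbers -/
theorem exists_field' (P : Polynomial ℤ) (hP : P ≠ 0) {ι : Type} [Finite ι] (a : ι → ℂ)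
    (ha : Function.Injective a) (h0 : ∀ i, Polynomial.aeval (a i) P = 0)
    (K : Type) [Field K] [NumberField K] :
    ∃ (L : Type) (_ : Field L) (_ : NumberField L) (_ : Algebra K L) (α : ι → L),
      Function.Injective α ∧ ∀ (Q : Polynomial ℤ) i, Polynomial.aeval (α i) Q = 0 ↔
        Polynomial.aeval (a i) Q = 0 := by
  classical
  have halg : ∀ i, IsAlgebraic ℚ (a i) := by
    intro i
    refine ⟨P.map (Int.castRingHom ℚ), ?_, ?_⟩
    · rw [Ne, Polynomial.map_eq_zero_iff (RingHom.injective_int (Int.castRingHom ℚ))]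
      exact hP
    · have h2 := h0 i
      rw [Polynomial.aeval_def] at h2 ⊢
      rw [Polynomial.eval₂_map]
      rw [← h2]
      congr 1
  let E : IntermediateField ℚ ℂ := IntermediateField.adjoin ℚ (Set.range a)
  have hE : Algebra.IsAlgebraic ℚ E := IntermediateField.isAlgebraic_adjoin fun x hx => by
    obtain ⟨i, rfl⟩ := hx
    exact (halg i).isIntegral
  let _ : Algebra ℚ (AlgebraicClosure K) := DivisionRing.toRatAlgebra
  let f : E →ₐ[ℚ] AlgebraicClosure K := IsAlgClosed.lift
  let b : ι → E := fun i => ⟨a i, IntermediateField.subset_adjoin ℚ _ ⟨i, rfl⟩⟩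
  have hb : ∀ i, E.val.toRingHom (b i) = a i := fun i => rfl
  obtain ⟨L, iF, iN, iA, -, φ, -, hφ⟩ := Pool.Agent.R847.SN.exists_gal K
    (Set.range fun i => f (b i)) (Set.finite_range _)
  have hφ' : ∀ i, ∃ y, φ y = f (b i) := fun i => hφ _ ⟨i, rfl⟩
  choose α hα using hφ'
  have hval : ∀ (Q : Polynomial ℤ) i, Polynomial.aeval (α i) Q = 0 ↔
      Polynomial.aeval (a i) Q = 0 := by
    intro Q i
    have e1 := aeval_hom φ.toRingHom Q (α i)
    have e2 := aeval_hom f.toRingHom Q (b i)
    have e3 := aeval_hom E.val.toRingHom Q (b i)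
    have e4 : φ.toRingHom (α i) = f.toRingHom (b i) := hα i
    rw [e4, e2] at e1
    rw [hb] at e3
    rw [e3]
    constructor
    · intro h
      rw [h, map_zero] at e1
      have e5 : Polynomial.aeval (b i) Q = 0 := f.toRingHom.injective (e1.trans (map_zero _).symm)
      rw [e5, map_zero]
    · intro h
      have e5 : Polynomial.aeval (b i) Q = 0 :=
        E.val.toRingHom.injective (h.trans (map_zero _).symm)
      rw [e5, map_zero] at e1
      exact φ.toRingHom.injective (e1.symm.trans (map_zero _).symm)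
  refine ⟨L, iF, iN, iA, α, ?_, hval⟩
  intro i j hij
  apply ha
  have e1 : f (b i) = f (b j) := by rw [← hα i, ← hα j, hij]
  have e2 : b i = b j := f.toRingHom.injective e1
  exact congrArg Subtype.val e2

/-- the representation of a short element by germs -/
theorem short_rep {K L : Type} [Field K] [NumberField K] [Field L] [NumberField L]
    [Algebra K L] {σ : Sc} (h𝒰 : (σ.𝒰 : Filter ℕ) ≤ atTop) {S : Finset (Pl L)}
    (hS : ∀ w : InfinitePlace L, Sum.inl w ∈ S) (Γ : Subgroup Kˣ)
    (hSΓ : ∀ γ ∈ Γ, IsSU S (algebraMap K L (γ : K))) (r : ℕ) (B : ℝ) (n : ℕ → ℝ)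
    (hn1 : ∀ t, 1 ≤ n t) (hσL : ∀ t, σ.L t = Real.log (n t)) (x : ℕ → K)
    (hx : ∀ t, Short Γ r (B * n t ^ (1 / ((t : ℝ) + 1))) (x t))
    (hxB : ∃ C : ℝ, ∀ᶠ t in (σ.𝒰 : Filter ℕ), logHeight₁ (algebraMap K L (x t)) ≤ C * σ.L t) :
    ∃ c γ : Fin r → G L σ, gm σ (fun t => algebraMap K L (x t)) = ∑ j, c j * γ j ∧
      (∀ j, c j ∈ FF L σ) ∧ (∀ j, SU S (γ j)) ∧ ∀ j, γ j ∈ BB L σ := by
  have h2 := fun t => reduced_rep (x t)
    (fun c => c = 0 ∨ mulHeight₁ c ≤ B * n t ^ (1 / ((t : ℝ) + 1)))
    (fun g => ∃ γ ∈ Γ, g = (γ : K)) (Or.inl rfl) ⟨1, Γ.one_mem, by simp⟩ (by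
      obtain ⟨c, γ, e1, e2, e3⟩ := hx t
      exact ⟨c, fun j => (γ j : K), fun j => Or.inr (e2 j), fun j => ⟨γ j, e1 j, rfl⟩, e3⟩)
  choose c γ e1 e2 e3 e4 e5 using h2
  have hcF : ∀ j, gm σ (fun t => algebraMap K L (c t j)) ∈ FF L σ := fun j =>
    coef_small h𝒰 B n hn1 hσL (fun t => c t j) fun t => e1 t j
  have hγS : ∀ j t, IsSU S (algebraMap K L (γ t j)) := by
    intro j t
    obtain ⟨g, hg, hg2⟩ := e2 t j
    rw [hg2]
    exact hSΓ g hg
  have hsum : ∀ t, algebraMap K L (x t) =
      ∑ j, algebraMap K L (c t j) * algebraMap K L (γ t j) := by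
    intro t
    rw [e3 t, map_sum]
    exact Finset.sum_congr rfl fun j _ => map_mul _ _ _
  have hbd := bounded_units (σ := σ) hS (fun t => algebraMap K L (x t))
    (fun j t => algebraMap K L (c t j)) (fun j t => algebraMap K L (γ t j)) hsum hγS hcF hxB
    (by
      intro j t h
      have h3 : c t j = 0 := (map_eq_zero _).1 h
      show algebraMap K L (γ t j) = 1
      rw [e4 t j h3, map_one]) (by
      rintro t A ⟨j, hj, hcj⟩ h
      have h3 : algebraMap K L (∑ j ∈ A, c t j * γ t j) = 0 := by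
        rw [← h, map_sum]
        exact Finset.sum_congr rfl fun j _ => map_mul _ _ _
      exact e5 t A ⟨j, hj, fun h4 => hcj (by
        show algebraMap K L (c t j) = 0
        rw [h4, map_zero])⟩ ((map_eq_zero _).1 h3))
  refine ⟨fun j => gm σ (fun t => algebraMap K L (c t j)),
    fun j => gm σ (fun t => algebraMap K L (γ t j)), ?_, hcF, ?_, hbd⟩
  · have h3 : (fun t => algebraMap K L (x t)) = ∑ j, (fun t => algebraMap K L (c t j)) *
        (fun t => algebraMap K L (γ t j)) := by
      funext t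
      rw [Finset.sum_apply]
      exact hsum t
    rw [h3, map_sum]
    exact Finset.sum_congr rfl fun j _ => map_mul _ _ _
  · intro j
    filter_upwards [rep_gm (σ := σ) (fun t => algebraMap K L (γ t j))] with t ht
    rw [ht]
    exact hγS j t

end Pool.Agent.Run7.h720
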