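import Pool.Agent.Run7.h720.Prep2
import Pool.Agent.Run7.h720.Excess

/-!
Short representations of points of projective spaces and of elements up to units: reduced
representations, boundedness of the heights of the units.
-/

set_option autoImplicit false
set_option linter.unusedSectionVars false

namespace Pool.Agent.Run7.h720

open NumberField IsDedekindDomain Height Filter Topology
open Pool.Agent.W180.OP (Pl av wt fv fv_support_finite wt_nonneg nrm)
open Pool.Agent.K1H83.VN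
open MvPolynomial (monomial)

/-- the vector `x` is a sum of `r` terms `γ * c`, `γ` in `Γ` and `c` a vector with entries of height at
most `R` -/
def PShort {K ι : Type} [Field K] [NumberField K] (Γ : Subgroup Kˣ) (r : ℕ) (R : ℝ)
    (x : ι → K) : Prop :=
  ∃ (c : Fin r → ι → K) (γ : Fin r → Kˣ), (∀ j, γ j ∈ Γ) ∧
    (∀ j i, mulHeight₁ (c j i) ≤ R) ∧ ∀ i, x i = ∑ j, c j i * (γ j : K)

/-- a representation of a point with the smallest number of terms -/
theorem reduced_proj {K J ι : Type} [Field K] [Fintype J] (x : ι → K) (hx : x ≠ 0)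
    (Γ : Subgroup Kˣ) (Rc : K → Prop) (hR0 : Rc 0)
    (h : ∃ (c : J → ι → K) (γ : J → Kˣ), (∀ j, γ j ∈ Γ) ∧ (∀ j i, Rc (c j i)) ∧
      ∀ i, x i = ∑ j, c j i * (γ j : K)) :
    ∃ (μ : K) (c : J → ι → K) (γ : J → Kˣ), μ ≠ 0 ∧ (∀ j, γ j ∈ Γ) ∧ (∀ j i, Rc (c j i)) ∧
      (∀ i, μ * x i = ∑ j, c j i * (γ j : K)) ∧ (∀ j, c j = 0 → γ j = 1) ∧
      (∃ j, c j ≠ 0 ∧ γ j = 1) ∧
      ∀ A : Finset J, (∃ ν : K, ν ≠ 0 ∧ ∀ i, ∑ j ∈ A, c j i * (γ j : K) = ν * x i) →
        ∀ j, j ∉ A → c j = 0 := by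
  classical
  let P : ℕ → Prop := fun n => ∃ (μ : K) (c : J → ι → K) (γ : J → Kˣ), μ ≠ 0 ∧
    (∀ j, γ j ∈ Γ) ∧ (∀ j i, Rc (c j i)) ∧ (∀ i, μ * x i = ∑ j, c j i * (γ j : K)) ∧
    (Finset.univ.filter fun j => c j ≠ 0).card = n
  have hP : ∃ n, P n := by
    obtain ⟨c, γ, h1, h2, h3⟩ := h
    exact ⟨_, 1, c, γ, one_ne_zero, h1, h2, fun i => by rw [one_mul]; exact h3 i, rfl⟩
  obtain ⟨μ, c, γ, hμ, h1, h2, h3, h4⟩ := Nat.find_spec hP
  have hj0 : ∃ j, c j ≠ 0 := by
    by_contra hcon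
    push Not at hcon
    apply hx
    funext i
    have h5 := h3 i
    rw [Finset.sum_eq_zero fun j _ => by rw [hcon j, Pi.zero_apply, zero_mul]] at h5
    exact (mul_eq_zero.1 h5).resolve_left hμ
  obtain ⟨j0, hj0⟩ := hj0
  have hsum : ∀ (A : Finset J) i, ∑ j ∈ A, c j i *
      ((if c j = 0 then 1 else γ j * (γ j0)⁻¹ : Kˣ) : K) =
        ((γ j0 : Kˣ) : K)⁻¹ * ∑ j ∈ A, c j i * (γ j : K) := by
    intro A i
    rw [Finset.mul_sum]
    refine Finset.sum_congr rfl fun j _ => ?_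
    by_cases hj : c j = 0
    · rw [hj, Pi.zero_apply, zero_mul, zero_mul, mul_zero]
    · rw [if_neg hj, Units.val_mul, Units.val_inv_eq_inv_val]
      ring
  refine ⟨((γ j0 : Kˣ) : K)⁻¹ * μ, c, fun j => if c j = 0 then 1 else γ j * (γ j0)⁻¹,
    mul_ne_zero (inv_ne_zero (γ j0).ne_zero) hμ, fun j => ?_, h2, fun i => ?_, fun j hj => ?_,
    ⟨j0, hj0, ?_⟩, ?_⟩
  · dsimp only
    split_ifs
    · exact Γ.one_mem
    · exact Γ.mul_mem (h1 j) (Γ.inv_mem (h1 j0))
  · rw [hsum, mul_assoc, h3]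
  · dsimp only
    rw [if_pos hj]
  · dsimp only
    rw [if_neg hj0, mul_inv_cancel]
  · rintro A ⟨ν, hν, hA⟩ j1 hj1
    by_contra hne
    have h5 := Nat.find_min' hP (m := (Finset.univ.filter fun j =>
      (if j ∈ A then c j else 0) ≠ 0).card)
      ⟨ν, fun j => if j ∈ A then c j else 0, fun j => if c j = 0 then 1 else γ j * (γ j0)⁻¹,
        hν, fun j => by
          dsimp only
          split_ifs
          · exact Γ.one_mem
          · exact Γ.mul_mem (h1 j) (Γ.inv_mem (h1 j0)), fun j i => by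
          dsimp only
          split_ifs
          · exact h2 j i
          · exact hR0, fun i => by
          rw [← hA i, ← Finset.sum_add_sum_compl A (fun j =>
            (if j ∈ A then c j else 0) i * _)]
          have e1 : ∑ j ∈ Aᶜ, (if j ∈ A then c j else 0) i *
              ((if c j = 0 then 1 else γ j * (γ j0)⁻¹ : Kˣ) : K) = 0 :=
            Finset.sum_eq_zero fun j hj => by
              rw [if_neg (Finset.mem_compl.1 hj), Pi.zero_apply, zero_mul]
          rw [e1, add_zero]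
          refine Finset.sum_congr rfl fun j hj => ?_
          rw [if_pos hj], rfl⟩
    have h7 : (Finset.univ.filter fun j => (if j ∈ A then c j else 0) ≠ 0) ⊆
        (Finset.univ.filter fun j => c j ≠ 0).erase j1 := by
      intro j hj
      rw [Finset.mem_filter] at hj
      by_cases hjA : j ∈ A
      · rw [if_pos hjA] at hj
        rw [Finset.mem_erase, Finset.mem_filter]
        exact ⟨fun h => hj1 (h ▸ hjA), Finset.mem_univ _, hj.2⟩
      · rw [if_neg hjA] at hj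
        exact absurd rfl hj.2
    have h8 := Finset.card_le_card h7
    have h9 := Finset.card_erase_lt_of_mem
      (Finset.mem_filter.2 ⟨Finset.mem_univ j1, hne⟩ : j1 ∈ Finset.univ.filter fun j => c j ≠ 0)
    omega

theorem exists_class_ne {J M : Type} [Fintype J] [AddCommGroup M] (s : Setoid J) (f : J → M)
    (h : ∑ j, f j ≠ 0) (A : J → Finset J) (hA : ∀ j1 j, j ∈ A j1 ↔ s j j1) :
    ∃ j1, ∑ j ∈ A j1, f j ≠ 0 := by
  classical
  by_contra hcon
  push Not at hcon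
  apply h
  have hft : Fintype (Quotient s) := Fintype.ofFinite _
  rw [← Finset.sum_fiberwise Finset.univ (fun j => Quotient.mk s j) f]
  refine Finset.sum_eq_zero fun q _ => ?_
  rw [← hcon q.out]
  refine Finset.sum_congr ?_ fun _ _ => rfl
  ext j
  rw [Finset.mem_filter, hA]
  constructor
  · rintro ⟨-, rfl⟩
    exact Quotient.exact (Quotient.out_eq _).symm
  · intro h
    refine ⟨Finset.mem_univ _, ?_⟩
    rw [← Quotient.out_eq q]
    exact Quotient.sound h

variable {k : Type} [Field k] [NumberField k] {σ : Sc} {S : Finset (Pl k)}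

/-- the scale which is enlarged by the heights of given elements -/
noncomputable def bigSc {J : Type} [Fintype J] (σ : Sc) (γ : J → ℕ → k) : Sc :=
  ⟨σ.𝒰, fun t => σ.L t + ∑ j, logHeight₁ (γ j t),
    tendsto_atTop_mono (fun t => le_add_of_nonneg_right
      (Finset.sum_nonneg fun j _ => zero_le_logHeight₁ _)) σ.lim⟩

section big
variable {J : Type} [Fintype J] (γ : J → ℕ → k)

theorem big_le (t : ℕ) : σ.L t ≤ (bigSc σ γ).L t :=
  le_add_of_nonneg_right (Finset.sum_nonneg fun j _ => zero_le_logHeight₁ _)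

theorem big_height (j : J) : ∀ᶠ t in ((bigSc σ γ).𝒰 : Filter ℕ),
    logHeight₁ (γ j t) ≤ (bigSc σ γ).L t := by
  have h : ∀ᶠ t in (σ.𝒰 : Filter ℕ), logHeight₁ (γ j t) ≤ (bigSc σ γ).L t := by
    filter_upwards [L_pos (σ := σ)] with t ht
    have h2 : logHeight₁ (γ j t) ≤ ∑ j, logHeight₁ (γ j t) :=
      Finset.single_le_sum (f := fun j => logHeight₁ (γ j t))
        (fun j _ => zero_le_logHeight₁ _) (Finset.mem_univ j)
    show _ ≤ σ.L t + _
    linarith
  exact h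

theorem big_small (h : ¬ ∀ j, gm σ (γ j) ∈ BB k σ) (ε : ℝ) (hε : 0 < ε) :
    ∀ᶠ t in ((bigSc σ γ).𝒰 : Filter ℕ), σ.L t ≤ ε * (bigSc σ γ).L t := by
  push Not at h
  obtain ⟨j0, hj0⟩ := h
  have h2 : ¬ ∀ᶠ t in (σ.𝒰 : Filter ℕ), logHeight₁ (rep (gm σ (γ j0)) t) ≤ 1 / ε * σ.L t :=
    fun h => hj0 ⟨_, h⟩
  rw [← Ultrafilter.eventually_not] at h2
  have h7 : ∀ᶠ t in (σ.𝒰 : Filter ℕ), σ.L t ≤ ε * (bigSc σ γ).L t := by
    have h5' : ∀ᶠ t in (σ.𝒰 : Filter ℕ), logHeight₁ (γ j0 t) ≤ (bigSc σ γ).L t := big_height γ j0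
    filter_upwards [h2, rep_gm (σ := σ) (γ j0), h5'] with t h3 h4 h5
    rw [not_le, h4] at h3
    have h6 : 1 / ε * σ.L t < (bigSc σ γ).L t := h3.trans_le h5
    rw [one_div, inv_mul_lt_iff₀ hε] at h6
    exact h6.le
  exact h7

theorem big_Sm {f : ℕ → ℝ} (hf : Sm σ f) : Sm (bigSc σ γ) f := by
  intro ε hε
  have h2 : ∀ᶠ t in (σ.𝒰 : Filter ℕ), f t ≤ ε * (bigSc σ γ).L t := by
    filter_upwards [hf ε hε] with t ht
    exact ht.trans (mul_le_mul_of_nonneg_left (big_le γ t) hε.le)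
  exact h2

/-- functions of the size of the old scale are small in the new one -/
theorem big_of_le (h : ¬ ∀ j, gm σ (γ j) ∈ BB k σ) {f : ℕ → ℝ}
    (hf : ∃ C : ℝ, ∀ᶠ t in (σ.𝒰 : Filter ℕ), f t ≤ C * σ.L t) : Sm (bigSc σ γ) f := by
  obtain ⟨C, hC⟩ := hf
  intro ε hε
  have hs : ∀ᶠ t in (σ.𝒰 : Filter ℕ), σ.L t ≤ ε / (|C| + 1) * (bigSc σ γ).L t :=
    big_small γ h (ε / (|C| + 1)) (by positivity)
  have h2 : ∀ᶠ t in (σ.𝒰 : Filter ℕ), f t ≤ ε * (bigSc σ γ).L t := by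
    filter_upwards [hC, hs, L_pos (σ := σ)] with t h3 h4 h5
    have h6 : C * σ.L t ≤ (|C| + 1) * σ.L t := by
      refine mul_le_mul_of_nonneg_right ?_ h5.le
      have := le_abs_self C
      linarith
    have h7 : (|C| + 1) * σ.L t ≤ (|C| + 1) * (ε / (|C| + 1) * (bigSc σ γ).L t) :=
      mul_le_mul_of_nonneg_left h4 (by positivity)
    have h8 : (|C| + 1) * (ε / (|C| + 1) * (bigSc σ γ).L t) = ε * (bigSc σ γ).L t := by
      field_simp
    linarith
  exact h2

theorem big_SU (hγ : ∀ j t, IsSU S (γ j t)) (j : J) :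
    SU S (gm (bigSc σ γ) (γ j)) := by
  filter_upwards [rep_gm (σ := bigSc σ γ) (γ j)] with t ht
  rw [ht]
  exact hγ j t

theorem big_BB (j : J) : gm (bigSc σ γ) (γ j) ∈ BB k (bigSc σ γ) := by
  rw [mem_BB]
  refine ⟨1, ?_⟩
  filter_upwards [rep_gm (σ := bigSc σ γ) (γ j), big_height γ j] with t h3 h4
  rw [h3, one_mul]
  exact h4

/-- the heights of all `γ j` cannot be small in the new scale -/
theorem big_contra (h : ¬ ∀ j, gm σ (γ j) ∈ BB k σ)
    (hall : ∀ j, gm (bigSc σ γ) (γ j) ∈ FF k (bigSc σ γ)) : False := by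
  have hn : (0 : ℝ) < 2 * ((Fintype.card J : ℝ) + 1) := by positivity
  have k1 : ∀ᶠ t in ((bigSc σ γ).𝒰 : Filter ℕ), ∀ j, logHeight₁ (γ j t) ≤
      1 / (2 * ((Fintype.card J : ℝ) + 1)) * (bigSc σ γ).L t := by
    rw [Filter.eventually_all]
    intro j
    exact (gm_mem_FF _).1 (hall j) _ (by positivity)
  obtain ⟨t, k2, k3, k4⟩ := (k1.and ((big_small γ h (1 / (2 * ((Fintype.card J : ℝ) + 1)))
    (by positivity)).and (L_pos (σ := bigSc σ γ)))).exists
  have k5 : ∑ j, logHeight₁ (γ j t) ≤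
      Fintype.card J * (1 / (2 * ((Fintype.card J : ℝ) + 1)) * (bigSc σ γ).L t) := by
    have := Finset.sum_le_sum fun j (_ : j ∈ (Finset.univ : Finset J)) => k2 j
    rwa [Finset.sum_const, Finset.card_univ, nsmul_eq_mul] at this
  have k6 : (bigSc σ γ).L t = σ.L t + ∑ j, logHeight₁ (γ j t) := rfl
  have k7 : (1 / (2 * ((Fintype.card J : ℝ) + 1)) * (bigSc σ γ).L t) *
      ((Fintype.card J : ℝ) + 1) = (bigSc σ γ).L t / 2 := by
    field_simp
  nlinarith

end big

/-- the equivalence relation of the units modulo the germs of small height -/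
def ratSetoid {J : Type} (U : J → G k σ) (hU : ∀ j, U j ≠ 0) : Setoid J :=
  ⟨fun i j => U i / U j ∈ FF k σ,
    ⟨fun i => by rw [div_self (hU i)]; exact (FF k σ).one_mem,
     fun {i j} h => by rw [← inv_div]; exact (FF k σ).inv_mem h,
     fun {i j l} h1 h2 => by
      rw [← div_mul_div_cancel₀ (hU j)]; exact (FF k σ).mul_mem h1 h2⟩⟩

/-- **Short points: the heights of the units are bounded.** -/
theorem proj_bounded (hS : ∀ w : InfinitePlace k, Sum.inl w ∈ S) {J ι : Type} [Fintype J]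
    [Finite ι] (x : ℕ → ι → k) (c : J → ι → ℕ → k) (γ : J → ℕ → k)
    (hx0 : ∀ t, x t ≠ 0) (hx : ∀ t i, x t i = ∑ j, c j i t * γ j t)
    (hγ : ∀ j t, IsSU S (γ j t)) (hc : ∀ j i, gm σ (c j i) ∈ FF k σ)
    (hxB : ∃ C : ℝ, ∀ᶠ t in (σ.𝒰 : Filter ℕ), logHeight (x t) ≤ C * σ.L t)
    (h1 : ∀ j t, (∀ i, c j i t = 0) → γ j t = 1)
    (h2 : ∀ t, ∃ j, (∃ i, c j i t ≠ 0) ∧ γ j t = 1)
    (hmin : ∀ t, ∀ A : Finset J, (∃ ν : k, ν ≠ 0 ∧ ∀ i, ∑ j ∈ A, c j i t * γ j t = ν * x t i) →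
      ∀ j, j ∉ A → ∀ i, c j i t = 0) :
    ∀ j, gm σ (γ j) ∈ BB k σ := by
  classical
  have hft : Fintype ι := Fintype.ofFinite ι
  by_contra hcon
  -- the coordinate
  have hi : ∀ t, ∃ i, x t i ≠ 0 := fun t => by
    by_contra h
    push Not at h
    exact hx0 t (funext h)
  choose i' hi' using hi
  obtain ⟨i0, -, hi0⟩ := const_of_finite (σ := bigSc σ γ) i' Set.univ Set.finite_univ
    (Eventually.of_forall fun _ => Set.mem_univ _)
  have hxi0 : gm (bigSc σ γ) (fun t => x t i0) ≠ 0 := by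
    rw [gm_ne]
    filter_upwards [hi0] with t ht
    rw [← ht]
    exact hi' t
  choose j' hj' hj'' using h2
  obtain ⟨j0, -, hj0⟩ := const_of_finite (σ := bigSc σ γ) j' Set.univ Set.finite_univ
    (Eventually.of_forall fun _ => Set.mem_univ _)
  have hcF : ∀ j i, gm (bigSc σ γ) (c j i) ∈ FF k (bigSc σ γ) := by
    intro j i
    rw [gm_mem_FF]
    exact big_Sm γ ((gm_mem_FF _).1 (hc j i))
  have hlF : ∀ i, gm (bigSc σ γ) (fun t => x t i) / gm (bigSc σ γ) (fun t => x t i0) ∈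
      FF k (bigSc σ γ) := by
    intro i
    rw [mem_FF]
    refine (big_of_le γ hcon hxB).mono ?_
    filter_upwards [rep_div (gm (bigSc σ γ) fun t => x t i) (gm (bigSc σ γ) fun t => x t i0),
      rep_gm (σ := bigSc σ γ) (fun t => x t i), rep_gm (σ := bigSc σ γ) (fun t => x t i0)]
      with t t1 t2 t3
    rw [t1, t2, t3]
    exact logHeight₁_div_le (x t) i i0
  have hU0 : ∀ j, gm (bigSc σ γ) (γ j) ≠ 0 := fun j => (big_SU γ hγ j).ne_zero
  let s := ratSetoid (fun j => gm (bigSc σ γ) (γ j)) hU0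
  let A : J → Finset J := fun j1 => Finset.univ.filter fun j =>
    gm (bigSc σ γ) (γ j) / gm (bigSc σ γ) (γ j1) ∈ FF k (bigSc σ γ)
  have hA : ∀ j1 j, j ∈ A j1 ↔ s j j1 := by
    intro j1 j
    simp only [A, Finset.mem_filter, Finset.mem_univ, true_and]
    rfl
  have hgs : ∀ (A : Finset J) i, ∑ j ∈ A, gm (bigSc σ γ) (c j i) * gm (bigSc σ γ) (γ j) =
      gm (bigSc σ γ) fun t => ∑ j ∈ A, c j i t * γ j t := by
    intro A i
    have h2 : (fun t => ∑ j ∈ A, c j i t * γ j t) = ∑ j ∈ A, c j i * γ j := by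
      funext t
      rw [Finset.sum_apply]
      rfl
    rw [h2, map_sum]
    exact Finset.sum_congr rfl fun j _ => (map_mul _ _ _).symm
  have hxs : ∀ i, gm (bigSc σ γ) (fun t => x t i) =
      ∑ j, gm (bigSc σ γ) (c j i) * gm (bigSc σ γ) (γ j) := by
    intro i
    rw [hgs]
    congr 1
    funext t
    exact hx t i
  -- a class with a nonzero sum
  obtain ⟨j1, hj1⟩ := exists_class_ne s
    (fun j => gm (bigSc σ γ) (c j i0) * gm (bigSc σ γ) (γ j)) (by
      rw [← hxs]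
      exact hxi0) A hA
  have hcls : ∀ i, ∑ j ∈ A j1, gm (bigSc σ γ) (c j i) * gm (bigSc σ γ) (γ j) =
      (∑ j ∈ A j1, gm (bigSc σ γ) (c j i0) * gm (bigSc σ γ) (γ j)) /
        gm (bigSc σ γ) (fun t => x t i0) * gm (bigSc σ γ) (fun t => x t i) := by
    intro i
    have h3 := class_sum hS (fun j => gm (bigSc σ γ) (γ j)) (big_SU γ hγ) (big_BB γ)
      (fun j => gm (bigSc σ γ) (c j i) - gm (bigSc σ γ) (fun t => x t i) /
        gm (bigSc σ γ) (fun t => x t i0) * gm (bigSc σ γ) (c j i0))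
      (fun j => (FF k _).sub_mem (hcF j i) ((FF k _).mul_mem (hlF i) (hcF j i0))) (by
        simp only [sub_mul, Finset.sum_sub_distrib, mul_assoc]
        rw [← Finset.mul_sum, ← hxs, ← hxs, div_mul_cancel₀ _ hxi0, sub_self]) j1 (A j1) (by
        intro j
        simp [A])
    simp only [sub_mul, Finset.sum_sub_distrib, mul_assoc] at h3
    rw [← Finset.mul_sum, sub_eq_zero] at h3
    rw [h3]
    ring
  obtain ⟨ν, hν⟩ : ∃ ν, ν = (∑ j ∈ A j1, gm (bigSc σ γ) (c j i0) * gm (bigSc σ γ) (γ j)) /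
        gm (bigSc σ γ) (fun t => x t i0) := ⟨_, rfl⟩
  rw [← hν] at hcls
  have hν0 : ν ≠ 0 := by
    rw [hν]
    exact div_ne_zero hj1 hxi0
  have hcls' : ∀ᶠ t in ((bigSc σ γ).𝒰 : Filter ℕ), ∀ i,
      ∑ j ∈ A j1, c j i t * γ j t = rep ν t * x t i := by
    rw [Filter.eventually_all]
    intro i
    have h3 := hcls i
    rw [hgs] at h3
    filter_upwards [rep_gm (σ := bigSc σ γ) (fun t => ∑ j ∈ A j1, c j i t * γ j t),
      rep_mul ν (gm (bigSc σ γ) fun t => x t i), rep_gm (σ := bigSc σ γ) (fun t => x t i)]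
      with t t1 t2 t3
    rw [← t1, h3, t2, t3]
  have hzero : ∀ᶠ t in ((bigSc σ γ).𝒰 : Filter ℕ), ∀ j, j ∉ A j1 → ∀ i, c j i t = 0 := by
    filter_upwards [hcls', rep_ne ν hν0] with t t1 t2
    exact hmin t (A j1) ⟨rep ν t, t2, t1⟩
  have hj0A : j0 ∈ A j1 := by
    by_contra h
    obtain ⟨t, t1, t2⟩ := (hzero.and hj0).exists
    obtain ⟨i, hi⟩ := hj' t
    rw [t2] at hi
    exact hi (t1 j0 h i)
  have hγ0 : gm (bigSc σ γ) (γ j0) = 1 := by
    rw [← map_one (gm (bigSc σ γ)), gm_eq]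
    filter_upwards [hj0] with t ht
    have := hj'' t
    rwa [ht] at this
  have hall : ∀ j, gm (bigSc σ γ) (γ j) ∈ FF k (bigSc σ γ) := by
    intro j
    by_cases hj : j ∈ A j1
    · have h3 : s j j0 := by
        have e1 := (hA j1 j).1 hj
        have e2 := (hA j1 j0).1 hj0A
        exact s.trans e1 (s.symm e2)
      have h4 : gm (bigSc σ γ) (γ j) / gm (bigSc σ γ) (γ j0) ∈ FF k (bigSc σ γ) := h3
      rwa [hγ0, div_one] at h4
    · have h3 : gm (bigSc σ γ) (γ j) = 1 := by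
        rw [← map_one (gm (bigSc σ γ)), gm_eq]
        filter_upwards [hzero] with t ht
        exact h1 j t (ht j hj)
      rw [h3]
      exact (FF k _).one_mem
  exact big_contra γ hcon hall

/-- **Short elements up to units: the heights of the units are bounded** if the part outside `S` is
bounded. -/
theorem unit_bounded (hS : ∀ w : InfinitePlace k, Sum.inl w ∈ S) {J : Type} [Fintype J]
    (x : ℕ → k) (c γ : J → ℕ → k) (hx : ∀ t, x t = ∑ j, c j t * γ j t)
    (hγ : ∀ j t, IsSU S (γ j t)) (hc : ∀ j, gm σ (c j) ∈ FF k σ)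
    (hxB : ∃ C : ℝ, ∀ᶠ t in (σ.𝒰 : Filter ℕ), ∑ v ∈ S, wt v * Real.log (av v (x t)) ≤ C * σ.L t)
    (h1 : ∀ j t, c j t = 0 → γ j t = 1) (h2 : ∀ t, ∃ j, c j t ≠ 0 ∧ γ j t = 1)
    (hnv : ∀ t, ∀ A : Finset J, (∃ j ∈ A, c j t ≠ 0) → ∑ j ∈ A, c j t * γ j t ≠ 0) :
    ∀ j, gm σ (γ j) ∈ BB k σ := by
  classical
  by_contra hcon
  choose j' hj' hj'' using h2
  obtain ⟨j0, -, hj0⟩ := const_of_finite (σ := bigSc σ γ) j' Set.univ Set.finite_univ
    (Eventually.of_forall fun _ => Set.mem_univ _)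
  have hγ0 : gm (bigSc σ γ) (γ j0) = 1 := by
    rw [← map_one (gm (bigSc σ γ)), gm_eq]
    filter_upwards [hj0] with t ht
    have := hj'' t
    rwa [ht] at this
  have hc0 : gm (bigSc σ γ) (c j0) ≠ 0 := by
    rw [gm_ne]
    filter_upwards [hj0] with t ht
    have := hj' t
    rwa [ht] at this
  have hcF : ∀ j, gm (bigSc σ γ) (c j) ∈ FF k (bigSc σ γ) := by
    intro j
    rw [gm_mem_FF]
    exact big_Sm γ ((gm_mem_FF _).1 (hc j))
  have hU0 : ∀ j, gm (bigSc σ γ) (γ j) ≠ 0 := fun j => (big_SU γ hγ j).ne_zero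
  -- the terms with nonzero coefficients
  let J' : Type := {j : J // gm (bigSc σ γ) (c j) ≠ 0}
  let s : Setoid J' := ratSetoid (fun j => gm (bigSc σ γ) (γ j.1)) fun j => hU0 j.1
  have hftq : Fintype (Quotient s) := Fintype.ofFinite _
  have hgs : ∀ A : Finset J, ∑ j ∈ A, gm (bigSc σ γ) (c j) * gm (bigSc σ γ) (γ j) =
      gm (bigSc σ γ) fun t => ∑ j ∈ A, c j t * γ j t := by
    intro A
    have h2 : (fun t => ∑ j ∈ A, c j t * γ j t) = ∑ j ∈ A, c j * γ j := by
      funext t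
      rw [Finset.sum_apply]
      rfl
    rw [h2, map_sum]
    exact Finset.sum_congr rfl fun j _ => (map_mul _ _ _).symm
  have hrp : ∀ i : J', gm (bigSc σ γ) (γ i.1) / gm (bigSc σ γ) (γ (Quotient.mk s i).out.1) ∈
      FF k (bigSc σ γ) := by
    intro i
    have h3 : s i (Quotient.mk s i).out := Quotient.exact (Quotient.out_eq _).symm
    exact h3
  obtain ⟨d, hd⟩ : ∃ d : Quotient s → G k (bigSc σ γ), d = fun q =>
      ∑ i with Quotient.mk s i = q, gm (bigSc σ γ) (c i.1) * (gm (bigSc σ γ) (γ i.1) /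
        gm (bigSc σ γ) (γ (Quotient.mk s i).out.1)) := ⟨_, rfl⟩
  have hdF : ∀ q, d q ∈ FF k (bigSc σ γ) := by
    intro q
    rw [hd]
    exact (FF k _).sum_mem fun i _ => (FF k _).mul_mem (hcF i.1) (hrp i)
  have hdq : ∀ q : Quotient s, d q * gm (bigSc σ γ) (γ q.out.1) =
      ∑ i with Quotient.mk s i = q, gm (bigSc σ γ) (c i.1) * gm (bigSc σ γ) (γ i.1) := by
    intro q
    rw [hd]
    simp only
    rw [Finset.sum_mul]
    refine Finset.sum_congr rfl fun i hi => ?_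
    rw [Finset.mem_filter] at hi
    obtain ⟨-, rfl⟩ := hi
    rw [mul_assoc]
    congr 1
    exact div_mul_cancel₀ _ (hU0 _)
  have hd0 : ∀ q, d q ≠ 0 := by
    intro q h
    have h3 := hdq q
    rw [h, zero_mul] at h3
    let A : Finset J := (Finset.univ.filter fun i : J' => Quotient.mk s i = q).map
      ⟨Subtype.val, Subtype.val_injective⟩
    have h4 : ∑ j ∈ A, gm (bigSc σ γ) (c j) * gm (bigSc σ γ) (γ j) = 0 := by
      rw [Finset.sum_map]
      exact h3.symm
    rw [hgs] at h4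
    have h5 : gm (bigSc σ γ) (fun t => ∑ j ∈ A, c j t * γ j t) =
        gm (bigSc σ γ) (fun _ => (0 : k)) := by
      rw [h4]
      exact (map_zero (gm (bigSc σ γ))).symm
    rw [gm_eq] at h5
    have h6 := q.out.2
    rw [gm_ne] at h6
    obtain ⟨t, t1, t2⟩ := (h5.and h6).exists
    refine hnv t A ⟨q.out.1, ?_, t2⟩ t1
    refine Finset.mem_map.2 ⟨q.out, ?_, rfl⟩
    rw [Finset.mem_filter]
    exact ⟨Finset.mem_univ _, Quotient.out_eq q⟩
  have hsum : gm (bigSc σ γ) x = ∑ q, d q * gm (bigSc σ γ) (γ q.out.1) := by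
    rw [Finset.sum_congr rfl fun q _ => hdq q, Finset.sum_fiberwise]
    have h3 : gm (bigSc σ γ) x = ∑ j, gm (bigSc σ γ) (c j) * gm (bigSc σ γ) (γ j) := by
      rw [hgs]
      congr 1
      funext t
      exact hx t
    have h4 : ∑ i : J', gm (bigSc σ γ) (c i.1) * gm (bigSc σ γ) (γ i.1) =
        ∑ j ∈ Finset.univ.filter (fun j => gm (bigSc σ γ) (c j) ≠ 0),
          gm (bigSc σ γ) (c j) * gm (bigSc σ γ) (γ j) :=
      (Finset.sum_subtype (Finset.univ.filter fun j => gm (bigSc σ γ) (c j) ≠ 0)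
        (fun j => by rw [Finset.mem_filter]; exact and_iff_right (Finset.mem_univ j))
        (fun j => gm (bigSc σ γ) (c j) * gm (bigSc σ γ) (γ j))).symm
    rw [h3, h4, Finset.sum_filter_of_ne]
    intro j _ h hc
    apply h
    rw [hc, zero_mul]
  have hx0 : gm (bigSc σ γ) x ≠ 0 := by
    rw [gm_ne]
    refine Eventually.of_forall fun t => ?_
    rw [hx t]
    exact hnv t Finset.univ ⟨j' t, Finset.mem_univ _, hj' t⟩
  have hvq : ∀ v ∈ S, ∀ q : Quotient s, Sm (bigSc σ γ) fun t =>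
      lv v (gm (bigSc σ γ) (γ q.out.1)) t - lv v (gm (bigSc σ γ) x) t := by
    intro v hv q
    rw [← val_le_iff v (hU0 _) hx0, hsum]
    exact lb hS (fun q : Quotient s => gm (bigSc σ γ) (γ q.out.1)) (fun q => big_SU γ hγ _)
      (fun q => big_BB γ _) (fun q q' hqq h => by
        apply hqq
        have h3 : s q.out q'.out := h
        rw [← Quotient.out_eq q, ← Quotient.out_eq q']
        exact Quotient.sound h3) d hdF hd0 v hv q
  have hxS : Sm (bigSc σ γ) fun t => ∑ v ∈ S, wt v * lv v (gm (bigSc σ γ) x) t := by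
    refine (big_of_le γ hcon hxB).mono ?_
    filter_upwards [rep_gm (σ := bigSc σ γ) x] with t ht
    unfold lv
    rw [ht]
  have hqq : ∀ q q' : Quotient s, gm (bigSc σ γ) (γ q.out.1) / gm (bigSc σ γ) (γ q'.out.1) ∈
      FF k (bigSc σ γ) := by
    intro q q'
    rw [mem_FF]
    have h3 : Sm (bigSc σ γ) fun t => ∑ v ∈ S, wt v *
        max (lv v (gm (bigSc σ γ) (γ q.out.1)) t - lv v (gm (bigSc σ γ) x) t)
        (lv v (gm (bigSc σ γ) (γ q'.out.1)) t - lv v (gm (bigSc σ γ) x) t) :=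
      Sm.sum _ fun v hv => (Sm.max' (hvq v hv q) (hvq v hv q')).smul (wt_nonneg v)
    refine (h3.add hxS).mono ?_
    filter_upwards [big_SU γ hγ q.out.1, big_SU γ hγ q'.out.1,
      rep_div (gm (bigSc σ γ) (γ q.out.1)) (gm (bigSc σ γ) (γ q'.out.1))] with t t1 t2 t3
    rw [t3]
    refine (height_units hS _ _ t1 t2).trans (le_of_eq ?_)
    rw [← Finset.sum_add_distrib]
    refine Finset.sum_congr rfl fun v _ => ?_
    rw [← mul_add, max_sub_sub_right, sub_add_cancel]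
    rfl
  have hall : ∀ j, gm (bigSc σ γ) (γ j) ∈ FF k (bigSc σ γ) := by
    intro j
    by_cases hj : gm (bigSc σ γ) (c j) = 0
    · have h3 : gm (bigSc σ γ) (γ j) = 1 := by
        have h5 : gm (bigSc σ γ) (c j) = gm (bigSc σ γ) (fun _ => (0 : k)) := by
          rw [hj]
          exact (map_zero (gm (bigSc σ γ))).symm
        rw [gm_eq] at h5
        rw [← map_one (gm (bigSc σ γ)), gm_eq]
        filter_upwards [h5] with t ht
        exact h1 j t ht
      rw [h3]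
      exact (FF k _).one_mem
    · have e1 := hrp ⟨j, hj⟩
      have e2 := hrp ⟨j0, hc0⟩
      have e3 := hqq (Quotient.mk s ⟨j, hj⟩) (Quotient.mk s ⟨j0, hc0⟩)
      have e4 := (FF k _).mul_mem e1 e3
      rw [div_mul_div_cancel₀ (hU0 _)] at e4
      have e5 := (FF k _).mul_mem e4 ((FF k _).inv_mem e2)
      rw [inv_div, div_mul_div_cancel₀ (hU0 _)] at e5
      have e6 : gm (bigSc σ γ) (γ j) / gm (bigSc σ γ) (γ j0) ∈ FF k (bigSc σ γ) := e5
      rwa [hγ0, div_one] at e6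
  exact big_contra γ hcon hall

end Pool.Agent.Run7.h720
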