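import Pool.Agent.Run7.h720.Proj

/-!
Short points and short elements up to units: representations by germs.
-/

set_option autoImplicit false
set_option linter.unusedSectionVars false

namespace Pool.Agent.Run7.h720

open NumberField IsDedekindDomain Height Filter Topology
open Pool.Agent.W180.OP (Pl av wt fv fv_support_finite wt_nonneg nrm)
open Pool.Agent.K1H83.VN
open MvPolynomial (monomial)

/-- the representation of a short point by germs -/
theorem proj_rep {K : Type} [Field K] [NumberField K] {σ : Sc} (h𝒰 : (σ.𝒰 : Filter ℕ) ≤ atTop)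
    {S : Finset (Pl K)} (hS : ∀ w : InfinitePlace K, Sum.inl w ∈ S) (Γ : Subgroup Kˣ)
    (hSΓ : ∀ γ ∈ Γ, IsSU S (γ : K)) (r : ℕ) (B : ℝ) {ι : Type} [Finite ι] (n : ℕ → ℝ)
    (hn1 : ∀ t, 1 ≤ n t) (hσL : ∀ t, σ.L t = Real.log (n t)) (x : ℕ → ι → K)
    (hx0 : ∀ t, x t ≠ 0) (hx : ∀ t, PShort Γ r (B * n t ^ (1 / ((t : ℝ) + 1))) (x t))
    (hxB : ∃ C : ℝ, ∀ᶠ t in (σ.𝒰 : Filter ℕ), logHeight (x t) ≤ C * σ.L t) :
    ∃ (μ : ℕ → K) (c : ι → Fin r → G K σ) (γ : Fin r → G K σ), (∀ t, μ t ≠ 0) ∧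
      (∀ i, gm σ (fun t => μ t * x t i) = ∑ j, c i j * γ j) ∧ (∀ i j, c i j ∈ FF K σ) ∧
      (∀ j, SU S (γ j)) ∧ ∀ j, γ j ∈ BB K σ := by
  have h2 := fun t => reduced_proj (J := Fin r) (x t) (hx0 t) Γ
    (fun c => c = 0 ∨ mulHeight₁ c ≤ B * n t ^ (1 / ((t : ℝ) + 1))) (Or.inl rfl) (by
      obtain ⟨c, γ, e1, e2, e3⟩ := hx t
      exact ⟨c, γ, e1, fun j i => Or.inr (e2 j i), e3⟩)
  choose μ c γ hμ e1 e2 e3 e4 e5 e6 using h2
  have hcF : ∀ j i, gm σ (fun t => c t j i) ∈ FF K σ := by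
    intro j i
    have h := coef_small (L := K) h𝒰 B n hn1 hσL (fun t => c t j i) fun t => e2 t j i
    simpa using h
  have hγS : ∀ j t, IsSU S ((γ t j : Kˣ) : K) := fun j t => hSΓ _ (e1 t j)
  have hlh : ∀ t, logHeight (fun i => μ t * x t i) = logHeight (x t) := by
    intro t
    exact logHeight_smul_eq_logHeight (x t) (hμ t)
  have hbd := proj_bounded (σ := σ) hS (fun t i => μ t * x t i) (fun j i t => c t j i)
    (fun j t => ((γ t j : Kˣ) : K)) (fun t h => hx0 t (by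
      funext i
      exact (mul_eq_zero.1 (congrFun h i)).resolve_left (hμ t))) (fun t i => e3 t i) hγS hcF (by
      obtain ⟨C, hC⟩ := hxB
      refine ⟨C, ?_⟩
      filter_upwards [hC] with t ht
      rw [hlh]
      exact ht) (fun j t h => by
      show ((γ t j : Kˣ) : K) = 1
      rw [e4 t j (funext h)]
      rfl) (fun t => by
      obtain ⟨j, hj, hj2⟩ := e5 t
      refine ⟨j, ?_, ?_⟩
      · by_contra hcon
        push Not at hcon
        exact hj (funext hcon)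
      · show ((γ t j : Kˣ) : K) = 1
        rw [hj2]
        rfl) (fun t A h j hj i => by
      obtain ⟨ν, hν, hA⟩ := h
      have h3 := e6 t A ⟨ν * μ t, mul_ne_zero hν (hμ t), fun i => by
        rw [hA i, mul_assoc]⟩ j hj
      show c t j i = 0
      rw [h3]
      rfl)
  refine ⟨μ, fun i j => gm σ (fun t => c t j i), fun j => gm σ (fun t => ((γ t j : Kˣ) : K)), hμ,
    fun i => ?_, fun i j => hcF j i, fun j => ?_, hbd⟩
  · have h3 : (fun t => μ t * x t i) = ∑ j, (fun t => c t j i) * (fun t => ((γ t j : Kˣ) : K)) := by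
      funext t
      rw [Finset.sum_apply]
      exact e3 t i
    rw [h3, map_sum]
    exact Finset.sum_congr rfl fun j _ => map_mul _ _ _
  · filter_upwards [rep_gm (σ := σ) (fun t => ((γ t j : Kˣ) : K))] with t ht
    rw [ht]
    exact hγS j t

/-- the representation of a short element up to units -/
theorem unit_rep {K : Type} [Field K] [NumberField K] {σ : Sc} (h𝒰 : (σ.𝒰 : Filter ℕ) ≤ atTop)
    {S : Finset (Pl K)} (hS : ∀ w : InfinitePlace K, Sum.inl w ∈ S) (Γ : Subgroup Kˣ)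
    (hSΓ : ∀ γ ∈ Γ, IsSU S (γ : K)) (r : ℕ) (B : ℝ) (n : ℕ → ℝ)
    (hn1 : ∀ t, 1 ≤ n t) (hσL : ∀ t, σ.L t = Real.log (n t)) (x : ℕ → K)
    (hx0 : ∀ t, x t ≠ 0) (hx : ∀ t, Short Γ r (B * n t ^ (1 / ((t : ℝ) + 1))) (x t))
    (hxB : ∃ C : ℝ, ∀ᶠ t in (σ.𝒰 : Filter ℕ), ∑ v ∈ S, wt v * Real.log (av v (x t)) ≤
      C * σ.L t) :
    ∃ (μ : ℕ → K) (c γ : Fin r → G K σ), (∀ t, IsSU S (μ t)) ∧
      gm σ (fun t => μ t * x t) = ∑ j, c j * γ j ∧ (∀ j, c j ∈ FF K σ) ∧
      (∀ j, SU S (γ j)) ∧ ∀ j, γ j ∈ BB K σ := by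
  classical
  have h2 := fun t => reduced_rep (x t)
    (fun c => c = 0 ∨ mulHeight₁ c ≤ B * n t ^ (1 / ((t : ℝ) + 1)))
    (fun g => ∃ γ ∈ Γ, g = (γ : K)) (Or.inl rfl) ⟨1, Γ.one_mem, by simp⟩ (by
      obtain ⟨c, γ, e1, e2, e3⟩ := hx t
      exact ⟨c, fun j => (γ j : K), fun j => Or.inr (e2 j), fun j => ⟨γ j, e1 j, rfl⟩, e3⟩)
  choose c γ e1 e2 e3 e4 e5 using h2
  have hj0 : ∀ t, ∃ j, c t j ≠ 0 := by
    intro t
    by_contra hcon
    push Not at hcon
    apply hx0 t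
    rw [e3 t]
    exact Finset.sum_eq_zero fun j _ => by rw [hcon j, zero_mul]
  choose j0 hj0 using hj0
  have hγS : ∀ j t, IsSU S (γ t j) := by
    intro j t
    obtain ⟨g, hg, hg2⟩ := e2 t j
    rw [hg2]
    exact hSΓ g hg
  obtain ⟨μ, hμ⟩ : ∃ μ : ℕ → K, μ = fun t => (γ t (j0 t))⁻¹ := ⟨_, rfl⟩
  have hμS : ∀ t, IsSU S (μ t) := fun t => by
    rw [hμ]
    exact (hγS _ t).inv
  obtain ⟨g, hg⟩ : ∃ g : Fin r → ℕ → K, g = fun j t => if c t j = 0 then 1 else γ t j * μ t :=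
    ⟨_, rfl⟩
  have hgS : ∀ j t, IsSU S (g j t) := by
    intro j t
    rw [hg]
    dsimp only
    split_ifs
    · exact IsSU.one S
    · exact (hγS j t).mul (hμS t)
  have hcF : ∀ j, gm σ (fun t => c t j) ∈ FF K σ := by
    intro j
    have h := coef_small (L := K) h𝒰 B n hn1 hσL (fun t => c t j) fun t => e1 t j
    simpa using h
  have hcg : ∀ (A : Finset (Fin r)) t, ∑ j ∈ A, c t j * g j t =
      μ t * ∑ j ∈ A, c t j * γ t j := by
    intro A t
    rw [Finset.mul_sum]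
    refine Finset.sum_congr rfl fun j _ => ?_
    rw [hg]
    dsimp only
    by_cases hj : c t j = 0
    · rw [hj, zero_mul, zero_mul, mul_zero]
    · rw [if_neg hj]
      ring
  have hbd := unit_bounded (σ := σ) hS (fun t => μ t * x t) (fun j t => c t j) g
    (fun t => by
      rw [hcg, ← e3 t]) hgS hcF (by
      obtain ⟨C, hC⟩ := hxB
      refine ⟨C, ?_⟩
      filter_upwards [hC] with t ht
      refine le_trans (le_of_eq ?_) ht
      have h3 : ∀ v ∈ S, wt v * Real.log (av v (μ t * x t)) =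
          wt v * Real.log (av v (μ t)) + wt v * Real.log (av v (x t)) := by
        intro v _
        rw [map_mul, Real.log_mul ((av v).ne_zero_iff.2 (hμS t).1)
          ((av v).ne_zero_iff.2 (hx0 t)), mul_add]
      rw [Finset.sum_congr rfl h3, Finset.sum_add_distrib, (hμS t).prod_formula hS, zero_add])
    (fun j t h => by
      rw [hg]
      dsimp only
      rw [if_pos h]) (fun t => ⟨j0 t, hj0 t, by
      rw [hg, hμ]
      dsimp only
      rw [if_neg (hj0 t)]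
      exact mul_inv_cancel₀ (hγS _ t).1⟩) (fun t A h => by
      rw [hcg]
      exact mul_ne_zero (hμS t).1 (e5 t A h))
  refine ⟨μ, fun j => gm σ (fun t => c t j), fun j => gm σ (g j), hμS, ?_, hcF, fun j => ?_, hbd⟩
  · have h3 : (fun t => μ t * x t) = ∑ j, (fun t => c t j) * g j := by
      funext t
      rw [Finset.sum_apply]
      have h4 : ∑ j, ((fun t => c t j) * g j) t = ∑ j, c t j * g j t := rfl
      rw [h4, hcg, ← e3 t]
    rw [h3, map_sum]
    exact Finset.sum_congr rfl fun j _ => map_mul _ _ _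
  · filter_upwards [rep_gm (σ := σ) (g j)] with t ht
    rw [ht]
    exact hgS j t

end Pool.Agent.Run7.h720
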