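import Mathlib

/-!
The radical of an element of a factorial ring and its splitting into two parts.
-/

set_option autoImplicit false

namespace Pool.Agent.Run7.h720

/-- the radical of `P` outside `v`, split into a divisor of `ρ` and a part prime to `ρ` -/
theorem rad_split {R : Type} [CommRing R] [IsDomain R] [UniqueFactorizationMonoid R]
    (P W ρ v : R) (hP : P ≠ 0)
    (h : ∀ π, Irreducible π → ¬ π ∣ v → ∀ n : ℕ, π ^ (n + 1) ∣ P → π ^ n ∣ W) :
    ∃ (A C : R) (M : ℕ), A ∣ ρ ∧ A ∣ P ∧ (∀ π, Irreducible π → π ∣ A → ¬ π ∣ v) ∧ C ∣ P ∧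
      IsRelPrime C ρ ∧ A ≠ 0 ∧ P ∣ v ^ M * (W * (A * C)) := by
  classical
  let _ : StrongNormalizationMonoid R := UniqueFactorizationMonoid.strongNormalizationMonoid
  obtain ⟨T, hT⟩ : ∃ T, T = (UniqueFactorizationMonoid.normalizedFactors P).toFinset := ⟨_, rfl⟩
  have hmem : ∀ π ∈ T, π ∈ UniqueFactorizationMonoid.normalizedFactors P := by
    intro π hπ
    rw [hT, Multiset.mem_toFinset] at hπ
    exact hπ
  have hirr : ∀ π ∈ T, Irreducible π := fun π hπ =>
    UniqueFactorizationMonoid.irreducible_of_normalized_factor π (hmem π hπ)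
  have hdvd : ∀ π ∈ T, π ∣ P := fun π hπ =>
    UniqueFactorizationMonoid.dvd_of_mem_normalizedFactors (hmem π hπ)
  have hnorm : ∀ π ∈ T, normalize π = π := fun π hπ =>
    UniqueFactorizationMonoid.normalize_normalized_factor π (hmem π hπ)
  have hrel : ∀ π ∈ T, ∀ π' ∈ T, π ≠ π' → IsRelPrime π π' := by
    intro π hπ π' hπ' hne
    rw [(hirr π hπ).isRelPrime_iff_not_dvd]
    intro hd
    apply hne
    have h1 := (hirr π hπ).associated_of_dvd (hirr π' hπ') hd
    rw [← hnorm π hπ, ← hnorm π' hπ']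
    exact normalize_eq_normalize_iff.2 ⟨h1.dvd, h1.symm.dvd⟩
  have hpw : ∀ (f : R → ℕ) (s : Finset R), s ⊆ T →
      (s : Set R).Pairwise (Function.onFun IsRelPrime fun π => π ^ f π) := by
    intro f s hs π hπ π' hπ' hne
    exact (hrel π (hs hπ) π' (hs hπ') hne).pow
  have hprod : ∀ (f : R → ℕ) (s : Finset R) (z : R), s ⊆ T → (∀ π ∈ s, π ^ f π ∣ z) →
      ∏ π ∈ s, π ^ f π ∣ z := fun f s z hs hz =>
    Finset.prod_dvd_of_isRelPrime (hpw f s hs) hz
  have hPe : P ∣ ∏ π ∈ T, π ^ (UniqueFactorizationMonoid.normalizedFactors P).count π := by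
    rw [hT, ← Finset.prod_multiset_count]
    exact (UniqueFactorizationMonoid.prod_normalizedFactors hP).symm.dvd
  have hcount : ∀ π ∈ T, π ^ (UniqueFactorizationMonoid.normalizedFactors P).count π ∣ P := by
    intro π hπ
    refine dvd_trans ?_ (UniqueFactorizationMonoid.prod_normalizedFactors hP).dvd
    rw [Finset.prod_multiset_count]
    exact Finset.dvd_prod_of_mem _ (by rw [← hT]; exact hπ)
  have hA := hprod (fun _ => 1) (T.filter fun π => ¬ π ∣ v ∧ π ∣ ρ) ρ (Finset.filter_subset _ _)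
    (fun π hπ => by rw [pow_one]; exact (Finset.mem_filter.1 hπ).2.2)
  have hA' := hprod (fun _ => 1) (T.filter fun π => ¬ π ∣ v ∧ π ∣ ρ) P (Finset.filter_subset _ _)
    (fun π hπ => by rw [pow_one]; exact hdvd π (Finset.mem_filter.1 hπ).1)
  have hC := hprod (fun _ => 1) (T.filter fun π => ¬ π ∣ v ∧ ¬ π ∣ ρ) P (Finset.filter_subset _ _)
    (fun π hπ => by rw [pow_one]; exact hdvd π (Finset.mem_filter.1 hπ).1)
  refine ⟨∏ π ∈ T.filter fun π => ¬ π ∣ v ∧ π ∣ ρ, π ^ 1,
    ∏ π ∈ T.filter fun π => ¬ π ∣ v ∧ ¬ π ∣ ρ, π ^ 1,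
    Multiset.card (UniqueFactorizationMonoid.normalizedFactors P), hA, hA', ?_, hC, ?_, ?_, ?_⟩
  · intro π hπ hd hv
    obtain ⟨π', h1, h2⟩ := (hπ.prime.dvd_finsetProd_iff _).1 hd
    rw [pow_one] at h2
    rw [Finset.mem_filter] at h1
    exact h1.2.1 (((hπ.associated_of_dvd (hirr π' h1.1) h2).symm.dvd).trans hv)
  · refine IsRelPrime.prod_left fun π hπ => ?_
    rw [pow_one]
    rw [Finset.mem_filter] at hπ
    exact (hirr π hπ.1).isRelPrime_iff_not_dvd.2 hπ.2.2
  · rw [Finset.prod_ne_zero_iff]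
    intro π hπ
    exact pow_ne_zero _ (hirr π (Finset.mem_filter.1 hπ).1).ne_zero
  · refine hPe.trans (hprod _ T _ (Finset.Subset.refl _) ?_)
    intro π hπ
    obtain ⟨e, he⟩ : ∃ e, e = (UniqueFactorizationMonoid.normalizedFactors P).count π := ⟨_, rfl⟩
    have hc := hcount π hπ
    have hcard := Multiset.count_le_card π (UniqueFactorizationMonoid.normalizedFactors P)
    rw [← he] at hc hcard ⊢
    by_cases hv : π ∣ v
    · refine dvd_mul_of_dvd_left ?_ _
      exact (pow_dvd_pow_of_dvd hv e).trans (pow_dvd_pow v hcard)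
    · refine dvd_mul_of_dvd_right ?_ _
      rcases Nat.eq_zero_or_pos e with h0 | h0
      · rw [h0, pow_zero]
        exact one_dvd _
      · obtain ⟨n, rfl⟩ := Nat.exists_eq_succ_of_ne_zero h0.ne'
        rw [Nat.succ_eq_add_one] at hc ⊢
        rw [pow_succ]
        refine mul_dvd_mul (h π (hirr π hπ) hv n hc) ?_
        by_cases hρ : π ∣ ρ
        · refine dvd_mul_of_dvd_left ?_ _
          have := Finset.dvd_prod_of_mem (fun π : R => π ^ 1)
            (Finset.mem_filter.2 ⟨hπ, hv, hρ⟩ : π ∈ T.filter fun π => ¬ π ∣ v ∧ π ∣ ρ)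
          simpa using this
        · refine dvd_mul_of_dvd_right ?_ _
          have := Finset.dvd_prod_of_mem (fun π : R => π ^ 1)
            (Finset.mem_filter.2 ⟨hπ, hv, hρ⟩ : π ∈ T.filter fun π => ¬ π ∣ v ∧ ¬ π ∣ ρ)
          simpa using this

end Pool.Agent.Run7.h720
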