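import Pool.Agent.Run7.h720.Near

/-!
Germs of units in terms of germs of units which are independent modulo the germs of small height.
-/

set_option autoImplicit false
set_option linter.unusedSectionVars false

namespace Pool.Agent.Run7.h720

open NumberField IsDedekindDomain Height Filter Topology
open Pool.Agent.W180.OP (Pl av wt fv fv_support_finite wt_nonneg nrm)
open Pool.Agent.K1H83.VN

variable {k : Type} [Field k] [NumberField k] {σ : Sc} {S : Finset (Pl k)}

/-- monomials with integral exponents -/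
noncomputable def zmon {J : Type} [Fintype J] (γ : J → G k σ) (z : J → ℤ) : G k σ :=
  ∏ j, γ j ^ (z j)

section
variable {J : Type} [Fintype J] {γ : J → G k σ}

theorem zmon_add (h0 : ∀ j, γ j ≠ 0) (z z' : J → ℤ) :
    zmon γ (z + z') = zmon γ z * zmon γ z' := by
  unfold zmon
  rw [← Finset.prod_mul_distrib]
  exact Finset.prod_congr rfl fun j _ => zpow_add₀ (h0 j) _ _

theorem zmon_zero : zmon γ 0 = 1 := by
  unfold zmon
  exact Finset.prod_eq_one fun j _ => zpow_zero _

theorem zmon_smul (a : ℤ) (z : J → ℤ) : zmon γ (a • z) = zmon γ z ^ a := by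
  unfold zmon
  rw [← Finset.prod_zpow]
  refine Finset.prod_congr rfl fun j _ => ?_
  show γ j ^ (a • z j) = _
  rw [smul_eq_mul, mul_comm, zpow_mul]

theorem zmon_sum (h0 : ∀ j, γ j ≠ 0) {ι : Type} (s : Finset ι) (a : ι → ℤ) (z : ι → J → ℤ) :
    zmon γ (∑ i ∈ s, a i • z i) = ∏ i ∈ s, zmon γ (z i) ^ (a i) := by
  classical
  induction s using Finset.induction_on with
  | empty => rw [Finset.sum_empty, Finset.prod_empty, zmon_zero]
  | insert i s hi ih =>
    rw [Finset.sum_insert hi, Finset.prod_insert hi, zmon_add h0, zmon_smul, ih]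

theorem zmon_single [DecidableEq J] (j : J) : zmon γ (Pi.single j 1) = γ j := by
  unfold zmon
  rw [Finset.prod_eq_single j]
  · rw [Pi.single_eq_same, zpow_one]
  · intro i _ hi
    rw [Pi.single_eq_of_ne hi, zpow_zero]
  · intro h
    exact absurd (Finset.mem_univ j) h

/-- the lattice of the relations -/
noncomputable def rel (γ : J → G k σ) (h0 : ∀ j, γ j ≠ 0) : Submodule ℤ (J → ℤ) where
  carrier := {z | zmon γ z ∈ FF k σ}
  add_mem' := by
    intro z z' h h'
    show zmon γ (z + z') ∈ FF k σ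
    rw [zmon_add h0]
    exact (FF k σ).mul_mem h h'
  zero_mem' := by
    show zmon γ 0 ∈ FF k σ
    rw [zmon_zero]
    exact (FF k σ).one_mem
  smul_mem' := by
    intro a z h
    show zmon γ (a • z) ∈ FF k σ
    rw [zmon_smul]
    exact (FF k σ).zpow_mem h a

theorem mem_rel (h0 : ∀ j, γ j ≠ 0) (z : J → ℤ) : z ∈ rel γ h0 ↔ zmon γ z ∈ FF k σ := Iff.rfl

theorem rel_free (h0 : ∀ j, γ j ≠ 0) : Module.IsTorsionFree ℤ ((J → ℤ) ⧸ rel γ h0) := by
  refine Module.IsTorsionFree.of_smul_eq_zero fun a m h => ?_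
  by_cases ha : a = 0
  · exact Or.inl ha
  right
  obtain ⟨z, rfl⟩ := Submodule.mkQ_surjective _ m
  rw [← map_smul, Submodule.mkQ_apply, Submodule.Quotient.mk_eq_zero, mem_rel, zmon_smul] at h
  rw [Submodule.mkQ_apply, Submodule.Quotient.mk_eq_zero, mem_rel]
  obtain ⟨n, rfl | rfl⟩ := Int.eq_nat_or_neg a
  · rw [zpow_natCast] at h
    exact root_mem _ n (fun h' => ha (by rw [h']; rfl)) h
  · rw [zpow_neg, zpow_natCast] at h
    have h1 := (FF k σ).inv_mem h
    rw [inv_inv] at h1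
    exact root_mem _ n (fun h' => ha (by rw [h']; rfl)) h1

end

/-- **Representation by independent units.** -/
theorem exists_rep {J : Type} [Fintype J] (γ : J → G k σ) (hγ : ∀ j, SU S (γ j))
    (hB : ∀ j, γ j ∈ BB k σ) :
    ∃ (r : ℕ) (u : Fin r → G k σ), Indep S u ∧
      ∀ j, ∃ (κ : G k σ) (e : Fin r → ℤ), κ ∈ FF k σ ∧ κ ≠ 0 ∧ γ j = κ * ∏ i, u i ^ (e i) := by
  classical
  have h0 : ∀ j, γ j ≠ 0 := fun j => (hγ j).ne_zero
  have hz0 : ∀ z, zmon γ z ≠ 0 := fun z => Finset.prod_ne_zero_iff.2 fun j _ => zpow_ne_zero _ (h0 j)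
  have htf := rel_free (γ := γ) h0
  have hfree : Module.Free ℤ ((J → ℤ) ⧸ rel γ h0) := Module.free_of_finite_type_torsion_free'
  let b := Module.finBasis ℤ ((J → ℤ) ⧸ rel γ h0)
  have hex : ∀ i, ∃ z : J → ℤ, (rel γ h0).mkQ z = b i := fun i => Submodule.mkQ_surjective _ _
  choose z hz using hex
  refine ⟨_, fun i => zmon γ (z i), ⟨?_, ?_, ?_⟩, ?_⟩
  · intro i
    exact SU.prod _ _ fun j _ => (hγ j).zpow _
  · intro i
    exact (BB k σ).prod_mem fun j _ => (BB k σ).zpow_mem (hB j) _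
  · intro e he
    rw [← zmon_sum h0 Finset.univ e z] at he
    have h1 : (rel γ h0).mkQ (∑ i, e i • z i) = 0 := by
      rw [Submodule.mkQ_apply, Submodule.Quotient.mk_eq_zero, mem_rel]
      exact he
    rw [map_sum] at h1
    simp only [map_smul, hz] at h1
    funext i
    exact (Fintype.linearIndependent_iff.1 b.linearIndependent) e h1 i
  · intro j
    obtain ⟨e, he⟩ : ∃ e : Fin (Module.finrank ℤ ((J → ℤ) ⧸ rel γ h0)) → ℤ,
        e = fun i => b.repr ((rel γ h0).mkQ (Pi.single j 1)) i := ⟨_, rfl⟩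
    have h1 : (rel γ h0).mkQ (Pi.single j 1) = (rel γ h0).mkQ (∑ i, e i • z i) := by
      rw [map_sum]
      simp only [map_smul, hz]
      rw [he]
      exact (b.sum_repr _).symm
    have h2 : zmon γ (Pi.single j 1 - ∑ i, e i • z i) ∈ FF k σ := by
      rw [← mem_rel h0, ← Submodule.Quotient.mk_eq_zero, ← Submodule.mkQ_apply, map_sub, h1,
        sub_self]
    refine ⟨_, e, h2, hz0 _, ?_⟩
    rw [← zmon_sum h0 Finset.univ e z, ← zmon_add h0, sub_add_cancel, zmon_single]

end Pool.Agent.Run7.h720
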