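import Pool.Agent.Run7.h720.WRes
import Pool.Agent.N265.CV.HtcA

/-!
The exceptional points on the projective line over a base.
-/

set_option autoImplicit false
set_option linter.unusedSectionVars false

namespace Pool.Agent.Run7.h720

open NumberField IsDedekindDomain Height
open Pool.Agent.W180.OP (Pl av wt fv fv_support_finite wt_nonneg nrm)
open Pool.Agent.K1H83.VN
open MvPolynomial (aeval pderiv monomial)

section
variable {K : Type} [Field K] [NumberField K] {p : ℕ}

/-- the height of the value of a polynomial -/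
theorem ht_value (Q : MvPolynomial (Fin p) K) : ∃ C : ℝ, 0 ≤ C ∧ ∀ c : Fin p → K,
    logHeight₁ (aeval c Q) ≤ C * (1 + ∑ j, logHeight₁ (c j)) := by
  have hs : ∀ c : Fin p → K, 0 ≤ ∑ j, logHeight₁ (c j) := fun c =>
    Finset.sum_nonneg fun j _ => zero_le_logHeight₁ _
  induction Q using MvPolynomial.induction_on with
  | C a =>
    refine ⟨logHeight₁ a, zero_le_logHeight₁ _, fun c => ?_⟩
    rw [MvPolynomial.aeval_C]
    have h1 := mul_nonneg (zero_le_logHeight₁ a) (hs c)
    show logHeight₁ a ≤ _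
    linarith
  | add P Q hP hQ =>
    obtain ⟨C1, hC1, h1⟩ := hP
    obtain ⟨C2, hC2, h2⟩ := hQ
    have h0 : 0 ≤ totalWeight K * Real.log 2 := by positivity
    refine ⟨C1 + C2 + totalWeight K * Real.log 2, by positivity, fun c => ?_⟩
    rw [map_add]
    refine (logHeight₁_add_le _ _).trans ?_
    have h3 := h1 c
    have h4 := h2 c
    have h5 := mul_nonneg h0 (hs c)
    linarith
  | mul_X P j hP =>
    obtain ⟨C1, hC1, h1⟩ := hP
    refine ⟨C1 + 1, by positivity, fun c => ?_⟩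
    rw [map_mul, MvPolynomial.aeval_X]
    refine (logHeight₁_mul_le _ _).trans ?_
    have h3 := h1 c
    have h4 : logHeight₁ (c j) ≤ ∑ j, logHeight₁ (c j) :=
      Finset.single_le_sum (f := fun j => logHeight₁ (c j)) (fun j _ => zero_le_logHeight₁ _)
        (Finset.mem_univ j)
    linarith

end

/-- the exponents of degree `e` in two variables -/
noncomputable def ex2 (e j : ℕ) : Fin 2 →₀ ℕ :=
  Finsupp.single 0 j + Finsupp.single 1 (e - j)

theorem ex2_zero (e j : ℕ) : ex2 e j 0 = j := by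
  unfold ex2
  simp

theorem ex2_one (e j : ℕ) : ex2 e j 1 = e - j := by
  unfold ex2
  simp

theorem ex2_inj (e : ℕ) : Function.Injective (ex2 e) := fun i j h => by
  have := congrArg (fun s => s 0) h
  simpa only [ex2_zero] using this

theorem hom_ex2 {K : Type} [CommRing K] {Φ : MvPolynomial (Fin 2) K} {e : ℕ}
    (hΦ : Φ.IsHomogeneous e) {s : Fin 2 →₀ ℕ} (hs : Φ.coeff s ≠ 0) :
    s 0 ≤ e ∧ s = ex2 e (s 0) := by
  have h1 := hΦ hs
  have h2 : s 0 + s 1 = e := by
    rw [← h1, Finsupp.weight_apply, Finsupp.sum_fintype]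
    · simp
    · simp
  refine ⟨by omega, ?_⟩
  ext i
  fin_cases i
  · show s 0 = ex2 e (s 0) 0
    rw [ex2_zero]
  · show s 1 = ex2 e (s 0) 1
    rw [ex2_one]
    omega

theorem hom_eval {K : Type} [Field K] {Φ : MvPolynomial (Fin 2) K} {e : ℕ}
    (hΦ : Φ.IsHomogeneous e) (x : Fin 2 → K) :
    aeval x Φ = ∑ j ∈ Finset.range (e + 1), Φ.coeff (ex2 e j) * (x 0 ^ j * x 1 ^ (e - j)) := by
  classical
  have h1 : aeval x Φ = ∑ s ∈ Φ.support, Φ.coeff s * (x 0 ^ s 0 * x 1 ^ s 1) := by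
    rw [MvPolynomial.aeval_def, MvPolynomial.eval₂_eq']
    refine Finset.sum_congr rfl fun s _ => ?_
    rw [Fin.prod_univ_two]
    rfl
  have h2 : ∑ j ∈ Finset.range (e + 1), Φ.coeff (ex2 e j) * (x 0 ^ j * x 1 ^ (e - j)) =
      ∑ s ∈ (Finset.range (e + 1)).image (ex2 e), Φ.coeff s * (x 0 ^ s 0 * x 1 ^ s 1) := by
    rw [Finset.sum_image fun i _ j _ h => ex2_inj e h]
    refine Finset.sum_congr rfl fun j _ => ?_
    rw [ex2_zero, ex2_one]
  rw [h1, h2]
  refine Finset.sum_subset (fun s hs => ?_) fun s _ hs => ?_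
  · obtain ⟨h3, h4⟩ := hom_ex2 hΦ (MvPolynomial.mem_support_iff.1 hs)
    rw [Finset.mem_image]
    exact ⟨s 0, Finset.mem_range.2 (by omega), h4.symm⟩
  · rw [MvPolynomial.notMem_support_iff.1 hs, zero_mul]

/-- **the points on the projective line at which a nonzero form of the family vanishes** -/
theorem exc_bound {K : Type} [Field K] [NumberField K] {p : ℕ}
    (P : MvPolynomial (Fin 2) (MvPolynomial (Fin p) K)) (e : ℕ) (hP : P.IsHomogeneous e) :
    ∃ C : ℝ, 0 ≤ C ∧ ∀ (c : Fin p → K) (x : Fin 2 → K), x 1 ≠ 0 → fib c P ≠ 0 →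
      aeval x (fib c P) = 0 → logHeight₁ (x 0 / x 1) ≤ C * (1 + ∑ j, logHeight₁ (c j)) := by
  classical
  choose C hC0 hC using fun j : Fin (e + 1) => ht_value (K := K) (P.coeff (ex2 e j))
  obtain ⟨W, hW⟩ : ∃ W : ℝ, W = totalWeight K * Real.log ((e + 1 : ℕ) : ℝ) := ⟨_, rfl⟩
  have hW0 : 0 ≤ W := by
    rw [hW]
    refine mul_nonneg (Nat.cast_nonneg _) (Real.log_nonneg ?_)
    exact_mod_cast Nat.le_add_left 1 e
  refine ⟨W + ∑ j, C j, add_nonneg hW0 (Finset.sum_nonneg fun j _ => hC0 j), ?_⟩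
  intro c x hx1 hne h0
  have hh := fib_hom c hP
  obtain ⟨y, hy⟩ : ∃ y : K, y = x 0 / x 1 := ⟨_, rfl⟩
  have hx0 : x 0 = y * x 1 := by
    rw [hy]
    field_simp
  obtain ⟨R, hR⟩ : ∃ R : Polynomial K, R = ∑ j ∈ Finset.range (e + 1),
    Polynomial.C ((fib c P).coeff (ex2 e j)) * Polynomial.X ^ j := ⟨_, rfl⟩
  have hco : ∀ j, R.coeff j = if j ∈ Finset.range (e + 1) then (fib c P).coeff (ex2 e j) else 0 := by
    intro j
    rw [hR, Polynomial.finsetSum_coeff]
    simp only [Polynomial.coeff_C_mul, Polynomial.coeff_X_pow, mul_ite, mul_one, mul_zero]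
    rw [Finset.sum_ite_eq]
  have hR0 : R ≠ 0 := by
    intro h
    apply hne
    ext s
    rw [MvPolynomial.coeff_zero]
    by_contra hs
    obtain ⟨h3, h4⟩ := hom_ex2 hh hs
    have h5 := hco (s 0)
    rw [h, Polynomial.coeff_zero, if_pos (Finset.mem_range.2 (by omega)), ← h4] at h5
    exact hs h5.symm
  have hdeg : R.natDegree ≤ e := by
    rw [Polynomial.natDegree_le_iff_coeff_eq_zero]
    intro j hj
    rw [hco, if_neg (by rw [Finset.mem_range]; omega)]
  have hev : R.eval y = 0 := by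
    have h1 := hom_eval hh x
    rw [h0] at h1
    have h2 : x 1 ^ e * R.eval y = 0 := by
      rw [h1, hR, Polynomial.eval_finsetSum, Finset.mul_sum]
      refine Finset.sum_congr rfl fun j hj => ?_
      rw [Polynomial.eval_mul, Polynomial.eval_C, Polynomial.eval_pow, Polynomial.eval_X, hx0,
        mul_pow]
      have h3 : x 1 ^ e = x 1 ^ j * x 1 ^ (e - j) := by
        rw [← pow_add]
        congr 1
        have := Finset.mem_range.1 hj
        omega
      rw [h3]
      ring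
    rcases mul_eq_zero.1 h2 with h | h
    · exact absurd h (pow_ne_zero _ hx1)
    · exact h
  obtain ⟨Q, hQ⟩ := Polynomial.dvd_iff_isRoot.2 hev
  have hQ0 : Q ≠ 0 := by
    rintro rfl
    exact hR0 (by rw [hQ, mul_zero])
  have h1 := Pool.Agent.N265.CV.logHeight_root e y Q hQ0 (by rw [← hQ]; exact hdeg)
  rw [← hQ, ← hW] at h1
  have h2 : logHeight (Pool.Agent.N265.CV.cf e R) ≤ ∑ i, logHeight₁ (Pool.Agent.N265.CV.cf e R i) :=
    logHeight_le_sum _
  have h3 : ∑ i, logHeight₁ (Pool.Agent.N265.CV.cf e R i) ≤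
      ∑ i, C i * (1 + ∑ j, logHeight₁ (c j)) := by
    refine Finset.sum_le_sum fun i _ => ?_
    have h4 : Pool.Agent.N265.CV.cf e R i = aeval c (P.coeff (ex2 e i)) := by
      show R.coeff i = _
      rw [hco, if_pos (Finset.mem_range.2 i.2)]
      unfold fib
      rw [MvPolynomial.coeff_map]
      rfl
    rw [h4]
    exact hC i c
  rw [← Finset.sum_mul] at h3
  have h4 : 0 ≤ logHeight (Pool.Agent.N265.CV.cf e Q) := logHeight_nonneg _
  have h5 : 0 ≤ ∑ j, logHeight₁ (c j) := Finset.sum_nonneg fun j _ => zero_le_logHeight₁ _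
  have h6 := mul_nonneg hW0 h5
  rw [← hy]
  linarith

end Pool.Agent.Run7.h720
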