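import Pool.Agent.Run7.h720.VMain
import Pool.Agent.Run7.h720.OkAbc

/-!
Divisors with simple normal crossings on the product of two lines, in the Segre embedding.
-/

set_option autoImplicit false
set_option linter.unusedSectionVars false

namespace Pool.Agent.Run7.h720

open NumberField IsDedekindDomain Height
open Pool.Agent.W180.OP (Pl av wt fv fv_support_finite wt_nonneg nrm)
open Pool.Agent.K1H83.VN
open MvPolynomial

/-! ### Coordinates -/

def ca : Fin 4 → Fin 2 := ![0, 0, 1, 1]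

def cb : Fin 4 → Fin 2 := ![0, 1, 0, 1]

def ce : Fin 4 ≃ Fin 2 × Fin 2 where
  toFun j := (ca j, cb j)
  invFun p := (![![0, 1], ![2, 3]] : Fin 2 → Fin 2 → Fin 4) p.1 p.2
  left_inv j := by fin_cases j <;> rfl
  right_inv p := by
    obtain ⟨a, b⟩ := p
    fin_cases a <;> fin_cases b <;> rfl

section
variable {k A : Type} [Field k] [CommRing A] [Algebra k A]

/-- the point with the homogeneous coordinates `a` and `b` -/
def pr (a b : Fin 2 → A) : Fin 4 → A := ![a 0, a 1, b 0, b 1]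

/-- its image in the Segre embedding -/
def sgv (a b : Fin 2 → A) : Fin 4 → A := fun j => a (ca j) * b (cb j)

/-- the Segre embedding -/
noncomputable def sg (k : Type) [Field k] : Fin 4 → MvPolynomial (Fin 4) k :=
  ![X 0 * X 2, X 0 * X 3, X 1 * X 2, X 1 * X 3]

theorem aeval_sg (a b : Fin 2 → A) : (fun i => aeval (pr a b) (sg k i)) = sgv a b := by
  funext i
  fin_cases i <;> simp [sg, pr, sgv, ca, cb]

theorem aeval_sgv (a b : Fin 2 → A) (H : MvPolynomial (Fin 4) k) :
    aeval (sgv a b) H = aeval (pr a b) (aeval (sg k) H) := by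
  rw [comp_aeval_apply, aeval_sg]

/-- the equation of the quadric -/
noncomputable def quad (k : Type) [Field k] : MvPolynomial (Fin 4) k := X 0 * X 3 - X 1 * X 2

theorem quad_hom : (quad k).IsHomogeneous 2 :=
  ((isHomogeneous_X _ _).mul (isHomogeneous_X _ _)).sub
    ((isHomogeneous_X _ _).mul (isHomogeneous_X _ _))

theorem quad_sg : aeval (sg k) (quad k) = 0 := by
  unfold quad sg
  rw [map_sub, map_mul, map_mul]
  simp only [aeval_X]
  simp only [Matrix.cons_val]
  ring

/-! ### Lifting forms of bidegree `(d, d)` -/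

noncomputable def lex (s : Fin 4 →₀ ℕ) : Fin 4 →₀ ℕ :=
  Finsupp.equivFunOnFinite.symm ![min (s 0) (s 2), s 0 - s 2, s 2 - s 0, min (s 1) (s 3)]

noncomputable def lift (P : MvPolynomial (Fin 4) k) : MvPolynomial (Fin 4) k :=
  ∑ s ∈ P.support, monomial (lex s) (coeff s P)

theorem lift_hom (P : MvPolynomial (Fin 4) k) (d : ℕ)
    (hP : ∀ s ∈ P.support, s 0 + s 1 = d ∧ s 2 + s 3 = d) : (lift P).IsHomogeneous d := by
  unfold lift
  refine IsHomogeneous.sum _ _ _ fun s hs => ?_
  refine isHomogeneous_monomial _ ?_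
  obtain ⟨h1, h2⟩ := hP s hs
  rw [Finsupp.degree_eq_sum, Fin.sum_univ_four]
  show min (s 0) (s 2) + (s 0 - s 2) + (s 2 - s 0) + min (s 1) (s 3) = d
  omega

theorem lift_sg (P : MvPolynomial (Fin 4) k) (d : ℕ)
    (hP : ∀ s ∈ P.support, s 0 + s 1 = d ∧ s 2 + s 3 = d) : aeval (sg k) (lift P) = P := by
  unfold lift
  rw [map_sum]
  conv_rhs => rw [P.as_sum]
  refine Finset.sum_congr rfl fun s hs => ?_
  obtain ⟨h1, h2⟩ := hP s hs
  rw [aeval_monomial, Finsupp.prod_fintype _ _ fun i => pow_zero _, Fin.prod_univ_four,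
    monomial_eq, Finsupp.prod_fintype _ _ fun i => pow_zero _, Fin.prod_univ_four]
  show C (coeff s P) * ((X 0 * X 2) ^ min (s 0) (s 2) * (X 0 * X 3) ^ (s 0 - s 2) *
    (X 1 * X 2) ^ (s 2 - s 0) * (X 1 * X 3) ^ min (s 1) (s 3)) = _
  have e0 : s 0 = min (s 0) (s 2) + (s 0 - s 2) := by omega
  have e1 : s 1 = (s 2 - s 0) + min (s 1) (s 3) := by omega
  have e2 : s 2 = min (s 0) (s 2) + (s 2 - s 0) := by omega
  have e3 : s 3 = (s 0 - s 2) + min (s 1) (s 3) := by omega
  obtain ⟨p, hp⟩ : ∃ p, p = min (s 0) (s 2) := ⟨_, rfl⟩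
  obtain ⟨q, hq⟩ : ∃ q, q = s 0 - s 2 := ⟨_, rfl⟩
  obtain ⟨r, hr⟩ : ∃ r, r = s 2 - s 0 := ⟨_, rfl⟩
  obtain ⟨t, ht⟩ : ∃ t, t = min (s 1) (s 3) := ⟨_, rfl⟩
  rw [← hp, ← hq] at e0
  rw [← hr, ← ht] at e1
  rw [← hp, ← hr] at e2
  rw [← hq, ← ht] at e3
  rw [← hp, ← hq, ← hr, ← ht, e0, e1, e2, e3]
  ring

/-- bihomogeneous polynomials -/
def Bihom (P : MvPolynomial (Fin 4) k) (a b : ℕ) : Prop :=
  P.IsWeightedHomogeneous ![1, 1, 0, 0] a ∧ P.IsWeightedHomogeneous ![0, 0, 1, 1] b

theorem Bihom.support {P : MvPolynomial (Fin 4) k} {a b : ℕ} (h : Bihom P a b) (s : Fin 4 →₀ ℕ)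
    (hs : s ∈ P.support) : s 0 + s 1 = a ∧ s 2 + s 3 = b := by
  rw [mem_support_iff] at hs
  have h1 := h.1 hs
  have h2 := h.2 hs
  rw [Finsupp.weight_apply, Finsupp.sum_fintype _ _ (by intro i; simp),
    Fin.sum_univ_four] at h1 h2
  simp at h1 h2
  exact ⟨h1, h2⟩

/-- the multiple of bidegree `(max a b, max a b)` -/
noncomputable def mult (a b : ℕ) (j : Fin 4) : MvPolynomial (Fin 4) k :=
  (![X 0, X 1] : Fin 2 → MvPolynomial (Fin 4) k) (ca j) ^ (max a b - a) *
    (![X 2, X 3] : Fin 2 → MvPolynomial (Fin 4) k) (cb j) ^ (max a b - b)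

theorem bihom_xa (c : Fin 2) :
    Bihom ((![X 0, X 1] : Fin 2 → MvPolynomial (Fin 4) k) c) 1 0 := by
  fin_cases c
  · exact ⟨isWeightedHomogeneous_X k _ 0, isWeightedHomogeneous_X k _ 0⟩
  · exact ⟨isWeightedHomogeneous_X k _ 1, isWeightedHomogeneous_X k _ 1⟩

theorem bihom_xb (c : Fin 2) :
    Bihom ((![X 2, X 3] : Fin 2 → MvPolynomial (Fin 4) k) c) 0 1 := by
  fin_cases c
  · exact ⟨isWeightedHomogeneous_X k _ 2, isWeightedHomogeneous_X k _ 2⟩
  · exact ⟨isWeightedHomogeneous_X k _ 3, isWeightedHomogeneous_X k _ 3⟩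

theorem Bihom.mul {P Q : MvPolynomial (Fin 4) k} {a b a' b' : ℕ} (h : Bihom P a b)
    (h' : Bihom Q a' b') : Bihom (P * Q) (a + a') (b + b') :=
  ⟨h.1.mul h'.1, h.2.mul h'.2⟩

theorem Bihom.pow {P : MvPolynomial (Fin 4) k} {a b : ℕ} (h : Bihom P a b) (n : ℕ) :
    Bihom (P ^ n) (n * a) (n * b) := by
  have h1 := h.1.pow n
  have h2 := h.2.pow n
  rw [smul_eq_mul] at h1 h2
  exact ⟨h1, h2⟩

theorem bihom_mult {P : MvPolynomial (Fin 4) k} {a b : ℕ} (h : Bihom P a b) (j : Fin 4) :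
    Bihom (P * mult a b j) (max a b) (max a b) := by
  have h1 := h.mul (((bihom_xa (k := k) (ca j)).pow (max a b - a)).mul
    ((bihom_xb (k := k) (cb j)).pow (max a b - b)))
  have e1 : a + ((max a b - a) * 1 + (max a b - b) * 0) = max a b := by omega
  have e2 : b + ((max a b - a) * 0 + (max a b - b) * 1) = max a b := by omega
  rw [e1, e2] at h1
  exact h1

theorem aeval_mult (a b : ℕ) (j : Fin 4) (x y : Fin 2 → A) :
    aeval (pr x y) (mult a b j : MvPolynomial (Fin 4) k) =
      x (ca j) ^ (max a b - a) * y (cb j) ^ (max a b - b) := by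
  unfold mult
  rw [map_mul, map_pow, map_pow]
  congr 2
  · generalize ca j = c
    fin_cases c <;> simp [pr]
  · generalize cb j = c
    fin_cases c <;> simp [pr]

/-- the forms which define the divisor in the Segre embedding -/
noncomputable def sF {q : ℕ} (F : Fin q → MvPolynomial (Fin 4) k) (a b : Fin q → ℕ) (i : Fin q)
    (j : Fin 4) : MvPolynomial (Fin 4) k := lift (F i * mult (a i) (b i) j)

theorem sF_hom {q : ℕ} {F : Fin q → MvPolynomial (Fin 4) k} {a b : Fin q → ℕ}
    (h : ∀ i, Bihom (F i) (a i) (b i)) (i : Fin q) (j : Fin 4) :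
    (sF F a b i j).IsHomogeneous (max (a i) (b i)) :=
  lift_hom _ _ fun s hs => (bihom_mult (h i) j).support s hs

theorem sF_sg {q : ℕ} {F : Fin q → MvPolynomial (Fin 4) k} {a b : Fin q → ℕ}
    (h : ∀ i, Bihom (F i) (a i) (b i)) (i : Fin q) (j : Fin 4) :
    aeval (sg k) (sF F a b i j) = F i * mult (a i) (b i) j :=
  lift_sg _ _ fun s hs => (bihom_mult (h i) j).support s hs

theorem sF_eval {q : ℕ} {F : Fin q → MvPolynomial (Fin 4) k} {a b : Fin q → ℕ}
    (h : ∀ i, Bihom (F i) (a i) (b i)) (i : Fin q) (j : Fin 4) (x y : Fin 2 → A) :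
    aeval (sgv x y) (sF F a b i j) = aeval (pr x y) (F i) *
      (x (ca j) ^ (max (a i) (b i) - a i) * y (cb j) ^ (max (a i) (b i) - b i)) := by
  rw [aeval_sgv, sF_sg h, map_mul, aeval_mult]

theorem rank_one {L : Type} [Field L] (z : Fin 4 → L) (hz : z ≠ 0) (h : z 0 * z 3 = z 1 * z 2) :
    ∃ a b : Fin 2 → L, a ≠ 0 ∧ b ≠ 0 ∧ z = sgv a b := by
  by_cases h0 : z 0 ≠ 0 ∨ z 1 ≠ 0
  · obtain ⟨t, ht0, ht1⟩ : ∃ t, z 2 = t * z 0 ∧ z 3 = t * z 1 := by
      rcases h0 with h0 | h0
      · exact ⟨z 2 / z 0, by field_simp, by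
          rw [div_mul_eq_mul_div, eq_div_iff h0]
          linear_combination h⟩
      · exact ⟨z 3 / z 1, by
          rw [div_mul_eq_mul_div, eq_div_iff h0]
          linear_combination -h, by field_simp⟩
    refine ⟨![1, t], ![z 0, z 1], ne_of_coord (i := 0) one_ne_zero, ?_, ?_⟩
    · rcases h0 with h0 | h0
      · exact ne_of_coord (i := 0) h0
      · exact ne_of_coord (i := 1) h0
    · funext j
      fin_cases j
      · show z 0 = 1 * z 0
        rw [one_mul]
      · show z 1 = 1 * z 1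
        rw [one_mul]
      · exact ht0
      · exact ht1
  · push Not at h0
    refine ⟨![0, 1], ![z 2, z 3], ne_of_coord (i := 1) one_ne_zero, ?_, ?_⟩
    · by_contra hcon
      apply hz
      funext j
      fin_cases j
      · exact h0.1
      · exact h0.2
      · exact congrFun hcon 0
      · exact congrFun hcon 1
    · funext j
      fin_cases j
      · show z 0 = 0 * z 2
        rw [zero_mul, h0.1]
      · show z 1 = 0 * z 3
        rw [zero_mul, h0.2]
      · show z 2 = 1 * z 2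
        rw [one_mul]
      · show z 3 = 1 * z 3
        rw [one_mul]

/-- the chain rule for the Segre embedding -/
theorem chain_sg (a b : Fin 2 → A) (H : MvPolynomial (Fin 4) k) (c : Fin 4) :
    aeval (pr a b) (pderiv c (aeval (sg k) H)) =
      ∑ j, aeval (pr a b) (pderiv c (sg k j)) * aeval (sgv a b) (pderiv j H) := by
  rw [der_aeval, map_sum]
  refine Finset.sum_congr rfl fun j _ => ?_
  rw [map_mul, aeval_sgv]

theorem quad_grad (z : Fin 4 → A) :
    (fun y => aeval z (pderiv y (quad k))) = ![z 3, -z 2, -z 1, z 0] := by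
  funext y
  unfold quad
  fin_cases y <;> simp [pderiv_X, Pi.single_apply]

/-- **simple normal crossings on the product of two lines** -/
theorem sm_seg {q : ℕ} (F : Fin q → MvPolynomial (Fin 4) k) (a b : Fin q → ℕ)
    (hF : ∀ i, Bihom (F i) (a i) (b i))
    (hNC : ∀ (L : Type) [Field L] [Algebra k L] (z : Fin 4 → L), (z 0 ≠ 0 ∨ z 1 ≠ 0) →
      (z 2 ≠ 0 ∨ z 3 ≠ 0) → LinearIndependent L (fun i : {i : Fin q // aeval z (F i) = 0} =>
        fun c : Fin 4 => aeval z (pderiv c (F i.1)))) :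
    SmPair 1 (fun _ : Fin 1 => quad k) (sF F a b) := by
  classical
  intro L _ _ z hz hG
  have h0 : z 0 * z 3 = z 1 * z 2 := by
    have h1 := hG 0
    unfold quad at h1
    rw [map_sub, map_mul, map_mul] at h1
    simp only [aeval_X] at h1
    exact sub_eq_zero.1 h1
  obtain ⟨x, y, hx, hy, rfl⟩ := rank_one z hz h0
  obtain ⟨c, hc⟩ := Function.ne_iff.1 hx
  obtain ⟨c', hc'⟩ := Function.ne_iff.1 hy
  obtain ⟨j, hj⟩ : ∃ j, ce j = (c, c') := ⟨ce.symm (c, c'), ce.apply_symm_apply _⟩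
  have hj1 : ca j = c := congrArg Prod.fst hj
  have hj2 : cb j = c' := congrArg Prod.snd hj
  refine ⟨id, fun _ => j, ?_⟩
  have hx' : pr x y 0 ≠ 0 ∨ pr x y 1 ≠ 0 := by
    revert hc
    fin_cases c
    · exact fun h => Or.inl h
    · exact fun h => Or.inr h
  have hy' : pr x y 2 ≠ 0 ∨ pr x y 3 ≠ 0 := by
    revert hc'
    fin_cases c'
    · exact fun h => Or.inl h
    · exact fun h => Or.inr h
  have hNC' := hNC L (pr x y) hx' hy'
  obtain ⟨μ, hμ⟩ : ∃ μ : Fin q → L, μ = fun i => x c ^ (max (a i) (b i) - a i) *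
    y c' ^ (max (a i) (b i) - b i) := ⟨_, rfl⟩
  have hμ0 : ∀ i, μ i ≠ 0 := by
    intro i
    rw [hμ]
    exact mul_ne_zero (pow_ne_zero _ hc) (pow_ne_zero _ hc')
  have hzero : ∀ i, (∀ j, aeval (sgv x y) (sF F a b i j) = 0) ↔ aeval (pr x y) (F i) = 0 := by
    intro i
    constructor
    · intro h
      have h1 := h j
      rw [sF_eval hF, hj1, hj2] at h1
      have h2 := hμ0 i
      rw [hμ] at h2
      exact (mul_eq_zero.1 h1).resolve_right h2
    · intro h j
      rw [sF_eval hF, h, zero_mul]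
  rw [Fintype.linearIndependent_iff] at hNC' ⊢
  intro g hg
  rw [Fintype.sum_sum_type, Fin.sum_univ_one] at hg
  -- pair with the tangent vectors
  have hpair : ∀ e : Fin 4, ∑ i : {i : Fin q // ∀ j, aeval (sgv x y) (sF F a b i j) = 0},
      g (Sum.inr i) * (μ i.1 * aeval (pr x y) (pderiv e (F i.1))) = 0 := by
    intro e
    have h1 : ∀ i : {i : Fin q // ∀ j, aeval (sgv x y) (sF F a b i j) = 0},
        μ i.1 * aeval (pr x y) (pderiv e (F i.1)) =
          ∑ l, aeval (pr x y) (pderiv e (sg k l)) *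
            aeval (sgv x y) (pderiv l (sF F a b i.1 j)) := by
      intro i
      rw [← chain_sg, sF_sg hF, Derivation.leibniz, smul_eq_mul, smul_eq_mul, map_add, map_mul,
        map_mul, (hzero i.1).1 i.2, zero_mul, zero_add, aeval_mult, hj1, hj2, hμ]
    have h2 : ∑ l, aeval (pr x y) (pderiv e (sg k l)) *
        aeval (sgv x y) (pderiv l (quad k)) = 0 := by
      rw [← chain_sg, quad_sg, map_zero, map_zero]
    have h3 : ∀ l : Fin 4, g (Sum.inl 0) * aeval (sgv x y) (pderiv l (quad k)) +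
        ∑ i : {i : Fin q // ∀ j, aeval (sgv x y) (sF F a b i j) = 0},
          g (Sum.inr i) * aeval (sgv x y) (pderiv l (sF F a b i.1 j)) = 0 := by
      intro l
      have h4 := congrFun hg l
      rw [Pi.add_apply, Finset.sum_apply] at h4
      exact h4
    have h5 : ∑ l, aeval (pr x y) (pderiv e (sg k l)) *
        (g (Sum.inl 0) * aeval (sgv x y) (pderiv l (quad k)) +
          ∑ i : {i : Fin q // ∀ j, aeval (sgv x y) (sF F a b i j) = 0},
            g (Sum.inr i) * aeval (sgv x y) (pderiv l (sF F a b i.1 j))) = 0 :=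
      Finset.sum_eq_zero fun l _ => by rw [h3 l, mul_zero]
    have h6 : ∑ l, aeval (pr x y) (pderiv e (sg k l)) *
        (g (Sum.inl 0) * aeval (sgv x y) (pderiv l (quad k)) +
          ∑ i : {i : Fin q // ∀ j, aeval (sgv x y) (sF F a b i j) = 0},
            g (Sum.inr i) * aeval (sgv x y) (pderiv l (sF F a b i.1 j))) =
        g (Sum.inl 0) * ∑ l, aeval (pr x y) (pderiv e (sg k l)) *
          aeval (sgv x y) (pderiv l (quad k)) +
        ∑ i : {i : Fin q // ∀ j, aeval (sgv x y) (sF F a b i j) = 0}, g (Sum.inr i) *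
          ∑ l, aeval (pr x y) (pderiv e (sg k l)) *
            aeval (sgv x y) (pderiv l (sF F a b i.1 j)) := by
      rw [Finset.mul_sum]
      simp_rw [Finset.mul_sum, mul_add, Finset.mul_sum]
      rw [Finset.sum_add_distrib, Finset.sum_comm]
      congr 1
      · exact Finset.sum_congr rfl fun l _ => by ring
      · refine Finset.sum_congr rfl fun i _ => Finset.sum_congr rfl fun l _ => by ring
    rw [h6, h2, mul_zero, zero_add] at h5
    exact Eq.trans (Finset.sum_congr rfl fun i _ => by rw [h1 i]) h5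
  have hinr : ∀ i : {i : Fin q // ∀ j, aeval (sgv x y) (sF F a b i j) = 0},
      g (Sum.inr i) = 0 := by
    have hs : ∑ i : {i : Fin q // aeval (pr x y) (F i) = 0},
        (g (Sum.inr ⟨i.1, (hzero i.1).2 i.2⟩) * μ i.1) •
          (fun c : Fin 4 => aeval (pr x y) (pderiv c (F i.1))) = 0 := by
      funext e
      rw [Finset.sum_apply]
      refine Eq.trans ?_ (hpair e)
      refine Fintype.sum_equiv (Equiv.subtypeEquivRight fun i => (hzero i).symm) _ _ fun i => ?_
      rw [Pi.smul_apply, smul_eq_mul, mul_assoc]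
      rfl
    intro i
    have h1 := hNC' _ hs ⟨i.1, (hzero i.1).1 i.2⟩
    exact (mul_eq_zero.1 h1).resolve_right (hμ0 _)
  rintro (i | i)
  · rw [Subsingleton.elim i 0]
    have h1 : g (Sum.inl 0) • (fun l : Fin 4 => aeval (sgv x y) (pderiv l (quad k))) = 0 := by
      refine Eq.trans ?_ hg
      symm
      refine (add_eq_left.2 ?_)
      exact Finset.sum_eq_zero fun i _ => by rw [hinr i, zero_smul]
    rcases smul_eq_zero.1 h1 with h2 | h2
    · exact h2
    · exfalso
      rw [quad_grad] at h2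
      apply hz
      funext l
      fin_cases l
      · exact congrFun h2 3
      · exact neg_eq_zero.1 (congrFun h2 2)
      · exact neg_eq_zero.1 (congrFun h2 1)
      · exact congrFun h2 0
  · exact hinr i

end

end Pool.Agent.Run7.h720
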