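import Pool.Agent.Run7.h720.Core
import Pool.Agent.Run7.h720.Rad

/-!
The part prime to `S` of values of polynomials at independent unit germs: the radical of a value is
controlled by a common multiple which is itself a value, up to an arbitrary factor.
-/

set_option autoImplicit false
set_option linter.unusedSectionVars false

namespace Pool.Agent.Run7.h720

open NumberField IsDedekindDomain Height Filter Topology
open Pool.Agent.W180.OP (Pl av wt fv fv_support_finite wt_nonneg nrm)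
open Pool.Agent.K1H83.VN
open MvPolynomial (monomial)

variable {k : Type} [Field k] [NumberField k] {σ : Sc} {S : Finset (Pl k)} {r : ℕ}

/-- the sum of the logarithms of the absolute values at the places of `S` -/
noncomputable def hs (S : Finset (Pl k)) (x : G k σ) (t : ℕ) : ℝ := ∑ v ∈ S, wt v * lv v x t

theorem hs_mul (x y : G k σ) (hx : x ≠ 0) (hy : y ≠ 0) :
    ∀ᶠ t in (σ.𝒰 : Filter ℕ), hs S (x * y) t = hs S x t + hs S y t := by
  have h : ∀ᶠ t in (σ.𝒰 : Filter ℕ), ∀ v ∈ S, lv v (x * y) t = lv v x t + lv v y t := by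
    rw [Filter.eventually_all_finset]
    exact fun v _ => lv_mul v x y hx hy
  filter_upwards [h] with t ht
  unfold hs
  rw [← Finset.sum_add_distrib]
  refine Finset.sum_congr rfl fun v hv => ?_
  rw [ht v hv]
  ring

theorem hs_ho (hS : ∀ w : InfinitePlace k, Sum.inl w ∈ S) (x : G k σ) (hx : x ≠ 0) :
    ∀ᶠ t in (σ.𝒰 : Filter ℕ), hs S x t = -ho S (fun _ : Unit => rep x t) := by
  filter_upwards [rep_ne x hx] with t ht
  exact prod_formula S hS _ ht

theorem hs_SU (hS : ∀ w : InfinitePlace k, Sum.inl w ∈ S) (x : G k σ) (hx : SU S x) :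
    ∀ᶠ t in (σ.𝒰 : Filter ℕ), hs S x t = 0 := by
  filter_upwards [hx] with t h
  exact h.prod_formula hS

theorem hs_pow (x : G k σ) (hx : x ≠ 0) (n : ℕ) :
    ∀ᶠ t in (σ.𝒰 : Filter ℕ), hs S (x ^ n) t = n * hs S x t := by
  induction n with
  | zero =>
    filter_upwards [rep_one (k := k) (σ := σ)] with t ht
    unfold hs lv
    rw [pow_zero, ht]
    simp
  | succ n ih =>
    filter_upwards [ih, hs_mul (S := S) (x ^ n) x (pow_ne_zero _ hx) hx] with t h1 h2
    rw [pow_succ, h2, h1]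
    push_cast
    ring

/-- germs which are integral outside `S` -/
theorem hs_nonneg (hS : ∀ w : InfinitePlace k, Sum.inl w ∈ S) (x : G k σ) (hx : x ≠ 0)
    (h : ∀ᶠ t in (σ.𝒰 : Filter ℕ), ∀ v : HeightOneSpectrum (𝓞 k), Sum.inr v ∉ S →
      fv v (rep x t) ≤ 1) : ∀ᶠ t in (σ.𝒰 : Filter ℕ), 0 ≤ hs S x t := by
  filter_upwards [hs_ho hS x hx, h, rep_ne x hx] with t h1 h2 h3
  rw [h1]
  have := ho_nonpos S (fun _ : Unit => rep x t) (ne_of_coord (i := ()) h3) fun v hv => by
    rw [nm_unit]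
    exact h2 v hv
  linarith

/-- comparison of the parts outside of `S`, with several terms -/
theorem ho_pow3 (S : Finset (Pl k)) {ι κ μ ν ο : Type} [Finite ι] [Finite κ] [Finite μ]
    [Finite ν] [Finite ο]
    (m s l : ℕ) (z : ι → k) (hz : z ≠ 0) (w : κ → k) (hw : w ≠ 0) (y : μ → k) (hy : y ≠ 0)
    (x : ν → k) (hx : x ≠ 0) (b : ο → k) (hb : b ≠ 0)
    (h : ∀ v : HeightOneSpectrum (𝓞 k), Sum.inr v ∉ S →
      nm (fv v) z ^ m * nm (fv v) w * nm (fv v) y ^ s ≤ nm (fv v) x * nm (fv v) b ^ l) :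
    m * ho S z + ho S w + s * ho S y ≤ ho S x + l * ho S b := by
  unfold ho
  have hs : ∀ (a : ℝ) (f : HeightOneSpectrum (𝓞 k) → ℝ), (Function.support f).Finite →
      (Function.support fun v => a * f v).Finite := by
    intro a f hf
    refine hf.subset fun v hv h0 => hv ?_
    show a * f v = 0
    rw [h0, mul_zero]
  have hadd : ∀ (f g : HeightOneSpectrum (𝓞 k) → ℝ), (Function.support f).Finite →
      (Function.support g).Finite → (Function.support fun v => f v + g v).Finite := by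
    intro f g hf hg
    refine (hf.union hg).subset fun v hv => ?_
    by_contra hc
    rw [Set.mem_union, not_or] at hc
    apply hv
    have h1 : f v = 0 := by simpa using hc.1
    have h2 : g v = 0 := by simpa using hc.2
    show f v + g v = 0
    rw [h1, h2, add_zero]
  have a1 := hs m _ (lo_support S z hz)
  have a2 := lo_support S w hw
  have a3 := hs s _ (lo_support S y hy)
  have a4 := lo_support S x hx
  have a5 := hs l _ (lo_support S b hb)
  rw [mul_finsum, mul_finsum, mul_finsum, ← finsum_add_distrib a1 a2,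
    ← finsum_add_distrib (hadd _ _ a1 a2) a3, ← finsum_add_distrib a4 a5]
  refine finsum_le_finsum' (hadd _ _ (hadd _ _ a1 a2) a3) (hadd _ _ a4 a5) fun v => ?_
  unfold lo
  by_cases hv : Sum.inr v ∈ S
  · simp only [if_pos hv]
    simp
  · simp only [if_neg hv]
    rw [← Real.log_pow, ← Real.log_pow, ← Real.log_pow,
      ← Real.log_mul (pow_ne_zero _ (nm_pos _ hz).ne') (nm_pos _ hw).ne',
      ← Real.log_mul (mul_ne_zero (pow_ne_zero _ (nm_pos _ hz).ne') (nm_pos _ hw).ne')
        (pow_ne_zero _ (nm_pos _ hy).ne'),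
      ← Real.log_mul (nm_pos _ hx).ne' (pow_ne_zero _ (nm_pos _ hb).ne')]
    exact Real.log_le_log (mul_pos (mul_pos (pow_pos (nm_pos _ hz) _) (nm_pos _ hw))
      (pow_pos (nm_pos _ hy) _)) (h v hv)

section
variable {u : Fin r → G k σ} (hu : Indep S u)
include hu

theorem hs_mon (hS : ∀ w : InfinitePlace k, Sum.inl w ∈ S) (e : Fin r →₀ ℕ) :
    ∀ᶠ t in (σ.𝒰 : Filter ℕ), hs S (mon u e) t = 0 := mon_prod hu hS e

/-- values of polynomials are almost integral outside `S` -/
theorem hs_ev (hS : ∀ w : InfinitePlace k, Sum.inl w ∈ S)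
    (g : MvPolynomial (Fin r) (FF k σ)) (hg : g ≠ 0) : Sm σ fun t => -hs S (ev u g) t := by
  have h1 := cf_small (S := S) hS ![g]
  refine h1.mono ?_
  filter_upwards [cf_bound hu ![g], hs_ho hS (ev u g) (ev_ne hu hS g hg),
    rep_ne _ (ev_ne hu hS g hg)] with t t1 t2 t3
  rw [t2, neg_neg]
  refine ho_le S _ (ne_of_coord (i := ()) t3) _ (ne_of_one _ none rfl) fun v hv => ?_
  rw [nm_unit]
  exact t1 v hv 0

theorem hs_dvd (hS : ∀ w : InfinitePlace k, Sum.inl w ∈ S)
    (a b : MvPolynomial (Fin r) (FF k σ)) (h : a ∣ b) (hb : b ≠ 0) :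
    Sm σ fun t => hs S (ev u a) t - hs S (ev u b) t := by
  obtain ⟨c, hc⟩ := h
  have ha0 : a ≠ 0 := by
    rintro rfl
    exact hb (by rw [hc, zero_mul])
  have hc0 : c ≠ 0 := by
    rintro rfl
    exact hb (by rw [hc, mul_zero])
  refine (hs_ev hu hS c hc0).mono ?_
  filter_upwards [hs_mul (S := S) _ _ (ev_ne hu hS a ha0) (ev_ne hu hS c hc0)] with t ht
  rw [hc, map_mul, ht]
  linarith

theorem ev_vars : SU S (ev u (vars' (FF k σ) r)) := by
  unfold vars' ev
  rw [map_prod]
  refine SU.prod _ _ fun i _ => ?_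
  rw [MvPolynomial.aeval_X]
  exact hu.su i

/-- **The radical of a value.** `P` is a polynomial whose prime factors which are no variables divide
`W` with multiplicity at most one less. Outside `S` the value of `P` is a multiple of `ρ ^ m * τ`, `ρ`
being the value of the polynomial `R`, up to the values of the family `Z` which have no large common
divisor. -/
theorem star (hS : ∀ w : InfinitePlace k, Sum.inl w ∈ S)
    (P W R : MvPolynomial (Fin r) (FF k σ)) (hP : P ≠ 0) (hW : W ≠ 0) (hR : R ≠ 0)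
    (hdiv : ∀ π, Irreducible π → ¬ π ∣ vars' (FF k σ) r → ∀ n : ℕ, π ^ (n + 1) ∣ P → π ^ n ∣ W)
    (τ : G k σ) (hτ : τ ≠ 0) {μ : Type} [Fintype μ]
    (Z : μ → MvPolynomial (Fin r) (FF k σ)) (i0 : μ) (hZ0 : Z i0 ≠ 0)
    (hZ : Sm σ fun t => -ho S (fun i => rep (ev u (Z i)) t)) (m s : ℕ) (hm : m ≠ 0)
    (h1 : ∀ᶠ t in (σ.𝒰 : Filter ℕ), ∀ v : HeightOneSpectrum (𝓞 k), Sum.inr v ∉ S →
      fv v (rep τ t) ≤ 1 ∧ fv v (rep (ev u R) t) ^ m * fv v (rep τ t) *
        nm (fv v) (fun i => rep (ev u (Z i)) t) ^ s ≤ fv v (rep (ev u P) t)) :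
    ∃ A C : MvPolynomial (Fin r) (FF k σ), A ∣ R ∧ A ∣ P ∧
      (∀ π, Irreducible π → π ∣ A → ¬ π ∣ vars' (FF k σ) r) ∧ C ∣ P ∧ A ≠ 0 ∧ C ≠ 0 ∧
      IsRelPrime C R ∧ (∃ M : ℕ, P ∣ vars' (FF k σ) r ^ M * (W * (A * C))) ∧
      (Sm σ fun t => hs S (ev u P) t - hs S (ev u W) t - hs S (ev u A) t - hs S (ev u C) t) ∧
      (Sm σ fun t => hs S (ev u C) t - hs S τ t) := by
  classical
  obtain ⟨A, C, M, hAR, hAP, hAv, hCP, hCR, hA0, hdvd⟩ := rad_split P W R (vars' (FF k σ) r) hP hdiv
  have hC0 : C ≠ 0 := by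
    rintro rfl
    exact hP (zero_dvd_iff.1 hCP)
  have hv0 : vars' (FF k σ) r ^ M ≠ 0 := by
    refine pow_ne_zero _ ?_
    unfold vars'
    rw [Finset.prod_ne_zero_iff]
    exact fun i _ => MvPolynomial.X_ne_zero i
  refine ⟨A, C, hAR, hAP, hAv, hCP, hA0, hC0, hCR, ⟨M, hdvd⟩, ?_, ?_⟩
  · have h2 := hs_dvd hu hS _ _ hdvd (mul_ne_zero hv0 (mul_ne_zero hW (mul_ne_zero hA0 hC0)))
    refine h2.mono ?_
    filter_upwards [hs_mul (S := S) (ev u (vars' (FF k σ) r ^ M)) (ev u (W * (A * C)))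
      (ev_ne hu hS _ hv0) (ev_ne hu hS _ (mul_ne_zero hW (mul_ne_zero hA0 hC0))),
      hs_mul (S := S) (ev u W) (ev u (A * C)) (ev_ne hu hS _ hW)
        (ev_ne hu hS _ (mul_ne_zero hA0 hC0)),
      hs_mul (S := S) (ev u A) (ev u C) (ev_ne hu hS _ hA0) (ev_ne hu hS _ hC0),
      hs_SU hS (ev u (vars' (FF k σ) r) ^ M) ((ev_vars hu).pow M)] with t t1 t2 t3 t4
    rw [← map_mul] at t1 t2 t3
    rw [map_pow, t4, zero_add] at t1
    rw [t1, t2, t3]
    linarith
  · obtain ⟨C', hC'⟩ := hCP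
    have hevP : ev u C * ev u C' = ev u P := by rw [hC', map_mul]
    obtain ⟨A4, hA4⟩ : ∃ A4 : Fin 2 ⊕ μ → MvPolynomial (Fin r) (FF k σ),
      A4 = Sum.elim ![C, C'] Z := ⟨_, rfl⟩
    have k1 := gcd_small hu hS C R hC0 hR hCR
    have k2 := cf_small (S := S) hS A4
    refine (((k1.smul (Nat.cast_nonneg m)).add (hZ.smul (Nat.cast_nonneg s))).add
      (k2.smul (Nat.cast_nonneg (m + s)))).mono ?_
    filter_upwards [h1, cf_bound hu A4, fv_mul hu _ _ _ hevP, rep_ne _ (ev_ne hu hS C hC0),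
      rep_ne _ hτ, rep_ne _ (ev_ne hu hS _ hZ0), hs_ho hS _ (ev_ne hu hS C hC0),
      hs_ho hS τ hτ] with t t1 t2 t3 t4 t5 t6 t7 t8
    have key := ho_pow3 S m s (m + s) ![rep (ev u C) t, rep (ev u R) t]
      (ne_of_coord (i := (0 : Fin 2)) t4) (fun _ : Unit => rep τ t) (ne_of_coord (i := ()) t5)
      (fun i => rep (ev u (Z i)) t) (ne_of_coord (i := i0) t6) (fun _ : Unit => rep (ev u C) t)
      (ne_of_coord (i := ()) t4) (c1 fun x => rep (cf A4 x) t) (ne_of_one _ none rfl) (by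
        intro v hv
        rw [nm_unit, nm_unit]
        obtain ⟨t1a, t1b⟩ := t1 v hv
        have t2a : fv v (rep (ev u C) t) ≤ nm (fv v) (c1 fun x => rep (cf A4 x) t) := by
          have := t2 v hv (Sum.inl 0)
          rwa [hA4] at this ⊢
        have t2b : fv v (rep (ev u C') t) ≤ nm (fv v) (c1 fun x => rep (cf A4 x) t) := by
          have := t2 v hv (Sum.inl 1)
          rwa [hA4] at this ⊢
        have t2c : nm (fv v) (fun i => rep (ev u (Z i)) t) ≤
            nm (fv v) (c1 fun x => rep (cf A4 x) t) := by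
          refine nm_le _ (nm_nonneg _ _) fun i => ?_
          have := t2 v hv (Sum.inr i)
          rwa [hA4] at this ⊢
        have t3 := t3 v
        have hB1 : 1 ≤ nm (fv v) (c1 fun x => rep (cf A4 x) t) := one_le_nm _ _ none rfl
        set Bv := nm (fv v) (c1 fun x => rep (cf A4 x) t) with hBv
        set x := fv v (rep (ev u C) t) with hx
        set z := nm (fv v) (fun i => rep (ev u (Z i)) t) with hz
        have hx0 : 0 ≤ x := (fv v).nonneg _
        have hz0 : 0 ≤ z := nm_nonneg _ _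
        have hB0 : 0 ≤ Bv := zero_le_one.trans hB1
        have hτ0 : 0 ≤ fv v (rep τ t) := (fv v).nonneg _
        obtain ⟨i, hi⟩ := exists_nm (fv v) ![rep (ev u C) t, rep (ev u R) t]
        rw [← hi]
        have hcase : ∀ y : ℝ, y = x ∨ y = fv v (rep (ev u R) t) →
            y ^ m * fv v (rep τ t) * z ^ s ≤ x * Bv ^ (m + s) := by
          rintro y (rfl | rfl)
          · obtain ⟨l, rfl⟩ := Nat.exists_eq_succ_of_ne_zero hm
            calc x ^ l.succ * fv v (rep τ t) * z ^ s ≤ x ^ l.succ * 1 * Bv ^ s := by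
                  gcongr
              _ = x * (x ^ l * Bv ^ s) := by rw [Nat.succ_eq_add_one, pow_succ]; ring
              _ ≤ x * (Bv ^ l * Bv ^ s) := by gcongr
              _ = x * Bv ^ (l + s) := by rw [pow_add]
              _ ≤ x * Bv ^ (l.succ + s) :=
                  mul_le_mul_of_nonneg_left (pow_le_pow_right₀ hB1 (by omega)) hx0
          · refine t1b.trans ?_
            rw [t3]
            refine mul_le_mul_of_nonneg_left (t2b.trans ?_) hx0
            exact le_self_pow₀ hB1 (by omega)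
        fin_cases i
        · exact hcase _ (Or.inl rfl)
        · exact hcase _ (Or.inr rfl))
    rw [t7, t8]
    have e1 : ho S ![rep (ev u C) t, rep (ev u R) t] =
      ho S ![rep (ev u C) t, rep (ev u R) t] := rfl
    push_cast at key ⊢
    linarith

end

end Pool.Agent.Run7.h720
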