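import Mathlib

/-!
Powerful elements of factorial rings, the theorem of Mason and Stothers for three powerful
polynomials with constant differences, substitution of powers of one variable.
-/

set_option autoImplicit false

namespace Pool.Agent.Run7.h720

/-- an element whose prime factors are multiple, apart from divisors of `x` -/
theorem pow_decomp {R : Type} [CommRing R] [IsDomain R] [UniqueFactorizationMonoid R] (x q : R)
    (hq : q ≠ 0) (h : ∀ π, Irreducible π → π ∣ q → π ∣ x ∨ π ^ 2 ∣ q) :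
    ∃ (g A B : R) (N : ℕ), q = g * A ^ 2 * B ^ 3 ∧ g ∣ x ^ N := by
  revert hq h
  refine UniqueFactorizationMonoid.induction_on_coprime q ?_ ?_ ?_ ?_
  · intro h
    exact absurd rfl h
  · intro y hy _ _
    exact ⟨y, 1, 1, 0, by ring, by rw [pow_zero]; exact hy.dvd⟩
  · intro p i hp _ h
    rcases i with _ | _ | i
    · exact ⟨1, 1, 1, 0, by ring, by simp⟩
    · rw [zero_add, pow_one] at h ⊢
      rcases h p hp.irreducible dvd_rfl with h1 | h1
      · exact ⟨p, 1, 1, 1, by ring, by rwa [pow_one]⟩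
      · exfalso
        apply hp.not_isUnit
        obtain ⟨c, hc⟩ := h1
        have h2 : p * (p * c) = p * 1 := by linear_combination -hc
        exact IsUnit.of_mul_eq_one c (mul_left_cancel₀ hp.ne_zero h2)
    · rcases Nat.even_or_odd' i with ⟨j, rfl | rfl⟩
      · exact ⟨1, p ^ (j + 1), 1, 0, by ring, by simp⟩
      · exact ⟨1, p ^ j, p, 0, by ring, by simp⟩
  · intro a b hab ha hb hne h
    have ha0 : a ≠ 0 := left_ne_zero_of_mul hne
    have hb0 : b ≠ 0 := right_ne_zero_of_mul hne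
    obtain ⟨g, A, B, N, h1, h2⟩ := ha ha0 fun π hπ hπa => by
      rcases h π hπ (hπa.mul_right b) with h3 | h3
      · exact Or.inl h3
      · right
        refine hπ.prime.pow_dvd_of_dvd_mul_right 2 (fun h4 => ?_) h3
        exact hπ.not_isUnit (hab hπa h4)
    obtain ⟨g', A', B', N', h1', h2'⟩ := hb hb0 fun π hπ hπb => by
      rcases h π hπ (hπb.mul_left a) with h3 | h3
      · exact Or.inl h3
      · right
        refine hπ.prime.pow_dvd_of_dvd_mul_left 2 (fun h4 => ?_) h3
        exact hπ.not_isUnit (hab h4 hπb)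
    refine ⟨g * g', A * A', B * B', N + N', ?_, ?_⟩
    · rw [h1, h1']
      ring
    · rw [pow_add]
      exact mul_dvd_mul h2 h2'

open Polynomial

/-- removal of the powers of the variable -/
theorem split_X {F : Type} [Field F] (p : F[X]) (hp : p ≠ 0) :
    ∃ (j : ℕ) (q : F[X]), p = X ^ j * q ∧ ¬ X ∣ q := by
  obtain ⟨q, h1, h2⟩ := exists_eq_pow_rootMultiplicity_mul_and_not_dvd p hp 0
  refine ⟨rootMultiplicity 0 p, q, ?_, ?_⟩
  · rw [map_zero, sub_zero] at h1
    exact h1
  · rw [map_zero, sub_zero] at h2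
    exact h2

/-- a powerful polynomial, apart from the powers of the variable -/
theorem pow_split {F : Type} [Field F] (p g A B : F[X]) (hp : p ≠ 0) (h : p = g * A ^ 2 * B ^ 3)
    (n : ℕ) (hg : g ∣ X ^ n) : ∃ (c : F) (j : ℕ) (A' B' : F[X]), c ≠ 0 ∧ ¬ X ∣ A' ∧ ¬ X ∣ B' ∧
      p = C c * X ^ j * A' ^ 2 * B' ^ 3 := by
  have hA : A ≠ 0 := by
    rintro rfl
    apply hp
    rw [h]
    ring
  have hB : B ≠ 0 := by
    rintro rfl
    apply hp
    rw [h]
    ring
  obtain ⟨a, A', hA', hA2⟩ := split_X A hA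
  obtain ⟨b, B', hB', hB2⟩ := split_X B hB
  obtain ⟨i, -, hi⟩ := (dvd_prime_pow prime_X n).1 hg
  obtain ⟨u, hu⟩ := hi.symm
  obtain ⟨c, hc, hcu⟩ := Polynomial.isUnit_iff.1 u.isUnit
  refine ⟨c, i + 2 * a + 3 * b, A', B', hc.ne_zero, hA2, hB2, ?_⟩
  rw [h, ← hu, ← hcu, hA', hB']
  ring

/-- three powerful polynomials with constant differences, in the ring of Laurent polynomials -/
theorem mason {F : Type} [Field F] [CharZero F] (N : F[X]) (w : ℕ) (α : Fin 3 → F)
    (hα : Function.Injective α) (h : ∀ i, N - C (α i) * X ^ w ≠ 0 → ∃ (c : F) (j : ℕ)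
      (A B : F[X]), c ≠ 0 ∧ ¬ X ∣ A ∧ ¬ X ∣ B ∧
      N - C (α i) * X ^ w = C c * X ^ j * A ^ 2 * B ^ 3) :
    ∃ c, N = C c * X ^ w := by
  classical
  by_contra hcon
  push Not at hcon
  have hne : ∀ i, N - C (α i) * X ^ w ≠ 0 := fun i h0 => hcon (α i) (sub_eq_zero.1 h0)
  have h' := fun i => h i (hne i)
  choose c j A B hc hA hB hp using h'
  -- the Wronskian
  obtain ⟨Wr, hWr⟩ : ∃ Wr : F[X], Wr = X * derivative N - C (w : F) * N := ⟨_, rfl⟩
  have hWc : ∀ l, Wr.coeff l = ((l : F) - w) * N.coeff l := by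
    intro l
    rw [hWr, coeff_sub, coeff_C_mul]
    rcases l with _ | l
    · rw [mul_coeff_zero, coeff_X_zero, zero_mul]
      push_cast
      ring
    · rw [coeff_X_mul, coeff_derivative]
      push_cast
      ring
  have hW0 : Wr ≠ 0 := by
    intro h0
    apply hcon (N.coeff w)
    ext l
    rw [coeff_C_mul, coeff_X_pow]
    by_cases hl : l = w
    · rw [if_pos hl, mul_one, hl]
    · rw [if_neg hl, mul_zero]
      have h1 := hWc l
      rw [h0, coeff_zero] at h1
      have h2 : (l : F) - w ≠ 0 := by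
        rw [sub_ne_zero]
        exact_mod_cast hl
      exact (mul_eq_zero.1 h1.symm).resolve_left h2
  have hA0 : ∀ i, A i ≠ 0 := fun i h0 => hA i (by rw [h0]; exact dvd_zero _)
  have hB0 : ∀ i, B i ≠ 0 := fun i h0 => hB i (by rw [h0]; exact dvd_zero _)
  obtain ⟨D, hD⟩ : ∃ D : Fin 3 → F[X], D = fun i => A i * B i ^ 2 := ⟨_, rfl⟩
  have hDX : ∀ i, ¬ X ∣ D i := by
    intro i hi
    rw [hD] at hi
    rcases prime_X.dvd_or_dvd hi with h1 | h1
    · exact hA i h1
    · exact hB i (prime_X.dvd_of_dvd_pow h1)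
  have hD0 : ∀ i, D i ≠ 0 := fun i h0 => hDX i (by rw [h0]; exact dvd_zero _)
  have hDp : ∀ i, D i ∣ N - C (α i) * X ^ w := by
    intro i
    refine ⟨C (c i) * X ^ j i * A i * B i, ?_⟩
    rw [hp i, hD]
    ring
  have hDd : ∀ i, D i ∣ derivative (N - C (α i) * X ^ w) := by
    intro i
    rw [hp i, hD]
    refine ⟨derivative (C (c i) * X ^ j i) * A i * B i +
      C (c i) * X ^ j i * (2 * derivative (A i) * B i + 3 * A i * derivative (B i)), ?_⟩
    simp only [derivative_mul, derivative_pow, derivative_C]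
    push_cast
    ring_nf
    simp only [map_ofNat]
    ring
  have hDW : ∀ i, D i ∣ Wr := by
    intro i
    have h1 : Wr = X * derivative (N - C (α i) * X ^ w) -
        C (w : F) * (N - C (α i) * X ^ w) := by
      rw [hWr, derivative_sub, derivative_C_mul, derivative_X_pow]
      rcases w with _ | w
      · simp
      · rw [Nat.add_sub_cancel, pow_succ]
        ring
    rw [h1]
    exact dvd_sub ((hDd i).mul_left _) ((hDp i).mul_left _)
  have hDXc : ∀ i, IsCoprime (D i) (X ^ w) := fun i =>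
    ((prime_X.irreducible.coprime_iff_not_dvd.2 (hDX i)).symm).pow_right
  have hDc : ∀ i i', i ≠ i' → IsCoprime (D i) (D i') := by
    intro i i' hii
    obtain ⟨E, hE⟩ := hDp i
    have h1 : N - C (α i') * X ^ w = C (α i - α i') * X ^ w + D i * E := by
      rw [← hE, C_sub]
      ring
    have h2 : IsCoprime (D i) (C (α i - α i') * X ^ w) := by
      have h3 : IsUnit (C (α i - α i')) :=
        isUnit_C.2 (IsUnit.mk0 _ (sub_ne_zero.2 fun h => hii (hα h)))
      exact (isCoprime_mul_unit_left_right h3 _ _).2 (hDXc i)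
    have h3 : IsCoprime (D i) (N - C (α i') * X ^ w) := by
      rw [h1]
      exact h2.add_mul_left_right E
    exact h3.of_isCoprime_of_dvd_right (hDp i')
  have hprod : ∏ i, D i ∣ Wr := Finset.prod_dvd_of_coprime
    (fun i _ i' _ hii => hDc i i' hii) fun i _ => hDW i
  -- degrees
  obtain ⟨o, W', hW', hWX⟩ := split_X Wr hW0
  have hW'0 : W' ≠ 0 := fun h0 => hWX (by rw [h0]; exact dvd_zero _)
  have hprod' : ∏ i, D i ∣ W' := by
    have h1 : IsCoprime (∏ i, D i) (X ^ o) := by
      refine IsCoprime.prod_left fun i _ => ?_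
      exact ((prime_X.irreducible.coprime_iff_not_dvd.2 (hDX i)).symm).pow_right
    rw [hW'] at hprod
    exact h1.dvd_of_dvd_mul_left hprod
  have hdeg : ∑ i, (D i).natDegree ≤ W'.natDegree := by
    rw [← natDegree_prod _ _ fun i _ => hD0 i]
    exact natDegree_le_of_dvd hprod' hW'0
  have hcoef0 : ∀ q : F[X], ¬ X ∣ q → q.coeff 0 ≠ 0 := fun q hq h0 => hq (X_dvd_iff.2 h0)
  have hWo : N.coeff o ≠ 0 ∧ o ≠ w := by
    have h1 : Wr.coeff o ≠ 0 := by
      rw [hW', coeff_X_pow_mul']
      simp only [le_refl, if_true, Nat.sub_self]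
      exact hcoef0 _ hWX
    rw [hWc] at h1
    refine ⟨right_ne_zero_of_mul h1, ?_⟩
    rintro rfl
    exact h1 (by ring)
  have hWa : N.coeff (o + W'.natDegree) ≠ 0 ∧ o + W'.natDegree ≠ w := by
    have h1 : Wr.coeff (o + W'.natDegree) ≠ 0 := by
      rw [hW', add_comm, coeff_X_pow_mul]
      exact leadingCoeff_ne_zero.2 hW'0
    rw [hWc] at h1
    refine ⟨right_ne_zero_of_mul h1, ?_⟩
    intro h2
    apply h1
    rw [← Nat.cast_inj (R := F)] at h2
    rw [h2, sub_self, zero_mul]
  set a := o + W'.natDegree with ha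
  -- the coefficients of the three polynomials
  have hpc : ∀ i l, l ≠ w → (N - C (α i) * X ^ w).coeff l = N.coeff l := by
    intro i l hl
    rw [coeff_sub, coeff_C_mul, coeff_X_pow, if_neg hl, mul_zero, sub_zero]
  have hpw : ∀ i, (N - C (α i) * X ^ w).coeff w = N.coeff w - α i := by
    intro i
    rw [coeff_sub, coeff_C_mul, coeff_X_pow, if_pos rfl, mul_one]
  have hsz : ∀ i l, (N - C (α i) * X ^ w).coeff l ≠ 0 →
      j i ≤ l ∧ l ≤ j i + (2 * (A i).natDegree + 3 * (B i).natDegree) := by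
    intro i l hl
    have e1 : C (c i) * X ^ j i * A i ^ 2 * B i ^ 3 =
        C (c i) * (X ^ j i * (A i ^ 2 * B i ^ 3)) := by ring
    rw [hp i, e1, coeff_C_mul, coeff_X_pow_mul'] at hl
    by_cases hjl : j i ≤ l
    · refine ⟨hjl, ?_⟩
      rw [if_pos hjl] at hl
      have h1 := le_natDegree_of_ne_zero (right_ne_zero_of_mul hl)
      rw [natDegree_mul (pow_ne_zero _ (hA0 i)) (pow_ne_zero _ (hB0 i)), natDegree_pow,
        natDegree_pow] at h1
      omega
    · rw [if_neg hjl, mul_zero] at hl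
      exact absurd rfl hl
  have hDn : ∀ i, (D i).natDegree = (A i).natDegree + 2 * (B i).natDegree := by
    intro i
    rw [hD]
    show (A i * B i ^ 2).natDegree = _
    rw [natDegree_mul (hA0 i) (pow_ne_zero _ (hB0 i)), natDegree_pow]
  have b1 : ∀ i, j i ≤ o ∧ a ≤ j i + 2 * (D i).natDegree := by
    intro i
    have h1 := hsz i o (by rw [hpc i o hWo.2]; exact hWo.1)
    have h2 := hsz i a (by rw [hpc i a hWa.2]; exact hWa.1)
    rw [hDn i]
    omega
  have b2 : ∀ i, N.coeff w ≠ α i → j i ≤ w ∧ w ≤ j i + 2 * (D i).natDegree := by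
    intro i hi
    have h1 := hsz i w (by rw [hpw i]; exact sub_ne_zero.2 hi)
    rw [hDn i]
    omega
  rw [Fin.sum_univ_three] at hdeg
  have h0 := b1 0
  have h1 := b1 1
  have h2 := b1 2
  have n1 := hWo.2
  have n2 := hWa.2
  by_cases c0 : N.coeff w = α 0
  · have c1 := b2 1 (fun h => by rw [c0] at h; exact absurd (hα h) (by decide))
    have c2 := b2 2 (fun h => by rw [c0] at h; exact absurd (hα h) (by decide))
    omega
  · have c0' := b2 0 c0
    by_cases c1 : N.coeff w = α 1
    · have c2 := b2 2 (fun h => by rw [c1] at h; exact absurd (hα h) (by decide))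
      omega
    · have c1' := b2 1 c1
      omega

end Pool.Agent.Run7.h720
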