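import Pool.Agent.Run7.h720.VRow

/-!
Derivations of polynomial rings over a field which do not enlarge supports and make the Jacobian of a
generic point nonzero.
-/

set_option autoImplicit false

namespace Pool.Agent.Run7.h720

/-- genericity of the coordinates of a multiple of a point -/
theorem gen_indep {k R : Type} [Field k] [CommRing R] [Algebra k R] {n : ℕ} (x : Fin n → R)
    (hx : ∀ P : MvPolynomial (Fin n) k, P ≠ 0 → ∃ d,
      MvPolynomial.aeval x (MvPolynomial.homogeneousComponent d P) ≠ 0) :
    AlgebraicIndependent k fun j => (Polynomial.X : Polynomial R) * Polynomial.C (x j) := by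
  classical
  rw [algebraicIndependent_iff]
  intro P hP
  by_contra hne
  obtain ⟨d, hd⟩ := hx P hne
  have h3 : MvPolynomial.aeval (fun j => (Polynomial.X : Polynomial R) * Polynomial.C (x j)) P =
      ∑ i ∈ Finset.range (P.totalDegree + 1), Polynomial.X ^ i *
        Polynomial.C (MvPolynomial.aeval x (MvPolynomial.homogeneousComponent i P)) := by
    conv_lhs => rw [← MvPolynomial.sum_homogeneousComponent P]
    rw [map_sum]
    refine Finset.sum_congr rfl fun i _ => ?_
    rw [aeval_hom_smul _ (MvPolynomial.homogeneousComponent_isHomogeneous i P)]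
    congr 1
    exact MvPolynomial.aeval_algebraMap_apply (B := Polynomial R) x _
  rw [h3] at hP
  have h4 := congrArg (fun q => Polynomial.coeff q d) hP
  simp only [Polynomial.finsetSum_coeff, Polynomial.coeff_zero] at h4
  have h5 : ∀ i, ((Polynomial.X : Polynomial R) ^ i *
      Polynomial.C (MvPolynomial.aeval x (MvPolynomial.homogeneousComponent i P))).coeff d =
      if d = i then MvPolynomial.aeval x (MvPolynomial.homogeneousComponent i P) else 0 := by
    intro i
    rw [mul_comm, Polynomial.coeff_C_mul, Polynomial.coeff_X_pow]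
    split_ifs
    · rw [mul_one]
    · rw [mul_zero]
  simp only [h5] at h4
  rw [Finset.sum_ite_eq] at h4
  split_ifs at h4 with hr
  · exact hd h4
  · apply hd
    rw [MvPolynomial.homogeneousComponent_eq_zero _ _ (by
      rw [Finset.mem_range] at hr
      omega), map_zero]

section
set_option linter.unusedSectionVars false
variable {k F L : Type} [Field k] [CharZero k] [Field F] [Algebra k F] {r : ℕ} [Field L]
  [Algebra (Polynomial (MvPolynomial (Fin r) F)) L]
  [IsFractionRing (Polynomial (MvPolynomial (Fin r) F)) L] [Algebra k L]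
  [Algebra F L] [Algebra (MvPolynomial (Fin r) F) L]
  [IsScalarTower k (Polynomial (MvPolynomial (Fin r) F)) L] [IsScalarTower k F L]
  [IsScalarTower k (MvPolynomial (Fin r) F) L] [IsScalarTower F (MvPolynomial (Fin r) F) L]
  [IsScalarTower (MvPolynomial (Fin r) F) (Polynomial (MvPolynomial (Fin r) F)) L]

/-- the transcendence basis -/
noncomputable def bigB {ι : Type} (b : ι → F) :
    Unit ⊕ (Fin r ⊕ ι) → Polynomial (MvPolynomial (Fin r) F) :=
  Sum.elim (fun _ => Polynomial.X) (algebraMap (MvPolynomial (Fin r) F)
    (Polynomial (MvPolynomial (Fin r) F)) ∘ Sum.elim MvPolynomial.X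
      (algebraMap F (MvPolynomial (Fin r) F) ∘ b))

omit [CharZero k] in
theorem bigB_trans {ι : Type} (b : ι → F) (hb : IsTranscendenceBasis k b) :
    IsTranscendenceBasis k (algebraMap (Polynomial (MvPolynomial (Fin r) F)) L ∘
      bigB (r := r) b) := by
  have h1 : IsTranscendenceBasis k (Sum.elim MvPolynomial.X
      (algebraMap F (MvPolynomial (Fin r) F) ∘ b)) :=
    hb.sumElim_comp (IsTranscendenceBasis.mvPolynomial (Fin r) F)
  have h2 : IsTranscendenceBasis k (bigB (r := r) b) :=
    h1.sumElim_comp (IsTranscendenceBasis.polynomial (ι := Unit)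
      (R := MvPolynomial (Fin r) F))
  have h3 : Algebra.IsAlgebraic (Polynomial (MvPolynomial (Fin r) F)) L :=
    IsLocalization.isAlgebraic L (nonZeroDivisors (Polynomial (MvPolynomial (Fin r) F)))
  have h4 : FaithfulSMul (Polynomial (MvPolynomial (Fin r) F)) L := by
    rw [faithfulSMul_iff_algebraMap_injective]
    exact IsFractionRing.injective _ _
  exact h2.algebraMap_comp

/-- the Jacobian of a generic point -/
theorem jac_aux {n : ℕ} (x : Fin (n + 1) → MvPolynomial (Fin r) F)
    (hx : ∀ P : MvPolynomial (Fin (n + 1)) k, P ≠ 0 → ∃ d,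
      MvPolynomial.aeval x (MvPolynomial.homogeneousComponent d P) ≠ 0) :
    Submodule.span L (insert (fun j => algebraMap (MvPolynomial (Fin r) F) L (x j))
      {v | ∃ D : Derivation k (MvPolynomial (Fin r) F) (MvPolynomial (Fin r) F),
        (∀ q, (D q).support ⊆ q.support) ∧
          v = fun j => algebraMap (MvPolynomial (Fin r) F) L (D (x j))}) = ⊤ := by
  classical
  obtain ⟨ι, b, hb⟩ := exists_isTranscendenceBasis' k F
  have hB := bigB_trans (L := L) (r := r) b hb
  have hD := fun s : Unit ⊕ (Fin r ⊕ ι) => exists_der _ hB (M := L)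
    fun s' => if s = s' then 1 else 0
  choose D hD using hD
  have hDT : ∀ s, D s (algebraMap (Polynomial (MvPolynomial (Fin r) F)) L Polynomial.X) =
      if s = Sum.inl () then 1 else 0 := fun s => hD s (Sum.inl ())
  have hDX : ∀ s i, D s (algebraMap (MvPolynomial (Fin r) F) L (MvPolynomial.X i)) =
      if s = Sum.inr (Sum.inl i) then 1 else 0 := fun s i => by
    rw [← hD s (Sum.inr (Sum.inl i))]
    congr 1
    exact IsScalarTower.algebraMap_apply _ (Polynomial (MvPolynomial (Fin r) F)) L _
  have hDb : ∀ s i, D s (algebraMap F L (b i)) =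
      if s = Sum.inr (Sum.inr i) then 1 else 0 := fun s i => by
    rw [← hD s (Sum.inr (Sum.inr i))]
    congr 1
    rw [IsScalarTower.algebraMap_apply F (MvPolynomial (Fin r) F) L]
    exact IsScalarTower.algebraMap_apply _ (Polynomial (MvPolynomial (Fin r) F)) L _
  have hCL : ∀ c : F, algebraMap (MvPolynomial (Fin r) F) L (MvPolynomial.C c) =
      algebraMap F L c := fun c =>
    (IsScalarTower.algebraMap_apply F (MvPolynomial (Fin r) F) L c).symm
  -- derivations which vanish on the field of coefficients
  have hDF : ∀ s, (∀ i, s ≠ Sum.inr (Sum.inr i)) → ∀ c : F, D s (algebraMap F L c) = 0 := by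
    intro s hs c
    have h1 : (D s).compAlgebraMap F = 0 := by
      refine der_ext b hb _ _ fun i => ?_
      show D s (algebraMap F L (b i)) = 0
      rw [hDb, if_neg (hs i)]
    exact Derivation.congr_fun h1 c
  have hy : AlgebraicIndependent k fun j => algebraMap (Polynomial (MvPolynomial (Fin r) F)) L
      (Polynomial.X * Polynomial.C (x j)) :=
    (gen_indep x hx).map' (f := IsScalarTower.toAlgHom k (Polynomial (MvPolynomial (Fin r) F)) L)
      (IsFractionRing.injective _ _)
  have hspan := span_rows _ hB _ hy D (fun s => by rw [hD, if_pos rfl])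
    fun s s' h => by rw [hD, if_neg h]
  rw [eq_top_iff, ← hspan, Submodule.span_le]
  obtain ⟨T, hT⟩ : ∃ T, T = algebraMap (Polynomial (MvPolynomial (Fin r) F)) L Polynomial.X :=
    ⟨_, rfl⟩
  have hyT : ∀ j, algebraMap (Polynomial (MvPolynomial (Fin r) F)) L
      (Polynomial.X * Polynomial.C (x j)) = T * algebraMap (MvPolynomial (Fin r) F) L (x j) := by
    intro j
    rw [map_mul, hT]
    congr 1
    exact (IsScalarTower.algebraMap_apply (MvPolynomial (Fin r) F) (Polynomial _) L (x j)).symm
  rw [← hT] at hDT
  rintro _ ⟨s, rfl⟩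
  have hrow : (fun j => D s (algebraMap (Polynomial (MvPolynomial (Fin r) F)) L
      (Polynomial.X * Polynomial.C (x j)))) = T • (fun j => D s
        (algebraMap (MvPolynomial (Fin r) F) L (x j))) + (D s T) •
          fun j => algebraMap (MvPolynomial (Fin r) F) L (x j) := by
    funext j
    rw [hyT, (D s).leibniz, Pi.add_apply, Pi.smul_apply, Pi.smul_apply]
    simp only [smul_eq_mul]
    ring
  show (fun j => D s (algebraMap (Polynomial (MvPolynomial (Fin r) F)) L
      (Polynomial.X * Polynomial.C (x j)))) ∈ _
  rw [hrow]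
  refine Submodule.add_mem _ (Submodule.smul_mem _ _ ?_)
    (Submodule.smul_mem _ _ (Submodule.subset_span (Set.mem_insert _ _)))
  rcases s with s | (i | i)
  · have h1 : (D (Sum.inl s)).compAlgebraMap (MvPolynomial (Fin r) F) = 0 := by
      refine mv_der_ext _ _ (fun c => ?_) fun i => ?_
      · show D (Sum.inl s) (algebraMap (MvPolynomial (Fin r) F) L (MvPolynomial.C c)) = 0
        rw [hCL]
        exact hDF _ (fun i h => by cases h) c
      · show D (Sum.inl s) (algebraMap (MvPolynomial (Fin r) F) L (MvPolynomial.X i)) = 0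
        rw [hDX, if_neg (fun h => by cases h)]
    have h2 : (fun j => D (Sum.inl s) (algebraMap (MvPolynomial (Fin r) F) L (x j))) = 0 := by
      funext j
      exact Derivation.congr_fun h1 (x j)
    rw [h2]
    exact Submodule.zero_mem _
  · have hXne : algebraMap (MvPolynomial (Fin r) F) L (MvPolynomial.X i) ≠ 0 := by
      rw [IsScalarTower.algebraMap_apply (MvPolynomial (Fin r) F)
        (Polynomial (MvPolynomial (Fin r) F)) L]
      intro h
      have h2 := (IsFractionRing.injective (Polynomial (MvPolynomial (Fin r) F)) L)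
        (h.trans (map_zero _).symm)
      have h3 : (MvPolynomial.X i : MvPolynomial (Fin r) F) = 0 := Polynomial.C_eq_zero.1 h2
      exact MvPolynomial.X_ne_zero i h3
    have h1 : algebraMap (MvPolynomial (Fin r) F) L (MvPolynomial.X i) •
        (D (Sum.inr (Sum.inl i))).compAlgebraMap (MvPolynomial (Fin r) F) =
        (Algebra.linearMap (MvPolynomial (Fin r) F) L).compDer
          ((wder F (Pi.single i 1)).restrictScalars k) := by
      refine mv_der_ext _ _ (fun c => ?_) fun i' => ?_
      · show algebraMap (MvPolynomial (Fin r) F) L (MvPolynomial.X i) *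
          D (Sum.inr (Sum.inl i)) (algebraMap (MvPolynomial (Fin r) F) L (MvPolynomial.C c)) =
            algebraMap (MvPolynomial (Fin r) F) L (wder F (Pi.single i 1) (MvPolynomial.C c))
        rw [hCL, hDF _ (fun i h => by cases h) c, mul_zero]
        have : wder F (Pi.single i 1) (MvPolynomial.C c) = 0 :=
          (wder F (Pi.single i 1)).map_algebraMap c
        rw [this, map_zero]
      · show algebraMap (MvPolynomial (Fin r) F) L (MvPolynomial.X i) *
          D (Sum.inr (Sum.inl i)) (algebraMap (MvPolynomial (Fin r) F) L (MvPolynomial.X i')) =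
            algebraMap (MvPolynomial (Fin r) F) L (wder F (Pi.single i 1) (MvPolynomial.X i'))
        have h2 : wder F (Pi.single i 1) (MvPolynomial.X i') =
            MvPolynomial.monomial (Finsupp.single i' 1)
              ((Pi.single i 1 : Fin r → ℕ) i' : F) := by
          unfold wder
          rw [MvPolynomial.mkDerivation_X]
        rw [h2, hDX]
        by_cases h : i = i'
        · rw [if_pos (by rw [h]), h, Pi.single_eq_same, mul_one, Nat.cast_one]
          rfl
        · rw [if_neg (fun h3 => h (by simpa using h3)), Pi.single_eq_of_ne (Ne.symm h),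
            Nat.cast_zero, map_zero, map_zero, mul_zero]
    have h2 : (fun j => D (Sum.inr (Sum.inl i)) (algebraMap (MvPolynomial (Fin r) F) L (x j))) =
        (algebraMap (MvPolynomial (Fin r) F) L (MvPolynomial.X i))⁻¹ • fun j =>
          algebraMap (MvPolynomial (Fin r) F) L
            (((wder F (Pi.single i 1)).restrictScalars k) (x j)) := by
      funext j
      have h3 := Derivation.congr_fun h1 (x j)
      have h4 : algebraMap (MvPolynomial (Fin r) F) L (MvPolynomial.X i) *
          D (Sum.inr (Sum.inl i)) (algebraMap (MvPolynomial (Fin r) F) L (x j)) =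
          algebraMap (MvPolynomial (Fin r) F) L
            (((wder F (Pi.single i 1)).restrictScalars k) (x j)) := h3
      rw [Pi.smul_apply, smul_eq_mul, ← h4, inv_mul_cancel_left₀ hXne]
    rw [h2]
    refine Submodule.smul_mem _ _ (Submodule.subset_span (Set.mem_insert_of_mem _ ?_))
    exact ⟨_, fun q => wder_support _ q, rfl⟩
  · obtain ⟨E0, hE0⟩ := exists_der b hb (M := F) fun i' => if i = i' then (1 : F) else 0
    have hF : (D (Sum.inr (Sum.inr i))).compAlgebraMap F =
        (Algebra.linearMap F L).compDer E0 := by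
      refine der_ext b hb _ _ fun i' => ?_
      show D (Sum.inr (Sum.inr i)) (algebraMap F L (b i')) = algebraMap F L (E0 (b i'))
      rw [hDb, hE0]
      by_cases h : i = i'
      · rw [if_pos (by rw [h]), if_pos h, map_one]
      · rw [if_neg (fun h3 => h (by simpa using h3)), if_neg h, map_zero]
    have h1 : (D (Sum.inr (Sum.inr i))).compAlgebraMap (MvPolynomial (Fin r) F) =
        (Algebra.linearMap (MvPolynomial (Fin r) F) L).compDer (cder E0) := by
      refine mv_der_ext _ _ (fun c => ?_) fun i' => ?_
      · show D (Sum.inr (Sum.inr i)) (algebraMap (MvPolynomial (Fin r) F) L (MvPolynomial.C c)) =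
            algebraMap (MvPolynomial (Fin r) F) L (cder E0 (MvPolynomial.C c))
        rw [hCL, cder_C, hCL]
        exact Derivation.congr_fun hF c
      · show D (Sum.inr (Sum.inr i)) (algebraMap (MvPolynomial (Fin r) F) L (MvPolynomial.X i')) =
            algebraMap (MvPolynomial (Fin r) F) L (cder E0 (MvPolynomial.X i'))
        rw [cder_X, map_zero, hDX, if_neg (fun h => by cases h)]
    have h2 : (fun j => D (Sum.inr (Sum.inr i)) (algebraMap (MvPolynomial (Fin r) F) L (x j))) =
        fun j => algebraMap (MvPolynomial (Fin r) F) L (cder E0 (x j)) := by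
      funext j
      exact Derivation.congr_fun h1 (x j)
    rw [h2]
    refine Submodule.subset_span (Set.mem_insert_of_mem _ ?_)
    exact ⟨_, fun q => cder_support _ q, rfl⟩

theorem exists_jac' {n : ℕ} (x : Fin (n + 1) → MvPolynomial (Fin r) F)
    (hx : ∀ P : MvPolynomial (Fin (n + 1)) k, P ≠ 0 → ∃ d,
      MvPolynomial.aeval x (MvPolynomial.homogeneousComponent d P) ≠ 0)
    (hinj : Function.Injective (algebraMap (MvPolynomial (Fin r) F) L)) :
    ∃ D : Fin n → Derivation k (MvPolynomial (Fin r) F) (MvPolynomial (Fin r) F),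
      (∀ a q, (D a q).support ⊆ q.support) ∧
      (Matrix.of (Fin.cons x (fun a j => D a (x j)) :
        Fin (n + 1) → Fin (n + 1) → MvPolynomial (Fin r) F)).det ≠ 0 := by
  classical
  have hx0 : (fun j => algebraMap (MvPolynomial (Fin r) F) L (x j)) ≠ 0 := by
    intro h
    obtain ⟨d, hd⟩ := hx (MvPolynomial.X 0) (MvPolynomial.X_ne_zero 0)
    rw [MvPolynomial.homogeneousComponent_of_mem
      ((MvPolynomial.mem_homogeneousSubmodule 1 _).2 (MvPolynomial.isHomogeneous_X _ _))] at hd
    split_ifs at hd
    · rw [MvPolynomial.aeval_X] at hd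
      apply hd
      exact hinj ((congrFun h 0).trans (map_zero _).symm)
    · exact hd (map_zero _)
  obtain ⟨w, hw, hdet⟩ := choose_rows n _ hx0 _ (jac_aux (L := L) x hx)
  choose D hDs hD using hw
  refine ⟨D, hDs, fun h => hdet ?_⟩
  have h1 := congrArg (algebraMap (MvPolynomial (Fin r) F) L) h
  rw [map_zero, RingHom.map_det] at h1
  rw [← h1]
  congr 1
  ext a j
  refine Fin.cases ?_ (fun a => ?_) a
  · rfl
  · show w a j = algebraMap (MvPolynomial (Fin r) F) L (D a (x j))
    rw [hD a]

end

/-- **Derivations which make the Jacobian of a generic point nonzero.** -/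
theorem exists_jac {k F : Type} [Field k] [CharZero k] [Field F] [Algebra k F] {r n : ℕ}
    (x : Fin (n + 1) → MvPolynomial (Fin r) F)
    (hx : ∀ P : MvPolynomial (Fin (n + 1)) k, P ≠ 0 → ∃ d,
      MvPolynomial.aeval x (MvPolynomial.homogeneousComponent d P) ≠ 0) :
    ∃ D : Fin n → Derivation k (MvPolynomial (Fin r) F) (MvPolynomial (Fin r) F),
      (∀ a q, (D a q).support ⊆ q.support) ∧
      (Matrix.of (Fin.cons x (fun a j => D a (x j)) :
        Fin (n + 1) → Fin (n + 1) → MvPolynomial (Fin r) F)).det ≠ 0 := by
  refine exists_jac' (L := FractionRing (Polynomial (MvPolynomial (Fin r) F))) x hx ?_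
  rw [IsScalarTower.algebraMap_eq (MvPolynomial (Fin r) F)
    (Polynomial (MvPolynomial (Fin r) F))
    (FractionRing (Polynomial (MvPolynomial (Fin r) F)))]
  exact (IsFractionRing.injective (Polynomial (MvPolynomial (Fin r) F))
    (FractionRing (Polynomial (MvPolynomial (Fin r) F)))).comp Polynomial.C_injective

end Pool.Agent.Run7.h720
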