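import Pool.Agent.Run7.h720.VOm
import Pool.Agent.Run7.h720.Der

/-!
Derivations of polynomial rings over a field which do not enlarge supports and make the Jacobian of a
generic point nonzero.
-/

set_option autoImplicit false

namespace Pool.Agent.Run7.h720

section
variable {k F : Type} [Field k] [Field F] [Algebra k F] {s : Type}

/-- the derivative of the coefficients -/
noncomputable def cfun (D : Derivation k F F) (p : MvPolynomial s F) : MvPolynomial s F :=
  ∑ e ∈ p.support, MvPolynomial.monomial e (D (MvPolynomial.coeff e p))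

theorem coeff_cfun (D : Derivation k F F) (p : MvPolynomial s F) (e : s →₀ ℕ) :
    MvPolynomial.coeff e (cfun D p) = D (MvPolynomial.coeff e p) := by
  classical
  unfold cfun
  rw [MvPolynomial.coeff_sum]
  simp only [MvPolynomial.coeff_monomial]
  rw [Finset.sum_ite_eq']
  split_ifs with h
  · rfl
  · rw [MvPolynomial.notMem_support_iff.1 h, map_zero]

/-- the derivation of the coefficients -/
noncomputable def cder (D : Derivation k F F) :
    Derivation k (MvPolynomial s F) (MvPolynomial s F) :=
  Derivation.mk' (R := k)
    { toFun := cfun D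
      map_add' := fun p q => by
        ext e
        rw [MvPolynomial.coeff_add, coeff_cfun, coeff_cfun, coeff_cfun, MvPolynomial.coeff_add,
          map_add]
      map_smul' := fun c p => by
        ext e
        rw [RingHom.id_apply, MvPolynomial.coeff_smul, coeff_cfun, coeff_cfun,
          MvPolynomial.coeff_smul, Derivation.map_smul] }
    fun p q => by
      classical
      ext e
      show MvPolynomial.coeff e (cfun D (p * q)) =
        MvPolynomial.coeff e (p • cfun D q + q • cfun D p)
      rw [smul_eq_mul, smul_eq_mul, MvPolynomial.coeff_add, coeff_cfun, MvPolynomial.coeff_mul,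
        mul_comm q, MvPolynomial.coeff_mul, MvPolynomial.coeff_mul, map_sum,
        ← Finset.sum_add_distrib]
      refine Finset.sum_congr rfl fun a _ => ?_
      rw [D.leibniz, coeff_cfun, coeff_cfun, smul_eq_mul, smul_eq_mul]
      ring

theorem coeff_cder (D : Derivation k F F) (p : MvPolynomial s F) (e : s →₀ ℕ) :
    MvPolynomial.coeff e (cder D p) = D (MvPolynomial.coeff e p) := coeff_cfun D p e

theorem cder_support (D : Derivation k F F) (p : MvPolynomial s F) :
    (cder D p).support ⊆ p.support := by
  intro e he
  rw [MvPolynomial.mem_support_iff] at he ⊢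
  intro h
  apply he
  rw [coeff_cder, h, map_zero]

theorem cder_C (D : Derivation k F F) (c : F) :
    cder D (MvPolynomial.C c : MvPolynomial s F) = MvPolynomial.C (D c) := by
  classical
  ext e
  rw [coeff_cder, MvPolynomial.coeff_C, MvPolynomial.coeff_C]
  split_ifs
  · rfl
  · rw [map_zero]

theorem cder_X (D : Derivation k F F) (i : s) :
    cder D (MvPolynomial.X i : MvPolynomial s F) = 0 := by
  classical
  ext e
  rw [coeff_cder, MvPolynomial.coeff_X, MvPolynomial.coeff_zero]
  split_ifs
  · exact D.map_one_eq_zero
  · rw [map_zero]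

/-- derivations of a polynomial ring are determined by the values at constants and variables -/
theorem mv_der_ext {M : Type} [AddCommGroup M] [Module k M] [Module (MvPolynomial s F) M]
    [IsScalarTower k (MvPolynomial s F) M]
    (D D' : Derivation k (MvPolynomial s F) M)
    (h1 : ∀ c, D (MvPolynomial.C c) = D' (MvPolynomial.C c))
    (h2 : ∀ i, D (MvPolynomial.X i) = D' (MvPolynomial.X i)) : D = D' := by
  ext p
  induction p using MvPolynomial.induction_on with
  | C a => exact h1 a
  | add p q hp hq => rw [map_add, map_add, hp, hq]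
  | mul_X p i hp => rw [D.leibniz, D'.leibniz, hp, h2]

end

/-- extension of a nonzero vector by elements of a set of vectors to an invertible matrix -/
theorem choose_rows {L : Type} [Field L] (n : ℕ) (v0 : Fin (n + 1) → L) (hv0 : v0 ≠ 0)
    (S : Set (Fin (n + 1) → L)) (hspan : Submodule.span L (insert v0 S) = ⊤) :
    ∃ w : Fin n → (Fin (n + 1) → L), (∀ a, w a ∈ S) ∧
      (Matrix.of (Fin.cons v0 w : Fin (n + 1) → Fin (n + 1) → L)).det ≠ 0 := by
  classical
  have h0 : LinearIndepOn L id ({v0} : Set (Fin (n + 1) → L)) := by
    rw [linearIndepOn_singleton_iff]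
    exact hv0
  obtain ⟨b, hb2, hb1, hb3, hb4⟩ := exists_linearIndepOn_id_extension h0
    (Set.singleton_subset_iff.2 (Set.mem_insert v0 S))
  have hspb : Submodule.span L b = ⊤ := by
    rw [eq_top_iff, ← hspan]
    exact Submodule.span_le.2 hb3
  have hli : LinearIndependent L (fun x : b => (x : Fin (n + 1) → L)) := hb4
  let β := Module.Basis.mk hli (by rw [Subtype.range_coe_subtype, Set.setOf_mem_eq, hspb])
  have hfin : Finite b := Module.Finite.finite_basis β
  have hfin' : b.Finite := hfin
  have hcard : Nat.card b = n + 1 := by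
    have h1 := Module.finrank_eq_nat_card_basis β
    rw [Module.finrank_fin_fun] at h1
    exact h1.symm
  have hv0b : v0 ∈ b := hb1 rfl
  have hcard2 : Nat.card (b \ {v0} : Set (Fin (n + 1) → L)) = n := by
    have h1 : (b \ {v0}).ncard + 1 = b.ncard := Set.ncard_diff_singleton_add_one hv0b hfin'
    rw [Nat.card_coe_set_eq] at hcard ⊢
    omega
  have hfin2 : Finite (b \ {v0} : Set (Fin (n + 1) → L)) := (hfin'.subset Set.diff_subset)
  let e : Fin n ≃ (b \ {v0} : Set (Fin (n + 1) → L)) := (Finite.equivFinOfCardEq hcard2).symm
  refine ⟨fun a => (e a : Fin (n + 1) → L), fun a => ?_, ?_⟩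
  · have h1 := (e a).2
    exact (hb2 h1.1).resolve_left h1.2
  · let f : Fin (n + 1) → b := Fin.cons ⟨v0, hv0b⟩ fun a => ⟨e a, (e a).2.1⟩
    have hf : Function.Injective f := by
      rw [Fin.cons_injective_iff]
      constructor
      · rintro ⟨a, ha⟩
        have h1 := congrArg Subtype.val ha
        exact (e a).2.2 h1
      · intro a a' h
        have h1 := congrArg Subtype.val h
        exact e.injective (Subtype.ext h1)
    have h1 := hli.comp f hf
    have h2 : (fun x : b => (x : Fin (n + 1) → L)) ∘ f =
        (Fin.cons v0 fun a => (e a : Fin (n + 1) → L)) := by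
      funext a
      refine Fin.cases ?_ (fun a => ?_) a
      · rfl
      · rfl
    rw [h2] at h1
    have h3 : LinearIndependent L (Matrix.of
        (Fin.cons v0 fun a => (e a : Fin (n + 1) → L) : Fin (n + 1) → Fin (n + 1) → L)).row := h1
    rw [Matrix.linearIndependent_rows_iff_isUnit, Matrix.isUnit_iff_isUnit_det] at h3
    exact h3.ne_zero

/-- the value of a homogeneous polynomial at a multiple of a point -/
theorem aeval_hom_smul {k R : Type} [Field k] [CommRing R] [Algebra k R] {m d : ℕ}
    (H : MvPolynomial (Fin m) k) (hH : H.IsHomogeneous d) (x : Fin m → R) (t : R) :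
    MvPolynomial.aeval (fun j => t * x j) H = t ^ d * MvPolynomial.aeval x H := by
  rw [MvPolynomial.aeval_def, MvPolynomial.aeval_def, MvPolynomial.eval₂_eq',
    MvPolynomial.eval₂_eq', Finset.mul_sum]
  refine Finset.sum_congr rfl fun e he => ?_
  have h1 : ∑ i, e i = d := by
    have := hH (MvPolynomial.mem_support_iff.1 he)
    rw [Finsupp.weight_apply, Finsupp.sum_fintype _ _ (fun i => by simp)] at this
    simpa using this
  have h2 : ∏ i, (t * x i) ^ e i = t ^ d * ∏ i, x i ^ e i := by
    simp only [mul_pow]
    rw [Finset.prod_mul_distrib, Finset.prod_pow_eq_pow_sum, h1]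
  rw [h2]
  ring

/-- the rows of the derivatives of algebraically independent elements span everything -/
theorem span_rows {k L ι : Type} [Field k] [CharZero k] [Field L] [Algebra k L] {n : ℕ}
    (b : ι → L) (hb : IsTranscendenceBasis k b) (y : Fin n → L) (hy : AlgebraicIndependent k y)
    (D : ι → Derivation k L L) (hD : ∀ s, D s (b s) = 1) (hD' : ∀ s s', s ≠ s' → D s (b s') = 0) :
    Submodule.span L (Set.range fun s => fun j => D s (y j)) = ⊤ := by
  classical
  by_contra hne
  obtain ⟨f, hf0, hf⟩ := Submodule.exists_le_ker_of_lt_top _ (lt_top_iff_ne_top.2 hne)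
  obtain ⟨β, hβ⟩ := omega_basis b hb
  have hc : ∀ v : Fin n → L, f v = ∑ j, v j * f (Pi.single j 1) := by
    intro v
    conv_lhs => rw [← Finset.univ_sum_single v]
    rw [map_sum]
    refine Finset.sum_congr rfl fun j _ => ?_
    rw [← smul_eq_mul, ← map_smul]
    congr 1
    rw [← Pi.single_smul, smul_eq_mul, mul_one]
  have h1 : ∀ s, ∑ j, D s (y j) * f (Pi.single j 1) = 0 := by
    intro s
    rw [← hc]
    exact hf (Submodule.subset_span ⟨s, rfl⟩)
  have h2 : ∀ s, (β.coord s).compDer (KaehlerDifferential.D k L) = D s := by
    intro s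
    refine der_ext b hb _ _ fun s' => ?_
    show β.coord s (KaehlerDifferential.D k L (b s')) = D s (b s')
    rw [← hβ, Module.Basis.coord_apply, Module.Basis.repr_self]
    by_cases h : s = s'
    · rw [← h, hD, Finsupp.single_eq_same]
    · rw [hD' s s' h, Finsupp.single_eq_of_ne h]
  have h3 : ∑ j, f (Pi.single j 1) • KaehlerDifferential.D k L (y j) = 0 := by
    refine (β.ext_elem_iff).2 fun s => ?_
    rw [map_sum, map_zero, Finsupp.coe_zero, Pi.zero_apply, Finsupp.finsetSum_apply, ← h1 s]
    refine Finset.sum_congr rfl fun j _ => ?_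
    rw [map_smul, Finsupp.smul_apply, ← h2 s, smul_eq_mul, mul_comm]
    rfl
  have h4 := Fintype.linearIndependent_iff.1 (omega_indep y hy) _ h3
  apply hf0
  refine LinearMap.ext fun v => ?_
  rw [hc]
  exact Finset.sum_eq_zero fun j _ => by rw [h4 j, mul_zero]

end Pool.Agent.Run7.h720
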