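import Pool.Agent.Run7.h720.VLoc
import Pool.Agent.Run7.h720.VRow

/-!
The Jacobian of a point of a smooth variety with respect to a valuation which is trivial on the base
field.
-/

set_option autoImplicit false

namespace Pool.Agent.Run7.h720

open MvPolynomial (aeval pderiv)

section
variable {k : Type} [Field k] {m g q w : ℕ}

theorem pderiv_smul {A : Type} [Field A] [Algebra k A] (H : MvPolynomial (Fin m) k) {d : ℕ}
    (hH : H.IsHomogeneous d) (x : Fin m → A) (l : A) (hl : l ≠ 0) (y : Fin m) :
    l * aeval (fun j => l * x j) (pderiv y H) = l ^ d * aeval x (pderiv y H) := by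
  obtain _ | d := d
  · rw [← MvPolynomial.totalDegree_zero_iff_isHomogeneous,
      MvPolynomial.totalDegree_eq_zero_iff_eq_C] at hH
    rw [hH, MvPolynomial.pderiv_C, map_zero, map_zero, mul_zero, mul_zero]
  · rw [aeval_hom_smul _ hH.pderiv, Nat.add_sub_cancel, pow_succ]
    ring

theorem loc_val {A : Type} [Field A] [Algebra k A] (O : ValuationSubring A)
    (hO : ∀ c : k, algebraMap k A c ∈ O) {s n : ℕ}
    (G : Fin g → MvPolynomial (Fin m) k) (F : Fin q → Fin w → MvPolynomial (Fin m) k)
    (hGF : SmPair s G F) (hm : s + (n + 1) = m) (dG : Fin g → ℕ)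
    (hGh : ∀ i, (G i).IsHomogeneous (dG i)) (dF : Fin q → ℕ)
    (hFh : ∀ i j, (F i j).IsHomogeneous (dF i)) (x : Fin m → A) (hx : x ≠ 0)
    (hG : ∀ i, aeval x (G i) = 0) (M : Matrix (Fin (n + 1)) (Fin m) A)
    (hM1 : ∀ i j, ∃ j0, O.valuation (M i j) ≤ O.valuation (x j0))
    (hMG : ∀ i a, ∑ y, M i y * aeval x (pderiv y (G a)) = 0)
    (hMF : ∀ i a b, O.valuation (∑ y, M i y * aeval x (pderiv y (F a b))) ≤
      O.valuation (aeval x (F a b))) :
    ∃ (j0 : Fin m) (b : Fin q → Fin w), x j0 ≠ 0 ∧
      (∀ j, O.valuation (x j) ≤ O.valuation (x j0)) ∧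
      ∀ J : Fin (n + 1) → Fin m, O.valuation (M.submatrix id J).det *
        O.valuation (x j0) ^ (∑ i, dF i) ≤
          O.valuation (x j0) ^ (n + 1) * ∏ i, O.valuation (aeval x (F i (b i))) := by
  classical
  have hne : Nonempty (Fin m) := by
    by_contra h
    rw [not_nonempty_iff] at h
    exact hx (Subsingleton.elim _ _)
  obtain ⟨j0, hj0⟩ := Finite.exists_max fun j => O.valuation (x j)
  have hx0 : x j0 ≠ 0 := by
    intro h
    apply hx
    funext j
    have h1 := hj0 j
    rw [h, map_zero] at h1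
    exact (Valuation.zero_iff _).1 (le_antisymm h1 zero_le')
  obtain ⟨l, hl⟩ : ∃ l, l = (x j0)⁻¹ := ⟨_, rfl⟩
  have hl0 : l ≠ 0 := by
    rw [hl]
    exact inv_ne_zero hx0
  have hlx : O.valuation l * O.valuation (x j0) = 1 := by
    rw [← map_mul, hl, inv_mul_cancel₀ hx0, map_one]
  have hxO : ∀ j, l * x j ∈ O := by
    intro j
    rw [← ValuationSubring.valuation_le_one_iff, map_mul, ← hlx]
    exact mul_le_mul_right (hj0 j) _
  letI : Algebra k O := ((algebraMap k A).codRestrict O.toSubring hO).toAlgebra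
  have htow : IsScalarTower k O A := IsScalarTower.of_algebraMap_eq fun c => rfl
  letI : Algebra k (IsLocalRing.ResidueField O) :=
    ((IsLocalRing.residue O).comp (algebraMap k O)).toAlgebra
  let φ : O →ₐ[k] IsLocalRing.ResidueField O :=
    { IsLocalRing.residue O with commutes' := fun _ => rfl }
  obtain ⟨X, hX⟩ : ∃ X : Fin m → O, X = fun j => ⟨l * x j, hxO j⟩ := ⟨_, rfl⟩
  have hXx : ∀ j, (X j : A) = l * x j := fun j => by rw [hX]
  have hcoe : ∀ H : MvPolynomial (Fin m) k, ((aeval X H : O) : A) =
      aeval (fun j => l * x j) H := by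
    intro H
    have h1 := MvPolynomial.aeval_algebraMap_apply (B := A) X H
    rw [← hX] at *
    have h2 : (fun j => l * x j) = algebraMap O A ∘ X := by
      funext j
      exact (hXx j).symm
    rw [h2]
    exact h1.symm
  have hφ0 : ∀ y : O, φ y = 0 ↔ O.valuation (y : A) < 1 := by
    intro y
    have h1 : φ y = 0 ↔ y ∈ IsLocalRing.maximalIdeal O := by
      show IsLocalRing.residue O y = 0 ↔ _
      rw [IsLocalRing.residue_eq_zero_iff]
    rw [h1, ValuationSubring.valuation_lt_one_iff]
  have hφ1 : ∀ y : O, φ y ≠ 0 → O.valuation (y : A) = 1 := by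
    intro y hy
    rw [Ne, hφ0, not_lt] at hy
    exact le_antisymm ((ValuationSubring.valuation_le_one_iff O _).2 y.2) hy
  have hφ : ∀ H : MvPolynomial (Fin m) k, φ (aeval X H) = aeval (fun j => φ (X j)) H := by
    intro H
    rw [← AlgHom.comp_apply, MvPolynomial.comp_aeval]
  have hXj0 : X j0 = 1 := by
    apply Subtype.ext
    rw [hXx, hl, inv_mul_cancel₀ hx0]
    rfl
  have hGX : ∀ i, aeval X (G i) = 0 := by
    intro i
    apply Subtype.ext
    rw [hcoe, aeval_hom_smul _ (hGh i), hG, mul_zero]
    rfl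
  obtain ⟨a, b, B, hB, c, E, hdet⟩ := exists_gmat φ G F hGF X (by
    intro h
    have h1 : φ (X j0) = 0 := congrFun h j0
    rw [hXj0, map_one] at h1
    exact one_ne_zero h1) hGX
  have hcard : Fintype.card ({i : Fin q // ∀ j, aeval (fun j => φ (X j)) (F i j) = 0} ⊕ B) =
      Fintype.card (Fin (n + 1)) := by
    have h1 := Fintype.card_congr E
    rw [Fintype.card_sum, Fintype.card_sum, Fintype.card_fin, Fintype.card_fin] at h1
    rw [Fintype.card_sum, Fintype.card_fin]
    omega
  obtain ⟨f⟩ := Fintype.card_eq.1 hcard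
  -- the matrix of the gradients over the field
  have hPmap : ∀ y i, ((gmat G F X
      (fun i : {i : Fin q // ∀ j, aeval (fun j => φ (X j)) (F i j) = 0} => i.1) a b c E y i : O) :
        A) = gmat G F (fun j => l * x j)
      (fun i : {i : Fin q // ∀ j, aeval (fun j => φ (X j)) (F i j) = 0} => i.1) a b c E y i := by
    intro y i
    unfold gmat
    rw [Matrix.of_apply, Matrix.of_apply]
    rcases E.symm i with (i | i) | i
    · exact hcoe _
    · exact hcoe _
    · simp only [Sum.elim_inr]
      split_ifs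
      · rfl
      · rfl
  have hPG : gmat G F (fun j => l * x j)
      (fun i : {i : Fin q // ∀ j, aeval (fun j => φ (X j)) (F i j) = 0} => i.1) a b c E =
      (algebraMap O A).mapMatrix (gmat G F X
      (fun i : {i : Fin q // ∀ j, aeval (fun j => φ (X j)) (F i j) = 0} => i.1) a b c E) := by
    ext y i
    exact (hPmap y i).symm
  have hdetP : O.valuation (gmat G F (fun j => l * x j)
      (fun i : {i : Fin q // ∀ j, aeval (fun j => φ (X j)) (F i j) = 0} => i.1) a b c E).det =
        1 := by
    rw [hPG, ← RingHom.map_det]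
    exact hφ1 _ hdet
  have hadj : ∀ (e' : Fin (n + 1) → Fin m) (J : Fin (n + 1) → Fin m),
      O.valuation ((gmat G F (fun j => l * x j)
      (fun i : {i : Fin q // ∀ j, aeval (fun j => φ (X j)) (F i j) = 0} => i.1) a b c
        E).adjugate.submatrix e' J).det ≤ 1 := by
    intro e' J
    rw [hPG, ← RingHom.map_adjugate]
    have h1 : ((algebraMap O A).mapMatrix (gmat G F X
      (fun i : {i : Fin q // ∀ j, aeval (fun j => φ (X j)) (F i j) = 0} => i.1) a b c
        E).adjugate).submatrix e' J = (algebraMap O A).mapMatrix ((gmat G F X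
      (fun i : {i : Fin q // ∀ j, aeval (fun j => φ (X j)) (F i j) = 0} => i.1) a b c
        E).adjugate.submatrix e' J) := rfl
    rw [h1, ← RingHom.map_det]
    exact (ValuationSubring.valuation_le_one_iff O _).2 (Subtype.prop _)
  have hrowH : ∀ (H : MvPolynomial (Fin m) k) (d : ℕ), H.IsHomogeneous d → ∀ i,
      ∑ y, (l • M) i y * aeval (fun j => l * x j) (pderiv y H) =
        l ^ d * ∑ y, M i y * aeval x (pderiv y H) := by
    intro H d hH i
    rw [Finset.mul_sum]
    refine Finset.sum_congr rfl fun y _ => ?_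
    have h1 := pderiv_smul H hH x l hl0 y
    rw [Matrix.smul_apply, smul_eq_mul]
    linear_combination M i y * h1
  have hrow := fun i => mul_gmat G F (fun j => l * x j)
    (fun i : {i : Fin q // ∀ j, aeval (fun j => φ (X j)) (F i j) = 0} => i.1) a b c E (l • M) i
  -- the choice of the equations
  have hb' : ∀ i, ∃ j, O.valuation (aeval (fun j => l * x j) (F i j)) = 1 ∨
      ((∀ j', aeval (fun j => φ (X j)) (F i j') = 0) ∧ j = b i) := by
    intro i
    by_cases hi : ∀ j', aeval (fun j => φ (X j)) (F i j') = 0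
    · exact ⟨b i, Or.inr ⟨hi, rfl⟩⟩
    · push Not at hi
      obtain ⟨j, hj⟩ := hi
      rw [← hφ] at hj
      refine ⟨j, Or.inl ?_⟩
      rw [← hcoe]
      exact hφ1 _ hj
  choose b' hb' using hb'
  refine ⟨j0, b', hx0, hj0, fun J => ?_⟩
  have hblock := minors_block (l • M) (gmat G F (fun j => l * x j)
      (fun i : {i : Fin q // ∀ j, aeval (fun j => φ (X j)) (F i j) = 0} => i.1) a b c E)
      ((Equiv.sumAssoc _ _ _).symm.trans E) f (by
    intro i a'
    have h1 := (hrow i).1 a'
    show ((l • M) * gmat G F (fun j => l * x j)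
      (fun i : {i : Fin q // ∀ j, aeval (fun j => φ (X j)) (F i j) = 0} => i.1) a b c E) i
        (E (Sum.inl (Sum.inl a'))) = 0
    rw [h1, hrowH _ _ (hGh _), hMG, mul_zero]) J
  have hN := val_det O.valuation (Matrix.of fun i j => ((l • M) * gmat G F (fun j => l * x j)
      (fun i : {i : Fin q // ∀ j, aeval (fun j => φ (X j)) (F i j) = 0} => i.1) a b c E) i
        (((Equiv.sumAssoc _ _ _).symm.trans E) (Sum.inr (f.symm j))))
    (fun j => Sum.elim (fun i => O.valuation (aeval (fun j => l * x j) (F i.1 (b i.1))))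
      (fun _ => 1) (f.symm j)) (by
      intro i j
      rw [Matrix.of_apply]
      rcases f.symm j with i' | b1
      · have h1 := (hrow i).2.1 i'
        show O.valuation (((l • M) * gmat G F (fun j => l * x j)
          (fun i : {i : Fin q // ∀ j, aeval (fun j => φ (X j)) (F i j) = 0} => i.1) a b c E) i
            (E (Sum.inl (Sum.inr i')))) ≤ _
        rw [h1, hrowH _ _ (hFh _ _)]
        simp only [Sum.elim_inl]
        rw [aeval_hom_smul _ (hFh _ _), map_mul, map_mul]
        exact mul_le_mul_right (hMF _ _ _) _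
      · have h1 := (hrow i).2.2 b1
        show O.valuation (((l • M) * gmat G F (fun j => l * x j)
          (fun i : {i : Fin q // ∀ j, aeval (fun j => φ (X j)) (F i j) = 0} => i.1) a b c E) i
            (E (Sum.inr b1))) ≤ _
        rw [h1]
        simp only [Sum.elim_inr]
        rw [Matrix.smul_apply, smul_eq_mul, map_mul, ← hlx]
        obtain ⟨j1, hj1⟩ := hM1 i (c b1)
        exact mul_le_mul_right (hj1.trans (hj0 j1)) _)
  have hprod : ∏ j, Sum.elim (fun i : {i : Fin q // ∀ j, aeval (fun j => φ (X j)) (F i j) = 0} =>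
      O.valuation (aeval (fun j => l * x j) (F i.1 (b i.1)))) (fun _ => 1) (f.symm j) =
      ∏ i, O.valuation (aeval (fun j => l * x j) (F i (b' i))) := by
    rw [f.symm.prod_comp (fun y => Sum.elim
      (fun i : {i : Fin q // ∀ j, aeval (fun j => φ (X j)) (F i j) = 0} =>
      O.valuation (aeval (fun j => l * x j) (F i.1 (b i.1)))) (fun _ => 1) y),
      Fintype.prod_sum_type]
    simp only [Sum.elim_inl, Sum.elim_inr, Finset.prod_const_one, mul_one]
    rw [← Fintype.prod_subtype_mul_prod_subtype
      (fun i : Fin q => ∀ j, aeval (fun j => φ (X j)) (F i j) = 0)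
      fun i => O.valuation (aeval (fun j => l * x j) (F i (b' i)))]
    have h1 : ∏ i : {i : Fin q // ¬ ∀ j, aeval (fun j => φ (X j)) (F i j) = 0},
        O.valuation (aeval (fun j => l * x j) (F i.1 (b' i.1))) = 1 := by
      refine Finset.prod_eq_one fun i _ => ?_
      rcases hb' i.1 with h2 | h2
      · exact h2
      · exact absurd h2.1 i.2
    rw [h1, mul_one]
    refine Finset.prod_congr rfl fun i _ => ?_
    rcases hb' i.1 with h2 | h2
    · exfalso
      have h3 := i.2 (b' i.1)
      rw [← hφ, hφ0, hcoe, h2] at h3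
      exact lt_irrefl _ h3
    · rw [h2.2]
  have hfin : O.valuation ((l • M).submatrix id J).det ≤
      ∏ i, O.valuation (aeval (fun j => l * x j) (F i (b' i))) := by
    have h1 := congrArg O.valuation hblock
    rw [map_mul, map_mul, map_pow, hdetP, one_pow, one_mul] at h1
    rw [h1, ← hprod]
    calc _ ≤ (∏ j, Sum.elim (fun i : {i : Fin q // ∀ j, aeval (fun j => φ (X j)) (F i j) = 0} =>
      O.valuation (aeval (fun j => l * x j) (F i.1 (b i.1)))) (fun _ => 1) (f.symm j)) * 1 :=
          mul_le_mul' hN (hadj _ _)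
      _ = _ := mul_one _
  have h2 : ((l • M).submatrix id J).det = l ^ (n + 1) * (M.submatrix id J).det := by
    have : (l • M).submatrix id J = l • M.submatrix id J := rfl
    rw [this, Matrix.det_smul, Fintype.card_fin]
  have h3 : ∏ i, O.valuation (aeval (fun j => l * x j) (F i (b' i))) =
      O.valuation l ^ (∑ i, dF i) * ∏ i, O.valuation (aeval x (F i (b' i))) := by
    rw [← Finset.prod_pow_eq_pow_sum, ← Finset.prod_mul_distrib]
    refine Finset.prod_congr rfl fun i _ => ?_
    rw [aeval_hom_smul _ (hFh _ _), map_mul, map_pow]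
  rw [h2, h3, map_mul, map_pow] at hfin
  have hlx1 : ∀ N : ℕ, O.valuation (x j0) ^ N * O.valuation l ^ N = 1 := fun N => by
    rw [← mul_pow, mul_comm (O.valuation (x j0)), hlx, one_pow]
  calc O.valuation (M.submatrix id J).det * O.valuation (x j0) ^ (∑ i, dF i) =
      (O.valuation (x j0) ^ (n + 1) * O.valuation (x j0) ^ (∑ i, dF i)) *
        (O.valuation l ^ (n + 1) * O.valuation (M.submatrix id J).det) := by
        calc _ = (O.valuation (x j0) ^ (n + 1) * O.valuation l ^ (n + 1)) *
              (O.valuation (M.submatrix id J).det * O.valuation (x j0) ^ (∑ i, dF i)) := by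
              rw [hlx1, one_mul]
          _ = _ := by ac_rfl
    _ ≤ (O.valuation (x j0) ^ (n + 1) * O.valuation (x j0) ^ (∑ i, dF i)) *
        (O.valuation l ^ (∑ i, dF i) * ∏ i, O.valuation (aeval x (F i (b' i)))) :=
        mul_le_mul_right hfin _
    _ = (O.valuation (x j0) ^ (∑ i, dF i) * O.valuation l ^ (∑ i, dF i)) *
        (O.valuation (x j0) ^ (n + 1) * ∏ i, O.valuation (aeval x (F i (b' i)))) := by ac_rfl
    _ = _ := by rw [hlx1, one_mul]

end

end Pool.Agent.Run7.h720
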