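import Pool.Agent.Run7.h720.VTup
import Pool.Agent.Run7.h720.VVal
import Pool.Agent.Run7.h720.VJac

/-!
Vojta's inequality for germs of points of smooth varieties with values in a ring of polynomials in
independent germs of units.
-/

set_option autoImplicit false
set_option linter.unusedSectionVars false

namespace Pool.Agent.Run7.h720

open NumberField IsDedekindDomain Height Filter Topology
open Pool.Agent.W180.OP (Pl av wt fv fv_support_finite wt_nonneg nrm)
open Pool.Agent.K1H83.VN
open MvPolynomial (aeval pderiv)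

variable {k : Type} [Field k] [NumberField k] {σ : Sc} {S : Finset (Pl k)} {r : ℕ}

theorem lv_prod (v : Pl k) {ι : Type} (s : Finset ι) (x : ι → G k σ) (hx : ∀ i ∈ s, x i ≠ 0) :
    ∀ᶠ t in (σ.𝒰 : Filter ℕ), lv v (∏ i ∈ s, x i) t = ∑ i ∈ s, lv v (x i) t := by
  classical
  induction s using Finset.induction_on with
  | empty =>
    filter_upwards [rep_one (k := k) (σ := σ)] with t ht
    rw [Finset.prod_empty, Finset.sum_empty]
    unfold lv
    rw [ht]
    simp
  | insert a s ha ih =>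
    have h1 := ih fun i hi => hx i (Finset.mem_insert_of_mem hi)
    have h2 := lv_mul v (x a) (∏ i ∈ s, x i) (hx a (Finset.mem_insert_self _ _))
      (Finset.prod_ne_zero_iff.2 fun i hi => hx i (Finset.mem_insert_of_mem hi))
    filter_upwards [h1, h2] with t t1 t2
    rw [Finset.prod_insert ha, Finset.sum_insert ha, t2, t1]

theorem lv_pow (v : Pl k) (x : G k σ) (hx : x ≠ 0) (n : ℕ) :
    ∀ᶠ t in (σ.𝒰 : Filter ℕ), lv v (x ^ n) t = n * lv v x t := by
  have h := lv_prod v (Finset.range n) (fun _ => x) fun _ _ => hx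
  filter_upwards [h] with t ht
  rw [Finset.prod_const, Finset.card_range, Finset.sum_const, Finset.card_range,
    nsmul_eq_mul] at ht
  exact ht

section
variable {u : Fin r → G k σ} (hu : Indep S u)
variable {m g q w s n : ℕ} (Gs : Fin g → MvPolynomial (Fin m) k)
  (F : Fin q → Fin w → MvPolynomial (Fin m) k) (hGF : SmPair s Gs F) (hm : s + (n + 1) = m)
  (dG : Fin g → ℕ) (hGh : ∀ i, (Gs i).IsHomogeneous (dG i)) (dF : Fin q → ℕ)
  (hFh : ∀ i j, (F i j).IsHomogeneous (dF i))

theorem ev_aeval (u : Fin r → G k σ) (x : Fin m → MvPolynomial (Fin r) (FF k σ))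
    (H : MvPolynomial (Fin m) k) : aeval (fun j => ev u (x j)) H = ev u (aeval x H) := by
  have h1 : (((ev u).restrictScalars k).comp (aeval x)) = aeval (fun j => ev u (x j)) := by
    rw [MvPolynomial.comp_aeval]
    rfl
  rw [← h1]
  rfl

include hu hGF hm hGh hFh

/-- the estimate at a place in `S` -/
theorem var_local (hS : ∀ w : InfinitePlace k, Sum.inl w ∈ S) (v : Pl k) (hv : v ∈ S)
    (x : Fin m → MvPolynomial (Fin r) (FF k σ)) (i1 : Fin m) (hx1 : x i1 ≠ 0)
    (hG : ∀ i, aeval x (Gs i) = 0)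
    (D : Fin n → Derivation k (MvPolynomial (Fin r) (FF k σ)) (MvPolynomial (Fin r) (FF k σ)))
    (hD : ∀ a q, (D a q).support ⊆ q.support) (J0 : Fin (n + 1) → Fin m)
    (hJ0 : ((jm D x).submatrix id J0).det ≠ 0) :
    Sm σ fun t => Real.log (nm (av v) fun J : Fin (n + 1) → Fin m =>
        rep (ev u ((jm D x).submatrix id J).det) t) +
      ((∑ i, dF i : ℕ) - (n + 1 : ℝ)) * Real.log (nm (av v) fun j => rep (ev u (x j)) t) -
      ∑ i, Real.log (nm (av v) fun j : Fin w => rep (ev u (aeval x (F i j))) t) := by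
  classical
  have hxne : (fun j => ev u (x j)) ≠ 0 := fun h => ev_ne hu hS _ hx1 (congrFun h i1)
  have hrow : ∀ (H : MvPolynomial (Fin m) k) (d : ℕ), H.IsHomogeneous d → ∀ i,
      ∑ y, ((jm D x).map (ev u)) i y * aeval (fun j => ev u (x j)) (pderiv y H) =
      ev u ((Fin.cons (d * aeval x H) (fun a => D a (aeval x H)) :
        Fin (n + 1) → MvPolynomial (Fin r) (FF k σ)) i) := by
    intro H d hH i
    rw [← jm_row D x H hH i, map_sum]
    refine Finset.sum_congr rfl fun y _ => ?_
    rw [ev_aeval, map_mul, Matrix.map_apply]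
  obtain ⟨j0, b, hj0, hmax, hval⟩ := loc_val (OO σ (av v)) (fun c => by
      have h1 := val_FF_le v (alg_mem (σ := σ) c)
      exact ((OO σ (av v)).valuation_le_one_iff _).1 h1) Gs F hGF hm dG hGh dF hFh
    (fun j => ev u (x j)) hxne (fun i => by rw [ev_aeval, hG, map_zero])
    ((jm D x).map (ev u)) (fun i j => by
      refine Fin.cases ?_ (fun i => ?_) i
      · exact ⟨j, le_rfl⟩
      · exact ⟨j, val_der_le hu hS v hv (x j) _ (hD i (x j))⟩) (fun i a => by
      rw [hrow _ _ (hGh a), hG]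
      refine Fin.cases ?_ (fun i => ?_) i
      · rw [Fin.cons_zero, mul_zero, map_zero]
      · rw [Fin.cons_succ, map_zero, map_zero]) (fun i a b => by
      rw [hrow _ _ (hFh a b), ev_aeval]
      refine Fin.cases ?_ (fun i => ?_) i
      · rw [Fin.cons_zero, map_mul, map_mul, map_natCast]
        exact mul_le_of_le_one_left' (((OO σ (av v)).valuation_le_one_iff _).2
          (natCast_mem _ _))
      · rw [Fin.cons_succ]
        exact val_der_le hu hS v hv _ _ (hD i _))
  have hdet : ∀ J : Fin (n + 1) → Fin m, (((jm D x).map (ev u)).submatrix id J).det =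
      ev u ((jm D x).submatrix id J).det := by
    intro J
    have h1 : ((jm D x).map (ev u)).submatrix id J =
        (ev u).toRingHom.mapMatrix ((jm D x).submatrix id J) := rfl
    rw [h1, ← RingHom.map_det]
    rfl
  simp only [hdet, ev_aeval] at hval
  have hxj0 : ev u (x j0) ≠ 0 := hj0
  have hFne : ∀ i, ev u (aeval x (F i (b i))) ≠ 0 := by
    intro i h
    have h1 := hval J0
    rw [Finset.prod_eq_zero (Finset.mem_univ i) (by rw [h, map_zero]), mul_zero] at h1
    have h2 := le_antisymm h1 zero_le'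
    rcases mul_eq_zero.1 h2 with h3 | h3
    · exact ev_ne hu hS _ hJ0 ((Valuation.zero_iff _).1 h3)
    · exact pow_ne_zero _ ((Valuation.ne_zero_iff _).2 hxj0) h3
  -- the minors
  have hmin : Sm σ fun t => Real.log (nm (av v) fun J : Fin (n + 1) → Fin m =>
        rep (ev u ((jm D x).submatrix id J).det) t) -
      ((n + 1 : ℝ) * lv v (ev u (x j0)) t + ∑ i, lv v (ev u (aeval x (F i (b i)))) t -
        (∑ i, dF i : ℕ) * lv v (ev u (x j0)) t) := by
    refine Sm_nm v (fun J : Fin (n + 1) → Fin m => ev u ((jm D x).submatrix id J).det) J0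
      (ev_ne hu hS _ hJ0) _ fun J hJ => ?_
    have hprod0 : ∏ i, ev u (aeval x (F i (b i))) ≠ 0 := Finset.prod_ne_zero_iff.2 fun i _ => hFne i
    have h1 : (OO σ (av v)).valuation (ev u ((jm D x).submatrix id J).det *
        ev u (x j0) ^ (∑ i, dF i)) ≤ (OO σ (av v)).valuation (ev u (x j0) ^ (n + 1) *
          ∏ i, ev u (aeval x (F i (b i)))) := by
      rw [Valuation.map_mul, Valuation.map_mul, Valuation.map_pow, Valuation.map_pow,
        map_prod (OO σ (av v)).valuation]
      exact hval J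
    rw [val_le_iff v (mul_ne_zero hJ (pow_ne_zero _ hxj0))
        (mul_ne_zero (pow_ne_zero _ hxj0) hprod0)] at h1
    refine h1.mono ?_
    filter_upwards [lv_mul v _ _ hJ (pow_ne_zero (∑ i, dF i) hxj0),
      lv_mul v _ _ (pow_ne_zero (n + 1) hxj0) hprod0, lv_pow v _ hxj0 (∑ i, dF i),
      lv_pow v _ hxj0 (n + 1), lv_prod v Finset.univ (fun i => ev u (aeval x (F i (b i))))
        fun i _ => hFne i] with t t1 t2 t3 t4 t5
    rw [t1, t2, t3, t4, t5]
    push_cast
    linarith
  -- the coordinates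
  have hle : ∀ᶠ t in (σ.𝒰 : Filter ℕ), lv v (ev u (x j0)) t ≤
      Real.log (nm (av v) fun j => rep (ev u (x j)) t) := by
    filter_upwards [rep_ne _ hxj0] with t ht
    exact Real.log_le_log ((av v).pos ht) (le_nm (av v) (fun j => rep (ev u (x j)) t) j0)
  have hco : Sm σ fun t => ((∑ i, dF i : ℕ) - (n + 1 : ℝ)) *
      (Real.log (nm (av v) fun j => rep (ev u (x j)) t) - lv v (ev u (x j0)) t) := by
    rcases le_total 0 ((∑ i, dF i : ℕ) - (n + 1 : ℝ)) with hc | hc
    · refine Sm.smul (Sm_nm v (fun j => ev u (x j)) j0 hxj0 _ fun j hj => ?_) hc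
      exact (val_le_iff v hj hxj0).1 (hmax j)
    · refine (Sm.const 0).mono ?_
      filter_upwards [hle] with t ht
      exact mul_nonpos_of_nonpos_of_nonneg hc (by linarith)
  refine (hmin.add hco).mono ?_
  have hFle : ∀ᶠ t in (σ.𝒰 : Filter ℕ), ∀ i, lv v (ev u (aeval x (F i (b i)))) t ≤
      Real.log (nm (av v) fun j : Fin w => rep (ev u (aeval x (F i j))) t) := by
    rw [Filter.eventually_all]
    intro i
    filter_upwards [rep_ne _ (hFne i)] with t ht
    exact Real.log_le_log ((av v).pos ht)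
      (le_nm (av v) (fun j : Fin w => rep (ev u (aeval x (F i j))) t) (b i))
  filter_upwards [hFle] with t ht
  have h1 := Finset.sum_le_sum fun i (_ : i ∈ Finset.univ) => ht i
  linarith

/-- **Vojta's inequality for germs.** -/
theorem var_core (hS : ∀ w : InfinitePlace k, Sum.inl w ∈ S)
    (x : Fin m → MvPolynomial (Fin r) (FF k σ)) (i1 : Fin m) (hx1 : x i1 ≠ 0)
    (hG : ∀ i, aeval x (Gs i) = 0) (hcop : ∀ π, Irreducible π → ¬ ∀ j, π ∣ x j)
    (J0 : Fin (n + 1) → Fin m)
    (hgen : ∀ P : MvPolynomial (Fin (n + 1)) k, P ≠ 0 → ∃ d,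
      aeval (fun a => x (J0 a)) (MvPolynomial.homogeneousComponent d P) ≠ 0)
    (hF : ∀ i, ∃ j, aeval x (F i j) ≠ 0)
    (R : MvPolynomial (Fin r) (FF k σ)) (hR : R ≠ 0) (τ : G k σ) (hτ : τ ≠ 0) (M : ℕ)
    (hM : M ≠ 0)
    (h1 : ∀ᶠ t in (σ.𝒰 : Filter ℕ), ∀ v : HeightOneSpectrum (𝓞 k), Sum.inr v ∉ S →
      fv v (rep τ t) ≤ 1 ∧ fv v (rep (ev u R) t) ^ M * fv v (rep τ t) *
        nm (fv v) (fun j => rep (ev u (x j)) t) ^ (∑ i, dF i) ≤
          ∏ i, nm (fv v) (fun j : Fin w => rep (ev u (aeval x (F i j))) t)) :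
    ∃ (D : Fin n → Derivation k (MvPolynomial (Fin r) (FF k σ)) (MvPolynomial (Fin r) (FF k σ)))
      (A C : MvPolynomial (Fin r) (FF k σ)), ((jm D x).submatrix id J0).det ≠ 0 ∧
      A ∣ R ∧ A ≠ 0 ∧ C ≠ 0 ∧ (Sm σ fun t => hs S (ev u C) t - hs S τ t) ∧
      Sm σ fun t => logHeight (fun J : Fin (n + 1) → Fin m =>
          rep (ev u ((jm D x).submatrix id J).det) t) +
        ((∑ i, dF i : ℕ) - (n + 1 : ℝ)) * logHeight (fun j => rep (ev u (x j)) t) -
        ∑ i, logHeight (fun j : Fin w => rep (ev u (aeval x (F i j))) t) -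
        hs S (ev u A) t - hs S (ev u C) t := by
  classical
  obtain ⟨D, hD, hdet⟩ := exists_jac (fun a => x (J0 a)) hgen
  have hJ0 : ((jm D x).submatrix id J0).det ≠ 0 := by
    intro h
    apply hdet
    rw [← h]
    congr 1
    ext a j
    refine Fin.cases ?_ (fun a => ?_) a
    · rfl
    · rfl
  -- common factors of the equations and of the minors
  have hpf := fun i => tuple_gcd (fun j => aeval x (F i j)) (hF i)
  choose p f hp0 hpf hpd hpc using hpf
  have hf0 : ∀ i, ∃ j, f i j ≠ 0 := by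
    intro i
    obtain ⟨j, hj⟩ := hF i
    refine ⟨j, fun h => hj ?_⟩
    rw [hpf i j, h, mul_zero]
  choose jf hjf using hf0
  obtain ⟨g0, γ, hg0, hγ, hgd, hγc⟩ := tuple_gcd (fun J : Fin (n + 1) → Fin m =>
    ((jm D x).submatrix id J).det) ⟨J0, hJ0⟩
  have hγ0 : γ J0 ≠ 0 := by
    intro h
    apply hJ0
    rw [hγ J0, h, mul_zero]
  have hP0 : ∏ i, p i ≠ 0 := Finset.prod_ne_zero_iff.2 fun i _ => hp0 i
  have hdiv : ∀ π, Irreducible π → ∀ n' : ℕ, π ^ (n' + 1) ∣ ∏ i, p i → π ^ n' ∣ g0 := by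
    intro π hπ n' hn
    refine hgd _ fun J => ?_
    have hfm : ∀ i, FiniteMultiplicity π (p i) := fun i =>
      FiniteMultiplicity.of_not_isUnit hπ.not_isUnit (hp0 i)
    choose p' hp' hpp' using fun i => (hfm i).exists_eq_pow_mul_and_not_dvd
    have h2 := loc_prime Gs F hGF hm dG hGh dF hFh x hG D π hπ.prime (hcop π hπ)
      (fun i => multiplicity π (p i)) (fun i j => by
        rw [hpf i j]
        exact (pow_multiplicity_dvd π (p i)).mul_right _) J
    have h3 : ∏ i, p i = (∏ i, π ^ multiplicity π (p i)) * ∏ i, p' i := by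
      rw [← Finset.prod_mul_distrib]
      exact Finset.prod_congr rfl fun i _ => hp' i
    have h4 : ¬ π ∣ ∏ i, p' i := by
      intro h
      obtain ⟨i, -, hi⟩ := (hπ.prime.dvd_finsetProd_iff _).1 h
      exact hpp' i hi
    rw [h3] at hn
    have h5 := (hπ.prime.pow_dvd_of_dvd_mul_right _ h4 hn).trans h2
    rw [pow_succ'] at h5
    exact (mul_dvd_mul_iff_left hπ.ne_zero).1 h5
  obtain ⟨A, C, hAR, hCP, hA0, hC0, hs1, hs2⟩ := star2 hu hS (∏ i, p i) g0 R hP0 hg0 hR
    (fun π hπ _ => hdiv π hπ) τ hτ x i1 hx1 (tuple_small hu hS x i1 hx1 hcop)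
    (fun a : Fin q × Fin w => f a.1 a.2) M (∑ i, dF i) q hM (by
      have e1 : ∀ᶠ t in (σ.𝒰 : Filter ℕ), ∀ i, ∀ j, rep (ev u (aeval x (F i j))) t =
          rep (ev u (p i)) t * rep (ev u (f i j)) t := by
        rw [Filter.eventually_all]
        intro i
        rw [Filter.eventually_all]
        intro j
        rw [hpf i j, map_mul]
        exact rep_mul _ _
      filter_upwards [h1, e1, rep_prod Finset.univ fun i => ev u (p i)] with t t1 t2 t3 v hv
      obtain ⟨t1a, t1b⟩ := t1 v hv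
      refine ⟨t1a, t1b.trans ?_⟩
      rw [map_prod (ev u), t3, map_prod]
      have e2 : ∀ i ∈ Finset.univ, nm (fv v) (fun j : Fin w => rep (ev u (aeval x (F i j))) t) ≤
          fv v (rep (ev u (p i)) t) *
            nm (fv v) (c1 fun a : Fin q × Fin w => rep (ev u (f a.1 a.2)) t) := by
        intro i _
        have e3 : (fun j : Fin w => rep (ev u (aeval x (F i j))) t) =
            fun j => rep (ev u (p i)) t * rep (ev u (f i j)) t := funext fun j => t2 i j
        rw [e3, nm_smul]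
        refine mul_le_mul_of_nonneg_left ?_ ((fv v).nonneg _)
        refine nm_le _ (nm_nonneg _ _) fun j => ?_
        exact le_nm (fv v) (c1 fun a : Fin q × Fin w => rep (ev u (f a.1 a.2)) t) (some (i, j))
      refine (Finset.prod_le_prod (fun i _ => nm_nonneg _ _) e2).trans (le_of_eq ?_)
      rw [Finset.prod_mul_distrib, Finset.prod_const, Finset.card_univ, Fintype.card_fin])
  refine ⟨D, A, C, hJ0, hAR, hA0, hC0, hs2, ?_⟩
  have hloc := Sm.sum S fun v hv => (var_local hu Gs F hGF hm dG hGh dF hFh hS v hv x i1 hx1 hG D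
    hD J0 hJ0).smul (wt_nonneg v)
  obtain ⟨c, hc⟩ : ∃ c : ℝ, c = (∑ i, dF i : ℕ) - (n + 1 : ℝ) := ⟨_, rfl⟩
  rw [← hc] at hloc ⊢
  have hx_small : Sm σ fun t => c * ho S fun j => rep (ev u (x j)) t := by
    rcases le_total 0 c with h | h
    · exact (tuple_int hu hS x i1 hx1).smul h
    · refine ((tuple_small hu hS x i1 hx1 hcop).smul (neg_nonneg.2 h)).mono
        (Eventually.of_forall fun t => ?_)
      linarith
  have hf_small : Sm σ fun t => ∑ i, -ho S fun j => rep (ev u (f i j)) t :=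
    Sm.sum _ fun i _ => tuple_small hu hS (f i) (jf i) (hjf i) (hpc i)
  have hsplitF : ∀ᶠ t in (σ.𝒰 : Filter ℕ), ∀ i,
      ∑ v ∈ S, wt v * Real.log (nm (av v) fun j => rep (ev u (aeval x (F i j))) t) =
        hs S (ev u (p i)) t + logHeight (fun j => rep (ev u (aeval x (F i j))) t) -
          ho S fun j => rep (ev u (f i j)) t := by
    rw [Filter.eventually_all]
    intro i
    exact tuple_split hu hS (fun j => aeval x (F i j)) (f i) (p i) (hp0 i) (hpf i) (jf i) (hjf i)
  refine ((((hloc.add hs1).add (tuple_int hu hS γ J0 hγ0)).add hx_small).add hf_small).mono ?_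
  filter_upwards [hsplitF, tuple_split hu hS (fun J : Fin (n + 1) → Fin m =>
    ((jm D x).submatrix id J).det) γ g0 hg0 hγ J0 hγ0,
    hs_prod (S := S) Finset.univ (fun i => ev u (p i)) (fun i _ => ev_ne hu hS _ (hp0 i)),
    rep_ne _ (ev_ne hu hS _ hx1)] with t t1 t2 t3 t4
  rw [← map_prod (ev u)] at t3
  have hsx := logHeight_split S hS (fun j => rep (ev u (x j)) t) (ne_of_coord (i := i1) t4)
  have hsum : ∑ v ∈ S, wt v * (Real.log (nm (av v) fun J : Fin (n + 1) → Fin m =>
        rep (ev u ((jm D x).submatrix id J).det) t) +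
      c * Real.log (nm (av v) fun j => rep (ev u (x j)) t) -
      ∑ i, Real.log (nm (av v) fun j : Fin w => rep (ev u (aeval x (F i j))) t)) =
      (∑ v ∈ S, wt v * Real.log (nm (av v) fun J : Fin (n + 1) → Fin m =>
        rep (ev u ((jm D x).submatrix id J).det) t)) +
      c * (∑ v ∈ S, wt v * Real.log (nm (av v) fun j => rep (ev u (x j)) t)) -
      ∑ i, ∑ v ∈ S, wt v *
        Real.log (nm (av v) fun j : Fin w => rep (ev u (aeval x (F i j))) t) := by
    rw [Finset.mul_sum, Finset.sum_comm (s := Finset.univ), ← Finset.sum_add_distrib,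
      ← Finset.sum_sub_distrib]
    refine Finset.sum_congr rfl fun v _ => ?_
    rw [← Finset.mul_sum]
    ring
  rw [hsum, t2, Finset.sum_congr rfl fun i _ => t1 i, Finset.sum_sub_distrib,
    Finset.sum_add_distrib, t3, Finset.sum_neg_distrib]
  have hsx' : ∑ v ∈ S, wt v * Real.log (nm (av v) fun j => rep (ev u (x j)) t) =
      logHeight (fun j => rep (ev u (x j)) t) - ho S fun j => rep (ev u (x j)) t := by
    rw [hsx]
    ring
  rw [hsx']
  linarith

end

end Pool.Agent.Run7.h720
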