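import Pool.Agent.Run7.h720.VCore
import Pool.Agent.Run7.h720.P1Main

/-!
Points and tangent spaces: passage from sequences to polynomials in independent germs of units.
-/

set_option autoImplicit false
set_option linter.unusedSectionVars false

namespace Pool.Agent.Run7.h720

open NumberField IsDedekindDomain Height Filter Topology
open Pool.Agent.W180.OP (Pl av wt fv fv_support_finite wt_nonneg nrm)
open Pool.Agent.K1H83.VN
open MvPolynomial (aeval pderiv monomial)

section field
variable {K : Type} [Field K]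

/-- all matrices of tangent vectors have the minors of a basis of the tangent space, up to a factor -/
theorem tangent_minors {m s n g : ℕ} (G : Fin g → MvPolynomial (Fin m) K) (x : Fin m → K)
    (a : Fin s → Fin g)
    (ha : LinearIndependent K (fun (i : Fin s) (y : Fin m) => aeval x (pderiv y (G (a i)))))
    (hm : s + (n + 1) = m) (A : Matrix (Fin m) (Fin (n + 1)) K)
    (hA1 : LinearIndependent K (fun (c : Fin (n + 1)) (j : Fin m) => A j c))
    (hA2 : ∀ k c, ∑ j, aeval x (pderiv j (G k)) * A j c = 0)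
    (M : Matrix (Fin (n + 1)) (Fin m) K)
    (hM : ∀ i k, ∑ y, M i y * aeval x (pderiv y (G k)) = 0) :
    ∃ c : K, ∀ J : Fin (n + 1) → Fin m, (M.submatrix id J).det = c * (A.submatrix J id).det := by
  classical
  obtain ⟨P, hP⟩ : ∃ P : Matrix (Fin s) (Fin m) K,
      P = Matrix.of fun (i : Fin s) (y : Fin m) => aeval x (pderiv y (G (a i))) := ⟨_, rfl⟩
  have hrank : P.rank = s := by
    rw [hP]
    have h1 : LinearIndependent K (Matrix.of fun (i : Fin s) (y : Fin m) =>
      aeval x (pderiv y (G (a i)))).row := ha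
    rw [h1.rank_matrix, Fintype.card_fin]
  have hker : Module.finrank K (LinearMap.ker P.mulVecLin) = n + 1 := by
    have h1 := LinearMap.finrank_range_add_finrank_ker P.mulVecLin
    rw [Module.finrank_fin_fun] at h1
    have h2 : Module.finrank K (LinearMap.range P.mulVecLin) = s := hrank
    omega
  have hspan : Submodule.span K (Set.range fun (c : Fin (n + 1)) (j : Fin m) => A j c) =
      LinearMap.ker P.mulVecLin := by
    refine Submodule.eq_of_le_of_finrank_eq ?_ ?_
    · rw [Submodule.span_le]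
      rintro _ ⟨c, rfl⟩
      show P.mulVecLin _ = 0
      rw [Matrix.mulVecLin_apply]
      funext i
      rw [hP]
      exact hA2 (a i) c
    · rw [hker, finrank_span_eq_card hA1, Fintype.card_fin]
  have hrow : ∀ i, ∃ Q : Fin (n + 1) → K, ∑ c, Q c • (fun j : Fin m => A j c) = M i := by
    intro i
    have h1 : M i ∈ LinearMap.ker P.mulVecLin := by
      show P.mulVecLin _ = 0
      rw [Matrix.mulVecLin_apply]
      funext i'
      rw [hP]
      show ∑ y, aeval x (pderiv y (G (a i'))) * M i y = 0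
      rw [← hM i (a i')]
      exact Finset.sum_congr rfl fun y _ => mul_comm _ _
    rw [← hspan] at h1
    exact (Submodule.mem_span_range_iff_exists_fun K).1 h1
  choose Q hQ using hrow
  refine ⟨(Matrix.of Q).det, fun J => ?_⟩
  rw [← Matrix.det_transpose (A.submatrix J id), ← Matrix.det_mul]
  congr 1
  ext i j
  rw [Matrix.submatrix_apply, Matrix.mul_apply]
  show M i (J j) = ∑ c, Q i c * A (J j) c
  rw [← hQ i, Finset.sum_apply]
  exact Finset.sum_congr rfl fun c _ => rfl

end field

variable {k : Type} [Field k] [NumberField k] {σ : Sc} {S : Finset (Pl k)} {r : ℕ}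

theorem rep_aeval {m : ℕ} (z : Fin m → G k σ) (H : MvPolynomial (Fin m) k) :
    ∀ᶠ t in (σ.𝒰 : Filter ℕ), rep (aeval z H) t = aeval (fun j => rep (z j) t) H := by
  refine rep_eq _ (fun t => aeval (fun j => rep (z j) t) H) ?_
  induction H using MvPolynomial.induction_on with
  | C a =>
    have h1 : (fun t : ℕ => aeval (fun j => rep (z j) t) (MvPolynomial.C a : MvPolynomial (Fin m) k))
        = fun _ => a := by
      funext t
      rw [MvPolynomial.aeval_C]
      rfl
    rw [h1, MvPolynomial.aeval_C]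
    rfl
  | add p q hp hq =>
    have h1 : (fun t : ℕ => aeval (fun j => rep (z j) t) (p + q)) =
        (fun t => aeval (fun j => rep (z j) t) p) + fun t => aeval (fun j => rep (z j) t) q := by
      funext t
      rw [map_add]
      rfl
    rw [h1, map_add, map_add, hp, hq]
  | mul_X p i hp =>
    have h1 : (fun t : ℕ => aeval (fun j => rep (z j) t) (p * MvPolynomial.X i)) =
        (fun t => aeval (fun j => rep (z j) t) p) * rep (z i) := by
      funext t
      rw [map_mul, MvPolynomial.aeval_X]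
      rfl
    rw [h1, map_mul, map_mul, hp, gm_rep, MvPolynomial.aeval_X]

theorem rep_det {N : Type} [Fintype N] [DecidableEq N] (M : Matrix N N (G k σ)) :
    ∀ᶠ t in (σ.𝒰 : Filter ℕ), rep M.det t = (Matrix.of fun i j => rep (M i j) t).det := by
  refine rep_eq _ (fun t => (Matrix.of fun i j => rep (M i j) t).det) ?_
  obtain ⟨F, hF⟩ : ∃ F : Matrix N N (ℕ → k), F = Matrix.of fun i j => rep (M i j) := ⟨_, rfl⟩
  have h1 : (gm σ).mapMatrix F = M := by
    ext i j
    rw [hF]
    exact gm_rep _
  have h2 : F.det = fun t => (Matrix.of fun i j => rep (M i j) t).det := by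
    funext t
    have h3 := RingHom.map_det (Pi.evalRingHom (fun _ : ℕ => k) t) F
    have h4 : (Pi.evalRingHom (fun _ : ℕ => k) t) F.det = F.det t := rfl
    rw [← h4, h3, hF]
    rfl
  rw [← h2, RingHom.map_det, h1]

theorem mon_add (u : Fin r → G k σ) (e e' : Fin r →₀ ℕ) :
    mon u (e + e') = mon u e * mon u e' := by
  unfold mon
  rw [← Finset.prod_mul_distrib]
  exact Finset.prod_congr rfl fun i _ => by rw [Finsupp.add_apply, pow_add]

/-- polynomials for finitely many germs with the same monomial -/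
theorem tuple_poly (u : Fin r → G k σ) {ι : Type} [Fintype ι] (a : ι → G k σ)
    (h : ∀ i, ∃ (N : MvPolynomial (Fin r) (FF k σ)) (e : Fin r →₀ ℕ), ev u N = a i * mon u e) :
    ∃ (N : ι → MvPolynomial (Fin r) (FF k σ)) (e : Fin r →₀ ℕ), ∀ i,
      ev u (N i) = a i * mon u e := by
  classical
  choose N e hN using h
  refine ⟨fun i => N i * monomial (∑ j ∈ Finset.univ.erase i, e j) 1, ∑ j, e j, fun i => ?_⟩
  have h0 : ∀ e, ev u (monomial e (1 : FF k σ)) = mon u e := by
    intro e
    rw [ev_monomial]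
    exact one_mul _
  rw [map_mul, hN, h0, mul_assoc, ← mon_add, Finset.add_sum_erase _ _ (Finset.mem_univ i)]

section
variable {u : Fin r → G k σ} (hu : Indep S u)
include hu

/-- a sequence of points as a point with values in the ring of polynomials, without common factor -/
theorem germ_point (hS : ∀ w : InfinitePlace k, Sum.inl w ∈ S) {ι : Type} [Fintype ι]
    (μ : ℕ → k) (hμ : ∀ t, μ t ≠ 0) (x : ℕ → ι → k) (hx0 : ∀ t, x t ≠ 0)
    (h : ∀ i, ∃ (N : MvPolynomial (Fin r) (FF k σ)) (e : Fin r →₀ ℕ),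
      ev u N = gm σ (fun t => μ t * x t i) * mon u e) :
    ∃ (X : ι → MvPolynomial (Fin r) (FF k σ)) (Λ : ℕ → k), (∃ i, X i ≠ 0) ∧
      (∀ π, Irreducible π → ¬ ∀ i, π ∣ X i) ∧
      ∀ᶠ t in (σ.𝒰 : Filter ℕ), Λ t ≠ 0 ∧ ∀ i, rep (ev u (X i)) t = Λ t * x t i := by
  classical
  obtain ⟨N, e, hN⟩ := tuple_poly u _ h
  have hN0 : ∃ i, N i ≠ 0 := by
    by_contra hcon
    push Not at hcon
    have h1 : ∀ᶠ t in (σ.𝒰 : Filter ℕ), ∀ i, μ t * x t i = 0 := by
      rw [Filter.eventually_all]
      intro i
      have h2 := hN i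
      rw [hcon i, map_zero] at h2
      have h3 := (mul_eq_zero.1 h2.symm).resolve_right (mon_ne hu e)
      have h4 : gm σ (fun t => μ t * x t i) = gm σ (fun _ => (0 : k)) := by
        rw [h3]
        exact (map_zero (gm σ)).symm
      rwa [gm_eq] at h4
    obtain ⟨t, ht⟩ := h1.exists
    apply hx0 t
    funext i
    exact (mul_eq_zero.1 (ht i)).resolve_left (hμ t)
  obtain ⟨p, f, hp, hf, -, hfc⟩ := tuple_gcd N hN0
  have hpev : ev u p ≠ 0 := ev_ne hu hS p hp
  refine ⟨f, fun t => μ t * rep (mon u e / ev u p) t, ?_, hfc, ?_⟩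
  · obtain ⟨i, hi⟩ := hN0
    refine ⟨i, fun h0 => hi ?_⟩
    rw [hf i, h0, mul_zero]
  · have h1 : ∀ i, ev u (f i) = gm σ (fun t => μ t * x t i) * (mon u e / ev u p) := by
      intro i
      rw [← mul_div_assoc, eq_div_iff hpev, ← hN, hf i, map_mul, mul_comm]
    have h2 : ∀ᶠ t in (σ.𝒰 : Filter ℕ), ∀ i, rep (ev u (f i)) t =
        μ t * rep (mon u e / ev u p) t * x t i := by
      rw [Filter.eventually_all]
      intro i
      rw [h1 i]
      filter_upwards [rep_mul (gm σ (fun t => μ t * x t i)) (mon u e / ev u p),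
        rep_gm (σ := σ) (fun t => μ t * x t i)] with t t1 t2
      rw [t1, t2]
      ring
    filter_upwards [h2, rep_ne _ (div_ne_zero (mon_ne hu e) hpev)] with t t1 t2
    exact ⟨mul_ne_zero (hμ t) t2, t1⟩

end

/-- equations at a multiple of a point -/
theorem smul_pderiv_zero {K : Type} [Field K] {m : ℕ} (H : MvPolynomial (Fin m) K) {d : ℕ}
    (hH : H.IsHomogeneous d) (x : Fin m → K) (l : K) (hl : l ≠ 0) (M : Fin m → K)
    (h : ∑ y, M y * aeval (fun j => l * x j) (pderiv y H) = 0) :
    ∑ y, M y * aeval x (pderiv y H) = 0 := by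
  have h1 : l ^ d * ∑ y, M y * aeval x (pderiv y H) =
      l * ∑ y, M y * aeval (fun j => l * x j) (pderiv y H) := by
    rw [Finset.mul_sum, Finset.mul_sum]
    refine Finset.sum_congr rfl fun y _ => ?_
    have h2 := pderiv_smul H hH x l hl y
    linear_combination -(M y) * h2
  rw [h, mul_zero] at h1
  exact (mul_eq_zero.1 h1).resolve_left (pow_ne_zero _ hl)

/-- the minors of the Jacobian and of a basis of the tangent space have the same height -/
theorem minors_height {u : Fin r → G k σ} (hu : Indep S u)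
    (hS : ∀ w : InfinitePlace k, Sum.inl w ∈ S) {m g q w s n : ℕ}
    (Gs : Fin g → MvPolynomial (Fin m) k) (F : Fin q → Fin w → MvPolynomial (Fin m) k)
    (hGF : SmPair s Gs F) (hm : s + (n + 1) = m) (dG : Fin g → ℕ)
    (hGh : ∀ i, (Gs i).IsHomogeneous (dG i)) (X : Fin m → MvPolynomial (Fin r) (FF k σ))
    (Λ : ℕ → k) (x : ℕ → Fin m → k) (hx0 : ∀ t, x t ≠ 0) (hxG : ∀ t i, aeval (x t) (Gs i) = 0)
    (hΛ : ∀ᶠ t in (σ.𝒰 : Filter ℕ), Λ t ≠ 0 ∧ ∀ i, rep (ev u (X i)) t = Λ t * x t i)
    (hG : ∀ i, aeval X (Gs i) = 0)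
    (D : Fin n → Derivation k (MvPolynomial (Fin r) (FF k σ)) (MvPolynomial (Fin r) (FF k σ)))
    (J0 : Fin (n + 1) → Fin m) (hJ0 : ((jm D X).submatrix id J0).det ≠ 0)
    (A : ℕ → Matrix (Fin m) (Fin (n + 1)) k)
    (hA1 : ∀ t, LinearIndependent k (fun (c : Fin (n + 1)) (j : Fin m) => A t j c))
    (hA2 : ∀ t k' c, ∑ j, aeval (x t) (pderiv j (Gs k')) * A t j c = 0) :
    ∀ᶠ t in (σ.𝒰 : Filter ℕ),
      logHeight (fun J : Fin (n + 1) → Fin m => rep (ev u ((jm D X).submatrix id J).det) t) =
        logHeight (fun J : Fin (n + 1) → Fin m => ((A t).submatrix J id).det) := by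
  classical
  -- the values of the minors
  have h1 : ∀ᶠ t in (σ.𝒰 : Filter ℕ), ∀ J : Fin (n + 1) → Fin m,
      rep (ev u ((jm D X).submatrix id J).det) t =
        ((Matrix.of fun i y => rep (ev u (jm D X i y)) t).submatrix id J).det := by
    rw [Filter.eventually_all]
    intro J
    have h2 : ev u ((jm D X).submatrix id J).det =
        (Matrix.of fun i j => ev u (jm D X i (J j))).det := by
      have h3 := RingHom.map_det (ev u).toRingHom ((jm D X).submatrix id J)
      exact h3
    rw [h2]
    exact rep_det _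
  -- the rows are tangent vectors
  have h2 : ∀ᶠ t in (σ.𝒰 : Filter ℕ), ∀ i k', ∑ y, rep (ev u (jm D X i y)) t *
      aeval (fun j => rep (ev u (X j)) t) (pderiv y (Gs k')) = 0 := by
    rw [Filter.eventually_all]
    intro i
    rw [Filter.eventually_all]
    intro k'
    have h3 : ∑ y, ev u (jm D X i y) * aeval (fun j => ev u (X j)) (pderiv y (Gs k')) = 0 := by
      have h4 := jm_row D X (Gs k') (hGh k') i
      have h5 : (Fin.cons (dG k' * aeval X (Gs k')) (fun a => D a (aeval X (Gs k'))) :
          Fin (n + 1) → MvPolynomial (Fin r) (FF k σ)) i = 0 := by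
        refine Fin.cases ?_ (fun i => ?_) i
        · rw [Fin.cons_zero, hG, mul_zero]
        · rw [Fin.cons_succ, hG, map_zero]
      rw [h5] at h4
      have h6 := congrArg (ev u) h4
      rw [map_sum, map_zero] at h6
      rw [← h6]
      refine Finset.sum_congr rfl fun y _ => ?_
      rw [map_mul, ev_aeval]
    have h4 : ∀ᶠ t in (σ.𝒰 : Filter ℕ), ∀ y, rep (aeval (fun j => ev u (X j))
        (pderiv y (Gs k'))) t = aeval (fun j => rep (ev u (X j)) t) (pderiv y (Gs k')) := by
      rw [Filter.eventually_all]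
      exact fun y => rep_aeval _ _
    have h5 : ∀ᶠ t in (σ.𝒰 : Filter ℕ), ∀ y, rep (ev u (jm D X i y) *
        aeval (fun j => ev u (X j)) (pderiv y (Gs k'))) t = rep (ev u (jm D X i y)) t *
          rep (aeval (fun j => ev u (X j)) (pderiv y (Gs k'))) t := by
      rw [Filter.eventually_all]
      exact fun y => rep_mul _ _
    have h6 := rep_sum (σ := σ) Finset.univ fun y =>
      ev u (jm D X i y) * aeval (fun j => ev u (X j)) (pderiv y (Gs k'))
    rw [h3] at h6
    filter_upwards [h4, h5, h6, rep_zero (k := k) (σ := σ)] with t t4 t5 t6 t7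
    rw [t7] at t6
    rw [t6]
    refine Finset.sum_congr rfl fun y _ => ?_
    rw [t5, t4]
  filter_upwards [h1, h2, hΛ, rep_ne _ (ev_ne hu hS _ hJ0)] with t t1 t2 ⟨t3, t4⟩ t5
  obtain ⟨a, b, hab⟩ := hGF k (x t) (hx0 t) (hxG t)
  have ha := hab.comp _ Sum.inl_injective
  obtain ⟨c, hc⟩ := tangent_minors Gs (x t) a ha hm (A t) (hA1 t) (hA2 t)
    (Matrix.of fun i y => rep (ev u (jm D X i y)) t) (fun i k' => by
      refine smul_pderiv_zero (Gs k') (hGh k') (x t) (Λ t) t3 _ ?_
      have h3 := t2 i k'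
      simp only [t4] at h3
      exact h3)
  have h3 : (fun J : Fin (n + 1) → Fin m => rep (ev u ((jm D X).submatrix id J).det) t) =
      fun J => c * ((A t).submatrix J id).det := by
    funext J
    rw [t1 J, hc J]
  have hc0 : c ≠ 0 := by
    rintro rfl
    apply t5
    have h4 := congrFun h3 J0
    rw [zero_mul] at h4
    exact h4
  rw [h3]
  exact logHeight_smul_eq_logHeight _ hc0

end Pool.Agent.Run7.h720
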