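import Mathlib

/-!
Determinants: extension of independent vectors, minors of products, columns which are nearly
proportional modulo a prime.
-/

set_option autoImplicit false

namespace Pool.Agent.Run7.h720

/-- independent vectors are completed by unit vectors to an invertible matrix -/
theorem exists_frame {L : Type} [Field L] {m : ℕ} {A : Type} [Finite A] (g : A → Fin m → L)
    (hg : LinearIndependent L g) : ∃ (B : Type) (_ : Fintype B) (c : B → Fin m)
      (e : (A ⊕ B) ≃ Fin m), (Matrix.of fun (i j : Fin m) =>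
        (Sum.elim g (fun b => Pi.single (c b) 1) (e.symm i) : Fin m → L) j).det ≠ 0 := by
  classical
  have h0 : LinearIndepOn L id (Set.range g) := hg.linearIndepOn_id
  obtain ⟨b, hb2, hb1, hb3, hb4⟩ := exists_linearIndepOn_id_extension h0
    (Set.subset_union_left (t := Set.range fun j : Fin m => (Pi.single j 1 : Fin m → L)))
  have hspb : Submodule.span L b = ⊤ := by
    rw [eq_top_iff]
    have h1 : Submodule.span L (Set.range fun j : Fin m => (Pi.single j 1 : Fin m → L)) = ⊤ := by
      have h2 := (Pi.basisFun L (Fin m)).span_eq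
      rw [← h2]
      congr 2
      funext j
      rw [Pi.basisFun_apply]
    rw [← h1]
    exact Submodule.span_le.2 (Set.subset_union_right.trans hb3)
  have hli : LinearIndependent L (fun x : b => (x : Fin m → L)) := hb4
  let β := Module.Basis.mk hli (by rw [Subtype.range_coe_subtype, Set.ofPred_mem_eq, hspb])
  have hfin : Finite b := Module.Finite.finite_basis β
  have hcard : Nat.card b = m := by
    have h1 := Module.finrank_eq_nat_card_basis β
    rw [Module.finrank_fin_fun] at h1
    exact h1.symm
  let B := {j : Fin m // (Pi.single j 1 : Fin m → L) ∈ b ∧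
    (Pi.single j 1 : Fin m → L) ∉ Set.range g}
  let f : A ⊕ B → b := Sum.elim (fun a => ⟨g a, hb1 ⟨a, rfl⟩⟩) fun j => ⟨_, j.2.1⟩
  have hsing : ∀ i j : Fin m, (Pi.single i 1 : Fin m → L) = Pi.single j 1 → i = j := by
    intro i j h
    by_contra hne
    have h1 := congrFun h i
    rw [Pi.single_eq_same, Pi.single_eq_of_ne hne] at h1
    exact one_ne_zero h1
  have hf : Function.Bijective f := by
    constructor
    · rintro (a | a) (a' | a') h
      · have h1 : g a = g a' := congrArg Subtype.val h
        rw [hg.injective h1]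
      · have h1 : g a = Pi.single a'.1 1 := congrArg Subtype.val h
        exact absurd ⟨a, h1⟩ a'.2.2
      · have h1 : Pi.single a.1 1 = g a' := congrArg Subtype.val h
        exact absurd ⟨a', h1.symm⟩ a.2.2
      · have h1 : (Pi.single a.1 1 : Fin m → L) = Pi.single a'.1 1 := congrArg Subtype.val h
        rw [Subtype.ext (hsing _ _ h1)]
    · rintro ⟨y, hy⟩
      by_cases h : y ∈ Set.range g
      · obtain ⟨a, ha⟩ := h
        exact ⟨Sum.inl a, Subtype.ext ha⟩
      · obtain ⟨j, hj⟩ := (hb2 hy).resolve_left h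
        have hj' : (Pi.single j 1 : Fin m → L) = y := hj
        exact ⟨Sum.inr ⟨j, by rwa [hj'], by rwa [hj']⟩, Subtype.ext hj'⟩
  let e : (A ⊕ B) ≃ Fin m := (Equiv.ofBijective f hf).trans (Finite.equivFinOfCardEq hcard)
  refine ⟨B, inferInstance, fun j => j.1, e, ?_⟩
  have h1 := hli.comp (fun i : Fin m => f (e.symm i)) (hf.1.comp e.symm.injective)
  have h2 : LinearIndependent L (Matrix.of fun (i j : Fin m) =>
      (Sum.elim g (fun b : B => Pi.single b.1 1) (e.symm i) : Fin m → L) j).row := by
    have h3 : (Matrix.of fun (i j : Fin m) =>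
        (Sum.elim g (fun b : B => Pi.single b.1 1) (e.symm i) : Fin m → L) j).row =
        (fun x : b => (x : Fin m → L)) ∘ fun i : Fin m => f (e.symm i) := by
      funext i
      show (Sum.elim g (fun b : B => Pi.single b.1 1) (e.symm i) : Fin m → L) = (f (e.symm i)).1
      rcases e.symm i with a | a
      · rfl
      · rfl
    rw [h3]
    exact h1
  rw [Matrix.linearIndependent_rows_iff_isUnit, Matrix.isUnit_iff_isUnit_det] at h2
  exact h2.ne_zero

/-- maximal minors of a matrix and of its product with a square matrix -/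
theorem minors_block {R : Type} [CommRing R] {m : ℕ} {A B N : Type} [Fintype A] [Fintype B]
    [Fintype N] [DecidableEq N] (M : Matrix N (Fin m) R) (P : Matrix (Fin m) (Fin m) R)
    (e : (A ⊕ B) ≃ Fin m) (f : B ≃ N) (h0 : ∀ i a, (M * P) i (e (Sum.inl a)) = 0)
    (J : N → Fin m) :
    P.det ^ Fintype.card N * (M.submatrix id J).det =
      (Matrix.of fun i j => (M * P) i (e (Sum.inr (f.symm j)))).det *
        (P.adjugate.submatrix (fun j => e (Sum.inr (f.symm j))) J).det := by
  classical
  rw [← Matrix.det_smul, ← Matrix.det_mul]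
  congr 1
  ext i j
  rw [Matrix.smul_apply, Matrix.submatrix_apply, id, Matrix.mul_apply]
  have h1 : (M * P * P.adjugate) i (J j) = P.det • M i (J j) := by
    rw [Matrix.mul_assoc, Matrix.mul_adjugate, Matrix.mul_smul, Matrix.mul_one,
      Matrix.smul_apply]
  rw [← h1, Matrix.mul_apply, ← e.sum_comp, Fintype.sum_sum_type]
  have h2 : ∑ a, (M * P) i (e (Sum.inl a)) * P.adjugate (e (Sum.inl a)) (J j) = 0 :=
    Finset.sum_eq_zero fun a _ => by rw [h0, zero_mul]
  rw [h2, zero_add, ← f.symm.sum_comp]
  rfl

theorem val_sum {G Γ₀ : Type} [CommRing G] [LinearOrderedCommGroupWithZero Γ₀]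
    (v : Valuation G Γ₀) {ι : Type} (s : Finset ι) (x : ι → G) (c : Γ₀)
    (h : ∀ i ∈ s, v (x i) ≤ c) : v (∑ i ∈ s, x i) ≤ c :=
  Valuation.map_sum_le _ h

/-- determinants with small columns -/
theorem val_det {G Γ₀ : Type} [CommRing G] [LinearOrderedCommGroupWithZero Γ₀]
    (v : Valuation G Γ₀) {N : Type} [Fintype N] [DecidableEq N] (M : Matrix N N G) (c : N → Γ₀)
    (h : ∀ i j, v (M i j) ≤ c j) : v M.det ≤ ∏ j, c j := by
  rw [Matrix.det_apply]
  refine val_sum v _ _ _ fun σ _ => ?_
  have h1 : v (Equiv.Perm.sign σ • ∏ i, M (σ i) i) = v (∏ i, M (σ i) i) := by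
    rcases Int.units_eq_one_or (Equiv.Perm.sign σ) with h | h
    · rw [h, one_smul]
    · rw [h, Units.neg_smul, one_smul, Valuation.map_neg]
  rw [h1, map_prod]
  exact Finset.prod_le_prod' fun i _ => h _ _

/-- **Columns which are nearly proportional modulo a power of an element.** -/
theorem prime_det {R : Type} [CommRing R] {N : Type} [Fintype N] [DecidableEq N] (π : R)
    (M : Matrix N N R) (V X Y : N → R) (E : Matrix N N R) (e : N → ℕ)
    (hM : ∀ i j, M i j = V i * X j + π ^ e j * E i j) (hY : ∀ j, π * X j = π ^ e j * Y j) :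
    ∏ j, π ^ e j ∣ π * M.det := by
  classical
  have h1 : Matrix.fromBlocks (Matrix.of fun _ _ : Unit => π)
      (Matrix.of fun (_ : Unit) j => -(π * X j)) (Matrix.of fun i (_ : Unit) => V i)
      (Matrix.of fun i j => π ^ e j * E i j) *
      Matrix.fromBlocks 1 (Matrix.of fun (_ : Unit) j => X j) 0 1 =
      Matrix.fromBlocks (Matrix.of fun _ _ : Unit => π) 0 (Matrix.of fun i (_ : Unit) => V i)
        M := by
    rw [Matrix.fromBlocks_multiply]
    congr 1
    · simp
    · ext i j
      simp [Matrix.mul_apply]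
    · simp
    · ext i j
      rw [hM]
      simp [Matrix.mul_apply]
  have h2 : Matrix.fromBlocks (Matrix.of fun _ _ : Unit => π)
      (Matrix.of fun (_ : Unit) j => -(π * X j)) (Matrix.of fun i (_ : Unit) => V i)
      (Matrix.of fun i j => π ^ e j * E i j) =
      Matrix.fromBlocks (Matrix.of fun _ _ : Unit => π)
      (Matrix.of fun (_ : Unit) j => -(Y j)) (Matrix.of fun i (_ : Unit) => V i) E *
      Matrix.diagonal (Sum.elim (fun _ => 1) fun j => π ^ e j) := by
    ext i j
    rw [Matrix.mul_diagonal]
    rcases i with i | i <;> rcases j with j | j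
    · simp
    · simp only [Matrix.fromBlocks_apply₁₂, Matrix.of_apply, Sum.elim_inr]
      rw [hY]
      ring
    · simp
    · simp only [Matrix.fromBlocks_apply₂₂, Matrix.of_apply, Sum.elim_inr]
      ring
  have h3 := congrArg Matrix.det h1
  have hpi : (Matrix.of fun _ _ : Unit => π).det = π := by
    rw [Matrix.det_unique]
    rfl
  rw [h2, Matrix.det_mul, Matrix.det_mul, Matrix.det_diagonal, Matrix.det_fromBlocks_zero₂₁,
    Matrix.det_fromBlocks_zero₁₂, Matrix.det_one, Matrix.det_one, one_mul, mul_one, hpi,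
    Fintype.prod_sum_type] at h3
  simp only [Sum.elim_inl, Sum.elim_inr, Finset.prod_const_one, one_mul] at h3
  rw [← h3]
  exact dvd_mul_left _ _

end Pool.Agent.Run7.h720
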