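import Pool.Agent.Run7.h720.VLin

/-!
The Jacobian of a point of a smooth variety at the primes where it meets a divisor with normal
crossings.
-/

set_option autoImplicit false

namespace Pool.Agent.Run7.h720

open MvPolynomial (aeval pderiv)

section
variable {k : Type} [Field k] {m g q w : ℕ}

/-- at each common zero of the `G i` the gradients of some `s` of them and of one equation for each
component through the point are linearly independent -/
def SmPair (s : ℕ) (G : Fin g → MvPolynomial (Fin m) k)
    (F : Fin q → Fin w → MvPolynomial (Fin m) k) : Prop :=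
  ∀ (L : Type) [Field L] [Algebra k L] (z : Fin m → L), z ≠ 0 → (∀ i, aeval z (G i) = 0) →
    ∃ (a : Fin s → Fin g) (b : Fin q → Fin w), LinearIndependent L
      (Sum.elim (fun i => fun y => aeval z (pderiv y (G (a i))))
        (fun i : {i : Fin q // ∀ j, aeval z (F i j) = 0} =>
          fun y => aeval z (pderiv y (F i.1 (b i.1)))))

/-- chain rule -/
theorem der_aeval {A : Type} [CommRing A] [Algebra k A] (D : Derivation k A A) (x : Fin m → A)
    (H : MvPolynomial (Fin m) k) :
    D (aeval x H) = ∑ j, D (x j) * aeval x (pderiv j H) := by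
  induction H using MvPolynomial.induction_on with
  | C a =>
    rw [MvPolynomial.aeval_C, D.map_algebraMap]
    symm
    refine Finset.sum_eq_zero fun j _ => ?_
    rw [MvPolynomial.pderiv_C, map_zero, mul_zero]
  | add p q hp hq =>
    rw [map_add, map_add, hp, hq, ← Finset.sum_add_distrib]
    refine Finset.sum_congr rfl fun j _ => ?_
    rw [map_add, map_add, mul_add]
  | mul_X p i hp =>
    classical
    rw [map_mul, D.leibniz, hp, MvPolynomial.aeval_X, smul_eq_mul, smul_eq_mul, Finset.mul_sum]
    have h1 : ∀ j, D (x j) * aeval x (pderiv j (p * MvPolynomial.X i)) =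
        x i * (D (x j) * aeval x (pderiv j p)) +
          (if i = j then aeval x p * D (x j) else 0) := by
      intro j
      rw [(pderiv j).leibniz, MvPolynomial.pderiv_X, smul_eq_mul, smul_eq_mul, map_add, map_mul,
        map_mul, MvPolynomial.aeval_X]
      by_cases h : i = j
      · rw [if_pos h, ← h, Pi.single_eq_same, map_one]
        ring
      · rw [if_neg h, Pi.single_eq_of_ne h, map_zero]
        ring
    rw [Finset.sum_congr rfl fun j _ => h1 j, Finset.sum_add_distrib, Finset.sum_ite_eq,
      if_pos (Finset.mem_univ _)]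
    ring

/-- Euler's identity -/
theorem euler_aeval {A : Type} [CommRing A] [Algebra k A] (x : Fin m → A)
    (H : MvPolynomial (Fin m) k) {d : ℕ} (hH : H.IsHomogeneous d) :
    ∑ j, x j * aeval x (pderiv j H) = d * aeval x H := by
  have h := congrArg (aeval x) hH.sum_X_mul_pderiv
  rw [map_sum, map_nsmul, nsmul_eq_mul] at h
  rw [← h]
  exact Finset.sum_congr rfl fun j _ => by rw [map_mul, MvPolynomial.aeval_X]

/-- the matrix of the gradients, completed by unit vectors -/
noncomputable def gmat {A : Type} [CommRing A] [Algebra k A] {s : ℕ}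
    (G : Fin g → MvPolynomial (Fin m) k) (F : Fin q → Fin w → MvPolynomial (Fin m) k)
    (x : Fin m → A) {I B : Type} (ι : I → Fin q) (a : Fin s → Fin g) (b : Fin q → Fin w)
    (c : B → Fin m) (e : ((Fin s ⊕ I) ⊕ B) ≃ Fin m) : Matrix (Fin m) (Fin m) A :=
  Matrix.of fun y i => Sum.elim (Sum.elim (fun i => aeval x (pderiv y (G (a i))))
    (fun i => aeval x (pderiv y (F (ι i) (b (ι i)))))) (fun i => if y = c i then 1 else 0)
      (e.symm i)

theorem exists_gmat {A κ : Type} [CommRing A] [Algebra k A] [Field κ] [Algebra k κ]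
    (φ : A →ₐ[k] κ) {s : ℕ} (G : Fin g → MvPolynomial (Fin m) k)
    (F : Fin q → Fin w → MvPolynomial (Fin m) k) (hGF : SmPair s G F) (x : Fin m → A)
    (hx : (fun j => φ (x j)) ≠ 0) (hG : ∀ i, aeval x (G i) = 0) :
    ∃ (a : Fin s → Fin g) (b : Fin q → Fin w) (B : Type) (_ : Fintype B) (c : B → Fin m)
      (e : ((Fin s ⊕ {i : Fin q // ∀ j, aeval (fun j => φ (x j)) (F i j) = 0}) ⊕ B) ≃ Fin m),
      φ (gmat G F x (fun i : {i : Fin q // ∀ j, aeval (fun j => φ (x j)) (F i j) = 0} => i.1) a b c e).det
        ≠ 0 := by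
  classical
  have hφ : ∀ H : MvPolynomial (Fin m) k, φ (aeval x H) = aeval (fun j => φ (x j)) H := by
    intro H
    rw [← AlgHom.comp_apply, MvPolynomial.comp_aeval]
  obtain ⟨a, b, hab⟩ := hGF κ (fun j => φ (x j)) hx fun i => by rw [← hφ, hG, map_zero]
  have hab' : LinearIndependent κ (Sum.elim
      (fun i => fun y => φ (aeval x (pderiv y (G (a i)))))
        (fun i : {i : Fin q // ∀ j, aeval (fun j => φ (x j)) (F i j) = 0} =>
          fun y => φ (aeval x (pderiv y (F i.1 (b i.1)))))) := by
    simp only [hφ]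
    exact hab
  obtain ⟨B, hB, c, e, hdet⟩ := exists_frame _ hab'
  refine ⟨a, b, B, hB, c, e, fun h => hdet ?_⟩
  rw [AlgHom.map_det, ← Matrix.det_transpose] at h
  refine Eq.trans (congrArg Matrix.det ?_) h
  ext i y
  show _ = φ (Sum.elim (Sum.elim (fun i => aeval x (pderiv y (G (a i))))
    (fun i : {i : Fin q // ∀ j, aeval (fun j => φ (x j)) (F i j) = 0} =>
      aeval x (pderiv y (F i.1 (b i.1))))) (fun i => if y = c i then 1 else 0)
      (e.symm i))
  rw [Matrix.of_apply]
  rcases e.symm i with (i | i) | i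
  · rfl
  · rfl
  · show (Pi.single (c i) 1 : Fin m → κ) y = φ (if y = c i then 1 else 0)
    rw [Pi.single_apply]
    split_ifs
    · rw [map_one]
    · rw [map_zero]

/-- the columns of the product with the matrix of the gradients -/
theorem mul_gmat {A : Type} [CommRing A] [Algebra k A] {s : ℕ}
    (G : Fin g → MvPolynomial (Fin m) k) (F : Fin q → Fin w → MvPolynomial (Fin m) k)
    (x : Fin m → A) {I B N : Type} (ι : I → Fin q) (a : Fin s → Fin g) (b : Fin q → Fin w)
    (c : B → Fin m) (e : ((Fin s ⊕ I) ⊕ B) ≃ Fin m) (M : Matrix N (Fin m) A) (i : N) :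
    (∀ j, (M * gmat G F x ι a b c e) i (e (Sum.inl (Sum.inl j))) =
      ∑ y, M i y * aeval x (pderiv y (G (a j)))) ∧
    (∀ j, (M * gmat G F x ι a b c e) i (e (Sum.inl (Sum.inr j))) =
      ∑ y, M i y * aeval x (pderiv y (F (ι j) (b (ι j))))) ∧
    (∀ j, (M * gmat G F x ι a b c e) i (e (Sum.inr j)) = M i (c j)) := by
  classical
  refine ⟨fun j => ?_, fun j => ?_, fun j => ?_⟩
  · rw [Matrix.mul_apply]
    refine Finset.sum_congr rfl fun y _ => ?_
    unfold gmat
    rw [Matrix.of_apply, Equiv.symm_apply_apply]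
    rfl
  · rw [Matrix.mul_apply]
    refine Finset.sum_congr rfl fun y _ => ?_
    unfold gmat
    rw [Matrix.of_apply, Equiv.symm_apply_apply]
    rfl
  · rw [Matrix.mul_apply]
    have h1 : ∀ y, M i y * gmat G F x ι a b c e y (e (Sum.inr j)) =
        if y = c j then M i y else 0 := by
      intro y
      unfold gmat
      rw [Matrix.of_apply, Equiv.symm_apply_apply]
      show M i y * (if y = c j then 1 else 0) = _
      split_ifs
      · rw [mul_one]
      · rw [mul_zero]
    rw [Finset.sum_congr rfl fun y _ => h1 y, Finset.sum_ite_eq', if_pos (Finset.mem_univ _)]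

/-- the matrix with the rows `x` and the derivatives of `x` -/
noncomputable def jm {A : Type} [CommRing A] [Algebra k A] {n : ℕ}
    (D : Fin n → Derivation k A A) (x : Fin m → A) : Matrix (Fin (n + 1)) (Fin m) A :=
  Matrix.of (Fin.cons x (fun a j => D a (x j)))

theorem jm_row {A : Type} [CommRing A] [Algebra k A] {n : ℕ}
    (D : Fin n → Derivation k A A) (x : Fin m → A) (H : MvPolynomial (Fin m) k) {d : ℕ}
    (hH : H.IsHomogeneous d) (i : Fin (n + 1)) :
    ∑ y, jm D x i y * aeval x (pderiv y H) =
      (Fin.cons (d * aeval x H) (fun a => D a (aeval x H)) : Fin (n + 1) → A) i := by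
  refine Fin.cases ?_ (fun i => ?_) i
  · exact euler_aeval x H hH
  · exact (der_aeval (D i) x H).symm

/-- **The Jacobian at a prime where the point meets the divisor.** -/
theorem loc_prime {R : Type} [CommRing R] [IsDomain R] [Algebra k R] {s n : ℕ}
    (G : Fin g → MvPolynomial (Fin m) k) (F : Fin q → Fin w → MvPolynomial (Fin m) k)
    (hGF : SmPair s G F) (hm : s + (n + 1) = m) (dG : Fin g → ℕ)
    (hGh : ∀ i, (G i).IsHomogeneous (dG i)) (dF : Fin q → ℕ)
    (hFh : ∀ i j, (F i j).IsHomogeneous (dF i)) (x : Fin m → R) (hG : ∀ i, aeval x (G i) = 0)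
    (D : Fin n → Derivation k R R) (π : R) (hπ : Prime π) (hx : ¬ ∀ j, π ∣ x j)
    (e : Fin q → ℕ) (he : ∀ i j, π ^ e i ∣ aeval x (F i j)) (J : Fin (n + 1) → Fin m) :
    ∏ i, π ^ e i ∣ π * ((jm D x).submatrix id J).det := by
  classical
  have hprime : (Ideal.span {π}).IsPrime := (Ideal.span_singleton_prime hπ.ne_zero).2 hπ
  let κ := FractionRing (R ⧸ Ideal.span {π})
  let φ : R →ₐ[k] κ := (IsScalarTower.toAlgHom k (R ⧸ Ideal.span {π}) κ).comp
    (Ideal.Quotient.mkₐ k (Ideal.span {π}))
  have hφ0 : ∀ y, φ y = 0 ↔ π ∣ y := by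
    intro y
    rw [← Ideal.mem_span_singleton, ← Ideal.Quotient.eq_zero_iff_mem]
    constructor
    · intro h
      exact (IsFractionRing.injective (R ⧸ Ideal.span {π}) κ) (h.trans (map_zero _).symm)
    · intro h
      show algebraMap (R ⧸ Ideal.span {π}) κ (Ideal.Quotient.mk _ y) = 0
      rw [h, map_zero]
  have hφ : ∀ H : MvPolynomial (Fin m) k, φ (aeval x H) = aeval (fun j => φ (x j)) H := by
    intro H
    rw [← AlgHom.comp_apply, MvPolynomial.comp_aeval]
  obtain ⟨a, b, B, hB, c, E, hdet⟩ := exists_gmat φ G F hGF x (by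
    intro h
    exact hx fun j => (hφ0 _).1 (congrFun h j)) hG
  have hdet' : ¬ π ∣ (gmat G F x
      (fun i : {i : Fin q // ∀ j, aeval (fun j => φ (x j)) (F i j) = 0} => i.1) a b c E).det :=
    fun h => hdet ((hφ0 _).2 h)
  have hcard : Fintype.card ({i : Fin q // ∀ j, aeval (fun j => φ (x j)) (F i j) = 0} ⊕ B) =
      Fintype.card (Fin (n + 1)) := by
    have h1 := Fintype.card_congr E
    rw [Fintype.card_sum, Fintype.card_sum, Fintype.card_fin, Fintype.card_fin] at h1
    rw [Fintype.card_sum, Fintype.card_fin]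
    omega
  obtain ⟨f⟩ := Fintype.card_eq.1 hcard
  have hrow := fun i => mul_gmat G F x
    (fun i : {i : Fin q // ∀ j, aeval (fun j => φ (x j)) (F i j) = 0} => i.1) a b c E (jm D x) i
  have hblock := minors_block (jm D x) (gmat G F x
      (fun i : {i : Fin q // ∀ j, aeval (fun j => φ (x j)) (F i j) = 0} => i.1) a b c E)
      ((Equiv.sumAssoc _ _ _).symm.trans E) f (by
    intro i a'
    have h1 := (hrow i).1 a'
    show (jm D x * gmat G F x
      (fun i : {i : Fin q // ∀ j, aeval (fun j => φ (x j)) (F i j) = 0} => i.1) a b c E) i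
        (E (Sum.inl (Sum.inl a'))) = 0
    rw [h1, jm_row D x _ (hGh _)]
    refine Fin.cases ?_ (fun i => ?_) i
    · show _ * aeval x (G (a a')) = 0
      rw [hG, mul_zero]
    · show D i (aeval x (G (a a'))) = 0
      rw [hG, map_zero]) J
  choose z hz using fun i => he i (b i)
  have hN := prime_det π (Matrix.of fun i j => (jm D x * gmat G F x
      (fun i : {i : Fin q // ∀ j, aeval (fun j => φ (x j)) (F i j) = 0} => i.1) a b c E) i
        (((Equiv.sumAssoc _ _ _).symm.trans E) (Sum.inr (f.symm j))))
    (Fin.cons 0 fun a => D a π)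
    (fun j => Sum.elim (fun i => (e i.1 : R) * (π ^ (e i.1 - 1) * z i.1)) (fun _ => 0) (f.symm j))
    (fun j => Sum.elim (fun i => (e i.1 : R) * z i.1) (fun _ => 0) (f.symm j))
    (Matrix.of fun i j => Sum.elim (fun i' => (Fin.cons (dF i'.1 * z i'.1)
      (fun a => D a (z i'.1)) : Fin (n + 1) → R) i) (fun b => jm D x i (c b)) (f.symm j))
    (fun j => Sum.elim (fun i => e i.1) (fun _ => 0) (f.symm j)) (by
      intro i j
      rw [Matrix.of_apply, Matrix.of_apply]
      rcases f.symm j with i' | b'
      · have h1 := (hrow i).2.1 i'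
        show (jm D x * gmat G F x
          (fun i : {i : Fin q // ∀ j, aeval (fun j => φ (x j)) (F i j) = 0} => i.1) a b c E) i
            (E (Sum.inl (Sum.inr i'))) = _
        rw [h1, jm_row D x _ (hFh _ _)]
        simp only [Sum.elim_inl]
        refine Fin.cases ?_ (fun i => ?_) i
        · simp only [Fin.cons_zero]
          rw [hz i'.1]
          ring
        · simp only [Fin.cons_succ]
          rw [hz i'.1, (D i).leibniz, (D i).leibniz_pow, smul_eq_mul, smul_eq_mul, smul_eq_mul,
            nsmul_eq_mul]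
          ring
      · have h1 := (hrow i).2.2 b'
        show (jm D x * gmat G F x
          (fun i : {i : Fin q // ∀ j, aeval (fun j => φ (x j)) (F i j) = 0} => i.1) a b c E) i
            (E (Sum.inr b')) = _
        rw [h1]
        simp only [Sum.elim_inr]
        ring) (by
      intro j
      rcases f.symm j with i' | b'
      · simp only [Sum.elim_inl]
        rcases Nat.eq_zero_or_pos (e i'.1) with h | h
        · rw [h]
          simp
        · obtain ⟨l, hl⟩ := Nat.exists_eq_succ_of_ne_zero h.ne'
          rw [hl, Nat.succ_eq_add_one, Nat.add_sub_cancel, pow_succ]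
          ring
      · simp)
  have hprod : ∏ j, π ^ (Sum.elim (fun i : {i : Fin q // ∀ j, aeval (fun j => φ (x j)) (F i j) = 0} => e i.1)
      (fun _ => 0) (f.symm j)) = ∏ i, π ^ e i := by
    rw [f.symm.prod_comp (fun y => π ^ (Sum.elim
      (fun i : {i : Fin q // ∀ j, aeval (fun j => φ (x j)) (F i j) = 0} => e i.1) (fun _ => 0) y)),
      Fintype.prod_sum_type]
    simp only [Sum.elim_inl, Sum.elim_inr, pow_zero, Finset.prod_const_one, mul_one]
    rw [← Fintype.prod_subtype_mul_prod_subtype
      (fun i : Fin q => ∀ j, aeval (fun j => φ (x j)) (F i j) = 0) fun i => π ^ e i]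
    have h1 : ∏ i : {i : Fin q // ¬ ∀ j, aeval (fun j => φ (x j)) (F i j) = 0}, π ^ e i.1 = 1 := by
      refine Finset.prod_eq_one fun i _ => ?_
      have h2 : e i.1 = 0 := by
        by_contra hne
        apply i.2
        intro j
        rw [← hφ, hφ0]
        exact (dvd_pow_self π hne).trans (he i.1 j)
      rw [h2, pow_zero]
    rw [h1, mul_one]
  rw [hprod] at hN
  have hN2 : ∏ i, π ^ e i ∣ (gmat G F x
      (fun i : {i : Fin q // ∀ j, aeval (fun j => φ (x j)) (F i j) = 0} => i.1) a b c E).det ^
        Fintype.card (Fin (n + 1)) * (π * ((jm D x).submatrix id J).det) := by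
    have h1 : (gmat G F x
      (fun i : {i : Fin q // ∀ j, aeval (fun j => φ (x j)) (F i j) = 0} => i.1) a b c E).det ^
        Fintype.card (Fin (n + 1)) * (π * ((jm D x).submatrix id J).det) =
        π * ((gmat G F x
      (fun i : {i : Fin q // ∀ j, aeval (fun j => φ (x j)) (F i j) = 0} => i.1) a b c E).det ^
        Fintype.card (Fin (n + 1)) * ((jm D x).submatrix id J).det) := by ring
    rw [h1, hblock, ← mul_assoc]
    exact dvd_mul_of_dvd_left hN _
  rw [Finset.prod_pow_eq_pow_sum] at hN2 ⊢
  refine hπ.pow_dvd_of_dvd_mul_left _ ?_ hN2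
  exact fun h => hdet' (hπ.dvd_of_dvd_pow h)

end

end Pool.Agent.Run7.h720
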