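import Mathlib

/-!
Bases of the module of differentials of a field of characteristic zero given by transcendence bases.
-/

set_option autoImplicit false

namespace Pool.Agent.Run7.h720

open KaehlerDifferential TensorProduct

section
variable {k F ι : Type} [Field k] [Field F] [Algebra k F] [CharZero k]

open scoped IntermediateField.algebraAdjoinAdjoin in
theorem etale_adjoin (b : ι → F) (hb : IsTranscendenceBasis k b) :
    Algebra.FormallyEtale (Algebra.adjoin k (Set.range b)) F := by
  have h1 : Algebra.FormallyEtale (Algebra.adjoin k (Set.range b))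
      (IntermediateField.adjoin k (Set.range b)) :=
    Algebra.FormallyEtale.of_isLocalization (nonZeroDivisors _)
  have h2 := hb.isAlgebraic_field
  have h3 : Algebra.IsSeparable (IntermediateField.adjoin k (Set.range b)) F := by
    have : CharZero F := charZero_of_injective_algebraMap (algebraMap k F).injective
    infer_instance
  have h4 : Algebra.FormallyEtale (IntermediateField.adjoin k (Set.range b)) F :=
    Algebra.FormallyEtale.of_isSeparable _ F
  exact .comp _ (IntermediateField.adjoin k (Set.range b)) _

theorem omega_basis (b : ι → F) (hb : IsTranscendenceBasis k b) :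
    ∃ β : Module.Basis ι F (Ω[F⁄k]), ∀ i, β i = KaehlerDifferential.D k F (b i) := by
  classical
  letI : Algebra (MvPolynomial ι k) F := (MvPolynomial.aeval b).toRingHom.toAlgebra
  have htow : IsScalarTower k (MvPolynomial ι k) F := by
    refine IsScalarTower.of_algebraMap_eq fun x => ?_
    show algebraMap k F x = MvPolynomial.aeval b (MvPolynomial.C x)
    rw [MvPolynomial.aeval_C]
  letI : Algebra (MvPolynomial ι k) (Algebra.adjoin k (Set.range b)) :=
    hb.1.aevalEquiv.toRingEquiv.toRingHom.toAlgebra
  have htow2 : IsScalarTower (MvPolynomial ι k) (Algebra.adjoin k (Set.range b)) F := by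
    refine IsScalarTower.of_algebraMap_eq fun x => ?_
    show MvPolynomial.aeval b x = ((hb.1.aevalEquiv x : Algebra.adjoin k (Set.range b)) : F)
    exact (hb.1.algebraMap_aevalEquiv x).symm
  have h1 : Algebra.FormallyEtale (MvPolynomial ι k) (Algebra.adjoin k (Set.range b)) := by
    refine Algebra.FormallyEtale.of_equiv (A := MvPolynomial ι k)
      (AlgEquiv.ofRingEquiv (f := hb.1.aevalEquiv.toRingEquiv) fun x => rfl)
  have h2 := etale_adjoin b hb
  have h3 : Algebra.FormallyEtale (MvPolynomial ι k) F :=
    .comp _ (Algebra.adjoin k (Set.range b)) _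
  refine ⟨((mvPolynomialBasis k ι).baseChange F).map
    (tensorKaehlerEquivOfFormallyEtale k (MvPolynomial ι k) F), fun i => ?_⟩
  rw [Module.Basis.map_apply, Module.Basis.baseChange_apply]
  rw [tensorKaehlerEquivOfFormallyEtale_apply, mapBaseChange_tmul, one_smul,
    mvPolynomialBasis_apply, map_D]
  congr 1
  show MvPolynomial.aeval b (MvPolynomial.X i) = b i
  rw [MvPolynomial.aeval_X]

/-- differentials of algebraically independent elements -/
theorem omega_indep {κ : Type} (y : κ → F) (hy : AlgebraicIndependent k y) :
    LinearIndependent F fun i => KaehlerDifferential.D k F (y i) := by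
  obtain ⟨t, ht, hb⟩ := exists_isTranscendenceBasis_superset
    ((algebraicIndependent_subtype_range hy.injective).2 hy)
  obtain ⟨β, hβ⟩ := omega_basis _ hb
  have h1 := β.linearIndependent
  have h2 := h1.comp (fun i : κ => (⟨y i, ht ⟨i, rfl⟩⟩ : t)) (fun i j h => by
    have := congrArg (fun z : t => (z : F)) h
    exact hy.injective this)
  have h3 : (β ∘ fun i : κ => (⟨y i, ht ⟨i, rfl⟩⟩ : t)) =
      fun i => KaehlerDifferential.D k F (y i) := by
    funext i
    exact hβ _
  rwa [h3] at h2

/-- a derivation with prescribed values on a transcendence basis -/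
theorem exists_der (b : ι → F) (hb : IsTranscendenceBasis k b) {M : Type} [AddCommGroup M]
    [Module k M] [Module F M] [IsScalarTower k F M] (g : ι → M) :
    ∃ D : Derivation k F M, ∀ i, D (b i) = g i := by
  obtain ⟨β, hβ⟩ := omega_basis b hb
  refine ⟨(β.constr ℤ g).compDer (KaehlerDifferential.D k F), fun i => ?_⟩
  show β.constr ℤ g (KaehlerDifferential.D k F (b i)) = g i
  rw [← hβ, Module.Basis.constr_basis]

/-- derivations which agree on a transcendence basis -/
theorem der_ext (b : ι → F) (hb : IsTranscendenceBasis k b) {M : Type} [AddCommGroup M]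
    [Module k M] [Module F M] [IsScalarTower k F M] (D D' : Derivation k F M)
    (h : ∀ i, D (b i) = D' (b i)) : D = D' := by
  obtain ⟨β, hβ⟩ := omega_basis b hb
  have h1 : D.liftKaehlerDifferential = D'.liftKaehlerDifferential := by
    refine β.ext fun i => ?_
    rw [hβ, Derivation.liftKaehlerDifferential_comp_D, Derivation.liftKaehlerDifferential_comp_D,
      h]
  ext x
  rw [← Derivation.liftKaehlerDifferential_comp_D D, h1,
    Derivation.liftKaehlerDifferential_comp_D]

end

end Pool.Agent.Run7.h720
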