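import Pool.Agent.Run7.h720.VGerm

/-!
Sequences of points and germs of points.
-/

set_option autoImplicit false
set_option linter.unusedSectionVars false

namespace Pool.Agent.Run7.h720

open NumberField IsDedekindDomain Height Filter Topology
open Pool.Agent.W180.OP (Pl av wt fv fv_support_finite wt_nonneg nrm)
open Pool.Agent.K1H83.VN
open MvPolynomial (aeval pderiv monomial)

theorem countable_nf (K : Type) [Field K] [NumberField K] : Countable K :=
  (Module.finBasis ℚ K).equivFun.toEquiv.countable_iff.2 inferInstance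

theorem countable_mv (K : Type) [Field K] [NumberField K] (n : ℕ) :
    Countable (MvPolynomial (Fin n) K) := by
  have := countable_nf K
  have h1 : Function.Injective fun (p : MvPolynomial (Fin n) K) =>
      (Finsupp.onFinset p.support (fun e => MvPolynomial.coeff e p) (fun e h =>
        MvPolynomial.mem_support_iff.2 h) : (Fin n →₀ ℕ) →₀ K) := by
    intro p p' h
    ext e
    exact DFunLike.congr_fun h e
  exact h1.countable

/-- homogeneous polynomials such that each polynomial has a component dividing almost all of them -/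
theorem exists_forms (K : Type) [Field K] [NumberField K] (n : ℕ) :
    ∃ (Φ : ℕ → MvPolynomial (Fin n) K) (e : ℕ → ℕ), (∀ t, Φ t ≠ 0) ∧
      (∀ t, (Φ t).IsHomogeneous (e t)) ∧ ∀ P : MvPolynomial (Fin n) K, P ≠ 0 →
        ∃ d, ∀ᶠ t in (atTop : Filter ℕ), MvPolynomial.homogeneousComponent d P ∣ Φ t := by
  classical
  have := countable_mv K n
  obtain ⟨f, hf⟩ := exists_surjective_nat (MvPolynomial (Fin n) K)
  have hd : ∀ P : MvPolynomial (Fin n) K, ∃ d, P ≠ 0 →
      MvPolynomial.homogeneousComponent d P ≠ 0 := by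
    intro P
    by_cases hP : P = 0
    · exact ⟨0, fun h => absurd hP h⟩
    · by_contra hcon
      push Not at hcon
      apply hP
      rw [← MvPolynomial.sum_homogeneousComponent P]
      exact Finset.sum_eq_zero fun i _ => (hcon i).2
  choose d hd using hd
  refine ⟨fun t => ∏ s ∈ Finset.range t, if f s = 0 then 1 else
    MvPolynomial.homogeneousComponent (d (f s)) (f s),
    fun t => ∑ s ∈ Finset.range t, if f s = 0 then 0 else d (f s), fun t => ?_, fun t => ?_,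
    fun P hP => ⟨d P, ?_⟩⟩
  · rw [Finset.prod_ne_zero_iff]
    intro s _
    split_ifs with h
    · exact one_ne_zero
    · exact hd _ h
  · refine MvPolynomial.IsHomogeneous.prod _ _ _ fun s _ => ?_
    split_ifs
    · exact MvPolynomial.isHomogeneous_one _ _
    · exact MvPolynomial.homogeneousComponent_isHomogeneous _ _
  · obtain ⟨s, hs⟩ := hf P
    filter_upwards [eventually_gt_atTop s] with t ht
    have h1 := Finset.dvd_prod_of_mem (fun s => if f s = 0 then 1 else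
      MvPolynomial.homogeneousComponent (d (f s)) (f s)) (Finset.mem_range.2 ht)
    simp only [hs, if_neg hP] at h1
    exact h1

variable {k : Type} [Field k] [NumberField k] {σ : Sc} {S : Finset (Pl k)} {r : ℕ}

/-- values of forms at a germ and at the terms of the sequence -/
theorem rep_form {m : ℕ} (u : Fin r → G k σ) (X : Fin m → MvPolynomial (Fin r) (FF k σ))
    (Λ : ℕ → k) (x : ℕ → Fin m → k)
    (hΛ : ∀ᶠ t in (σ.𝒰 : Filter ℕ), Λ t ≠ 0 ∧ ∀ i, rep (ev u (X i)) t = Λ t * x t i)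
    (H : MvPolynomial (Fin m) k) {d : ℕ} (hH : H.IsHomogeneous d) :
    ∀ᶠ t in (σ.𝒰 : Filter ℕ), rep (ev u (aeval X H)) t = Λ t ^ d * aeval (x t) H := by
  rw [← ev_aeval]
  filter_upwards [rep_aeval (fun j => ev u (X j)) H, hΛ] with t t1 t2
  rw [t1]
  simp only [t2.2]
  exact aeval_hom_smul H hH (x t) (Λ t)

section
variable {u : Fin r → G k σ} (hu : Indep S u)
include hu

theorem gen_of_seq (h𝒰 : (σ.𝒰 : Filter ℕ) ≤ atTop)
    {m n : ℕ} (X : Fin m → MvPolynomial (Fin r) (FF k σ)) (J0 : Fin n → Fin m)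
    (Λ : ℕ → k) (x : ℕ → Fin m → k)
    (hΛ : ∀ᶠ t in (σ.𝒰 : Filter ℕ), Λ t ≠ 0 ∧ ∀ i, rep (ev u (X i)) t = Λ t * x t i)
    (hx : ∀ P : MvPolynomial (Fin n) k, P ≠ 0 → ∃ d, ∀ᶠ t in (atTop : Filter ℕ),
      aeval (fun a => x t (J0 a)) (MvPolynomial.homogeneousComponent d P) ≠ 0)
    (P : MvPolynomial (Fin n) k) (hP : P ≠ 0) : ∃ d,
      aeval (fun a => X (J0 a)) (MvPolynomial.homogeneousComponent d P) ≠ 0 := by
  obtain ⟨d, hd⟩ := hx P hP
  refine ⟨d, fun h0 => ?_⟩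
  have h1 := rep_form u (fun a => X (J0 a)) Λ (fun t a => x t (J0 a)) (by
    filter_upwards [hΛ] with t t1
    exact ⟨t1.1, fun a => t1.2 (J0 a)⟩) _ (MvPolynomial.homogeneousComponent_isHomogeneous d P)
  rw [h0, map_zero] at h1
  obtain ⟨t, ⟨⟨t1, t2⟩, t3⟩, t4⟩ := (((h1.and (rep_zero (k := k) (σ := σ))).and
    (h𝒰 hd)).and hΛ).exists
  rw [t2] at t1
  exact mul_ne_zero (pow_ne_zero _ t4.1) t3 t1.symm

theorem zero_of_seq (hS : ∀ w : InfinitePlace k, Sum.inl w ∈ S)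
    {m : ℕ} (X : Fin m → MvPolynomial (Fin r) (FF k σ))
    (Λ : ℕ → k) (x : ℕ → Fin m → k)
    (hΛ : ∀ᶠ t in (σ.𝒰 : Filter ℕ), Λ t ≠ 0 ∧ ∀ i, rep (ev u (X i)) t = Λ t * x t i)
    (H : MvPolynomial (Fin m) k) {d : ℕ} (hH : H.IsHomogeneous d)
    (h : ∀ t, aeval (x t) H = 0) : aeval X H = 0 := by
  by_contra hne
  obtain ⟨t, t1, t2⟩ := ((rep_form u X Λ x hΛ H hH).and (rep_ne _ (ev_ne hu hS _ hne))).exists
  rw [h t, mul_zero] at t1
  exact t2 t1

theorem ne_of_seq {m w : ℕ} (X : Fin m → MvPolynomial (Fin r) (FF k σ))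
    (Λ : ℕ → k) (x : ℕ → Fin m → k)
    (hΛ : ∀ᶠ t in (σ.𝒰 : Filter ℕ), Λ t ≠ 0 ∧ ∀ i, rep (ev u (X i)) t = Λ t * x t i)
    (F : Fin w → MvPolynomial (Fin m) k) {d : ℕ} (hF : ∀ j, (F j).IsHomogeneous d)
    (h : ∀ t, ∃ j, aeval (x t) (F j) ≠ 0) : ∃ j, aeval X (F j) ≠ 0 := by
  by_contra hcon
  push Not at hcon
  have h1 : ∀ᶠ t in (σ.𝒰 : Filter ℕ), ∀ j, rep (ev u (aeval X (F j))) t =
      Λ t ^ d * aeval (x t) (F j) := by
    rw [Filter.eventually_all]
    exact fun j => rep_form u X Λ x hΛ (F j) (hF j)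
  obtain ⟨t, ⟨t1, t2⟩, t3⟩ := ((h1.and (rep_zero (k := k) (σ := σ))).and hΛ).exists
  obtain ⟨j, hj⟩ := h t
  have h2 := t1 j
  rw [hcon j, map_zero, t2] at h2
  exact mul_ne_zero (pow_ne_zero _ t3.1) hj h2.symm

end

/-- the condition at a prime outside `T` -/
theorem local_cond {K : Type} [Field K] (f : AbsoluteValue K ℝ) {m q w : ℕ} (x : Fin m → K)
    (hx : x ≠ 0) (ρ τ Λ : K) (hρ0 : ρ ≠ 0) (hτ0 : τ ≠ 0) (hΛ0 : Λ ≠ 0) (hρ : f ρ ≤ 1)
    (y : Fin q → Fin w → K) (hy : ∀ i, ∃ j, y i j ≠ 0) (d : Fin q → ℕ) (M : ℕ)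
    (hd : ∑ i, Real.log (nm f x ^ d i / nm f (y i)) ≤ -(M * Real.log (f ρ) + Real.log (f τ))) :
    f ρ ^ (M + 1) * f τ * nm f (fun j => Λ * x j) ^ (∑ i, d i) ≤
      ∏ i, nm f (fun j => Λ ^ d i * y i j) := by
  have hx1 : 0 < nm f x := nm_pos f hx
  have hy1 : ∀ i, 0 < nm f (y i) := by
    intro i
    obtain ⟨j, hj⟩ := hy i
    exact nm_pos f (ne_of_coord hj)
  have hρ1 : 0 < f ρ := f.pos hρ0
  have hτ1 : 0 < f τ := f.pos hτ0
  have hΛ1 : 0 < f Λ := f.pos hΛ0
  have h1 : ∏ i, nm f (fun j => Λ ^ d i * y i j) = f Λ ^ (∑ i, d i) * ∏ i, nm f (y i) := by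
    rw [← Finset.prod_pow_eq_pow_sum, ← Finset.prod_mul_distrib]
    exact Finset.prod_congr rfl fun i _ => by rw [nm_smul, map_pow]
  rw [h1, nm_smul, mul_pow]
  have h2 : ∑ i, (d i * Real.log (nm f x) - Real.log (nm f (y i))) ≤
      -(M * Real.log (f ρ) + Real.log (f τ)) := by
    refine le_trans (le_of_eq ?_) hd
    refine Finset.sum_congr rfl fun i _ => ?_
    rw [Real.log_div (pow_pos hx1 _).ne' (hy1 i).ne', Real.log_pow]
  rw [Finset.sum_sub_distrib, ← Finset.sum_mul,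
    ← Real.log_prod (s := Finset.univ) (fun i _ => (hy1 i).ne')] at h2
  have h3 : f ρ ^ (M + 1) * f τ * nm f x ^ (∑ i, d i) ≤ ∏ i, nm f (y i) := by
    have hpos : 0 < ∏ i, nm f (y i) := Finset.prod_pos fun i _ => hy1 i
    have h6 : f ρ ^ (M + 1) * f τ * nm f x ^ (∑ i, d i) ≤
        f ρ ^ M * f τ * nm f x ^ (∑ i, d i) := by
      rw [pow_succ, mul_right_comm (f ρ ^ M)]
      refine mul_le_mul_of_nonneg_right ?_ (pow_pos hx1 _).le
      exact mul_le_of_le_one_right (by positivity) hρ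
    refine h6.trans ?_
    rw [← Real.log_le_log_iff (by positivity) hpos, Real.log_mul (by positivity)
      (by positivity), Real.log_mul (by positivity) (by positivity), Real.log_pow,
      Real.log_pow]
    push_cast
    linarith
  calc f ρ ^ (M + 1) * f τ * (f Λ ^ (∑ i, d i) * nm f x ^ (∑ i, d i)) =
      f Λ ^ (∑ i, d i) * (f ρ ^ (M + 1) * f τ * nm f x ^ (∑ i, d i)) := by ring
    _ ≤ _ := mul_le_mul_of_nonneg_left h3 (pow_pos hΛ1 _).le

end Pool.Agent.Run7.h720
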