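import Pool.Agent.Run7.h720.Bin

/-!
Tuples of polynomials without common factor: the values at independent germs of units have no large
common divisor; the radical of a value.
-/

set_option autoImplicit false
set_option linter.unusedSectionVars false

namespace Pool.Agent.Run7.h720

open NumberField IsDedekindDomain Height Filter Topology
open Pool.Agent.W180.OP (Pl av wt fv fv_support_finite wt_nonneg nrm)
open Pool.Agent.K1H83.VN
open MvPolynomial (monomial)

section alg

theorem tuple_gcd {R ι : Type} [CommRing R] [IsDomain R] [UniqueFactorizationMonoid R]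
    [Fintype ι] (a : ι → R) (ha : ∃ i, a i ≠ 0) :
    ∃ (p : R) (f : ι → R), p ≠ 0 ∧ (∀ i, a i = p * f i) ∧ (∀ d, (∀ i, d ∣ a i) → d ∣ p) ∧
      ∀ π, Irreducible π → ¬ ∀ i, π ∣ f i := by
  classical
  letI : StrongNormalizationMonoid R := UniqueFactorizationMonoid.strongNormalizationMonoid
  letI : NormalizedGCDMonoid R := UniqueFactorizationMonoid.toNormalizedGCDMonoid R
  obtain ⟨i0, hi0⟩ := ha
  obtain ⟨f, hf, hf1⟩ := Finset.extract_gcd (s := Finset.univ) a ⟨i0, Finset.mem_univ _⟩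
  refine ⟨Finset.univ.gcd a, f, fun h => hi0 ?_, fun i => hf i (Finset.mem_univ i),
    fun d hd => Finset.dvd_gcd fun i _ => hd i, fun π hπ h => ?_⟩
  · rw [hf i0 (Finset.mem_univ _), h, zero_mul]
  · have h1 : π ∣ Finset.univ.gcd f := Finset.dvd_gcd fun i _ => h i
    rw [hf1] at h1
    exact hπ.not_isUnit (isUnit_of_dvd_one h1)

/-- a linear combination of a tuple without common factor which is prime to a given element -/
theorem coprime_comb {k R ι : Type} [Field k] [Infinite k] [CommRing R] [IsDomain R]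
    [UniqueFactorizationMonoid R] [Algebra k R] [Fintype ι] (x : ι → R) (y0 : R) (hy0 : y0 ≠ 0)
    (hx0 : ∃ i, x i ≠ 0) (hx : ∀ π, Irreducible π → ¬ ∀ i, π ∣ x i) :
    ∃ c : ι → k, ∑ i, c i • x i ≠ 0 ∧ IsRelPrime y0 (∑ i, c i • x i) := by
  classical
  let T : Finset R := insert 0 (UniqueFactorizationMonoid.factors y0).toFinset
  let V : T → Submodule k (ι → k) := fun d =>
    ((Ideal.span {d.1}).restrictScalars k).comap (Fintype.linearCombination k x)
  have hV : ∀ d, V d ≠ ⊤ := by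
    intro d hd
    have h1 : ∀ i, d.1 ∣ x i := by
      intro i
      have h2 : (Pi.single i 1 : ι → k) ∈ V d := by
        rw [hd]
        exact Submodule.mem_top
      have h3 : Fintype.linearCombination k x (Pi.single i 1) ∈ Ideal.span {d.1} := h2
      rw [Fintype.linearCombination_apply_single, one_smul, Ideal.mem_span_singleton] at h3
      exact h3
    rcases Finset.mem_insert.1 d.2 with h2 | h2
    · obtain ⟨i, hi⟩ := hx0
      apply hi
      have := h1 i
      rw [h2] at this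
      exact zero_dvd_iff.1 this
    · rw [Multiset.mem_toFinset] at h2
      exact hx d.1 (UniqueFactorizationMonoid.irreducible_of_factor _ h2) h1
  have h1 : ⋃ d, (V d : Set (ι → k)) ≠ Set.univ := by
    intro h
    obtain ⟨d, hd⟩ := Subspace.exists_eq_top_of_iUnion_eq_univ h
    exact hV d hd
  obtain ⟨c, hc⟩ := (Set.ne_univ_iff_exists_notMem _).1 h1
  rw [Set.mem_iUnion] at hc
  push Not at hc
  have hcd : ∀ d ∈ T, ¬ d ∣ ∑ i, c i • x i := by
    intro d hd h
    apply hc ⟨d, hd⟩
    show Fintype.linearCombination k x c ∈ Ideal.span {d}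
    rw [Fintype.linearCombination_apply, Ideal.mem_span_singleton]
    exact h
  refine ⟨c, fun h => hcd 0 (Finset.mem_insert_self _ _) (by rw [h]), fun d hd1 hd2 => ?_⟩
  by_contra hd
  have hd0 : d ≠ 0 := by
    rintro rfl
    exact hy0 (zero_dvd_iff.1 hd1)
  obtain ⟨π, hπ, hπd⟩ := WfDvdMonoid.exists_irreducible_factor hd hd0
  obtain ⟨π', hπ', hass⟩ := UniqueFactorizationMonoid.exists_mem_factors_of_dvd hy0 hπ
    (hπd.trans hd1)
  apply hcd π' (Finset.mem_insert_of_mem (Multiset.mem_toFinset.2 hπ'))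
  exact hass.symm.dvd.trans (hπd.trans hd2)

end alg

variable {k : Type} [Field k] [NumberField k] {σ : Sc} {S : Finset (Pl k)} {r : ℕ}

/-- the maximum of the absolute values of finitely many germs -/
theorem Sm_nm (v : Pl k) {ι : Type} [Finite ι] (z : ι → G k σ) (i0 : ι) (hz : z i0 ≠ 0)
    (X : ℕ → ℝ) (h : ∀ i, z i ≠ 0 → Sm σ fun t => lv v (z i) t - X t) :
    Sm σ fun t => Real.log (nm (av v) fun i => rep (z i) t) - X t := by
  classical
  have : Nonempty ι := ⟨i0⟩
  intro ε hε
  have h1 : ∀ᶠ t in (σ.𝒰 : Filter ℕ), ∀ i, rep (z i) t = 0 ∨ lv v (z i) t - X t ≤ ε * σ.L t := by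
    rw [Filter.eventually_all]
    intro i
    by_cases hi : z i = 0
    · rw [hi]
      filter_upwards [rep_zero (k := k) (σ := σ)] with t ht
      exact Or.inl ht
    · filter_upwards [h i hi ε hε] with t ht
      exact Or.inr ht
  filter_upwards [h1, rep_ne _ hz] with t t1 t2
  obtain ⟨i, hi⟩ := exists_nm (av v) fun i => rep (z i) t
  rw [← hi]
  rcases t1 i with h3 | h3
  · exfalso
    have h4 := nm_pos (av v) (x := fun i => rep (z i) t) (ne_of_coord (i := i0) t2)
    rw [← hi, h3, map_zero] at h4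
    exact lt_irrefl _ h4
  · exact h3

section
variable {u : Fin r → G k σ} (hu : Indep S u)
include hu

/-- **Tuples without common factor have no large common divisor.** -/
theorem tuple_small (hS : ∀ w : InfinitePlace k, Sum.inl w ∈ S) {ι : Type} [Fintype ι]
    (x : ι → MvPolynomial (Fin r) (FF k σ)) (i0 : ι) (hx0 : x i0 ≠ 0)
    (hx : ∀ π, Irreducible π → ¬ ∀ i, π ∣ x i) :
    Sm σ fun t => -ho S fun i => rep (ev u (x i)) t := by
  classical
  obtain ⟨c, hc0, hc⟩ := coprime_comb (k := k) x (x i0) hx0 ⟨i0, hx0⟩ hx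
  obtain ⟨y, hy⟩ : ∃ y, y = ∑ i, c i • x i := ⟨_, rfl⟩
  rw [← hy] at hc0 hc
  have h1 := gcd_small hu hS (x i0) y hx0 hc0 hc
  have h2 : Sm σ fun _ => ho S (c1 c) := Sm.const _
  refine (h1.add h2).mono ?_
  have h3 : ∀ᶠ t in (σ.𝒰 : Filter ℕ), rep (ev u y) t = ∑ i, c i * rep (ev u (x i)) t := by
    refine rep_eq _ (fun t => ∑ i, c i * rep (ev u (x i)) t) ?_
    have e1 : (fun t => ∑ i, c i * rep (ev u (x i)) t) =
        ∑ i, (fun _ => c i) * rep (ev u (x i)) := by
      funext t
      rw [Finset.sum_apply]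
      rfl
    rw [e1, map_sum, hy, map_sum]
    refine Finset.sum_congr rfl fun i _ => ?_
    rw [map_mul, gm_rep, ← alg_eq, Algebra.smul_def, ev_alg]
  filter_upwards [h3, rep_ne _ (ev_ne hu hS _ hx0)] with t t1 t2
  have key := ho_mul_le S ![rep (ev u (x i0)) t, rep (ev u y) t] (ne_of_coord (i := (0 : Fin 2)) t2)
    (fun i => rep (ev u (x i)) t) (ne_of_coord (i := i0) t2) (c1 c) (ne_of_one _ none rfl) (by
      intro v _
      have hc1 : 1 ≤ nm (fv v) (c1 c) := one_le_nm _ _ none rfl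
      refine nm_le _ (mul_nonneg (nm_nonneg _ _) (nm_nonneg _ _)) fun i => ?_
      fin_cases i
      · show fv v (rep (ev u (x i0)) t) ≤ _
        exact (le_nm (fv v) (fun i => rep (ev u (x i)) t) i0).trans
          (le_mul_of_one_le_right (nm_nonneg _ _) hc1)
      · show fv v (rep (ev u y) t) ≤ _
        rw [t1]
        refine na_sum (fv v) (fv_na v) _ _ _ (mul_nonneg (nm_nonneg _ _) (nm_nonneg _ _))
          fun i _ => ?_
        rw [map_mul, mul_comm]
        exact mul_le_mul (le_nm (fv v) (fun i => rep (ev u (x i)) t) i)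
          (le_nm (fv v) (c1 c) (some i)) ((fv v).nonneg _) (nm_nonneg _ _))
  linarith

/-- values of polynomials are almost integral outside `S` -/
theorem tuple_int (hS : ∀ w : InfinitePlace k, Sum.inl w ∈ S) {ι : Type} [Fintype ι]
    (x : ι → MvPolynomial (Fin r) (FF k σ)) (i0 : ι) (hx0 : x i0 ≠ 0) :
    Sm σ fun t => ho S fun i => rep (ev u (x i)) t := by
  refine (cf_small (S := S) hS x).mono ?_
  filter_upwards [cf_bound hu x, rep_ne _ (ev_ne hu hS _ hx0)] with t t1 t2
  refine ho_le S _ (ne_of_coord (i := i0) t2) _ (ne_of_one _ none rfl) fun v hv => ?_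
  exact nm_le _ (nm_nonneg _ _) fun i => t1 v hv i

/-- the contribution of the places in `S` to the height of a tuple with a common factor -/
theorem tuple_split (hS : ∀ w : InfinitePlace k, Sum.inl w ∈ S) {ι : Type} [Fintype ι]
    (a f : ι → MvPolynomial (Fin r) (FF k σ)) (p : MvPolynomial (Fin r) (FF k σ)) (hp : p ≠ 0)
    (hf : ∀ i, a i = p * f i) (i0 : ι) (hf0 : f i0 ≠ 0) :
    ∀ᶠ t in (σ.𝒰 : Filter ℕ),
      ∑ v ∈ S, wt v * Real.log (nm (av v) fun i => rep (ev u (a i)) t) =
        hs S (ev u p) t + logHeight (fun i => rep (ev u (a i)) t) -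
          ho S fun i => rep (ev u (f i)) t := by
  have h1 : ∀ᶠ t in (σ.𝒰 : Filter ℕ), ∀ i,
      rep (ev u (a i)) t = rep (ev u p) t * rep (ev u (f i)) t := by
    rw [Filter.eventually_all]
    intro i
    rw [hf i, map_mul]
    exact rep_mul _ _
  filter_upwards [h1, rep_ne _ (ev_ne hu hS p hp), rep_ne _ (ev_ne hu hS _ hf0)] with t t1 t2 t3
  have h2 : (fun i => rep (ev u (a i)) t) = fun i => rep (ev u p) t * rep (ev u (f i)) t :=
    funext t1
  have h3 : logHeight (fun i => rep (ev u (a i)) t) = logHeight fun i => rep (ev u (f i)) t := by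
    rw [h2]
    exact logHeight_smul_eq_logHeight _ t2
  have h4 := logHeight_split S hS (fun i => rep (ev u (f i)) t) (ne_of_coord (i := i0) t3)
  rw [h3, h4]
  unfold hs
  rw [add_sub_assoc, add_sub_cancel_right, ← Finset.sum_add_distrib]
  refine Finset.sum_congr rfl fun v _ => ?_
  rw [h2, nm_smul, Real.log_mul ((av v).ne_zero_iff.2 t2)
    (nm_pos (av v) (ne_of_coord (i := i0) t3)).ne', mul_add]
  rfl

/-- **The radical of a value**, with a bounded factor. -/
theorem star2 (hS : ∀ w : InfinitePlace k, Sum.inl w ∈ S)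
    (P W R : MvPolynomial (Fin r) (FF k σ)) (hP : P ≠ 0) (hW : W ≠ 0) (hR : R ≠ 0)
    (hdiv : ∀ π, Irreducible π → ¬ π ∣ vars' (FF k σ) r → ∀ n : ℕ, π ^ (n + 1) ∣ P → π ^ n ∣ W)
    (τ : G k σ) (hτ : τ ≠ 0) {μ ν : Type} [Fintype μ] [Fintype ν]
    (Z : μ → MvPolynomial (Fin r) (FF k σ)) (i0 : μ) (hZ0 : Z i0 ≠ 0)
    (hZ : Sm σ fun t => -ho S (fun i => rep (ev u (Z i)) t))
    (Y : ν → MvPolynomial (Fin r) (FF k σ)) (m s q : ℕ) (hm : m ≠ 0)
    (h1 : ∀ᶠ t in (σ.𝒰 : Filter ℕ), ∀ v : HeightOneSpectrum (𝓞 k), Sum.inr v ∉ S →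
      fv v (rep τ t) ≤ 1 ∧ fv v (rep (ev u R) t) ^ m * fv v (rep τ t) *
        nm (fv v) (fun i => rep (ev u (Z i)) t) ^ s ≤ fv v (rep (ev u P) t) *
          nm (fv v) (c1 fun i => rep (ev u (Y i)) t) ^ q) :
    ∃ A C : MvPolynomial (Fin r) (FF k σ), A ∣ R ∧ C ∣ P ∧ A ≠ 0 ∧ C ≠ 0 ∧
      (Sm σ fun t => hs S (ev u P) t - hs S (ev u W) t - hs S (ev u A) t - hs S (ev u C) t) ∧
      (Sm σ fun t => hs S (ev u C) t - hs S τ t) := by
  classical
  obtain ⟨A, C, M, hAR, hAP, hAv, hCP, hCR, hA0, hdvd⟩ := rad_split P W R (vars' (FF k σ) r) hP hdiv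
  have hC0 : C ≠ 0 := by
    rintro rfl
    exact hP (zero_dvd_iff.1 hCP)
  have hv0 : vars' (FF k σ) r ^ M ≠ 0 := by
    refine pow_ne_zero _ ?_
    unfold vars'
    rw [Finset.prod_ne_zero_iff]
    exact fun i _ => MvPolynomial.X_ne_zero i
  refine ⟨A, C, hAR, hCP, hA0, hC0, ?_, ?_⟩
  · have h2 := hs_dvd hu hS _ _ hdvd (mul_ne_zero hv0 (mul_ne_zero hW (mul_ne_zero hA0 hC0)))
    refine h2.mono ?_
    filter_upwards [hs_mul (S := S) (ev u (vars' (FF k σ) r ^ M)) (ev u (W * (A * C)))
      (ev_ne hu hS _ hv0) (ev_ne hu hS _ (mul_ne_zero hW (mul_ne_zero hA0 hC0))),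
      hs_mul (S := S) (ev u W) (ev u (A * C)) (ev_ne hu hS _ hW)
        (ev_ne hu hS _ (mul_ne_zero hA0 hC0)),
      hs_mul (S := S) (ev u A) (ev u C) (ev_ne hu hS _ hA0) (ev_ne hu hS _ hC0),
      hs_SU hS (ev u (vars' (FF k σ) r) ^ M) ((ev_vars hu).pow M)] with t t1 t2 t3 t4
    rw [← map_mul] at t1 t2 t3
    rw [map_pow, t4, zero_add] at t1
    rw [t1, t2, t3]
    linarith
  · obtain ⟨C', hC'⟩ := hCP
    have hevP : ev u C * ev u C' = ev u P := by rw [hC', map_mul]
    obtain ⟨A4, hA4⟩ : ∃ A4 : (Fin 2 ⊕ μ) ⊕ ν → MvPolynomial (Fin r) (FF k σ),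
      A4 = Sum.elim (Sum.elim ![C, C'] Z) Y := ⟨_, rfl⟩
    have k1 := gcd_small hu hS C R hC0 hR hCR
    have k2 := cf_small (S := S) hS A4
    refine (((k1.smul (Nat.cast_nonneg m)).add (hZ.smul (Nat.cast_nonneg s))).add
      (k2.smul (Nat.cast_nonneg (m + s + q)))).mono ?_
    filter_upwards [h1, cf_bound hu A4, fv_mul hu _ _ _ hevP, rep_ne _ (ev_ne hu hS C hC0),
      rep_ne _ hτ, rep_ne _ (ev_ne hu hS _ hZ0), hs_ho hS _ (ev_ne hu hS C hC0),
      hs_ho hS τ hτ] with t t1 t2 t3 t4 t5 t6 t7 t8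
    have key := ho_pow3 S m s (m + s + q) ![rep (ev u C) t, rep (ev u R) t]
      (ne_of_coord (i := (0 : Fin 2)) t4) (fun _ : Unit => rep τ t) (ne_of_coord (i := ()) t5)
      (fun i => rep (ev u (Z i)) t) (ne_of_coord (i := i0) t6) (fun _ : Unit => rep (ev u C) t)
      (ne_of_coord (i := ()) t4) (c1 fun x => rep (cf A4 x) t) (ne_of_one _ none rfl) (by
        intro v hv
        rw [nm_unit, nm_unit]
        obtain ⟨t1a, t1b⟩ := t1 v hv
        have t2a : fv v (rep (ev u C) t) ≤ nm (fv v) (c1 fun x => rep (cf A4 x) t) := by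
          have := t2 v hv (Sum.inl (Sum.inl 0))
          rwa [hA4] at this ⊢
        have t2b : fv v (rep (ev u C') t) ≤ nm (fv v) (c1 fun x => rep (cf A4 x) t) := by
          have := t2 v hv (Sum.inl (Sum.inl 1))
          rwa [hA4] at this ⊢
        have t2c : nm (fv v) (fun i => rep (ev u (Z i)) t) ≤
            nm (fv v) (c1 fun x => rep (cf A4 x) t) := by
          refine nm_le _ (nm_nonneg _ _) fun i => ?_
          have := t2 v hv (Sum.inl (Sum.inr i))
          rwa [hA4] at this ⊢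
        have hB1 : 1 ≤ nm (fv v) (c1 fun x => rep (cf A4 x) t) := one_le_nm _ _ none rfl
        have t2d : nm (fv v) (c1 fun i => rep (ev u (Y i)) t) ≤
            nm (fv v) (c1 fun x => rep (cf A4 x) t) := by
          refine nm_le _ (nm_nonneg _ _) fun o => ?_
          rcases o with _ | i
          · show fv v 1 ≤ _
            rw [map_one]
            exact hB1
          · have := t2 v hv (Sum.inr i)
            rwa [hA4] at this ⊢
        have t3 := t3 v
        set Bv := nm (fv v) (c1 fun x => rep (cf A4 x) t) with hBv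
        set x := fv v (rep (ev u C) t) with hx
        set z := nm (fv v) (fun i => rep (ev u (Z i)) t) with hz
        have hx0 : 0 ≤ x := (fv v).nonneg _
        have hz0 : 0 ≤ z := nm_nonneg _ _
        have hB0 : 0 ≤ Bv := zero_le_one.trans hB1
        have hτ0 : 0 ≤ fv v (rep τ t) := (fv v).nonneg _
        have hY0 : 0 ≤ nm (fv v) (c1 fun i => rep (ev u (Y i)) t) := nm_nonneg _ _
        obtain ⟨i, hi⟩ := exists_nm (fv v) ![rep (ev u C) t, rep (ev u R) t]
        rw [← hi]
        have hcase : ∀ y : ℝ, y = x ∨ y = fv v (rep (ev u R) t) →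
            y ^ m * fv v (rep τ t) * z ^ s ≤ x * Bv ^ (m + s + q) := by
          rintro y (rfl | rfl)
          · obtain ⟨l, rfl⟩ := Nat.exists_eq_succ_of_ne_zero hm
            calc x ^ l.succ * fv v (rep τ t) * z ^ s ≤ x ^ l.succ * 1 * Bv ^ s := by
                  gcongr
              _ = x * (x ^ l * Bv ^ s) := by rw [Nat.succ_eq_add_one, pow_succ]; ring
              _ ≤ x * (Bv ^ l * Bv ^ s) := by gcongr
              _ = x * Bv ^ (l + s) := by rw [pow_add]
              _ ≤ x * Bv ^ (l.succ + s + q) :=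
                  mul_le_mul_of_nonneg_left (pow_le_pow_right₀ hB1 (by omega)) hx0
          · refine t1b.trans ?_
            rw [t3]
            calc x * fv v (rep (ev u C') t) * nm (fv v) (c1 fun i => rep (ev u (Y i)) t) ^ q ≤
                x * Bv * Bv ^ q := by gcongr
              _ = x * Bv ^ (q + 1) := by rw [pow_succ]; ring
              _ ≤ x * Bv ^ (m + s + q) :=
                  mul_le_mul_of_nonneg_left (pow_le_pow_right₀ hB1 (by omega)) hx0
        fin_cases i
        · exact hcase _ (Or.inl rfl)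
        · exact hcase _ (Or.inr rfl))
    rw [t7, t8]
    push_cast at key ⊢
    linarith

end

end Pool.Agent.Run7.h720
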