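import Pool.Agent.Run7.h720.VSeq

/-!
Families of polynomials and their members over germs.
-/

set_option autoImplicit false
set_option linter.unusedSectionVars false

namespace Pool.Agent.Run7.h720

open NumberField IsDedekindDomain Height Filter Topology
open Pool.Agent.W180.OP (Pl av wt fv fv_support_finite wt_nonneg nrm)
open Pool.Agent.K1H83.VN
open MvPolynomial (aeval pderiv monomial)

section fib
variable {K : Type} [Field K] {p m : ℕ}

/-- the member of a family of polynomials with the parameters `c` -/
noncomputable def fib {L : Type} [CommRing L] [Algebra K L] (c : Fin p → L)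
    (H : MvPolynomial (Fin m) (MvPolynomial (Fin p) K)) : MvPolynomial (Fin m) L :=
  MvPolynomial.map (aeval c : MvPolynomial (Fin p) K →ₐ[K] L).toRingHom H

variable {L : Type} [CommRing L] [Algebra K L] (c : Fin p → L)

theorem fib_hom {H : MvPolynomial (Fin m) (MvPolynomial (Fin p) K)} {d : ℕ}
    (hH : H.IsHomogeneous d) : (fib c H).IsHomogeneous d := hH.map _

theorem fib_pderiv (H : MvPolynomial (Fin m) (MvPolynomial (Fin p) K)) (y : Fin m) :
    fib c (pderiv y H) = pderiv y (fib c H) := MvPolynomial.pderiv_map.symm

theorem aeval_fib {A : Type} [CommRing A] [Algebra K A] [Algebra L A] [IsScalarTower K L A]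
    (H : MvPolynomial (Fin m) (MvPolynomial (Fin p) K)) (z : Fin m → A) :
    aeval z (fib c H) = aeval z (fib (fun j => algebraMap L A (c j)) H) := by
  unfold fib
  rw [MvPolynomial.aeval_def, MvPolynomial.aeval_def, MvPolynomial.eval₂_map,
    MvPolynomial.eval₂_map]
  congr 1
  refine MvPolynomial.ringHom_ext (fun a => ?_) fun i => ?_
  · show algebraMap L A (aeval c (MvPolynomial.C a)) =
      aeval (fun j => algebraMap L A (c j)) (MvPolynomial.C a)
    rw [MvPolynomial.aeval_C, MvPolynomial.aeval_C, ← IsScalarTower.algebraMap_apply]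
  · show algebraMap L A (aeval c (MvPolynomial.X i)) =
      aeval (fun j => algebraMap L A (c j)) (MvPolynomial.X i)
    rw [MvPolynomial.aeval_X, MvPolynomial.aeval_X]

theorem coeff_fib (H : MvPolynomial (Fin m) (MvPolynomial (Fin p) K)) (e : Fin m →₀ ℕ) :
    MvPolynomial.coeff e (fib c H) = aeval c (MvPolynomial.coeff e H) := by
  unfold fib
  rw [MvPolynomial.coeff_map]
  rfl

end fib

variable {k : Type} [Field k] [NumberField k] {σ : Sc} {S : Finset (Pl k)} {r : ℕ}

/-- the value of a polynomial at germs of sequences -/
theorem rep_gmc {p : ℕ} (c : ℕ → Fin p → k) (a : MvPolynomial (Fin p) k) :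
    aeval (fun j => gm σ fun t => c t j) a = gm σ fun t => aeval (c t) a := by
  have h1 : ∀ᶠ t in (σ.𝒰 : Filter ℕ), ∀ j, rep (gm σ fun t => c t j) t = c t j := by
    rw [Filter.eventually_all]
    exact fun j => rep_gm _
  rw [← gm_rep (aeval (fun j => gm σ fun t => c t j) a), gm_eq]
  filter_upwards [rep_aeval (fun j => gm σ fun t => c t j) a, h1] with t t1 t2
  rw [t1]
  congr 1
  exact congrArg _ (funext t2)

/-- the value of a family at germs -/
theorem rep_fib {p m : ℕ} (c : ℕ → Fin p → k) (H : MvPolynomial (Fin m) (MvPolynomial (Fin p) k))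
    (z : Fin m → G k σ) : ∀ᶠ t in (σ.𝒰 : Filter ℕ),
      rep (aeval z (fib (fun j => gm σ fun t => c t j) H)) t =
        aeval (fun j => rep (z j) t) (fib (c t) H) := by
  refine rep_eq _ (fun t => aeval (fun j => rep (z j) t) (fib (c t) H)) ?_
  induction H using MvPolynomial.induction_on with
  | C a =>
    have h1 : (fun t : ℕ => aeval (fun j => rep (z j) t)
        (fib (c t) (MvPolynomial.C a : MvPolynomial (Fin m) (MvPolynomial (Fin p) k)))) =
        fun t => aeval (c t) a := by
      funext t
      unfold fib
      rw [MvPolynomial.map_C, MvPolynomial.aeval_C]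
      rfl
    rw [h1, ← rep_gmc]
    unfold fib
    rw [MvPolynomial.map_C, MvPolynomial.aeval_C]
    rfl
  | add p q hp hq =>
    have h1 : (fun t : ℕ => aeval (fun j => rep (z j) t) (fib (c t) (p + q))) =
        (fun t => aeval (fun j => rep (z j) t) (fib (c t) p)) +
          fun t => aeval (fun j => rep (z j) t) (fib (c t) q) := by
      funext t
      unfold fib
      rw [map_add, map_add]
      rfl
    have h2 : fib (fun j => gm σ fun t => c t j) (p + q) =
        fib (fun j => gm σ fun t => c t j) p + fib (fun j => gm σ fun t => c t j) q := by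
      unfold fib
      rw [map_add]
    rw [h1, h2, map_add, map_add, hp, hq]
  | mul_X p i hp =>
    have h1 : (fun t : ℕ => aeval (fun j => rep (z j) t) (fib (c t) (p * MvPolynomial.X i))) =
        (fun t => aeval (fun j => rep (z j) t) (fib (c t) p)) * rep (z i) := by
      funext t
      unfold fib
      rw [map_mul, map_mul, MvPolynomial.map_X, MvPolynomial.aeval_X]
      rfl
    have h2 : fib (fun j => gm σ fun t => c t j) (p * MvPolynomial.X i) =
        fib (fun j => gm σ fun t => c t j) p * MvPolynomial.X i := by
      unfold fib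
      rw [map_mul, MvPolynomial.map_X]
    rw [h1, h2, map_mul, map_mul, hp, gm_rep, MvPolynomial.aeval_X]

end Pool.Agent.Run7.h720
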