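import Pool.Agent.Run7.h720.WCore
import Pool.Agent.Run7.h720.WFam

/-!
Points and tangent spaces of the members of a family: passage from sequences to germs.
-/

set_option autoImplicit false
set_option linter.unusedSectionVars false

namespace Pool.Agent.Run7.h720

open NumberField IsDedekindDomain Height Filter Topology
open Pool.Agent.W180.OP (Pl av wt fv fv_support_finite wt_nonneg nrm)
open Pool.Agent.K1H83.VN
open MvPolynomial (aeval pderiv monomial)

variable {k : Type} [Field k] [NumberField k] {σ : Sc} {S : Finset (Pl k)} {r : ℕ}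

section germ
variable {E : Type} [Field E] [CharZero E] [Algebra k E] [Algebra E (FF k σ)] [Algebra E (G k σ)]
  [IsScalarTower E (FF k σ) (G k σ)] [IsScalarTower k E (G k σ)]
variable {p : ℕ} (ch : Fin p → E) (c : ℕ → Fin p → k)
  (hch : ∀ j, algebraMap E (G k σ) (ch j) = gm σ fun t => c t j)

include hch

/-- values of the germ of a family at germs -/
theorem rep_fibE {m : ℕ} (H : MvPolynomial (Fin m) (MvPolynomial (Fin p) k)) (z : Fin m → G k σ) :
    ∀ᶠ t in (σ.𝒰 : Filter ℕ), rep (aeval z (fib ch H)) t =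
      aeval (fun j => rep (z j) t) (fib (c t) H) := by
  rw [aeval_fib]
  simp only [hch]
  exact rep_fib c H z

/-- values of forms at a germ and at the terms of the sequence -/
theorem rep_form' {m : ℕ} (u : Fin r → G k σ) (X : Fin m → MvPolynomial (Fin r) (FF k σ))
    (Λ : ℕ → k) (x : ℕ → Fin m → k)
    (hΛ : ∀ᶠ t in (σ.𝒰 : Filter ℕ), Λ t ≠ 0 ∧ ∀ i, rep (ev u (X i)) t = Λ t * x t i)
    (H : MvPolynomial (Fin m) (MvPolynomial (Fin p) k)) {d : ℕ} (hH : H.IsHomogeneous d) :
    ∀ᶠ t in (σ.𝒰 : Filter ℕ), rep (ev u (aeval X (fib ch H))) t =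
      Λ t ^ d * aeval (x t) (fib (c t) H) := by
  rw [← ev_aeval']
  filter_upwards [rep_fibE ch c hch H fun j => ev u (X j), hΛ] with t t1 t2
  rw [t1]
  simp only [t2.2]
  exact aeval_hom_smul _ (fib_hom (c t) hH) (x t) (Λ t)

section
variable {u : Fin r → G k σ} (hu : Indep S u)
include hu

theorem zero_of_seq' (hS : ∀ w : InfinitePlace k, Sum.inl w ∈ S)
    {m : ℕ} (X : Fin m → MvPolynomial (Fin r) (FF k σ))
    (Λ : ℕ → k) (x : ℕ → Fin m → k)
    (hΛ : ∀ᶠ t in (σ.𝒰 : Filter ℕ), Λ t ≠ 0 ∧ ∀ i, rep (ev u (X i)) t = Λ t * x t i)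
    (H : MvPolynomial (Fin m) (MvPolynomial (Fin p) k)) {d : ℕ} (hH : H.IsHomogeneous d)
    (h : ∀ t, aeval (x t) (fib (c t) H) = 0) : aeval X (fib ch H) = 0 := by
  by_contra hne
  obtain ⟨t, t1, t2⟩ := ((rep_form' ch c hch u X Λ x hΛ H hH).and
    (rep_ne _ (ev_ne hu hS _ hne))).exists
  rw [h t, mul_zero] at t1
  exact t2 t1

omit hu in
theorem ne_of_seq1 {m : ℕ} (X : Fin m → MvPolynomial (Fin r) (FF k σ))
    (Λ : ℕ → k) (x : ℕ → Fin m → k)
    (hΛ : ∀ᶠ t in (σ.𝒰 : Filter ℕ), Λ t ≠ 0 ∧ ∀ i, rep (ev u (X i)) t = Λ t * x t i)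
    (H : MvPolynomial (Fin m) (MvPolynomial (Fin p) k)) {d : ℕ} (hH : H.IsHomogeneous d)
    (h : ∀ᶠ t in (σ.𝒰 : Filter ℕ), aeval (x t) (fib (c t) H) ≠ 0) : aeval X (fib ch H) ≠ 0 := by
  intro h0
  have h1 := rep_form' ch c hch u X Λ x hΛ H hH
  rw [h0, map_zero] at h1
  obtain ⟨t, ⟨⟨t1, t2⟩, t3⟩, t4⟩ := (((h1.and (rep_zero (k := k) (σ := σ))).and h).and hΛ).exists
  rw [t2] at t1
  exact mul_ne_zero (pow_ne_zero _ t4.1) t3 t1.symm

omit hu in
theorem ne_of_seq' {m w : ℕ} (X : Fin m → MvPolynomial (Fin r) (FF k σ))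
    (Λ : ℕ → k) (x : ℕ → Fin m → k)
    (hΛ : ∀ᶠ t in (σ.𝒰 : Filter ℕ), Λ t ≠ 0 ∧ ∀ i, rep (ev u (X i)) t = Λ t * x t i)
    (F : Fin w → MvPolynomial (Fin m) (MvPolynomial (Fin p) k)) {d : ℕ}
    (hF : ∀ j, (F j).IsHomogeneous d)
    (h : ∀ t, ∃ j, aeval (x t) (fib (c t) (F j)) ≠ 0) : ∃ j, aeval X (fib ch (F j)) ≠ 0 := by
  by_contra hcon
  push Not at hcon
  have h1 : ∀ᶠ t in (σ.𝒰 : Filter ℕ), ∀ j, rep (ev u (aeval X (fib ch (F j)))) t =
      Λ t ^ d * aeval (x t) (fib (c t) (F j)) := by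
    rw [Filter.eventually_all]
    exact fun j => rep_form' ch c hch u X Λ x hΛ (F j) (hF j)
  obtain ⟨t, ⟨t1, t2⟩, t3⟩ := ((h1.and (rep_zero (k := k) (σ := σ))).and hΛ).exists
  obtain ⟨j, hj⟩ := h t
  have h2 := t1 j
  rw [hcon j, map_zero, t2] at h2
  exact mul_ne_zero (pow_ne_zero _ t3.1) hj h2.symm

/-- the minors of the Jacobian and of a basis of the tangent space have the same height -/
theorem minors_height' (hS : ∀ w : InfinitePlace k, Sum.inl w ∈ S) {m g s n : ℕ}
    (Gs : Fin g → MvPolynomial (Fin m) (MvPolynomial (Fin p) k)) (hm : s + (n + 1) = m)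
    (dG : Fin g → ℕ) (hGh : ∀ i, (Gs i).IsHomogeneous (dG i))
    (X : Fin m → MvPolynomial (Fin r) (FF k σ))
    (Λ : ℕ → k) (x : ℕ → Fin m → k)
    (hrk : ∀ t, ∃ a : Fin s → Fin g, LinearIndependent k
      (fun (i : Fin s) (y : Fin m) => aeval (x t) (pderiv y (fib (c t) (Gs (a i))))))
    (hΛ : ∀ᶠ t in (σ.𝒰 : Filter ℕ), Λ t ≠ 0 ∧ ∀ i, rep (ev u (X i)) t = Λ t * x t i)
    (hG : ∀ i, aeval X (fib ch (Gs i)) = 0)
    (D : Fin n → Derivation E (MvPolynomial (Fin r) (FF k σ)) (MvPolynomial (Fin r) (FF k σ)))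
    (J0 : Fin (n + 1) → Fin m) (hJ0 : ((jm D X).submatrix id J0).det ≠ 0)
    (A : ℕ → Matrix (Fin m) (Fin (n + 1)) k)
    (hA1 : ∀ t, LinearIndependent k (fun (c' : Fin (n + 1)) (j : Fin m) => A t j c'))
    (hA2 : ∀ t k' c', ∑ j, aeval (x t) (pderiv j (fib (c t) (Gs k'))) * A t j c' = 0) :
    ∀ᶠ t in (σ.𝒰 : Filter ℕ),
      logHeight (fun J : Fin (n + 1) → Fin m => rep (ev u ((jm D X).submatrix id J).det) t) =
        logHeight (fun J : Fin (n + 1) → Fin m => ((A t).submatrix J id).det) := by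
  classical
  -- the values of the minors
  have h1 : ∀ᶠ t in (σ.𝒰 : Filter ℕ), ∀ J : Fin (n + 1) → Fin m,
      rep (ev u ((jm D X).submatrix id J).det) t =
        ((Matrix.of fun i y => rep (ev u (jm D X i y)) t).submatrix id J).det := by
    rw [Filter.eventually_all]
    intro J
    have h2 : ev u ((jm D X).submatrix id J).det =
        (Matrix.of fun i j => ev u (jm D X i (J j))).det := by
      have h3 := RingHom.map_det (ev u).toRingHom ((jm D X).submatrix id J)
      exact h3
    rw [h2]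
    exact rep_det _
  -- the rows are tangent vectors
  have h2 : ∀ᶠ t in (σ.𝒰 : Filter ℕ), ∀ i k', ∑ y, rep (ev u (jm D X i y)) t *
      aeval (fun j => rep (ev u (X j)) t) (pderiv y (fib (c t) (Gs k'))) = 0 := by
    rw [Filter.eventually_all]
    intro i
    rw [Filter.eventually_all]
    intro k'
    have h3 : ∑ y, ev u (jm D X i y) *
        aeval (fun j => ev u (X j)) (fib ch (pderiv y (Gs k'))) = 0 := by
      have h4 := jm_row D X (fib ch (Gs k')) (fib_hom ch (hGh k')) i
      have h5 : (Fin.cons (dG k' * aeval X (fib ch (Gs k'))) (fun a => D a (aeval X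
          (fib ch (Gs k')))) : Fin (n + 1) → MvPolynomial (Fin r) (FF k σ)) i = 0 := by
        refine Fin.cases ?_ (fun i => ?_) i
        · rw [Fin.cons_zero, hG, mul_zero]
        · rw [Fin.cons_succ, hG, map_zero]
      rw [h5] at h4
      have h6 := congrArg (ev u) h4
      rw [map_sum, map_zero] at h6
      rw [← h6]
      refine Finset.sum_congr rfl fun y _ => ?_
      rw [map_mul, ev_aeval', fib_pderiv]
    have h4 : ∀ᶠ t in (σ.𝒰 : Filter ℕ), ∀ y, rep (aeval (fun j => ev u (X j))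
        (fib ch (pderiv y (Gs k')))) t =
          aeval (fun j => rep (ev u (X j)) t) (pderiv y (fib (c t) (Gs k'))) := by
      rw [Filter.eventually_all]
      intro y
      filter_upwards [rep_fibE ch c hch (pderiv y (Gs k')) fun j => ev u (X j)] with t t1
      rw [t1, fib_pderiv]
    have h5 : ∀ᶠ t in (σ.𝒰 : Filter ℕ), ∀ y, rep (ev u (jm D X i y) *
        aeval (fun j => ev u (X j)) (fib ch (pderiv y (Gs k')))) t =
          rep (ev u (jm D X i y)) t *
          rep (aeval (fun j => ev u (X j)) (fib ch (pderiv y (Gs k')))) t := by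
      rw [Filter.eventually_all]
      exact fun y => rep_mul _ _
    have h6 := rep_sum (σ := σ) Finset.univ fun y =>
      ev u (jm D X i y) * aeval (fun j => ev u (X j)) (fib ch (pderiv y (Gs k')))
    rw [h3] at h6
    filter_upwards [h4, h5, h6, rep_zero (k := k) (σ := σ)] with t t4 t5 t6 t7
    rw [t7] at t6
    rw [t6]
    refine Finset.sum_congr rfl fun y _ => ?_
    rw [t5, t4]
  filter_upwards [h1, h2, hΛ, rep_ne _ (ev_ne hu hS _ hJ0)] with t t1 t2 ⟨t3, t4⟩ t5
  obtain ⟨a, ha⟩ := hrk t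
  obtain ⟨c1, hc⟩ := tangent_minors (fun i => fib (c t) (Gs i)) (x t) a ha hm (A t) (hA1 t)
    (hA2 t) (Matrix.of fun i y => rep (ev u (jm D X i y)) t) (fun i k' => by
      refine smul_pderiv_zero _ (fib_hom (c t) (hGh k')) (x t) (Λ t) t3 _ ?_
      have h3 := t2 i k'
      simp only [t4] at h3
      exact h3)
  have h3 : (fun J : Fin (n + 1) → Fin m => rep (ev u ((jm D X).submatrix id J).det) t) =
      fun J => c1 * ((A t).submatrix J id).det := by
    funext J
    rw [t1 J, hc J]
  have hc0 : c1 ≠ 0 := by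
    rintro rfl
    apply t5
    have h4 := congrFun h3 J0
    rw [zero_mul] at h4
    exact h4
  rw [h3]
  exact logHeight_smul_eq_logHeight _ hc0

end

end germ

/-! ### The field generated by the parameters -/

section adj
variable {p : ℕ} (ch : Fin p → FF k σ)

/-- the field generated by the parameters -/
noncomputable abbrev EE : IntermediateField k (FF k σ) := IntermediateField.adjoin k (Set.range ch)

/-- the parameters as elements of the field generated by them -/
noncomputable def che (j : Fin p) : EE ch :=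
  ⟨ch j, IntermediateField.subset_adjoin _ _ ⟨j, rfl⟩⟩

/-- clearing denominators -/
theorem clear {n d : ℕ} (P : MvPolynomial (Fin n) (EE ch)) (hP : P.IsHomogeneous d) :
    ∃ (Q : MvPolynomial (Fin n) (MvPolynomial (Fin p) k)) (b : EE ch), Q.IsHomogeneous d ∧
      b ≠ 0 ∧ fib (che ch) Q = MvPolynomial.C b * P := by
  classical
  have hq : ∀ z : EE ch, ∃ (a b : MvPolynomial (Fin p) k), aeval (che ch) b ≠ 0 ∧
      z * aeval (che ch) b = aeval (che ch) a := by
    intro z
    have hz := z.2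
    rw [IntermediateField.mem_adjoin_range_iff] at hz
    obtain ⟨a, b, hab⟩ := hz
    have hinc : ∀ a : MvPolynomial (Fin p) k, ((aeval (che ch) a : EE ch) : FF k σ) =
        aeval ch a := by
      intro a
      have h1 := MvPolynomial.aeval_algebraMap_apply (A := EE ch) (B := FF k σ) (che ch) a
      exact h1.symm
    by_cases hb : aeval (che ch) b = 0
    · refine ⟨0, 1, ?_, ?_⟩
      · rw [map_one]
        exact one_ne_zero
      · have h2 : (aeval ch b : FF k σ) = 0 := by
          rw [← hinc, hb]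
          rfl
        have h3 : z = 0 := by
          apply Subtype.ext
          rw [hab, h2, div_zero]
          rfl
        rw [h3, map_zero, zero_mul]
    · refine ⟨a, b, hb, ?_⟩
      apply Subtype.ext
      have h2 : (aeval ch b : FF k σ) ≠ 0 := by
        rw [← hinc]
        exact fun h => hb (Subtype.ext h)
      show (z : FF k σ) * ((aeval (che ch) b : EE ch) : FF k σ) =
        ((aeval (che ch) a : EE ch) : FF k σ)
      rw [hinc, hinc, hab, div_mul_cancel₀ _ h2]
  choose a b hb hab using hq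
  refine ⟨∑ e ∈ P.support, monomial e (a (MvPolynomial.coeff e P) *
    ∏ e' ∈ P.support.erase e, b (MvPolynomial.coeff e' P)),
    ∏ e ∈ P.support, aeval (che ch) (b (MvPolynomial.coeff e P)), ?_, ?_, ?_⟩
  · refine MvPolynomial.IsHomogeneous.sum _ _ _ fun e he => ?_
    refine MvPolynomial.isHomogeneous_monomial _ ?_
    have h1 := hP (MvPolynomial.mem_support_iff.1 he)
    rw [← h1]
    rw [Finsupp.degree_eq_weight_one]
    rfl
  · exact Finset.prod_ne_zero_iff.2 fun e _ => hb _
  · have h0 : MvPolynomial.C (∏ e ∈ P.support, aeval (che ch) (b (MvPolynomial.coeff e P))) * P =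
        ∑ e ∈ P.support, MvPolynomial.C (∏ e ∈ P.support,
          aeval (che ch) (b (MvPolynomial.coeff e P))) * monomial e (MvPolynomial.coeff e P) := by
      rw [← Finset.mul_sum, ← P.as_sum]
    rw [h0]
    unfold fib
    rw [map_sum]
    refine Finset.sum_congr rfl fun e he => ?_
    rw [MvPolynomial.map_monomial, MvPolynomial.C_mul_monomial]
    congr 1
    show aeval (che ch) _ = _
    rw [map_mul, map_prod, ← Finset.mul_prod_erase _ _ he, ← hab]
    ring

end adj

end Pool.Agent.Run7.h720
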