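import Pool.Agent.Run7.h720.WLoc

/-!
Vojta's inequality for short points of the members of families of smooth projective varieties, with
different divisors at the places.
-/

set_option autoImplicit false
set_option linter.unusedSectionVars false

namespace Pool.Agent.Run7.h720

open NumberField IsDedekindDomain Height Filter Topology
open Pool.Agent.W180.OP (Pl av wt fv fv_support_finite wt_nonneg nrm)
open Pool.Agent.K1H83.VN
open MvPolynomial (aeval pderiv monomial)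

/-- all members of the family over the base `Ψ = 0`, `Υ ≠ 0` are smooth, and the divisors have
normal crossings on them -/
def SmFam {K : Type} [Field K] {p m g q w na nb : ℕ} (s : ℕ) (Ψ : Fin na → MvPolynomial (Fin p) K)
    (Υ : Fin nb → MvPolynomial (Fin p) K)
    (Gs : Fin g → MvPolynomial (Fin m) (MvPolynomial (Fin p) K))
    (F : Fin q → Fin w → MvPolynomial (Fin m) (MvPolynomial (Fin p) K)) : Prop :=
  ∀ (L : Type) [Field L] [Algebra K L] (c : Fin p → L), (∀ i, aeval c (Ψ i) = 0) →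
    (∀ i, aeval c (Υ i) ≠ 0) → SmPair s (fun i => fib c (Gs i)) (fun i j => fib c (F i j))

/-- the condition at a prime outside `T` -/
theorem local_cond' {K : Type} [Field K] (f : AbsoluteValue K ℝ) {m q w : ℕ} (x : Fin m → K)
    (hx : x ≠ 0) (ρ τ Λ : K) (hρ0 : ρ ≠ 0) (hτ0 : τ ≠ 0) (hΛ0 : Λ ≠ 0) (hρ : f ρ ≤ 1)
    (y : Fin q → Fin w → K) (hy : ∀ i, ∃ j, y i j ≠ 0) (d : Fin q → ℕ) (M : ℕ)
    (hd : ∑ i, (d i * Real.log (nm f x) - Real.log (nm f (y i))) ≤
      -(M * Real.log (f ρ) + Real.log (f τ))) :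
    f ρ ^ (M + 1) * f τ * nm f (fun j => Λ * x j) ^ (∑ i, d i) ≤
      ∏ i, nm f (fun j => Λ ^ d i * y i j) := by
  refine local_cond f x hx ρ τ Λ hρ0 hτ0 hΛ0 hρ y hy d M (le_trans (le_of_eq ?_) hd)
  refine Finset.sum_congr rfl fun i _ => ?_
  obtain ⟨j, hj⟩ := hy i
  rw [Real.log_div (pow_pos (nm_pos f hx) _).ne' (nm_pos f (ne_of_coord (i := j) hj)).ne',
    Real.log_pow]

/-- **Vojta's inequality for short points of the members of a family, with different divisors at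
the places.** -/
theorem var_mov (K : Type) [Field K] [NumberField K] (Γ : Subgroup Kˣ) (hΓ : Γ.FG)
    (T : Finset (Pl K)) (hT : ∀ w : InfinitePlace K, Sum.inl w ∈ T)
    {m g q w s n p na nb : ℕ} (hn : 1 ≤ n)
    (Ψ : Fin na → MvPolynomial (Fin p) K) (Υ : Fin nb → MvPolynomial (Fin p) K)
    (Gs : Fin g → MvPolynomial (Fin m) (MvPolynomial (Fin p) K))
    (F : Fin q → Fin w → MvPolynomial (Fin m) (MvPolynomial (Fin p) K))
    (F' : Pl K → Fin q → Fin w → MvPolynomial (Fin m) (MvPolynomial (Fin p) K))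
    (hGF : SmFam s Ψ Υ Gs F) (hGF' : ∀ v ∈ T, SmFam s Ψ Υ Gs (F' v)) (hm : s + (n + 1) = m)
    (dG : Fin g → ℕ) (hGh : ∀ i, (Gs i).IsHomogeneous (dG i)) (dF : Fin q → ℕ)
    (hFh : ∀ i j, (F i j).IsHomogeneous (dF i)) (dF' : Pl K → Fin q → ℕ)
    (hFh' : ∀ v ∈ T, ∀ i j, (F' v i j).IsHomogeneous (dF' v i)) (r M : ℕ) (B ε : ℝ)
    (hε : 0 < ε) :
    ∃ (N : ℕ) (Pe : Fin N → MvPolynomial (Fin (n + 1)) (MvPolynomial (Fin p) K)) (e : Fin N → ℕ)
      (δ C : ℝ), (∀ i, (Pe i).IsHomogeneous (e i)) ∧ 0 < δ ∧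
      ∀ (c : Fin p → K) (x : Fin m → K) (ρ τ : K) (A : Matrix (Fin m) (Fin (n + 1)) K), x ≠ 0 →
        (∀ i, aeval c (Ψ i) = 0) → (∀ i, aeval c (Υ i) ≠ 0) →
        (∀ j, mulHeight₁ (c j) ≤ B * mulHeight x ^ δ) →
        (∀ i, aeval x (fib c (Gs i)) = 0) →
        (∃ J : Fin (n + 1) → Fin m, ∀ i, fib c (Pe i) ≠ 0 →
          aeval (fun a => x (J a)) (fib c (Pe i)) ≠ 0) →
        (∀ i, ∃ j, aeval x (fib c (F i j)) ≠ 0) →
        (∀ v ∈ T, ∀ i, ∃ j, aeval x (fib c (F' v i j)) ≠ 0) → ρ ≠ 0 → τ ≠ 0 →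
        (∀ v, Sum.inr v ∉ T → fv v ρ ≤ 1) → (∀ v, Sum.inr v ∉ T → fv v τ ≤ 1) →
        PShort Γ r (B * mulHeight x ^ δ) x → Short Γ r (B * mulHeight x ^ δ) ρ →
        (∀ v, Sum.inr v ∉ T → lc (Sum.inr v) x (fun i j => aeval x (fib c (F i j))) dF ≤
          -(M * Real.log (fv v ρ) + Real.log (fv v τ))) →
        LinearIndependent K (fun (c' : Fin (n + 1)) (j : Fin m) => A j c') →
        (∀ k' c', ∑ j, aeval x (pderiv j (fib c (Gs k'))) * A j c' = 0) →
        logHeight (fun J : Fin (n + 1) → Fin m => (A.submatrix J id).det) -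
            (n + 1) * logHeight x +
            (∑ v ∈ T, wt v * lc v x (fun i j => aeval x (fib c (F' v i j))) (dF' v) +
            out T x (fun i j => aeval x (fib c (F i j))) dF) ≤
          cnt {v | Sum.inr v ∈ T} ρ + cnt {v | Sum.inr v ∈ T} τ + ε * logHeight x + C := by
  classical
  obtain ⟨Φ, eΦ, hΦh, hΦs⟩ := exists_enum K (n + 1) p
  by_contra hcon
  push Not at hcon
  -- the sequence
  have hex := fun t : ℕ => hcon t (fun i : Fin t => Φ i) (fun i => eΦ i) (1 / ((t : ℝ) + 1)) t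
    (fun i => hΦh i) (by positivity)
  choose c x ρ τ A hx0 hΨ hΥ hcB hxG hJ hxF hxF' hρ0 hτ0 hρT hτT hsx hsρ hd hA1 hA2 hbig using hex
  choose J hJ using hJ
  -- the points are generic
  have hgen1 : ∀ (P : MvPolynomial (Fin (n + 1)) (MvPolynomial (Fin p) K)) (d : ℕ),
      P.IsHomogeneous d → ∀ᶠ t in (atTop : Filter ℕ), fib (c t) P ≠ 0 →
        aeval (fun a => x t (J t a)) (fib (c t) P) ≠ 0 := by
    intro P d hP
    obtain ⟨s', hs'⟩ := hΦs P d hP
    filter_upwards [eventually_gt_atTop s'] with t ht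
    have h1 := hJ t ⟨s', ht⟩
    simpa only [hs'] using h1
  -- the heights tend to infinity
  have hlim : Tendsto (fun t => logHeight (x t)) atTop atTop := by
    rw [tendsto_atTop]
    intro C0
    have hfin := NumberField.finite_setOfPred_logHeight₁_le K C0
    have h01 : (⟨1, by omega⟩ : Fin (n + 1)) ≠ 0 := by
      intro h
      have := congrArg Fin.val h
      simp at this
    have h0 : ∀ᶠ t in (atTop : Filter ℕ), x t (J t 0) ≠ 0 := by
      filter_upwards [hgen1 (MvPolynomial.X 0) 1 (MvPolynomial.isHomogeneous_X _ _)] with t ht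
      have h2 : fib (c t) (MvPolynomial.X (0 : Fin (n + 1)) :
          MvPolynomial (Fin (n + 1)) (MvPolynomial (Fin p) K)) = MvPolynomial.X 0 := by
        unfold fib
        rw [MvPolynomial.map_X]
      rw [h2, MvPolynomial.aeval_X] at ht
      exact ht (MvPolynomial.X_ne_zero 0)
    have h1 : ∀ z : K, ∀ᶠ t in (atTop : Filter ℕ),
        x t (J t ⟨1, by omega⟩) - z * x t (J t 0) ≠ 0 := by
      intro z
      filter_upwards [hgen1 (MvPolynomial.X ⟨1, by omega⟩ -
        MvPolynomial.C (MvPolynomial.C z) * MvPolynomial.X 0) 1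
        ((MvPolynomial.isHomogeneous_X _ _).sub
          ((MvPolynomial.isHomogeneous_C_mul_X _ 0)))] with t ht
      have h2 : fib (c t) (MvPolynomial.X (⟨1, by omega⟩ : Fin (n + 1)) -
        MvPolynomial.C (MvPolynomial.C z) * MvPolynomial.X 0 :
          MvPolynomial (Fin (n + 1)) (MvPolynomial (Fin p) K)) =
          MvPolynomial.X ⟨1, by omega⟩ - MvPolynomial.C z * MvPolynomial.X 0 := by
        unfold fib
        rw [map_sub, map_mul, MvPolynomial.map_X, MvPolynomial.map_X, MvPolynomial.map_C]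
        congr 2
        congr 1
        exact MvPolynomial.aeval_C _ _
      rw [h2, map_sub, map_mul, MvPolynomial.aeval_X, MvPolynomial.aeval_X,
        MvPolynomial.aeval_C] at ht
      refine ht ?_
      intro h
      have h3 := congrArg (MvPolynomial.coeff (Finsupp.single (⟨1, by omega⟩ : Fin (n + 1)) 1)) h
      rw [MvPolynomial.coeff_sub, MvPolynomial.coeff_C_mul, MvPolynomial.coeff_X,
        MvPolynomial.coeff_X, if_pos rfl, if_neg, mul_zero, sub_zero,
        MvPolynomial.coeff_zero] at h3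
      · exact one_ne_zero h3
      · intro h4
        have := Finsupp.single_left_injective one_ne_zero h4
        exact h01 this.symm
    have h2 : ∀ᶠ t in (atTop : Filter ℕ), ∀ z ∈ {z : K | logHeight₁ z ≤ C0},
        x t (J t ⟨1, by omega⟩) - z * x t (J t 0) ≠ 0 := by
      rw [Filter.eventually_all_finite hfin]
      exact fun z _ => h1 z
    filter_upwards [h0, h2] with t t0 t2
    by_contra hlt
    push Not at hlt
    have h3 := logHeight₁_div_le (x t) (J t ⟨1, by omega⟩) (J t 0)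
    apply t2 (x t (J t ⟨1, by omega⟩) / x t (J t 0)) (h3.trans hlt.le)
    rw [div_mul_cancel₀ _ t0, sub_self]
  let σ : Sc := ⟨hyperfilter ℕ, _, hlim.mono_left Nat.hyperfilter_le_atTop⟩
  have hσL : ∀ t, σ.L t = logHeight (x t) := fun t => rfl
  have h𝒰 : (σ.𝒰 : Filter ℕ) ≤ atTop := Nat.hyperfilter_le_atTop
  obtain ⟨J0, -, hJ0c⟩ := const_of_finite (σ := σ) J Set.univ Set.finite_univ
    (Eventually.of_forall fun _ => trivial)
  have hgen : ∀ (P : MvPolynomial (Fin (n + 1)) (MvPolynomial (Fin p) K)) (d : ℕ),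
      P.IsHomogeneous d → ∀ᶠ t in (σ.𝒰 : Filter ℕ), fib (c t) P ≠ 0 →
        aeval (fun a => x t (J0 a)) (fib (c t) P) ≠ 0 := by
    intro P d hP
    filter_upwards [h𝒰 (hgen1 P d hP), hJ0c] with t t1 t2
    rwa [t2] at t1
  -- the places
  obtain ⟨S0, hS0, hSΓ0, -⟩ := exists_places (RingHom.id K) Γ hΓ ∅
  obtain ⟨S, hSdef⟩ : ∃ S : Finset (Pl K), S = S0 ∪ T := ⟨_, rfl⟩
  have hS00 : S0 ⊆ S := by
    rw [hSdef]
    exact Finset.subset_union_left
  have hTS : T ⊆ S := by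
    rw [hSdef]
    exact Finset.subset_union_right
  have hS : ∀ w : InfinitePlace K, Sum.inl w ∈ S := fun w => hS00 (hS0 w)
  have hSΓ : ∀ γ ∈ Γ, IsSU S (γ : K) := fun γ hγ =>
    ⟨(hSΓ0 γ hγ).1, fun v hv => (hSΓ0 γ hγ).2 v fun h => hv (hS00 h)⟩
  have hn1 : ∀ t, 1 ≤ mulHeight (x t) := fun t => one_le_mulHeight _
  have hσL' : ∀ t, σ.L t = Real.log (mulHeight (x t)) := fun t => rfl
  -- the parameters
  have hcF : ∀ j, gm σ (fun t => c t j) ∈ FF K σ := by
    intro j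
    have h := coef_small (L := K) h𝒰 B (fun t => mulHeight (x t)) hn1 hσL'
      (fun t => c t j) fun t => Or.inr (hcB t j)
    simpa using h
  obtain ⟨ch, hch0⟩ : ∃ ch : Fin p → FF K σ, ∀ j, (ch j : G K σ) = gm σ fun t => c t j :=
    ⟨fun j => ⟨_, hcF j⟩, fun j => rfl⟩
  have hch : ∀ j, algebraMap (EE ch) (G K σ) (che ch j) = gm σ fun t => c t j := hch0
  have hΨ' : ∀ i, aeval (che ch) (Ψ i) = 0 := fun i => germ_zero ch c hch _ fun t => hΨ t i
  have hΥ' : ∀ i, aeval (che ch) (Υ i) ≠ 0 := fun i =>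
    germ_ne ch c hch _ (Eventually.of_forall fun t => hΥ t i)
  have hrk : ∀ t, ∃ a : Fin s → Fin g, LinearIndependent K
      (fun (i : Fin s) (y : Fin m) => aeval (x t) (pderiv y (fib (c t) (Gs (a i))))) := by
    intro t
    obtain ⟨a, b, hab⟩ := hGF K (c t) (hΨ t) (hΥ t) K (x t) (hx0 t) (hxG t)
    exact ⟨a, hab.comp _ Sum.inl_injective⟩
  -- the heights of the tangent spaces and the local heights
  obtain ⟨μ, cc, γ, hμ, hxc, hccF, hγS, hγB⟩ := proj_rep h𝒰 hS Γ hSΓ r B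
    (fun t => mulHeight (x t)) hn1 hσL' x hx0 hsx ⟨1, Eventually.of_forall fun t => by
      rw [one_mul, hσL]⟩
  have hbound : ∃ C1 : ℝ, ∀ᶠ t in (σ.𝒰 : Filter ℕ),
      logHeight (fun J : Fin (n + 1) → Fin m => ((A t).submatrix J id).det) +
        (∑ v ∈ T, wt v * lc v (x t) (fun i j => aeval (x t) (fib (c t) (F' v i j))) (dF' v) +
            out T (x t) (fun i j => aeval (x t) (fib (c t) (F i j))) dF) ≤ C1 * σ.L t := by
    obtain ⟨r1, u1, hu1, hrep1⟩ := exists_rep (S := S) γ hγS hγB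
    obtain ⟨X1, Λ1, ⟨i1, hi1⟩, -, hΛ1⟩ := germ_point hu1 hS μ hμ x hx0 fun i =>
      exists_poly hu1 _ (cc i) γ (hxc i) (hccF i) hrep1
    obtain ⟨D1, -, hdet1⟩ := exists_jac (fun a => X1 (J0 a))
      (gen_of_seq' ch c hch X1 J0 Λ1 x hΛ1 hgen)
    have hJ1 : ((jm D1 X1).submatrix id J0).det ≠ 0 := by
      intro h
      apply hdet1
      rw [← h]
      congr 1
      ext a j
      refine Fin.cases ?_ (fun a => ?_) a
      · rfl
      · rfl
    have hG1 : ∀ i, aeval X1 (fib (che ch) (Gs i)) = 0 := fun i =>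
      zero_of_seq' (che ch) c hch hu1 hS X1 Λ1 x hΛ1 (Gs i) (hGh i) fun t => hxG t i
    have h1 := minors_height' (che ch) c hch hu1 hS Gs hm dG hGh X1 Λ1 x hrk hΛ1 hG1 D1 J0 hJ1 A
      hA1 hA2
    have h2 : ∀ J : Fin (n + 1) → Fin m, ∃ C : ℝ, ∀ᶠ t in (σ.𝒰 : Filter ℕ),
        logHeight₁ (rep (ev u1 ((jm D1 X1).submatrix id J).det) t) ≤ C * σ.L t := fun J =>
      (mem_BB _).1 (ev_BB hu1 _)
    choose C2 hC2 using h2
    have hFne1 : ∀ i, ∃ j, aeval X1 (fib (che ch) (F i j)) ≠ 0 := fun i =>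
      ne_of_seq' (che ch) c hch X1 Λ1 x hΛ1 (F i) (hFh i) fun t => hxF t i
    have hFne1' : ∀ v ∈ T, ∀ i, ∃ j, aeval X1 (fib (che ch) (F' v i j)) ≠ 0 := fun v hv i =>
      ne_of_seq' (che ch) c hch X1 Λ1 x hΛ1 (F' v i) (hFh' v hv i) fun t => hxF' t v hv i
    obtain ⟨C3, hC3⟩ := total_bd T hT (fun j => ev u1 (X1 j)) ⟨i1, ev_ne hu1 hS _ hi1⟩
      (fun i => ev_BB hu1 _) (by
        filter_upwards [hΛ1] with t ht
        have e1 : (fun j => rep (ev u1 (X1 j)) t) = fun j => Λ1 t * x t j :=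
          funext fun j => ht.2 j
        rw [e1, hσL]
        exact (logHeight_smul_eq_logHeight (x t) ht.1).le)
      (fun i j => ev u1 (aeval X1 (fib (che ch) (F i j)))) (fun i => by
        obtain ⟨j, hj⟩ := hFne1 i
        exact ⟨j, ev_ne hu1 hS _ hj⟩) (fun i j => ev_BB hu1 _) dF
      (fun v i j => ev u1 (aeval X1 (fib (che ch) (F' v i j)))) (fun v hv i => by
        obtain ⟨j, hj⟩ := hFne1' v hv i
        exact ⟨j, ev_ne hu1 hS _ hj⟩) (fun v _ i j => ev_BB hu1 _) dF'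
    have hFr1 : ∀ᶠ t in (σ.𝒰 : Filter ℕ), ∀ i, ∀ j,
        rep (ev u1 (aeval X1 (fib (che ch) (F i j)))) t =
          Λ1 t ^ dF i * aeval (x t) (fib (c t) (F i j)) := by
      rw [Filter.eventually_all]
      intro i
      rw [Filter.eventually_all]
      intro j
      exact rep_form' (che ch) c hch u1 X1 Λ1 x hΛ1 (F i j) (hFh i j)
    have hFr1' : ∀ᶠ t in (σ.𝒰 : Filter ℕ), ∀ v ∈ T, ∀ i, ∀ j,
        rep (ev u1 (aeval X1 (fib (che ch) (F' v i j)))) t =
          Λ1 t ^ dF' v i * aeval (x t) (fib (c t) (F' v i j)) := by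
      rw [Filter.eventually_all_finset]
      intro v hv
      rw [Filter.eventually_all]
      intro i
      rw [Filter.eventually_all]
      intro j
      exact rep_form' (che ch) c hch u1 X1 Λ1 x hΛ1 (F' v i j) (hFh' v hv i j)
    refine ⟨∑ J, C2 J + C3, ?_⟩
    filter_upwards [h1, Filter.eventually_all.2 hC2, hC3, hFr1, hFr1', hΛ1] with
      t t1 t2 t3 t4 t5 t6
    rw [← t1, add_mul, Finset.sum_mul]
    refine add_le_add ((logHeight_le_sum _).trans (Finset.sum_le_sum fun J _ => t2 J)) ?_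
    have e1 : (fun j => rep (ev u1 (X1 j)) t) = fun j => Λ1 t * x t j :=
      funext fun j => t6.2 j
    have e2 : (fun i j => rep (ev u1 (aeval X1 (fib (che ch) (F i j)))) t) =
        fun i j => Λ1 t ^ dF i * aeval (x t) (fib (c t) (F i j)) :=
      funext fun i => funext fun j => t4 i j
    have e3 : ∀ v ∈ T, wt v * lc v (fun j => rep (ev u1 (X1 j)) t)
        (fun i j => rep (ev u1 (aeval X1 (fib (che ch) (F' v i j)))) t) (dF' v) =
        wt v * lc v (x t) (fun i j => aeval (x t) (fib (c t) (F' v i j))) (dF' v) := by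
      intro v hv
      have e4 : (fun i j => rep (ev u1 (aeval X1 (fib (che ch) (F' v i j)))) t) =
          fun i j => Λ1 t ^ dF' v i * aeval (x t) (fib (c t) (F' v i j)) :=
        funext fun i => funext fun j => t5 v hv i j
      rw [e1, e4, lc_smul v (x t) (hx0 t) _ (hxF' t v hv) _ _ t6.1]
    rw [Finset.sum_congr rfl e3, e1, e2, out_smul T hT (x t) (hx0 t) _ (hxF t) _ _ t6.1] at t3
    exact t3
  obtain ⟨C1, hC1⟩ := hbound
  obtain ⟨T', hT'⟩ : ∃ T' : Set (HeightOneSpectrum (𝓞 K)), T' = {v | Sum.inr v ∈ T} := ⟨_, rfl⟩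
  have hT'v : ∀ v, v ∉ T' → Sum.inr v ∉ T := by
    intro v hv
    rwa [hT'] at hv
  rw [← hT'] at hbig
  have hTS' : ∀ v ∈ T', Sum.inr v ∈ S := by
    intro v hv
    rw [hT'] at hv
    exact hTS hv
  have hNτ : ∀ t, 0 ≤ cnt T' (τ t) := fun t => cnt_nonneg T' _ fun v hv => hτT t v (hT'v v hv)
  have hcρ : ∀ᶠ t in (σ.𝒰 : Filter ℕ), cnt T' (ρ t) ≤ C1 * σ.L t := by
    filter_upwards [hC1] with t t1
    have h1 := hbig t
    have h3 := logHeight_nonneg (x t)
    have h4 : 0 ≤ ε * logHeight (x t) := mul_nonneg hε.le h3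
    have h5 : (0 : ℝ) ≤ (n + 1) * logHeight (x t) := mul_nonneg (by positivity) h3
    have h6 := hNτ t
    have h7 : (0 : ℝ) ≤ t := Nat.cast_nonneg t
    linarith
  have hhoρ : ∀ t, ∑ v ∈ S, wt v * Real.log (av v (ρ t)) ≤ cnt T' (ρ t) := by
    intro t
    rw [prod_formula S hS _ (hρ0 t)]
    exact ho_le_cnt S T' hTS' _ (hρ0 t) fun v hv => hρT t v (hT'v v hv)
  have hhoτ : ∀ t, ∑ v ∈ S, wt v * Real.log (av v (τ t)) ≤ cnt T' (τ t) := by
    intro t
    rw [prod_formula S hS _ (hτ0 t)]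
    exact ho_le_cnt S T' hTS' _ (hτ0 t) fun v hv => hτT t v (hT'v v hv)
  -- polynomials
  obtain ⟨μ', c', γ', hμ', hρc, hcF', hγS', hγB'⟩ := unit_rep h𝒰 hS Γ hSΓ r B
    (fun t => mulHeight (x t)) hn1 hσL' ρ hρ0 hsρ ⟨C1, by
      filter_upwards [hcρ] with t t1
      exact (hhoρ t).trans t1⟩
  obtain ⟨r', u, hu, hrep⟩ := exists_rep (S := S) (Sum.elim γ γ')
    (by rintro (j | j); exacts [hγS j, hγS' j])
    (by rintro (j | j); exacts [hγB j, hγB' j])
  obtain ⟨X, Λ, ⟨i1, hi1⟩, hcop, hΛ⟩ := germ_point hu hS μ hμ x hx0 fun i =>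
    exists_poly hu _ (cc i) γ (hxc i) (hccF i) fun j => hrep (Sum.inl j)
  obtain ⟨R, e', hR⟩ := exists_poly hu _ c' γ' hρc hcF' fun j => hrep (Sum.inr j)
  obtain ⟨P, hP⟩ : ∃ P : G K σ, P = gm σ fun t => μ' t * ρ t := ⟨_, rfl⟩
  obtain ⟨Q, hQ⟩ : ∃ Q : G K σ, Q = gm σ fun t => τ t := ⟨_, rfl⟩
  rw [← hP] at hR
  have hP0 : P ≠ 0 := by
    rw [hP, gm_ne]
    exact Eventually.of_forall fun t => mul_ne_zero (hμ' t).1 (hρ0 t)
  have hQ0 : Q ≠ 0 := by
    rw [hQ, gm_ne]
    exact Eventually.of_forall fun t => hτ0 t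
  have hrP := rep_eq P _ hP
  have hrQ := rep_eq Q _ hQ
  have hR0 : R ≠ 0 := by
    rintro rfl
    rw [map_zero] at hR
    exact mul_ne_zero hP0 (mon_ne hu _) hR.symm
  have hG : ∀ i, aeval X (fib (che ch) (Gs i)) = 0 := fun i =>
    zero_of_seq' (che ch) c hch hu hS X Λ x hΛ (Gs i) (hGh i) fun t => hxG t i
  have hFne : ∀ i, ∃ j, aeval X (fib (che ch) (F i j)) ≠ 0 := fun i =>
    ne_of_seq' (che ch) c hch X Λ x hΛ (F i) (hFh i) fun t => hxF t i
  have hFr : ∀ᶠ t in (σ.𝒰 : Filter ℕ), ∀ i, ∀ j,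
      rep (ev u (aeval X (fib (che ch) (F i j)))) t =
        Λ t ^ dF i * aeval (x t) (fib (c t) (F i j)) := by
    rw [Filter.eventually_all]
    intro i
    rw [Filter.eventually_all]
    intro j
    exact rep_form' (che ch) c hch u X Λ x hΛ (F i j) (hFh i j)
  -- the divisors at the places
  obtain ⟨F2, hF2⟩ : ∃ F2 : Pl K → Fin q → Fin w →
      MvPolynomial (Fin m) (MvPolynomial (Fin p) K), F2 = fun v => if v ∈ T then F' v else F :=
    ⟨_, rfl⟩
  obtain ⟨dF2, hdF2⟩ : ∃ dF2 : Pl K → Fin q → ℕ, dF2 = fun v => if v ∈ T then dF' v else dF :=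
    ⟨_, rfl⟩
  have hGF2 : ∀ v, SmPair s (fun i => fib (che ch) (Gs i))
      (fun i j => fib (che ch) (F2 v i j)) := by
    intro v
    rw [hF2]
    by_cases hv : v ∈ T
    · simp only [if_pos hv]
      exact hGF' v hv _ (che ch) hΨ' hΥ'
    · simp only [if_neg hv]
      exact hGF _ (che ch) hΨ' hΥ'
  have hFh2 : ∀ v i j, (F2 v i j).IsHomogeneous (dF2 v i) := by
    intro v i j
    rw [hF2, hdF2]
    by_cases hv : v ∈ T
    · simp only [if_pos hv]
      exact hFh' v hv i j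
    · simp only [if_neg hv]
      exact hFh i j
  have hxF2 : ∀ t v i, ∃ j, aeval (x t) (fib (c t) (F2 v i j)) ≠ 0 := by
    intro t v i
    rw [hF2]
    by_cases hv : v ∈ T
    · simp only [if_pos hv]
      exact hxF' t v hv i
    · simp only [if_neg hv]
      exact hxF t i
  have hFr2 : ∀ᶠ t in (σ.𝒰 : Filter ℕ), ∀ v ∈ S, ∀ i, ∀ j,
      rep (ev u (aeval X (fib (che ch) (F2 v i j)))) t =
        Λ t ^ dF2 v i * aeval (x t) (fib (c t) (F2 v i j)) := by
    rw [Filter.eventually_all_finset]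
    intro v _
    rw [Filter.eventually_all]
    intro i
    rw [Filter.eventually_all]
    intro j
    exact rep_form' (che ch) c hch u X Λ x hΛ (F2 v i j) (hFh2 v i j)
  obtain ⟨D, A1, C2, hJ0, hAR, hA10, hC20, hCs, hmain⟩ := var_core' hu
    (fun i => fib (che ch) (Gs i)) (fun i j => fib (che ch) (F i j)) (hGF _ (che ch) hΨ' hΥ') hm
    dG (fun i => fib_hom _ (hGh i)) dF (fun i j => fib_hom _ (hFh i j))
    (fun v i j => fib (che ch) (F2 v i j)) hGF2 dF2 (fun v i j => fib_hom _ (hFh2 v i j))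
    hS X i1 hi1 hG hcop J0 (gen_of_seq' ch c hch X J0 Λ x hΛ hgen) hFne R hR0 Q hQ0 (M + 1)
    (Nat.succ_ne_zero M) (by
      filter_upwards [hFr, fv_mon hu _ _ _ hR, hrP, hrQ, hΛ] with t t1 t2 t3 t4 t5 v hv
      have hvT : Sum.inr v ∉ T := fun h => hv (hTS h)
      have hμv : fv v (μ' t) = 1 := (hμ' t).2 v hv
      rw [t2 v hv, t3, t4, map_mul, hμv, one_mul]
      refine ⟨hτT t v hvT, ?_⟩
      have e1 : (fun j => rep (ev u (X j)) t) = fun j => Λ t * x t j := funext fun j => t5.2 j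
      have e2 : ∀ i, (fun j => rep (ev u (aeval X (fib (che ch) (F i j)))) t) =
          fun j => Λ t ^ dF i * aeval (x t) (fib (c t) (F i j)) :=
        fun i => funext fun j => t1 i j
      rw [e1]
      simp only [e2]
      exact local_cond' (fv v) (x t) (hx0 t) (ρ t) (τ t) (Λ t) (hρ0 t) (hτ0 t) t5.1
        (hρT t v hvT) (fun i j => aeval (x t) (fib (c t) (F i j))) (hxF t) dF M (hd t v hvT))
  have hAs := hs_dvd hu hS A1 R hAR hR0
  have hmin := minors_height' (che ch) c hch hu hS Gs hm dG hGh X Λ x hrk hΛ hG D J0 hJ0 A hA1 hA2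
  have hall := (hmain.add hCs).add hAs
  obtain ⟨t, ⟨⟨⟨⟨⟨⟨⟨⟨⟨⟨t1, t2⟩, t3⟩, t4⟩, t5⟩, t6⟩, t7⟩, t8⟩, t9⟩, t10⟩, t11⟩, t12⟩ :=
    ((((((((((((hall (ε / 2) (by positivity)).and
    (L_pos (σ := σ))).and (hs_ho (S := S) hS P hP0)).and
    (hs_ho (S := S) hS Q hQ0)).and hmin).and hrP).and hrQ).and
    (hs_mul (S := S) P (mon u e') hP0 (mon_ne hu _))).and (hs_mon hu hS e')).and hFr).and
      hΛ).and hFr2).exists
  simp only at t1
  rw [← hR, t9, add_zero] at t8
  rw [t6] at t3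
  rw [t7] at t4
  have e1 : (fun j => rep (ev u (X j)) t) = fun j => Λ t * x t j := funext fun j => t11.2 j
  have e3 : logHeight (fun j => Λ t * x t j) = logHeight (x t) :=
    logHeight_smul_eq_logHeight (x t) t11.1
  have e5 : ∀ v ∈ S, wt v * (∑ i, (dF2 v i * Real.log (nm (av v) fun j => rep (ev u (X j)) t) -
      Real.log (nm (av v) fun j : Fin w =>
        rep (ev u (aeval X (fib (che ch) (F2 v i j)))) t))) =
      wt v * lc v (x t) (fun i j => aeval (x t) (fib (c t) (F2 v i j))) (dF2 v) := by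
    intro v hv
    rw [← lc_smul v (x t) (hx0 t) _ (hxF2 t v) (dF2 v) (Λ t) t11.1]
    unfold lc
    rw [e1]
    congr 1
    refine Finset.sum_congr rfl fun i _ => ?_
    congr 3
    exact funext fun j => t12 v hv i j
  have e6 : ∑ i, (dF i * (ho S fun j => rep (ev u (X j)) t) -
      ho S fun j : Fin w => rep (ev u (aeval X (fib (che ch) (F i j)))) t) =
      out S (x t) (fun i j => aeval (x t) (fib (c t) (F i j))) dF := by
    rw [← out_smul S hS (x t) (hx0 t) _ (hxF t) dF (Λ t) t11.1]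
    unfold out
    rw [e1]
    refine Finset.sum_congr rfl fun i _ => ?_
    congr 2
    exact funext fun j => t10 i j
  have e7 := lc_change T S hTS hT (x t) (hx0 t) (fun i j => aeval (x t) (fib (c t) (F i j)))
    (hxF t) (fun v i j => aeval (x t) (fib (c t) (F' v i j))) dF dF'
  have e8 : ∑ v ∈ S, wt v * lc v (x t) (fun i j => aeval (x t) (fib (c t) (F2 v i j))) (dF2 v) =
      ∑ v ∈ S, wt v * lc v (x t) (if v ∈ T then fun i j => aeval (x t) (fib (c t) (F' v i j))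
        else fun i j => aeval (x t) (fib (c t) (F i j))) (if v ∈ T then dF' v else dF) := by
    refine Finset.sum_congr rfl fun v _ => ?_
    rw [hF2, hdF2]
    by_cases hv : v ∈ T
    · simp only [if_pos hv]
    · simp only [if_neg hv]
  rw [Finset.sum_congr rfl e5, e6, e8] at t1
  rw [e1, e3, t5, t8] at t1
  have h1 := hbig t
  rw [hσL] at t1 t2
  have h2 : hs S P t ≤ cnt T' (ρ t) := by
    rw [t3, ← prod_formula S hS _ (mul_ne_zero (hμ' t).1 (hρ0 t))]
    refine le_trans (le_of_eq ?_) (hhoρ t)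
    have h3 : ∀ v ∈ S, wt v * Real.log (av v (μ' t * ρ t)) =
        wt v * Real.log (av v (μ' t)) + wt v * Real.log (av v (ρ t)) := by
      intro v _
      rw [map_mul, Real.log_mul ((av v).ne_zero_iff.2 (hμ' t).1)
        ((av v).ne_zero_iff.2 (hρ0 t)), mul_add]
    rw [Finset.sum_congr rfl h3, Finset.sum_add_distrib, (hμ' t).prod_formula hS, zero_add]
  have h3 : hs S Q t ≤ cnt T' (τ t) := by
    rw [t4, ← prod_formula S hS _ (hτ0 t)]
    exact hhoτ t
  have h4 : (0 : ℝ) ≤ t := Nat.cast_nonneg t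
  have h6 : 0 < ε * logHeight (x t) := mul_pos hε t2
  linarith

end Pool.Agent.Run7.h720
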