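import Pool.Agent.Run7.h720.WGerm

/-!
Sequences of points of the members of a family and germs.
-/

set_option autoImplicit false
set_option linter.unusedSectionVars false

namespace Pool.Agent.Run7.h720

open NumberField IsDedekindDomain Height Filter Topology
open Pool.Agent.W180.OP (Pl av wt fv fv_support_finite wt_nonneg nrm)
open Pool.Agent.K1H83.VN
open MvPolynomial (aeval pderiv monomial)

theorem countable_mv' (R : Type) [CommRing R] [Countable R] (n : ℕ) :
    Countable (MvPolynomial (Fin n) R) := by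
  have h1 : Function.Injective fun (p : MvPolynomial (Fin n) R) =>
      (Finsupp.onFinset p.support (fun e => MvPolynomial.coeff e p) (fun e h =>
        MvPolynomial.mem_support_iff.2 h) : (Fin n →₀ ℕ) →₀ R) := by
    intro p p' h
    ext e
    exact DFunLike.congr_fun h e
  exact h1.countable

/-- an enumeration of all families of forms -/
theorem exists_enum (K : Type) [Field K] [NumberField K] (n p : ℕ) :
    ∃ (Φ : ℕ → MvPolynomial (Fin n) (MvPolynomial (Fin p) K)) (e : ℕ → ℕ),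
      (∀ t, (Φ t).IsHomogeneous (e t)) ∧ ∀ (P : MvPolynomial (Fin n) (MvPolynomial (Fin p) K))
        (d : ℕ), P.IsHomogeneous d → ∃ t, Φ t = P := by
  classical
  have := countable_nf K
  have := countable_mv' K p
  have := countable_mv' (MvPolynomial (Fin p) K) n
  have : Nonempty {P : MvPolynomial (Fin n) (MvPolynomial (Fin p) K) // ∃ d, P.IsHomogeneous d} :=
    ⟨⟨0, 0, MvPolynomial.isHomogeneous_zero _ _ _⟩⟩
  obtain ⟨f, hf⟩ := exists_surjective_nat
    {P : MvPolynomial (Fin n) (MvPolynomial (Fin p) K) // ∃ d, P.IsHomogeneous d}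
  refine ⟨fun t => (f t).1, fun t => (f t).2.choose, fun t => (f t).2.choose_spec, ?_⟩
  intro P d hP
  obtain ⟨t, ht⟩ := hf ⟨P, d, hP⟩
  exact ⟨t, congrArg Subtype.val ht⟩

variable {k : Type} [Field k] [NumberField k] {σ : Sc} {S : Finset (Pl k)} {r : ℕ}

section adj
variable {p : ℕ} (ch : Fin p → FF k σ) (c : ℕ → Fin p → k)
  (hch : ∀ j, algebraMap (EE ch) (G k σ) (che ch j) = gm σ fun t => c t j)
include hch

theorem che_aeval (a : MvPolynomial (Fin p) k) :
    algebraMap (EE ch) (G k σ) (aeval (che ch) a) = gm σ fun t => aeval (c t) a := by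
  have h1 := MvPolynomial.aeval_algebraMap_apply (A := EE ch) (B := G k σ) (che ch) a
  rw [← h1]
  have h2 : (fun j => gm σ fun t => c t j) = (algebraMap (EE ch) (G k σ)) ∘ che ch :=
    funext fun j => (hch j).symm
  have h3 := rep_gmc (σ := σ) c a
  rw [h2] at h3
  exact h3

theorem germ_zero (a : MvPolynomial (Fin p) k) (h : ∀ t, aeval (c t) a = 0) :
    aeval (che ch) a = 0 := by
  have h1 := che_aeval ch c hch a
  have h2 : (fun t => aeval (c t) a) = (0 : ℕ → k) := funext h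
  rw [h2, map_zero] at h1
  exact (map_eq_zero (algebraMap (EE ch) (G k σ))).1 h1

theorem germ_ne (a : MvPolynomial (Fin p) k)
    (h : ∀ᶠ t in (σ.𝒰 : Filter ℕ), aeval (c t) a ≠ 0) : aeval (che ch) a ≠ 0 := by
  intro h0
  have h1 := che_aeval ch c hch a
  rw [h0, map_zero] at h1
  exact (gm_ne _).2 h h1.symm

theorem ne_germ (a : MvPolynomial (Fin p) k) (h : aeval (che ch) a ≠ 0) :
    ∀ᶠ t in (σ.𝒰 : Filter ℕ), aeval (c t) a ≠ 0 := by
  rw [← gm_ne, ← che_aeval ch c hch a]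
  exact (map_ne_zero _).2 h

theorem gen_of_seq' {m n : ℕ} {u : Fin r → G k σ} (X : Fin m → MvPolynomial (Fin r) (FF k σ))
    (J0 : Fin n → Fin m) (Λ : ℕ → k) (x : ℕ → Fin m → k)
    (hΛ : ∀ᶠ t in (σ.𝒰 : Filter ℕ), Λ t ≠ 0 ∧ ∀ i, rep (ev u (X i)) t = Λ t * x t i)
    (hx : ∀ (P : MvPolynomial (Fin n) (MvPolynomial (Fin p) k)) (d : ℕ), P.IsHomogeneous d →
      ∀ᶠ t in (σ.𝒰 : Filter ℕ), fib (c t) P ≠ 0 →
        aeval (fun a => x t (J0 a)) (fib (c t) P) ≠ 0)
    (P : MvPolynomial (Fin n) (EE ch)) (hP : P ≠ 0) : ∃ d,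
      aeval (fun a => X (J0 a)) (MvPolynomial.homogeneousComponent d P) ≠ 0 := by
  classical
  obtain ⟨d, hd⟩ : ∃ d, MvPolynomial.homogeneousComponent d P ≠ 0 := by
    by_contra hcon
    push Not at hcon
    apply hP
    rw [← MvPolynomial.sum_homogeneousComponent P]
    exact Finset.sum_eq_zero fun i _ => hcon i
  refine ⟨d, ?_⟩
  obtain ⟨Q, b, hQ, hb, hfib⟩ := clear ch (MvPolynomial.homogeneousComponent d P)
    (MvPolynomial.homogeneousComponent_isHomogeneous d P)
  have hQne : fib (che ch) Q ≠ 0 := by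
    rw [hfib]
    exact mul_ne_zero (fun h => hb (MvPolynomial.C_eq_zero.1 h)) hd
  obtain ⟨e, he⟩ := MvPolynomial.ne_zero_iff.1 hQne
  rw [coeff_fib] at he
  have h1 := ne_germ ch c hch _ he
  have h4 : ∀ᶠ t in (σ.𝒰 : Filter ℕ), aeval (fun a => x t (J0 a)) (fib (c t) Q) ≠ 0 := by
    filter_upwards [h1, hx Q d hQ] with t t1 t2
    apply t2
    intro h0
    apply t1
    rw [← coeff_fib, h0, MvPolynomial.coeff_zero]
  have h5 := ne_of_seq1 (che ch) c hch (u := u) (fun a => X (J0 a)) Λ (fun t a => x t (J0 a)) (by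
    filter_upwards [hΛ] with t t1
    exact ⟨t1.1, fun a => t1.2 (J0 a)⟩) Q hQ h4
  intro h0
  apply h5
  rw [hfib, map_mul, h0, mul_zero]

end adj

/-- the local norms of germs of bounded height are bounded -/
theorem loc_bd {ι : Type} [Fintype ι] (Y : ι → G k σ) (hY : ∃ i, Y i ≠ 0)
    (hB : ∀ i, Y i ∈ BB k σ) (v : Pl k) : ∃ C : ℝ, ∀ᶠ t in (σ.𝒰 : Filter ℕ),
      |wt v * Real.log (nm (av v) fun j => rep (Y j) t)| ≤ C * σ.L t := by
  classical
  have h1 : ∀ i, ∃ C : ℝ, Y i ≠ 0 → 0 ≤ C ∧ ∀ᶠ t in (σ.𝒰 : Filter ℕ),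
      |lv v (Y i) t| ≤ C * σ.L t := by
    intro i
    by_cases h : Y i = 0
    · exact ⟨0, fun h' => absurd h h'⟩
    · obtain ⟨C, hC⟩ := lv_bound v (Y i) h (hB i)
      exact ⟨C, fun _ => hC⟩
  choose C hC using h1
  obtain ⟨i0, hi0⟩ := hY
  have hz : ∀ᶠ t in (σ.𝒰 : Filter ℕ), ∀ i, Y i = 0 → rep (Y i) t = 0 := by
    rw [Filter.eventually_all]
    intro i
    by_cases h : Y i = 0
    · filter_upwards [rep_zero (k := k) (σ := σ)] with t ht _
      rw [h, ht]
    · exact Eventually.of_forall fun t h' => absurd h' h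
  have hb : ∀ᶠ t in (σ.𝒰 : Filter ℕ), ∀ i, Y i ≠ 0 → |lv v (Y i) t| ≤ C i * σ.L t := by
    rw [Filter.eventually_all]
    intro i
    by_cases h : Y i = 0
    · exact Eventually.of_forall fun t h' => absurd h h'
    · filter_upwards [(hC i h).2] with t ht _
      exact ht
  refine ⟨wt v * ∑ i, |C i|, ?_⟩
  filter_upwards [hz, hb, rep_ne _ hi0, L_pos (σ := σ)] with t t1 t2 t3 t4
  rw [abs_mul, abs_of_nonneg (wt_nonneg v), mul_assoc]
  refine mul_le_mul_of_nonneg_left ?_ (wt_nonneg v)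
  have : Nonempty ι := ⟨i0⟩
  obtain ⟨i, hi⟩ := exists_nm (f := av v) fun j => rep (Y j) t
  have hpos : 0 < nm (av v) fun j => rep (Y j) t := nm_pos (av v) (ne_of_coord (i := i0) t3)
  have hne : rep (Y i) t ≠ 0 := by
    intro h
    rw [h, map_zero] at hi
    exact hpos.ne hi
  have hYi : Y i ≠ 0 := fun h => hne (t1 i h)
  rw [← hi]
  refine (t2 i hYi).trans ?_
  refine mul_le_mul_of_nonneg_right ?_ t4.le
  exact (le_abs_self _).trans (Finset.single_le_sum (f := fun i => |C i|)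
    (fun i _ => abs_nonneg _) (Finset.mem_univ i))

end Pool.Agent.Run7.h720
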